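import Mathlib

/-! The size of the `n`-th prime. -/

set_option autoImplicit false

namespace Pool.Agent.U543.Dil

open Filter Topology

/-- the bound for the `K`-th prime (as in `Pool.Agent.H774EP.Core`) -/
theorem nth_le {K : ℕ} (hK : 6 ≤ K) : (Nat.nth Nat.Prime K : ℝ) ≤ 9 * K * Real.log K := by
  set n := Nat.nth Nat.Prime K with hn
  have hnp : n.Prime := Nat.prime_nth_prime K
  have hnK : K + 2 ≤ n := Nat.add_two_le_nth_prime K
  have hpi : Nat.primeCounting n = K + 1 := by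
    unfold Nat.primeCounting Nat.primeCounting'
    rw [Nat.count_succ, if_pos hnp, hn, Nat.count_nth_of_infinite Nat.infinite_setOfPred_prime]
  have h1 := Chebyshev.psi_le_primeCounting_mul_log n
  have h2 := Chebyshev.psi_ge n
  rw [hpi] at h1
  push_cast at h1
  have hKr : (6 : ℝ) ≤ K := by exact_mod_cast hK
  have hnr : (8 : ℝ) ≤ n := by exact_mod_cast (by omega : 8 ≤ n)
  have hlog2 := Real.log_two_gt_d9
  have hln : 0 < Real.log n := Real.log_pos (by linarith)
  have h3 : Real.log (n + 1) ≤ 2 * Real.log n := by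
    rw [← Real.log_rpow (by linarith), ← Nat.cast_ofNat (n := 2)]
    rw [Real.rpow_natCast]
    exact Real.log_le_log (by linarith) (by nlinarith)
  have h4 : (n : ℝ) * Real.log 2 ≤ (K + 3) * Real.log n := by linarith
  have h5 : (n : ℝ) * 0.69 ≤ (K + 3) * Real.log n := le_trans (by nlinarith) h4
  set t := Real.sqrt n with ht
  have htt : t * t = n := Real.mul_self_sqrt (by linarith)
  have ht0 : 0 < t := Real.sqrt_pos.2 (by linarith)
  have h6 : Real.log n = 2 * Real.log t := by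
    rw [← htt, Real.log_mul ht0.ne' ht0.ne']; ring
  have h7 : Real.log t ≤ t := by
    have := Real.log_le_sub_one_of_pos ht0; linarith
  have h8 : t ≤ 3 * (K + 3) := by
    by_contra hcon
    push Not at hcon
    have : t * t * 0.69 ≤ (K + 3) * (2 * t) := by
      rw [htt]
      refine h5.trans ?_
      rw [h6]
      nlinarith
    nlinarith
  have h9 : Real.log n ≤ 4 * Real.log K := by
    have e1 : Real.log t ≤ Real.log (K * K) := Real.log_le_log ht0 (by nlinarith)
    rw [Real.log_mul (by linarith) (by linarith)] at e1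
    rw [h6]; linarith
  have hlK : 0 < Real.log K := Real.log_pos (by linarith)
  have h10 : (n : ℝ) * 0.69 ≤ (K + 3) * (4 * Real.log K) := h5.trans (by nlinarith)
  nlinarith [mul_pos (by linarith : (0:ℝ) < K) hlK, mul_nonneg (by linarith : (0:ℝ) ≤ K - 6) hlK.le]

/-- the `n`-th prime, `pn 1 = 2` -/
noncomputable def pn (n : ℕ) : ℕ := Nat.nth Nat.Prime (n - 1)

theorem pn_le {α : ℝ} (hα : 0 < α) : ∀ᶠ n : ℕ in atTop, (pn n : ℝ) ≤ α * 2 ^ n := by
  have h1 : Tendsto (fun n : ℕ => ((n : ℝ)) ^ 2 * (1 / 2 : ℝ) ^ n) atTop (𝓝 0) :=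
    tendsto_pow_const_mul_const_pow_of_lt_one 2 (by norm_num) (by norm_num)
  have h2 := (tendsto_order.1 h1).2 (α / 9) (by positivity)
  filter_upwards [h2, eventually_ge_atTop 8] with n hn hn8
  have hn8r : (8 : ℝ) ≤ n := by exact_mod_cast hn8
  have h3 := nth_le (K := n - 1) (by omega)
  have e : ((n - 1 : ℕ) : ℝ) = n - 1 := by
    rw [Nat.cast_sub (by omega)]; simp
  rw [e] at h3
  have h4 : Real.log ((n : ℝ) - 1) ≤ (n : ℝ) - 1 - 1 := Real.log_le_sub_one_of_pos (by linarith)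
  have h5 : 9 * ((n : ℝ) - 1) * Real.log ((n : ℝ) - 1) ≤ 9 * n ^ 2 := by
    calc 9 * ((n : ℝ) - 1) * Real.log ((n : ℝ) - 1) ≤ 9 * ((n : ℝ) - 1) * ((n : ℝ) - 1 - 1) :=
          mul_le_mul_of_nonneg_left h4 (by linarith)
      _ ≤ 9 * n ^ 2 := by nlinarith
  have h6 : (n : ℝ) ^ 2 ≤ α / 9 * 2 ^ n := by
    have h7 : (n : ℝ) ^ 2 * (1 / 2 : ℝ) ^ n * 2 ^ n ≤ α / 9 * 2 ^ n :=
      mul_le_mul_of_nonneg_right hn.le (by positivity)
    have h8 : (1 / 2 : ℝ) ^ n * 2 ^ n = 1 := by
      rw [← mul_pow]; norm_num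
    rwa [mul_assoc, h8, mul_one] at h7
  unfold pn
  linarith

theorem pn_ge (κ : ℝ) : ∀ᶠ n : ℕ in atTop, κ * n ≤ pn n := by
  have h1 := Chebyshev.eventually_primeCounting_le (ε := 1) one_pos
  have hl : Tendsto (fun n : ℕ => ((pn n : ℕ) : ℝ)) atTop atTop := by
    apply tendsto_natCast_atTop_atTop.comp
    apply tendsto_atTop_mono (f := fun n : ℕ => n) _ tendsto_id
    intro n
    have := Nat.add_two_le_nth_prime (n - 1)
    unfold pn
    omega
  have h2 := Real.tendsto_log_atTop.comp hl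
  filter_upwards [hl.eventually h1, h2.eventually_ge_atTop (max 1 (κ * (Real.log 4 + 1))),
    eventually_ge_atTop 1] with n hn hn2 hn1
  have hpi : Nat.primeCounting (pn n) = n := by
    unfold pn Nat.primeCounting Nat.primeCounting'
    rw [Nat.count_succ, if_pos (Nat.prime_nth_prime _),
      Nat.count_nth_of_infinite Nat.infinite_setOfPred_prime]
    omega
  rw [Nat.floor_natCast, hpi] at hn
  have hn2' : max 1 (κ * (Real.log 4 + 1)) ≤ Real.log (pn n) := hn2
  have hl1 : 1 ≤ Real.log (pn n) := (le_max_left _ _).trans hn2'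
  have hl2 : κ * (Real.log 4 + 1) ≤ Real.log (pn n) := (le_max_right _ _).trans hn2'
  have hp0 : (0 : ℝ) ≤ pn n := Nat.cast_nonneg _
  have h4 : 0 < Real.log 4 := Real.log_pos (by norm_num)
  have hn' : (n : ℝ) * Real.log (pn n) ≤ (Real.log 4 + 1) * pn n := by
    rw [div_eq_mul_inv] at hn
    have h5 : (n : ℝ) * Real.log (pn n) ≤
        (Real.log 4 + 1) * (pn n) * (Real.log (pn n))⁻¹ * Real.log (pn n) :=
      mul_le_mul_of_nonneg_right hn (by linarith)
    rwa [mul_assoc _ (Real.log (pn n))⁻¹, inv_mul_cancel₀ (by linarith), mul_one] at h5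
  by_contra hcon
  push Not at hcon
  have h6 : (n : ℝ) * (κ * (Real.log 4 + 1)) ≤ (n : ℝ) * Real.log (pn n) :=
    mul_le_mul_of_nonneg_left hl2 (Nat.cast_nonneg n)
  have h7 : (Real.log 4 + 1) * (pn n : ℝ) < (Real.log 4 + 1) * (κ * n) :=
    mul_lt_mul_of_pos_left hcon (by linarith)
  have h8 : (n : ℝ) * (κ * (Real.log 4 + 1)) = (Real.log 4 + 1) * (κ * n) := by ring
  linarith

end Pool.Agent.U543.Dil
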