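import Pool.Agent.U543.TyDesc

/-!
# Solutions of linear systems over `R` with initial values over `R` are defined over `R`
-/

set_option autoImplicit false
set_option linter.unusedSectionVars false

open Filter Topology

namespace Pool.Agent.U543.TY

variable {X : Type} [Fintype X] [DecidableEq X] {R : Subfield ℂ} {x₀ : X → ℂ}

theorem Tk.poly (p : MvPolynomial X R) (hx : ∀ j, x₀ j ∈ R) : Tk R x₀ fun x => MvPolynomial.aeval x p := by
  induction p using MvPolynomial.induction_on with
  | C a =>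
    simp only [MvPolynomial.aeval_C]
    exact Tk.const a.2
  | add p q hp hq =>
    simp only [map_add]
    exact hp.add hq
  | mul_X p i hp =>
    simp only [map_mul, MvPolynomial.aeval_X]
    exact hp.mul (Tk.coord i (hx i))

theorem pd_sum {J : Type} (s : Finset J) (l : X) (g : J → (X → ℂ) → ℂ) (x : X → ℂ)
    (hg : ∀ j ∈ s, AnalyticAt ℂ (g j) x) : pd l (fun x => ∑ j ∈ s, g j x) x = ∑ j ∈ s, pd l (g j) x := by
  rw [pd, fderiv_fun_sum fun j hj => (hg j hj).differentiableAt, _root_.sum_apply]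
  rfl

variable {ι ι' : Type} [Fintype ι]

theorem lin_key {U : Set (X → ℂ)} (hUo : IsOpen U) {Y : (X → ℂ) → Matrix ι ι' ℂ}
    (hY : ∀ i j, AnalyticOnNhd ℂ (fun x => Y x i j) U) (q : MvPolynomial X R) (A : X → Matrix ι ι (MvPolynomial X R))
    (hx₀ : x₀ ∈ U) (hx₀R : ∀ j, x₀ j ∈ R) (hY₀ : ∀ i j, Y x₀ i j ∈ R) (hq : ∀ x ∈ U, MvPolynomial.aeval x q ≠ 0)
    (hsys : ∀ x ∈ U, ∀ (l : X) (i : ι) (j : ι'), MvPolynomial.aeval x q * pd l (fun x => Y x i j) x =
      ∑ m, MvPolynomial.aeval x (A l i m) * Y x m j) (j : ι') :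
    ∀ (L : List X) (u : ι → (X → ℂ) → ℂ), (∀ m, Tk R x₀ (u m)) → pdL L (fun x => ∑ m, u m x * Y x m j) x₀ ∈ R := by
  classical
  intro L
  induction L with
  | nil =>
    intro u hu
    exact sum_mem fun m _ => mul_mem ((hu m).2 []) (hY₀ m j)
  | cons l L ih =>
    intro u hu
    have hq' : Tk R x₀ fun x => (MvPolynomial.aeval x q : ℂ)⁻¹ := (Tk.poly q hx₀R).inv (hq x₀ hx₀)
    let u' : ι → (X → ℂ) → ℂ := fun p x =>
      pd l (u p) x + ∑ m, u m x * (MvPolynomial.aeval x (A l m p) * (MvPolynomial.aeval x q : ℂ)⁻¹)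
    have hu' : ∀ p, Tk R x₀ (u' p) := fun p =>
      ((hu p).pd l).add (Tk.sum _ _ fun m _ => (hu m).mul ((Tk.poly (A l m p) hx₀R).mul hq'))
    have h1 : pd l (fun x => ∑ m, u m x * Y x m j) =ᶠ[𝓝 x₀] fun x => ∑ p, u' p x * Y x p j := by
      have h2 : ∀ᶠ x in 𝓝 x₀, ∀ m, AnalyticAt ℂ (u m) x :=
        eventually_all.2 fun m => (hu m).1.eventually_analyticAt
      filter_upwards [h2, hUo.mem_nhds hx₀] with x hx hxU
      have h3 : ∀ m, pd l (fun x => u m x * Y x m j) x = pd l (u m) x * Y x m j + u m x * pd l (fun x => Y x m j) x := by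
        intro m
        simp only [pd]
        rw [fderiv_fun_mul (hx m).differentiableAt (hY m j x hxU).differentiableAt]
        simp only [_root_.add_apply, _root_.smul_apply, smul_eq_mul]
        ring
      have h4 : ∀ m, pd l (fun x => Y x m j) x =
          ∑ p, (MvPolynomial.aeval x (A l m p) * (MvPolynomial.aeval x q : ℂ)⁻¹) * Y x p j := by
        intro m
        have h5 := hsys x hxU l m j
        have h6 := hq x hxU
        rw [eq_comm, ← mul_right_inj' h6, h5, Finset.mul_sum]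
        refine Finset.sum_congr rfl fun p _ => ?_
        field_simp
      have h7 : pd l (fun x => ∑ m, u m x * Y x m j) x = ∑ m, pd l (fun x => u m x * Y x m j) x :=
        pd_sum Finset.univ l (fun m x => u m x * Y x m j) x fun m _ => (hx m).mul (hY m j x hxU)
      rw [h7]
      simp only [h3, h4, u', add_mul, Finset.sum_add_distrib]
      congr 1
      simp only [Finset.mul_sum, Finset.sum_mul]
      rw [Finset.sum_comm]
      refine Finset.sum_congr rfl fun p _ => Finset.sum_congr rfl fun m _ => ?_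
      ring
    change pdL L (pd l fun x => ∑ m, u m x * Y x m j) x₀ ∈ R
    rw [(pdL_congr L h1).eq_of_nhds]
    exact ih u' hu'

theorem definedOver_of_linear [DecidableEq ι] {U : Set (X → ℂ)} (hUo : IsOpen U) {Y : (X → ℂ) → Matrix ι ι' ℂ}
    (hY : ∀ i j, AnalyticOnNhd ℂ (fun x => Y x i j) U) (h : LinearSystem R U Y) : DefinedOver R U Y := by
  obtain ⟨q, A, x₀, hx₀, hx₀R, hY₀, hq, hsys⟩ := h
  refine ⟨x₀, hx₀, hx₀R, fun i j L => ?_⟩
  have h1 := lin_key hUo hY q A hx₀ hx₀R hY₀ hq hsys j L (fun m _ => if m = i then 1 else 0) (fun m => by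
    refine Tk.const ?_
    split_ifs
    · exact one_mem R
    · exact zero_mem R)
  have h2 : (fun x => ∑ m, (if m = i then (1 : ℂ) else 0) * Y x m j) = fun x => Y x i j := by
    funext x
    simp
  rw [h2] at h1
  exact h1

end Pool.Agent.U543.TY
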