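import Pool.Agent.U543.GalSys

/-!
# Solutions of linear systems over the ring of periods vanish on the fibre of the closure, at almost all points
-/

set_option autoImplicit false
set_option linter.unusedSectionVars false

open NumberField Filter

namespace Pool.Agent.U543.GS

open Pool.Agent.Y890.MV
open Pool.Agent.Y890.SP (Qbar)
open Pool.Agent.Y124 (Cov)

variable {σ : Type} [Fintype σ] [DecidableEq σ]

/-- evaluation of a polynomial over any ring as a sum over all exponents at most `δ` -/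
theorem eval2_eq {τ A : Type} [Fintype τ] [DecidableEq τ] [CommRing A] (φ : A →+* ℂ) {δ : ℕ} (F : MvPolynomial τ A)
    (hF : ∀ y, F.degreeOf y ≤ δ) (Z : τ → ℂ) :
    MvPolynomial.eval₂ φ Z F = ∑ l : τ → Fin (δ + 1), φ (F.coeff (ex l)) * ∏ y, Z y ^ (l y : ℕ) := by
  have h1 : MvPolynomial.eval₂ φ Z F = MvPolynomial.eval Z (MvPolynomial.map φ F) := by
    rw [MvPolynomial.eval_map]
  rw [h1, eval_eq (δ := δ)]
  · refine Finset.sum_congr rfl fun l _ => ?_
    rw [MvPolynomial.coeff_map]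
  · intro y
    exact (MvPolynomial.degreeOf_le_iff.2 fun m hm => by
      have h2 : m ∈ F.support := by
        rw [MvPolynomial.mem_support_iff] at hm ⊢
        intro h3
        apply hm
        rw [MvPolynomial.coeff_map, h3, map_zero]
      exact (MvPolynomial.monomial_le_degreeOf y h2).trans (hF y))

/-- the fibre at `s` of the closure of the graph of `f` over the field `R` -/
def FibG {X : Type} (R : Subfield ℂ) (U : Set (X → ℂ)) (f : σ → (X → ℂ) → ℂ) (s : X → ℂ) : Set (σ → ℂ) :=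
  {Y | ∀ H : MvPolynomial σ (MvPolynomial X R),
    (∀ x ∈ U, MvPolynomial.eval₂ (MvPolynomial.eval₂Hom R.subtype x) (fun i => f i x) H = 0) →
      MvPolynomial.eval₂ (MvPolynomial.eval₂Hom R.subtype s) Y H = 0}

/-- points at which some solution in small integers of the system `Q` is not a solution on the fibre of the closure -/
def ExcF {X h r : Type} [Fintype h] (R : Subfield ℂ) (Q : r → h → MvPolynomial σ R) (U : Set (X → ℂ))
    (f : σ → (X → ℂ) → ℂ) (Lc : Set (X → ℂ)) (K : Type) [Field K] [NumberField K] (io : K →+* ℂ) (A T : ℝ) :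
    Set (X → K) :=
  {s | (∀ j, Y120.HtLe K T (s j)) ∧ (fun j => io (s j)) ∈ Lc ∧ ∃ c : h → 𝓞 K,
    (∀ i (φ : K →+* ℂ), ‖φ (c i : K)‖ ≤ T ^ A) ∧
    (∀ ρ, ∑ i, MvPolynomial.eval₂ R.subtype (fun y => f y fun j => io (s j)) (Q ρ i) * io (c i : K) = 0) ∧
    ¬ ∀ Y ∈ FibG R U f (fun j => io (s j)), ∀ ρ, ∑ i, MvPolynomial.eval₂ R.subtype Y (Q ρ i) * io (c i : K) = 0}

theorem excF_sub {X h r : Type} [Fintype h] {δ : ℕ} (R : Subfield ℂ) (hR : ∀ z : ℂ, IsAlgebraic ℚ z → z ∈ R)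
    (Q : r → h → MvPolynomial σ R) (hQ : ∀ ρ i y, (Q ρ i).degreeOf y ≤ δ) {U : Set (X → ℂ)}
    {f : σ → (X → ℂ) → ℂ} {Lc : Set (X → ℂ)} (K : Type) [Field K] [NumberField K] (io : K →+* ℂ) (A T : ℝ) :
    ExcF R Q U f Lc K io A T ⊆
      ExcM (δ := δ) U f Lc K io (fun ρ l i => (((Q ρ i).coeff (ex l) : R) : ℂ)) A T := by
  classical
  rintro s ⟨h1, h2, c, h3, h4, h5⟩
  -- the algebraic numbers are contained in `R`
  let em : Qbar →+* R := (algebraMap Qbar ℂ).codRestrict R fun z => hR _ (by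
    have := z.2
    exact (mem_algebraicClosure_iff.1 this))
  have hem : ∀ z : Qbar, ((em z : R) : ℂ) = algebraMap Qbar ℂ z := fun z => rfl
  have key : ∀ (Y : σ → ℂ) (w : h → ℂ) (ρ : r),
      ∑ l : σ → Fin (δ + 1), (∑ i, (((Q ρ i).coeff (ex l) : R) : ℂ) * w i) * ∏ y, Y y ^ (l y : ℕ) =
        ∑ i, MvPolynomial.eval₂ R.subtype Y (Q ρ i) * w i := by
    intro Y w ρ
    simp only [Finset.sum_mul, eval2_eq R.subtype _ (hQ ρ _)]
    rw [Finset.sum_comm]
    refine Finset.sum_congr rfl fun i _ => Finset.sum_congr rfl fun l _ => ?_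
    show _ = (((Q ρ i).coeff (ex l) : R) : ℂ) * _ * _
    ring
  refine ⟨h1, h2, c, h3, ?_, ?_⟩
  · intro ρ
    rw [key]
    exact h4 ρ
  · rintro ⟨G, hG1, hG2⟩
    apply h5
    intro Y hY ρ
    set P : MvPolynomial σ (MvPolynomial X R) := ∑ l : σ → Fin (δ + 1),
      MvPolynomial.C (∑ i, MvPolynomial.C ((Q ρ i).coeff (ex l)) * MvPolynomial.map em (G i)) *
        ∏ y, MvPolynomial.X y ^ (l y : ℕ) with hP
    have hev : ∀ (x : X → ℂ) (Z : σ → ℂ), MvPolynomial.eval₂ (MvPolynomial.eval₂Hom R.subtype x) Z P =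
        ∑ l : σ → Fin (δ + 1), (∑ i, (((Q ρ i).coeff (ex l) : R) : ℂ) * MvPolynomial.aeval x (G i)) *
          ∏ y, Z y ^ (l y : ℕ) := by
      intro x Z
      have h6 : MvPolynomial.eval₂ (MvPolynomial.eval₂Hom R.subtype x) Z P =
        MvPolynomial.eval₂Hom (MvPolynomial.eval₂Hom R.subtype x) Z P := rfl
      rw [h6, hP]
      simp only [map_sum, map_mul, map_prod, map_pow, MvPolynomial.eval₂Hom_C, MvPolynomial.eval₂Hom_X']
      refine Finset.sum_congr rfl fun l _ => ?_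
      congr 1
      refine Finset.sum_congr rfl fun i _ => ?_
      congr 1
      rw [MvPolynomial.coe_eval₂Hom, MvPolynomial.eval₂_map]
      rfl
    have h6 : ∀ x ∈ U, MvPolynomial.eval₂ (MvPolynomial.eval₂Hom R.subtype x) (fun i => f i x) P = 0 := by
      intro x hx
      have h7 := hG2 x hx ρ
      rw [hev]
      exact h7
    have h7 := hY P h6
    rw [hev, key] at h7
    simp only [hG1] at h7
    exact h7

theorem excF_cov {X : Type} [Fintype X] [DecidableEq X] [Nonempty X] {U : Set (X → ℂ)}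
    {f : σ → (X → ℂ) → ℂ} (hU : IsPreconnected U) (hUo : IsOpen U) (hne : U.Nonempty)
    (hf : ∀ i, AnalyticOnNhd ℂ (f i) U) (hreg : RegularM U f) (Lc : Set (X → ℂ))
    (hLc : IsCompact Lc) (hLU : Lc ⊆ U) (δ : ℕ) (h r : Type) [Fintype h] [DecidableEq h] [Fintype r] [DecidableEq r]
    (m : ℕ) (A ε : ℝ) (hε : 0 < ε) : ∃ (D : ℕ) (C T₀ : ℝ), 0 ≤ C ∧ 2 ≤ T₀ ∧
      ∀ (K : Type) [Field K] [NumberField K], Module.finrank ℚ K ≤ m → ∀ (io : K →+* ℂ) (R : Subfield ℂ),
        (∀ z : ℂ, IsAlgebraic ℚ z → z ∈ R) → ∀ (Q : r → h → MvPolynomial σ R), (∀ ρ i y, (Q ρ i).degreeOf y ≤ δ) →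
        ∀ (T : ℝ), T₀ ≤ T → Cov D ⌊C * T ^ ε⌋₊ ((fun (s : X → K) j => io (s j)) '' ExcF R Q U f Lc K io A T) := by
  classical
  obtain ⟨D, C, T₀, hC, hT₀, H⟩ := excM_cov stmZ stmClose stmCharts hU hUo hne hf hreg Lc hLc hLU δ h r m A ε hε
  refine ⟨D, C, T₀, hC, hT₀, fun K _ _ hK io R hR Q hQ T hT0 => ?_⟩
  exact (H K hK io (fun ρ l i => (((Q ρ i).coeff (ex l) : R) : ℂ)) T hT0).mono le_rfl le_rfl
    (Set.image_mono (excF_sub R hR Q hQ K io A T))

end Pool.Agent.U543.GS
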