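import Pool.Agent.Q189.HC.Liou
import Pool.Agent.TH456.TM.Close
import Pool.Agent.Y890.SM.Full

/-! Lower bounds for linear combinations of integers of number fields with coefficients in a field generated by a number
with a transcendence measure. -/

set_option autoImplicit false
set_option linter.unusedSectionVars false

open Polynomial NumberField

namespace Pool.Agent.U543.NR

open Pool.Agent.TH456.TM (MeasT)
open Pool.Agent.Y916.Sl (AInt)
open Pool.Agent.Y890.SP (Qbar)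
open Pool.Agent.Q246.NR (len)

theorem aint_of {x : ℂ} (f : ℤ[X]) (hf : f.Monic) {m : ℕ} (hm : f.natDegree ≤ m) (hx : aeval x f = 0) {T : ℝ}
    (hT : 0 ≤ T) (h : ∀ z : ℂ, aeval z f = 0 → ‖z‖ ≤ T) : AInt m T x := by
  refine ⟨f * X ^ (m - f.natDegree), hf.mul (monic_X_pow _), ?_, ?_, ?_⟩
  · rw [hf.natDegree_mul (monic_X_pow _), natDegree_X_pow]
    omega
  · rw [map_mul, hx, zero_mul]
  · intro z hz
    rw [map_mul, mul_eq_zero] at hz
    rcases hz with hz | hz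
    · exact h z hz
    · rw [map_pow, aeval_X] at hz
      have : z = 0 := eq_zero_of_pow_eq_zero hz
      rw [this, norm_zero]
      exact hT

theorem aint_K {K : Type} [Field K] [NumberField K] (io : K →+* ℂ) {m : ℕ} (hm : Module.finrank ℚ K ≤ m) (y : 𝓞 K)
    {T : ℝ} (hT : 0 ≤ T) (h : ∀ φ : K →+* ℂ, ‖φ (y : K)‖ ≤ T) : AInt m T (io (y : K)) := by
  have hy : IsIntegral ℤ (y : K) := y.isIntegral_coe
  have hmin : minpoly ℚ (y : K) = (minpoly ℤ (y : K)).map (algebraMap ℤ ℚ) :=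
    minpoly.isIntegrallyClosed_eq_field_fractions' ℚ hy
  refine aint_of (minpoly ℤ (y : K)) (minpoly.monic hy) ?_ ?_ hT ?_
  · have h1 : (minpoly ℤ (y : K)).natDegree = (minpoly ℚ (y : K)).natDegree := by
      rw [hmin, (minpoly.monic hy).natDegree_map]
    rw [h1]
    exact (minpoly.natDegree_le _).trans hm
  · have h1 := Polynomial.hom_eval₂ (minpoly ℤ (y : K)) (algebraMap ℤ K) io (y : K)
    rw [← aeval_def, minpoly.aeval, map_zero] at h1
    rw [aeval_def, h1]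
    congr 1
    exact RingHom.ext_int _ _
  · intro z hz
    have h1 : z ∈ (minpoly ℚ (y : K)).rootSet ℂ := by
      rw [mem_rootSet]
      refine ⟨minpoly.ne_zero hy.tower_top, ?_⟩
      rw [hmin, aeval_map_algebraMap]
      exact hz
    rw [← NumberField.Embeddings.range_eval_eq_rootSet_minpoly K ℂ (y : K)] at h1
    obtain ⟨φ, hφ⟩ := h1
    rw [← hφ]
    exact h φ

theorem exists_aint {x : ℂ} (hx : IsIntegral ℤ x) : ∃ (m : ℕ) (T : ℝ), 0 ≤ T ∧ ∀ m' T', m ≤ m' → T ≤ T' → AInt m' T' x := by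
  classical
  set f := minpoly ℤ x with hf
  have hmon : f.Monic := minpoly.monic hx
  set S : Finset ℂ := (f.map (algebraMap ℤ ℂ)).roots.toFinset with hS
  refine ⟨f.natDegree, ∑ z ∈ S, ‖z‖, Finset.sum_nonneg fun _ _ => norm_nonneg _, fun m' T' hm hT => ?_⟩
  refine aint_of f hmon hm (minpoly.aeval _ _) ((Finset.sum_nonneg fun _ _ => norm_nonneg _).trans hT) ?_
  intro z hz
  refine le_trans ?_ hT
  have h1 : z ∈ S := by
    rw [hS, Multiset.mem_toFinset, mem_roots (hmon.map _).ne_zero, IsRoot.def, eval_map]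
    exact hz
  exact Finset.single_le_sum (f := fun z : ℂ => ‖z‖) (fun _ _ => norm_nonneg _) h1

theorem lb0 {θ : ℂ} (hθ : MeasT θ) {h : Type} [Fintype h] (g : h → Qbar[X]) (m : ℕ) (A : ℝ) :
    ∃ C T₀ : ℝ, 0 ≤ C ∧ 2 ≤ T₀ ∧ ∀ (K : Type) [Field K] [NumberField K], Module.finrank ℚ K ≤ m →
      ∀ (io : K →+* ℂ) (T : ℝ), T₀ ≤ T → ∀ y : h → 𝓞 K, (∀ p (φ : K →+* ℂ), ‖φ (y p : K)‖ ≤ T ^ A) →
        (∑ p, aeval θ (g p) * io (y p : K)) = 0 ∨ T ^ (-C) ≤ ‖∑ p, aeval θ (g p) * io (y p : K)‖ := by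
  classical
  set N : ℕ := ∑ p, (g p).natDegree with hN
  have hgN : ∀ p, (g p).natDegree ≤ N := fun p =>
    Finset.single_le_sum (f := fun p => (g p).natDegree) (fun _ _ => Nat.zero_le _) (Finset.mem_univ p)
  let E := h × Fin (N + 1)
  have : Algebra.IsAlgebraic ℚ Qbar := algebraicClosure.isAlgebraic ℚ ℂ
  have halgZ : Algebra.IsAlgebraic ℤ Qbar := (IsFractionRing.comap_isAlgebraic_iff (A := ℤ) (K := ℚ) (C := Qbar)).2 this
  obtain ⟨D0, hD0, hint⟩ := Algebra.IsAlgebraic.exists_integral_multiples ℤ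
    (Finset.univ.image fun e : E => (g e.1).coeff (e.2 : ℕ))
  let β : E → ℂ := fun e => algebraMap Qbar ℂ (D0 • (g e.1).coeff (e.2 : ℕ))
  have hβ : ∀ e, IsIntegral ℤ (β e) := fun e =>
    (hint _ (Finset.mem_image_of_mem _ (Finset.mem_univ e))).map ((algebraMap Qbar ℂ).toIntAlgHom)
  choose mm TT hTT hA using fun e => exists_aint (hβ e)
  obtain ⟨m', hm'⟩ : ∃ m', m' = m + ∑ e, mm e := ⟨_, rfl⟩
  obtain ⟨T1, hT1⟩ : ∃ T1 : ℝ, T1 = ∑ e, TT e := ⟨_, rfl⟩
  obtain ⟨A₁, hA₁⟩ : ∃ A₁ : ℝ, A₁ = max A 1 := ⟨_, rfl⟩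
  have hA₁0 : 0 ≤ A₁ := by rw [hA₁]; exact le_trans zero_le_one (le_max_right _ _)
  let en : (E ⊕ h) ≃ Fin (Fintype.card (E ⊕ h)) := Fintype.equivFin (E ⊕ h)
  let P : MvPolynomial (Option (Fin (Fintype.card (E ⊕ h)))) ℤ := ∑ p, ∑ j : Fin (N + 1),
    MvPolynomial.X (some (en (Sum.inl (p, j)))) * MvPolynomial.X (some (en (Sum.inr p))) *
      MvPolynomial.X none ^ (j : ℕ)
  obtain ⟨κ, c, hc, hL⟩ := Pool.Agent.Q189.HC.liouT hθ m' (Fintype.card (E ⊕ h)) P.totalDegree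
  obtain ⟨Λ, hΛ⟩ : ∃ Λ : ℝ, Λ = max 1 (len P) := ⟨_, rfl⟩
  have hΛ1 : 1 ≤ Λ := by rw [hΛ]; exact le_max_left _ _
  obtain ⟨a, ha⟩ : ∃ a : ℝ, a = A₁ * ((P.totalDegree * κ : ℕ) : ℝ) := ⟨_, rfl⟩
  have ha0 : 0 ≤ a := by rw [ha]; positivity
  refine ⟨a + 1, max 2 (max T1 (|(D0 : ℝ)| * Λ ^ κ / c)), by linarith, le_max_left _ _, ?_⟩
  intro K _ _ hK io T hT y hy
  obtain ⟨S, hS⟩ : ∃ S : ℂ, S = ∑ p, aeval θ (g p) * io (y p : K) := ⟨_, rfl⟩
  rw [← hS]
  by_cases hS0 : S = 0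
  · exact Or.inl hS0
  refine Or.inr ?_
  have hT2 : 2 ≤ T := (le_max_left _ _).trans hT
  have hT3 : T1 ≤ T := ((le_max_left _ _).trans (le_max_right _ _)).trans hT
  have hT4 : |(D0 : ℝ)| * Λ ^ κ / c ≤ T := ((le_max_right _ _).trans (le_max_right _ _)).trans hT
  have hTp : 0 < T := by linarith
  have hT1' : 1 ≤ T := by linarith
  have hTA : T ≤ T ^ A₁ := by
    conv_lhs => rw [← Real.rpow_one T]
    exact Real.rpow_le_rpow_of_exponent_le hT1' (by rw [hA₁]; exact le_max_right _ _)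
  let x : Fin (Fintype.card (E ⊕ h)) → ℂ := fun i => Sum.elim β (fun p => io (y p : K)) (en.symm i)
  have hx : ∀ j, AInt m' (T ^ A₁) (x j) := by
    intro j
    obtain ⟨o, rfl⟩ := en.surjective j
    simp only [x, Equiv.symm_apply_apply]
    rcases o with e | p
    · refine hA e m' _ ?_ ?_
      · rw [hm']
        exact (Finset.single_le_sum (f := mm) (fun _ _ => Nat.zero_le _) (Finset.mem_univ e)).trans
          (Nat.le_add_left _ _)
      · refine le_trans ?_ (hT3.trans hTA)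
        rw [hT1]
        exact Finset.single_le_sum (f := TT) (fun e _ => hTT e) (Finset.mem_univ e)
    · refine aint_K io (hK.trans ?_) (y p) (by positivity) fun φ => (hy p φ).trans ?_
      · rw [hm']
        exact Nat.le_add_right _ _
      · exact Real.rpow_le_rpow_of_exponent_le hT1' (by rw [hA₁]; exact le_max_left _ _)
  have hval : MvPolynomial.aeval (Pool.Agent.Q189.HC.op θ x) P = (D0 : ℂ) * S := by
    simp only [P, map_sum, map_mul, map_pow, MvPolynomial.aeval_X]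
    rw [hS, Finset.mul_sum]
    refine Finset.sum_congr rfl fun p _ => ?_
    rw [aeval_eq_sum_range' (Nat.lt_succ_of_le (hgN p)), Finset.sum_mul, Finset.mul_sum, Finset.sum_range]
    refine Finset.sum_congr rfl fun j _ => ?_
    simp only [Pool.Agent.Q189.HC.op, Option.elim, x, Equiv.symm_apply_apply, Sum.elim_inl, Sum.elim_inr, β]
    rw [map_zsmul, zsmul_eq_mul, Algebra.smul_def]
    ring
  have hD0' : (D0 : ℂ) ≠ 0 := by exact_mod_cast hD0
  have h1 := hL x (T ^ A₁) (hT1'.trans hTA) hx P le_rfl Λ hΛ1 (by rw [hΛ]; exact le_max_right _ _)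
    ⟨θ, by rw [hval]; exact mul_ne_zero hD0' hS0⟩
  rw [hval, norm_mul, Complex.norm_intCast, mul_pow, ← pow_mul, ← Real.rpow_natCast (T ^ A₁),
    ← Real.rpow_mul hTp.le, ← ha] at h1
  have hV : 0 < T ^ a := Real.rpow_pos_of_pos hTp _
  rw [Real.rpow_neg hTp.le, Real.rpow_add hTp, Real.rpow_one, inv_le_iff_one_le_mul₀' (by positivity)]
  rw [div_le_iff₀ hc] at hT4
  have hSn : 0 ≤ ‖S‖ := norm_nonneg _
  have h2 : c * 1 ≤ c * (T ^ a * T * ‖S‖) := by
    calc c * 1 = c := mul_one c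
      _ ≤ Λ ^ κ * T ^ a * (|(D0 : ℝ)| * ‖S‖) := h1
      _ = (|(D0 : ℝ)| * Λ ^ κ) * (T ^ a * ‖S‖) := by ring
      _ ≤ (T * c) * (T ^ a * ‖S‖) := mul_le_mul_of_nonneg_right hT4 (by positivity)
      _ = c * (T ^ a * T * ‖S‖) := by ring
  exact le_of_mul_le_mul_left h2 hc

/-- Linear combinations with fixed coefficients in `k` of integers of a number field are zero or not small. -/
def LB (k : Type) [Field k] [Algebra k ℂ] : Prop :=
  ∀ (h : Type) [Fintype h] (a : h → k) (m : ℕ) (A : ℝ), ∃ C T₀ : ℝ, 0 ≤ C ∧ 2 ≤ T₀ ∧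
    ∀ (K : Type) [Field K] [NumberField K], Module.finrank ℚ K ≤ m →
      ∀ (io : K →+* ℂ) (T : ℝ), T₀ ≤ T → ∀ y : h → 𝓞 K, (∀ p (φ : K →+* ℂ), ‖φ (y p : K)‖ ≤ T ^ A) →
        (∑ p, algebraMap k ℂ (a p) * io (y p : K)) = 0 ∨
          T ^ (-C) ≤ ‖∑ p, algebraMap k ℂ (a p) * io (y p : K)‖

theorem lb_adjoin {θ : ℂ} (hθ : MeasT θ) : LB (IntermediateField.adjoin Qbar {θ}) := by
  classical
  intro h _ a m A
  have hfr : ∀ p, ∃ r s : Qbar[X], aeval θ s ≠ 0 ∧ aeval θ s * algebraMap _ ℂ (a p) = aeval θ r := by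
    intro p
    obtain ⟨r, s, hrs⟩ := (IntermediateField.mem_adjoin_simple_iff Qbar (a p : ℂ)).1 (a p).2
    by_cases hs : aeval θ s = 0
    · refine ⟨0, 1, by simp, ?_⟩
      rw [hs, div_zero] at hrs
      have h1 : algebraMap (IntermediateField.adjoin Qbar {θ}) ℂ (a p) = (a p : ℂ) := rfl
      rw [h1, hrs, map_zero, mul_zero]
    · refine ⟨r, s, hs, ?_⟩
      have h1 : algebraMap (IntermediateField.adjoin Qbar {θ}) ℂ (a p) = (a p : ℂ) := rfl
      rw [h1, hrs, mul_div_cancel₀ _ hs]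
  choose r s hs hrs using hfr
  let g : h → Qbar[X] := fun p => r p * ∏ q ∈ Finset.univ.erase p, s q
  obtain ⟨w, hw⟩ : ∃ w : ℂ, w = aeval θ (∏ q, s q) := ⟨_, rfl⟩
  have hw0 : w ≠ 0 := by
    rw [hw, map_prod]
    exact Finset.prod_ne_zero_iff.2 fun q _ => hs q
  have hg : ∀ p, aeval θ (g p) = w * algebraMap _ ℂ (a p) := by
    intro p
    simp only [g]
    rw [hw, map_mul, ← hrs p, ← Finset.mul_prod_erase Finset.univ s (Finset.mem_univ p), map_mul]
    ring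
  obtain ⟨C, T₀, hC, hT₀, H⟩ := lb0 hθ g m A
  refine ⟨C + 1, max T₀ ‖w‖, by linarith, hT₀.trans (le_max_left _ _), ?_⟩
  intro K _ _ hK io T hT y hy
  have h1 : ∑ p, aeval θ (g p) * io (y p : K) = w * ∑ p, algebraMap _ ℂ (a p) * io (y p : K) := by
    rw [Finset.mul_sum]
    refine Finset.sum_congr rfl fun p _ => ?_
    rw [hg]
    ring
  have hTT : T₀ ≤ T := (le_max_left _ _).trans hT
  have hTp : 0 < T := by linarith
  rcases H K hK io T hTT y hy with h2 | h2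
  · rw [h1] at h2
    exact Or.inl ((mul_eq_zero.1 h2).resolve_left hw0)
  · right
    rw [h1, norm_mul] at h2
    have h3 : ‖w‖ ≤ T := (le_max_right _ _).trans hT
    rw [neg_add, Real.rpow_add hTp, Real.rpow_neg_one]
    have h4 := h2.trans (mul_le_mul_of_nonneg_right h3 (norm_nonneg _))
    calc T ^ (-C) * T⁻¹ ≤ (T * ‖∑ p, algebraMap _ ℂ (a p) * io (y p : K)‖) * T⁻¹ :=
          mul_le_mul_of_nonneg_right h4 (by positivity)
      _ = ‖∑ p, algebraMap _ ℂ (a p) * io (y p : K)‖ := by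
          field_simp

/-- `2 π i` has a transcendence measure -/
theorem measT_tpi : MeasT Pool.Agent.Y890.SM.tpi := by
  have h1 := Pool.Agent.TH456.TM.measT_mul_alg Pool.Agent.TH456.TM.measT_pi (2 * Complex.I) ?_ ?_
  · have h2 : Pool.Agent.Y890.SM.tpi = 2 * Complex.I * (Real.pi : ℂ) := by
      unfold Pool.Agent.Y890.SM.tpi
      ring
    rw [h2]
    first
      | exact h1
      | (rw [mul_comm]; exact h1)
  · refine ⟨X ^ 2 + C 4, ?_, ?_⟩
    · intro h0
      have := congrArg (fun p => Polynomial.coeff p 2) h0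
      simp at this
    · simp only [map_add, map_pow, aeval_X, aeval_C, mul_pow, Complex.I_sq]
      norm_num
  · exact mul_ne_zero two_ne_zero Complex.I_ne_zero

end Pool.Agent.U543.NR
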