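import Pool.Agent.U543.TyDef
import Pool.Agent.U543.NrLb
import Pool.Agent.U543.FibSys

/-!
# Fields generated by numbers with a measure of algebraic independence are separated
-/

set_option autoImplicit false
set_option linter.unusedSectionVars false

open Module NumberField

namespace Pool.Agent.U543.TY

open Pool.Agent.Q246.NR Pool.Agent.Q246.LN Pool.Agent.Y916.Sl Pool.Agent.Y916.Al
open Pool.Agent.Y890.SP (Qbar)
open Pool.Agent.U543.GS (ex eval2_eq)

theorem coeff_le_len {τ : Type} (M : MvPolynomial τ ℤ) (e : τ →₀ ℕ) : |((MvPolynomial.coeff e M : ℤ) : ℝ)| ≤ len M := by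
  classical
  rw [len_eq_int]
  by_cases he : e ∈ M.support
  · exact Finset.single_le_sum (f := fun d => |((MvPolynomial.coeff d M : ℤ) : ℝ)|) (fun _ _ => abs_nonneg _) he
  · rw [MvPolynomial.notMem_support_iff] at he
    rw [he, Int.cast_zero, abs_zero]
    exact Finset.sum_nonneg fun _ _ => abs_nonneg _

theorem liouV {r : ℕ} {Θ : Fin r → ℂ} (hΘ : Meas Θ) (m k D : ℕ) : ∃ (κ : ℕ) (c : ℝ), 0 < c ∧
    ∀ (x : Fin k → ℂ) (T : ℝ), 1 ≤ T → (∀ j, AInt m T (x j)) → ∀ P : MvPolynomial (Fin r ⊕ Fin k) ℤ,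
    P.totalDegree ≤ D → ∀ Λ : ℝ, 1 ≤ Λ → len P ≤ Λ → MvPolynomial.aeval (Sum.elim Θ x) P ≠ 0 →
      c ≤ (Λ * T ^ D) ^ κ * ‖MvPolynomial.aeval (Sum.elim Θ x) P‖ := by
  classical
  obtain ⟨κ₀, c, hc, hmeas⟩ := hΘ (m ^ k * D)
  set Ω : ℝ := 1 + ∑ a, ‖Θ a‖ with hΩ
  have hΩ1 : 1 ≤ Ω := by
    have : 0 ≤ ∑ a, ‖Θ a‖ := Finset.sum_nonneg fun _ _ => norm_nonneg _
    linarith
  have hΩa : ∀ a, ‖Θ a‖ ≤ Ω := fun a => by
    have h1 : ‖Θ a‖ ≤ ∑ a, ‖Θ a‖ := Finset.single_le_sum (f := fun a => ‖Θ a‖) (fun _ _ => norm_nonneg _) (Finset.mem_univ a)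
    linarith
  refine ⟨m ^ k * ⌈κ₀⌉₊ + m ^ k, c / (Ω ^ D) ^ m ^ k, by positivity, fun x T hT hx P hD Λ hΛ1 hΛ hz => ?_⟩
  obtain ⟨K, hfd, hdeg, hmem⟩ := comp_deg m x T hx
  have : NumberField K := { to_charZero := inferInstance, to_finiteDimensional := hfd }
  have hint : ∀ j, IsIntegral ℤ (⟨x j, hmem j⟩ : K) := by
    intro j
    obtain ⟨f, h1, h2, h3, h4⟩ := hx j
    refine ⟨f, h1, ?_⟩
    apply (algebraMap K ℂ).injective
    have h5 := Polynomial.aeval_algebraMap_apply ℂ (⟨x j, hmem j⟩ : K) f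
    rw [map_zero]
    have h6 : (algebraMap K ℂ) (Polynomial.eval₂ (algebraMap ℤ K) (⟨x j, hmem j⟩ : K) f) =
        Polynomial.aeval (x j) f := h5.symm
    rw [h6, h3]
  set x' : Fin k → 𝓞 K := fun j => ⟨⟨x j, hmem j⟩, hint j⟩ with hx'
  have hconj : ∀ (σ : K →+* ℂ) j, ‖σ (x' j : K)‖ ≤ T := by
    intro σ j
    obtain ⟨f, h1, h2, h3, h4⟩ := hx j
    apply h4
    have h5 : Polynomial.aeval (⟨x j, hmem j⟩ : K) f = 0 := by
      apply (algebraMap K ℂ).injective
      rw [← Polynomial.aeval_algebraMap_apply, map_zero]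
      exact h3
    have h6 := Polynomial.hom_eval₂ f (algebraMap ℤ K) σ (⟨x j, hmem j⟩ : K)
    rw [← Polynomial.aeval_def, h5, map_zero] at h6
    rw [Polynomial.aeval_def, h6]
    congr 1
    exact RingHom.ext_int _ _
  set p : MvPolynomial (Fin r) (𝓞 K) := MvPolynomial.aeval (Sum.elim MvPolynomial.X fun j => MvPolynomial.C (x' j)) P
    with hp
  set Q : (K →+* ℂ) → MvPolynomial (Fin r) ℂ := fun ψ =>
    MvPolynomial.aeval (Sum.elim MvPolynomial.X fun j => MvPolynomial.C (ψ (x' j : K))) P with hQ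
  have hpQ : ∀ ψ : K →+* ℂ, p.map (ψ.comp (algebraMap (𝓞 K) K)) = Q ψ := by
    intro ψ
    rw [hp, hQ]
    simp only
    rw [MvPolynomial.aeval_def, MvPolynomial.hom_eval₂, MvPolynomial.aeval_def]
    congr 1
    · exact RingHom.ext_int _ _
    · funext o
      rcases o with o | j
      · simp
      · simp
  have hval : ∀ (ψ : K →+* ℂ) (z : Fin r → ℂ), MvPolynomial.eval z (Q ψ) =
      MvPolynomial.aeval (Sum.elim z fun j => ψ (x' j : K)) P := by
    intro ψ z
    rw [hQ]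
    simp only
    rw [MvPolynomial.aeval_def, MvPolynomial.hom_eval₂, MvPolynomial.aeval_def]
    congr 1
    · exact RingHom.ext_int _ _
    · funext o
      rcases o with o | j
      · simp
      · simp
  have hQlen : ∀ ψ, len (Q ψ) ≤ Λ * T ^ D := by
    intro ψ
    refine (len_aeval (R := ℂ) (fun a => by rw [Complex.norm_intCast]) _ hT (fun o => ?_) P hD).trans
      (mul_le_mul_of_nonneg_right hΛ (by positivity))
    rcases o with a | j
    · show len (MvPolynomial.X a : MvPolynomial (Fin r) ℂ) ≤ T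
      rw [len_X]
      exact hT
    · show len (MvPolynomial.C (ψ (x' j : K)) : MvPolynomial (Fin r) ℂ) ≤ T
      rw [len_C]
      exact hconj ψ j
  have hp0 : p ≠ 0 := by
    intro h0
    apply hz
    have h1 := hval (algebraMap K ℂ) Θ
    rw [← hpQ, h0, map_zero, map_zero] at h1
    exact h1.symm
  have hQ0 : ∀ ψ, Q ψ ≠ 0 := by
    intro ψ h0
    rw [← hpQ] at h0
    apply hp0
    refine MvPolynomial.map_injective (ψ.comp (algebraMap (𝓞 K) K)) ?_ (by rw [h0, map_zero])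
    exact ψ.injective.comp (FaithfulSMul.algebraMap_injective (𝓞 K) K)
  obtain ⟨M, hM⟩ := Pool.Agent.Y118.HP.exists_norm K p
  simp only [hpQ] at hM
  have hcard : Fintype.card (K →+* ℂ) ≤ m ^ k := by rw [NumberField.Embeddings.card]; exact hdeg
  have hΛT : 1 ≤ Λ * T ^ D := by
    have : 1 ≤ T ^ D := one_le_pow₀ hT
    nlinarith
  have hMlen : len M ≤ (Λ * T ^ D) ^ m ^ k := by
    have h1 : len M ≤ len (∏ ψ, Q ψ) := by
      rw [← hM]
      unfold len
      have h2 : M.support ⊆ (M.map (Int.castRingHom ℂ)).support := by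
        intro d hd
        rw [MvPolynomial.mem_support_iff] at hd ⊢
        rw [MvPolynomial.coeff_map, eq_intCast]
        exact_mod_cast hd
      refine (Finset.sum_le_sum fun d _ => ?_).trans (Finset.sum_le_sum_of_subset_of_nonneg h2 fun _ _ _ => norm_nonneg _)
      rw [MvPolynomial.coeff_map, eq_intCast, Complex.norm_intCast, Int.norm_eq_abs]
    refine h1.trans ((len_prod _ _).trans ?_)
    calc ∏ ψ : K →+* ℂ, len (Q ψ) ≤ ∏ _ψ : K →+* ℂ, Λ * T ^ D :=
          Finset.prod_le_prod (fun _ _ => len_nonneg _) fun ψ _ => hQlen ψ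
      _ = (Λ * T ^ D) ^ Fintype.card (K →+* ℂ) := by rw [Finset.prod_const, Finset.card_univ]
      _ ≤ _ := pow_le_pow_right₀ hΛT hcard
  have hMdeg : M.totalDegree ≤ m ^ k * D := by
    have h1 : M.totalDegree ≤ (M.map (Int.castRingHom ℂ)).totalDegree := by
      rw [MvPolynomial.totalDegree, MvPolynomial.totalDegree]
      refine Finset.sup_mono fun d hd => ?_
      rw [MvPolynomial.mem_support_iff] at hd ⊢
      rw [MvPolynomial.coeff_map, eq_intCast]
      exact_mod_cast hd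
    rw [hM] at h1
    refine h1.trans ((MvPolynomial.totalDegree_finsetProd _ _).trans ?_)
    have h2 : ∀ ψ, (Q ψ).totalDegree ≤ D := by
      intro ψ
      rw [hQ]
      simp only
      rw [MvPolynomial.aeval_def, MvPolynomial.eval₂_eq']
      refine (MvPolynomial.totalDegree_finsetSum _ _).trans (Finset.sup_le fun d hd => ?_)
      have h3 : (algebraMap ℤ (MvPolynomial (Fin r) ℂ)) (MvPolynomial.coeff d P) =
          MvPolynomial.C ((MvPolynomial.coeff d P : ℤ) : ℂ) := by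
        rw [eq_intCast, map_intCast]
      refine (MvPolynomial.totalDegree_mul _ _).trans ?_
      rw [h3, MvPolynomial.totalDegree_C, zero_add]
      refine (MvPolynomial.totalDegree_finsetProd _ _).trans ?_
      have h4 := (MvPolynomial.le_totalDegree hd).trans hD
      rw [Finsupp.sum_fintype _ _ (fun _ => rfl)] at h4
      refine (Finset.sum_le_sum fun o _ => ?_).trans h4
      refine (MvPolynomial.totalDegree_pow _ _).trans ?_
      rcases o with a | j
      · show _ * (MvPolynomial.X a : MvPolynomial (Fin r) ℂ).totalDegree ≤ _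
        rw [MvPolynomial.totalDegree_X, mul_one]
      · show _ * (MvPolynomial.C (ψ (x' j : K)) : MvPolynomial (Fin r) ℂ).totalDegree ≤ _
        rw [MvPolynomial.totalDegree_C, mul_zero]
        exact Nat.zero_le _
    calc ∑ ψ : K →+* ℂ, (Q ψ).totalDegree ≤ ∑ _ψ : K →+* ℂ, D := Finset.sum_le_sum fun ψ _ => h2 ψ
      _ = Fintype.card (K →+* ℂ) * D := by rw [Finset.sum_const, Finset.card_univ, smul_eq_mul]
      _ ≤ _ := Nat.mul_le_mul_right _ hcard
  have hqv : MvPolynomial.aeval Θ M = ∏ ψ : K →+* ℂ, MvPolynomial.aeval (Sum.elim Θ fun j => ψ (x' j : K)) P := by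
    have e1 : MvPolynomial.aeval Θ M = MvPolynomial.eval Θ (M.map (Int.castRingHom ℂ)) := by
      rw [MvPolynomial.eval_map, MvPolynomial.aeval_def]
      rfl
    rw [e1, hM, map_prod]
    exact Finset.prod_congr rfl fun ψ _ => hval ψ Θ
  have hq0 : M ≠ 0 := by
    intro h0
    rw [h0, map_zero] at hM
    exact Finset.prod_ne_zero_iff.2 (fun ψ _ => hQ0 ψ) hM.symm
  have h1 := hmeas M hq0 hMdeg ((Λ * T ^ D) ^ m ^ k) (one_le_pow₀ hΛT) (fun j => (coeff_le_len M j).trans hMlen)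
  -- the other factors
  set B : ℝ := Λ * T ^ D with hB
  have hB0 : 0 < B := by linarith
  have h2 : ‖MvPolynomial.aeval Θ M‖ ≤ ‖MvPolynomial.aeval (Sum.elim Θ x) P‖ * (B * Ω ^ D) ^ m ^ k := by
    rw [hqv, norm_prod, ← Finset.mul_prod_erase Finset.univ _ (Finset.mem_univ (algebraMap K ℂ))]
    have h3 : (fun j => (algebraMap K ℂ) (x' j : K)) = x := rfl
    rw [h3]
    refine mul_le_mul_of_nonneg_left ?_ (norm_nonneg _)
    have h4 : 1 ≤ B * Ω ^ D := by
      have : 1 ≤ Ω ^ D := one_le_pow₀ hΩ1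
      nlinarith
    have h5 : ∀ ψ : K →+* ℂ, ‖MvPolynomial.aeval (Sum.elim Θ fun j => ψ (x' j : K)) P‖ ≤ B * Ω ^ D := by
      intro ψ
      refine (Pool.Agent.Q246.NR.norm_aeval_le (V := T * Ω) _ (by nlinarith) (fun o => ?_) P hD).trans ?_
      · rcases o with a | j
        · show ‖Θ a‖ ≤ _
          have := hΩa a
          nlinarith
        · show ‖ψ (x' j : K)‖ ≤ _
          have := hconj ψ j
          nlinarith
      · rw [mul_pow, ← mul_assoc, hB]
        refine mul_le_mul_of_nonneg_right ?_ (by positivity)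
        exact mul_le_mul_of_nonneg_right hΛ (by positivity)
    calc _ ≤ ∏ _ψ ∈ Finset.univ.erase (algebraMap K ℂ), (B * Ω ^ D) :=
          Finset.prod_le_prod (fun _ _ => norm_nonneg _) fun ψ _ => h5 ψ
      _ = (B * Ω ^ D) ^ (Finset.univ.erase (algebraMap K ℂ)).card := by rw [Finset.prod_const]
      _ ≤ _ := by
          refine pow_le_pow_right₀ h4 ((Finset.card_le_univ _).trans hcard)
  have h3 : (B ^ m ^ k) ^ κ₀ ≤ B ^ (m ^ k * ⌈κ₀⌉₊) := by
    rw [pow_mul]
    have h4 : (1 : ℝ) ≤ B ^ m ^ k := one_le_pow₀ hΛT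
    calc (B ^ m ^ k) ^ κ₀ ≤ (B ^ m ^ k) ^ ((⌈κ₀⌉₊ : ℕ) : ℝ) := Real.rpow_le_rpow_of_exponent_le h4 (Nat.le_ceil _)
      _ = _ := by rw [Real.rpow_natCast]
  rw [div_le_iff₀ (by positivity)]
  calc c ≤ (B ^ m ^ k) ^ κ₀ * ‖MvPolynomial.aeval Θ M‖ := h1
    _ ≤ B ^ (m ^ k * ⌈κ₀⌉₊) * (‖MvPolynomial.aeval (Sum.elim Θ x) P‖ * (B * Ω ^ D) ^ m ^ k) :=
        mul_le_mul h3 h2 (norm_nonneg _) (by positivity)
    _ = _ := by rw [mul_pow, pow_add]; ring

open Pool.Agent.U543.NR (exists_aint aint_K LB)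

theorem lbV {r : ℕ} {Θ : Fin r → ℂ} (hΘ : Meas Θ) {h : Type} [Fintype h] (g : h → MvPolynomial (Fin r) Qbar) (m : ℕ)
    (A : ℝ) :
    ∃ C T₀ : ℝ, 0 ≤ C ∧ 2 ≤ T₀ ∧ ∀ (K : Type) [Field K] [NumberField K], Module.finrank ℚ K ≤ m →
      ∀ (io : K →+* ℂ) (T : ℝ), T₀ ≤ T → ∀ y : h → 𝓞 K, (∀ p (φ : K →+* ℂ), ‖φ (y p : K)‖ ≤ T ^ A) →
        (∑ p, MvPolynomial.aeval Θ (g p) * io (y p : K)) = 0 ∨
          T ^ (-C) ≤ ‖∑ p, MvPolynomial.aeval Θ (g p) * io (y p : K)‖ := by
  classical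
  set N : ℕ := ∑ p, (g p).totalDegree with hN
  have hgN : ∀ p i, (g p).degreeOf i ≤ N := fun p i => (MvPolynomial.degreeOf_le_totalDegree _ _).trans
    (Finset.single_le_sum (f := fun p => (g p).totalDegree) (fun _ _ => Nat.zero_le _) (Finset.mem_univ p))
  let E := h × (Fin r → Fin (N + 1))
  have : Algebra.IsAlgebraic ℚ Qbar := algebraicClosure.isAlgebraic ℚ ℂ
  have halgZ : Algebra.IsAlgebraic ℤ Qbar := (IsFractionRing.comap_isAlgebraic_iff (A := ℤ) (K := ℚ) (C := Qbar)).2 this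
  obtain ⟨D0, hD0, hint⟩ := Algebra.IsAlgebraic.exists_integral_multiples ℤ
    (Finset.univ.image fun e : E => (g e.1).coeff (ex e.2))
  let β : E → ℂ := fun e => algebraMap Qbar ℂ (D0 • (g e.1).coeff (ex e.2))
  have hβ : ∀ e, IsIntegral ℤ (β e) := fun e =>
    (hint _ (Finset.mem_image_of_mem _ (Finset.mem_univ e))).map ((algebraMap Qbar ℂ).toIntAlgHom)
  choose mm TT hTT hA using fun e => exists_aint (hβ e)
  obtain ⟨m', hm'⟩ : ∃ m', m' = m + ∑ e, mm e := ⟨_, rfl⟩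
  obtain ⟨T1, hT1⟩ : ∃ T1 : ℝ, T1 = ∑ e, TT e := ⟨_, rfl⟩
  obtain ⟨A₁, hA₁⟩ : ∃ A₁ : ℝ, A₁ = max A 1 := ⟨_, rfl⟩
  have hA₁0 : 0 ≤ A₁ := by rw [hA₁]; exact le_trans zero_le_one (le_max_right _ _)
  let en : (E ⊕ h) ≃ Fin (Fintype.card (E ⊕ h)) := Fintype.equivFin (E ⊕ h)
  let P : MvPolynomial (Fin r ⊕ (Fin (Fintype.card (E ⊕ h)))) ℤ := ∑ p, ∑ l : Fin r → Fin (N + 1),
    MvPolynomial.X (Sum.inr (en (Sum.inl (p, l)))) * MvPolynomial.X (Sum.inr (en (Sum.inr p))) *
      ∏ a, MvPolynomial.X (Sum.inl a) ^ (l a : ℕ)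
  obtain ⟨κ, c, hc, hL⟩ := liouV hΘ m' (Fintype.card (E ⊕ h)) P.totalDegree
  obtain ⟨Λ, hΛ⟩ : ∃ Λ : ℝ, Λ = max 1 (len P) := ⟨_, rfl⟩
  have hΛ1 : 1 ≤ Λ := by rw [hΛ]; exact le_max_left _ _
  obtain ⟨a, ha⟩ : ∃ a : ℝ, a = A₁ * ((P.totalDegree * κ : ℕ) : ℝ) := ⟨_, rfl⟩
  have ha0 : 0 ≤ a := by rw [ha]; positivity
  refine ⟨a + 1, max 2 (max T1 (|(D0 : ℝ)| * Λ ^ κ / c)), by linarith, le_max_left _ _, ?_⟩
  intro K _ _ hK io T hT y hy
  obtain ⟨S, hS⟩ : ∃ S : ℂ, S = ∑ p, MvPolynomial.aeval Θ (g p) * io (y p : K) := ⟨_, rfl⟩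
  rw [← hS]
  by_cases hS0 : S = 0
  · exact Or.inl hS0
  refine Or.inr ?_
  have hT2 : 2 ≤ T := (le_max_left _ _).trans hT
  have hT3 : T1 ≤ T := ((le_max_left _ _).trans (le_max_right _ _)).trans hT
  have hT4 : |(D0 : ℝ)| * Λ ^ κ / c ≤ T := ((le_max_right _ _).trans (le_max_right _ _)).trans hT
  have hTp : 0 < T := by linarith
  have hT1' : 1 ≤ T := by linarith
  have hTA : T ≤ T ^ A₁ := by
    conv_lhs => rw [← Real.rpow_one T]
    exact Real.rpow_le_rpow_of_exponent_le hT1' (by rw [hA₁]; exact le_max_right _ _)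
  let x : Fin (Fintype.card (E ⊕ h)) → ℂ := fun i => Sum.elim β (fun p => io (y p : K)) (en.symm i)
  have hx : ∀ j, AInt m' (T ^ A₁) (x j) := by
    intro j
    obtain ⟨o, rfl⟩ := en.surjective j
    simp only [x, Equiv.symm_apply_apply]
    rcases o with e | p
    · refine hA e m' _ ?_ ?_
      · rw [hm']
        exact (Finset.single_le_sum (f := mm) (fun _ _ => Nat.zero_le _) (Finset.mem_univ e)).trans
          (Nat.le_add_left _ _)
      · refine le_trans ?_ (hT3.trans hTA)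
        rw [hT1]
        exact Finset.single_le_sum (f := TT) (fun e _ => hTT e) (Finset.mem_univ e)
    · refine aint_K io (hK.trans ?_) (y p) (by positivity) fun φ => (hy p φ).trans ?_
      · rw [hm']
        exact Nat.le_add_right _ _
      · exact Real.rpow_le_rpow_of_exponent_le hT1' (by rw [hA₁]; exact le_max_left _ _)
  have hval : MvPolynomial.aeval (Sum.elim Θ x) P = (D0 : ℂ) * S := by
    simp only [P, map_sum, map_mul, map_prod, map_pow, MvPolynomial.aeval_X]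
    rw [hS, Finset.mul_sum]
    refine Finset.sum_congr rfl fun p _ => ?_
    have e1 : MvPolynomial.aeval Θ (g p) = MvPolynomial.eval₂ (algebraMap Qbar ℂ) Θ (g p) := rfl
    rw [e1, eval2_eq (δ := N) (algebraMap Qbar ℂ) (g p) (hgN p), Finset.sum_mul, Finset.mul_sum]
    refine Finset.sum_congr rfl fun l _ => ?_
    simp only [x, Equiv.symm_apply_apply, Sum.elim_inl, Sum.elim_inr, β]
    rw [map_zsmul, zsmul_eq_mul]
    ring
  have hD0' : (D0 : ℂ) ≠ 0 := by exact_mod_cast hD0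
  have h1 := hL x (T ^ A₁) (hT1'.trans hTA) hx P le_rfl Λ hΛ1 (by rw [hΛ]; exact le_max_right _ _)
    (by rw [hval]; exact mul_ne_zero hD0' hS0)
  rw [hval, norm_mul, Complex.norm_intCast, mul_pow, ← pow_mul, ← Real.rpow_natCast (T ^ A₁),
    ← Real.rpow_mul hTp.le, ← ha] at h1
  have hV : 0 < T ^ a := Real.rpow_pos_of_pos hTp _
  rw [Real.rpow_neg hTp.le, Real.rpow_add hTp, Real.rpow_one, inv_le_iff_one_le_mul₀' (by positivity)]
  rw [div_le_iff₀ hc] at hT4
  have hSn : 0 ≤ ‖S‖ := norm_nonneg _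
  have h2 : c * 1 ≤ c * (T ^ a * T * ‖S‖) := by
    calc c * 1 = c := mul_one c
      _ ≤ Λ ^ κ * T ^ a * (|(D0 : ℝ)| * ‖S‖) := h1
      _ = (|(D0 : ℝ)| * Λ ^ κ) * (T ^ a * ‖S‖) := by ring
      _ ≤ (T * c) * (T ^ a * ‖S‖) := mul_le_mul_of_nonneg_right hT4 (by positivity)
      _ = c * (T ^ a * T * ‖S‖) := by ring
  exact le_of_mul_le_mul_left h2 hc

theorem lb_adjoinV {r : ℕ} {Θ : Fin r → ℂ} (hΘ : Meas Θ) : LB (IntermediateField.adjoin Qbar (Set.range Θ)) := by
  classical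
  intro h _ a m A
  have hfr : ∀ p, ∃ r' s : MvPolynomial (Fin r) Qbar, MvPolynomial.aeval Θ s ≠ 0 ∧
      MvPolynomial.aeval Θ s * algebraMap _ ℂ (a p) = MvPolynomial.aeval Θ r' := by
    intro p
    obtain ⟨r', s, hrs⟩ := (IntermediateField.mem_adjoin_range_iff Qbar Θ (a p : ℂ)).1 (a p).2
    by_cases hs : MvPolynomial.aeval Θ s = 0
    · refine ⟨0, 1, by simp, ?_⟩
      rw [hs, div_zero] at hrs
      have h1 : algebraMap (IntermediateField.adjoin Qbar (Set.range Θ)) ℂ (a p) = (a p : ℂ) := rfl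
      rw [h1, hrs, map_zero, mul_zero]
    · refine ⟨r', s, hs, ?_⟩
      have h1 : algebraMap (IntermediateField.adjoin Qbar (Set.range Θ)) ℂ (a p) = (a p : ℂ) := rfl
      rw [h1, hrs, mul_div_cancel₀ _ hs]
  choose r' s hs hrs using hfr
  let g : h → MvPolynomial (Fin r) Qbar := fun p => r' p * ∏ q ∈ Finset.univ.erase p, s q
  obtain ⟨w, hw⟩ : ∃ w : ℂ, w = MvPolynomial.aeval Θ (∏ q, s q) := ⟨_, rfl⟩
  have hw0 : w ≠ 0 := by
    rw [hw, map_prod]
    exact Finset.prod_ne_zero_iff.2 fun q _ => hs q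
  have hg : ∀ p, MvPolynomial.aeval Θ (g p) = w * algebraMap _ ℂ (a p) := by
    intro p
    simp only [g]
    rw [hw, map_mul, ← hrs p, ← Finset.mul_prod_erase Finset.univ s (Finset.mem_univ p), map_mul]
    ring
  obtain ⟨C, T₀, hC, hT₀, H⟩ := lbV hΘ g m A
  refine ⟨C + 1, max T₀ ‖w‖, by linarith, hT₀.trans (le_max_left _ _), ?_⟩
  intro K _ _ hK io T hT y hy
  have h1 : ∑ p, MvPolynomial.aeval Θ (g p) * io (y p : K) = w * ∑ p, algebraMap _ ℂ (a p) * io (y p : K) := by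
    rw [Finset.mul_sum]
    refine Finset.sum_congr rfl fun p _ => ?_
    rw [hg]
    ring
  have hTT : T₀ ≤ T := (le_max_left _ _).trans hT
  have hTp : 0 < T := by linarith
  rcases H K hK io T hTT y hy with h2 | h2
  · rw [h1] at h2
    exact Or.inl ((mul_eq_zero.1 h2).resolve_left hw0)
  · right
    rw [h1, norm_mul] at h2
    have h3 : ‖w‖ ≤ T := (le_max_right _ _).trans hT
    rw [neg_add, Real.rpow_add hTp, Real.rpow_neg_one]
    have h4 := h2.trans (mul_le_mul_of_nonneg_right h3 (norm_nonneg _))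
    calc T ^ (-C) * T⁻¹ ≤ (T * ‖∑ p, algebraMap _ ℂ (a p) * io (y p : K)‖) * T⁻¹ :=
          mul_le_mul_of_nonneg_right h4 (by positivity)
      _ = ‖∑ p, algebraMap _ ℂ (a p) * io (y p : K)‖ := by
          field_simp

/-- fields generated by numbers with a measure of algebraic independence -/
theorem separated_of {r : ℕ} {Θ : Fin r → ℂ} (hΘ : Meas Θ) : Separated (Pool.Agent.U543.FD.Coeff Θ) := by
  refine ⟨fun z hz => Subfield.subset_closure (Or.inl hz), fun h m a ha => ?_⟩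
  have hle : Pool.Agent.U543.FD.Coeff Θ ≤ (IntermediateField.adjoin Qbar (Set.range Θ)).toSubfield := by
    refine Subfield.closure_le.2 ?_
    rintro z (hz | hz)
    · have h1 : z ∈ algebraicClosure ℚ ℂ := mem_algebraicClosure_iff.2 hz
      exact (IntermediateField.adjoin Qbar (Set.range Θ)).algebraMap_mem (⟨z, h1⟩ : Qbar)
    · exact IntermediateField.subset_adjoin _ _ hz
  obtain ⟨C, T₀, hC, hT₀, H⟩ := lb_adjoinV hΘ (Fin h) (fun i => ⟨a i, hle (ha i)⟩) m 1
  refine ⟨C, T₀, fun K _ _ hK io y T hT hy => ?_⟩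
  exact H K hK io T hT y fun i φ => by
    rw [Real.rpow_one]
    exact (Y120.house_ge K _ φ).trans (hy i)

theorem meas_pi : Meas (fun _ : Fin 1 => (Real.pi : ℂ)) := by
  intro D
  obtain ⟨κ, c, hκ, hc, H⟩ := Pool.Agent.TH456.TM.measT_pi D
  refine ⟨κ, c, hc, fun G hG hGD B hB hGB => ?_⟩
  classical
  let q : Polynomial ℤ := MvPolynomial.aeval (fun _ : Fin 1 => (Polynomial.X : Polynomial ℤ)) G
  have hsum : q = ∑ d ∈ G.support, Polynomial.C (G.coeff d) * Polynomial.X ^ d 0 := by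
    simp only [q]
    rw [MvPolynomial.aeval_def, MvPolynomial.eval₂_eq']
    refine Finset.sum_congr rfl fun d _ => ?_
    simp
  have hcoe : ∀ i, q.coeff i = G.coeff (Finsupp.single 0 i) := by
    intro i
    rw [hsum, Polynomial.finsetSum_coeff]
    simp only [Polynomial.coeff_C_mul_X_pow]
    have h1 : ∀ d : Fin 1 →₀ ℕ, i = d 0 ↔ d = Finsupp.single 0 i := by
      intro d
      constructor
      · intro h
        refine Finsupp.ext fun j => ?_
        have : j = 0 := Subsingleton.elim _ _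
        subst this
        simp [h]
      · intro h
        rw [h]
        simp
    simp only [h1]
    rw [Finset.sum_ite_eq' G.support (Finsupp.single 0 i) fun d => G.coeff d]
    split_ifs with h2
    · rfl
    · rw [MvPolynomial.notMem_support_iff] at h2
      exact h2.symm
  have hq0 : q ≠ 0 := by
    intro h0
    apply hG
    ext d
    have h1 : d = Finsupp.single 0 (d 0) := by
      refine Finsupp.ext fun j => ?_
      have : j = 0 := Subsingleton.elim _ _
      subst this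
      simp
    rw [h1, ← hcoe, h0]
    simp
  have hdeg : q.natDegree ≤ D := by
    refine Polynomial.natDegree_le_iff_coeff_eq_zero.2 fun n hn => ?_
    rw [hcoe]
    by_contra hne
    have h1 := (MvPolynomial.le_totalDegree (MvPolynomial.mem_support_iff.2 hne)).trans hGD
    rw [Finsupp.sum_single_index rfl] at h1
    omega
  have h1 := H q hq0 hdeg B hB fun j => by rw [hcoe]; exact hGB _
  have h2 : Polynomial.aeval (Real.pi : ℂ) q = MvPolynomial.aeval (fun _ : Fin 1 => (Real.pi : ℂ)) G := by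
    have h1 := MvPolynomial.comp_aeval_apply (f := fun _ : Fin 1 => (Polynomial.X : Polynomial ℤ))
      (Polynomial.aeval (Real.pi : ℂ) : Polynomial ℤ →ₐ[ℤ] ℂ) G
    simp only [q]
    rw [h1]
    simp
  rw [h2] at h1
  exact h1

end Pool.Agent.U543.TY
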