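import Pool.Agent.U543.CnDef
import Pool.Agent.Y890.SM.Full

/-!
# The Zariski closure over `ℚ̄` of `(z, π)` in special cases
-/

set_option autoImplicit false
set_option linter.unusedSectionVars false

namespace Pool.Agent.U543.CN

open MvPolynomial

/-- the inclusion of the algebraic numbers -/
noncomputable def incl (A : IntermediateField ℚ ℂ) : algebraicClosure ℚ ℂ →+* algebraicClosure A ℂ where
  toFun x := ⟨x, mem_algebraicClosure_iff.2 ((mem_algebraicClosure_iff.1 x.2).tower_top A)⟩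
  map_one' := rfl
  map_zero' := rfl
  map_add' _ _ := rfl
  map_mul' _ _ := rfl

theorem incl_coe (A : IntermediateField ℚ ℂ) (x : algebraicClosure ℚ ℂ) :
    algebraMap (algebraicClosure A ℂ) ℂ (incl A x) = algebraMap (algebraicClosure ℚ ℂ) ℂ x := rfl

theorem closure_gen (A : IntermediateField ℚ ℂ) {V W : Type} (v0 v1 : V → ℂ) (w0 w1 : W → ℂ)
    (hw : AlgebraicIndependent A w0) (h : ∀ o, (v0 o = v1 o ∧ v0 o ∈ A) ∨ ∃ b, v0 o = w0 b ∧ v1 o = w1 b)
    (G : MvPolynomial V (algebraicClosure ℚ ℂ)) (hG : aeval v0 G = 0) : aeval v1 G = 0 := by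
  classical
  have h2 : ∀ o, ∃ g : MvPolynomial W (algebraicClosure A ℂ), aeval w0 g = v0 o ∧ aeval w1 g = v1 o := by
    intro o
    rcases h o with ⟨h3, h4⟩ | ⟨b, h3, h4⟩
    · refine ⟨C (algebraMap A (algebraicClosure A ℂ) ⟨v0 o, h4⟩), ?_, ?_⟩
      · rw [algHom_C]
        rfl
      · rw [algHom_C, ← h3]
        rfl
    · exact ⟨X b, by rw [aeval_X, h3], by rw [aeval_X, h4]⟩
  choose g hg0 hg1 using h2
  set G' : MvPolynomial W (algebraicClosure A ℂ) := eval₂ ((C).comp (incl A)) g G with hG'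
  have key : ∀ (w : W → ℂ) (v : V → ℂ), (∀ o, aeval w (g o) = v o) → aeval w G' = aeval v G := by
    intro w v hv
    have e1 : (aeval w : MvPolynomial W (algebraicClosure A ℂ) →ₐ[_] ℂ) G' =
        (aeval w : MvPolynomial W (algebraicClosure A ℂ) →ₐ[_] ℂ).toRingHom G' := rfl
    rw [e1, hG', eval₂_comp_left, aeval_def]
    congr 1
    · ext x
      show aeval w (C (incl A x)) = _
      rw [algHom_C, incl_coe]
    · funext o
      exact hv o
  have h3 : G' = 0 := by
    have h4 := hw.algebraicClosure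
    rw [algebraicIndependent_iff] at h4
    exact h4 G' (by rw [key w0 v0 hg0, hG])
  rw [← key w1 v1 hg1, h3, map_zero]

theorem closure_nu {r : ℕ} {z : Fin r → ℂ}
    (h : Transcendental (IntermediateField.adjoin ℚ (Set.range z)) (Real.pi : ℂ)) (ν : ℂ) :
    (z, ν) ∈ ClosurePi z := by
  intro G hG
  refine closure_gen (IntermediateField.adjoin ℚ (Set.range z)) (W := Unit) _ _ (fun _ => (Real.pi : ℂ)) (fun _ => ν)
    (algebraicIndependent_unique_type_iff.2 h) (fun o => ?_) G hG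
  rcases o with _ | a
  · exact Or.inr ⟨(), rfl, rfl⟩
  · exact Or.inl ⟨rfl, IntermediateField.subset_adjoin _ _ ⟨a, rfl⟩⟩

theorem closure_free {r : ℕ} {z : Fin r → ℂ}
    (h : AlgebraicIndependent (IntermediateField.adjoin ℚ {(Real.pi : ℂ)}) z) (ζ : Fin r → ℂ) :
    (ζ, (Real.pi : ℂ)) ∈ ClosurePi z := by
  intro G hG
  refine closure_gen (IntermediateField.adjoin ℚ {(Real.pi : ℂ)}) (W := Fin r) _ _ z ζ h (fun o => ?_) G hG
  rcases o with _ | a
  · exact Or.inl ⟨rfl, IntermediateField.subset_adjoin _ _ rfl⟩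
  · exact Or.inr ⟨a, rfl, rfl⟩

/-- the closure of `(0, π)` -/
theorem closure_zero {r : ℕ} (ν : ℂ) : ((0 : Fin r → ℂ), ν) ∈ ClosurePi (0 : Fin r → ℂ) := by
  intro G hG
  have h1 : AlgebraicIndependent ℚ (fun _ : Unit => (Real.pi : ℂ)) :=
    algebraicIndependent_unique_type_iff.2 Pool.Agent.H340R2.LW.transcendental_pi_complex
  refine closure_gen (⊥ : IntermediateField ℚ ℂ) (W := Unit) _ _ (fun _ => (Real.pi : ℂ)) (fun _ => ν)
    (h1.extendScalars _) (fun o => ?_) G hG
  rcases o with _ | a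
  · exact Or.inr ⟨(), rfl, rfl⟩
  · exact Or.inl ⟨rfl, (⊥ : IntermediateField ℚ ℂ).zero_mem⟩

end Pool.Agent.U543.CN
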