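import Pool.Agent.U543.CnPi
import Pool.Agent.U543.CnClosure

/-!
# Rigid tuples are clean
-/

set_option autoImplicit false
set_option linter.unusedSectionVars false

open NumberField Filter Matrix Topology

namespace Pool.Agent.U543.CN

open Pool.Agent.Y890.MV
open Pool.Agent.Y890.SM

variable {X : Type} [Fintype X] [DecidableEq X] {ι : Type} [Fintype ι] [DecidableEq ι] {n : ι → ℕ} {m r k : ℕ}

theorem tpi_eq : tpi = 2 * Complex.I * (Real.pi : ℂ) := by
  rw [tpi]; ring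

/-- relations with `π` for rigid tuples -/
theorem rel_zero (F : SympFam X n) {K : Type} [Field K] [NumberField K] (io : K →+* ℂ) {T : ℝ} {δ : ℕ} (hδ : k + 1 ≤ δ)
    (hT : (((k + 1) ^ Fintype.card (Var n m r) * 2 ^ k : ℕ) : ℝ) ≤ T) (z : Fin r → ℂ) (s : Fin m → X → K)
    (hR : Rigid F δ K io (Fin.cons Complex.I z : Fin (r + 1) → ℂ) T s)
    (Φ : MvPolynomial (Var n m r) (𝓞 K)) (hΦ : Bounded k T Φ)
    (h0 : val io Φ (fun j i => F.P i fun x => io (s j x)) z Real.pi = 0) (G : Fin m → Ix n → ℂ)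
    (hG : ∀ j, G j ∈ F.Tor (fun x => io (s j x))) :
    vl io Φ (Sum.elim (fun q => G q.1 q.2) (fun o => o.elim (Real.pi : ℂ) z)) = 0 := by
  have hT1 : (1 : ℝ) ≤ T := by
    refine le_trans ?_ hT
    have : 0 < (k + 1) ^ Fintype.card (Var n m r) * 2 ^ k := by positivity
    exact_mod_cast this
  have h1 := hR (conv k Φ) (fun v => (conv_deg Φ v).trans (by omega)) (fun e => by
    refine (conv_house Φ (by positivity) hΦ.2 e).trans ?_
    calc (((k + 1) ^ Fintype.card (Var n m r) * 2 ^ k : ℕ) : ℝ) * T ^ k ≤ T * T ^ k :=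
          mul_le_mul_of_nonneg_right hT (by positivity)
      _ = T ^ (k + 1) := by ring
      _ ≤ T ^ δ := pow_le_pow_right₀ hT1 hδ) (by
    have h2 := conv_eval io Φ hΦ.1 (fun j q => F.P q.1 (fun x => io (s j x)) q.2.1 q.2.2) z (Real.pi : ℂ)
    rw [← tpi_eq] at h2
    refine h2.trans ?_
    have h3 : vl io Φ (Sum.elim (fun q : Fin m × Ix n => F.P q.2.1 (fun x => io (s q.1 x)) q.2.2.1 q.2.2.2)
      (fun o => o.elim (Real.pi : ℂ) z)) = 0 := h0
    rw [h3, mul_zero]) G hG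
  have h2 := conv_eval io Φ hΦ.1 G z (Real.pi : ℂ)
  rw [← tpi_eq] at h2
  rw [h2] at h1
  exact (mul_eq_zero.1 h1).resolve_left (pow_ne_zero _ two_ne_zero)

/-- the extension to the closure -/
theorem extend_pi (F : SympFam X n) {K : Type} [Field K] [NumberField K] (io : K →+* ℂ) (z : Fin r → ℂ)
    (s : Fin m → X → K) (hs : ∀ j, (fun x => io (s j x)) ∈ F.U)
    (Φ : MvPolynomial (Var n m r) (𝓞 K)) (hΦ : ∀ i, Φ.degreeOf i ≤ k)
    (h : ∀ G : Fin m → Ix n → ℂ, (∀ j, G j ∈ F.Tor (fun x => io (s j x))) →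
      vl io Φ (Sum.elim (fun q => G q.1 q.2) (fun o => o.elim (Real.pi : ℂ) z)) = 0)
    (Y : Fin m → ∀ i, Matrix (Fin (n i)) (Fin (n i)) ℂ) (ζ : Fin r → ℂ) (ν : ℂ) (hcl : (ζ, ν) ∈ ClosurePi z)
    (hν : ν ≠ 0)
    (hY : ∀ j, (Y j, 2 * Complex.I * ν) ∈ F.torsor (fun x => io (s j x))) :
    val io Φ Y ζ ν = 0 := by
  have h1 := full F io (Fin.cons Complex.I z : Fin (r + 1) → ℂ) s hs (conv k Φ) (fun G hG => by
    have h2 := conv_eval io Φ hΦ G z (Real.pi : ℂ)
    rw [← tpi_eq] at h2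
    rw [h2, h G hG, mul_zero]) Y (Fin.cons Complex.I ζ : Fin (r + 1) → ℂ) (2 * Complex.I * ν) (closure_pi hcl)
    (mul_ne_zero (mul_ne_zero two_ne_zero Complex.I_ne_zero) hν) hY
  have h2 := conv_eval io Φ hΦ (fun j q => Y j q.1 q.2.1 q.2.2) ζ ν
  rw [h2] at h1
  exact (mul_eq_zero.1 h1).resolve_left (pow_ne_zero _ two_ne_zero)

theorem scale_torsor (F : SympFam X n) {x : X → ℂ} {Y : ∀ i, Matrix (Fin (n i)) (Fin (n i)) ℂ} {μ : ℂ}
    (h : (Y, μ) ∈ F.torsor x) {t : ℂ} (ht : t ≠ 0) : ((fun i => t ^ F.w i • Y i), t ^ 2 * μ) ∈ F.torsor x := by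
  refine ⟨mul_ne_zero (pow_ne_zero 2 ht) h.1, fun i => ?_⟩
  have h1 := h.2 i
  show (t ^ F.w i • Y i) * _ * (t ^ F.w i • Y i).transpose = (t ^ 2 * μ) ^ F.w i • _
  rw [Matrix.transpose_smul, Matrix.smul_mul, Matrix.smul_mul, Matrix.mul_smul, smul_smul, h1, smul_smul, mul_pow]
  congr 1
  ring

/-- the values are continuous -/
theorem val_cont {K : Type} [Field K] (io : K →+* ℂ) (Φ : MvPolynomial (Var n m r) (𝓞 K))
    (Y : ℝ → Fin m → ∀ i, Matrix (Fin (n i)) (Fin (n i)) ℂ) (hY : ∀ j i a b, Continuous fun t => Y t j i a b)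
    (ζ : Fin r → ℂ) (ν : ℝ → ℂ) (hν : Continuous ν) : Continuous fun t => val io Φ (Y t) ζ (ν t) := by
  have h1 : ∀ t, val io Φ (Y t) ζ (ν t) = MvPolynomial.eval (Sum.elim (fun q : Fin m × Ix n =>
      Y t q.1 q.2.1 q.2.2.1 q.2.2.2) (fun o => o.elim (ν t) ζ)) (MvPolynomial.map (io.comp (algebraMap (𝓞 K) K)) Φ) := by
    intro t
    rw [val, MvPolynomial.eval_map]
  simp_rw [h1]
  refine (MvPolynomial.continuous_eval _).comp (continuous_pi fun v => ?_)
  rcases v with q | _ | a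
  · exact hY _ _ _ _
  · exact hν
  · exact continuous_const

theorem inv_core (F : SympFam X n) {K : Type} [Field K] [NumberField K] (io : K →+* ℂ) (z : Fin r → ℂ)
    (s : Fin m → X → K) (hs : ∀ j, (fun x => io (s j x)) ∈ F.U)
    (Φ : MvPolynomial (Var n m r) (𝓞 K)) (hΦ : ∀ i, Φ.degreeOf i ≤ k)
    (h : ∀ G : Fin m → Ix n → ℂ, (∀ j, G j ∈ F.Tor (fun x => io (s j x))) →
      vl io Φ (Sum.elim (fun q => G q.1 q.2) (fun o => o.elim (Real.pi : ℂ) z)) = 0)
    (hcl : ∀ ν, (z, ν) ∈ ClosurePi z)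
    (hc : (∀ Y, val io Φ Y z 0 = val io Φ 0 z 0) ∨ ∀ i, 0 < F.w i) : val io Φ 0 z 0 = 0 := by
  set g : ℝ → ℂ := fun t => val io Φ (fun j i => (t : ℂ) ^ F.w i • F.P i fun x => io (s j x)) z ((t : ℂ) ^ 2 * Real.pi)
    with hg
  have hgc : Continuous g := by
    refine val_cont io Φ _ (fun j i a b => ?_) z _ ?_
    · show Continuous fun t : ℝ => (t : ℂ) ^ F.w i * F.P i (fun x => io (s j x)) a b
      exact (Complex.continuous_ofReal.pow _).mul continuous_const
    · exact (Complex.continuous_ofReal.pow 2).mul continuous_const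
  have hg0 : ∀ t : ℝ, t ≠ 0 → g t = 0 := by
    intro t ht
    have ht' : (t : ℂ) ≠ 0 := by exact_mod_cast ht
    have hpi : (Real.pi : ℂ) ≠ 0 := by exact_mod_cast Real.pi_ne_zero
    refine extend_pi F io z s hs Φ hΦ h _ z _ (hcl _) (mul_ne_zero (pow_ne_zero 2 ht') hpi) fun j => ?_
    have h1 := scale_torsor F (F.mem (hs j)) ht'
    have h2 : (t : ℂ) ^ 2 * tpi = 2 * Complex.I * ((t : ℂ) ^ 2 * Real.pi) := by
      rw [tpi_eq]; ring
    rw [h2] at h1
    exact h1
  have h2 : g = fun _ => 0 := by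
    refine Continuous.ext_on (dense_compl_singleton (0 : ℝ)) hgc continuous_const ?_
    intro t ht
    exact hg0 t ht
  have h3 : g 0 = 0 := by rw [h2]
  rw [hg] at h3
  simp only [Complex.ofReal_zero] at h3
  rw [zero_pow two_ne_zero, zero_mul] at h3
  rcases hc with hc | hc
  · rw [hc] at h3
    exact h3
  · have h4 : (fun (j : Fin m) (i : ι) => (0 : ℂ) ^ F.w i • F.P i fun x => io (s j x)) = 0 := by
      funext j i
      rw [zero_pow (hc i).ne', zero_smul]
      rfl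
    rw [h4] at h3
    exact h3

/-- the degree of a monomial in the entries of a matrix -/
def dg (e : Var n m r →₀ ℕ) (p : Fin m × ι) : ℕ := ∑ q : Fin (n p.2) × Fin (n p.2), e (Sum.inl (p.1, ⟨p.2, q⟩))

theorem signs {N : Type} [Fintype N] [DecidableEq N] (a : N → ℕ) :
    ∑ ε ∈ Fintype.piFinset (fun _ : N => ({1, -1} : Finset ℂ)), ∏ p, ε p ^ a p =
      if ∀ p, Even (a p) then 2 ^ Fintype.card N else 0 := by
  classical
  refine (Finset.prod_univ_sum (fun _ : N => ({1, -1} : Finset ℂ)) (fun p x => x ^ a p)).symm.trans ?_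
  have h1 : ∀ p, ∑ x ∈ ({1, -1} : Finset ℂ), x ^ a p = if Even (a p) then 2 else 0 := by
    intro p
    rw [Finset.sum_pair (by norm_num), one_pow]
    split_ifs with h
    · rw [h.neg_one_pow]; norm_num
    · rw [Nat.not_even_iff_odd] at h
      rw [h.neg_one_pow]; norm_num
  simp_rw [h1]
  split_ifs with h
  · rw [Finset.prod_congr rfl fun p _ => if_pos (h p), Finset.prod_const, Finset.card_univ]
  · push Not at h
    obtain ⟨p, hp⟩ := h
    exact Finset.prod_eq_zero (Finset.mem_univ p) (if_neg hp)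

/-- the value of a monomial after a change of signs -/
theorem mono_sign (e : Var n m r →₀ ℕ) (ε : Fin m × ι → ℂ) (Y : Fin m → Ix n → ℂ) (g : Option (Fin r) → ℂ) :
    ∏ v, (Sum.elim (fun q : Fin m × Ix n => ε (q.1, q.2.1) * Y q.1 q.2) g) v ^ e v =
      (∏ p, ε p ^ dg e p) * ∏ v, (Sum.elim (fun q : Fin m × Ix n => Y q.1 q.2) g) v ^ e v := by
  rw [Fintype.prod_sum_type, Fintype.prod_sum_type, ← mul_assoc]
  congr 1
  simp only [Sum.elim_inl, mul_pow, Finset.prod_mul_distrib]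
  congr 1
  rw [Fintype.prod_prod_type, Fintype.prod_prod_type]
  refine Finset.prod_congr rfl fun j _ => ?_
  rw [Fintype.prod_sigma]
  refine Finset.prod_congr rfl fun i _ => ?_
  rw [dg, ← Finset.prod_pow_eq_pow_sum]

theorem sign_tor (F : SympFam X n) {x : X → ℂ} (Y : Ix n → ℂ) (hY : Y ∈ F.Tor x) (ε : ι → ℂ)
    (hε : ∀ i, ε i * ε i = 1) : (fun q : Ix n => ε q.1 * Y q) ∈ F.Tor x := by
  intro i
  have h1 := hY i
  have h2 : bl (fun q : Ix n => ε q.1 * Y q) i = ε i • bl Y i := by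
    ext a b
    rfl
  rw [h2, Matrix.transpose_smul, Matrix.smul_mul, Matrix.smul_mul, Matrix.mul_smul, smul_smul, hε, one_smul]
  exact h1

open Classical in
theorem part_eval {K : Type} [Field K] (io : K →+* ℂ) (Φ : MvPolynomial (Var n m r) (𝓞 K)) (χ : Fin m → ι → Prop)
    (Y : Fin m → Ix n → ℂ) (g : Option (Fin r) → ℂ) :
    MvPolynomial.eval₂ (io.comp (algebraMap (𝓞 K) K)) (Sum.elim (fun q : Fin m × Ix n => Y q.1 q.2) g) (part Φ χ) =
      ∑ e ∈ Φ.support.filter (fun e => ∀ j i, Odd (dg e (j, i)) ↔ χ j i),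
        io.comp (algebraMap (𝓞 K) K) (MvPolynomial.coeff e Φ) *
          ∏ v, (Sum.elim (fun q : Fin m × Ix n => Y q.1 q.2) g) v ^ e v := by
  classical
  rw [part, MvPolynomial.eval₂_sum]
  refine Finset.sum_congr ?_ fun e _ => ?_
  · ext e
    simp only [Finset.mem_filter, dg]
  · rw [MvPolynomial.eval₂_monomial, Finsupp.prod_fintype _ _ (fun y => pow_zero _)]

theorem odd_core (F : SympFam X n) {K : Type} [Field K] [NumberField K] (io : K →+* ℂ) (z : Fin r → ℂ)
    (s : Fin m → X → K) (hs : ∀ j, (fun x => io (s j x)) ∈ F.U)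
    (Φ : MvPolynomial (Var n m r) (𝓞 K))
    (h : ∀ G : Fin m → Ix n → ℂ, (∀ j, G j ∈ F.Tor (fun x => io (s j x))) →
      vl io Φ (Sum.elim (fun q => G q.1 q.2) (fun o => o.elim (Real.pi : ℂ) z)) = 0) (χ : Fin m → ι → Prop) :
    val io (part Φ χ) (fun j i => F.P i fun x => io (s j x)) z Real.pi = 0 := by
  classical
  set Y : Fin m → Ix n → ℂ := fun j q => F.P q.1 (fun x => io (s j x)) q.2.1 q.2.2 with hY
  set g : Option (Fin r) → ℂ := fun o => o.elim (Real.pi : ℂ) z with hg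
  have hYt : ∀ j, Y j ∈ F.Tor (fun x => io (s j x)) := fun j => F.tor.self _ (hs j)
  show MvPolynomial.eval₂ (io.comp (algebraMap (𝓞 K) K)) (Sum.elim (fun q : Fin m × Ix n => Y q.1 q.2) g) (part Φ χ) = 0
  rw [part_eval]
  set c : Fin m × ι → ℕ := fun p => if χ p.1 p.2 then 1 else 0 with hc
  have h1 : ∀ ε ∈ Fintype.piFinset (fun _ : Fin m × ι => ({1, -1} : Finset ℂ)),
      (∏ p, ε p ^ c p) * ∑ e ∈ Φ.support, io.comp (algebraMap (𝓞 K) K) (MvPolynomial.coeff e Φ) *
        ∏ v, (Sum.elim (fun q : Fin m × Ix n => ε (q.1, q.2.1) * Y q.1 q.2) g) v ^ e v = 0 := by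
    intro ε hε
    have h2 : ∀ p, ε p * ε p = 1 := by
      intro p
      have := Fintype.mem_piFinset.1 hε p
      rw [Finset.mem_insert, Finset.mem_singleton] at this
      rcases this with h3 | h3
      · rw [h3]; norm_num
      · rw [h3]; norm_num
    have h3 := h (fun j q => ε (j, q.1) * Y j q) (fun j => sign_tor F (Y j) (hYt j) (fun i => ε (j, i)) fun i => h2 _)
    rw [vl, MvPolynomial.eval₂_eq'] at h3
    rw [h3, mul_zero]
  have h2 := Finset.sum_eq_zero h1
  have h3 : ∑ ε ∈ Fintype.piFinset (fun _ : Fin m × ι => ({1, -1} : Finset ℂ)),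
      (∏ p, ε p ^ c p) * ∑ e ∈ Φ.support, io.comp (algebraMap (𝓞 K) K) (MvPolynomial.coeff e Φ) *
        ∏ v, (Sum.elim (fun q : Fin m × Ix n => ε (q.1, q.2.1) * Y q.1 q.2) g) v ^ e v =
      ∑ e ∈ Φ.support, (if ∀ p, Even (c p + dg e p) then 2 ^ Fintype.card (Fin m × ι) else 0) *
        (io.comp (algebraMap (𝓞 K) K) (MvPolynomial.coeff e Φ) *
          ∏ v, (Sum.elim (fun q : Fin m × Ix n => Y q.1 q.2) g) v ^ e v) := by
    simp_rw [Finset.mul_sum]
    rw [Finset.sum_comm]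
    refine Finset.sum_congr rfl fun e _ => ?_
    rw [← signs, Finset.sum_mul]
    refine Finset.sum_congr rfl fun ε _ => ?_
    rw [mono_sign]
    have h4 : ∏ p, ε p ^ (c p + dg e p) = (∏ p, ε p ^ c p) * ∏ p, ε p ^ dg e p := by
      rw [← Finset.prod_mul_distrib]
      exact Finset.prod_congr rfl fun p _ => pow_add _ _ _
    rw [h4]
    ring
  rw [h3] at h2
  have h4 : ∀ e : Var n m r →₀ ℕ, (∀ p, Even (c p + dg e p)) ↔ ∀ j i, Odd (dg e (j, i)) ↔ χ j i := by
    intro e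
    constructor
    · intro h5 j i
      have h6 := h5 (j, i)
      by_cases h7 : χ j i
      · simp only [hc, h7, if_true] at h6
        simp only [h7, iff_true]
        by_contra h8
        rw [Nat.not_odd_iff_even] at h8
        exact Nat.not_even_one ((Nat.even_add.1 h6).2 h8)
      · simp only [hc, h7, if_false, zero_add] at h6
        simp only [h7, iff_false, Nat.not_odd_iff_even]
        exact h6
    · rintro h5 ⟨j, i⟩
      have h6 := h5 j i
      by_cases h7 : χ j i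
      · simp only [hc, h7, if_true]
        exact Odd.add_odd odd_one (h6.2 h7)
      · simp only [hc, h7, if_false, zero_add]
        rw [← Nat.not_odd_iff_even]
        exact fun h8 => h7 (h6.1 h8)
  simp_rw [h4, ite_mul, zero_mul] at h2
  rw [← Finset.sum_filter, ← Finset.mul_sum] at h2
  exact (mul_eq_zero.1 h2).resolve_left (pow_ne_zero _ two_ne_zero)

/-- the value of a polynomial which does not contain the variables for the numbers -/
theorem val_free {K : Type} [Field K] (io : K →+* ℂ) (Φ : MvPolynomial (Var n m r) (𝓞 K))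
    (h : ∀ a, Φ.degreeOf (Sum.inr (some a)) = 0) (G : Fin m × Ix n → ℂ) (ζ ζ' : Fin r → ℂ) (ν : ℂ) :
    vl io Φ (Sum.elim G (fun o => o.elim ν ζ)) = vl io Φ (Sum.elim G (fun o => o.elim ν ζ')) := by
  classical
  rw [vl, vl, MvPolynomial.eval₂_eq', MvPolynomial.eval₂_eq']
  refine Finset.sum_congr rfl fun e he => ?_
  congr 1
  refine Finset.prod_congr rfl fun v _ => ?_
  rcases v with q | _ | a
  · rfl
  · rfl
  · have h1 : e (Sum.inr (some a)) = 0 := Nat.le_zero.1 (MvPolynomial.degreeOf_le_iff.1 (h a).le e he)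
    rw [h1, pow_zero, pow_zero]

/-- **Rigid tuples are clean.** -/
theorem clean_of (F : SympFam X n) (hk : 0 < k) {K : Type} [Field K] [NumberField K] (io : K →+* ℂ) {T : ℝ}
    (hT : (((k + 1) ^ Fintype.card (Var n k k) * 2 ^ k : ℕ) : ℝ) ≤ T) (z : Fin k → ℂ) (s : Fin k → X → K)
    (hs : ∀ j, (fun x => io (s j x)) ∈ F.U)
    (hR : Rigid F (k + 1) K io (Fin.cons Complex.I z : Fin (k + 1) → ℂ) T s) : Clean F k K io z T s where
  rel := by
    intro Φ hΦ h0 Y ζ ν hcl hY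
    have hν : ν ≠ 0 := fun h => (hY ⟨0, hk⟩).1 (by rw [h, mul_zero])
    exact extend_pi F io z s hs Φ hΦ.1 (rel_zero F io le_rfl hT z s hR Φ hΦ h0) Y ζ ν hcl hν hY
  inv := by
    intro Φ hΦ hcase hne hc h0
    have h1 := rel_zero F io le_rfl hT z s hR Φ hΦ h0
    rcases hcase with hcase | hcase
    · have h2 : ∀ (Y : Fin k → ∀ i, Matrix (Fin (n i)) (Fin (n i)) ℂ) (ν : ℂ), val io Φ Y z ν = val io Φ Y 0 ν :=
        fun Y ν => val_free io Φ hcase _ z 0 ν
      apply hne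
      rw [h2]
      refine inv_core F io 0 s hs Φ hΦ.1 (fun G hG => ?_) closure_zero ?_
      · rw [← h1 G hG]
        exact val_free io Φ hcase _ 0 z _
      · rcases hc with hc | hc
        · left
          intro Y
          rw [← h2, ← h2]
          exact hc Y
        · exact Or.inr hc
    · exact hne (inv_core F io z s hs Φ hΦ.1 h1 (closure_nu hcase) hc)
  odd := fun Φ hΦ h0 χ => odd_core F io z s hs Φ (rel_zero F io le_rfl hT z s hR Φ hΦ h0) χ
  free := by
    intro hz Φ hΦ h0 ζ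
    have hpi : (Real.pi : ℂ) ≠ 0 := by exact_mod_cast Real.pi_ne_zero
    refine extend_pi F io z s hs Φ hΦ.1 (rel_zero F io le_rfl hT z s hR Φ hΦ h0) _ ζ Real.pi (closure_free hz ζ) hpi
      fun j => ?_
    rw [← tpi_eq]
    exact F.mem (hs j)

end Pool.Agent.U543.CN
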