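import Pool.Agent.U543.TupDef

/-!
# `1 / π`, further numbers, and the periods of many fibres of a family with symplectic monodromy: definitions
-/

set_option autoImplicit false

open NumberField

namespace Pool.Agent.U543.CN

open Pool.Agent.Y890.MV (InnerM)
open Pool.Agent.Y890.SM (Ix SympFam tpi)

variable {X : Type} [Fintype X] {ι : Type} {n : ι → ℕ} {m r : ℕ}

/-- The value at `(Y_1, …, Y_m, ζ, ν)` of a polynomial over the integers of `K`; each `Y_j` is a family of matrices. -/
noncomputable def val {K : Type} [Field K] (io : K →+* ℂ)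
    (Φ : MvPolynomial ((Fin m × Ix n) ⊕ Option (Fin r)) (𝓞 K))
    (Y : Fin m → ∀ i, Matrix (Fin (n i)) (Fin (n i)) ℂ) (ζ : Fin r → ℂ) (ν : ℂ) : ℂ :=
  MvPolynomial.eval₂ (io.comp (algebraMap (𝓞 K) K))
    (Sum.elim (fun q => Y q.1 q.2.1 q.2.2.1 q.2.2.2) (fun o => o.elim ν ζ)) Φ

/-- The degree in each variable is at most `k` and the conjugates of the coefficients are at most `T ^ k`. -/
def Bounded {V : Type} (k : ℕ) {K : Type} [Field K] [NumberField K] (T : ℝ) (Φ : MvPolynomial V (𝓞 K)) : Prop :=
  (∀ i, Φ.degreeOf i ≤ k) ∧ ∀ e, house ((MvPolynomial.coeff e Φ : 𝓞 K) : K) ≤ T ^ k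

/-- The Zariski closure over `ℚ̄` of `(z, π)`: the `(ζ, ν)` at which all polynomials over `ℚ̄` vanish which vanish at
`(z, π)`. -/
def ClosurePi (z : Fin r → ℂ) : Set ((Fin r → ℂ) × ℂ) :=
  {p | ∀ G : MvPolynomial (Option (Fin r)) (algebraicClosure ℚ ℂ),
    MvPolynomial.aeval (fun o => o.elim (Real.pi : ℂ) z) G = 0 → MvPolynomial.aeval (fun o => o.elim p.2 p.1) G = 0}

open Classical in
/-- The part of `Φ` consisting of the monomials whose degree in the entries of the matrix `Y_{j,i}` is odd if and only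
if `χ j i` holds, for all `j` and `i`. So `Φ` is the sum of its parts. -/
noncomputable def part [Fintype ι] {K : Type} [Field K]
    (Φ : MvPolynomial ((Fin m × Ix n) ⊕ Option (Fin r)) (𝓞 K)) (χ : Fin m → ι → Prop) :
    MvPolynomial ((Fin m × Ix n) ⊕ Option (Fin r)) (𝓞 K) :=
  ∑ e ∈ Φ.support.filter (fun e => ∀ j i, Odd (∑ p : Fin (n i) × Fin (n i), e (Sum.inl (j, ⟨i, p⟩))) ↔ χ j i),
    MvPolynomial.monomial e (MvPolynomial.coeff e Φ)

/-- The periods at the points `s_1, …, s_k` have nothing to do with `1 / π` and the numbers `z_1, …, z_k`, as far as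
relations `Φ(P(s_1), …, P(s_k), z, π) = 0` of degree at most `k` in each variable are concerned, with coefficients in the
integers of `K` whose conjugates are at most `T ^ k`. -/
structure Clean [Fintype ι] [DecidableEq ι] (F : SympFam X n) (k : ℕ) (K : Type) [Field K] [NumberField K]
    (io : K →+* ℂ) (z : Fin k → ℂ) (T : ℝ) (s : Fin k → X → K) : Prop where
  /-- All relations hold at all `(Y, ζ, ν)` with `(ζ, ν)` in the closure of `(z, π)` and `(Y_j, 2 i ν)` in the torsor at
  `s_j` for all `j`. -/
  rel : ∀ Φ : MvPolynomial ((Fin k × Ix n) ⊕ Option (Fin k)) (𝓞 K), Bounded k T Φ →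
    val io Φ (fun j i => F.P i fun x => io (s j x)) z Real.pi = 0 →
    ∀ (Y : Fin k → ∀ i, Matrix (Fin (n i)) (Fin (n i)) ℂ) (ζ : Fin k → ℂ) (ν : ℂ), (ζ, ν) ∈ ClosurePi z →
      (∀ j, (Y j, 2 * Complex.I * ν) ∈ F.torsor fun x => io (s j x)) → val io Φ Y ζ ν = 0
  /-- `1 / π` is not integral over the ring of the polynomials in the periods: there is no relation
  `a + b_1(P) π + … + b_d(P) π ^ d = 0` with a constant `a ≠ 0`. If `π` is transcendental over `ℚ(z)`, then the same
  holds with `a`, `b_1`, … polynomials in `z` too. If all weights are positive, then even the constant term (with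
  respect to the periods and `π`) of each relation is `0`. -/
  inv : ∀ Φ : MvPolynomial ((Fin k × Ix n) ⊕ Option (Fin k)) (𝓞 K), Bounded k T Φ →
    ((∀ a, Φ.degreeOf (Sum.inr (some a)) = 0) ∨
      Transcendental (IntermediateField.adjoin ℚ (Set.range z)) (Real.pi : ℂ)) →
    val io Φ 0 z 0 ≠ 0 → ((∀ Y, val io Φ Y z 0 = val io Φ 0 z 0) ∨ ∀ i, 0 < F.w i) →
    val io Φ (fun j i => F.P i fun x => io (s j x)) z Real.pi ≠ 0
  /-- All parts of a relation are relations. So if `z_a` (for instance `e` or `γ`) is a polynomial in the periods, then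
  the monomials which have odd degree in some matrix can be left out. -/
  odd : ∀ Φ : MvPolynomial ((Fin k × Ix n) ⊕ Option (Fin k)) (𝓞 K), Bounded k T Φ →
    val io Φ (fun j i => F.P i fun x => io (s j x)) z Real.pi = 0 →
    ∀ χ : Fin k → ι → Prop, val io (part Φ χ) (fun j i => F.P i fun x => io (s j x)) z Real.pi = 0
  /-- If the `z_a` are algebraically independent over `ℚ(π)`, then they are algebraically independent over the ring of
  the polynomials in the periods. -/
  free : AlgebraicIndependent (IntermediateField.adjoin ℚ {(Real.pi : ℂ)}) z →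
    ∀ Φ : MvPolynomial ((Fin k × Ix n) ⊕ Option (Fin k)) (𝓞 K), Bounded k T Φ →
      val io Φ (fun j i => F.P i fun x => io (s j x)) z Real.pi = 0 →
      ∀ ζ : Fin k → ℂ, val io Φ (fun j i => F.P i fun x => io (s j x)) ζ Real.pi = 0

end Pool.Agent.U543.CN
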