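import Pool.Agent.U543.TupMain

/-!
# Relations between the periods of tuples of fibres from arbitrary sets of points: the theorem
-/

set_option autoImplicit false
set_option linter.unusedSectionVars false

open NumberField Filter Matrix

namespace Pool.Agent.U543.TU

open Pool.Agent.Y890.MV
open Pool.Agent.Y890.SM
open Pool.Agent.Y890.SP (Qbar ioQ ioQ_coe)
open Pool.Agent.Y124 (Cov)
open Pool.Agent.U543.GS (ex ex_apply eval2_eq FibG ExcF excF_cov)
open Pool.Agent.U543.GD (norm_le_of_house)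
open Pool.Agent.U543.SU (Closure evQ evG extend tor_sub)

variable {X : Type} [Fintype X] [DecidableEq X] {ι : Type} [Fintype ι] [DecidableEq ι] {n : ι → ℕ} {k : ℕ}

/-- the values of the other variables in the `j`-th step -/
noncomputable def zz (F : SympFam X n) {K : Type} [Field K] (io : K →+* ℂ) (ξ : Fin k → ℂ)
    (G : Fin k → (X → K) → Ix n → ℂ) (j : Fin k) (s : Fin k → X → K) : Var n k → ℂ
  | Sum.inl (l, y) => if l = j then 1 else if (l : ℕ) < j then F.f y (fun x => io (s l x)) else G l (s l) y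
  | Sum.inr o => o.elim tpi ξ

theorem zz_congr (F : SympFam X n) {K : Type} [Field K] (io : K →+* ℂ) (ξ : Fin k → ℂ)
    (G : Fin k → (X → K) → Ix n → ℂ) (j : Fin k) (s s' : Fin k → X → K) (h : ∀ l, l ≠ j → s l = s' l) :
    zz F io ξ G j s = zz F io ξ G j s' := by
  funext a
  rcases a with ⟨l, y⟩ | o
  · by_cases hl : l = j
    · simp [zz, hl]
    · simp only [zz, hl, if_false, h l hl]
  · rfl

/-- the relation for the choice `t` of the points as a polynomial in all matrices -/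
noncomputable def rel {K : Type} [Field K] (io : K →+* ℂ) (ξ : Fin k → ℂ) (S : Fin k → Finset (X → K))
    (m : (∀ j, {x // x ∈ S j}) × MvPolynomial (Var n k) (𝓞 K)) :
    MvPolynomial ((Σ j : Fin k, {x // x ∈ S j}) × Ix n) ℂ :=
  MvPolynomial.eval₂ ((MvPolynomial.C).comp (io.comp (algebraMap (𝓞 K) K)))
    (Sum.elim (fun q : Fin k × Ix n => MvPolynomial.X ((⟨q.1, m.1 q.1⟩ : Σ j : Fin k, {x // x ∈ S j}), q.2))
      (fun o : Option (Fin k) => MvPolynomial.C (o.elim tpi ξ))) m.2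

theorem rel_eval {K : Type} [Field K] (io : K →+* ℂ) (ξ : Fin k → ℂ) (S : Fin k → Finset (X → K))
    (t : ∀ j, {x // x ∈ S j}) (Φ : MvPolynomial (Var n k) (𝓞 K))
    (Y : (Σ j : Fin k, {x // x ∈ S j}) → Ix n → ℂ) :
    MvPolynomial.eval (fun b : (Σ j : Fin k, {x // x ∈ S j}) × Ix n => Y b.1 b.2) (rel io ξ S (t, Φ)) =
      vl io Φ (Sum.elim (fun q => Y ⟨q.1, t q.1⟩ q.2) (fun o => o.elim tpi ξ)) := by
  rw [rel, MvPolynomial.hom_eval₂, vl]
  congr 1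
  · ext a
    simp
  · funext a
    rcases a with q | o
    · simp
    · simp

/-- the condition for one tuple -/
theorem tuple (F : SympFam X n) {K : Type} [Field K] [NumberField K] (io : K →+* ℂ) (hk : 0 < k) (T : ℝ)
    (ξ : Fin k → ℂ) (S : Fin k → Finset (X → K)) (hS : ∀ j, (S j : Set (X → K)) ⊆ Pts F k K io T) :
    ∃ G : Fin k → (X → K) → Ix n → ℂ, ∀ s : Fin k → X → K, (∀ j, s j ∈ S j) → Exceptional F k K io ξ T s →
      ∃ j, s j ∈ EX F k K io (j, zz F io ξ G j s) T := by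
  classical
  have hU : ∀ j, ∀ x ∈ S j, (fun y => io (x y)) ∈ F.U := fun j x hx => innerM_sub _ hk (hS j hx).2
  have hcP := countable_poly K (Var n k)
  obtain ⟨G0, hG0, hG1⟩ := exists_generic_tor F (A := Σ j : Fin k, {x // x ∈ S j}) (fun a y => io (a.2.1 y))
    (fun a => hU a.1 a.2.1 a.2.2) (M := (∀ j, {x // x ∈ S j}) × MvPolynomial (Var n k) (𝓞 K))
    (rel io ξ S)
  refine ⟨fun j x => if h : x ∈ S j then G0 ⟨j, ⟨x, h⟩⟩ else 0, fun s hs hexc => ?_⟩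
  by_contra hcon
  push Not at hcon
  obtain ⟨Φ, hΦ1, hΦ2, hΦ3, p, hp, hne⟩ := hexc
  apply hne
  refine full F io ξ s (fun j => hU j _ (hs j)) Φ ?_ p hp (hp.2 ⟨0, hk⟩).1
  -- the generic points
  set t : ∀ j, {x // x ∈ S j} := fun j => ⟨s j, hs j⟩ with ht
  have h1 := descend F io T ξ s (fun j => hS j (hs j)) (fun j => G0 ⟨j, t j⟩) (fun j => hG0 ⟨j, t j⟩)
    (fun j => zz F io ξ (fun j x => if h : x ∈ S j then G0 ⟨j, ⟨x, h⟩⟩ else 0) j s) (fun j l hl y => by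
      simp only [zz, hl, if_false, mix]
      by_cases h2 : (l : ℕ) < j
      · rw [if_pos h2, if_pos h2]
      · rw [if_neg h2, if_neg h2]
        exact congrFun (dif_pos (hs l)) y) (fun j o => rfl) hcon Φ hΦ1 hΦ2 (by
      have h2 : mix F (fun j x => io (s j x)) (fun j => G0 ⟨j, t j⟩) ξ k =
          Sum.elim (fun q => F.P q.2.1 (fun x => io (s q.1 x)) q.2.2.1 q.2.2.2) (fun o => o.elim tpi ξ) := by
        funext a
        rcases a with ⟨l, y⟩ | o
        · simp only [mix, l.2, if_true, Sum.elim_inl]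
          rfl
        · rfl
      rw [h2]
      exact hΦ3)
  have h2 : mix F (fun j x => io (s j x)) (fun j => G0 ⟨j, t j⟩) ξ 0 =
      Sum.elim (fun q => G0 ⟨q.1, t q.1⟩ q.2) (fun o => o.elim tpi ξ) := by
    funext a
    rcases a with ⟨l, y⟩ | o
    · simp [mix]
    · rfl
  rw [h2, ← rel_eval io ξ S t Φ G0] at h1
  intro G hG
  set Y : (Σ j : Fin k, {x // x ∈ S j}) → Ix n → ℂ := fun a => if a.2 = t a.1 then G a.1 else G0 a with hY
  have h3 := hG1 (t, Φ) h1 Y (fun a => by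
    by_cases h4 : a.2 = t a.1
    · have h5 := hG a.1
      have h6 : Y a = G a.1 := if_pos h4
      rw [h6, h4]
      exact h5
    · have h6 : Y a = G0 a := if_neg h4
      rw [h6]
      exact hG0 a)
  rw [rel_eval io ξ S t Φ Y] at h3
  have h7 : ∀ j, Y ⟨j, t j⟩ = G j := fun j => if_pos rfl
  simpa only [h7] using h3

/-- **The main theorem.** -/
theorem main [Nonempty X] (F : SympFam X n) :
    ∃ (ω : ℝ → ℕ) (T₀ : ℝ), Tendsto ω atTop atTop ∧ Monotone ω ∧ ∀ T, T₀ ≤ T → 0 < ω T ∧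
      (ω T : ℝ) ^ 2 ≤ T ^ ((ω T : ℝ)⁻¹) ∧
      ∀ (K : Type) [Field K] [NumberField K], Module.finrank ℚ K ≤ ω T → ∀ (io : K →+* ℂ) (ξ : Fin (ω T) → ℂ)
        (S : Fin (ω T) → Finset (X → K)), (∀ j, (S j : Set (X → K)) ⊆ Pts F (ω T) K io T) →
        {s | (∀ j, s j ∈ S j) ∧ Exceptional F (ω T) K io ξ T s}.Finite ∧
        ({s | (∀ j, s j ∈ S j) ∧ Exceptional F (ω T) K io ξ T s}.ncard : ℝ) ≤
          T ^ ((ω T : ℝ)⁻¹) * ({x : K | Y120.HtLe K T x}.ncard : ℝ) ^ (Fintype.card X - 1) *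
            ∑ j, ∏ l ∈ Finset.univ.erase j, ((S l).card : ℝ) := by
  classical
  obtain ⟨ω, T₀, h1, h2, h3⟩ := omega_two (fun k => Fin k × (Var n k → ℂ))
    (fun k T => (k : ℝ) ^ 2 ≤ T ^ ((k : ℝ)⁻¹)) (fun k => by
      rcases Nat.eq_zero_or_pos k with hk | hk
      · exact ⟨0, fun T _ => by subst hk; simp⟩
      · refine ⟨(k : ℝ) ^ (2 * k), fun T hT => ?_⟩
        have e1 : (k : ℝ) ^ 2 = ((k : ℝ) ^ (2 * k)) ^ ((k : ℝ)⁻¹) := by
          rw [pow_mul, ← Real.rpow_natCast (((k : ℝ)) ^ 2) k, ← Real.rpow_mul (by positivity),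
            mul_inv_cancel₀ (by positivity), Real.rpow_one]
        rw [e1]
        exact Real.rpow_le_rpow (by positivity) hT (by positivity))
    (fun k K _ _ io p T => EX F k K io p T) (fun k K _ _ io p T s hs => hs.1) (by
      intro k ε hε
      rcases Nat.eq_zero_or_pos k with hk | hk
      · refine ⟨0, 0, 2, le_rfl, le_rfl, ?_⟩
        intro K _ _ hK
        have h1 : 0 < Module.finrank ℚ K := Module.finrank_pos
        omega
      have hf : ∀ q, AnalyticOnNhd ℂ (F.f q) F.U := fun q => F.an q.1 q.2.1 q.2.2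
      obtain ⟨D, C, T₀, h1, h2, h3⟩ := excF_cov F.conn F.isOpen F.nonempty hf (F.tor.reg F.conn hf)
        (InnerM F.U k) (innerM_compact _ _) (innerM_sub _ hk) k (Var n k → Fin (k + 1)) Unit k (k : ℝ) ε hε
      exact ⟨D, C, T₀, h1, h2, fun K _ _ hK io p T hT => h3 K hK io (CoV (cut p.1 p.2))
        (fun z hz => Subfield.subset_closure (Or.inl hz)) (QJ p.1 (cut p.1 p.2)) (QJ_deg _ _) T hT⟩)
  refine ⟨ω, T₀, h1, h2, fun T hT => ?_⟩
  obtain ⟨hk, h4, h5⟩ := h3 T hT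
  refine ⟨hk, h4, fun K _ _ hK io ξ S hS => ?_⟩
  obtain ⟨G, hG⟩ := tuple F io hk T ξ S hS
  have hT0 : 0 ≤ T ^ ((ω T : ℝ)⁻¹) := le_trans (by positivity) h4
  set N : ℝ := T ^ ((ω T : ℝ)⁻¹) * ({x : K | Y120.HtLe K T x}.ncard : ℝ) ^ (Fintype.card X - 1) with hN
  have hN0 : 0 ≤ N := mul_nonneg hT0 (by positivity)
  obtain ⟨h6, h7⟩ := count S (fun j s => EX F (ω T) K io (j, zz F io ξ G j s) T) ⌊N⌋₊
    (fun j s s' h => by rw [zz_congr F io ξ G j s s' h])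
    (fun j s => ⟨(h5 K hK io (j, zz F io ξ G j s)).2.1, Nat.le_floor (h5 K hK io (j, zz F io ξ G j s)).2.2⟩)
    {s | (∀ j, s j ∈ S j) ∧ Exceptional F (ω T) K io ξ T s} (fun s hs => ⟨hs.1, hG s hs.1 hs.2⟩)
  refine ⟨h6, ?_⟩
  have h8 : ({s | (∀ j, s j ∈ S j) ∧ Exceptional F (ω T) K io ξ T s}.ncard : ℝ) ≤
      (⌊N⌋₊ : ℝ) * ∑ j, ∏ l ∈ Finset.univ.erase j, ((S l).card : ℝ) := by
    exact_mod_cast h7
  refine h8.trans (mul_le_mul_of_nonneg_right (Nat.floor_le hN0) ?_)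
  exact Finset.sum_nonneg fun j _ => Finset.prod_nonneg fun l _ => Nat.cast_nonneg _

/-- the proportion of the exceptional tuples -/
theorem proportion {k : ℕ} (hk : 0 < k) {B M : ℝ} (hB : 0 < B) (hkB : (k : ℝ) ^ 2 ≤ B) (hM : 0 < M) (c : Fin k → ℝ)
    (hc : ∀ j, B ^ 2 * M ≤ c j) {e : ℝ} (he : e ≤ B * M * ∑ j, ∏ l ∈ Finset.univ.erase j, c l) :
    e ≤ (k : ℝ)⁻¹ * ∏ j, c j := by
  have hc0 : ∀ j, 0 < c j := fun j => lt_of_lt_of_le (by positivity) (hc j)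
  have hk0 : (0 : ℝ) < k := by exact_mod_cast hk
  refine he.trans ?_
  have h1 : ∀ j, B * M * ∏ l ∈ Finset.univ.erase j, c l ≤ B⁻¹ * ∏ l, c l := by
    intro j
    have h2 : ∏ l, c l = c j * ∏ l ∈ Finset.univ.erase j, c l := (Finset.mul_prod_erase _ _ (Finset.mem_univ j)).symm
    rw [h2, ← mul_assoc]
    refine mul_le_mul_of_nonneg_right ?_ (Finset.prod_nonneg fun l _ => (hc0 l).le)
    calc B * M = B⁻¹ * (B ^ 2 * M) := by field_simp
      _ ≤ B⁻¹ * c j := mul_le_mul_of_nonneg_left (hc j) (by positivity)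
  rw [Finset.mul_sum]
  refine (Finset.sum_le_sum fun j _ => h1 j).trans ?_
  rw [Finset.sum_const, Finset.card_univ, Fintype.card_fin, nsmul_eq_mul, ← mul_assoc]
  refine mul_le_mul_of_nonneg_right ?_ (Finset.prod_nonneg fun l _ => (hc0 l).le)
  rw [← div_eq_mul_inv, div_le_iff₀ hB]
  calc (k : ℝ) = (k : ℝ)⁻¹ * (k : ℝ) ^ 2 := by field_simp
    _ ≤ (k : ℝ)⁻¹ * B := mul_le_mul_of_nonneg_left hkB (by positivity)

/-- the theorem with the proportion -/
theorem main_two [Nonempty X] (F : SympFam X n) :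
    ∃ (ω : ℝ → ℕ) (T₀ : ℝ), Tendsto ω atTop atTop ∧ Monotone ω ∧ ∀ T, T₀ ≤ T → 0 < ω T ∧
      ∀ (K : Type) [Field K] [NumberField K], Module.finrank ℚ K ≤ ω T → ∀ (io : K →+* ℂ) (ξ : Fin (ω T) → ℂ)
        (S : Fin (ω T) → Finset (X → K)), (∀ j, (S j : Set (X → K)) ⊆ Pts F (ω T) K io T) →
        {s | (∀ j, s j ∈ S j) ∧ Exceptional F (ω T) K io ξ T s}.Finite ∧
        ({s | (∀ j, s j ∈ S j) ∧ Exceptional F (ω T) K io ξ T s}.ncard : ℝ) ≤
          T ^ ((ω T : ℝ)⁻¹) * ({x : K | Y120.HtLe K T x}.ncard : ℝ) ^ (Fintype.card X - 1) *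
            ∑ j, ∏ l ∈ Finset.univ.erase j, ((S l).card : ℝ) ∧
        ((∀ j, (T ^ ((ω T : ℝ)⁻¹)) ^ 2 * ({x : K | Y120.HtLe K T x}.ncard : ℝ) ^ (Fintype.card X - 1) ≤
            ((S j).card : ℝ)) →
          ({s | (∀ j, s j ∈ S j) ∧ Exceptional F (ω T) K io ξ T s}.ncard : ℝ) ≤
            (ω T : ℝ)⁻¹ * ∏ j, ((S j).card : ℝ)) := by
  obtain ⟨ω, T₀, h1, h2, h3⟩ := main F
  refine ⟨ω, T₀, h1, h2, fun T hT => ?_⟩
  obtain ⟨hk, h4, h5⟩ := h3 T hT
  refine ⟨hk, fun K _ _ hK io ξ S hS => ?_⟩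
  obtain ⟨h6, h7⟩ := h5 K hK io ξ S hS
  refine ⟨h6, h7, fun h8 => ?_⟩
  have hB : 0 < T ^ ((ω T : ℝ)⁻¹) := lt_of_lt_of_le (by positivity) h4
  rcases (show (0 : ℝ) ≤ ({x : K | Y120.HtLe K T x}.ncard : ℝ) ^ (Fintype.card X - 1) by positivity).eq_or_lt
    with hM | hM
  · rw [← hM, mul_zero, zero_mul] at h7
    exact h7.trans (mul_nonneg (by positivity) (Finset.prod_nonneg fun j _ => Nat.cast_nonneg _))
  · exact proportion hk hB h4 hM (fun j => ((S j).card : ℝ)) h8 h7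

/-- `(P(s_1), …, P(s_k), ξ, 2 π i)` is a point of the fibre product. -/
theorem self_mem (F : SympFam X n) (ξ : Fin k → ℂ) (x : Fin k → X → ℂ) (hx : ∀ j, x j ∈ F.U) :
    ((fun j i => F.P i (x j)), ξ, tpi) ∈ Product F ξ x :=
  ⟨fun _ hG => hG, fun j => F.mem (hx j)⟩

end Pool.Agent.U543.TU
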