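import Pool.Agent.U543.CnClean
import Pool.Agent.U543.TupFin

/-!
# `1 / π`, further numbers and the periods of many fibres: the theorem
-/

set_option autoImplicit false
set_option linter.unusedSectionVars false

open NumberField Filter

namespace Pool.Agent.U543.CN

open Pool.Agent.Y890.MV
open Pool.Agent.Y890.SM
open Pool.Agent.U543.TU (Pts proportion)

variable {X : Type} [Fintype X] [DecidableEq X] {ι : Type} [Fintype ι] [DecidableEq ι] {n : ι → ℕ}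

/-- from a property of rigid tuples to the counting -/
theorem main_prop [Nonempty X] (F : SympFam X n) (a b : ℕ → ℕ) (c : ℕ → ℝ)
    (Z : ℕ → Type) (g : ∀ k, Z k → Fin (a k) → ℂ)
    (Q : ∀ (k : ℕ) (K : Type) [Field K] [NumberField K], (K →+* ℂ) → Z k → ℝ → (Fin k → X → K) → Prop)
    (hQ : ∀ (k : ℕ), 0 < k → ∀ (K : Type) [Field K] [NumberField K] (io : K →+* ℂ) (z : Z k) (T : ℝ), c k ≤ T →
      ∀ s : Fin k → X → K, (∀ j, (fun x => io (s j x)) ∈ F.U) → Rigid F (b k) K io (g k z) T s → Q k K io z T s) :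
    ∃ (ω : ℝ → ℕ) (T₀ : ℝ), Tendsto ω atTop atTop ∧ Monotone ω ∧ ∀ T, T₀ ≤ T → 0 < ω T ∧
      ∀ (K : Type) [Field K] [NumberField K], Module.finrank ℚ K ≤ ω T → ∀ (io : K →+* ℂ) (z : Z (ω T))
        (S : Fin (ω T) → Finset (X → K)), (∀ j, (S j : Set (X → K)) ⊆ Pts F (ω T) K io T) →
        {s | (∀ j, s j ∈ S j) ∧ ¬ Q (ω T) K io z T s}.Finite ∧
        ({s | (∀ j, s j ∈ S j) ∧ ¬ Q (ω T) K io z T s}.ncard : ℝ) ≤
          T ^ ((ω T : ℝ)⁻¹) * ({x : K | Y120.HtLe K T x}.ncard : ℝ) ^ (Fintype.card X - 1) *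
            ∑ j, ∏ l ∈ Finset.univ.erase j, ((S l).card : ℝ) ∧
        ((∀ j, (T ^ ((ω T : ℝ)⁻¹)) ^ 2 * ({x : K | Y120.HtLe K T x}.ncard : ℝ) ^ (Fintype.card X - 1) ≤
            ((S j).card : ℝ)) →
          ({s | (∀ j, s j ∈ S j) ∧ ¬ Q (ω T) K io z T s}.ncard : ℝ) ≤
            (ω T : ℝ)⁻¹ * ∏ j, ((S j).card : ℝ)) := by
  obtain ⟨ω, T₀, h1, h2, h3⟩ := main F a b c
  refine ⟨ω, T₀, h1, h2, fun T hT => ?_⟩
  obtain ⟨hk, ⟨h4, hc⟩, h5⟩ := h3 T hT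
  refine ⟨hk, fun K _ _ hK io z S hS => ?_⟩
  obtain ⟨h6', h7'⟩ := h5 K hK io (g _ z) S hS
  have hsub : {s : Fin (ω T) → X → K | (∀ j, s j ∈ S j) ∧ ¬ Q (ω T) K io z T s} ⊆
      {s : Fin (ω T) → X → K | (∀ j, s j ∈ S j) ∧ ¬ Rigid F (b (ω T)) K io (g _ z) T s} := by
    rintro s ⟨hs, hn⟩
    exact ⟨hs, fun hR => hn (hQ _ hk K io z T hc s (fun j => innerM_sub _ hk (hS j (hs j)).2) hR)⟩
  have h6 := h6'.subset hsub
  have h7 : ({s : Fin (ω T) → X → K | (∀ j, s j ∈ S j) ∧ ¬ Q (ω T) K io z T s}.ncard : ℝ) ≤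
          T ^ ((ω T : ℝ)⁻¹) * ({x : K | Y120.HtLe K T x}.ncard : ℝ) ^ (Fintype.card X - 1) *
            ∑ j, ∏ l ∈ Finset.univ.erase j, ((S l).card : ℝ) :=
    le_trans (by exact_mod_cast Set.ncard_le_ncard hsub h6') h7'
  refine ⟨h6, h7, fun h8 => ?_⟩
  have hB : 0 < T ^ ((ω T : ℝ)⁻¹) := lt_of_lt_of_le (by positivity) h4
  rcases (show (0 : ℝ) ≤ ({x : K | Y120.HtLe K T x}.ncard : ℝ) ^ (Fintype.card X - 1) by positivity).eq_or_lt
    with hM | hM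
  · rw [← hM, mul_zero, zero_mul] at h7
    exact h7.trans (mul_nonneg (by positivity) (Finset.prod_nonneg fun j _ => Nat.cast_nonneg _))
  · exact proportion hk hB h4 hM (fun j => ((S j).card : ℝ)) h8 h7

/-- **The main theorem.** -/
theorem main_clean [Nonempty X] (F : SympFam X n) :
    ∃ (ω : ℝ → ℕ) (T₀ : ℝ), Tendsto ω atTop atTop ∧ Monotone ω ∧ ∀ T, T₀ ≤ T → 0 < ω T ∧
      ∀ (K : Type) [Field K] [NumberField K], Module.finrank ℚ K ≤ ω T → ∀ (io : K →+* ℂ) (z : Fin (ω T) → ℂ)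
        (S : Fin (ω T) → Finset (X → K)), (∀ j, (S j : Set (X → K)) ⊆ Pts F (ω T) K io T) →
        {s | (∀ j, s j ∈ S j) ∧ ¬ Clean F (ω T) K io z T s}.Finite ∧
        ({s | (∀ j, s j ∈ S j) ∧ ¬ Clean F (ω T) K io z T s}.ncard : ℝ) ≤
          T ^ ((ω T : ℝ)⁻¹) * ({x : K | Y120.HtLe K T x}.ncard : ℝ) ^ (Fintype.card X - 1) *
            ∑ j, ∏ l ∈ Finset.univ.erase j, ((S l).card : ℝ) ∧
        ((∀ j, (T ^ ((ω T : ℝ)⁻¹)) ^ 2 * ({x : K | Y120.HtLe K T x}.ncard : ℝ) ^ (Fintype.card X - 1) ≤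
            ((S j).card : ℝ)) →
          ({s | (∀ j, s j ∈ S j) ∧ ¬ Clean F (ω T) K io z T s}.ncard : ℝ) ≤
            (ω T : ℝ)⁻¹ * ∏ j, ((S j).card : ℝ)) :=
  main_prop F (fun k => k + 1) (fun k => k + 1)
    (fun k => (((k + 1) ^ Fintype.card (Var n k k) * 2 ^ k : ℕ) : ℝ)) (fun k => Fin k → ℂ)
    (fun k z => (Fin.cons Complex.I z : Fin (k + 1) → ℂ)) (fun k K _ _ io z T s => Clean F k K io z T s)
    (fun _ hk _ _ _ io z _ hT s hs hR => clean_of F hk io hT z s hs hR)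

end Pool.Agent.U543.CN
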