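import Pool.Agent.U543.CnHom
import Pool.Agent.U543.CnTr
import Pool.Agent.U543.CnFin

/-!
# Exponentials of algebraic numbers and the periods of many fibres
-/

set_option autoImplicit false
set_option linter.unusedSectionVars false

open NumberField Filter

namespace Pool.Agent.U543.CN

open Pool.Agent.Y890.MV
open Pool.Agent.Y890.SM
open Pool.Agent.Y890.SP (Qbar ioQ ioQ_coe)
open Pool.Agent.U543.TU (Pts)

variable {X : Type} [Fintype X] [DecidableEq X] {ι : Type} [Fintype ι] [DecidableEq ι] {n : ι → ℕ} {k : ℕ}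

/-- the index which is left out -/
theorem exists_a0 (hk : 0 < k) (α : Fin k → ℂ) (hα : ∀ a, IsAlgebraic ℚ (α a)) : ∃ a₀ : Fin k,
    LinearIndependent ℚ α → AlgebraicIndependent (IntermediateField.adjoin ℚ {(Real.pi : ℂ)})
      (fun a : {a : Fin k // a ≠ a₀} => Complex.exp (α a)) := by
  by_cases h : LinearIndependent ℚ α
  · obtain ⟨a₀, h1⟩ := exchange hk (H327R2.SC.lw_algInd α hα h) H340R2.LW.transcendental_pi_complex
    exact ⟨a₀, fun _ => h1⟩
  · exact ⟨⟨0, hk⟩, fun h1 => absurd h1 h⟩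

/-- linear forms in the exponentials -/
theorem lin_vanish (α : Fin k → ℂ) (hα : ∀ a, IsAlgebraic ℚ (α a)) (hinj : Function.Injective α)
    (G : MvPolynomial (Fin k) Qbar) (hG : ∀ v ∈ G.support, ∑ a, v a = 1)
    (h : MvPolynomial.aeval (fun a => Complex.exp (α a)) G = 0) (ζ : Fin k → ℂ) : MvPolynomial.aeval ζ G = 0 := by
  classical
  have hv : ∀ v : Fin k →₀ ℕ, ∑ a, v a = 1 → ∃ a, v = Finsupp.single a 1 := by
    intro v hv
    obtain ⟨a, ha⟩ : ∃ a, v a ≠ 0 := by
      by_contra hcon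
      push Not at hcon
      simp [hcon] at hv
    refine ⟨a, Finsupp.ext fun b => ?_⟩
    have h1 : v a + ∑ b ∈ Finset.univ.erase a, v b = 1 := by
      rw [Finset.add_sum_erase _ _ (Finset.mem_univ a)]
      exact hv
    by_cases hb : b = a
    · subst hb
      rw [Finsupp.single_eq_same]
      omega
    · rw [Finsupp.single_eq_of_ne hb]
      have h2 : ∑ b ∈ Finset.univ.erase a, v b = 0 := by omega
      exact (Finset.sum_eq_zero_iff.1 h2) b (Finset.mem_erase.2 ⟨hb, Finset.mem_univ _⟩)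
  have key : ∀ z : Fin k → ℂ, MvPolynomial.aeval z G =
      ∑ a, algebraMap Qbar ℂ (G.coeff (Finsupp.single a 1)) * z a := by
    intro z
    rw [MvPolynomial.aeval_def, MvPolynomial.eval₂_eq']
    have h1 : ∀ a : Fin k, algebraMap Qbar ℂ (G.coeff (Finsupp.single a 1)) * z a =
        algebraMap Qbar ℂ (G.coeff (Finsupp.single a 1)) * ∏ b, z b ^ (Finsupp.single a 1 : Fin k →₀ ℕ) b := by
      intro a
      rw [Finset.prod_eq_single a]
      · rw [Finsupp.single_eq_same, pow_one]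
      · intro b _ hb
        rw [Finsupp.single_eq_of_ne hb, pow_zero]
      · intro h; exact absurd (Finset.mem_univ _) h
    simp_rw [h1]
    have hinj2 : Function.Injective fun a : Fin k => (Finsupp.single a 1 : Fin k →₀ ℕ) :=
      Finsupp.single_left_injective one_ne_zero
    rw [← Finset.sum_image (s := Finset.univ) (g := fun a : Fin k => (Finsupp.single a 1 : Fin k →₀ ℕ))
      (f := fun v => algebraMap Qbar ℂ (G.coeff v) * ∏ b, z b ^ v b) (hinj2.injOn)]
    refine Finset.sum_subset ?_ ?_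
    · intro v hvs
      obtain ⟨a, rfl⟩ := hv v (hG v hvs)
      exact Finset.mem_image.2 ⟨a, Finset.mem_univ _, rfl⟩
    · intro v _ hvs
      rw [MvPolynomial.notMem_support_iff.1 hvs, map_zero, zero_mul]
  have h1 := H340R2.LW.lindemann_weierstrass Finset.univ α
    (fun a => algebraMap Qbar ℂ (G.coeff (Finsupp.single a 1))) (fun a _ => hα a)
    (fun a _ => mem_algebraicClosure_iff.1 (G.coeff (Finsupp.single a 1)).2) hinj.injOn (by
      rw [← key]
      exact h)
  rw [key]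
  refine Finset.sum_eq_zero fun a ha => ?_
  rw [h1 a ha, zero_mul]

/-- algebraic independence over `ℚ̄` -/
theorem alg_vanish (α : Fin k → ℂ) (hα : ∀ a, IsAlgebraic ℚ (α a)) (hli : LinearIndependent ℚ α)
    (G : MvPolynomial (Fin k) Qbar)
    (h : MvPolynomial.aeval (fun a => Complex.exp (α a)) G = 0) (ζ : Fin k → ℂ) : MvPolynomial.aeval ζ G = 0 := by
  have h1 := (H327R2.SC.lw_algInd α hα hli).algebraicClosure
  rw [algebraicIndependent_iff] at h1
  rw [h1 G h, map_zero]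

/-- **Rigid tuples are clean for the exponentials.** -/
theorem cleanExp_of (F : SympFam X n) (hk : 0 < k) {K : Type} [Field K] [NumberField K] (io : K →+* ℂ) {T : ℝ}
    (hT : (((k + 1) ^ Fintype.card (Var n k k) * 2 ^ k : ℕ) : ℝ) ≤ T) (α : Fin k → ℂ)
    (hα : ∀ a, IsAlgebraic ℚ (α a)) (a₀ : Fin k) (ha₀ : LinearIndependent ℚ α →
      AlgebraicIndependent (IntermediateField.adjoin ℚ {(Real.pi : ℂ)})
        (fun a : {a : Fin k // a ≠ a₀} => Complex.exp (α a))) (s : Fin k → X → K)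
    (hs : ∀ j, (fun x => io (s j x)) ∈ F.U)
    (hR : Rigid F (k + 1) K io (Fin.cons Complex.I (fun a => Complex.exp (α a)) : Fin (k + 1) → ℂ) T s) :
    CleanExp F k K io α a₀ T s where
  clean := clean_of F hk io hT _ s hs hR
  hom := by
    intro Φ hΦ d hd h0 ζ hζ Y ν hY
    have hν : ν ≠ 0 := fun h => (hY ⟨0, hk⟩).1 (by rw [h, mul_zero])
    exact hom_core F io _ ζ s hs Φ d hd (fun _ => True) (fun _ _ => trivial) (fun G _ hG => hζ G hG)
      (rel_zero F io le_rfl hT _ s hR Φ hΦ h0) Y ν hν hY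
  lin := by
    intro hinj Φ hΦ d hd hl h0 ζ
    have hpi : (Real.pi : ℂ) ≠ 0 := by exact_mod_cast Real.pi_ne_zero
    refine hom_core F io _ ζ s hs Φ d hd (fun v => ∑ a, v a = 1) (fun e he => hl e he)
      (fun G hG1 hG => lin_vanish α hα hinj G hG1 hG ζ) (rel_zero F io le_rfl hT _ s hR Φ hΦ h0) _ Real.pi hpi
      fun j => ?_
    rw [← tpi_eq]
    exact F.mem (hs j)
  alg := by
    intro hli Φ hΦ d hd h0 ζ
    have hpi : (Real.pi : ℂ) ≠ 0 := by exact_mod_cast Real.pi_ne_zero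
    refine hom_core F io _ ζ s hs Φ d hd (fun _ => True) (fun _ _ => trivial)
      (fun G _ hG => alg_vanish α hα hli G hG ζ) (rel_zero F io le_rfl hT _ s hR Φ hΦ h0) _ Real.pi hpi
      fun j => ?_
    rw [← tpi_eq]
    exact F.mem (hs j)
  ring := by
    intro hli Φ hΦ h1 h0 ζ
    have hpi : (Real.pi : ℂ) ≠ 0 := by exact_mod_cast Real.pi_ne_zero
    have h2 := rel_zero F io le_rfl hT _ s hR Φ hΦ h0
    -- the values do not depend on the variable which is left out
    have h3 : ∀ (G : Fin k × Ix n → ℂ) (z z' : Fin k → ℂ) (ν : ℂ), (∀ a, a ≠ a₀ → z a = z' a) →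
        vl io Φ (Sum.elim G (fun o => o.elim ν z)) = vl io Φ (Sum.elim G (fun o => o.elim ν z')) := by
      intro G z z' ν hz
      rw [vl, vl, MvPolynomial.eval₂_eq', MvPolynomial.eval₂_eq']
      refine Finset.sum_congr rfl fun e he => ?_
      congr 1
      refine Finset.prod_congr rfl fun v _ => ?_
      rcases v with q | _ | a
      · rfl
      · rfl
      · by_cases ha : a = a₀
        · subst ha
          have h4 : e (Sum.inr (some a)) = 0 := Nat.le_zero.1 (MvPolynomial.degreeOf_le_iff.1 h1.le e he)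
          rw [h4, pow_zero, pow_zero]
        · show z a ^ _ = z' a ^ _
          rw [hz a ha]
    set z' : Fin k → ℂ := fun a => if a = a₀ then 0 else Complex.exp (α a) with hz'
    set ζ' : Fin k → ℂ := fun a => if a = a₀ then 0 else ζ a with hζ'
    have hcl : (ζ', (Real.pi : ℂ)) ∈ ClosurePi z' := by
      intro G hG
      refine closure_gen (IntermediateField.adjoin ℚ {(Real.pi : ℂ)}) (W := {a : Fin k // a ≠ a₀}) _ _
        (fun a => Complex.exp (α a)) (fun a => ζ a) (ha₀ hli) (fun o => ?_) G hG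
      rcases o with _ | a
      · exact Or.inl ⟨rfl, IntermediateField.subset_adjoin _ _ rfl⟩
      · by_cases ha : a = a₀
        · left
          refine ⟨?_, ?_⟩
          · simp [hz', hζ', ha]
          · have : (some a).elim (Real.pi : ℂ) z' = 0 := by simp [hz', ha]
            rw [this]
            exact zero_mem _
        · exact Or.inr ⟨⟨a, ha⟩, by simp [hz', ha], by simp [hζ', ha]⟩
    have h4 := extend_pi F io z' s hs Φ hΦ.1 (fun G hG => by
      rw [← h2 G hG]
      exact h3 _ _ _ _ (fun a ha => by simp [hz', ha])) (fun j i => F.P i fun x => io (s j x)) ζ' Real.pi hcl hpi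
      (fun j => by
        rw [← tpi_eq]
        exact F.mem (hs j))
    rw [← h4]
    exact h3 _ _ _ _ (fun a ha => by simp [hζ', ha])

/-- **The main theorem.** -/
theorem main_exp [Nonempty X] (F : SympFam X n) :
    ∃ (ω : ℝ → ℕ) (T₀ : ℝ), Tendsto ω atTop atTop ∧ Monotone ω ∧ ∀ T, T₀ ≤ T → 0 < ω T ∧
      ∀ α : Fin (ω T) → ℂ, (∀ a, IsAlgebraic ℚ (α a)) → ∃ a₀ : Fin (ω T),
      ∀ (K : Type) [Field K] [NumberField K], Module.finrank ℚ K ≤ ω T → ∀ (io : K →+* ℂ)
        (S : Fin (ω T) → Finset (X → K)), (∀ j, (S j : Set (X → K)) ⊆ Pts F (ω T) K io T) →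
        {s | (∀ j, s j ∈ S j) ∧ ¬ CleanExp F (ω T) K io α a₀ T s}.Finite ∧
        ({s | (∀ j, s j ∈ S j) ∧ ¬ CleanExp F (ω T) K io α a₀ T s}.ncard : ℝ) ≤
          T ^ ((ω T : ℝ)⁻¹) * ({x : K | Y120.HtLe K T x}.ncard : ℝ) ^ (Fintype.card X - 1) *
            ∑ j, ∏ l ∈ Finset.univ.erase j, ((S l).card : ℝ) ∧
        ((∀ j, (T ^ ((ω T : ℝ)⁻¹)) ^ 2 * ({x : K | Y120.HtLe K T x}.ncard : ℝ) ^ (Fintype.card X - 1) ≤
            ((S j).card : ℝ)) →
          ({s | (∀ j, s j ∈ S j) ∧ ¬ CleanExp F (ω T) K io α a₀ T s}.ncard : ℝ) ≤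
            (ω T : ℝ)⁻¹ * ∏ j, ((S j).card : ℝ)) := by
  obtain ⟨ω, T₀, h1, h2, h3⟩ := main_prop F (fun k => k + 1) (fun k => k + 1)
    (fun k => (((k + 1) ^ Fintype.card (Var n k k) * 2 ^ k : ℕ) : ℝ))
    (fun k => {p : (Fin k → ℂ) × Fin k // (∀ a, IsAlgebraic ℚ (p.1 a)) ∧ (LinearIndependent ℚ p.1 →
      AlgebraicIndependent (IntermediateField.adjoin ℚ {(Real.pi : ℂ)})
        (fun a : {a : Fin k // a ≠ p.2} => Complex.exp (p.1 a)))})
    (fun k p => (Fin.cons Complex.I (fun a => Complex.exp (p.1.1 a)) : Fin (k + 1) → ℂ))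
    (fun k K _ _ io p T s => CleanExp F k K io p.1.1 p.1.2 T s)
    (fun _ hk _ _ _ io p _ hT s hs hR => cleanExp_of F hk io hT p.1.1 p.2.1 p.1.2 p.2.2 s hs hR)
  refine ⟨ω, T₀, h1, h2, fun T hT => ?_⟩
  obtain ⟨hk, h4⟩ := h3 T hT
  refine ⟨hk, fun α hα => ?_⟩
  obtain ⟨a₀, ha₀⟩ := exists_a0 hk α hα
  exact ⟨a₀, fun K _ _ hK io S hS => h4 K hK io ⟨(α, a₀), hα, ha₀⟩ S hS⟩

end Pool.Agent.U543.CN
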