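import Pool.Agent.U543.CnDef

/-!
# Exponentials of algebraic numbers and the periods of many fibres: definitions
-/

set_option autoImplicit false

open NumberField

namespace Pool.Agent.U543.CN

open Pool.Agent.Y890.MV (InnerM)
open Pool.Agent.Y890.SM (Ix SympFam tpi)

variable {X : Type} [Fintype X] {ι : Type} {n : ι → ℕ} {m r : ℕ}

/-- `Φ` is homogeneous of weight `d`, where the entries of the matrices `Y_{j,i}` have the weight `w i`, the last variable
(for `π`) has the weight `2` and the variables for the given numbers have the weight `0`. -/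
def Homog [Fintype ι] (w : ι → ℕ) (d : ℕ) {K : Type} [Field K]
    (Φ : MvPolynomial ((Fin m × Ix n) ⊕ Option (Fin r)) (𝓞 K)) : Prop :=
  ∀ e ∈ Φ.support, ∑ q : Fin m × Ix n, w q.2.1 * e (Sum.inl q) + 2 * e (Sum.inr none) = d

/-- The Zariski closure over `ℚ̄` of `z`: the `ζ` at which all polynomials over `ℚ̄` vanish which vanish at `z`. -/
def ClosureQ (z : Fin r → ℂ) : Set (Fin r → ℂ) :=
  {ζ | ∀ G : MvPolynomial (Fin r) (algebraicClosure ℚ ℂ), MvPolynomial.aeval z G = 0 → MvPolynomial.aeval ζ G = 0}

/-- The periods at the points `s_1, …, s_k` have nothing to do with the exponentials of the algebraic numbers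
`α_1, …, α_k`, as far as relations `Φ(P(s_1), …, P(s_k), e^α, π) = 0` of degree at most `k` in each variable are
concerned, with coefficients in the integers of `K` whose conjugates are at most `T ^ k`. -/
structure CleanExp [Fintype ι] [DecidableEq ι] (F : SympFam X n) (k : ℕ) (K : Type) [Field K] [NumberField K]
    (io : K →+* ℂ) (α : Fin k → ℂ) (a₀ : Fin k) (T : ℝ) (s : Fin k → X → K) : Prop where
  /-- The conditions for arbitrary numbers. -/
  clean : Clean F k K io (fun a => Complex.exp (α a)) T s
  /-- The homogeneous relations hold at all `(Y, ζ, ν)` with `ζ` in the closure of the exponentials and `(Y_j, 2 i ν)` in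
  the torsor at `s_j` for all `j`: no relation involves both the exponentials and `π`. -/
  hom : ∀ Φ : MvPolynomial ((Fin k × Ix n) ⊕ Option (Fin k)) (𝓞 K), Bounded k T Φ → ∀ d, Homog F.w d Φ →
    val io Φ (fun j i => F.P i fun x => io (s j x)) (fun a => Complex.exp (α a)) Real.pi = 0 →
    ∀ ζ ∈ ClosureQ (fun a => Complex.exp (α a)), ∀ (Y : Fin k → ∀ i, Matrix (Fin (n i)) (Fin (n i)) ℂ) (ν : ℂ),
      (∀ j, (Y j, 2 * Complex.I * ν) ∈ F.torsor fun x => io (s j x)) → val io Φ Y ζ ν = 0
  /-- The exponentials of distinct algebraic numbers are linearly independent over the field of the ratios of homogeneous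
  polynomials of the same weight in the periods and `π`. -/
  lin : Function.Injective α → ∀ Φ : MvPolynomial ((Fin k × Ix n) ⊕ Option (Fin k)) (𝓞 K), Bounded k T Φ →
    ∀ d, Homog F.w d Φ → (∀ e ∈ Φ.support, ∑ a, e (Sum.inr (some a)) = 1) →
    val io Φ (fun j i => F.P i fun x => io (s j x)) (fun a => Complex.exp (α a)) Real.pi = 0 →
    ∀ ζ : Fin k → ℂ, val io Φ (fun j i => F.P i fun x => io (s j x)) ζ Real.pi = 0
  /-- The exponentials of linearly independent algebraic numbers are algebraically independent over this field. -/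
  alg : LinearIndependent ℚ α → ∀ Φ : MvPolynomial ((Fin k × Ix n) ⊕ Option (Fin k)) (𝓞 K), Bounded k T Φ →
    ∀ d, Homog F.w d Φ →
    val io Φ (fun j i => F.P i fun x => io (s j x)) (fun a => Complex.exp (α a)) Real.pi = 0 →
    ∀ ζ : Fin k → ℂ, val io Φ (fun j i => F.P i fun x => io (s j x)) ζ Real.pi = 0
  /-- All but one (the one with the number `a₀`) of the exponentials of linearly independent algebraic numbers are
  algebraically independent over the ring of all polynomials in the periods and `π`. -/
  ring : LinearIndependent ℚ α → ∀ Φ : MvPolynomial ((Fin k × Ix n) ⊕ Option (Fin k)) (𝓞 K), Bounded k T Φ →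
    Φ.degreeOf (Sum.inr (some a₀)) = 0 →
    val io Φ (fun j i => F.P i fun x => io (s j x)) (fun a => Complex.exp (α a)) Real.pi = 0 →
    ∀ ζ : Fin k → ℂ, val io Φ (fun j i => F.P i fun x => io (s j x)) ζ Real.pi = 0

end Pool.Agent.U543.CN
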