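import Pool.Agent.U543.CnClean
import Pool.Agent.U543.CnExpDef

/-!
# Homogeneous relations between the periods of tuples of fibres, `2 π i` and further numbers
-/

set_option autoImplicit false
set_option linter.unusedSectionVars false

open NumberField Matrix

namespace Pool.Agent.U543.CN

open Pool.Agent.Y890.MV
open Pool.Agent.Y890.SM
open Pool.Agent.Y890.SP (Qbar ioQ ioQ_coe)
open Pool.Agent.U543.TU (power powU)

variable {X : Type} [Fintype X] [DecidableEq X] {ι : Type} [Fintype ι] [DecidableEq ι] {n : ι → ℕ} {m r : ℕ}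

/-- **Extension of homogeneous relations.** -/
theorem extend_abs (F : SympFam X n) (e : X → Qbar) (he : (fun j => algebraMap Qbar ℂ (e j)) ∈ F.U)
    (f₀ f₁ : (Ix n → ℂ) → ℂ → ℂ) (d : ℕ)
    (h0 : ∀ (t : ℂ) (Y : Ix n → ℂ) (μ : ℂ), f₀ (fun q => t ^ F.w q.1 * Y q) (t ^ 2 * μ) = t ^ d * f₀ Y μ)
    (h1 : ∀ (t : ℂ) (Y : Ix n → ℂ) (μ : ℂ), f₁ (fun q => t ^ F.w q.1 * Y q) (t ^ 2 * μ) = t ^ d * f₁ Y μ)
    (hp : ∀ (V : ∀ i, Matrix (Fin (n i)) (Fin (n i)) ℂ) (μ : ℂ), ∃ R : MvPolynomial (Ix n) ℂ,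
      ∀ M : ∀ i, Matrix (Fin (n i)) (Fin (n i)) ℂ,
        MvPolynomial.eval (fun q => M q.1 q.2.1 q.2.2) R = f₁ (fun q => (M q.1 * V q.1) q.2.1 q.2.2) μ)
    (hc : ∀ W : Ix n → Qbar, f₀ (fun q => algebraMap Qbar ℂ (W q)) 1 = 0 → f₁ (fun q => algebraMap Qbar ℂ (W q)) 1 = 0)
    (h : ∀ Y ∈ F.Tor (fun j => algebraMap Qbar ℂ (e j)), f₀ Y tpi = 0)
    (μ : ℂ) (hμ : μ ≠ 0) (Y : ∀ i, Matrix (Fin (n i)) (Fin (n i)) ℂ)
    (hY : ∀ i, Y i * F.Qx (fun j => algebraMap Qbar ℂ (e j)) i * (Y i).transpose = μ ^ F.w i • F.Jx i) :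
    f₁ (fun q => Y q.1 q.2.1 q.2.2) μ = 0 := by
  classical
  set φ : Qbar →+* ℂ := algebraMap Qbar ℂ with hφ
  choose U hU using F.exists_U e he
  obtain ⟨z, hz⟩ := IsAlgClosed.exists_pow_nat_eq μ (n := 2) two_pos
  have e1 : ∀ r : ℚ, φ (algebraMap ℚ Qbar r) = algebraMap ℚ ℂ r := fun r =>
    (IsScalarTower.algebraMap_apply ℚ Qbar ℂ r).symm
  have hV : ∀ (M : ∀ i, Matrix (Fin (n i)) (Fin (n i)) ℂ) (v : ℂ),
      (fun q : Ix n => (M q.1 * (v ^ F.w q.1 • (U q.1).map φ)) q.2.1 q.2.2) =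
      fun q : Ix n => v ^ F.w q.1 * (M q.1 * (U q.1).map φ) q.2.1 q.2.2 := by
    intro M v
    funext q
    rw [Matrix.mul_smul, Matrix.smul_apply, smul_eq_mul]
  -- the relations for the rational matrices
  have key : ∀ γ ∈ F.Γ, f₁ (fun q => ((γ q.1).map (algebraMap ℚ ℂ) * (U q.1).map φ) q.2.1 q.2.2) 1 = 0 := by
    intro γ hγ
    have hW : (fun q : Ix n => ((γ q.1).map (algebraMap ℚ ℂ) * (U q.1).map φ) q.2.1 q.2.2) =
        fun q : Ix n => φ (((γ q.1).map (algebraMap ℚ Qbar) * U q.1) q.2.1 q.2.2) := by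
      funext q
      simp only [Matrix.mul_apply, Matrix.map_apply, map_sum, map_mul, e1]
    obtain ⟨s, hs⟩ := IsAlgClosed.exists_pow_nat_eq tpi (n := 2) two_pos
    have hs0 : s ≠ 0 := by
      intro h0
      rw [h0] at hs
      exact tpi_ne (by rw [← hs]; simp)
    rw [hW]
    refine hc _ ?_
    rw [← hW]
    have h2 := h _ (F.mem_tor _ (fun i => (γ i).map (algebraMap ℚ ℂ) * (s ^ F.w i • (U i).map φ)) fun i => by
      have h6 := F.scal hU s i
      rw [hs] at h6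
      refine sp_mul ?_ h6
      have h7 := congrArg (fun M : Matrix (Fin (n i)) (Fin (n i)) ℚ => M.map (algebraMap ℚ ℂ)) (F.pres γ hγ i)
      simp only [Matrix.map_mul] at h7
      rw [Matrix.transpose_map] at h7
      exact h7)
    rw [hV (fun i => (γ i).map (algebraMap ℚ ℂ)) s] at h2
    have h3 := h0 s (fun q => ((γ q.1).map (algebraMap ℚ ℂ) * (U q.1).map φ) q.2.1 q.2.2) 1
    rw [mul_one, hs, h2] at h3
    exact (mul_eq_zero.1 h3.symm).resolve_left (pow_ne_zero _ hs0)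
  -- density
  obtain ⟨R, hR⟩ := hp (fun i => (U i).map φ) 1
  have hsc := fun i => F.scal hU z i
  rw [hz] at hsc
  have hd := fun i => sp_diff (pow_ne_zero (F.w i) hμ) (F.Jx_det i) (hY i) (hsc i)
  have h2 := F.dense R (fun γ hγ => by
    have h2 := hR (fun i => (γ i).map (algebraMap ℚ ℂ))
    rw [h2]
    exact key γ hγ) (fun i => Y i * (z ^ F.w i • (U i).map φ)⁻¹) (fun i => (hd i).1)
  have h5 := hR (fun i => Y i * (z ^ F.w i • (U i).map φ)⁻¹)
  rw [h5] at h2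
  have h3 := h1 z (fun q => (Y q.1 * (z ^ F.w q.1 • (U q.1).map φ)⁻¹ * (U q.1).map φ) q.2.1 q.2.2) 1
  rw [h2, mul_zero, mul_one, hz, ← hV (fun i => Y i * (z ^ F.w i • (U i).map φ)⁻¹) z] at h3
  have h4 : (fun q : Ix n => (Y q.1 * (z ^ F.w q.1 • (U q.1).map φ)⁻¹ * (z ^ F.w q.1 • (U q.1).map φ)) q.2.1 q.2.2) =
      fun q : Ix n => Y q.1 q.2.1 q.2.2 := by
    funext q
    rw [(hd q.1).2]
  rw [h4] at h3
  exact h3

theorem vl_hom {w : ι → ℕ} {d : ℕ} {K : Type} [Field K] (io : K →+* ℂ) (Φ : MvPolynomial (Var n m r) (𝓞 K))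
    (hd : Homog w d Φ) (t : ℂ) (Y : Fin m × Ix n → ℂ) (ν : ℂ) (z : Fin r → ℂ) :
    vl io Φ (Sum.elim (fun q => t ^ w q.2.1 * Y q) (fun o => o.elim (t ^ 2 * ν) z)) =
      t ^ d * vl io Φ (Sum.elim Y (fun o => o.elim ν z)) := by
  classical
  rw [vl, vl, MvPolynomial.eval₂_eq', MvPolynomial.eval₂_eq', Finset.mul_sum]
  refine Finset.sum_congr rfl fun e he => ?_
  rw [Fintype.prod_sum_type, Fintype.prod_sum_type, Fintype.prod_option, Fintype.prod_option, ← hd e he]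
  simp only [Sum.elim_inl, Sum.elim_inr, Option.elim_none, Option.elim_some, mul_pow, Finset.prod_mul_distrib]
  rw [pow_add, ← Finset.prod_pow_eq_pow_sum]
  have h1 : ∀ q : Fin m × Ix n, (t ^ w q.2.1) ^ e (Sum.inl q) = t ^ (w q.2.1 * e (Sum.inl q)) := fun q => by
    rw [pow_mul]
  simp_rw [h1]
  rw [← pow_mul]
  ring

/-- the exponents of the variables for the numbers -/
noncomputable def num (e : Var n m r →₀ ℕ) : Fin r →₀ ℕ := Finsupp.equivFunOnFinite.symm fun a => e (Sum.inr (some a))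

/-- specialization at algebraic points -/
theorem spec {K : Type} [Field K] [NumberField K] (io : K →+* ℂ) (Φ : MvPolynomial (Var n m r) (𝓞 K))
    (W : Fin m × Ix n → Qbar) (ν : Qbar) : ∃ G : MvPolynomial (Fin r) Qbar,
      (∀ v ∈ G.support, ∃ e ∈ Φ.support, v = num e) ∧ ∀ z : Fin r → ℂ, MvPolynomial.aeval z G =
        vl io Φ (Sum.elim (fun q => algebraMap Qbar ℂ (W q)) (fun o => o.elim (algebraMap Qbar ℂ ν) z)) := by
  classical
  refine ⟨∑ e ∈ Φ.support, MvPolynomial.monomial (num e) (ioQ io ((MvPolynomial.coeff e Φ : 𝓞 K) : K) *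
    (∏ q, W q ^ e (Sum.inl q)) * ν ^ e (Sum.inr none)), fun v hv => ?_, fun z => ?_⟩
  · have h1 := MvPolynomial.support_sum hv
    rw [Finset.mem_biUnion] at h1
    obtain ⟨e, he, h2⟩ := h1
    have h3 := MvPolynomial.support_monomial_subset h2
    rw [Finset.mem_singleton] at h3
    exact ⟨e, he, h3⟩
  · rw [map_sum, vl, MvPolynomial.eval₂_eq']
    refine Finset.sum_congr rfl fun e _ => ?_
    rw [MvPolynomial.aeval_monomial, Fintype.prod_sum_type, Fintype.prod_option,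
      Finsupp.prod_fintype _ _ (fun y => pow_zero _), map_mul, map_mul, map_pow, map_prod]
    have h1 : algebraMap Qbar ℂ (ioQ io ((MvPolynomial.coeff e Φ : 𝓞 K) : K)) =
        (io.comp (algebraMap (𝓞 K) K)) (MvPolynomial.coeff e Φ) := ioQ_coe io _
    have h2 : ∀ a : Fin r, num e a = e (Sum.inr (some a)) := fun a => rfl
    simp only [Sum.elim_inl, Sum.elim_inr, Option.elim_none, Option.elim_some, h1, h2, map_pow]
    ring

theorem poly_right {K : Type} [Field K] (io : K →+* ℂ) (Φ : MvPolynomial (Var n m r) (𝓞 K))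
    (V : ∀ a : Fin m × ι, Matrix (Fin (n a.2)) (Fin (n a.2)) ℂ) (ν : ℂ) (ζ : Fin r → ℂ) :
    ∃ R : MvPolynomial (Ix (fun a : Fin m × ι => n a.2)) ℂ,
      ∀ M : ∀ a : Fin m × ι, Matrix (Fin (n a.2)) (Fin (n a.2)) ℂ,
        MvPolynomial.eval (fun q => M q.1 q.2.1 q.2.2) R =
          vl io Φ (Sum.elim (fun q : Fin m × Ix n => (M (q.1, q.2.1) * V (q.1, q.2.1)) q.2.2.1 q.2.2.2)
            (fun o => o.elim ν ζ)) := by
  refine ⟨MvPolynomial.eval₂ ((MvPolynomial.C).comp (io.comp (algebraMap (𝓞 K) K)))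
    (Sum.elim (fun q : Fin m × Ix n => ∑ l, MvPolynomial.X ⟨(q.1, q.2.1), (q.2.2.1, l)⟩ *
      MvPolynomial.C (V (q.1, q.2.1) l q.2.2.2)) (fun o => MvPolynomial.C (o.elim ν ζ))) Φ, fun M => ?_⟩
  rw [MvPolynomial.eval₂_comp_left, vl]
  congr 1
  · ext a
    simp
  · funext i
    rcases i with q | o
    · simp [Matrix.mul_apply]
    · simp

/-- **Homogeneous relations for tuples.** -/
theorem hom_core (F : SympFam X n) {K : Type} [Field K] [NumberField K] (io : K →+* ℂ) (z ζ : Fin r → ℂ)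
    (s : Fin m → X → K) (hs : ∀ j, (fun x => io (s j x)) ∈ F.U)
    (Φ : MvPolynomial (Var n m r) (𝓞 K)) (d : ℕ) (hd : Homog F.w d Φ) (p : (Fin r →₀ ℕ) → Prop)
    (hp : ∀ e ∈ Φ.support, p (num e))
    (hcl : ∀ G : MvPolynomial (Fin r) Qbar, (∀ v ∈ G.support, p v) → MvPolynomial.aeval z G = 0 →
      MvPolynomial.aeval ζ G = 0)
    (h : ∀ G : Fin m → Ix n → ℂ, (∀ j, G j ∈ F.Tor (fun x => io (s j x))) →
      vl io Φ (Sum.elim (fun q => G q.1 q.2) (fun o => o.elim (Real.pi : ℂ) z)) = 0)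
    (Y : Fin m → ∀ i, Matrix (Fin (n i)) (Fin (n i)) ℂ) (ν : ℂ) (hν : ν ≠ 0)
    (hY : ∀ j, (Y j, 2 * Complex.I * ν) ∈ F.torsor (fun x => io (s j x))) :
    val io Φ Y ζ ν = 0 := by
  have hI : (2 * Complex.I : ℂ) ≠ 0 := mul_ne_zero two_ne_zero Complex.I_ne_zero
  have hpU : (fun j : Fin m × X => algebraMap Qbar ℂ (ioQ io (s j.1 j.2))) ∈ (power F (Fin m)).U := fun l => hs l
  have hQx : ∀ a : Fin m × ι, (power F (Fin m)).Qx (fun j : Fin m × X => algebraMap Qbar ℂ (ioQ io (s j.1 j.2))) a =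
      F.Qx (fun x => io (s a.1 x)) a.2 := by
    intro a
    refine Matrix.ext fun i j => ?_
    show MvPolynomial.aeval _ (MvPolynomial.rename (fun j => (a.1, j)) (F.Q a.2 i j)) = _
    rw [MvPolynomial.aeval_rename]
    rfl
  obtain ⟨J, hJ⟩ : ∃ J : Qbar, algebraMap Qbar ℂ J = 1 / (2 * Complex.I) := by
    have hI : IsAlgebraic ℚ Complex.I := ⟨Polynomial.X ^ 2 + 1, by
      intro h0
      have := congrArg (fun p => Polynomial.coeff p 0) h0
      simp at this, by simp⟩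
    refine ⟨1 / (2 * ⟨Complex.I, mem_algebraicClosure_iff.2 hI⟩), ?_⟩
    rw [map_div₀, map_one, map_mul, map_ofNat]
    rfl
  have h3 := extend_abs (power F (Fin m)) (fun j => ioQ io (s j.1 j.2)) hpU
    (fun Y μ => vl io Φ (Sum.elim (fun q : Fin m × Ix n => Y ⟨(q.1, q.2.1), q.2.2⟩)
      (fun o => o.elim (μ / (2 * Complex.I)) z)))
    (fun Y μ => vl io Φ (Sum.elim (fun q : Fin m × Ix n => Y ⟨(q.1, q.2.1), q.2.2⟩)
      (fun o => o.elim (μ / (2 * Complex.I)) ζ))) d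
    (fun t Y μ => by
      have := vl_hom io Φ hd t (fun q : Fin m × Ix n => Y ⟨(q.1, q.2.1), q.2.2⟩) (μ / (2 * Complex.I)) z
      rw [← mul_div_assoc] at this
      exact this)
    (fun t Y μ => by
      have := vl_hom io Φ hd t (fun q : Fin m × Ix n => Y ⟨(q.1, q.2.1), q.2.2⟩) (μ / (2 * Complex.I)) ζ
      rw [← mul_div_assoc] at this
      exact this)
    (fun V μ => poly_right io Φ V (μ / (2 * Complex.I)) ζ)
    (fun W hW => by
      obtain ⟨G, hG, hG2⟩ := spec io Φ (fun q : Fin m × Ix n => W ⟨(q.1, q.2.1), q.2.2⟩) J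
      have h4 := hG2 z
      have h5 := hG2 ζ
      rw [hJ] at h4 h5
      have h6 : MvPolynomial.aeval z G = 0 := by
        rw [h4]
        exact hW
      have h7 := hcl G (fun v hv => by
        obtain ⟨e, he, rfl⟩ := hG v hv
        exact hp e he) h6
      rw [h5] at h7
      exact h7)
    (fun Z hZ => by
      have e1 : tpi / (2 * Complex.I) = (Real.pi : ℂ) := by
        rw [tpi_eq]
        field_simp
      show vl io Φ (Sum.elim (fun q : Fin m × Ix n => Z ⟨(q.1, q.2.1), q.2.2⟩)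
        (fun o => o.elim (tpi / (2 * Complex.I)) z)) = 0
      rw [e1]
      exact h (fun l q => Z ⟨(l, q.1), q.2⟩) (fun j i => by
        have h4 := hZ (j, i)
        rw [hQx] at h4
        exact h4)) (2 * Complex.I * ν) (mul_ne_zero hI hν) (fun a => Y a.1 a.2) (fun a => by
      rw [hQx]
      exact (hY a.1).2 a.2)
  have e2 : 2 * Complex.I * ν / (2 * Complex.I) = ν := by
    field_simp
  have h4 : vl io Φ (Sum.elim (fun q : Fin m × Ix n => Y q.1 q.2.1 q.2.2.1 q.2.2.2)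
      (fun o => o.elim (2 * Complex.I * ν / (2 * Complex.I)) ζ)) = 0 := h3
  rw [e2] at h4
  exact h4

end Pool.Agent.U543.CN
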