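import Pool.Agent.U543.CnRel
import Pool.Agent.U543.CnDef

/-!
# From relations with `π` to relations with `i` and `2 π i`
-/

set_option autoImplicit false
set_option linter.unusedSectionVars false

open NumberField Filter Matrix Topology

namespace Pool.Agent.U543.CN

open Pool.Agent.Y890.MV
open Pool.Agent.Y890.SM
open Pool.Agent.Y890.SP (Qbar ioQ ioQ_coe)
open Pool.Agent.U543.GS (ex ex_apply eval2_eq)
open Pool.Agent.U543.SU (Closure)
open Pool.Agent.U543.TU (Pts)

variable {X : Type} [Fintype X] [DecidableEq X] {ι : Type} [Fintype ι] [DecidableEq ι] {n : ι → ℕ} {m r k : ℕ}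

/-- the exponents of the new relation: `π` is replaced by the product of the variables for `i` and `2 π i` -/
noncomputable def nexp (i : Var n m r → Fin (k + 1)) : Var n m (r + 1) →₀ ℕ :=
  Finsupp.equivFunOnFinite.symm fun v => match v with
    | Sum.inl q => (i (Sum.inl q) : ℕ)
    | Sum.inr none => (i (Sum.inr none) : ℕ)
    | Sum.inr (some a) => Fin.cases (i (Sum.inr none) : ℕ) (fun b => (i (Sum.inr (some b)) : ℕ)) a

theorem nexp_le (i : Var n m r → Fin (k + 1)) (v : Var n m (r + 1)) : nexp i v ≤ k := by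
  have h : ∀ w : Var n m r, (i w : ℕ) ≤ k := fun w => by have := (i w).2; omega
  rcases v with q | _ | a
  · exact h _
  · exact h _
  · refine Fin.cases ?_ (fun b => ?_) a
    · exact h _
    · exact h _

/-- the new relation -/
noncomputable def conv {K : Type} [Field K] (k : ℕ) (Φ : MvPolynomial (Var n m r) (𝓞 K)) :
    MvPolynomial (Var n m (r + 1)) (𝓞 K) :=
  ∑ i : Var n m r → Fin (k + 1), MvPolynomial.monomial (nexp i)
    (((-1) ^ (i (Sum.inr none) : ℕ) * 2 ^ (k - (i (Sum.inr none) : ℕ)) : ℤ) • MvPolynomial.coeff (ex i) Φ)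

theorem conv_deg {K : Type} [Field K] (Φ : MvPolynomial (Var n m r) (𝓞 K)) (v : Var n m (r + 1)) :
    (conv k Φ).degreeOf v ≤ k := by
  classical
  refine (MvPolynomial.degreeOf_sum_le _ _ _).trans ?_
  refine Finset.sup_le fun i _ => ?_
  refine MvPolynomial.degreeOf_le_iff.2 fun e he => ?_
  have h1 := MvPolynomial.support_monomial_subset he
  rw [Finset.mem_singleton] at h1
  rw [h1]
  exact nexp_le i v

theorem conv_house {K : Type} [Field K] [NumberField K] (Φ : MvPolynomial (Var n m r) (𝓞 K)) {B : ℝ} (hB : 0 ≤ B)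
    (hΦ : ∀ e, house ((MvPolynomial.coeff e Φ : 𝓞 K) : K) ≤ B) (e : Var n m (r + 1) →₀ ℕ) :
    house ((MvPolynomial.coeff e (conv k Φ) : 𝓞 K) : K) ≤
      (((k + 1) ^ Fintype.card (Var n m r) * 2 ^ k : ℕ) : ℝ) * B := by
  classical
  rw [conv, MvPolynomial.coeff_sum]
  have h1 : ((∑ i : Var n m r → Fin (k + 1), MvPolynomial.coeff e (MvPolynomial.monomial (nexp i)
      (((-1) ^ (i (Sum.inr none) : ℕ) * 2 ^ (k - (i (Sum.inr none) : ℕ)) : ℤ) • MvPolynomial.coeff (ex i) Φ)) : 𝓞 K) : K) =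
      ∑ i : Var n m r → Fin (k + 1), ((MvPolynomial.coeff e (MvPolynomial.monomial (nexp i)
      (((-1) ^ (i (Sum.inr none) : ℕ) * 2 ^ (k - (i (Sum.inr none) : ℕ)) : ℤ) • MvPolynomial.coeff (ex i) Φ)) : 𝓞 K) : K) :=
    map_sum (algebraMap (𝓞 K) K) _ _
  rw [h1]
  refine (house_sum_le_sum_house _ _).trans ?_
  refine (Finset.sum_le_card_nsmul _ _ (2 ^ k * B) fun i _ => ?_).trans ?_
  · rw [MvPolynomial.coeff_monomial]
    split_ifs
    · have h2 : ((((-1) ^ (i (Sum.inr none) : ℕ) * 2 ^ (k - (i (Sum.inr none) : ℕ)) : ℤ) •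
          MvPolynomial.coeff (ex i) Φ : 𝓞 K) : K) =
          ((((-1) ^ (i (Sum.inr none) : ℕ) * 2 ^ (k - (i (Sum.inr none) : ℕ)) : ℤ) : K)) *
            ((MvPolynomial.coeff (ex i) Φ : 𝓞 K) : K) := by
        rw [zsmul_eq_mul]
        push_cast
        rfl
      rw [h2]
      refine (house_mul_le _ _).trans ?_
      rw [house_intCast, Int.cast_abs, Int.cast_mul, abs_mul]
      push_cast
      rw [abs_pow, abs_neg, abs_one, one_pow, one_mul, abs_pow, abs_two]
      refine mul_le_mul ?_ (hΦ _) (house_nonneg _) (by positivity)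
      exact pow_le_pow_right₀ one_le_two (Nat.sub_le _ _)
    · have h3 : house (((0 : 𝓞 K) : K)) = 0 := by
        rw [show ((0 : 𝓞 K) : K) = 0 from rfl, house, map_zero, norm_zero]
      rw [h3]
      positivity
  · rw [Finset.card_univ, Fintype.card_fun, Fintype.card_fin, nsmul_eq_mul]
    push_cast
    rw [mul_assoc]

theorem conv_eval {K : Type} [Field K] (io : K →+* ℂ) (Φ : MvPolynomial (Var n m r) (𝓞 K))
    (hΦ : ∀ i, Φ.degreeOf i ≤ k) (G : Fin m → Ix n → ℂ) (ζ : Fin r → ℂ) (ν : ℂ) :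
    vl io (conv k Φ) (Sum.elim (fun q => G q.1 q.2)
      (fun o => o.elim (2 * Complex.I * ν) (Fin.cons Complex.I ζ : Fin (r + 1) → ℂ))) =
      2 ^ k * vl io Φ (Sum.elim (fun q => G q.1 q.2) (fun o => o.elim ν ζ)) := by
  classical
  have h1 := eval2_eq (δ := k) (io.comp (algebraMap (𝓞 K) K)) Φ hΦ (Sum.elim (fun q => G q.1 q.2) (fun o => o.elim ν ζ))
  rw [vl, vl, h1, conv, MvPolynomial.eval₂_sum, Finset.mul_sum]
  refine Finset.sum_congr rfl fun i _ => ?_
  rw [MvPolynomial.eval₂_monomial, Finsupp.prod_fintype _ _ (fun y => pow_zero _)]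
  rw [Fintype.prod_sum_type, Fintype.prod_sum_type, Fintype.prod_option, Fintype.prod_option, Fin.prod_univ_succ]
  have e1 : ∀ q : Fin m × Ix n, nexp i (Sum.inl q) = (i (Sum.inl q) : ℕ) := fun q => rfl
  have e2 : nexp i (Sum.inr none) = (i (Sum.inr none) : ℕ) := rfl
  have e3 : nexp i (Sum.inr (some 0)) = (i (Sum.inr none) : ℕ) := rfl
  have e4 : ∀ a : Fin r, nexp i (Sum.inr (some a.succ)) = (i (Sum.inr (some a)) : ℕ) := fun a => rfl
  simp only [e1, e2, e3, e4, Sum.elim_inl, Sum.elim_inr, Option.elim_none, Option.elim_some, Fin.cons_zero,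
    Fin.cons_succ, zsmul_eq_mul]
  rw [map_mul, map_intCast]
  set t : ℕ := (i (Sum.inr none) : ℕ) with ht
  have htk : t ≤ k := by have := (i (Sum.inr none)).2; omega
  have e5 : (((-1) ^ t * 2 ^ (k - t) : ℤ) : ℂ) * ((2 * Complex.I * ν) ^ t * Complex.I ^ t) = 2 ^ k * ν ^ t := by
    have e6 : (2 * Complex.I * ν) ^ t * Complex.I ^ t = (-1) ^ t * 2 ^ t * ν ^ t := by
      rw [← mul_pow, ← mul_pow, ← mul_pow]
      congr 1
      have := Complex.I_mul_I
      linear_combination (2 * ν) * this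
    rw [e6]
    push_cast
    have e7 : (2 : ℂ) ^ k = 2 ^ (k - t) * 2 ^ t := by rw [← pow_add, Nat.sub_add_cancel htk]
    have e8 : ((-1 : ℂ) ^ t) * (-1) ^ t = 1 := by rw [← mul_pow]; norm_num
    rw [e7]
    linear_combination (2 ^ (k - t) * 2 ^ t * ν ^ t) * e8
  linear_combination ((io.comp (algebraMap (𝓞 K) K)) (MvPolynomial.coeff (ex i) Φ) *
    (∏ x : Fin m × Ix n, G x.1 x.2 ^ (i (Sum.inl x) : ℕ)) * (∏ x : Fin r, ζ x ^ (i (Sum.inr (some x)) : ℕ))) * e5

/-- the closure of `(i, z, 2 π i)` and the closure of `(z, π)` -/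
theorem closure_pi {z ζ : Fin r → ℂ} {ν : ℂ} (h : (ζ, ν) ∈ ClosurePi z) :
    ((Fin.cons Complex.I ζ : Fin (r + 1) → ℂ), 2 * Complex.I * ν) ∈ Closure (Fin.cons Complex.I z : Fin (r + 1) → ℂ) := by
  intro G hG
  have hI : IsAlgebraic ℚ Complex.I := ⟨Polynomial.X ^ 2 + 1, by
      intro h0
      have := congrArg (fun p => Polynomial.coeff p 0) h0
      simp at this, by simp⟩
  set J : algebraicClosure ℚ ℂ := ⟨Complex.I, mem_algebraicClosure_iff.2 hI⟩ with hJ
  have hJ' : algebraMap (algebraicClosure ℚ ℂ) ℂ J = Complex.I := rfl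
  set g : Option (Fin (r + 1)) → MvPolynomial (Option (Fin r)) (algebraicClosure ℚ ℂ) := fun o =>
    o.elim (MvPolynomial.C (2 * J) * MvPolynomial.X none)
      (Fin.cons (MvPolynomial.C J) (fun b => MvPolynomial.X (some b))) with hg
  have key : ∀ (w : Fin r → ℂ) (u : ℂ), MvPolynomial.aeval (fun o : Option (Fin r) => o.elim u w)
      (MvPolynomial.aeval g G) = MvPolynomial.aeval (fun o : Option (Fin (r + 1)) =>
        o.elim (2 * Complex.I * u) (Fin.cons Complex.I w : Fin (r + 1) → ℂ)) G := by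
    intro w u
    have h1 : (MvPolynomial.aeval (fun o : Option (Fin r) => o.elim u w)).comp (MvPolynomial.aeval g) =
        (MvPolynomial.aeval (fun o : Option (Fin (r + 1)) =>
          o.elim (2 * Complex.I * u) (Fin.cons Complex.I w : Fin (r + 1) → ℂ)) :
          MvPolynomial (Option (Fin (r + 1))) (algebraicClosure ℚ ℂ) →ₐ[algebraicClosure ℚ ℂ] ℂ) := by
      refine MvPolynomial.algHom_ext fun o => ?_
      rw [AlgHom.comp_apply, MvPolynomial.aeval_X, MvPolynomial.aeval_X]
      rcases o with _ | a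
      · simp only [hg, Option.elim_none, map_mul, MvPolynomial.aeval_X, MvPolynomial.algHom_C]
        rw [hJ', map_ofNat]
      · refine Fin.cases ?_ (fun b => ?_) a
        · simp only [hg, Option.elim_some, Fin.cons_zero, MvPolynomial.algHom_C]
          exact hJ'
        · simp only [hg, Option.elim_some, Fin.cons_succ, MvPolynomial.aeval_X]
    exact DFunLike.congr_fun h1 G
  have h2 := h (MvPolynomial.aeval g G) (by
    rw [key]
    have : tpi = 2 * Complex.I * (Real.pi : ℂ) := by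
      rw [tpi]; ring
    rw [this] at hG
    exact hG)
  rw [key] at h2
  exact h2

end Pool.Agent.U543.CN
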