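import Pool.Agent.U543.GalDef

/-!
# The fibres of the Zariski closures of the graph of the period matrices: definitions
-/

set_option autoImplicit false

open NumberField Polynomial

namespace Pool.Agent.U543.FD

open Pool.Agent.U543.GD (Height Inner)

variable {X ι ι' : Type} [Fintype X]

/-- The field generated by the algebraic numbers and the numbers `ξ a`. -/
noncomputable def Coeff {k : ℕ} (ξ : Fin k → ℂ) : Subfield ℂ := Subfield.closure ({z | IsAlgebraic ℚ z} ∪ Set.range ξ)

/-- The value at `(x, Y)` of a polynomial in the coordinates `x` and the entries of the matrix `Y`, with coefficients in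
the field `R`. -/
noncomputable def value {R : Subfield ℂ} (H : MvPolynomial (ι × ι') (MvPolynomial X R)) (x : X → ℂ)
    (Y : Matrix ι ι' ℂ) : ℂ :=
  MvPolynomial.eval₂ (MvPolynomial.eval₂Hom R.subtype x) (fun p => Y p.1 p.2) H

/-- The fibre at `s` of the Zariski closure over the field `R` of the graph of `P` on `U`. -/
def Fibre (R : Subfield ℂ) (U : Set (X → ℂ)) (P : (X → ℂ) → Matrix ι ι' ℂ) (s : X → ℂ) : Set (Matrix ι ι' ℂ) :=
  {Y | ∀ H : MvPolynomial (ι × ι') (MvPolynomial X R), (∀ x ∈ U, value H x (P x) = 0) → value H s Y = 0}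

/-- The value at `(Y, ξ)` of a polynomial over the integers of `K`. -/
noncomputable def at_ {K : Type} [Field K] (io : K →+* ℂ) {k : ℕ} (F : MvPolynomial ((ι × ι') ⊕ Fin k) (𝓞 K))
    (Y : Matrix ι ι' ℂ) (ξ : Fin k → ℂ) : ℂ :=
  MvPolynomial.eval₂ (io.comp (algebraMap (𝓞 K) K)) (Sum.elim (fun p => Y p.1 p.2) ξ) F

/-- The exceptional points: points `s` of `U` with coordinates in `K` of height at most `T`, of norm at most `k` and at
distance at least `1 / k` from the complement of `U`, such that some polynomial `F(Y, z)`, of degree at most `k` in each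
variable, with coefficients in the integers of `K` whose conjugates are at most `T ^ k`, satisfies `F(P(s), ξ) = 0`, but
`F(Y, ξ) ≠ 0` for some `Y` in the fibre at `s` of the Zariski closure of the graph of `P` over the field generated by the
`ξ a` and the algebraic numbers. -/
def Exceptional (U : Set (X → ℂ)) (P : (X → ℂ) → Matrix ι ι' ℂ) (k : ℕ) (K : Type) [Field K] [NumberField K]
    (io : K →+* ℂ) (ξ : Fin k → ℂ) (T : ℝ) : Set (X → K) :=
  {s | (∀ j, s j ∈ Height K T) ∧ (fun j => io (s j)) ∈ Inner U k ∧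
    ∃ F : MvPolynomial ((ι × ι') ⊕ Fin k) (𝓞 K), (∀ i, F.degreeOf i ≤ k) ∧ (∀ e, house ((MvPolynomial.coeff e F : 𝓞 K) : K) ≤ T ^ k) ∧
      at_ io F (P fun j => io (s j)) ξ = 0 ∧ ∃ Y ∈ Fibre (Coeff ξ) U P (fun j => io (s j)), at_ io F Y ξ ≠ 0}

end Pool.Agent.U543.FD
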