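import Pool.Agent.U543.GalTen

/-!
# De Rham-Betti classes and subobjects of bounded height are respected by the Galois group at almost all points
-/

set_option autoImplicit false
set_option linter.unusedSectionVars false

open NumberField Filter

namespace Pool.Agent.U543.GD

open Pool.Agent.Y890.MV
open Pool.Agent.Y124 (Cov)
open Pool.Agent.U543.GS (Resp ExcG excG_cov)

variable {X ι ι' : Type} [Fintype X] [DecidableEq X] [Nonempty X] [Fintype ι] [DecidableEq ι] [Fintype ι'] [DecidableEq ι']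

theorem QC_deg (k m : ℕ) (C₀ : Matrix (Fin k) (Fin k) ℂ) (i : Fin m → Fin k ⊕ ι)
    (u : (Fin m → Fin k ⊕ ι) ⊕ (Fin m → Fin k ⊕ ι')) (y : ι × ι') : (QC k m C₀ i u).degreeOf y ≤ m := by
  rcases u with u | u
  · simp only [QC]
    split_ifs
    · rw [MvPolynomial.degreeOf_C]
      exact Nat.zero_le _
    · simp
  · exact tent_deg m C₀ i u y

theorem QS_deg (k m : ℕ) (C₀ : Matrix (Fin k) (Fin k) ℂ) (r : (Fin m → Fin k ⊕ ι) × (Fin m → Fin k ⊕ ι'))
    (u : ((Fin m → Fin k ⊕ ι) × (Fin m → Fin k ⊕ ι)) × ((Fin m → Fin k ⊕ ι') × (Fin m → Fin k ⊕ ι'))) (y : ι × ι') :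
    (QS k m C₀ r u).degreeOf y ≤ m := by
  unfold QS
  split_ifs
  · exact tent_deg m C₀ _ _ y
  · simp

/-- coverings of finite unions -/
theorem cov_fin {Y : Type} (n : ℕ) (S : ℕ → Type)
    (E : ∀ (i : ℕ) (K : Type) [Field K] [NumberField K], (K →+* ℂ) → Y → ℝ → Set (X → K)) (k : ℕ) (ε : ℝ)
    (H : ∀ i < n, ∃ (D : ℕ) (C T₀ : ℝ), 0 ≤ C ∧ 2 ≤ T₀ ∧
      ∀ (K : Type) [Field K] [NumberField K], Module.finrank ℚ K ≤ k → ∀ (io : K →+* ℂ) (p : Y) (T : ℝ),
        T₀ ≤ T → Cov D ⌊C * T ^ ε⌋₊ ((fun (s : X → K) j => io (s j)) '' E i K io p T)) :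
    ∃ (D : ℕ) (C T₀ : ℝ), 0 ≤ C ∧ 2 ≤ T₀ ∧
      ∀ (K : Type) [Field K] [NumberField K], Module.finrank ℚ K ≤ k → ∀ (io : K →+* ℂ) (p : Y) (T : ℝ),
        T₀ ≤ T → Cov D ⌊C * T ^ ε⌋₊ ((fun (s : X → K) j => io (s j)) '' ⋃ i ∈ Finset.range n, E i K io p T) := by
  classical
  induction n with
  | zero =>
    refine ⟨0, 0, 2, le_rfl, le_rfl, fun K _ _ _ io p T _ => ⟨∅, by simp, by simp, ?_⟩⟩
    rintro x ⟨s, hs, rfl⟩
    simp at hs
  | succ n ih =>
    obtain ⟨D, C, T₀, h1, h2, h3⟩ := ih fun i hi => H i (Nat.lt_succ_of_lt hi)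
    obtain ⟨D', C', T₀', h1', h2', h3'⟩ := H n (Nat.lt_succ_self n)
    refine ⟨max D D', C + C', max T₀ T₀', by positivity, h2.trans (le_max_left _ _), fun K _ _ hK io p T hT => ?_⟩
    have e1 := (h3 K hK io p T ((le_max_left _ _).trans hT)).mono (le_max_left D D') le_rfl (Set.Subset.refl _)
    have e2 := (h3' K hK io p T ((le_max_right _ _).trans hT)).mono (le_max_right D D') le_rfl (Set.Subset.refl _)
    have e3 := e1.union e2
    have hT0 : 0 < T := by
      have := (le_max_left T₀ T₀').trans hT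
      linarith
    refine e3.mono le_rfl ?_ ?_
    · have : (0 : ℝ) ≤ C * T ^ ε := by positivity
      have : (0 : ℝ) ≤ C' * T ^ ε := by positivity
      apply Nat.le_floor
      push_cast
      rw [add_mul]
      exact add_le_add (Nat.floor_le (by positivity)) (Nat.floor_le (by positivity))
    · rw [← Set.image_union]
      refine Set.image_mono ?_
      intro s hs
      rw [Set.mem_iUnion₂] at hs
      obtain ⟨i, hi, hs⟩ := hs
      rw [Finset.mem_range] at hi
      rcases Nat.lt_succ_iff_lt_or_eq.1 hi with h | h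
      · left
        rw [Set.mem_iUnion₂]
        exact ⟨i, Finset.mem_range.2 h, hs⟩
      · right
        subst h
        exact hs

theorem regularM {U : Set (X → ℂ)} {P : (X → ℂ) → Matrix ι ι' ℂ} (h : Regular U P) :
    RegularM U (fun (p : ι × ι') x => P x p.1 p.2) := by
  intro V φ A B R h1 h2 h3 h4 h5 h6 h7 h8
  exact h V φ A B R h1 h2 h3 h4 h5 h6 h7 h8

/-- **The main theorem.** -/
theorem main {U : Set (X → ℂ)} {P : (X → ℂ) → Matrix ι ι' ℂ} (h : Family U P) :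
    ∃ (ω : ℝ → ℕ) (T₀ : ℝ), Tendsto ω atTop atTop ∧ Monotone ω ∧ ∀ T, T₀ ≤ T → 0 < ω T ∧
      ∀ (K : Type) [Field K] [NumberField K], Module.finrank ℚ K ≤ ω T → ∀ (io : K →+* ℂ)
        (C₀ : Matrix (Fin (ω T)) (Fin (ω T)) ℂ),
        Cov ⌊T ^ ((ω T : ℝ)⁻¹)⌋₊ ⌊T ^ ((ω T : ℝ)⁻¹)⌋₊
          ((fun (s : X → K) j => io (s j)) '' Exceptional U P (ω T) K io C₀ T) ∧
        (Exceptional U P (ω T) K io C₀ T).Finite ∧
        ((Exceptional U P (ω T) K io C₀ T).ncard : ℝ) ≤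
          T ^ ((ω T : ℝ)⁻¹) * ({x : K | Y120.HtLe K T x}.ncard : ℝ) ^ (Fintype.card X - 1) := by
  classical
  refine omega_gen (fun k => Matrix (Fin k) (Fin k) ℂ) (fun k K _ _ io C₀ T => Exceptional U P k K io C₀ T)
    (fun k K _ _ io p T s hs => hs.1) ?_
  intro k ε hε
  rcases Nat.eq_zero_or_pos k with hk | hk
  · refine ⟨0, 0, 2, le_rfl, le_rfl, ?_⟩
    intro K _ _ hK
    have h1 : 0 < Module.finrank ℚ K := Module.finrank_pos
    omega
  have hf : ∀ p : ι × ι', AnalyticOnNhd ℂ (fun x => P x p.1 p.2) U := fun p => h.analytic p.1 p.2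
  obtain ⟨D, C, T₀, h1, h2, h3⟩ := cov_fin (X := X) (Y := Matrix (Fin k) (Fin k) ℂ) (k + 1) (fun _ => Unit)
    (fun m K _ _ io C₀ T => ExcC U P k m K io C₀ T ∪ ExcS U P k m K io C₀ T) k ε (by
      intro m _
      obtain ⟨D, C, T₀, h1, h2, h3⟩ := excG_cov h.isPreconnected h.isOpen h.nonempty hf (regularM h.regular)
        (InnerM U k) (innerM_compact _ _) (innerM_sub _ hk) m ((Fin m → Fin k ⊕ ι) ⊕ (Fin m → Fin k ⊕ ι'))
        (Fin m → Fin k ⊕ ι) k (k : ℝ) ε hε
      obtain ⟨D', C', T₀', h1', h2', h3'⟩ := excG_cov h.isPreconnected h.isOpen h.nonempty hf (regularM h.regular)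
        (InnerM U k) (innerM_compact _ _) (innerM_sub _ hk) m
        (((Fin m → Fin k ⊕ ι) × (Fin m → Fin k ⊕ ι)) × ((Fin m → Fin k ⊕ ι') × (Fin m → Fin k ⊕ ι')))
        ((Fin m → Fin k ⊕ ι) × (Fin m → Fin k ⊕ ι')) k ((2 * k : ℕ) : ℝ) ε hε
      refine ⟨max D D', C + C', max T₀ T₀', by positivity, h2.trans (le_max_left _ _), fun K _ _ hK io C₀ T hT => ?_⟩
      have hT0 : 0 < T := by
        have := (le_max_left T₀ T₀').trans hT
        linarith
      have e1 := (h3 K hK io (QC k m C₀) (QC_deg k m C₀) T ((le_max_left _ _).trans hT)).mono (le_max_left D D') le_rfl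
        (Set.image_mono (excC_sub U P k m K io C₀ T))
      have e2 := (h3' K hK io (QS k m C₀) (QS_deg k m C₀) T ((le_max_right _ _).trans hT)).mono (le_max_right D D')
        le_rfl (Set.image_mono (excS_sub U P k m K io C₀ T hT0))
      have e3 := e1.union e2
      rw [← Set.image_union] at e3
      refine e3.mono le_rfl ?_ (Set.Subset.refl _)
      have : (0 : ℝ) ≤ C * T ^ ε := by positivity
      have : (0 : ℝ) ≤ C' * T ^ ε := by positivity
      apply Nat.le_floor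
      push_cast
      rw [add_mul]
      exact add_le_add (Nat.floor_le (by positivity)) (Nat.floor_le (by positivity)))
  refine ⟨D, C, T₀, h1, h2, fun K _ _ hK io C₀ T hT => ?_⟩
  exact (h3 K hK io C₀ T hT).mono le_rfl le_rfl (Set.image_mono (exceptional_sub U P k K io C₀ T))

/-! ### monodromy -/

theorem val_analytic {P : (X → ℂ) → Matrix ι ι' ℂ} {U : Set (X → ℂ)} (h : ∀ i j, AnalyticOnNhd ℂ (fun x => P x i j) U)
    (F : MvPolynomial (ι × ι') (MvPolynomial X ℂ)) : AnalyticOnNhd ℂ (fun x => val F x (P x)) U :=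
  evM_an (f := fun (p : ι × ι') x => P x p.1 p.2) (fun p => h p.1 p.2) F

theorem continuation_val {U : Set (X → ℂ)} {P : (X → ℂ) → Matrix ι ι' ℂ} (hP : ∀ i j, AnalyticOnNhd ℂ (fun x => P x i j) U)
    {V : Set (X → ℂ)} {Q : (X → ℂ) → Matrix ι ι' ℂ} (h : Continuation U P V Q)
    (F : MvPolynomial (ι × ι') (MvPolynomial X ℂ)) (hF : ∀ x ∈ U, val F x (P x) = 0) : ∀ x ∈ V, val F x (Q x) = 0 := by
  induction h with
  | refl => exact hF
  | step V W Q R _ hW hWo hR hVW ih =>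
    obtain ⟨V', h1, h2, ⟨x0, hx0⟩, h4⟩ := hVW
    have e1 : (fun x => val F x (R x)) =ᶠ[nhds x0] 0 := by
      filter_upwards [h2.mem_nhds hx0] with x hx
      rw [← h4 x hx]
      exact ih x (h1 hx).1
    exact (val_analytic hR F).eqOn_zero_of_preconnected_of_eventuallyEq_zero hW (h1 hx0).2 e1

theorem gal_of_monodromy {U : Set (X → ℂ)} {P : (X → ℂ) → Matrix ι ι' ℂ} (hU : IsPreconnected U)
    (hP : ∀ i j, AnalyticOnNhd ℂ (fun x => P x i j) U) {g : Matrix ι ι ℂ} (hg : IsMonodromy U P g) : g ∈ Gal U P := by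
  obtain ⟨V, Q, h1, V', h2, h3, ⟨x0, hx0⟩, h4⟩ := hg
  intro F hF
  have e1 : (fun x => val F x (g * P x)) =ᶠ[nhds x0] 0 := by
    filter_upwards [h3.mem_nhds hx0] with x hx
    rw [← h4 x hx]
    exact continuation_val hP h1 F hF x (h2 hx).2
  have e2 : ∀ i j, AnalyticOnNhd ℂ (fun x => (g * P x) i j) U := by
    intro i j
    simp only [Matrix.mul_apply]
    exact Finset.analyticOnNhd_fun_sum _ fun l _ => analyticOnNhd_const.mul (hP l j)
  exact (val_analytic e2 F).eqOn_zero_of_preconnected_of_eventuallyEq_zero hU (h2 hx0).1 e1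

theorem gal_closed {U : Set (X → ℂ)} {P : (X → ℂ) → Matrix ι ι' ℂ} {S : Set (Matrix ι ι ℂ)} (hS : S ⊆ Gal U P)
    {g : Matrix ι ι ℂ} (hg : ∀ q : MvPolynomial (ι × ι) ℂ, (∀ h ∈ S, MvPolynomial.eval (fun p => h p.1 p.2) q = 0) →
      MvPolynomial.eval (fun p => g p.1 p.2) q = 0) : g ∈ Gal U P := by
  intro F hF x hx
  set q : MvPolynomial (ι × ι) ℂ := MvPolynomial.eval₂ ((MvPolynomial.C).comp (MvPolynomial.eval x))
    (fun p : ι × ι' => ∑ l, MvPolynomial.X (p.1, l) * MvPolynomial.C (P x l p.2)) F with hq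
  have key : ∀ h : Matrix ι ι ℂ, MvPolynomial.eval (fun p => h p.1 p.2) q = val F x (h * P x) := by
    intro h
    rw [hq, MvPolynomial.eval₂_comp_left]
    unfold val
    congr 1
    · ext r
      · simp
      · simp
    · funext p
      simp [Matrix.mul_apply]
  rw [← key]
  refine hg q fun h hh => ?_
  rw [key]
  exact hS hh F hF x hx

end Pool.Agent.U543.GD
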