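import Pool.Agent.U543.FibSys
import Pool.Agent.U543.FibDef
import Pool.Agent.U543.GalMain

/-!
# Relations of bounded height come from the Zariski closure of the graph, at almost all points
-/

set_option autoImplicit false
set_option linter.unusedSectionVars false

open NumberField Filter

namespace Pool.Agent.U543.FD

open Pool.Agent.Y890.MV
open Pool.Agent.Y124 (Cov)
open Pool.Agent.U543.GS (ex ex_apply eval2_eq FibG ExcF excF_cov)
open Pool.Agent.U543.GD (Family regularM norm_le_of_house)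

variable {X ι ι' : Type} [Fintype X] [DecidableEq X] [Nonempty X] [Fintype ι] [DecidableEq ι] [Fintype ι'] [DecidableEq ι']

/-- the number `ξ a` as an element of the field -/
noncomputable def xi {k : ℕ} (ξ : Fin k → ℂ) (a : Fin k) : Coeff ξ :=
  ⟨ξ a, Subfield.subset_closure (Or.inr ⟨a, rfl⟩)⟩

/-- the monomials -/
noncomputable def QF {k : ℕ} (ξ : Fin k → ℂ) (_ : Unit) (i : ((ι × ι') ⊕ Fin k) → Fin (k + 1)) :
    MvPolynomial (ι × ι') (Coeff ξ) :=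
  MvPolynomial.monomial (Finsupp.equivFunOnFinite.symm fun y => (i (Sum.inl y) : ℕ)) (∏ a, xi ξ a ^ (i (Sum.inr a) : ℕ))

theorem QF_deg {k : ℕ} (ξ : Fin k → ℂ) (ρ : Unit) (i : ((ι × ι') ⊕ Fin k) → Fin (k + 1)) (y : ι × ι') :
    (QF ξ ρ i).degreeOf y ≤ k := by
  classical
  refine MvPolynomial.degreeOf_le_iff.2 fun m hm => ?_
  have h1 := MvPolynomial.support_monomial_subset hm
  rw [Finset.mem_singleton] at h1
  rw [h1]
  have := (i (Sum.inl y)).2
  show (i (Sum.inl y) : ℕ) ≤ k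
  omega

theorem QF_eval {k : ℕ} (ξ : Fin k → ℂ) (i : ((ι × ι') ⊕ Fin k) → Fin (k + 1)) (Y : ι × ι' → ℂ) :
    MvPolynomial.eval₂ (Coeff ξ).subtype Y (QF ξ () i) =
      ∏ y, (Sum.elim Y ξ) y ^ (i y : ℕ) := by
  rw [QF, MvPolynomial.eval₂_monomial, Finsupp.prod_fintype _ _ (fun y => pow_zero _), Fintype.prod_sum_type, mul_comm,
    map_prod]
  congr 1

theorem at_eq {k : ℕ} {K : Type} [Field K] (io : K →+* ℂ) (F : MvPolynomial ((ι × ι') ⊕ Fin k) (𝓞 K))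
    (hF : ∀ i, F.degreeOf i ≤ k) (Y : Matrix ι ι' ℂ) (ξ : Fin k → ℂ) :
    at_ io F Y ξ = ∑ i : ((ι × ι') ⊕ Fin k) → Fin (k + 1),
      MvPolynomial.eval₂ (Coeff ξ).subtype (fun p : ι × ι' => Y p.1 p.2) (QF ξ () i) *
        io ((MvPolynomial.coeff (ex i) F : 𝓞 K) : K) := by
  rw [at_, eval2_eq (δ := k) _ F hF]
  refine Finset.sum_congr rfl fun i _ => ?_
  rw [QF_eval, mul_comm]
  rfl

theorem exc_sub (U : Set (X → ℂ)) (P : (X → ℂ) → Matrix ι ι' ℂ) (k : ℕ) (K : Type) [Field K] [NumberField K]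
    (io : K →+* ℂ) (ξ : Fin k → ℂ) (T : ℝ) :
    Exceptional U P k K io ξ T ⊆
      ExcF (Coeff ξ) (QF (ι := ι) (ι' := ι') ξ) U (fun (p : ι × ι') x => P x p.1 p.2) (InnerM U k) K io (k : ℝ) T := by
  rintro s ⟨h1, h2, F, hF1, hF2, hF3, Y, hY, hne⟩
  refine ⟨h1, h2, fun i => MvPolynomial.coeff (ex i) F, ?_, ?_, ?_⟩
  · intro i φ
    rw [Real.rpow_natCast]
    exact norm_le_of_house (hF2 _) φ
  · rintro ⟨⟩
    rw [at_eq io F hF1] at hF3
    exact hF3
  · intro h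
    apply hne
    rw [at_eq io F hF1]
    exact h (fun p => Y p.1 p.2) (fun H hH => hY H hH) ()

/-- **The main theorem.** -/
theorem main {U : Set (X → ℂ)} {P : (X → ℂ) → Matrix ι ι' ℂ} (h : Family U P) :
    ∃ (ω : ℝ → ℕ) (T₀ : ℝ), Tendsto ω atTop atTop ∧ Monotone ω ∧ ∀ T, T₀ ≤ T → 0 < ω T ∧
      ∀ (K : Type) [Field K] [NumberField K], Module.finrank ℚ K ≤ ω T → ∀ (io : K →+* ℂ) (ξ : Fin (ω T) → ℂ),
        Cov ⌊T ^ ((ω T : ℝ)⁻¹)⌋₊ ⌊T ^ ((ω T : ℝ)⁻¹)⌋₊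
          ((fun (s : X → K) j => io (s j)) '' Exceptional U P (ω T) K io ξ T) ∧
        (Exceptional U P (ω T) K io ξ T).Finite ∧
        ((Exceptional U P (ω T) K io ξ T).ncard : ℝ) ≤
          T ^ ((ω T : ℝ)⁻¹) * ({x : K | Y120.HtLe K T x}.ncard : ℝ) ^ (Fintype.card X - 1) := by
  classical
  refine omega_gen (fun k => Fin k → ℂ) (fun k K _ _ io ξ T => Exceptional U P k K io ξ T)
    (fun k K _ _ io p T s hs => hs.1) ?_
  intro k ε hε
  rcases Nat.eq_zero_or_pos k with hk | hk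
  · refine ⟨0, 0, 2, le_rfl, le_rfl, ?_⟩
    intro K _ _ hK
    have h1 : 0 < Module.finrank ℚ K := Module.finrank_pos
    omega
  have hf : ∀ p : ι × ι', AnalyticOnNhd ℂ (fun x => P x p.1 p.2) U := fun p => h.analytic p.1 p.2
  obtain ⟨D, C, T₀, h1, h2, h3⟩ := excF_cov h.isPreconnected h.isOpen h.nonempty hf (regularM h.regular)
        (InnerM U k) (innerM_compact _ _) (innerM_sub _ hk) k (((ι × ι') ⊕ Fin k) → Fin (k + 1)) Unit k (k : ℝ) ε hε
  refine ⟨D, C, T₀, h1, h2, fun K _ _ hK io ξ T hT => ?_⟩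
  exact (h3 K hK io (Coeff ξ) (fun z hz => Subfield.subset_closure (Or.inl hz)) (QF ξ) (QF_deg ξ) T hT).mono le_rfl le_rfl
    (Set.image_mono (exc_sub U P k K io ξ T))

end Pool.Agent.U543.FD
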