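import Pool.Agent.Y890.SM.Main

/-!
# The sum of a fixed motive and the fibres of a family with symplectic monodromy: definitions
-/

set_option autoImplicit false

open NumberField

namespace Pool.Agent.U543.SU

open Pool.Agent.Y890.MV (InnerM)
open Pool.Agent.Y890.SM (Ix SympFam tpi)

/-- The Zariski closure over `ℚ̄` of `(ξ, 2 π i)`: the `(ζ, μ)` at which all polynomials over `ℚ̄` vanish which vanish at
`(ξ, 2 π i)`. If `ξ` are the periods of a motive `M₀`, then this is the closure `Z(M₀)` of its comparison isomorphism, `μ`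
the multiplier of the Tate motive. -/
def Closure {k : ℕ} (ξ : Fin k → ℂ) : Set ((Fin k → ℂ) × ℂ) :=
  {p | ∀ G : MvPolynomial (Option (Fin k)) (algebraicClosure ℚ ℂ),
    MvPolynomial.aeval (fun o => o.elim tpi ξ) G = 0 → MvPolynomial.aeval (fun o => o.elim p.2 p.1) G = 0}

variable {X : Type} [Fintype X] {ι : Type} {n : ι → ℕ}

/-- The value at `(Y, ζ, μ)` of a polynomial over the integers of `K`. -/
noncomputable def val {K : Type} [Field K] (io : K →+* ℂ) {k : ℕ} (Φ : MvPolynomial (Ix n ⊕ Option (Fin k)) (𝓞 K))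
    (Y : ∀ i, Matrix (Fin (n i)) (Fin (n i)) ℂ) (ζ : Fin k → ℂ) (μ : ℂ) : ℂ :=
  MvPolynomial.eval₂ (io.comp (algebraMap (𝓞 K) K)) (Sum.elim (fun q => Y q.1 q.2.1 q.2.2) (fun o => o.elim μ ζ)) Φ

/-- The fibre product over the multipliers `μ` of the closure of `(ξ, 2 π i)` and of the torsor of the family at `x`:
the `(Y, ζ, μ)` with `(ζ, μ)` in the closure and `(Y, μ)` in the torsor. -/
def Product (F : SympFam X n) {k : ℕ} (ξ : Fin k → ℂ) (x : X → ℂ) :
    Set ((∀ i, Matrix (Fin (n i)) (Fin (n i)) ℂ) × (Fin k → ℂ) × ℂ) :=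
  {p | p.2 ∈ Closure ξ ∧ (p.1, p.2.2) ∈ F.torsor x}

/-- The exceptional points: points `s` of `U` with coordinates in `K` of height at most `T`, of norm at most `k` and at
distance at least `1 / k` from the complement of `U`, such that some polynomial `Φ(Y, ζ, μ)`, of degree at most `k` in each
variable, with coefficients in the integers of `K` whose conjugates are at most `T ^ k`, vanishes at `(P(s), ξ, 2 π i)`,
but not on the fibre product of the closure of `(ξ, 2 π i)` and the torsor at `s`. -/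
def Exceptional [Fintype ι] [DecidableEq ι] (F : SympFam X n) (k : ℕ) (K : Type) [Field K] [NumberField K]
    (io : K →+* ℂ) (ξ : Fin k → ℂ) (T : ℝ) : Set (X → K) :=
  {s | (∀ j, Y120.HtLe K T (s j)) ∧ (fun j => io (s j)) ∈ InnerM F.U k ∧
    ∃ Φ : MvPolynomial (Ix n ⊕ Option (Fin k)) (𝓞 K), (∀ i, Φ.degreeOf i ≤ k) ∧
      (∀ e, house ((MvPolynomial.coeff e Φ : 𝓞 K) : K) ≤ T ^ k) ∧
      val io Φ (fun i => F.P i fun j => io (s j)) ξ tpi = 0 ∧
      ∃ p ∈ Product F ξ (fun j => io (s j)), val io Φ p.1 p.2.1 p.2.2 ≠ 0}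

end Pool.Agent.U543.SU
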