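import Pool.Agent.U543.SumAlg
import Pool.Agent.U543.SumDef
import Pool.Agent.U543.FibMain

/-!
# Relations of bounded height between the periods of a fixed motive and those of the fibres of a family
-/

set_option autoImplicit false
set_option linter.unusedSectionVars false

open NumberField Filter

namespace Pool.Agent.U543.SU

open Pool.Agent.Y890.MV
open Pool.Agent.Y890.SM
open Pool.Agent.Y890.SP (Qbar ioQ ioQ_coe)
open Pool.Agent.Y124 (Cov)
open Pool.Agent.U543.GS (ex ex_apply eval2_eq FibG ExcF excF_cov)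
open Pool.Agent.U543.GD (norm_le_of_house)

variable {X : Type} [Fintype X] [DecidableEq X] {ι : Type} [Fintype ι] [DecidableEq ι] {n : ι → ℕ} {k : ℕ}

/-- The field generated by the algebraic numbers, the `ξ a` and `2 π i`. -/
noncomputable def Co (ξ : Fin k → ℂ) : Subfield ℂ :=
  Subfield.closure ({z | IsAlgebraic ℚ z} ∪ Set.range (fun o : Option (Fin k) => o.elim tpi ξ))

/-- the numbers `ξ a` and `2 π i` as elements of the field -/
noncomputable def xo (ξ : Fin k → ℂ) (o : Option (Fin k)) : Co ξ :=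
  ⟨o.elim tpi ξ, Subfield.subset_closure (Or.inr ⟨o, rfl⟩)⟩

/-- the monomials -/
noncomputable def QS (ξ : Fin k → ℂ) (_ : Unit) (i : (Ix n ⊕ Option (Fin k)) → Fin (k + 1)) :
    MvPolynomial (Ix n) (Co ξ) :=
  MvPolynomial.monomial (Finsupp.equivFunOnFinite.symm fun y => (i (Sum.inl y) : ℕ))
    (∏ a, xo ξ a ^ (i (Sum.inr a) : ℕ))

theorem QS_deg (ξ : Fin k → ℂ) (ρ : Unit) (i : (Ix n ⊕ Option (Fin k)) → Fin (k + 1)) (y : Ix n) :
    (QS ξ ρ i).degreeOf y ≤ k := by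
  classical
  refine MvPolynomial.degreeOf_le_iff.2 fun m hm => ?_
  have h1 := MvPolynomial.support_monomial_subset hm
  rw [Finset.mem_singleton] at h1
  rw [h1]
  have := (i (Sum.inl y)).2
  show (i (Sum.inl y) : ℕ) ≤ k
  omega

theorem QS_eval (ξ : Fin k → ℂ) (i : (Ix n ⊕ Option (Fin k)) → Fin (k + 1)) (Y : Ix n → ℂ) :
    MvPolynomial.eval₂ (Co ξ).subtype Y (QS ξ () i) =
      ∏ y, (Sum.elim Y (fun o : Option (Fin k) => o.elim tpi ξ)) y ^ (i y : ℕ) := by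
  rw [QS, MvPolynomial.eval₂_monomial, Finsupp.prod_fintype _ _ (fun y => pow_zero _), Fintype.prod_sum_type, mul_comm,
    map_prod]
  congr 1

theorem val_eq {K : Type} [Field K] (io : K →+* ℂ) (Φ : MvPolynomial (Ix n ⊕ Option (Fin k)) (𝓞 K))
    (hΦ : ∀ i, Φ.degreeOf i ≤ k) (Y : ∀ i, Matrix (Fin (n i)) (Fin (n i)) ℂ) (ξ : Fin k → ℂ) :
    val io Φ Y ξ tpi = ∑ i : (Ix n ⊕ Option (Fin k)) → Fin (k + 1),
      MvPolynomial.eval₂ (Co ξ).subtype (fun q : Ix n => Y q.1 q.2.1 q.2.2) (QS ξ () i) *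
        io ((MvPolynomial.coeff (ex i) Φ : 𝓞 K) : K) := by
  rw [val, eval2_eq (δ := k) _ Φ hΦ]
  refine Finset.sum_congr rfl fun i _ => ?_
  rw [QS_eval, mul_comm]
  rfl

/-- the torsor is contained in the fibre of the closure of the graph -/
theorem tor_sub (F : SympFam X n) (R : Subfield ℂ) {s : X → ℂ} (hs : s ∈ F.U) : F.Tor s ⊆ FibG R F.U F.f s := by
  intro Y hY H hH
  have h1 : ∀ (x : X → ℂ) (Z : Ix n → ℂ), MvPolynomial.eval₂ (MvPolynomial.eval₂Hom R.subtype x) Z H =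
      evX x Z (MvPolynomial.map (MvPolynomial.map R.subtype) H) := by
    intro x Z
    rw [evX, MvPolynomial.eval₂_map]
    congr 1
    ext a
    · simp
    · simp
  rw [h1]
  refine F.tor.inv _ (fun x hx => ?_) s hs Y hY
  rw [evM_eq, ← h1]
  exact hH x hx

theorem exc_sub (F : SympFam X n) (hk : 0 < k) (K : Type) [Field K] [NumberField K]
    (io : K →+* ℂ) (ξ : Fin k → ℂ) (T : ℝ) :
    Exceptional F k K io ξ T ⊆ ExcF (Co ξ) (QS ξ) F.U F.f (InnerM F.U k) K io (k : ℝ) T := by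
  rintro s ⟨h1, h2, Φ, hΦ1, hΦ2, hΦ3, ⟨Y, ζ, μ⟩, ⟨hcl, hμ, hY⟩, hne⟩
  have hs : (fun j => io (s j)) ∈ F.U := innerM_sub _ hk h2
  refine ⟨h1, h2, fun i => MvPolynomial.coeff (ex i) Φ, ?_, ?_, ?_⟩
  · intro i φ
    rw [Real.rpow_natCast]
    exact norm_le_of_house (hΦ2 _) φ
  · rintro ⟨⟩
    rw [val_eq io Φ hΦ1] at hΦ3
    exact hΦ3
  · intro h
    apply hne
    set Ψ : MvPolynomial (Ix n ⊕ Option (Fin k)) Qbar :=
      MvPolynomial.map ((ioQ io).comp (algebraMap (𝓞 K) K)) Φ with hΨ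
    have hev : ∀ (Z : ∀ i, Matrix (Fin (n i)) (Fin (n i)) ℂ) (z : Fin k → ℂ) (m : ℂ),
        evQ Ψ (fun q => Z q.1 q.2.1 q.2.2) z m = val io Φ Z z m := by
      intro Z z m
      rw [evQ, hΨ, MvPolynomial.aeval_def, MvPolynomial.eval₂_map]
      rfl
    have h3 := extend F (fun j => ioQ io (s j)) hs Ψ ξ (fun Z hZ => by
      have h4 := h Z (tor_sub F (Co ξ) hs hZ) ()
      have h5 := hev (fun i => bl Z i) ξ tpi
      have h6 : (fun q : Ix n => bl Z q.1 q.2.1 q.2.2) = Z := rfl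
      rw [h6] at h5
      rw [h5, val_eq io Φ hΦ1]
      exact h4) ζ μ (fun G hG => hcl G hG) hμ Y hY
    rw [hev] at h3
    exact h3

/-- **The main theorem.** -/
theorem main [Nonempty X] (F : SympFam X n) :
    ∃ (ω : ℝ → ℕ) (T₀ : ℝ), Tendsto ω atTop atTop ∧ Monotone ω ∧ ∀ T, T₀ ≤ T → 0 < ω T ∧
      ∀ (K : Type) [Field K] [NumberField K], Module.finrank ℚ K ≤ ω T → ∀ (io : K →+* ℂ) (ξ : Fin (ω T) → ℂ),
        Cov ⌊T ^ ((ω T : ℝ)⁻¹)⌋₊ ⌊T ^ ((ω T : ℝ)⁻¹)⌋₊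
          ((fun (s : X → K) j => io (s j)) '' Exceptional F (ω T) K io ξ T) ∧
        (Exceptional F (ω T) K io ξ T).Finite ∧
        ((Exceptional F (ω T) K io ξ T).ncard : ℝ) ≤
          T ^ ((ω T : ℝ)⁻¹) * ({x : K | Y120.HtLe K T x}.ncard : ℝ) ^ (Fintype.card X - 1) := by
  classical
  refine omega_gen (fun k => Fin k → ℂ) (fun k K _ _ io ξ T => Exceptional F k K io ξ T)
    (fun k K _ _ io p T s hs => hs.1) ?_
  intro k ε hε
  rcases Nat.eq_zero_or_pos k with hk | hk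
  · refine ⟨0, 0, 2, le_rfl, le_rfl, ?_⟩
    intro K _ _ hK
    have h1 : 0 < Module.finrank ℚ K := Module.finrank_pos
    omega
  have hf : ∀ q, AnalyticOnNhd ℂ (F.f q) F.U := fun q => F.an q.1 q.2.1 q.2.2
  obtain ⟨D, C, T₀, h1, h2, h3⟩ := excF_cov F.conn F.isOpen F.nonempty hf (F.tor.reg F.conn hf)
        (InnerM F.U k) (innerM_compact _ _) (innerM_sub _ hk) k ((Ix n ⊕ Option (Fin k)) → Fin (k + 1)) Unit k (k : ℝ)
        ε hε
  refine ⟨D, C, T₀, h1, h2, fun K _ _ hK io ξ T hT => ?_⟩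
  exact (h3 K hK io (Co ξ) (fun z hz => Subfield.subset_closure (Or.inl hz)) (QS ξ) (QS_deg ξ) T hT).mono le_rfl le_rfl
    (Set.image_mono (exc_sub F hk K io ξ T))

/-- `(P(x), ξ, 2 π i)` is a point of the fibre product. -/
theorem self_mem (F : SympFam X n) (ξ : Fin k → ℂ) {x : X → ℂ} (hx : x ∈ F.U) :
    ((fun i => F.P i x), ξ, tpi) ∈ Product F ξ x :=
  ⟨fun _ hG => hG, F.mem hx⟩

end Pool.Agent.U543.SU
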