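import Pool.Agent.U543.SumDef

/-!
# Relations between the periods of many fibres of a family with symplectic monodromy: definitions
-/

set_option autoImplicit false

open NumberField

namespace Pool.Agent.U543.TU

open Pool.Agent.Y890.MV (InnerM)
open Pool.Agent.Y890.SM (Ix SympFam tpi)
open Pool.Agent.U543.SU (Closure)

variable {X : Type} [Fintype X] {ι : Type} {n : ι → ℕ}

/-- The value at `(Y_1, …, Y_k, ζ, μ)` of a polynomial over the integers of `K`; each `Y_j` is a family of matrices. -/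
noncomputable def val {K : Type} [Field K] (io : K →+* ℂ) {k : ℕ}
    (Φ : MvPolynomial ((Fin k × Ix n) ⊕ Option (Fin k)) (𝓞 K))
    (Y : Fin k → ∀ i, Matrix (Fin (n i)) (Fin (n i)) ℂ) (ζ : Fin k → ℂ) (μ : ℂ) : ℂ :=
  MvPolynomial.eval₂ (io.comp (algebraMap (𝓞 K) K))
    (Sum.elim (fun q => Y q.1 q.2.1 q.2.2.1 q.2.2.2) (fun o => o.elim μ ζ)) Φ

/-- The fibre product over the multiplier `μ` of the Zariski closure over `ℚ̄` of `(ξ, 2 π i)` and of the torsors of the
family at the points `s_1, …, s_k`: the `(Y_1, …, Y_k, ζ, μ)` with `(ζ, μ)` in the closure and all `(Y_j, μ)` in the torsor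
at `s_j`. -/
def Product (F : SympFam X n) {k : ℕ} (ξ : Fin k → ℂ) (s : Fin k → X → ℂ) :
    Set ((Fin k → ∀ i, Matrix (Fin (n i)) (Fin (n i)) ℂ) × (Fin k → ℂ) × ℂ) :=
  {p | p.2 ∈ Closure ξ ∧ ∀ j, (p.1 j, p.2.2) ∈ F.torsor (s j)}

variable [Fintype ι] [DecidableEq ι]

/-- The points with coordinates in `K` of height at most `T`, in `U`, of norm at most `k` and at distance at least `1 / k`
from the complement of `U`. -/
def Pts (F : SympFam X n) (k : ℕ) (K : Type) [Field K] [NumberField K] (io : K →+* ℂ) (T : ℝ) : Set (X → K) :=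
  {s | (∀ x, Y120.HtLe K T (s x)) ∧ (fun x => io (s x)) ∈ InnerM F.U k}

/-- A `k`-tuple of points `s_1, …, s_k` is exceptional if some polynomial `Φ(Y_1, …, Y_k, ζ, μ)`, of degree at most `k` in
each variable, with coefficients in the integers of `K` whose conjugates are at most `T ^ k`, vanishes at
`(P(s_1), …, P(s_k), ξ, 2 π i)`, but not on the fibre product of the closure of `(ξ, 2 π i)` and the torsors at
`s_1, …, s_k`. -/
def Exceptional (F : SympFam X n) (k : ℕ) (K : Type) [Field K] [NumberField K] (io : K →+* ℂ) (ξ : Fin k → ℂ) (T : ℝ)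
    (s : Fin k → X → K) : Prop :=
  ∃ Φ : MvPolynomial ((Fin k × Ix n) ⊕ Option (Fin k)) (𝓞 K), (∀ i, Φ.degreeOf i ≤ k) ∧
    (∀ e, house ((MvPolynomial.coeff e Φ : 𝓞 K) : K) ≤ T ^ k) ∧
    val io Φ (fun j i => F.P i fun x => io (s j x)) ξ tpi = 0 ∧
    ∃ p ∈ Product F ξ (fun j x => io (s j x)), val io Φ p.1 p.2.1 p.2.2 ≠ 0

end Pool.Agent.U543.TU
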