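import Pool.Agent.Y890.MV.TorExc

/-!
# The diagonal argument with a further condition
-/

set_option autoImplicit false
set_option linter.unusedSectionVars false

open Filter NumberField

namespace Pool.Agent.U543.TU

open Pool.Agent.Y890.MV
open Pool.Agent.Y890.SP (exists_omega)
open Pool.Agent.Y124 (Cov)

/-- all parameters at once, with a further condition which holds for all large `T` -/
theorem omega_two {X : Type} [Fintype X] [DecidableEq X] [Nonempty X] (P : ℕ → Type)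
    (A : ℕ → ℝ → Prop) (hA : ∀ k, ∃ T₁ : ℝ, ∀ T, T₁ ≤ T → A k T)
    (E : ∀ (k : ℕ) (K : Type) [Field K] [NumberField K], (K →+* ℂ) → P k → ℝ → Set (X → K))
    (hE : ∀ (k : ℕ) (K : Type) [Field K] [NumberField K] (io : K →+* ℂ) (p : P k) (T : ℝ),
      ∀ s ∈ E k K io p T, ∀ j, Y120.HtLe K T (s j))
    (H : ∀ (k : ℕ) (ε : ℝ), 0 < ε → ∃ (D : ℕ) (C T₀ : ℝ), 0 ≤ C ∧ 2 ≤ T₀ ∧
      ∀ (K : Type) [Field K] [NumberField K], Module.finrank ℚ K ≤ k → ∀ (io : K →+* ℂ) (p : P k) (T : ℝ),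
        T₀ ≤ T → Cov D ⌊C * T ^ ε⌋₊ ((fun (s : X → K) j => io (s j)) '' E k K io p T)) :
    ∃ (ω : ℝ → ℕ) (T₀ : ℝ), Tendsto ω atTop atTop ∧ Monotone ω ∧ ∀ T, T₀ ≤ T → 0 < ω T ∧ A (ω T) T ∧
      ∀ (K : Type) [Field K] [NumberField K], Module.finrank ℚ K ≤ ω T → ∀ (io : K →+* ℂ) (p : P (ω T)),
        Cov ⌊T ^ ((ω T : ℝ)⁻¹)⌋₊ ⌊T ^ ((ω T : ℝ)⁻¹)⌋₊ ((fun (s : X → K) j => io (s j)) '' E (ω T) K io p T) ∧
        (E (ω T) K io p T).Finite ∧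
        ((E (ω T) K io p T).ncard : ℝ) ≤
          T ^ ((ω T : ℝ)⁻¹) * ({x : K | Y120.HtLe K T x}.ncard : ℝ) ^ (Fintype.card X - 1) := by
  classical
  let S : ℕ → ℝ → Prop := fun k T => A k T ∧ ∀ (K : Type) [Field K] [NumberField K], Module.finrank ℚ K ≤ k →
    ∀ (io : K →+* ℂ) (p : P k),
      Cov ⌊T ^ ((k : ℝ)⁻¹)⌋₊ ⌊T ^ ((k : ℝ)⁻¹)⌋₊ ((fun (s : X → K) j => io (s j)) '' E k K io p T) ∧
        (E k K io p T).Finite ∧
        ((E k K io p T).ncard : ℝ) ≤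
          T ^ ((k : ℝ)⁻¹) * ({x : K | Y120.HtLe K T x}.ncard : ℝ) ^ (Fintype.card X - 1)
  refine exists_omega S fun k => ?_
  set κ : ℝ := ((k + 1 : ℕ) : ℝ)⁻¹ with hκ
  have hκ0 : 0 < κ := by positivity
  obtain ⟨D, C, T₀, hC, hT₀, H⟩ := H (k + 1) (κ / 3) (by positivity)
  -- constants are powers of `T`
  have hpow : ∀ C : ℝ, 0 ≤ C → ∃ T₁ : ℝ, ∀ T, 1 ≤ T → T₁ ≤ T → C ≤ T ^ (κ / 3) := by
    intro C hC
    refine ⟨C ^ (3 * (k + 1)), fun T hT hT1 => ?_⟩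
    have h4 : C = (C ^ (3 * (k + 1))) ^ (κ / 3) := by
      rw [← Real.rpow_natCast, ← Real.rpow_mul hC]
      have : ((3 * (k + 1) : ℕ) : ℝ) * (κ / 3) = 1 := by
        rw [hκ]
        push_cast
        have : ((k : ℝ) + 1) ≠ 0 := by positivity
        field_simp
      rw [this, Real.rpow_one]
    rw [h4]
    exact Real.rpow_le_rpow (by positivity) hT1 (by positivity)
  obtain ⟨T₁, hT₁⟩ := hpow C hC
  obtain ⟨T₂, hT₂⟩ := hpow D (Nat.cast_nonneg _)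
  obtain ⟨T₃, hT₃⟩ := hA (k + 1)
  refine ⟨max T₃ (max T₀ (max T₁ T₂)), fun T hT' => ⟨hT₃ T ((le_max_left _ _).trans hT'), fun K _ _ hK io p => ?_⟩⟩
  have hT := (le_max_right _ _).trans hT'
  have h0 : T₀ ≤ T := (le_max_left _ _).trans hT
  have h1 : T₁ ≤ T := ((le_max_left _ _).trans (le_max_right _ _)).trans hT
  have h2 : T₂ ≤ T := ((le_max_right _ _).trans (le_max_right _ _)).trans hT
  have hT1 : 1 ≤ T := by linarith
  have hTp : 0 < T := by linarith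
  have h3 := hT₁ T hT1 h1
  have h4 := hT₂ T hT1 h2
  have hcov := H K hK io p T h0
  have h5 : T ^ (κ / 3) * T ^ (κ / 3) ≤ T ^ κ := by
    rw [← Real.rpow_add hTp]
    exact Real.rpow_le_rpow_of_exponent_le hT1 (by linarith)
  have h6 : T ^ (κ / 3) ≤ T ^ κ := Real.rpow_le_rpow_of_exponent_le hT1 (by linarith)
  have hm : C * T ^ (κ / 3) ≤ T ^ (κ / 3) * T ^ (κ / 3) := mul_le_mul_of_nonneg_right h3 (by positivity)
  refine ⟨hcov.mono ?_ ?_ (Set.Subset.refl _), ?_⟩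
  · exact Nat.le_floor (h4.trans h6)
  · exact Nat.floor_mono (hm.trans h5)
  obtain ⟨h7, h8⟩ := cov_count io {x : K | Y120.HtLe K T x} (Y120.HtLe_fin K T) _
    (fun s hs => hE _ _ _ _ _ s hs) hcov
  refine ⟨h7, ?_⟩
  have h9 : ((⌊C * T ^ (κ / 3)⌋₊ : ℕ) : ℝ) ≤ T ^ (κ / 3) * T ^ (κ / 3) :=
    (Nat.floor_le (by positivity)).trans hm
  have h10 : ((E (k + 1) K io p T).ncard : ℝ) ≤
      (⌊C * T ^ (κ / 3)⌋₊ : ℝ) * (D * ({x : K | Y120.HtLe K T x}.ncard : ℝ) ^ (Fintype.card X - 1)) := by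
    exact_mod_cast h8
  refine h10.trans ?_
  rw [← mul_assoc]
  refine mul_le_mul_of_nonneg_right ?_ (by positivity)
  calc (⌊C * T ^ (κ / 3)⌋₊ : ℝ) * (D : ℝ) ≤ (T ^ (κ / 3) * T ^ (κ / 3)) * T ^ (κ / 3) :=
        mul_le_mul h9 h4 (Nat.cast_nonneg _) (by positivity)
    _ = T ^ κ := by
        rw [← Real.rpow_add hTp, ← Real.rpow_add hTp]
        congr 1
        ring

end Pool.Agent.U543.TU
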