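import Pool.Agent.U543.TupRel
import Pool.Agent.U543.TupOmega

/-!
# Relations between the periods of tuples of fibres from arbitrary sets of points
-/

set_option autoImplicit false
set_option linter.unusedSectionVars false

open NumberField Filter Matrix

namespace Pool.Agent.U543.TU

open Pool.Agent.Y890.MV
open Pool.Agent.Y890.SM
open Pool.Agent.Y890.SP (Qbar ioQ ioQ_coe)
open Pool.Agent.Y124 (Cov)
open Pool.Agent.U543.GS (ex ex_apply eval2_eq FibG ExcF excF_cov)
open Pool.Agent.U543.GD (norm_le_of_house)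
open Pool.Agent.U543.SU (Closure evQ evG extend tor_sub)

variable {X : Type} [Fintype X] [DecidableEq X] {ι : Type} [Fintype ι] [DecidableEq ι] {n : ι → ℕ} {k : ℕ}

theorem val_eq {K : Type} [Field K] (io : K →+* ℂ) (Φ : MvPolynomial (Var n k) (𝓞 K))
    (Y : Fin k → ∀ i, Matrix (Fin (n i)) (Fin (n i)) ℂ) (ζ : Fin k → ℂ) (μ : ℂ) :
    val io Φ Y ζ μ = vl io Φ (Sum.elim (fun q => Y q.1 q.2.1 q.2.2.1 q.2.2.2) (fun o => o.elim μ ζ)) := rfl

/-- the variables of the power of the family -/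
def toPow (n : ι → ℕ) (k : ℕ) : Var n k → Ix (fun a : Fin k × ι => n a.2) ⊕ Option (Fin k)
  | Sum.inl (l, q) => Sum.inl ⟨(l, q.1), q.2⟩
  | Sum.inr o => Sum.inr o

/-- relations which hold on the product of the torsors with multiplier `2 π i` hold on the fibre product over the closure -/
theorem full (F : SympFam X n) {K : Type} [Field K] [NumberField K] (io : K →+* ℂ) (ξ : Fin k → ℂ)
    (s : Fin k → X → K) (hs : ∀ j, (fun x => io (s j x)) ∈ F.U) (Φ : MvPolynomial (Var n k) (𝓞 K))
    (h : ∀ G : Fin k → Ix n → ℂ, (∀ j, G j ∈ F.Tor (fun x => io (s j x))) →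
      vl io Φ (Sum.elim (fun q => G q.1 q.2) (fun o => o.elim tpi ξ)) = 0)
    (p : (Fin k → ∀ i, Matrix (Fin (n i)) (Fin (n i)) ℂ) × (Fin k → ℂ) × ℂ)
    (hp : p ∈ Product F ξ (fun j x => io (s j x))) (hμ : p.2.2 ≠ 0) : val io Φ p.1 p.2.1 p.2.2 = 0 := by
  obtain ⟨hcl, hY⟩ := hp
  set Ψ : MvPolynomial (Ix (fun a : Fin k × ι => n a.2) ⊕ Option (Fin k)) Qbar :=
    MvPolynomial.rename (toPow n k) (MvPolynomial.map ((ioQ io).comp (algebraMap (𝓞 K) K)) Φ) with hΨ
  have hev : ∀ (Z : Ix (fun a : Fin k × ι => n a.2) → ℂ) (z : Fin k → ℂ) (m : ℂ),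
      evQ Ψ Z z m = vl io Φ (Sum.elim (fun q => Z ⟨(q.1, q.2.1), q.2.2⟩) (fun o => o.elim m z)) := by
    intro Z z m
    rw [evQ, hΨ, MvPolynomial.aeval_rename, MvPolynomial.aeval_def, MvPolynomial.eval₂_map, vl]
    congr 1
    funext a
    rcases a with ⟨l, q⟩ | o
    · rfl
    · rfl
  have hpU : (fun j : Fin k × X => algebraMap Qbar ℂ (ioQ io (s j.1 j.2))) ∈ (power F (Fin k)).U := fun l => hs l
  have hQx : ∀ a : Fin k × ι, (power F (Fin k)).Qx (fun j : Fin k × X => algebraMap Qbar ℂ (ioQ io (s j.1 j.2))) a =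
      F.Qx (fun x => io (s a.1 x)) a.2 := by
    intro a
    refine Matrix.ext fun i j => ?_
    show MvPolynomial.aeval _ (MvPolynomial.rename (fun j => (a.1, j)) (F.Q a.2 i j)) = _
    rw [MvPolynomial.aeval_rename]
    rfl
  have h3 := extend (power F (Fin k)) (fun j => ioQ io (s j.1 j.2)) hpU Ψ ξ (fun Z hZ => by
    rw [hev]
    exact h (fun l q => Z ⟨(l, q.1), q.2⟩) (fun j i => by
      have h4 := hZ (j, i)
      rw [hQx] at h4
      exact h4)) p.2.1 p.2.2 (fun G hG => hcl G hG) hμ (fun a => p.1 a.1 a.2) (fun a => by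
      rw [hQx]
      exact (hY a.1).2 a.2)
  rw [hev] at h3
  rw [val_eq]
  exact h3

theorem countable_K (K : Type) [Field K] [NumberField K] : Countable K := by
  have h1 := Algebraic.countable ℚ K
  have h2 : {x : K | IsAlgebraic ℚ x} = Set.univ := by
    ext x
    simp only [Set.mem_ofPred_eq, Set.mem_univ, iff_true]
    exact Algebra.IsAlgebraic.isAlgebraic x
  rw [h2] at h1
  exact Set.countable_univ_iff.1 h1

theorem countable_poly (K : Type) [Field K] [NumberField K] (V : Type) [Fintype V] :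
    Countable (MvPolynomial V (𝓞 K)) := by
  have h1 := countable_K K
  have h2 : Countable (𝓞 K) := Function.Injective.countable (f := fun x : 𝓞 K => (x : K)) RingOfIntegers.coe_injective
  rw [← Cardinal.mk_le_aleph0_iff]
  refine MvPolynomial.cardinalMk_le_max.trans ?_
  exact max_le (max_le (Cardinal.mk_le_aleph0_iff.2 h2) (Cardinal.mk_le_aleph0_iff.2 inferInstance)) le_rfl

/-- the counting of the tuples -/
theorem count {A : Type} [DecidableEq A] {k : ℕ} (S : Fin k → Finset A) (E : Fin k → (Fin k → A) → Set A) (B : ℕ)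
    (hE : ∀ j (s s' : Fin k → A), (∀ l, l ≠ j → s l = s' l) → E j s = E j s')
    (hB : ∀ j s, (E j s).Finite ∧ (E j s).ncard ≤ B) (R : Set (Fin k → A))
    (hR : ∀ s ∈ R, (∀ j, s j ∈ S j) ∧ ∃ j, s j ∈ E j s) :
    R.Finite ∧ R.ncard ≤ B * ∑ j, ∏ l ∈ Finset.univ.erase j, (S l).card := by
  classical
  set W : Fin k → Finset (Fin k → A) := fun j => (Fintype.piFinset S).filter fun s => s j ∈ E j s with hW
  have h1 : R ⊆ ((Finset.univ.biUnion W : Finset (Fin k → A)) : Set (Fin k → A)) := by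
    intro s hs
    obtain ⟨h2, j, h3⟩ := hR s hs
    rw [Finset.mem_coe, Finset.mem_biUnion]
    exact ⟨j, Finset.mem_univ _, Finset.mem_filter.2 ⟨Fintype.mem_piFinset.2 h2, h3⟩⟩
  refine ⟨(Finset.finite_toSet _).subset h1, ?_⟩
  refine (Set.ncard_le_ncard h1 (Finset.finite_toSet _)).trans ?_
  rw [Set.ncard_coe_finset, Finset.mul_sum]
  refine Finset.card_biUnion_le.trans (Finset.sum_le_sum fun j _ => ?_)
  have h4 := Finset.card_le_mul_card_image (f := fun (s : Fin k → A) (l : {l // l ≠ j}) => s l) (W j) B (by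
    intro a ha
    obtain ⟨s0, hs0, rfl⟩ := Finset.mem_image.1 ha
    refine le_trans ?_ (hB j s0).2
    rw [Set.ncard_eq_toFinset_card _ (hB j s0).1]
    refine Finset.card_le_card_of_injOn (fun s => s j) ?_ ?_
    · intro s hs
      rw [Finset.mem_coe, Finset.mem_filter] at hs
      have h5 : E j s = E j s0 := hE j s s0 fun l hl => congrFun hs.2 ⟨l, hl⟩
      rw [Finset.mem_coe, Set.Finite.mem_toFinset, ← h5]
      exact (Finset.mem_filter.1 hs.1).2
    · intro s hs s' hs' h6
      rw [Finset.mem_coe, Finset.mem_filter] at hs hs'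
      funext l
      by_cases hl : l = j
      · rw [hl]; exact h6
      · have e1 := congrFun hs.2 ⟨l, hl⟩
        have e2 := congrFun hs'.2 ⟨l, hl⟩
        exact e1.trans e2.symm)
  refine h4.trans (Nat.mul_le_mul_left _ ?_)
  have h7 : (W j).image (fun (s : Fin k → A) (l : {l // l ≠ j}) => s l) ⊆
      Fintype.piFinset fun l : {l // l ≠ j} => S l := by
    intro a ha
    obtain ⟨s, hs, rfl⟩ := Finset.mem_image.1 ha
    rw [Fintype.mem_piFinset]
    intro l
    exact Fintype.mem_piFinset.1 (Finset.mem_filter.1 hs).1 l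
  refine (Finset.card_le_card h7).trans ?_
  rw [Fintype.card_piFinset]
  rw [← Finset.prod_subtype (Finset.univ.erase j) (fun l => by simp) (fun l => (S l).card)]

end Pool.Agent.U543.TU
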