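import Pool.Agent.Y890.SM.Inst

/-!
# Powers of families with symplectic monodromy
-/

set_option autoImplicit false
set_option linter.unusedSectionVars false

open Matrix

namespace Pool.Agent.U543.TU

open Pool.Agent.Y890.MV
open Pool.Agent.Y890.SM
open Pool.Agent.Y890.SP (Qbar ioQ ioQ_coe)

variable {X : Type} [Fintype X] [DecidableEq X] {ι : Type} [Fintype ι] [DecidableEq ι] {n : ι → ℕ}
  {κ : Type} [Fintype κ] [DecidableEq κ]

/-- a point of the power -/
def pt (x : κ × X → ℂ) (l : κ) : X → ℂ := fun j => x (l, j)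

/-- The substitution which fixes all but the `l`-th point. -/
noncomputable def fixHom (x : κ × X → ℂ) (l : κ) : MvPolynomial (κ × X) ℂ →+* MvPolynomial X ℂ :=
  MvPolynomial.eval₂Hom MvPolynomial.C (fun p => if p.1 = l then MvPolynomial.X p.2 else MvPolynomial.C (x p))

theorem fixHom_eval (x : κ × X → ℂ) (l : κ) (y : X → ℂ) (p : MvPolynomial (κ × X) ℂ) :
    MvPolynomial.eval y (fixHom x l p) = MvPolynomial.eval (fun q => if q.1 = l then y q.2 else x q) p := by
  have h1 : (MvPolynomial.eval y).comp (fixHom x l) =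
      MvPolynomial.eval (fun q => if q.1 = l then y q.2 else x q) := by
    refine MvPolynomial.ringHom_ext ?_ ?_
    · intro r
      simp [fixHom]
    · intro q
      simp only [fixHom, RingHom.comp_apply, MvPolynomial.eval₂Hom_X', MvPolynomial.eval_X]
      split_ifs <;> simp
  exact RingHom.congr_fun h1 p

/-- The substitution which fixes all but the `l`-th point and the `l`-th matrices. -/
noncomputable def fixPoly (x : κ × X → ℂ) (Z : κ → Ix n → ℂ) (l : κ)
    (p : MvPolynomial (Ix (fun a : κ × ι => n a.2)) (MvPolynomial (κ × X) ℂ)) :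
    MvPolynomial (Ix n) (MvPolynomial X ℂ) :=
  MvPolynomial.eval₂ ((MvPolynomial.C).comp (fixHom x l))
    (fun q => if q.1.1 = l then MvPolynomial.X ⟨q.1.2, q.2⟩ else MvPolynomial.C (MvPolynomial.C (Z q.1.1 ⟨q.1.2, q.2⟩))) p

theorem fixPoly_eval (x : κ × X → ℂ) (Z : κ → Ix n → ℂ) (l : κ)
    (p : MvPolynomial (Ix (fun a : κ × ι => n a.2)) (MvPolynomial (κ × X) ℂ)) (y : X → ℂ) (Y : Ix n → ℂ) :
    evX y Y (fixPoly x Z l p) = evX (fun q => if q.1 = l then y q.2 else x q)
      (fun q => if q.1.1 = l then Y ⟨q.1.2, q.2⟩ else Z q.1.1 ⟨q.1.2, q.2⟩) p := by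
  have h0 : evX y Y (fixPoly x Z l p) = MvPolynomial.eval₂Hom (MvPolynomial.eval y) Y (fixPoly x Z l p) := rfl
  rw [h0, fixPoly, MvPolynomial.hom_eval₂, evX]
  congr 1
  · refine MvPolynomial.ringHom_ext ?_ ?_
    · intro r
      simp [fixHom]
    · intro q
      simp only [RingHom.comp_apply, MvPolynomial.eval₂Hom_C, fixHom_eval]
  · funext q
    split_ifs
    · rw [MvPolynomial.eval₂Hom_X']
    · rw [MvPolynomial.eval₂Hom_C, MvPolynomial.eval_C]

/-- the set of the tuples of points -/
def powU (F : SympFam X n) (κ : Type) : Set (κ × X → ℂ) := {x | ∀ l, pt x l ∈ F.U}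

theorem powU_open (F : SympFam X n) : IsOpen (powU F κ) := by
  have h1 : powU F κ = ⋂ l, {x | pt x l ∈ F.U} := by
    ext x
    simp [powU]
  rw [h1]
  refine isOpen_iInter_of_finite fun l => F.isOpen.preimage ?_
  exact continuous_pi fun j => continuous_apply _

theorem powU_conn (F : SympFam X n) : IsPreconnected (powU F κ) := by
  have h1 : IsPreconnected (Set.pi Set.univ fun _ : κ => F.U) := isPreconnected_univ_pi fun _ => F.conn
  have h2 : powU F κ = (fun (y : κ → X → ℂ) (q : κ × X) => y q.1 q.2) '' (Set.pi Set.univ fun _ : κ => F.U) := by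
    ext x
    constructor
    · intro hx
      exact ⟨fun l => pt x l, fun l _ => hx l, rfl⟩
    · rintro ⟨y, hy, rfl⟩ l
      exact hy l trivial
  rw [h2]
  refine h1.image _ (Continuous.continuousOn ?_)
  exact continuous_pi fun q => (continuous_apply q.2).comp (continuous_apply q.1)

theorem pow_mon (F : SympFam X n) (γ : ∀ a : κ × ι, Matrix (Fin (n a.2)) (Fin (n a.2)) ℚ)
    (hγ : ∀ l, (fun i => γ (l, i)) ∈ F.Γ)
    (p : MvPolynomial (Ix (fun a : κ × ι => n a.2)) (MvPolynomial (κ × X) ℂ))
    (hp : ∀ x ∈ powU F κ, evX x (fun q => F.P q.1.2 (pt x q.1.1) q.2.1 q.2.2) p = 0) (A : Finset κ) :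
    ∀ x ∈ powU F κ, evX x (fun q => if q.1.1 ∈ A then
      ((γ q.1).map (algebraMap ℚ ℂ) * F.P q.1.2 (pt x q.1.1)) q.2.1 q.2.2 else
      F.P q.1.2 (pt x q.1.1) q.2.1 q.2.2) p = 0 := by
  induction A using Finset.induction_on with
  | empty =>
    intro x hx
    simpa using hp x hx
  | insert l A hl ih =>
    intro x hx
    -- the other matrices
    set Z : κ → Ix n → ℂ := fun m q => if m ∈ A then
      ((γ (m, q.1)).map (algebraMap ℚ ℂ) * F.P q.1 (pt x m)) q.2.1 q.2.2 else F.P q.1 (pt x m) q.2.1 q.2.2 with hZ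
    have h1 := F.mon (fun i => γ (l, i)) (hγ l) (fixPoly x Z l p) (fun y hy => by
      rw [fixPoly_eval]
      have h2 := ih (fun q => if q.1 = l then y q.2 else x q) (fun m => by
        by_cases hm : m = l
        · have : pt (fun q : κ × X => if q.1 = l then y q.2 else x q) m = y := by
            funext j
            simp [pt, hm]
          rw [this]
          exact hy
        · have : pt (fun q : κ × X => if q.1 = l then y q.2 else x q) m = pt x m := by
            funext j
            simp [pt, hm]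
          rw [this]
          exact hx m)
      refine Eq.trans ?_ h2
      congr 1
      funext q
      by_cases hm : q.1.1 = l
      · have h3 : q.1.1 ∉ A := by rw [hm]; exact hl
        have : pt (fun q : κ × X => if q.1 = l then y q.2 else x q) q.1.1 = y := by
          funext j
          simp [pt, hm]
        rw [if_pos hm, if_neg h3, this]
      · have : pt (fun q : κ × X => if q.1 = l then y q.2 else x q) q.1.1 = pt x q.1.1 := by
          funext j
          simp [pt, hm]
        rw [if_neg hm, this]) (pt x l) (hx l)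
    rw [fixPoly_eval] at h1
    refine Eq.trans ?_ h1
    have h4 : (fun q : κ × X => if q.1 = l then pt x l q.2 else x q) = x := by
      funext q
      split_ifs with h
      · rw [← h]; rfl
      · rfl
    rw [h4]
    congr 1
    funext q
    obtain ⟨⟨m, i⟩, a, b⟩ := q
    by_cases hm : m = l
    · subst hm
      simp
    · simp only [Finset.mem_insert, hm, false_or, if_false, hZ]

theorem pow_dense (F : SympFam X n) (R : MvPolynomial (Ix (fun a : κ × ι => n a.2)) ℂ)
    (hR : ∀ γ : ∀ a : κ × ι, Matrix (Fin (n a.2)) (Fin (n a.2)) ℚ, (∀ l, (fun i => γ (l, i)) ∈ F.Γ) →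
      MvPolynomial.eval (fun q => ((γ q.1).map (algebraMap ℚ ℂ)) q.2.1 q.2.2) R = 0)
    (M : ∀ a : κ × ι, Matrix (Fin (n a.2)) (Fin (n a.2)) ℂ)
    (hM : ∀ a, M a * (F.J a.2).map (algebraMap ℚ ℂ) * (M a).transpose = (F.J a.2).map (algebraMap ℚ ℂ))
    (A : Finset κ) :
    ∀ γ : ∀ a : κ × ι, Matrix (Fin (n a.2)) (Fin (n a.2)) ℚ, (∀ l, (fun i => γ (l, i)) ∈ F.Γ) →
      MvPolynomial.eval (fun q => if q.1.1 ∈ A then M q.1 q.2.1 q.2.2 else
        ((γ q.1).map (algebraMap ℚ ℂ)) q.2.1 q.2.2) R = 0 := by
  induction A using Finset.induction_on with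
  | empty =>
    intro γ hγ
    simpa using hR γ hγ
  | insert l A hl ih =>
    intro γ hγ
    set φ : MvPolynomial (Ix (fun a : κ × ι => n a.2)) ℂ →+* MvPolynomial (Ix n) ℂ :=
      MvPolynomial.eval₂Hom MvPolynomial.C (fun q => if q.1.1 = l then MvPolynomial.X ⟨q.1.2, q.2⟩ else
        MvPolynomial.C (if q.1.1 ∈ A then M q.1 q.2.1 q.2.2 else ((γ q.1).map (algebraMap ℚ ℂ)) q.2.1 q.2.2)) with hφ
    have hev : ∀ (N : ∀ i, Matrix (Fin (n i)) (Fin (n i)) ℂ),
        MvPolynomial.eval (fun q => N q.1 q.2.1 q.2.2) (φ R) =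
        MvPolynomial.eval (fun q : Ix (fun a : κ × ι => n a.2) => if q.1.1 = l then N q.1.2 q.2.1 q.2.2 else
          if q.1.1 ∈ A then M q.1 q.2.1 q.2.2 else ((γ q.1).map (algebraMap ℚ ℂ)) q.2.1 q.2.2) R := by
      intro N
      have h1 : (MvPolynomial.eval (fun q : Ix n => N q.1 q.2.1 q.2.2)).comp φ =
          MvPolynomial.eval (fun q : Ix (fun a : κ × ι => n a.2) => if q.1.1 = l then N q.1.2 q.2.1 q.2.2 else
            if q.1.1 ∈ A then M q.1 q.2.1 q.2.2 else ((γ q.1).map (algebraMap ℚ ℂ)) q.2.1 q.2.2) := by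
        refine MvPolynomial.ringHom_ext ?_ ?_
        · intro r
          simp [hφ]
        · intro q
          simp only [hφ, RingHom.comp_apply, MvPolynomial.eval₂Hom_X', MvPolynomial.eval_X]
          by_cases h2 : q.1.1 = l
          · rw [if_pos h2, if_pos h2, MvPolynomial.eval_X]
          · rw [if_neg h2, if_neg h2, MvPolynomial.eval_C]
      exact RingHom.congr_fun h1 R
    have h5 := F.dense (φ R) (fun δ hδ => by
      rw [hev fun i => (δ i).map (algebraMap ℚ ℂ)]
      have h6 := ih (fun a => if a.1 = l then δ a.2 else γ a) (fun m => by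
        by_cases hm : m = l
        · simpa [hm] using hδ
        · simpa [hm] using hγ m)
      refine Eq.trans ?_ h6
      congr 2
      funext q
      obtain ⟨⟨m, i⟩, a, b⟩ := q
      by_cases hm : m = l
      · simp [hm, hl]
      · simp [hm]) (fun i => M (l, i)) (fun i => hM (l, i))
    rw [hev fun i => M (l, i)] at h5
    refine Eq.trans ?_ h5
    congr 2
    funext q
    obtain ⟨⟨m, i⟩, a, b⟩ := q
    by_cases hm : m = l
    · subst hm
      simp
    · simp [hm]

/-- **Powers of families with symplectic monodromy.** -/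
noncomputable def power (F : SympFam X n) (κ : Type) [Fintype κ] [DecidableEq κ] :
    SympFam (κ × X) (fun a : κ × ι => n a.2) where
  U := powU F κ
  isOpen := powU_open F
  conn := powU_conn F
  nonempty := by
    obtain ⟨x, hx⟩ := F.nonempty
    exact ⟨fun q => x q.2, fun l => hx⟩
  P := fun a x => F.P a.2 (pt x a.1)
  an := by
    intro a l j
    have h1 : AnalyticOnNhd ℂ (fun x : κ × X → ℂ => pt x a.1) (powU F κ) := by
      intro x _
      have h2 : (fun x : κ × X → ℂ => pt x a.1) =
          (ContinuousLinearMap.pi fun j : X => ContinuousLinearMap.proj (R := ℂ) (φ := fun _ : κ × X => ℂ) (a.1, j)) := by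
        funext x
        rfl
      rw [h2]
      exact ContinuousLinearMap.analyticAt _ _
    exact (F.an a.2 l j).comp h1 (fun x hx => hx a.1)
  w := fun a => F.w a.2
  Q := fun a => (F.Q a.2).map (MvPolynomial.rename fun j => (a.1, j))
  Q_alt := by
    intro a
    rw [← Matrix.transpose_map, F.Q_alt]
    refine Matrix.ext fun i j => ?_
    rw [Matrix.map_apply, Matrix.neg_apply, Matrix.neg_apply, Matrix.map_apply, map_neg]
  J := fun a => F.J a.2
  J_alt := fun a => F.J_alt a.2
  J_det := fun a => F.J_det a.2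
  riemann := by
    intro x hx a
    have h1 : ((F.Q a.2).map (MvPolynomial.rename fun j => (a.1, j))).map (MvPolynomial.aeval x) =
        (F.Q a.2).map (MvPolynomial.aeval (pt x a.1)) := by
      refine Matrix.ext fun i j => ?_
      simp only [Matrix.map_apply]
      rw [MvPolynomial.aeval_rename]
      rfl
    rw [h1]
    exact F.riemann (pt x a.1) (hx a.1) a.2
  Γ := {γ | ∀ l, (fun i => γ (l, i)) ∈ F.Γ}
  pres := fun γ hγ a => F.pres _ (hγ a.1) a.2
  mon := by
    intro γ hγ p hp x hx
    have h1 := pow_mon F γ hγ p hp Finset.univ x hx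
    simpa using h1
  dense := by
    intro R hR M hM
    have h1 := pow_dense F R (fun γ hγ => hR γ hγ) M hM Finset.univ
    obtain ⟨γ0, hγ0⟩ : F.Γ.Nonempty := by
      by_contra hcon
      rw [Set.not_nonempty_iff_eq_empty] at hcon
      have h2 := F.dense 1 (fun γ hγ => by rw [hcon] at hγ; exact absurd hγ (Set.notMem_empty γ)) (fun i => 1)
        (fun i => by simp)
      simp at h2
    have h2 := h1 (fun a => γ0 a.2) (fun l => hγ0)
    simpa using h2

end Pool.Agent.U543.TU
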