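import Pool.Agent.U543.TupGen
import Pool.Agent.U543.TupPow
import Pool.Agent.U543.TupDef
import Pool.Agent.U543.TupMain
import Pool.Agent.U543.SumMain

/-!
# Relations between the periods of tuples of fibres and further numbers: independent parameters
-/

set_option autoImplicit false
set_option linter.unusedSectionVars false

open NumberField Filter Matrix

namespace Pool.Agent.U543.CN

open Pool.Agent.Y890.MV
open Pool.Agent.Y890.SM
open Pool.Agent.Y890.SP (Qbar ioQ ioQ_coe)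
open Pool.Agent.Y124 (Cov)
open Pool.Agent.U543.GS (ex ex_apply eval2_eq FibG ExcF excF_cov)
open Pool.Agent.U543.GD (norm_le_of_house)
open Pool.Agent.U543.SU (Closure evQ evG extend tor_sub)
open Pool.Agent.U543.TU (Pts power powU pt exists_generic_tor countable_poly)

variable {X : Type} [Fintype X] [DecidableEq X] {ι : Type} [Fintype ι] [DecidableEq ι] {n : ι → ℕ} {m r δ : ℕ}

/-- the variables -/
abbrev Var (n : ι → ℕ) (m r : ℕ) : Type := (Fin m × Ix n) ⊕ Option (Fin r)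

/-- The field generated by the algebraic numbers and the numbers `z a`. -/
noncomputable def CoV (z : Var n m r → ℂ) : Subfield ℂ := Subfield.closure ({z | IsAlgebraic ℚ z} ∪ Set.range z)

/-- the numbers `z a` as elements of the field -/
noncomputable def xv (z : Var n m r → ℂ) (a : Var n m r) : CoV z := ⟨z a, Subfield.subset_closure (Or.inr ⟨a, rfl⟩)⟩

/-- the monomials in the entries of the `j`-th matrices -/
noncomputable def QJ (δ : ℕ) (j : Fin m) (z : Var n m r → ℂ) (_ : Unit) (i : Var n m r → Fin (δ + 1)) :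
    MvPolynomial (Ix n) (CoV z) :=
  MvPolynomial.monomial (Finsupp.equivFunOnFinite.symm fun y => (i (Sum.inl (j, y)) : ℕ)) (∏ a, xv z a ^ (i a : ℕ))

theorem QJ_deg (j : Fin m) (z : Var n m r → ℂ) (ρ : Unit) (i : Var n m r → Fin (δ + 1)) (y : Ix n) :
    (QJ δ j z ρ i).degreeOf y ≤ δ := by
  classical
  refine MvPolynomial.degreeOf_le_iff.2 fun m hm => ?_
  have h1 := MvPolynomial.support_monomial_subset hm
  rw [Finset.mem_singleton] at h1
  rw [h1]
  have := (i (Sum.inl (j, y))).2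
  show (i (Sum.inl (j, y)) : ℕ) ≤ δ
  omega

/-- the values of the variables with the `j`-th matrices replaced by `1` -/
def cut (j : Fin m) (z : Var n m r → ℂ) : Var n m r → ℂ
  | Sum.inl (l, y) => if l = j then 1 else z (Sum.inl (l, y))
  | Sum.inr o => z (Sum.inr o)

/-- the values of the variables with the `j`-th matrices replaced by `Y` -/
def put (j : Fin m) (Y : Ix n → ℂ) (z : Var n m r → ℂ) : Var n m r → ℂ
  | Sum.inl (l, y) => if l = j then Y y else z (Sum.inl (l, y))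
  | Sum.inr o => z (Sum.inr o)

theorem QJ_eval (j : Fin m) (z : Var n m r → ℂ) (i : Var n m r → Fin (δ + 1)) (Y : Ix n → ℂ) :
    MvPolynomial.eval₂ (CoV (cut j z)).subtype Y (QJ δ j (cut j z) () i) = ∏ y, (put j Y z) y ^ (i y : ℕ) := by
  rw [QJ, MvPolynomial.eval₂_monomial, Finsupp.prod_fintype _ _ (fun y => pow_zero _), map_prod]
  have h1 : ∀ a : Var n m r, (CoV (cut j z)).subtype (xv (cut j z) a ^ (i a : ℕ)) = cut j z a ^ (i a : ℕ) := by
    intro a
    rfl
  simp only [h1]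
  rw [Fintype.prod_sum_type, Fintype.prod_sum_type, mul_right_comm]
  have h2 : ∀ o : Option (Fin r), cut j z (Sum.inr o) = put j Y z (Sum.inr o) := fun o => rfl
  simp only [h2]
  congr 1
  rw [Fintype.prod_prod_type, Fintype.prod_prod_type]
  rw [← Finset.mul_prod_erase _ _ (Finset.mem_univ j), ← Finset.mul_prod_erase _ _ (Finset.mem_univ j)]
  have h3 : ∏ y : Ix n, cut j z (Sum.inl (j, y)) ^ (i (Sum.inl (j, y)) : ℕ) = 1 := by
    refine Finset.prod_eq_one fun y _ => ?_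
    simp [cut]
  rw [h3, one_mul, mul_comm]
  congr 1
  · refine Finset.prod_congr rfl fun y _ => ?_
    simp only [put, if_true]
    rfl
  · refine Finset.prod_congr rfl fun l hl => Finset.prod_congr rfl fun y _ => ?_
    have h4 : l ≠ j := Finset.ne_of_mem_erase hl
    simp [cut, put, h4]

/-- the value of a relation at the values `z` of the variables -/
noncomputable def vl {K : Type} [Field K] (io : K →+* ℂ) (Φ : MvPolynomial (Var n m r) (𝓞 K)) (z : Var n m r → ℂ) : ℂ :=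
  MvPolynomial.eval₂ (io.comp (algebraMap (𝓞 K) K)) z Φ

theorem vl_eq {K : Type} [Field K] (io : K →+* ℂ) (Φ : MvPolynomial (Var n m r) (𝓞 K))
    (hΦ : ∀ i, Φ.degreeOf i ≤ δ) (j : Fin m) (Y : Ix n → ℂ) (z : Var n m r → ℂ) :
    vl io Φ (put j Y z) = ∑ i : Var n m r → Fin (δ + 1),
      MvPolynomial.eval₂ (CoV (cut j z)).subtype Y (QJ δ j (cut j z) () i) *
        io ((MvPolynomial.coeff (ex i) Φ : 𝓞 K) : K) := by
  rw [vl, eval2_eq (δ := δ) _ Φ hΦ]
  refine Finset.sum_congr rfl fun i _ => ?_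
  rw [QJ_eval, mul_comm]
  rfl

/-- the exceptional points for one fibre, relative to the values `z` of the other variables -/
def EX (F : SympFam X n) (κ δ : ℕ) (K : Type) [Field K] [NumberField K] (io : K →+* ℂ)
    (p : Fin m × (Var n m r → ℂ)) (T : ℝ) : Set (X → K) :=
  ExcF (CoV (cut p.1 p.2)) (QJ δ p.1 (cut p.1 p.2)) F.U F.f (InnerM F.U κ) K io (δ : ℝ) T

/-- one step -/
theorem step (F : SympFam X n) {κ : ℕ} (hk : 0 < κ) {K : Type} [Field K] [NumberField K] (io : K →+* ℂ) (T : ℝ)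
    (Φ : MvPolynomial (Var n m r) (𝓞 K)) (hΦ1 : ∀ i, Φ.degreeOf i ≤ δ)
    (hΦ2 : ∀ e, house ((MvPolynomial.coeff e Φ : 𝓞 K) : K) ≤ T ^ δ) (j : Fin m) (z : Var n m r → ℂ) (s : X → K)
    (hs : s ∈ Pts F κ K io T) (hE : s ∉ EX F κ δ K io (j, z) T)
    (h0 : vl io Φ (put j (fun q => F.f q fun x => io (s x)) z) = 0) (Y : Ix n → ℂ)
    (hY : Y ∈ F.Tor (fun x => io (s x))) : vl io Φ (put j Y z) = 0 := by
  by_contra hne
  apply hE
  refine ⟨hs.1, hs.2, fun i => MvPolynomial.coeff (ex i) Φ, ?_, ?_, ?_⟩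
  · intro i φ
    rw [Real.rpow_natCast]
    exact norm_le_of_house (hΦ2 _) φ
  · rintro ⟨⟩
    rw [vl_eq io Φ hΦ1] at h0
    exact h0
  · intro h
    apply hne
    rw [vl_eq io Φ hΦ1]
    exact h Y (tor_sub F _ (innerM_sub _ hk hs.2) hY) ()

/-- the mixed values: the periods for the first fibres, generic points of the torsors for the others -/
noncomputable def mix (F : SympFam X n) (s : Fin m → X → ℂ) (G : Fin m → Ix n → ℂ) (ξ : Fin r → ℂ) (v : ℕ) :
    Var n m r → ℂ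
  | Sum.inl (l, y) => if (l : ℕ) < v then F.f y (s l) else G l y
  | Sum.inr o => o.elim tpi ξ

theorem mix_put (F : SympFam X n) (s : Fin m → X → ℂ) (G : Fin m → Ix n → ℂ) (ξ : Fin r → ℂ) (j : Fin m)
    (z : Var n m r → ℂ) (hz : ∀ l, l ≠ j → ∀ y, z (Sum.inl (l, y)) = mix F s G ξ j (Sum.inl (l, y)))
    (hz2 : ∀ o, z (Sum.inr o) = o.elim tpi ξ) :
    put j (fun q => F.f q (s j)) z = mix F s G ξ (j + 1) ∧ put j (G j) z = mix F s G ξ j := by
  constructor
  · funext a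
    rcases a with ⟨l, y⟩ | o
    · by_cases h : l = j
      · subst h
        simp [put, mix]
      · have h1 : ((l : ℕ) < (j : ℕ) + 1) ↔ (l : ℕ) < j := by
          have : (l : ℕ) ≠ j := fun h2 => h (Fin.ext h2)
          omega
        simp only [put, h, if_false, hz l h y, mix, h1]
    · simp [put, mix, hz2]
  · funext a
    rcases a with ⟨l, y⟩ | o
    · by_cases h : l = j
      · subst h
        simp [put, mix]
      · simp only [put, h, if_false, hz l h y]
    · simp [put, mix, hz2]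

/-- from the periods to the generic points of the torsors -/
theorem descend (F : SympFam X n) {κ : ℕ} (hk : 0 < κ) {K : Type} [Field K] [NumberField K] (io : K →+* ℂ) (T : ℝ)
    (ξ : Fin r → ℂ)
    (s : Fin m → X → K) (hs : ∀ j, s j ∈ Pts F κ K io T) (G : Fin m → Ix n → ℂ)
    (hG : ∀ j, G j ∈ F.Tor (fun x => io (s j x))) (z : Fin m → Var n m r → ℂ)
    (hz : ∀ j l, l ≠ j → ∀ y, z j (Sum.inl (l, y)) = mix F (fun j x => io (s j x)) G ξ j (Sum.inl (l, y)))
    (hz2 : ∀ j o, z j (Sum.inr o) = o.elim tpi ξ)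
    (hE : ∀ j, s j ∉ EX F κ δ K io (j, z j) T)
    (Φ : MvPolynomial (Var n m r) (𝓞 K)) (hΦ1 : ∀ i, Φ.degreeOf i ≤ δ)
    (hΦ2 : ∀ e, house ((MvPolynomial.coeff e Φ : 𝓞 K) : K) ≤ T ^ δ)
    (h0 : vl io Φ (mix F (fun j x => io (s j x)) G ξ m) = 0) : vl io Φ (mix F (fun j x => io (s j x)) G ξ 0) = 0 := by
  have key : ∀ v, v ≤ m → vl io Φ (mix F (fun j x => io (s j x)) G ξ (m - v)) = 0 := by
    intro v
    induction v with
    | zero => intro _; exact h0
    | succ v ih =>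
      intro hm
      have h1 := ih (by omega)
      obtain ⟨h2, h3⟩ := mix_put F (fun j x => io (s j x)) G ξ (⟨m - (v + 1), by omega⟩ : Fin m) (z ⟨m - (v + 1), by omega⟩)
        (hz _) (hz2 _)
      have h4 : ((⟨m - (v + 1), by omega⟩ : Fin m) : ℕ) + 1 = m - v := by
        show m - (v + 1) + 1 = m - v
        omega
      rw [h4] at h2
      have h5 := step F hk io T Φ hΦ1 hΦ2 ⟨m - (v + 1), by omega⟩ (z ⟨m - (v + 1), by omega⟩) _ (hs _) (hE _)
        (by rw [h2]; exact h1) _ (hG ⟨m - (v + 1), by omega⟩)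
      rw [h3] at h5
      exact h5
  have := key m le_rfl
  rwa [Nat.sub_self] at this

/-- the values of the other variables in the `j`-th step -/
noncomputable def zz (F : SympFam X n) {K : Type} [Field K] (io : K →+* ℂ) (ξ : Fin r → ℂ)
    (G : Fin m → (X → K) → Ix n → ℂ) (j : Fin m) (s : Fin m → X → K) : Var n m r → ℂ
  | Sum.inl (l, y) => if l = j then 1 else if (l : ℕ) < j then F.f y (fun x => io (s l x)) else G l (s l) y
  | Sum.inr o => o.elim tpi ξ

theorem zz_congr (F : SympFam X n) {K : Type} [Field K] (io : K →+* ℂ) (ξ : Fin r → ℂ)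
    (G : Fin m → (X → K) → Ix n → ℂ) (j : Fin m) (s s' : Fin m → X → K) (h : ∀ l, l ≠ j → s l = s' l) :
    zz F io ξ G j s = zz F io ξ G j s' := by
  funext a
  rcases a with ⟨l, y⟩ | o
  · by_cases hl : l = j
    · simp [zz, hl]
    · simp only [zz, hl, if_false, h l hl]
  · rfl

/-- the relation for the choice `t` of the points as a polynomial in all matrices -/
noncomputable def rel {K : Type} [Field K] (io : K →+* ℂ) (ξ : Fin r → ℂ) (S : Fin m → Finset (X → K))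
    (v : (∀ j, {x // x ∈ S j}) × MvPolynomial (Var n m r) (𝓞 K)) :
    MvPolynomial ((Σ j : Fin m, {x // x ∈ S j}) × Ix n) ℂ :=
  MvPolynomial.eval₂ ((MvPolynomial.C).comp (io.comp (algebraMap (𝓞 K) K)))
    (Sum.elim (fun q : Fin m × Ix n => MvPolynomial.X ((⟨q.1, v.1 q.1⟩ : Σ j : Fin m, {x // x ∈ S j}), q.2))
      (fun o : Option (Fin r) => MvPolynomial.C (o.elim tpi ξ))) v.2

theorem rel_eval {K : Type} [Field K] (io : K →+* ℂ) (ξ : Fin r → ℂ) (S : Fin m → Finset (X → K))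
    (t : ∀ j, {x // x ∈ S j}) (Φ : MvPolynomial (Var n m r) (𝓞 K))
    (Y : (Σ j : Fin m, {x // x ∈ S j}) → Ix n → ℂ) :
    MvPolynomial.eval (fun b : (Σ j : Fin m, {x // x ∈ S j}) × Ix n => Y b.1 b.2) (rel io ξ S (t, Φ)) =
      vl io Φ (Sum.elim (fun q => Y ⟨q.1, t q.1⟩ q.2) (fun o => o.elim tpi ξ)) := by
  rw [rel, MvPolynomial.hom_eval₂, vl]
  congr 1
  · ext a
    simp
  · funext a
    rcases a with q | o
    · simp
    · simp

/-- the relations between the periods at `s_1, …, s_m`, `ξ` and `2 π i`, of degree at most `δ`, with coefficients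
whose conjugates are at most `T ^ δ`, hold on the product of the torsors with multiplier `2 π i` -/
def Rigid (F : SympFam X n) (δ : ℕ) (K : Type) [Field K] [NumberField K] (io : K →+* ℂ) (ξ : Fin r → ℂ) (T : ℝ)
    (s : Fin m → X → K) : Prop :=
  ∀ Φ : MvPolynomial (Var n m r) (𝓞 K), (∀ i, Φ.degreeOf i ≤ δ) →
    (∀ e, house ((MvPolynomial.coeff e Φ : 𝓞 K) : K) ≤ T ^ δ) →
    vl io Φ (Sum.elim (fun q => F.P q.2.1 (fun x => io (s q.1 x)) q.2.2.1 q.2.2.2) (fun o => o.elim tpi ξ)) = 0 →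
    ∀ G : Fin m → Ix n → ℂ, (∀ j, G j ∈ F.Tor (fun x => io (s j x))) →
      vl io Φ (Sum.elim (fun q => G q.1 q.2) (fun o => o.elim tpi ξ)) = 0

/-- the condition for one tuple -/
theorem tuple (F : SympFam X n) {K : Type} [Field K] [NumberField K] (io : K →+* ℂ) {κ : ℕ} (hk : 0 < κ) (T : ℝ)
    (ξ : Fin r → ℂ) (S : Fin m → Finset (X → K)) (hS : ∀ j, (S j : Set (X → K)) ⊆ Pts F κ K io T) :
    ∃ G : Fin m → (X → K) → Ix n → ℂ, ∀ s : Fin m → X → K, (∀ j, s j ∈ S j) → ¬ Rigid F δ K io ξ T s →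
      ∃ j, s j ∈ EX F κ δ K io (j, zz F io ξ G j s) T := by
  classical
  have hU : ∀ j, ∀ x ∈ S j, (fun y => io (x y)) ∈ F.U := fun j x hx => innerM_sub _ hk (hS j hx).2
  have hcP := countable_poly K (Var n m r)
  obtain ⟨G0, hG0, hG1⟩ := exists_generic_tor F (A := Σ j : Fin m, {x // x ∈ S j}) (fun a y => io (a.2.1 y))
    (fun a => hU a.1 a.2.1 a.2.2) (M := (∀ j, {x // x ∈ S j}) × MvPolynomial (Var n m r) (𝓞 K))
    (rel io ξ S)
  refine ⟨fun j x => if h : x ∈ S j then G0 ⟨j, ⟨x, h⟩⟩ else 0, fun s hs hexc => ?_⟩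
  by_contra hcon
  push Not at hcon
  apply hexc
  intro Φ hΦ1 hΦ2 hΦ3
  -- the generic points
  set t : ∀ j, {x // x ∈ S j} := fun j => ⟨s j, hs j⟩ with ht
  have h1 := descend F hk io T ξ s (fun j => hS j (hs j)) (fun j => G0 ⟨j, t j⟩) (fun j => hG0 ⟨j, t j⟩)
    (fun j => zz F io ξ (fun j x => if h : x ∈ S j then G0 ⟨j, ⟨x, h⟩⟩ else 0) j s) (fun j l hl y => by
      simp only [zz, hl, if_false, mix]
      by_cases h2 : (l : ℕ) < j
      · rw [if_pos h2, if_pos h2]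
      · rw [if_neg h2, if_neg h2]
        exact congrFun (dif_pos (hs l)) y) (fun j o => rfl) hcon Φ hΦ1 hΦ2 (by
      have h2 : mix F (fun j x => io (s j x)) (fun j => G0 ⟨j, t j⟩) ξ m =
          Sum.elim (fun q => F.P q.2.1 (fun x => io (s q.1 x)) q.2.2.1 q.2.2.2) (fun o => o.elim tpi ξ) := by
        funext a
        rcases a with ⟨l, y⟩ | o
        · simp only [mix, l.2, if_true, Sum.elim_inl]
          rfl
        · rfl
      rw [h2]
      exact hΦ3)
  have h2 : mix F (fun j x => io (s j x)) (fun j => G0 ⟨j, t j⟩) ξ 0 =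
      Sum.elim (fun q => G0 ⟨q.1, t q.1⟩ q.2) (fun o => o.elim tpi ξ) := by
    funext a
    rcases a with ⟨l, y⟩ | o
    · simp [mix]
    · rfl
  rw [h2, ← rel_eval io ξ S t Φ G0] at h1
  intro G hG
  set Y : (Σ j : Fin m, {x // x ∈ S j}) → Ix n → ℂ := fun a => if a.2 = t a.1 then G a.1 else G0 a with hY
  have h3 := hG1 (t, Φ) h1 Y (fun a => by
    by_cases h4 : a.2 = t a.1
    · have h5 := hG a.1
      have h6 : Y a = G a.1 := if_pos h4
      rw [h6, h4]
      exact h5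
    · have h6 : Y a = G0 a := if_neg h4
      rw [h6]
      exact hG0 a)
  rw [rel_eval io ξ S t Φ Y] at h3
  have h7 : ∀ j, Y ⟨j, t j⟩ = G j := fun j => if_pos rfl
  simpa only [h7] using h3

/-- **Tuples of points from arbitrary sets.** For a level `k` we look at tuples of `k` points, `a k` numbers, and
relations of degree at most `b k`; `c k` is a lower bound for `T`. -/
theorem main [Nonempty X] (F : SympFam X n) (a b : ℕ → ℕ) (c : ℕ → ℝ) :
    ∃ (ω : ℝ → ℕ) (T₀ : ℝ), Tendsto ω atTop atTop ∧ Monotone ω ∧ ∀ T, T₀ ≤ T → 0 < ω T ∧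
      ((ω T : ℝ) ^ 2 ≤ T ^ ((ω T : ℝ)⁻¹) ∧ c (ω T) ≤ T) ∧
      ∀ (K : Type) [Field K] [NumberField K], Module.finrank ℚ K ≤ ω T → ∀ (io : K →+* ℂ) (ξ : Fin (a (ω T)) → ℂ)
        (S : Fin (ω T) → Finset (X → K)), (∀ j, (S j : Set (X → K)) ⊆ Pts F (ω T) K io T) →
        {s : Fin (ω T) → X → K | (∀ j, s j ∈ S j) ∧ ¬ Rigid F (b (ω T)) K io ξ T s}.Finite ∧
        ({s : Fin (ω T) → X → K | (∀ j, s j ∈ S j) ∧ ¬ Rigid F (b (ω T)) K io ξ T s}.ncard : ℝ) ≤
          T ^ ((ω T : ℝ)⁻¹) * ({x : K | Y120.HtLe K T x}.ncard : ℝ) ^ (Fintype.card X - 1) *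
            ∑ j, ∏ l ∈ Finset.univ.erase j, ((S l).card : ℝ) := by
  classical
  obtain ⟨ω, T₀, h1, h2, h3⟩ := TU.omega_two (fun k => Fin k × (Var n k (a k) → ℂ))
    (fun k T => (k : ℝ) ^ 2 ≤ T ^ ((k : ℝ)⁻¹) ∧ c k ≤ T) (fun k => by
      rcases Nat.eq_zero_or_pos k with hk | hk
      · exact ⟨c k, fun T hT => ⟨by subst hk; simp, hT⟩⟩
      · refine ⟨max ((k : ℝ) ^ (2 * k)) (c k), fun T hT => ⟨?_, (le_max_right _ _).trans hT⟩⟩
        have e1 : (k : ℝ) ^ 2 = ((k : ℝ) ^ (2 * k)) ^ ((k : ℝ)⁻¹) := by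
          rw [pow_mul, ← Real.rpow_natCast (((k : ℝ)) ^ 2) k, ← Real.rpow_mul (by positivity),
            mul_inv_cancel₀ (by positivity), Real.rpow_one]
        rw [e1]
        exact Real.rpow_le_rpow (by positivity) ((le_max_left _ _).trans hT) (by positivity))
    (fun k K _ _ io p T => EX F k (b k) K io p T) (fun k K _ _ io p T s hs => hs.1) (by
      intro k ε hε
      rcases Nat.eq_zero_or_pos k with hk | hk
      · refine ⟨0, 0, 2, le_rfl, le_rfl, ?_⟩
        intro K _ _ hK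
        have h1 : 0 < Module.finrank ℚ K := Module.finrank_pos
        omega
      have hf : ∀ q, AnalyticOnNhd ℂ (F.f q) F.U := fun q => F.an q.1 q.2.1 q.2.2
      obtain ⟨D, C, T₀, h1, h2, h3⟩ := excF_cov F.conn F.isOpen F.nonempty hf (F.tor.reg F.conn hf)
        (InnerM F.U k) (innerM_compact _ _) (innerM_sub _ hk) (b k) (Var n k (a k) → Fin (b k + 1)) Unit k
        (b k : ℝ) ε hε
      exact ⟨D, C, T₀, h1, h2, fun K _ _ hK io p T hT => h3 K hK io (CoV (cut p.1 p.2))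
        (fun z hz => Subfield.subset_closure (Or.inl hz)) (QJ (b k) p.1 (cut p.1 p.2)) (QJ_deg _ _) T hT⟩)
  refine ⟨ω, T₀, h1, h2, fun T hT => ?_⟩
  obtain ⟨hk, h4, h5⟩ := h3 T hT
  refine ⟨hk, h4, fun K _ _ hK io ξ S hS => ?_⟩
  obtain ⟨G, hG⟩ := tuple (δ := b (ω T)) F io hk T ξ S hS
  have hT0 : 0 ≤ T ^ ((ω T : ℝ)⁻¹) := le_trans (by positivity) h4.1
  set N : ℝ := T ^ ((ω T : ℝ)⁻¹) * ({x : K | Y120.HtLe K T x}.ncard : ℝ) ^ (Fintype.card X - 1) with hN
  have hN0 : 0 ≤ N := mul_nonneg hT0 (by positivity)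
  obtain ⟨h6, h7⟩ := TU.count S (fun j s => EX F (ω T) (b (ω T)) K io (j, zz F io ξ G j s) T) ⌊N⌋₊
    (fun j s s' h => by rw [zz_congr F io ξ G j s s' h])
    (fun j s => ⟨(h5 K hK io (j, zz F io ξ G j s)).2.1, Nat.le_floor (h5 K hK io (j, zz F io ξ G j s)).2.2⟩)
    {s : Fin (ω T) → X → K | (∀ j, s j ∈ S j) ∧ ¬ Rigid F (b (ω T)) K io ξ T s} (fun s hs => ⟨hs.1, hG s hs.1 hs.2⟩)
  refine ⟨h6, ?_⟩
  have h8 : ({s : Fin (ω T) → X → K | (∀ j, s j ∈ S j) ∧ ¬ Rigid F (b (ω T)) K io ξ T s}.ncard : ℝ) ≤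
      (⌊N⌋₊ : ℝ) * ∑ j, ∏ l ∈ Finset.univ.erase j, ((S l).card : ℝ) := by
    exact_mod_cast h7
  refine h8.trans (mul_le_mul_of_nonneg_right (Nat.floor_le hN0) ?_)
  exact Finset.sum_nonneg fun j _ => Finset.prod_nonneg fun l _ => Nat.cast_nonneg _

/-- **The extension of the relations over the closure.** -/
theorem full (F : SympFam X n) {K : Type} [Field K] [NumberField K] (io : K →+* ℂ) (ξ : Fin r → ℂ)
    (s : Fin m → X → K) (hs : ∀ j, (fun x => io (s j x)) ∈ F.U) (Φ : MvPolynomial (Var n m r) (𝓞 K))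
    (h : ∀ G : Fin m → Ix n → ℂ, (∀ j, G j ∈ F.Tor (fun x => io (s j x))) →
      vl io Φ (Sum.elim (fun q => G q.1 q.2) (fun o => o.elim tpi ξ)) = 0)
    (Y : Fin m → ∀ i, Matrix (Fin (n i)) (Fin (n i)) ℂ) (ζ : Fin r → ℂ) (μ : ℂ) (hcl : (ζ, μ) ∈ Closure ξ)
    (hμ : μ ≠ 0) (hY : ∀ j, (Y j, μ) ∈ F.torsor (fun x => io (s j x))) :
    vl io Φ (Sum.elim (fun q => Y q.1 q.2.1 q.2.2.1 q.2.2.2) (fun o => o.elim μ ζ)) = 0 := by
  set Ψ : MvPolynomial (Ix (fun a : Fin m × ι => n a.2) ⊕ Option (Fin r)) Qbar :=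
    MvPolynomial.rename (fun v : Var n m r => match v with
      | Sum.inl (l, q) => Sum.inl ⟨(l, q.1), q.2⟩
      | Sum.inr o => Sum.inr o) (MvPolynomial.map ((ioQ io).comp (algebraMap (𝓞 K) K)) Φ) with hΨ
  have hev : ∀ (Z : Ix (fun a : Fin m × ι => n a.2) → ℂ) (z : Fin r → ℂ) (μ : ℂ),
      evQ Ψ Z z μ = vl io Φ (Sum.elim (fun q => Z ⟨(q.1, q.2.1), q.2.2⟩) (fun o => o.elim μ z)) := by
    intro Z z μ
    rw [evQ, hΨ, MvPolynomial.aeval_rename, MvPolynomial.aeval_def, MvPolynomial.eval₂_map, vl]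
    congr 1
    funext a
    rcases a with ⟨l, q⟩ | o
    · rfl
    · rfl
  have hpU : (fun j : Fin m × X => algebraMap Qbar ℂ (ioQ io (s j.1 j.2))) ∈ (power F (Fin m)).U := fun l => hs l
  have hQx : ∀ a : Fin m × ι, (power F (Fin m)).Qx (fun j : Fin m × X => algebraMap Qbar ℂ (ioQ io (s j.1 j.2))) a =
      F.Qx (fun x => io (s a.1 x)) a.2 := by
    intro a
    refine Matrix.ext fun i j => ?_
    show MvPolynomial.aeval _ (MvPolynomial.rename (fun j => (a.1, j)) (F.Q a.2 i j)) = _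
    rw [MvPolynomial.aeval_rename]
    rfl
  have h3 := extend (power F (Fin m)) (fun j => ioQ io (s j.1 j.2)) hpU Ψ ξ (fun Z hZ => by
    rw [hev]
    exact h (fun l q => Z ⟨(l, q.1), q.2⟩) (fun j i => by
      have h4 := hZ (j, i)
      rw [hQx] at h4
      exact h4)) ζ μ (fun G hG => hcl G hG) hμ (fun a => Y a.1 a.2) (fun a => by
      rw [hQx]
      exact (hY a.1).2 a.2)
  rw [hev] at h3
  exact h3

end Pool.Agent.U543.CN
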