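import Pool.Agent.U762.GP.SeqK

/-! Transfer of local lower bounds to almost all dilates `α exp (s n)` of a sequence. -/

set_option autoImplicit false

namespace Pool.Agent.U543.Dil

open MeasureTheory Filter Topology Set
open Pool.Agent.U762.GP

variable {s w : ℕ → ℝ} {C : ℝ}

/-- rare events from thin sets, for translates -/
theorem rare_shift (hW : WS s w C) {b K : ℝ} (hb : 0 ≤ b) (hK : 0 ≤ K) (E : ℕ → Set ℝ) (S0 : ℝ)
    (hE : ∀ n, S0 ≤ s n → ∀ Z : ℕ, s n - b - 1 ≤ Z → (Z : ℝ) ≤ s n + b →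
      volume (E n ∩ Icc (Z : ℝ) (Z + 1)) ≤ ENNReal.ofReal (K / Z)) :
    ∃ K' : ℝ, ∀ n, (volume.restrict (Ioc (-b) b)) {β | s n + β ∈ E n} ≤
      ENNReal.ofReal (K' / s n) := by
  obtain ⟨S1, hS1⟩ : ∃ S1 : ℝ, S1 = max S0 (2 * b + 4) := ⟨_, rfl⟩
  have hS1b : 2 * b + 4 ≤ S1 := by rw [hS1]; exact le_max_right _ _
  refine ⟨max (2 * b * S1) ((2 * b + 3) * (2 * K)), fun n => ?_⟩
  have hs := hW.s1 n
  have hsp : 0 < s n := by linarith
  by_cases hc : S1 ≤ s n
  · have h0 : S0 ≤ s n := by rw [hS1] at hc; exact (le_max_left _ _).trans hc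
    have h2 : 2 * b + 4 ≤ s n := hS1b.trans hc
    have hsub : {β | s n + β ∈ E n} ∩ Ioc (-b) b ⊆
        ⋃ Z ∈ Finset.Icc ⌊s n - b⌋₊ ⌊s n + b⌋₊, (s n + ·) ⁻¹' (E n ∩ Icc (Z : ℝ) (Z + 1)) := by
      rintro β ⟨h1, h2'⟩
      rw [mem_ofPred_eq] at h1
      have hp : 0 ≤ s n + β := by linarith [h2'.1]
      rw [mem_iUnion₂]
      refine ⟨⌊s n + β⌋₊, ?_, h1, Nat.floor_le hp, (Nat.lt_floor_add_one _).le⟩
      rw [Finset.mem_Icc]
      exact ⟨Nat.floor_le_floor (by linarith [h2'.1]), Nat.floor_le_floor (by linarith [h2'.2])⟩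
    rw [Measure.restrict_apply' measurableSet_Ioc]
    refine (measure_mono hsub).trans ((measure_biUnion_finset_le _ _).trans ?_)
    have h4 : ∀ Z ∈ Finset.Icc ⌊s n - b⌋₊ ⌊s n + b⌋₊,
        volume ((s n + ·) ⁻¹' (E n ∩ Icc (Z : ℝ) (Z + 1))) ≤ ENNReal.ofReal (2 * K / s n) := by
      intro Z hZ
      rw [Finset.mem_Icc] at hZ
      rw [measure_preimage_add]
      have h5 : s n - b - 1 ≤ Z := by
        have h6 := Nat.lt_floor_add_one (s n - b)
        have h7 : (⌊s n - b⌋₊ : ℝ) ≤ Z := by exact_mod_cast hZ.1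
        linarith
      have h6 : (Z : ℝ) ≤ s n + b := by
        have h7 : (Z : ℝ) ≤ ⌊s n + b⌋₊ := by exact_mod_cast hZ.2
        exact h7.trans (Nat.floor_le (by linarith))
      refine (hE n h0 Z h5 h6).trans (ENNReal.ofReal_le_ofReal ?_)
      have hZp : (0 : ℝ) < Z := by linarith
      rw [div_le_div_iff₀ hZp hsp]
      have h8 : s n ≤ 2 * Z := by linarith
      calc K * s n ≤ K * (2 * Z) := mul_le_mul_of_nonneg_left h8 hK
        _ = 2 * K * Z := by ring
    refine (Finset.sum_le_sum h4).trans ?_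
    rw [Finset.sum_const, nsmul_eq_mul, Nat.card_Icc, ← ENNReal.ofReal_natCast,
      ← ENNReal.ofReal_mul (Nat.cast_nonneg _)]
    apply ENNReal.ofReal_le_ofReal
    have h5 : ((⌊s n + b⌋₊ + 1 - ⌊s n - b⌋₊ : ℕ) : ℝ) ≤ 2 * b + 3 := by
      have h6 : ⌊s n - b⌋₊ ≤ ⌊s n + b⌋₊ + 1 :=
        (Nat.floor_le_floor (by linarith)).trans (Nat.le_succ _)
      rw [Nat.cast_sub h6]
      push_cast
      have h8 := Nat.lt_floor_add_one (s n - b)
      have h7' : (⌊s n + b⌋₊ : ℝ) ≤ s n + b := Nat.floor_le (by linarith)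
      linarith
    have h9 : 0 ≤ 2 * K / s n := by positivity
    calc ((⌊s n + b⌋₊ + 1 - ⌊s n - b⌋₊ : ℕ) : ℝ) * (2 * K / s n) ≤ (2 * b + 3) * (2 * K / s n) :=
          mul_le_mul_of_nonneg_right h5 h9
      _ = (2 * b + 3) * (2 * K) / s n := by ring
      _ ≤ _ := div_le_div_of_nonneg_right (le_max_right _ _) hsp.le
  · rw [not_le] at hc
    have h1 : (volume.restrict (Ioc (-b) b)) {β | s n + β ∈ E n} ≤ ENNReal.ofReal (2 * b) := by
      refine (measure_mono (subset_univ _)).trans ?_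
      rw [Measure.restrict_apply_univ, Real.volume_Ioc]
      apply ENNReal.ofReal_le_ofReal
      linarith
    refine h1.trans (ENNReal.ofReal_le_ofReal ?_)
    rw [le_div_iff₀ hsp]
    refine le_trans ?_ (le_max_left _ _)
    exact mul_le_mul_of_nonneg_left hc.le (by linarith)

open Classical in
/-- **sampling principle for dilates** -/
theorem samp_shift (hW : WS s w C)
    (hWi : Tendsto (fun N => ∑ n ∈ Finset.range N, w n) atTop atTop)
    {φ : ℝ → ℝ} (hφ : Measurable φ) {M : ℝ} (h0 : ∀ y, 0 ≤ φ y) (hM : ∀ y, φ y ≤ M)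
    {lam : ℝ} (hlam : 0 ≤ lam)
    (hBV : ∀ c d σ : ℝ, c ≤ d → 0 ≤ σ →
      ∫ y in c..d, |φ y - φ (y - σ)| ≤ σ * Real.exp (lam * (d + 1)))
    {c1 K ρ Z0 : ℝ} (hc1 : 0 < c1) (hK : 0 ≤ K)
    (hLB : ∀ Z : ℕ, Z0 ≤ Z → ∀ η : ℝ, Real.exp (-(c1 * Z)) ≤ η → η ≤ Real.exp (-(c1 * Z / 8)) →
      volume ({y | 1 / η * (∫ t in y..(y + η), φ t) < ρ} ∩ Icc (Z : ℝ) (Z + 1)) ≤
        ENNReal.ofReal (K / Z))
    {b : ℝ} (hb : 0 ≤ b) :
    ∀ᵐ β ∂(volume.restrict (Ioc (-b) b)), ∀ ε : ℝ, 0 < ε → ∀ᶠ N : ℕ in atTop,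
      (ρ - ε) * ∑ n ∈ Finset.range N, w n ≤ ∑ n ∈ Finset.range N, w n * φ (s n + β) := by
  have hM0 : 0 ≤ M := (h0 0).trans (hM 0)
  have hsp : ∀ n, 0 < s n := fun n => by linarith [hW.s1 n]
  obtain ⟨κ, hκ⟩ : ∃ κ : ℝ, κ = c1 / 2 := ⟨_, rfl⟩
  have hκ0 : 0 < κ := by rw [hκ]; positivity
  set f : ℕ → ℝ → ℝ := fun n β => φ (s n + β) with hf
  have hfm : ∀ n, Measurable (f n) := fun n => hφ.comp (measurable_id.const_add (s n))
  have hfM : ∀ n x, |f n x| ≤ M := fun n x => by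
    rw [abs_of_nonneg (h0 _)]; exact hM _
  have hBV' : ∀ n, ∀ τ : ℝ, 0 ≤ τ → τ ≤ 1 →
      ∫ β in (-b)..b, |f n β - f n (β - τ)| ≤ τ * Real.exp (lam * (b + 2) * s n) := by
    intro n τ hτ _
    have e : ∫ β in (-b)..b, |f n β - f n (β - τ)| =
        ∫ y in (s n + -b)..(s n + b), |φ y - φ (y - τ)| := by
      rw [← intervalIntegral.integral_comp_add_left (fun y => |φ y - φ (y - τ)|) (s n)]
      apply intervalIntegral.integral_congr
      intro β _
      simp only [hf]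
      rw [add_sub_assoc]
    rw [e]
    refine (hBV (s n + -b) (s n + b) τ (by linarith) hτ).trans ?_
    apply mul_le_mul_of_nonneg_left _ hτ
    apply Real.exp_le_exp.2
    rw [mul_assoc]
    apply mul_le_mul_of_nonneg_left _ hlam
    have h1 := hW.s1 n
    have h2 : (b + 1) * 1 ≤ (b + 1) * s n := mul_le_mul_of_nonneg_left h1 (by linarith)
    have h3 : (b + 2) * s n = (b + 1) * s n + s n := by ring
    rw [h3]
    linarith
  have hlln := lln hW hWi (by linarith : -b ≤ b) hM0 hκ0 hfm hfM hBV'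
  -- rare windows
  set ηn : ℕ → ℝ := fun n => Real.exp (-(κ * s n)) with hη
  set E : ℕ → Set ℝ := fun n => {y | 1 / ηn n * (∫ t in y..(y + ηn n), φ t) < ρ} with hE
  have hav : ∀ n β, av (Real.exp (-(κ * s n))) (f n) β =
      1 / ηn n * ∫ t in (s n + β)..(s n + β + ηn n), φ t := by
    intro n β
    unfold av
    have e : ∫ t in β..(β + Real.exp (-(κ * s n))), f n t =
        ∫ y in (s n + β)..(s n + (β + Real.exp (-(κ * s n)))), φ y :=
      intervalIntegral.integral_comp_add_left φ (s n)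
    rw [e, ← add_assoc]
  obtain ⟨K', hK'⟩ := rare_shift hW hb hK E (max (2 * b + 2) (Z0 + b + 1)) (by
    intro n hn Z hZ1 hZ2
    have h1 : 2 * b + 2 ≤ s n := (le_max_left _ _).trans hn
    have h2 : Z0 + b + 1 ≤ s n := (le_max_right _ _).trans hn
    have hs := hsp n
    apply hLB Z (by linarith) (ηn n)
    · simp only [hη]
      apply Real.exp_le_exp.2
      rw [neg_le_neg_iff, hκ]
      have h3 : s n ≤ 2 * Z := by linarith
      calc c1 / 2 * s n ≤ c1 / 2 * (2 * Z) := mul_le_mul_of_nonneg_left h3 (by positivity)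
        _ = c1 * Z := by ring
    · simp only [hη]
      apply Real.exp_le_exp.2
      rw [neg_le_neg_iff, hκ]
      have h3 : (Z : ℝ) ≤ 4 * s n := by linarith
      calc c1 * (Z : ℝ) / 8 ≤ c1 * (4 * s n) / 8 := by
            apply div_le_div_of_nonneg_right _ (by norm_num)
            exact mul_le_mul_of_nonneg_left h3 hc1.le
        _ = c1 / 2 * s n := by ring)
  have hrare := rare hW (fun n => {β | s n + β ∈ E n}) hK'
  filter_upwards [hlln, hrare] with β h1 h2
  intro ε hε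
  obtain ⟨B, hB⟩ := h2
  have h3 := (Metric.tendsto_atTop.1 h1) (ε / 2) (by positivity)
  obtain ⟨N1, hN1⟩ := h3
  filter_upwards [eventually_ge_atTop N1, hWi.eventually_gt_atTop 0,
    hWi.eventually_ge_atTop (2 * (|ρ| * B) / ε)] with N hN hpos hbig
  have h4 := hN1 N hN
  rw [Real.dist_eq, sub_zero, abs_div, abs_of_pos hpos, div_lt_iff₀ hpos] at h4
  have h5 : ∑ n ∈ Finset.range N, w n * φ (s n + β) =
      ∑ n ∈ Finset.range N, w n * dv κ s f n β +
        ∑ n ∈ Finset.range N, w n * av (Real.exp (-(κ * s n))) (f n) β := by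
    rw [← Finset.sum_add_distrib]
    apply Finset.sum_congr rfl
    intro n _
    unfold dv
    simp only [hf]
    ring
  have h6 : ρ * ∑ n ∈ Finset.range N, w n - |ρ| * B ≤
      ∑ n ∈ Finset.range N, w n * av (Real.exp (-(κ * s n))) (f n) β := by
    have h7 : ∀ n ∈ Finset.range N, w n * ρ - |ρ| * (w n * (if s n + β ∈ E n then 1 else 0)) ≤
        w n * av (Real.exp (-(κ * s n))) (f n) β := by
      intro n _
      have hw := hW.w0 n
      split_ifs with hc
      · have h8 : 0 ≤ av (Real.exp (-(κ * s n))) (f n) β := by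
          unfold av
          apply mul_nonneg (by positivity)
          apply intervalIntegral.integral_nonneg
          · linarith [Real.exp_pos (-(κ * s n))]
          · intro t _
            exact h0 _
        have h9 : ρ ≤ |ρ| := le_abs_self ρ
        have h10 : 0 ≤ w n * av (Real.exp (-(κ * s n))) (f n) β := mul_nonneg hw h8
        have h11 : w n * ρ ≤ w n * |ρ| := mul_le_mul_of_nonneg_left h9 hw
        linarith
      · have h8 : ρ ≤ av (Real.exp (-(κ * s n))) (f n) β := by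
          rw [hav n β]
          simp only [hE, mem_ofPred_eq, not_lt] at hc
          exact hc
        have := mul_le_mul_of_nonneg_left h8 hw
        linarith
    have h11 := Finset.sum_le_sum h7
    rw [Finset.sum_sub_distrib, ← Finset.sum_mul, ← Finset.mul_sum] at h11
    have h12 := hB N
    have h13 : |ρ| * ∑ n ∈ Finset.range N, w n * (if s n + β ∈ E n then 1 else 0) ≤ |ρ| * B :=
      mul_le_mul_of_nonneg_left h12 (abs_nonneg _)
    linarith
  rw [div_le_iff₀ hε] at hbig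
  have h14 := (abs_lt.1 h4).1
  rw [h5]
  nlinarith

/-- from almost every `β` in all intervals to almost every `α > 0` -/
theorem ae_exp_pos {P : ℝ → Prop}
    (h : ∀ b : ℕ, ∀ᵐ β ∂(volume.restrict (Ioc (-(b : ℝ)) b)), P (Real.exp β)) :
    ∀ᵐ α ∂(volume.restrict (Ioi (0 : ℝ))), P α := by
  rw [ae_restrict_iff' measurableSet_Ioi]
  have h1 : ∀ᵐ β : ℝ, ∀ k : ℕ, β ∈ Ioc (-(k : ℝ)) k → P (Real.exp β) := by
    rw [ae_all_iff]
    intro k
    exact (ae_restrict_iff' measurableSet_Ioc).1 (h k)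
  have h2 : ∀ᵐ β : ℝ, P (Real.exp β) := by
    filter_upwards [h1] with β hβ
    obtain ⟨k, hk⟩ := exists_nat_gt |β|
    rw [abs_lt] at hk
    exact hβ k ⟨hk.1, hk.2.le⟩
  rw [ae_iff] at h2 ⊢
  have h3 := MeasureTheory.addHaar_image_eq_zero_of_differentiableOn_of_addHaar_eq_zero volume
    (f := Real.exp) Real.differentiable_exp.differentiableOn h2
  refine measure_mono_null ?_ h3
  intro α hα
  have hα' : ¬ (α ∈ Ioi (0 : ℝ) → P α) := hα
  rw [Classical.not_imp] at hα'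
  refine ⟨Real.log α, ?_, Real.exp_log (mem_Ioi.1 hα'.1)⟩
  show ¬ P (Real.exp (Real.log α))
  rw [Real.exp_log (mem_Ioi.1 hα'.1)]
  exact hα'.2

end Pool.Agent.U543.Dil
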