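import Pool.Agent.U543.Dil

/-! Almost all dilates of a sequence, all lengths from `K log x` on. -/

set_option autoImplicit false

namespace Pool.Agent.U543.Dil

open MeasureTheory Filter Topology Set
open Pool.Agent.U762.GP

variable {s w : ℕ → ℝ} {C' : ℝ}

open Classical in
/-- the sum of the weights of the good indices, for one choice of the parameters -/
theorem shiftK_ae {c μ μ' lam K ρ K0 Z0 : ℝ} (hc : 0 < c) (hc1 : c ≤ 1 / 10)
    (hbig : BigD c) (hμ0 : 0 < μ) (hμμ : μ < μ') (hμ'1 : μ' < 1) (hlam : 0 < lam) (hK : 0 < K)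
    (hρ : 0 < ρ) (hK0 : 0 ≤ K0)
    (hLB : ∀ Z : ℕ, Z0 ≤ Z → ∀ η : ℝ, Real.exp (-(c / 2 * Z)) ≤ η →
      η ≤ Real.exp (-(c / 2 * Z / 8)) →
      volume ({y | 1 / η * (∫ t in y..(y + η),
        ({t : ℝ | ⌊Real.exp t⌋₊ ∈ GK μ' lam (K / 2) c}).indicator (fun _ => (1 : ℝ)) t) < ρ} ∩
        Icc (Z : ℝ) (Z + 1)) ≤ ENNReal.ofReal (K0 / Z))
    (hW : WS s w C') (hsi : Tendsto s atTop atTop)
    (hWi : Tendsto (fun N => ∑ n ∈ Finset.range N, w n) atTop atTop)
    {b : ℝ} (hb : 0 ≤ b) :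
    ∀ᵐ β ∂(volume.restrict (Ioc (-b) b)), ∀ᶠ N : ℕ in atTop,
      ρ / 2 * ∑ n ∈ Finset.range N, w n ≤
        ∑ n ∈ Finset.range N,
          w n * (if GoodK μ (4 * lam + 2) K (Real.exp (s n + β)) then 1 else 0) := by
  set φ : ℝ → ℝ := ({t : ℝ | ⌊Real.exp t⌋₊ ∈ GK μ' lam (K / 2) c}).indicator
    (fun _ => (1 : ℝ)) with hφd
  have hms : MeasurableSet {t : ℝ | ⌊Real.exp t⌋₊ ∈ GK μ' lam (K / 2) c} :=
    (Nat.measurable_floor.comp Real.measurable_exp)
      (MeasurableSet.of_discrete (s := GK μ' lam (K / 2) c))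
  have hφm : Measurable φ := measurable_const.indicator hms
  have hφ0 : ∀ y, 0 ≤ φ y := by
    intro y; simp only [hφd, indicator]; split_ifs <;> norm_num
  have hφ1 : ∀ y, φ y ≤ 1 := by
    intro y; simp only [hφd, indicator]; split_ifs <;> norm_num
  have hBV : ∀ c' d σ : ℝ, c' ≤ d → 0 ≤ σ →
      ∫ y in c'..d, |φ y - φ (y - σ)| ≤ σ * Real.exp (1 * (d + 1)) :=
    fun c' d σ h1 h3 => ind_bv (GK μ' lam (K / 2) c) c' d σ h1 h3
  have hS := samp_shift hW hWi hφm hφ0 hφ1 (lam := 1) (by norm_num) hBV (c1 := c / 2)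
    (by positivity) hK0 hLB hb
  -- the rare event
  obtain ⟨K3, Z3, hK3, hL⟩ := hbig (1 - μ) (by linarith)
  obtain ⟨K3', hL'⟩ := rare_shift hW hb hK3 (fun _ => LongEx c (1 - μ)) (Z3 + b + 1) (by
      intro n hn Z hZ1 _
      exact hL Z (by linarith))
  have r3 := rare hW _ hL'
  obtain ⟨Y0, hY0⟩ := goodK_of hc hc1 hμ0 hμμ hμ'1 hlam hK
  filter_upwards [hS, r3, ae_restrict_mem measurableSet_Ioc] with β b1 b3 b4
  obtain ⟨B3, hB3⟩ := b3
  have hsβ : Tendsto (fun n => s n + β) atTop atTop := tendsto_atTop_add_const_right _ _ hsi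
  obtain ⟨n0, hn0⟩ := eventually_atTop.1 (hsβ.eventually_ge_atTop Y0)
  set B4 : ℝ := ∑ n ∈ Finset.range n0, w n with hB4
  have e1 := b1 (ρ / 4) (by linarith)
  have e2 : ∀ᶠ N : ℕ in atTop, (B3 + B4) / (ρ / 4) ≤ ∑ n ∈ Finset.range N, w n :=
    hWi.eventually_ge_atTop _
  filter_upwards [e1, e2] with N h1 h2
  rw [div_le_iff₀ (by linarith)] at h2
  have hpt : ∀ n, w n * φ (s n + β) ≤
      w n * (if GoodK μ (4 * lam + 2) K (Real.exp (s n + β)) then 1 else 0) +
      w n * (if s n + β ∈ LongEx c (1 - μ) then 1 else 0) +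
      (if n < n0 then w n else 0) := by
    intro n
    have hw := hW.w0 n
    have p2 : (0 : ℝ) ≤ (if GoodK μ (4 * lam + 2) K (Real.exp (s n + β)) then 1 else 0) := by
      split_ifs <;> norm_num
    have p4 : (0 : ℝ) ≤ (if s n + β ∈ LongEx c (1 - μ) then 1 else 0) := by
      split_ifs <;> norm_num
    by_cases hn : n < n0
    · rw [if_pos hn]
      have a1 : w n * φ (s n + β) ≤ w n * 1 := mul_le_mul_of_nonneg_left (hφ1 _) hw
      have a2 := mul_nonneg hw p2
      have a4 := mul_nonneg hw p4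
      linarith
    · rw [if_neg hn]
      push Not at hn
      have hy := hn0 n hn
      rw [add_zero, ← mul_add]
      apply mul_le_mul_of_nonneg_left _ hw
      by_cases c1 : ⌊Real.exp (s n + β)⌋₊ ∈ GK μ' lam (K / 2) c
      · by_cases c3 : s n + β ∈ LongEx c (1 - μ)
        · rw [if_pos c3]
          have := hφ1 (s n + β)
          linarith
        · rw [if_pos (hY0 _ hy c1 c3)]
          have := hφ1 (s n + β)
          linarith
      · have : φ (s n + β) = 0 := by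
          have c2 : (s n + β) ∉ {t : ℝ | ⌊Real.exp t⌋₊ ∈ GK μ' lam (K / 2) c} := c1
          rw [hφd]
          exact indicator_of_notMem c2 _
        rw [this]
        linarith
  have hsum := Finset.sum_le_sum (fun n (_ : n ∈ Finset.range N) => hpt n)
  rw [Finset.sum_add_distrib, Finset.sum_add_distrib] at hsum
  have hlast : ∑ n ∈ Finset.range N, (if n < n0 then w n else 0) ≤ B4 := by
    rw [← Finset.sum_filter, hB4]
    apply Finset.sum_le_sum_of_subset_of_nonneg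
    · intro n hn
      rw [Finset.mem_filter] at hn
      exact Finset.mem_range.2 hn.2
    · intro n _ _
      exact hW.w0 n
  have hB3' : ∑ n ∈ Finset.range N, w n * (if s n + β ∈ LongEx c (1 - μ) then 1 else 0) ≤
      B3 := by
    convert hB3 N
  linarith

open Classical in
/-- the theorem for all lengths from `K log x` on -/
theorem dilK {c C : ℝ} {u0 : ℕ} (hc : 0 < c) (hc1 : c ≤ 1 / 10) (hbig : BigD c)
    (hC : 0 ≤ C) (hSM : SM C u0) {μ K : ℝ} (hμ0 : 0 < μ) (hμ1 : μ < 1) (hK : 0 < K) :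
    ∃ lam ρ : ℝ, 0 < lam ∧ 0 < ρ ∧ ∀ (s w : ℕ → ℝ) (C' : ℝ), WS s w C' →
      Tendsto s atTop atTop → Tendsto (fun N => ∑ n ∈ Finset.range N, w n) atTop atTop →
      ∀ᵐ α ∂(volume.restrict (Ioi (0 : ℝ))), ∀ᶠ N : ℕ in atTop,
        ρ * ∑ n ∈ Finset.range N, w n ≤
          ∑ n ∈ Finset.range N, if GoodK μ lam K (α * Real.exp (s n)) then w n else 0 := by
  obtain ⟨μ', hμμ, hμ'1⟩ := exists_between hμ1
  obtain ⟨lam, ρ, K0, Z0, hlam, hρ, hK0, hLB⟩ := locdensK hc hc1 hbig hC hSM (hμ0.trans hμμ) hμ'1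
    (half_pos hK)
  refine ⟨4 * lam + 2, ρ / 2, by linarith, by linarith, fun s w C' hW hsi hWi => ?_⟩
  apply ae_exp_pos (P := fun α => ∀ᶠ N : ℕ in atTop, ρ / 2 * ∑ n ∈ Finset.range N, w n ≤
    ∑ n ∈ Finset.range N, if GoodK μ (4 * lam + 2) K (α * Real.exp (s n)) then w n else 0)
  intro b
  filter_upwards [shiftK_ae hc hc1 hbig hμ0 hμμ hμ'1 hlam hK hρ hK0 hLB hW hsi hWi
    (Nat.cast_nonneg b)] with β hβ
  filter_upwards [hβ] with N hN
  refine hN.trans (le_of_eq ?_)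
  apply Finset.sum_congr rfl
  intro n _
  rw [← Real.exp_add, add_comm β (s n)]
  split_ifs <;> simp

end Pool.Agent.U543.Dil
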