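import Mathlib

/-!
# Families of de Rham-Betti objects over open sets of affine spaces: definitions

`P x` is the period matrix of the fibre at `x`; the rows correspond to a basis of the local system and the columns to a
basis of the de Rham cohomology.
-/

set_option autoImplicit false

open NumberField Polynomial

namespace Pool.Agent.U543.GD

variable {X ι ι' : Type} [Fintype X]

/-- The value at `(x, Y)` of a polynomial in the entries of the matrix `Y`, with coefficients in `ℂ[x]`. -/
noncomputable def val (F : MvPolynomial (ι × ι') (MvPolynomial X ℂ)) (x : X → ℂ) (Y : Matrix ι ι' ℂ) : ℂ :=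
  MvPolynomial.eval₂ (MvPolynomial.eval x) (fun p => Y p.1 p.2) F

/-- `ℂ(x)` is algebraically closed in the field `ℂ(x, P)` generated by the periods: every analytic function on a
nonempty open subset of `U` which is a quotient of polynomials in `x` and the entries of `P`, and which is algebraic over
`ℂ(x)`, is a rational function of `x`. -/
def Regular (U : Set (X → ℂ)) (P : (X → ℂ) → Matrix ι ι' ℂ) : Prop :=
  ∀ (V : Set (X → ℂ)) (φ : (X → ℂ) → ℂ) (A B : MvPolynomial (ι × ι') (MvPolynomial X ℂ)) (R : (MvPolynomial X ℂ)[X]),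
    IsOpen V → V.Nonempty → V ⊆ U → AnalyticOnNhd ℂ φ V → R ≠ 0 → (∀ x ∈ V, val B x (P x) ≠ 0) →
    (∀ x ∈ V, val B x (P x) * φ x = val A x (P x)) →
    (∀ x ∈ V, (R.map (MvPolynomial.eval x)).eval (φ x) = 0) →
    ∃ p q : MvPolynomial X ℂ, q ≠ 0 ∧ ∀ x ∈ V, MvPolynomial.eval x q * φ x = MvPolynomial.eval x p

/-- A family of de Rham-Betti objects over the connected nonempty open subset `U` of `ℂ ^ X`, with analytic period
matrices `P x`. -/
structure Family (U : Set (X → ℂ)) (P : (X → ℂ) → Matrix ι ι' ℂ) : Prop where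
  isOpen : IsOpen U
  isPreconnected : IsPreconnected U
  nonempty : U.Nonempty
  analytic : ∀ i j, AnalyticOnNhd ℂ (fun x => P x i j) U
  regular : Regular U P

/-- The Galois group of the family: the matrices `g` such that all polynomial relations over `ℂ[x]` between the entries
of `P` also hold for `g P`. -/
def Gal [Fintype ι] (U : Set (X → ℂ)) (P : (X → ℂ) → Matrix ι ι' ℂ) : Set (Matrix ι ι ℂ) :=
  {g | ∀ F : MvPolynomial (ι × ι') (MvPolynomial X ℂ), (∀ x ∈ U, val F x (P x) = 0) → ∀ x ∈ U, val F x (g * P x) = 0}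

/-- `Q` on `V` is an analytic continuation of `P` on `U` along a chain of connected open sets. -/
inductive Continuation (U : Set (X → ℂ)) (P : (X → ℂ) → Matrix ι ι' ℂ) :
    Set (X → ℂ) → ((X → ℂ) → Matrix ι ι' ℂ) → Prop
  | refl : Continuation U P U P
  | step (V W : Set (X → ℂ)) (Q R : (X → ℂ) → Matrix ι ι' ℂ) : Continuation U P V Q → IsPreconnected W → IsOpen W →
      (∀ i j, AnalyticOnNhd ℂ (fun x => R x i j) W) → (∃ V' : Set (X → ℂ), V' ⊆ V ∩ W ∧ IsOpen V' ∧ V'.Nonempty ∧
        ∀ x ∈ V', Q x = R x) → Continuation U P W R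

/-- `g` is a monodromy matrix of the family: some analytic continuation of `P` is equal to `g P` on a nonempty open
subset of `U`. -/
def IsMonodromy [Fintype ι] (U : Set (X → ℂ)) (P : (X → ℂ) → Matrix ι ι' ℂ) (g : Matrix ι ι ℂ) : Prop :=
  ∃ (V : Set (X → ℂ)) (Q : (X → ℂ) → Matrix ι ι' ℂ), Continuation U P V Q ∧
    ∃ V' : Set (X → ℂ), V' ⊆ U ∩ V ∧ IsOpen V' ∧ V'.Nonempty ∧ ∀ x ∈ V', Q x = g * P x

/-- The period matrix of the `m`-th tensor power of an object with the period matrix `C`. -/
def tensor {α β : Type} (m : ℕ) (C : Matrix α β ℂ) : Matrix (Fin m → α) (Fin m → β) ℂ := fun I J => ∏ t, C (I t) (J t)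

/-- The period matrix of the direct sum of objects with the period matrices `C₀` and `C`. -/
def sum {α β α' β' : Type} (C₀ : Matrix α β ℂ) (C : Matrix α' β' ℂ) : Matrix (α ⊕ α') (β ⊕ β') ℂ :=
  Matrix.fromBlocks C₀ 0 0 C

/-- The elements `a / b` of `K`, `a` and `b ≠ 0` integers of `K` all of whose conjugates are at most `T`. -/
def Height (K : Type) [Field K] [NumberField K] (T : ℝ) : Set K :=
  {x | ∃ a b : 𝓞 K, b ≠ 0 ∧ house (a : K) ≤ T ∧ house (b : K) ≤ T ∧ x = a / b}

/-- The points of `U` of norm at most `k` and at distance at least `1 / k` from the complement of `U`. -/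
def Inner (U : Set (X → ℂ)) (k : ℕ) : Set (X → ℂ) := {z | ‖z‖ ≤ k ∧ Metric.ball z (k : ℝ)⁻¹ ⊆ U}

variable {α β : Type} [Fintype α] [Fintype β]

/-- `F` is a de Rham-Betti class of the object with the period matrix `C`, with the integral coordinates `F` with
respect to the basis of the local system, and with the coordinates `a` in the integers of `K` with respect to the basis
of the de Rham cohomology. -/
def IsClass (K : Type) [Field K] (io : K →+* ℂ) (C : Matrix α β ℂ) (F : α → ℤ) (a : β → 𝓞 K) : Prop :=
  C.mulVec (fun j => io (a j : K)) = fun i => (F i : ℂ)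

/-- The solutions of the equations given by the rows of `L`. -/
def solutions (L : Matrix α α ℤ) : Set (α → ℂ) := {v | (L.map (Int.cast : ℤ → ℂ)).mulVec v = 0}

/-- `L` and `A` define a de Rham-Betti subobject of the object with the period matrix `C`: the subspace over `K` of the
de Rham cohomology generated by the columns of `A` and the rational subspace with the equations given by the rows of `L`
become equal over the complex numbers. -/
def IsSubobject (K : Type) [Field K] (io : K →+* ℂ) (C : Matrix α β ℂ) (L : Matrix α α ℤ) (A : Matrix β β (𝓞 K)) : Prop :=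
  Set.range (fun w : β → ℂ => (C * A.map fun a => io (a : K)).mulVec w) = solutions L

/-- All de Rham-Betti classes of height at most `B` of the object with the period matrix `C` are invariant under `g`, and
all de Rham-Betti subobjects of height at most `B` are stable under `g`. -/
def Respects (K : Type) [Field K] [NumberField K] (io : K →+* ℂ) (C : Matrix α β ℂ) (B : ℝ) (g : Matrix α α ℂ) : Prop :=
  (∀ (F : α → ℤ) (a : β → 𝓞 K), (∀ i, |(F i : ℝ)| ≤ B) → (∀ j, house (a j : K) ≤ B) → IsClass K io C F a →
    g.mulVec (fun i => (F i : ℂ)) = fun i => (F i : ℂ)) ∧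
  (∀ (L : Matrix α α ℤ) (A : Matrix β β (𝓞 K)), (∀ i j, |(L i j : ℝ)| ≤ B) → (∀ i j, house (A i j : K) ≤ B) →
    IsSubobject K io C L A → ∀ v ∈ solutions L, g.mulVec v ∈ solutions L)

/-- The exceptional points: points `s` of `U` with coordinates in `K` of height at most `T`, of norm at most `k` and at
distance at least `1 / k` from the complement of `U`, such that for some `m ≤ k` some de Rham-Betti class or subobject,
over `K` and of height at most `T ^ k`, of the `m`-th tensor power of `M₀ ⊕ H_s` is not respected by `1 ⊕ g` for some `g`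
in the Galois group; here `H_s` is the fibre at `s` and `C₀` is the period matrix of `M₀`. -/
def Exceptional [Fintype ι] [Fintype ι'] (U : Set (X → ℂ)) (P : (X → ℂ) → Matrix ι ι' ℂ) (k : ℕ) (K : Type) [Field K] [NumberField K]
    (io : K →+* ℂ) (C₀ : Matrix (Fin k) (Fin k) ℂ) (T : ℝ) : Set (X → K) :=
  {s | (∀ j, s j ∈ Height K T) ∧ (fun j => io (s j)) ∈ Inner U k ∧
    ∃ m ≤ k, ∃ g ∈ Gal U P, ¬ Respects K io (tensor m (sum C₀ (P fun j => io (s j)))) (T ^ k) (tensor m (sum 1 g))}

/-- The set `S` lies on at most `m` hypersurfaces of degree at most `D`. -/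
def Covered (D m : ℕ) (S : Set (X → ℂ)) : Prop :=
  ∃ Φ : Finset (MvPolynomial X ℂ), Φ.card ≤ m ∧ (∀ Q ∈ Φ, Q ≠ 0 ∧ Q.totalDegree ≤ D) ∧
    ∀ x ∈ S, ∃ Q ∈ Φ, MvPolynomial.eval x Q = 0

end Pool.Agent.U543.GD
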