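import Pool.Agent.Y890.MV.TorExc

/-!
# Solutions of linear systems over the ring of periods are invariant under the Galois group, at almost all points
-/

set_option autoImplicit false
set_option linter.unusedSectionVars false

open NumberField Filter

namespace Pool.Agent.U543.GS

open Pool.Agent.Y890.MV
open Pool.Agent.Y890.SP (Qbar)
open Pool.Agent.Y124 (Cov)

variable {σ : Type} [Fintype σ] [DecidableEq σ]

/-- the exponent of a family of numbers at most `δ` -/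
noncomputable def ex {δ : ℕ} (l : σ → Fin (δ + 1)) : σ →₀ ℕ := Finsupp.equivFunOnFinite.symm fun y => (l y : ℕ)

theorem ex_apply {δ : ℕ} (l : σ → Fin (δ + 1)) (y : σ) : ex l y = (l y : ℕ) := rfl

theorem ex_inj {δ : ℕ} : Function.Injective (ex : (σ → Fin (δ + 1)) → σ →₀ ℕ) := by
  intro l l' h
  funext y
  apply Fin.ext
  have := DFunLike.congr_fun h y
  simpa [ex_apply] using this

/-- a polynomial of partial degrees at most `δ` as a sum over all exponents at most `δ` -/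
theorem eval_eq {δ : ℕ} (Q : MvPolynomial σ ℂ) (hQ : ∀ y, Q.degreeOf y ≤ δ) (Y : σ → ℂ) :
    MvPolynomial.eval Y Q = ∑ l : σ → Fin (δ + 1), Q.coeff (ex l) * ∏ y, Y y ^ (l y : ℕ) := by
  classical
  rw [MvPolynomial.eval_eq']
  have h1 : Q.support ⊆ (Finset.univ : Finset (σ → Fin (δ + 1))).image ex := by
    intro s hs
    rw [Finset.mem_image]
    have h2 : ∀ y, s y ≤ δ := fun y => (MvPolynomial.monomial_le_degreeOf y hs).trans (hQ y)
    refine ⟨fun y => ⟨s y, Nat.lt_succ_of_le (h2 y)⟩, Finset.mem_univ _, ?_⟩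
    ext y
    rfl
  rw [Finset.sum_subset h1, Finset.sum_image (fun a _ b _ h => ex_inj h)]
  · rfl
  · intro s _ hs
    rw [MvPolynomial.notMem_support_iff] at hs
    rw [hs, zero_mul]

/-- `θ` respects all the polynomial relations between the functions `f`, over `ℂ[x]` -/
def Resp {X : Type} (U : Set (X → ℂ)) (f : σ → (X → ℂ) → ℂ) (θ : (σ → ℂ) → σ → ℂ) : Prop :=
  ∀ p : MvPolynomial σ (MvPolynomial X ℂ), (∀ x ∈ U, evM f x p = 0) → ∀ x ∈ U, evX x (θ fun i => f i x) p = 0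

/-- points at which some solution in small integers of the system `Q` is not a solution after some `θ` -/
def ExcG {X h r : Type} [Fintype h] (Q : r → h → MvPolynomial σ ℂ) (U : Set (X → ℂ)) (f : σ → (X → ℂ) → ℂ)
    (Lc : Set (X → ℂ)) (K : Type) [Field K] [NumberField K] (io : K →+* ℂ) (A T : ℝ) : Set (X → K) :=
  {s | (∀ j, Y120.HtLe K T (s j)) ∧ (fun j => io (s j)) ∈ Lc ∧ ∃ c : h → 𝓞 K,
    (∀ i (φ : K →+* ℂ), ‖φ (c i : K)‖ ≤ T ^ A) ∧
    (∀ ρ, ∑ i, MvPolynomial.eval (fun y => f y fun j => io (s j)) (Q ρ i) * io (c i : K) = 0) ∧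
    ¬ ∀ θ, Resp U f θ → ∀ ρ, ∑ i, MvPolynomial.eval (θ fun y => f y fun j => io (s j)) (Q ρ i) * io (c i : K) = 0}

theorem excG_sub {X h r : Type} [Fintype h] {δ : ℕ} (Q : r → h → MvPolynomial σ ℂ)
    (hQ : ∀ ρ i y, (Q ρ i).degreeOf y ≤ δ) {U : Set (X → ℂ)} {f : σ → (X → ℂ) → ℂ} {Lc : Set (X → ℂ)} (hLU : Lc ⊆ U)
    (K : Type) [Field K] [NumberField K] (io : K →+* ℂ) (A T : ℝ) :
    ExcG Q U f Lc K io A T ⊆
      ExcM (δ := δ) U f Lc K io (fun ρ l i => (Q ρ i).coeff (ex l)) A T := by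
  classical
  rintro s ⟨h1, h2, c, h3, h4, h5⟩
  have key : ∀ (Y : σ → ℂ) (w : h → ℂ) (ρ : r),
      ∑ l : σ → Fin (δ + 1), (∑ i, (Q ρ i).coeff (ex l) * w i) * ∏ y, Y y ^ (l y : ℕ) =
        ∑ i, MvPolynomial.eval Y (Q ρ i) * w i := by
    intro Y w ρ
    simp only [Finset.sum_mul, eval_eq _ (hQ ρ _)]
    rw [Finset.sum_comm]
    refine Finset.sum_congr rfl fun i _ => Finset.sum_congr rfl fun l _ => ?_
    ring
  refine ⟨h1, h2, c, h3, ?_, ?_⟩
  · intro ρ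
    rw [key]
    exact h4 ρ
  · rintro ⟨G, hG1, hG2⟩
    apply h5
    intro θ hθ ρ
    set P : MvPolynomial σ (MvPolynomial X ℂ) := ∑ l : σ → Fin (δ + 1),
      MvPolynomial.C (∑ i, MvPolynomial.C ((Q ρ i).coeff (ex l)) * MvPolynomial.map (algebraMap Qbar ℂ) (G i)) *
        ∏ y, MvPolynomial.X y ^ (l y : ℕ) with hP
    have hev : ∀ (x : X → ℂ) (Y : σ → ℂ), evX x Y P =
        ∑ l : σ → Fin (δ + 1), (∑ i, (Q ρ i).coeff (ex l) * MvPolynomial.aeval x (G i)) * ∏ y, Y y ^ (l y : ℕ) := by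
      intro x Y
      have h6 : evX x Y P = MvPolynomial.eval₂Hom (MvPolynomial.eval x) Y P := rfl
      rw [h6, hP]
      simp only [map_sum, map_mul, map_prod, map_pow, MvPolynomial.eval₂Hom_C, MvPolynomial.eval₂Hom_X',
        MvPolynomial.eval_C, MvPolynomial.eval_map]
      rfl
    have h6 : ∀ x ∈ U, evM f x P = 0 := by
      intro x hx
      have h7 := hG2 x hx ρ
      rw [evM_eq, hev]
      exact h7
    have h7 := hθ P h6 _ (hLU h2)
    rw [hev, key] at h7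
    simp only [hG1] at h7
    exact h7

theorem excG_cov {X : Type} [Fintype X] [DecidableEq X] [Nonempty X] {U : Set (X → ℂ)}
    {f : σ → (X → ℂ) → ℂ} (hU : IsPreconnected U) (hUo : IsOpen U) (hne : U.Nonempty)
    (hf : ∀ i, AnalyticOnNhd ℂ (f i) U) (hreg : RegularM U f) (Lc : Set (X → ℂ))
    (hLc : IsCompact Lc) (hLU : Lc ⊆ U) (δ : ℕ) (h r : Type) [Fintype h] [DecidableEq h] [Fintype r] [DecidableEq r]
    (m : ℕ) (A ε : ℝ) (hε : 0 < ε) : ∃ (D : ℕ) (C T₀ : ℝ), 0 ≤ C ∧ 2 ≤ T₀ ∧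
      ∀ (K : Type) [Field K] [NumberField K], Module.finrank ℚ K ≤ m → ∀ (io : K →+* ℂ)
        (Q : r → h → MvPolynomial σ ℂ), (∀ ρ i y, (Q ρ i).degreeOf y ≤ δ) → ∀ (T : ℝ), T₀ ≤ T →
        Cov D ⌊C * T ^ ε⌋₊ ((fun (s : X → K) j => io (s j)) '' ExcG Q U f Lc K io A T) := by
  classical
  obtain ⟨D, C, T₀, hC, hT₀, H⟩ := excM_cov stmZ stmClose stmCharts hU hUo hne hf hreg Lc hLc hLU δ h r m A ε hε
  refine ⟨D, C, T₀, hC, hT₀, fun K _ _ hK io Q hQ T hT0 => ?_⟩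
  exact (H K hK io (fun ρ l i => (Q ρ i).coeff (ex l)) T hT0).mono le_rfl le_rfl
    (Set.image_mono (excG_sub Q hQ hLU K io A T))

end Pool.Agent.U543.GS
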