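import Pool.Agent.U543.GalSys
import Pool.Agent.U543.GalDef

/-!
# De Rham-Betti classes and subobjects of bounded height are respected by the Galois group at almost all points
-/

set_option autoImplicit false
set_option linter.unusedSectionVars false

open NumberField Filter

namespace Pool.Agent.U543.GD

open Pool.Agent.Y890.MV
open Pool.Agent.Y124 (Cov)
open Pool.Agent.U543.GS (Resp ExcG excG_cov)

/-! ### tensor powers -/

theorem tensor_mul {α β γ : Type} [Fintype β] [DecidableEq β] (m : ℕ) (A : Matrix α β ℂ) (B : Matrix β γ ℂ) :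
    tensor m (A * B) = tensor m A * tensor m B := by
  ext I J
  simp only [tensor, Matrix.mul_apply]
  rw [Finset.prod_univ_sum]
  simp only [Fintype.piFinset_univ, Finset.prod_mul_distrib]

theorem sum_mul' {α β α' β' : Type} [Fintype α] [DecidableEq α] [Fintype α'] (C₀ : Matrix α β ℂ)
    (g : Matrix α' α' ℂ) (C : Matrix α' β' ℂ) :
    (sum 1 g : Matrix (α ⊕ α') (α ⊕ α') ℂ) * (sum C₀ C : Matrix (α ⊕ α') (β ⊕ β') ℂ) = sum C₀ (g * C) := by
  unfold sum
  rw [Matrix.fromBlocks_multiply]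
  simp

/-! ### the polynomials -/

section poly
variable {ι ι' α β : Type}

/-- the entries of `C₀ ⊕ P` as polynomials in the entries of `P` -/
noncomputable def ent (C₀ : Matrix α β ℂ) (i : α ⊕ ι) (j : β ⊕ ι') : MvPolynomial (ι × ι') ℂ :=
  match i, j with
  | Sum.inl a, Sum.inl b => MvPolynomial.C (C₀ a b)
  | Sum.inr i, Sum.inr j => MvPolynomial.X (i, j)
  | _, _ => 0

theorem ent_eval (C₀ : Matrix α β ℂ) (Y : Matrix ι ι' ℂ) (i : α ⊕ ι) (j : β ⊕ ι') :
    MvPolynomial.eval (fun p : ι × ι' => Y p.1 p.2) (ent C₀ i j) = sum C₀ Y i j := by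
  rcases i with i | i <;> rcases j with j | j <;> simp [ent, sum]

theorem ent_deg [DecidableEq ι] [DecidableEq ι'] (C₀ : Matrix α β ℂ) (i : α ⊕ ι) (j : β ⊕ ι') (y : ι × ι') :
    (ent C₀ i j).degreeOf y ≤ 1 := by
  rcases i with i | i <;> rcases j with j | j
  · simp [ent]
  · simp [ent]
  · simp [ent]
  · simp only [ent]
    rw [MvPolynomial.degreeOf_X]
    split_ifs <;> simp

/-- the entries of the tensor powers of `C₀ ⊕ P` as polynomials in the entries of `P` -/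
noncomputable def tent (m : ℕ) (C₀ : Matrix α β ℂ) (I : Fin m → α ⊕ ι) (J : Fin m → β ⊕ ι') : MvPolynomial (ι × ι') ℂ :=
  ∏ t, ent C₀ (I t) (J t)

theorem tent_eval (m : ℕ) (C₀ : Matrix α β ℂ) (Y : Matrix ι ι' ℂ) (I : Fin m → α ⊕ ι) (J : Fin m → β ⊕ ι') :
    MvPolynomial.eval (fun p : ι × ι' => Y p.1 p.2) (tent m C₀ I J) = tensor m (sum C₀ Y) I J := by
  simp only [tent, map_prod, ent_eval, tensor]

theorem tent_deg [DecidableEq ι] [DecidableEq ι'] (m : ℕ) (C₀ : Matrix α β ℂ) (I : Fin m → α ⊕ ι) (J : Fin m → β ⊕ ι')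
    (y : ι × ι') : (tent m C₀ I J).degreeOf y ≤ m := by
  refine (MvPolynomial.degreeOf_prod_le _ _ _).trans ?_
  refine (Finset.sum_le_card_nsmul _ _ 1 fun t _ => ent_deg C₀ _ _ y).trans ?_
  simp

end poly

/-! ### the action of the Galois group -/

theorem resp_of_gal {X ι ι' : Type} [Fintype X] [Fintype ι] [Fintype ι'] {U : Set (X → ℂ)}
    {P : (X → ℂ) → Matrix ι ι' ℂ} {g : Matrix ι ι ℂ} (hg : g ∈ Gal U P) :
    Resp U (fun (p : ι × ι') x => P x p.1 p.2)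
      (fun Y p => (g * Matrix.of fun i j => Y (i, j)) p.1 p.2) := by
  intro F hF x hx
  exact hg F hF x hx

variable {X ι ι' : Type} [Fintype X] [DecidableEq X] [Nonempty X] [Fintype ι] [DecidableEq ι] [Fintype ι'] [DecidableEq ι']

/-- points at which some class in the `m`-th tensor power is not invariant -/
def ExcC (U : Set (X → ℂ)) (P : (X → ℂ) → Matrix ι ι' ℂ) (k m : ℕ) (K : Type) [Field K] [NumberField K]
    (io : K →+* ℂ) (C₀ : Matrix (Fin k) (Fin k) ℂ) (T : ℝ) : Set (X → K) :=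
  {s | (∀ j, s j ∈ Height K T) ∧ (fun j => io (s j)) ∈ Inner U k ∧ ∃ g ∈ Gal U P,
    ¬ (∀ (F : (Fin m → Fin k ⊕ ι) → ℤ) (a : (Fin m → Fin k ⊕ ι') → 𝓞 K), (∀ i, |(F i : ℝ)| ≤ T ^ k) →
      (∀ j, house (a j : K) ≤ T ^ k) → IsClass K io (tensor m (sum C₀ (P fun j => io (s j)))) F a →
      (tensor m (sum 1 g)).mulVec (fun i => (F i : ℂ)) = fun i => (F i : ℂ))}

/-- points at which some subobject of the `m`-th tensor power is not stable -/
def ExcS (U : Set (X → ℂ)) (P : (X → ℂ) → Matrix ι ι' ℂ) (k m : ℕ) (K : Type) [Field K] [NumberField K]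
    (io : K →+* ℂ) (C₀ : Matrix (Fin k) (Fin k) ℂ) (T : ℝ) : Set (X → K) :=
  {s | (∀ j, s j ∈ Height K T) ∧ (fun j => io (s j)) ∈ Inner U k ∧ ∃ g ∈ Gal U P,
    ¬ (∀ (L : Matrix (Fin m → Fin k ⊕ ι) (Fin m → Fin k ⊕ ι) ℤ)
        (A : Matrix (Fin m → Fin k ⊕ ι') (Fin m → Fin k ⊕ ι') (𝓞 K)), (∀ i j, |(L i j : ℝ)| ≤ T ^ k) →
      (∀ i j, house (A i j : K) ≤ T ^ k) → IsSubobject K io (tensor m (sum C₀ (P fun j => io (s j)))) L A →
      ∀ v ∈ solutions L, (tensor m (sum 1 g)).mulVec v ∈ solutions L)}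

theorem exceptional_sub (U : Set (X → ℂ)) (P : (X → ℂ) → Matrix ι ι' ℂ) (k : ℕ) (K : Type) [Field K] [NumberField K]
    (io : K →+* ℂ) (C₀ : Matrix (Fin k) (Fin k) ℂ) (T : ℝ) :
    Exceptional U P k K io C₀ T ⊆ ⋃ m ∈ Finset.range (k + 1), (ExcC U P k m K io C₀ T ∪ ExcS U P k m K io C₀ T) := by
  rintro s ⟨h1, h2, m, hm, g, hg, h3⟩
  rw [Set.mem_iUnion₂]
  refine ⟨m, Finset.mem_range.2 (by omega), ?_⟩
  rw [Respects, not_and_or] at h3
  rcases h3 with h3 | h3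
  · exact Or.inl ⟨h1, h2, g, hg, h3⟩
  · exact Or.inr ⟨h1, h2, g, hg, h3⟩

theorem norm_le_of_house {K : Type} [Field K] [NumberField K] {x : K} {B : ℝ} (h : house x ≤ B) (φ : K →+* ℂ) :
    ‖φ x‖ ≤ B := (Y120.house_ge K x φ).trans h

/-- the system for the classes -/
noncomputable def QC (k m : ℕ) (C₀ : Matrix (Fin k) (Fin k) ℂ) (i : Fin m → Fin k ⊕ ι)
    (u : (Fin m → Fin k ⊕ ι) ⊕ (Fin m → Fin k ⊕ ι')) : MvPolynomial (ι × ι') ℂ :=
  match u with
  | Sum.inl i' => if i' = i then MvPolynomial.C (-1) else 0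
  | Sum.inr J => tent m C₀ i J

theorem QC_eval (k m : ℕ) (C₀ : Matrix (Fin k) (Fin k) ℂ) (Y : Matrix ι ι' ℂ) (i : Fin m → Fin k ⊕ ι)
    (F : (Fin m → Fin k ⊕ ι) → ℂ) (a : (Fin m → Fin k ⊕ ι') → ℂ) :
    ∑ u, MvPolynomial.eval (fun p : ι × ι' => Y p.1 p.2) (QC k m C₀ i u) * (Sum.elim F a u) =
      (tensor m (sum C₀ Y)).mulVec a i - F i := by
  rw [Fintype.sum_sum_type]
  simp only [QC, Sum.elim_inl, Sum.elim_inr, tent_eval, Matrix.mulVec, dotProduct]
  rw [Finset.sum_eq_single i]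
  · simp
    ring
  · intro b _ hb
    simp [hb]
  · simp

theorem excC_sub (U : Set (X → ℂ)) (P : (X → ℂ) → Matrix ι ι' ℂ) (k m : ℕ) (K : Type) [Field K]
    [NumberField K] (io : K →+* ℂ) (C₀ : Matrix (Fin k) (Fin k) ℂ) (T : ℝ) :
    ExcC U P k m K io C₀ T ⊆ ExcG (QC (ι' := ι') k m C₀) U (fun (p : ι × ι') x => P x p.1 p.2) (InnerM U k) K io (k : ℝ) T := by
  rintro s ⟨h1, h2, g, hg, h3⟩
  push Not at h3
  obtain ⟨F, a, hF, ha, hcl, hne⟩ := h3
  refine ⟨h1, h2, Sum.elim (fun i => (F i : 𝓞 K)) a, ?_, ?_, ?_⟩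
  · rintro (i | j) φ
    · rw [Real.rpow_natCast]
      simpa using hF i
    · rw [Real.rpow_natCast]
      exact norm_le_of_house (ha j) φ
  · intro i
    have h4 := QC_eval k m C₀ (P fun j => io (s j)) i (fun i => (F i : ℂ)) (fun j => io (a j : K))
    have h5 : (fun u => io ((Sum.elim (fun i => (F i : 𝓞 K)) a u : 𝓞 K) : K)) =
        Sum.elim (fun i => (F i : ℂ)) (fun j => io (a j : K)) := by
      funext u
      rcases u with u | u
      · simp
      · simp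
    have h6 : ∀ u, io ((Sum.elim (fun i => (F i : 𝓞 K)) a u : 𝓞 K) : K) =
        Sum.elim (fun i => (F i : ℂ)) (fun j => io (a j : K)) u := fun u => congrFun h5 u
    simp only [h6]
    rw [h4]
    have h7 := congrFun hcl i
    rw [sub_eq_zero]
    exact h7
  · intro hθ
    apply hne
    have h8 := hθ _ (resp_of_gal hg)
    funext i
    have h4 := QC_eval k m C₀ (g * P fun j => io (s j)) i (fun i => (F i : ℂ)) (fun j => io (a j : K))
    have h6 : ∀ u, io ((Sum.elim (fun i => (F i : 𝓞 K)) a u : 𝓞 K) : K) =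
        Sum.elim (fun i => (F i : ℂ)) (fun j => io (a j : K)) u := by
      intro u
      rcases u with u | u <;> simp
    have h9 := h8 i
    simp only [h6] at h9
    have h10 : (tensor m (sum C₀ (g * P fun j => io (s j)))).mulVec (fun j => io (a j : K)) i - (F i : ℂ) = 0 := by
      rw [← h4]
      exact h9
    rw [← sum_mul' C₀ g, tensor_mul, ← Matrix.mulVec_mulVec] at h10
    have h11 : (tensor m (sum C₀ (P fun j => io (s j)))).mulVec (fun j => io (a j : K)) = fun i => (F i : ℂ) := hcl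
    rw [h11, sub_eq_zero] at h10
    exact h10

/-- the system for the subobjects -/
noncomputable def QS (k m : ℕ) (C₀ : Matrix (Fin k) (Fin k) ℂ) (r : (Fin m → Fin k ⊕ ι) × (Fin m → Fin k ⊕ ι'))
    (u : ((Fin m → Fin k ⊕ ι) × (Fin m → Fin k ⊕ ι)) × ((Fin m → Fin k ⊕ ι') × (Fin m → Fin k ⊕ ι'))) :
    MvPolynomial (ι × ι') ℂ :=
  if u.1.1 = r.1 ∧ u.2.2 = r.2 then tent m C₀ u.1.2 u.2.1 else 0

theorem QS_eval (k m : ℕ) (C₀ : Matrix (Fin k) (Fin k) ℂ) (Y : Matrix ι ι' ℂ)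
    (r : (Fin m → Fin k ⊕ ι) × (Fin m → Fin k ⊕ ι'))
    (L : Matrix (Fin m → Fin k ⊕ ι) (Fin m → Fin k ⊕ ι) ℂ) (A : Matrix (Fin m → Fin k ⊕ ι') (Fin m → Fin k ⊕ ι') ℂ) :
    ∑ u, MvPolynomial.eval (fun p : ι × ι' => Y p.1 p.2) (QS k m C₀ r u) * (L u.1.1 u.1.2 * A u.2.1 u.2.2) =
      (L * (tensor m (sum C₀ Y) * A)) r.1 r.2 := by
  classical
  rw [Fintype.sum_prod_type]
  simp only [Fintype.sum_prod_type, QS]
  rw [Finset.sum_eq_single r.1]
  · rw [Matrix.mul_apply]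
    refine Finset.sum_congr rfl fun i _ => ?_
    rw [Matrix.mul_apply, Finset.mul_sum]
    refine Finset.sum_congr rfl fun j _ => ?_
    rw [Finset.sum_eq_single r.2]
    · simp only [and_self, if_true, tent_eval]
      ring
    · intro b _ hb
      simp [hb]
    · simp
  · intro b _ hb
    simp [hb]
  · simp

theorem excS_sub (U : Set (X → ℂ)) (P : (X → ℂ) → Matrix ι ι' ℂ) (k m : ℕ) (K : Type) [Field K]
    [NumberField K] (io : K →+* ℂ) (C₀ : Matrix (Fin k) (Fin k) ℂ) (T : ℝ) (hT : 0 < T) :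
    ExcS U P k m K io C₀ T ⊆ ExcG (QS (ι' := ι') k m C₀) U (fun (p : ι × ι') x => P x p.1 p.2) (InnerM U k) K io
      ((2 * k : ℕ) : ℝ) T := by
  rintro s ⟨h1, h2, g, hg, h3⟩
  push Not at h3
  obtain ⟨L, A, hL, hA, hsub, v, hv, hne⟩ := h3
  set L' : Matrix (Fin m → Fin k ⊕ ι) (Fin m → Fin k ⊕ ι) ℂ := L.map (Int.cast : ℤ → ℂ) with hL'
  set A' : Matrix (Fin m → Fin k ⊕ ι') (Fin m → Fin k ⊕ ι') ℂ := A.map fun a => io (a : K) with hA'
  have hcast : ∀ u : ((Fin m → Fin k ⊕ ι) × (Fin m → Fin k ⊕ ι)) × ((Fin m → Fin k ⊕ ι') × (Fin m → Fin k ⊕ ι')),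
      io (((L u.1.1 u.1.2 : 𝓞 K) * A u.2.1 u.2.2 : 𝓞 K) : K) = L' u.1.1 u.1.2 * A' u.2.1 u.2.2 := by
    intro u
    simp [hL', hA']
  refine ⟨h1, h2, fun u => (L u.1.1 u.1.2 : 𝓞 K) * A u.2.1 u.2.2, ?_, ?_, ?_⟩
  · intro u φ
    rw [Real.rpow_natCast, two_mul, pow_add]
    have e1 : φ (((L u.1.1 u.1.2 : 𝓞 K) * A u.2.1 u.2.2 : 𝓞 K) : K) = (L u.1.1 u.1.2 : ℂ) * φ (A u.2.1 u.2.2 : K) := by
      simp
    rw [e1, norm_mul]
    refine mul_le_mul ?_ (norm_le_of_house (hA _ _) φ) (norm_nonneg _) (by positivity)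
    simpa using hL u.1.1 u.1.2
  · intro r
    simp only [hcast]
    rw [QS_eval k m C₀ (P fun j => io (s j)) r L' A']
    have h4 : L' * (tensor m (sum C₀ (P fun j => io (s j))) * A') = 0 := by
      ext i j
      have h5 : (tensor m (sum C₀ (P fun j => io (s j))) * A').mulVec (Pi.single j 1) ∈ solutions L := by
        rw [← hsub]
        exact ⟨_, rfl⟩
      have h6 : L'.mulVec ((tensor m (sum C₀ (P fun j => io (s j))) * A').mulVec (Pi.single j 1)) = 0 := h5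
      rw [Matrix.mulVec_mulVec] at h6
      have h7 := congrFun h6 i
      rw [Matrix.mulVec_single_one] at h7
      exact h7
    rw [h4]
    rfl
  · intro hθ
    apply hne
    have h8 := hθ _ (resp_of_gal hg)
    have h9 : L' * (tensor m (sum C₀ (g * P fun j => io (s j))) * A') = 0 := by
      ext i j
      have h10 := h8 (i, j)
      simp only [hcast] at h10
      have h11 := QS_eval k m C₀ (g * P fun j => io (s j)) (i, j) L' A'
      rw [Matrix.zero_apply, ← h11]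
      exact h10
    rw [← hsub] at hv
    obtain ⟨w, rfl⟩ := hv
    change L'.mulVec ((tensor m (sum 1 g)).mulVec ((tensor m (sum C₀ (P fun j => io (s j))) * A').mulVec w)) = 0
    rw [Matrix.mulVec_mulVec, Matrix.mulVec_mulVec, Matrix.mul_assoc, ← Matrix.mul_assoc (tensor m (sum 1 g)), ← tensor_mul,
      sum_mul', h9, Matrix.zero_mulVec]

end Pool.Agent.U543.GD
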