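import Pool.Agent.U543.GalDef

/-!
# Inverses of uniformisations: definitions

`x` are algebraic coordinates of a variety `S`, and `z x` is a branch of the inverse of a uniformisation `u : 𝒟 → S`,
`𝒟 ⊆ ℂ ^ σ`.
-/

set_option autoImplicit false

open NumberField

namespace Pool.Agent.U543.HS

open Pool.Agent.U543.GD (Height Inner Continuation)

variable {X σ ι : Type} [Fintype X] [Fintype σ] [Fintype ι]

/-- The functions `z` as a matrix with one row. -/
def row (z : (X → ℂ) → σ → ℂ) : (X → ℂ) → Matrix Unit σ ℂ := fun x => Matrix.of fun _ j => z x j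

/-- The values at `s` of the analytic continuations of `z` (for the inverse of a uniformisation: points over `s`). -/
def Lifts (U : Set (X → ℂ)) (z : (X → ℂ) → σ → ℂ) (s : X → ℂ) : Set (σ → ℂ) :=
  {w | ∃ (V : Set (X → ℂ)) (Q : (X → ℂ) → Matrix Unit σ ℂ), Continuation U (row z) V Q ∧ s ∈ V ∧ w = Q s ()}

/-- The rational map with the coordinates `N i / N₀`. -/
noncomputable def rat (N₀ : MvPolynomial σ ℂ) (N : ι → MvPolynomial σ ℂ) (w : σ → ℂ) : ι → ℂ :=
  fun i => MvPolynomial.eval w (N i) / MvPolynomial.eval w N₀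

/-- The subspace of `ℂ ^ ι` with the equations given by the rows of `L`; all subspaces rational over `K` are of this
form. -/
def subspace (K : Type) [Field K] (io : K →+* ℂ) (L : Matrix ι ι (𝓞 K)) : Set (ι → ℂ) :=
  {v | (L.map fun a => io (a : K)).mulVec v = 0}

/-- The points `s` of `U` with coordinates in `K` of height at most `T`, of norm at most `k` and at distance at least
`1 / k` from the complement of `U`, such that some subspace of `ℂ ^ ι`, with equations with coefficients in the integers
of `K` all conjugates of which are at most `T ^ k`, contains the point `N / N₀ (z s)` but not all the points `N / N₀ (w)`,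
`w` the values at `s` of the analytic continuations of `z`. -/
def Exceptional (U : Set (X → ℂ)) (z : (X → ℂ) → σ → ℂ) (k : ℕ) (K : Type) [Field K] [NumberField K] (io : K →+* ℂ)
    (N₀ : MvPolynomial σ ℂ) (N : ι → MvPolynomial σ ℂ) (T : ℝ) : Set (X → K) :=
  {s | (∀ j, s j ∈ Height K T) ∧ (fun j => io (s j)) ∈ Inner U k ∧
    MvPolynomial.eval (z fun j => io (s j)) N₀ ≠ 0 ∧ ∃ L : Matrix ι ι (𝓞 K), (∀ i j, house (L i j : K) ≤ T ^ k) ∧
      rat N₀ N (z fun j => io (s j)) ∈ subspace K io L ∧
      ∃ w ∈ Lifts U z fun j => io (s j), MvPolynomial.eval w N₀ ≠ 0 ∧ rat N₀ N w ∉ subspace K io L}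

end Pool.Agent.U543.HS
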