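import Pool.Agent.U543.HsDef
import Pool.Agent.U543.GalMain

/-!
# Subspaces containing the logarithms of algebraic points contain all of them
-/

set_option autoImplicit false
set_option linter.unusedSectionVars false

open NumberField Filter

namespace Pool.Agent.U543.HS

open Pool.Agent.Y890.MV
open Pool.Agent.Y124 (Cov)
open Pool.Agent.Y890.SP (Qbar)
open Pool.Agent.U543.GS (ex eval_eq)
open Pool.Agent.U543.GD (Family Height Inner Continuation val continuation_val regularM)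

variable {X σ ι : Type} [Fintype X] [DecidableEq X] [Nonempty X] [Fintype σ] [DecidableEq σ] [Fintype ι] [DecidableEq ι]

/-- the functions -/
def fn (z : (X → ℂ) → σ → ℂ) (p : Unit × σ) (x : X → ℂ) : ℂ := z x p.2

/-- the coefficients -/
noncomputable def cf (δ : ℕ) (N : ι → MvPolynomial σ ℂ) (_ : Unit) (l : Unit × σ → Fin (δ + 1)) (i : ι) : ℂ :=
  (N i).coeff (ex fun y => l ((), y))

theorem cf_eval {δ : ℕ} {N : ι → MvPolynomial σ ℂ} (hN : ∀ i y, (N i).degreeOf y ≤ δ) (w : σ → ℂ) (c : ι → ℂ) :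
    ∑ l : Unit × σ → Fin (δ + 1), (∑ i, cf δ N () l i * c i) * ∏ p : Unit × σ, w p.2 ^ (l p : ℕ) =
      ∑ i, c i * MvPolynomial.eval w (N i) := by
  classical
  let e : (Unit × σ → Fin (δ + 1)) ≃ (σ → Fin (δ + 1)) :=
    (Equiv.arrowCongr (Equiv.punitProd σ) (Equiv.refl _))
  have he : ∀ l : Unit × σ → Fin (δ + 1), e l = fun y => l ((), y) := fun l => rfl
  have h1 : ∀ l : Unit × σ → Fin (δ + 1), ∏ p : Unit × σ, w p.2 ^ (l p : ℕ) = ∏ y, w y ^ (e l y : ℕ) := by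
    intro l
    rw [Fintype.prod_prod_type]
    simp [he]
  simp only [h1]
  have h2 := Fintype.sum_equiv e
    (fun l => (∑ i, cf δ N () l i * c i) * ∏ y, w y ^ (e l y : ℕ))
    (fun l : σ → Fin (δ + 1) => (∑ i, (N i).coeff (ex l) * c i) * ∏ y, w y ^ (l y : ℕ)) (fun l => rfl)
  rw [h2]
  simp only [Finset.sum_mul]
  rw [Finset.sum_comm]
  refine Finset.sum_congr rfl fun i _ => ?_
  rw [eval_eq (N i) (hN i), Finset.mul_sum]
  refine Finset.sum_congr rfl fun l _ => ?_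
  ring

theorem mem_subspace {K : Type} [Field K] (io : K →+* ℂ) (L : Matrix ι ι (𝓞 K)) {N₀ : MvPolynomial σ ℂ}
    {N : ι → MvPolynomial σ ℂ} {w : σ → ℂ} (h0 : MvPolynomial.eval w N₀ ≠ 0) :
    rat N₀ N w ∈ subspace K io L ↔ ∀ a, ∑ i, io (L a i : K) * MvPolynomial.eval w (N i) = 0 := by
  have h1 : ∀ a, (L.map fun a => io (a : K)).mulVec (rat N₀ N w) a =
      (∑ i, io (L a i : K) * MvPolynomial.eval w (N i)) / MvPolynomial.eval w N₀ := by
    intro a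
    simp only [Matrix.mulVec, dotProduct, Matrix.map_apply, rat, Finset.sum_div]
    exact Finset.sum_congr rfl fun i _ => (mul_div_assoc _ _ _).symm
  constructor
  · intro h a
    have h2 := congrFun h a
    rw [h1, Pi.zero_apply, div_eq_zero_iff] at h2
    exact h2.resolve_right h0
  · intro h
    funext a
    rw [h1, h a, zero_div]
    rfl

theorem exc_sub {U : Set (X → ℂ)} {z : (X → ℂ) → σ → ℂ} (h : Family U (row z)) {k : ℕ} (K : Type) [Field K]
    [NumberField K] (io : K →+* ℂ) {N₀ : MvPolynomial σ ℂ} {N : ι → MvPolynomial σ ℂ}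
    (hN : ∀ i y, (N i).degreeOf y ≤ k) (T : ℝ) :
    Exceptional U z k K io N₀ N T ⊆ ExcM U (fn z) (InnerM U k) K io (cf k N) (k : ℝ) T := by
  classical
  rintro s ⟨h1, h2, h3, L, hL, hmem, w, ⟨V, Q, hV, hsV, hw⟩, hw0, hno⟩
  rw [mem_subspace io L h3] at hmem
  rw [mem_subspace io L hw0] at hno
  push Not at hno
  obtain ⟨a, ha⟩ := hno
  refine ⟨h1, h2, fun i => L a i, ?_, ?_, ?_⟩
  · intro i φ
    rw [Real.rpow_natCast]
    exact Pool.Agent.U543.GD.norm_le_of_house (hL a i) φ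
  · rintro ⟨⟩
    exact (cf_eval hN (z fun j => io (s j)) (fun i => io (L a i : K))).trans (hmem a)
  · rintro ⟨G, hG1, hG2⟩
    apply ha
    obtain ⟨F, hF⟩ : ∃ F : MvPolynomial (Unit × σ) (MvPolynomial X ℂ), F = ∑ l : Unit × σ → Fin (k + 1),
      MvPolynomial.C (∑ i, MvPolynomial.C (cf k N () l i) * MvPolynomial.map (algebraMap Qbar ℂ) (G i)) *
        ∏ y, MvPolynomial.X y ^ (l y : ℕ) := ⟨_, rfl⟩
    have hev : ∀ (x : X → ℂ) (Y : Matrix Unit σ ℂ), val F x Y =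
        ∑ l : Unit × σ → Fin (k + 1), (∑ i, cf k N () l i * MvPolynomial.aeval x (G i)) *
          ∏ p : Unit × σ, (Y () p.2) ^ (l p : ℕ) := by
      intro x Y
      have h6 : val F x Y = MvPolynomial.eval₂Hom (MvPolynomial.eval x) (fun p : Unit × σ => Y p.1 p.2) F := rfl
      rw [h6, hF]
      simp only [map_sum, map_mul, map_prod, map_pow, MvPolynomial.eval₂Hom_C, MvPolynomial.eval₂Hom_X',
        MvPolynomial.eval_C, MvPolynomial.eval_map]
      rfl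
    have h6 : ∀ x ∈ U, val F x (row z x) = 0 := by
      intro x hx
      rw [hev]
      exact hG2 x hx ()
    have h7 := continuation_val h.analytic hV F h6 _ hsV
    rw [hev] at h7
    simp only [hG1] at h7
    have h8 := cf_eval hN w (fun i => io (L a i : K))
    rw [← h8, hw]
    exact h7

theorem regularF {U : Set (X → ℂ)} {z : (X → ℂ) → σ → ℂ} (h : Family U (row z)) : RegularM U (fn z) :=
  regularM h.regular

theorem hs_cov {U : Set (X → ℂ)} {z : (X → ℂ) → σ → ℂ} (h : Family U (row z)) (k : ℕ) (ε : ℝ) (hε : 0 < ε) :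
    ∃ (D : ℕ) (C T₀ : ℝ), 0 ≤ C ∧ 2 ≤ T₀ ∧
      ∀ (K : Type) [Field K] [NumberField K], Module.finrank ℚ K ≤ k → ∀ (io : K →+* ℂ)
        (p : {p : MvPolynomial σ ℂ × (ι → MvPolynomial σ ℂ) // ∀ i y, (p.2 i).degreeOf y ≤ k}) (T : ℝ), T₀ ≤ T →
        Cov D ⌊C * T ^ ε⌋₊ ((fun (s : X → K) j => io (s j)) '' Exceptional U z k K io p.1.1 p.1.2 T) := by
  classical
  rcases Nat.eq_zero_or_pos k with hk | hk
  · refine ⟨0, 0, 2, le_rfl, le_rfl, ?_⟩
    intro K _ _ hK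
    have h1 : 0 < Module.finrank ℚ K := Module.finrank_pos
    omega
  have hf : ∀ p : Unit × σ, AnalyticOnNhd ℂ (fn z p) U := fun p => h.analytic p.1 p.2
  obtain ⟨D, C, T₀, hC, hT₀, H⟩ := excM_cov stmZ stmClose stmCharts h.isPreconnected h.isOpen h.nonempty hf
    (regularF h) (InnerM U k) (innerM_compact _ _) (innerM_sub _ hk) k ι Unit k (k : ℝ) ε hε
  exact ⟨D, C, T₀, hC, hT₀, fun K _ _ hK io p T hT =>
    (H K hK io (cf k p.1.2) T hT).mono le_rfl le_rfl (Set.image_mono (exc_sub h K io p.2 T))⟩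

/-- fixed bounds -/
theorem hs_fix {U : Set (X → ℂ)} {z : (X → ℂ) → σ → ℂ} (h : Family U (row z)) (k : ℕ) (ε : ℝ) (hε : 0 < ε) :
    ∃ (D : ℕ) (C T₀ : ℝ), 0 ≤ C ∧ 2 ≤ T₀ ∧ ∀ T, T₀ ≤ T →
      ∀ (K : Type) [Field K] [NumberField K], Module.finrank ℚ K ≤ k → ∀ (io : K →+* ℂ) (N₀ : MvPolynomial σ ℂ)
        (N : ι → MvPolynomial σ ℂ), (∀ i y, (N i).degreeOf y ≤ k) →
        Cov D ⌊C * T ^ ε⌋₊ ((fun (s : X → K) j => io (s j)) '' Exceptional U z k K io N₀ N T) ∧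
        (Exceptional U z k K io N₀ N T).Finite ∧
        ((Exceptional U z k K io N₀ N T).ncard : ℝ) ≤
          D * C * T ^ ε * ((Height K T).ncard : ℝ) ^ (Fintype.card X - 1) := by
  obtain ⟨D, C, T₀, hC, hT₀, H⟩ := hs_cov (ι := ι) h k ε hε
  refine ⟨D, C, T₀, hC, hT₀, fun T hT K _ _ hK io N₀ N hN => ?_⟩
  have hTp : 0 < T := by linarith
  have h1 := H K hK io ⟨(N₀, N), hN⟩ T hT
  obtain ⟨h2, h3⟩ := cov_count io {x : K | Y120.HtLe K T x} (Y120.HtLe_fin K T) _ (fun s hs => hs.1) h1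
  refine ⟨h1, h2, ?_⟩
  have h4 : ((Exceptional U z k K io N₀ N T).ncard : ℝ) ≤
      (⌊C * T ^ ε⌋₊ : ℝ) * (D * ((Height K T).ncard : ℝ) ^ (Fintype.card X - 1)) := by
    exact_mod_cast h3
  have h5 : ((⌊C * T ^ ε⌋₊ : ℕ) : ℝ) ≤ C * T ^ ε := Nat.floor_le (by positivity)
  refine h4.trans ((mul_le_mul_of_nonneg_right h5 (by positivity)).trans (le_of_eq ?_))
  ring

/-- growing bounds -/
theorem hs_grow {U : Set (X → ℂ)} {z : (X → ℂ) → σ → ℂ} (h : Family U (row z)) :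
    ∃ (ω : ℝ → ℕ) (T₀ : ℝ), Tendsto ω atTop atTop ∧ Monotone ω ∧ ∀ T, T₀ ≤ T → 0 < ω T ∧
      ∀ (K : Type) [Field K] [NumberField K], Module.finrank ℚ K ≤ ω T → ∀ (io : K →+* ℂ) (N₀ : MvPolynomial σ ℂ)
        (N : ι → MvPolynomial σ ℂ), (∀ i y, (N i).degreeOf y ≤ ω T) →
        Cov ⌊T ^ ((ω T : ℝ)⁻¹)⌋₊ ⌊T ^ ((ω T : ℝ)⁻¹)⌋₊
          ((fun (s : X → K) j => io (s j)) '' Exceptional U z (ω T) K io N₀ N T) ∧
        (Exceptional U z (ω T) K io N₀ N T).Finite ∧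
        ((Exceptional U z (ω T) K io N₀ N T).ncard : ℝ) ≤
          T ^ ((ω T : ℝ)⁻¹) * ((Height K T).ncard : ℝ) ^ (Fintype.card X - 1) := by
  obtain ⟨ω, T₀, h1, h2, h3⟩ := omega_gen
    (fun k => {p : MvPolynomial σ ℂ × (ι → MvPolynomial σ ℂ) // ∀ i y, (p.2 i).degreeOf y ≤ k})
    (fun k K _ _ io p T => Exceptional U z k K io p.1.1 p.1.2 T) (fun k K _ _ io p T s hs => hs.1)
    (fun k ε hε => hs_cov h k ε hε)
  exact ⟨ω, T₀, h1, h2, fun T hT => ⟨(h3 T hT).1, fun K _ _ hK io N₀ N hN => (h3 T hT).2 K hK io ⟨(N₀, N), hN⟩⟩⟩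

/-- if the values span, the subspace is the whole space -/
theorem hs_span {U : Set (X → ℂ)} {z : (X → ℂ) → σ → ℂ} {k : ℕ} {K : Type} [Field K] [NumberField K] {io : K →+* ℂ}
    {N₀ : MvPolynomial σ ℂ} {N : ι → MvPolynomial σ ℂ} {T : ℝ} {s : X → K} (hs : ∀ j, s j ∈ Height K T)
    (hs' : (fun j => io (s j)) ∈ Inner U k) (h0 : MvPolynomial.eval (z fun j => io (s j)) N₀ ≠ 0)
    (hspan : Submodule.span ℂ {v | ∃ w ∈ Lifts U z fun j => io (s j), MvPolynomial.eval w N₀ ≠ 0 ∧ v = rat N₀ N w} = ⊤)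
    (hexc : s ∉ Exceptional U z k K io N₀ N T) (L : Matrix ι ι (𝓞 K)) (hL : ∀ i j, house (L i j : K) ≤ T ^ k)
    (hmem : rat N₀ N (z fun j => io (s j)) ∈ subspace K io L) : subspace K io L = Set.univ := by
  classical
  have h1 : ∀ w ∈ Lifts U z fun j => io (s j), MvPolynomial.eval w N₀ ≠ 0 → rat N₀ N w ∈ subspace K io L := by
    intro w hw hw0
    by_contra hno
    exact hexc ⟨hs, hs', h0, L, hL, hmem, w, hw, hw0, hno⟩
  have h2 : Submodule.span ℂ {v | ∃ w ∈ Lifts U z fun j => io (s j), MvPolynomial.eval w N₀ ≠ 0 ∧ v = rat N₀ N w} ≤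
      LinearMap.ker (Matrix.mulVecLin (L.map fun a => io (a : K))) := by
    rw [Submodule.span_le]
    rintro v ⟨w, hw, hw0, rfl⟩
    exact h1 w hw hw0
  rw [hspan, top_le_iff] at h2
  ext v
  simp only [Set.mem_univ, iff_true]
  have h3 : v ∈ LinearMap.ker (Matrix.mulVecLin (L.map fun a => io (a : K))) := by
    rw [h2]
    exact Submodule.mem_top
  exact h3

end Pool.Agent.U543.HS
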