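import Pool.Agent.U543.GalDef

/-!
# Hodge tensors of polarised variations of Hodge structure: definitions

The rows of the period matrix `M` of a Hodge structure correspond to a basis of the lattice (homology), the columns to a
basis of the de Rham cohomology which is adapted to the Hodge filtration.
-/

set_option autoImplicit false

open NumberField

namespace Pool.Agent.U543.HT

open Pool.Agent.U543.GD (Gal Family Height Inner tensor sum)

variable {α : Type} [Fintype α] [DecidableEq α]

/-- `M` is the period matrix of a Hodge structure of weight `wt`, polarised by `S`, the `j`-th column of which is in the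
step `F ^ (w j)` of the Hodge filtration: there is a basis of the complex cohomology (the columns `f_k` of `M * A`), `f_k`
being in `F ^ (p k)` and in the complex conjugate of `F ^ (wt - p k)`, which is orthonormal for the Hermitian form given
by `S` and the Weil operator, that is `S = ∑ i ^ (wt - 2 p k) f_k ⊗ conj(f_k)`. -/
def Polarized (wt : ℤ) (w : α → ℤ) (S : Matrix α α ℤ) (M : Matrix α α ℂ) : Prop :=
  ∃ (p : α → ℤ) (A B : Matrix α α ℂ), IsUnit (M * A) ∧ (∀ j k, w j < p k → A j k = 0) ∧
    (∀ j k, w j < wt - p k → B j k = 0) ∧ (M * A).map (starRingEnd ℂ) = M * B ∧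
    S.map (Int.cast : ℤ → ℂ) =
      M * A * Matrix.diagonal (fun k => Complex.I ^ (wt - 2 * p k)) * (M * A).conjTranspose

/-- The integral tensor `v` of order `m` is a Hodge tensor: its periods over the differentials in the step of the Hodge
filtration beyond the middle are zero. -/
def IsHodge (wt : ℤ) (w : α → ℤ) (M : Matrix α α ℂ) {m : ℕ} (v : (Fin m → α) → ℤ) : Prop :=
  ∀ J : Fin m → α, (m : ℤ) * wt < 2 * ∑ t, w (J t) →
    Matrix.vecMul (fun I => (v I : ℂ)) (tensor m M) J = 0

variable {X ι : Type} [Fintype X] [Fintype ι] [DecidableEq ι]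

/-- A polarised variation of Hodge structure of weight `wt` on the open set `U`, with the period matrices `P x`. -/
structure Variation (wt : ℤ) (w : ι → ℤ) (S : Matrix ι ι ℤ) (U : Set (X → ℂ)) (P : (X → ℂ) → Matrix ι ι ℂ) : Prop where
  family : Family U P
  polarized : ∀ x ∈ U, Polarized wt w S (P x)

/-- The integral matrices in the Galois group of the family which preserve `S`. -/
def Auts (U : Set (X → ℂ)) (P : (X → ℂ) → Matrix ι ι ℂ) (S : Matrix ι ι ℤ) : Set (Matrix ι ι ℤ) :=
  {g | g.map (Int.cast : ℤ → ℂ) ∈ Gal U P ∧ g * S * g.transpose = S}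

/-- The orbit of the tensor `v` of order `m` of `M₀ ⊕ V` under the tensor powers of the matrices `1 ⊕ g`, `g ∈ Γ`. -/
def orbit {r m : ℕ} (Γ : Set (Matrix ι ι ℤ)) (v : (Fin m → Fin r ⊕ ι) → ℤ) : Set ((Fin m → Fin r ⊕ ι) → ℤ) :=
  {u | ∃ g ∈ Γ, (fun I => (u I : ℂ)) =
    Matrix.vecMul (fun I => (v I : ℂ)) (tensor m (sum 1 (g.map (Int.cast : ℤ → ℂ))))}

/-- The exceptional points: points `s` of `U` with coordinates in `K` of height at most `T`, of norm at most `k` and at
distance at least `1 / k` from the complement of `U`, such that for some `m ≤ k` some Hodge tensor of order `m` of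
`M₀ ⊕ V_s`, with coordinates of absolute value at most `T ^ k`, has an infinite orbit; here `V_s` is the fibre at `s`, and
`C₀` is the period matrix of the Hodge structure `M₀`. -/
def Exceptional (wt : ℤ) (w : ι → ℤ) (S : Matrix ι ι ℤ) (U : Set (X → ℂ)) (P : (X → ℂ) → Matrix ι ι ℂ) (k : ℕ)
    (K : Type) [Field K] [NumberField K] (io : K →+* ℂ) {r : ℕ} (w₀ : Fin r → ℤ) (C₀ : Matrix (Fin r) (Fin r) ℂ)
    (T : ℝ) : Set (X → K) :=
  {s | (∀ j, s j ∈ Height K T) ∧ (fun j => io (s j)) ∈ Inner U k ∧
    ∃ m ≤ k, ∃ v : (Fin m → Fin r ⊕ ι) → ℤ, (∀ I, |(v I : ℝ)| ≤ T ^ k) ∧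
      IsHodge wt (Sum.elim w₀ w) (sum C₀ (P fun j => io (s j))) v ∧ ¬ (orbit (Auts U P S) v).Finite}

end Pool.Agent.U543.HT
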