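import Pool.Agent.U543.HtPol

/-!
# Hodge tensors of bounded order and height have finite orbits, at almost all points
-/

set_option autoImplicit false
set_option linter.unusedSectionVars false

open NumberField Filter

namespace Pool.Agent.U543.HT

open Pool.Agent.Y890.MV
open Pool.Agent.Y124 (Cov)
open Pool.Agent.U543.GS (Resp ExcG excG_cov)
open Pool.Agent.U543.GD (Gal Family Height Inner tensor sum tensor_mul sum_mul' tent tent_eval tent_deg resp_of_gal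
  cov_fin regularM gal_of_monodromy IsMonodromy)

variable {X ι : Type} [Fintype X] [DecidableEq X] [Nonempty X] [Fintype ι] [DecidableEq ι]

/-- the system -/
noncomputable def QH (wt : ℤ) (w : ι → ℤ) {r : ℕ} (m : ℕ) (w₀ : Fin r → ℤ) (C₀ : Matrix (Fin r) (Fin r) ℂ)
    (J I : Fin m → Fin r ⊕ ι) : MvPolynomial (ι × ι) ℂ :=
  if (m : ℤ) * wt < 2 * ∑ t, Sum.elim w₀ w (J t) then tent m C₀ I J else 0

theorem QH_deg (wt : ℤ) (w : ι → ℤ) {r : ℕ} (m : ℕ) (w₀ : Fin r → ℤ) (C₀ : Matrix (Fin r) (Fin r) ℂ)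
    (J I : Fin m → Fin r ⊕ ι) (y : ι × ι) : (QH wt w m w₀ C₀ J I).degreeOf y ≤ m := by
  unfold QH
  split_ifs
  · exact tent_deg m C₀ _ _ y
  · simp

theorem QH_eval (wt : ℤ) (w : ι → ℤ) {r : ℕ} (m : ℕ) (w₀ : Fin r → ℤ) (C₀ : Matrix (Fin r) (Fin r) ℂ)
    (J : Fin m → Fin r ⊕ ι) (Y : Matrix ι ι ℂ) (u : (Fin m → Fin r ⊕ ι) → ℂ)
    (hJ : (m : ℤ) * wt < 2 * ∑ t, Sum.elim w₀ w (J t)) :
    ∑ I, MvPolynomial.eval (fun p : ι × ι => Y p.1 p.2) (QH wt w m w₀ C₀ J I) * u I =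
      Matrix.vecMul u (tensor m (sum C₀ Y)) J := by
  simp only [QH, if_pos hJ, tent_eval, Matrix.vecMul, dotProduct]
  exact Finset.sum_congr rfl fun I _ => mul_comm _ _

theorem QH_eval0 (wt : ℤ) (w : ι → ℤ) {r : ℕ} (m : ℕ) (w₀ : Fin r → ℤ) (C₀ : Matrix (Fin r) (Fin r) ℂ)
    (J : Fin m → Fin r ⊕ ι) (Y : Matrix ι ι ℂ) (u : (Fin m → Fin r ⊕ ι) → ℂ)
    (hJ : ¬ (m : ℤ) * wt < 2 * ∑ t, Sum.elim w₀ w (J t)) :
    ∑ I, MvPolynomial.eval (fun p : ι × ι => Y p.1 p.2) (QH wt w m w₀ C₀ J I) * u I = 0 := by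
  simp only [QH, if_neg hJ, map_zero, zero_mul, Finset.sum_const_zero]

/-- points at which some Hodge tensor is not a Hodge tensor for some `g P` -/
def ExcH (wt : ℤ) (w : ι → ℤ) (U : Set (X → ℂ)) (P : (X → ℂ) → Matrix ι ι ℂ) (k m : ℕ) {r : ℕ} (K : Type) [Field K]
    [NumberField K] (io : K →+* ℂ) (w₀ : Fin r → ℤ) (C₀ : Matrix (Fin r) (Fin r) ℂ) (T : ℝ) : Set (X → K) :=
  {s | (∀ j, s j ∈ Height K T) ∧ (fun j => io (s j)) ∈ Inner U k ∧ ∃ v : (Fin m → Fin r ⊕ ι) → ℤ,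
    (∀ I, |(v I : ℝ)| ≤ T ^ k) ∧ IsHodge wt (Sum.elim w₀ w) (sum C₀ (P fun j => io (s j))) v ∧
      ∃ g ∈ Gal U P, ¬ IsHodge wt (Sum.elim w₀ w) (sum C₀ (g * P fun j => io (s j))) v}

theorem excH_sub (wt : ℤ) (w : ι → ℤ) (U : Set (X → ℂ)) (P : (X → ℂ) → Matrix ι ι ℂ) (k m : ℕ) {r : ℕ} (K : Type)
    [Field K] [NumberField K] (io : K →+* ℂ) (w₀ : Fin r → ℤ) (C₀ : Matrix (Fin r) (Fin r) ℂ) (T : ℝ) :
    ExcH wt w U P k m K io w₀ C₀ T ⊆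
      ExcG (QH wt w m w₀ C₀) U (fun (p : ι × ι) x => P x p.1 p.2) (InnerM U k) K io (k : ℝ) T := by
  rintro s ⟨h1, h2, v, hv, hH, g, hg, hne⟩
  have hcast : ∀ I, io ((((v I : ℤ) : 𝓞 K) : 𝓞 K) : K) = (v I : ℂ) := by
    intro I
    simp
  refine ⟨h1, h2, fun I => ((v I : ℤ) : 𝓞 K), ?_, ?_, ?_⟩
  · intro I φ
    rw [Real.rpow_natCast]
    simpa using hv I
  · intro J
    simp only [hcast]
    by_cases hJ : (m : ℤ) * wt < 2 * ∑ t, Sum.elim w₀ w (J t)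
    · rw [QH_eval wt w m w₀ C₀ J _ _ hJ]
      exact hH J hJ
    · exact QH_eval0 wt w m w₀ C₀ J _ _ hJ
  · intro hθ
    apply hne
    intro J hJ
    have h8 := hθ _ (resp_of_gal hg) J
    simp only [hcast] at h8
    rw [← QH_eval wt w m w₀ C₀ J (g * P fun j => io (s j)) _ hJ]
    exact h8

/-- if all the translates are Hodge tensors, the orbit is finite -/
theorem orbit_finite {wt : ℤ} {w : ι → ℤ} {S : Matrix ι ι ℤ} {U : Set (X → ℂ)} {P : (X → ℂ) → Matrix ι ι ℂ} {r m : ℕ}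
    {w₀ : Fin r → ℤ} {S₀ : Matrix (Fin r) (Fin r) ℤ} {C₀ : Matrix (Fin r) (Fin r) ℂ} (h₀ : Polarized wt w₀ S₀ C₀)
    {Q : Matrix ι ι ℂ} (hQ : Polarized wt w S Q) (v : (Fin m → Fin r ⊕ ι) → ℤ)
    (hv : ∀ g ∈ Gal U P, IsHodge wt (Sum.elim w₀ w) (sum C₀ (g * Q)) v) : (orbit (Auts U P S) v).Finite := by
  classical
  refine (finite_qf (m := m) (polarized_sum h₀ hQ) (qf (Matrix.fromBlocks S₀ 0 0 S) v)).subset ?_
  rintro u ⟨g, ⟨hg1, hg2⟩, hu⟩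
  obtain ⟨G, hG⟩ : ∃ G : Matrix (Fin r ⊕ ι) (Fin r ⊕ ι) ℂ, G = sum 1 (g.map (Int.cast : ℤ → ℂ)) := ⟨_, rfl⟩
  have hu' : cx u = Matrix.vecMul (cx v) (tensor m G) := by
    rw [hG]
    exact hu
  constructor
  · intro J hJ
    have h1 := hv _ hg1 J hJ
    rw [← sum_mul' C₀, ← hG, tensor_mul, ← Matrix.vecMul_vecMul] at h1
    have h2 : (fun I => (u I : ℂ)) = Matrix.vecMul (fun I => (v I : ℂ)) (tensor m G) := hu'
    rw [h2]
    exact h1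
  · obtain ⟨S', hS'⟩ : ∃ S' : Matrix (Fin r ⊕ ι) (Fin r ⊕ ι) ℂ,
      S' = (Matrix.fromBlocks S₀ 0 0 S : Matrix (Fin r ⊕ ι) (Fin r ⊕ ι) ℤ).map (Int.cast : ℤ → ℂ) := ⟨_, rfl⟩
    have hS2 : S' = Matrix.fromBlocks (S₀.map (Int.cast : ℤ → ℂ)) 0 0 (S.map (Int.cast : ℤ → ℂ)) := by
      rw [hS', Matrix.fromBlocks_map]
      congr 1 <;> (ext i j; simp)
    have hinv : G * S' * G.transpose = S' := by
      have h3 : g.map (Int.cast : ℤ → ℂ) * S.map (Int.cast : ℤ → ℂ) * (g.map (Int.cast : ℤ → ℂ)).transpose =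
          S.map (Int.cast : ℤ → ℂ) := by
        have h4 := congrArg (fun A : Matrix ι ι ℤ => A.map (Int.castRingHom ℂ)) hg2
        simp only [Matrix.map_mul, Matrix.transpose_map] at h4
        exact h4
      rw [hS2, hG, sum, Matrix.fromBlocks_transpose, Matrix.fromBlocks_multiply, Matrix.fromBlocks_multiply]
      simp only [Matrix.one_mul, Matrix.mul_zero, Matrix.zero_mul, add_zero, zero_add, Matrix.transpose_one,
        Matrix.transpose_zero, Matrix.mul_one, h3]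
    have hq : ∀ x : (Fin m → Fin r ⊕ ι) → ℤ,
        qf (Matrix.fromBlocks S₀ 0 0 S) x = Matrix.vecMul (cx x) (tensor m S') ⬝ᵥ cx x := fun x => by
      rw [hS']
      rfl
    rw [hq, hq, hu']
    conv_lhs =>
      rw [← Matrix.mulVec_transpose (tensor m G) (cx v)]
    rw [Matrix.dotProduct_mulVec, Matrix.mulVec_transpose, Matrix.vecMul_vecMul, Matrix.vecMul_vecMul,
      ← tensor_transpose, ← tensor_mul, ← tensor_mul, ← Matrix.mul_assoc, hinv]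

/-- the parameters: the Hodge structures of dimension at most `k` -/
abbrev Par : Type := Σ r : ℕ, (Fin r → ℤ) × Matrix (Fin r) (Fin r) ℂ

theorem cov_fix {wt : ℤ} {w : ι → ℤ} {U : Set (X → ℂ)} {P : (X → ℂ) → Matrix ι ι ℂ} (h : Family U P) (k : ℕ)
    (hk : 0 < k) (ε : ℝ) (hε : 0 < ε) :
    ∃ (D : ℕ) (C T₀ : ℝ), 0 ≤ C ∧ 2 ≤ T₀ ∧
      ∀ (K : Type) [Field K] [NumberField K], Module.finrank ℚ K ≤ k → ∀ (io : K →+* ℂ) (q : Par) (T : ℝ),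
        T₀ ≤ T → q.1 ≤ k → Cov D ⌊C * T ^ ε⌋₊ ((fun (s : X → K) j => io (s j)) ''
          {s | ∃ m ≤ k, s ∈ ExcH wt w U P k m K io q.2.1 q.2.2 T}) := by
  classical
  have hf : ∀ p : ι × ι, AnalyticOnNhd ℂ (fun x => P x p.1 p.2) U := fun p => h.analytic p.1 p.2
  obtain ⟨D, C, T₀, h1, h2, h3⟩ := cov_fin (X := X) (Y := Par) (k + 1) (fun _ => Unit)
    (fun m K _ _ io q T => {s | q.1 ≤ k ∧ s ∈ ExcH wt w U P k m K io q.2.1 q.2.2 T}) k ε (by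
      intro m _
      obtain ⟨D, C, T₀, h1, h2, h3⟩ := cov_fin (X := X) (Y := Par) (k + 1) (fun _ => Unit)
        (fun r K _ _ io q T => {s | q.1 = r ∧ s ∈ ExcH wt w U P k m K io q.2.1 q.2.2 T}) k ε (by
          intro r _
          obtain ⟨D, C, T₀, h1, h2, h3⟩ := excG_cov h.isPreconnected h.isOpen h.nonempty hf (regularM h.regular)
            (InnerM U k) (innerM_compact _ _) (innerM_sub _ hk) m (Fin m → Fin r ⊕ ι) (Fin m → Fin r ⊕ ι) k (k : ℝ) ε hε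
          refine ⟨D, C, T₀, h1, h2, fun K _ _ hK io q T hT => ?_⟩
          by_cases hq : q.1 = r
          · obtain ⟨r', w₀, C₀⟩ := q
            subst hq
            refine (h3 K hK io (QH wt w m w₀ C₀) (QH_deg wt w m w₀ C₀) T hT).mono le_rfl le_rfl (Set.image_mono ?_)
            rintro s ⟨-, hs⟩
            exact excH_sub wt w U P k m K io w₀ C₀ T hs
          · refine ⟨∅, by simp, by simp, ?_⟩
            rintro x ⟨s, ⟨hs, -⟩, rfl⟩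
            exact absurd hs hq)
      refine ⟨D, C, T₀, h1, h2, fun K _ _ hK io q T hT => (h3 K hK io q T hT).mono le_rfl le_rfl (Set.image_mono ?_)⟩
      rintro s ⟨hs1, hs2⟩
      rw [Set.mem_iUnion₂]
      exact ⟨q.1, Finset.mem_range.2 (by omega), rfl, hs2⟩)
  refine ⟨D, C, T₀, h1, h2, fun K _ _ hK io q T hT hq => (h3 K hK io q T hT).mono le_rfl le_rfl (Set.image_mono ?_)⟩
  rintro s ⟨m, hm, hs⟩
  rw [Set.mem_iUnion₂]
  exact ⟨m, Finset.mem_range.2 (by omega), hq, hs⟩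

theorem exc_sub {wt : ℤ} {w : ι → ℤ} {S : Matrix ι ι ℤ} {U : Set (X → ℂ)} {P : (X → ℂ) → Matrix ι ι ℂ}
    (h : Variation wt w S U P) {k : ℕ} (hk : 0 < k) (K : Type) [Field K] [NumberField K] (io : K →+* ℂ) {r : ℕ}
    {w₀ : Fin r → ℤ} {S₀ : Matrix (Fin r) (Fin r) ℤ} {C₀ : Matrix (Fin r) (Fin r) ℂ} (h₀ : Polarized wt w₀ S₀ C₀)
    (T : ℝ) : Exceptional wt w S U P k K io w₀ C₀ T ⊆ {s | ∃ m ≤ k, s ∈ ExcH wt w U P k m K io w₀ C₀ T} := by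
  rintro s ⟨h1, h2, m, hm, v, hv, hH, hinf⟩
  refine ⟨m, hm, h1, h2, v, hv, hH, ?_⟩
  by_contra hcon
  push Not at hcon
  have hQ : Polarized wt w S (P fun j => io (s j)) := h.polarized _ (innerM_sub _ hk h2)
  exact hinf (orbit_finite h₀ hQ v hcon)

/-- **The main theorem.** -/
theorem main {wt : ℤ} {w : ι → ℤ} {S : Matrix ι ι ℤ} {U : Set (X → ℂ)} {P : (X → ℂ) → Matrix ι ι ℂ}
    (h : Variation wt w S U P) :
    ∃ (ω : ℝ → ℕ) (T₀ : ℝ), Tendsto ω atTop atTop ∧ Monotone ω ∧ ∀ T, T₀ ≤ T → 0 < ω T ∧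
      ∀ (K : Type) [Field K] [NumberField K], Module.finrank ℚ K ≤ ω T → ∀ (io : K →+* ℂ) (r : ℕ), r ≤ ω T →
        ∀ (w₀ : Fin r → ℤ) (S₀ : Matrix (Fin r) (Fin r) ℤ) (C₀ : Matrix (Fin r) (Fin r) ℂ), Polarized wt w₀ S₀ C₀ →
        Cov ⌊T ^ ((ω T : ℝ)⁻¹)⌋₊ ⌊T ^ ((ω T : ℝ)⁻¹)⌋₊
          ((fun (s : X → K) j => io (s j)) '' Exceptional wt w S U P (ω T) K io w₀ C₀ T) ∧
        (Exceptional wt w S U P (ω T) K io w₀ C₀ T).Finite ∧
        ((Exceptional wt w S U P (ω T) K io w₀ C₀ T).ncard : ℝ) ≤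
          T ^ ((ω T : ℝ)⁻¹) * ({x : K | Y120.HtLe K T x}.ncard : ℝ) ^ (Fintype.card X - 1) := by
  classical
  obtain ⟨ω, T₀, h1, h2, h3⟩ := omega_gen
    (fun k => {q : Par // q.1 ≤ k ∧ ∃ S₀ : Matrix (Fin q.1) (Fin q.1) ℤ, Polarized wt q.2.1 S₀ q.2.2})
    (fun k K _ _ io q T => Exceptional wt w S U P k K io q.1.2.1 q.1.2.2 T) (fun k K _ _ io p T s hs => hs.1) (by
      intro k ε hε
      rcases Nat.eq_zero_or_pos k with hk | hk
      · refine ⟨0, 0, 2, le_rfl, le_rfl, ?_⟩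
        intro K _ _ hK
        have h1 : 0 < Module.finrank ℚ K := Module.finrank_pos
        omega
      obtain ⟨D, C, T₀, h1, h2, h3⟩ := cov_fix (wt := wt) (w := w) h.family k hk ε hε
      refine ⟨D, C, T₀, h1, h2, fun K _ _ hK io q T hT => ?_⟩
      obtain ⟨q, hq, S₀, hS₀⟩ := q
      exact (h3 K hK io q T hT hq).mono le_rfl le_rfl (Set.image_mono (exc_sub h hk K io hS₀ T)))
  refine ⟨ω, T₀, h1, h2, fun T hT => ⟨(h3 T hT).1, ?_⟩⟩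
  intro K _ _ hK io r hr w₀ S₀ C₀ h₀
  exact (h3 T hT).2 K hK io ⟨⟨r, w₀, C₀⟩, hr, S₀, h₀⟩

/-- fixed orders and exponents -/
theorem main_fix {wt : ℤ} {w : ι → ℤ} {S : Matrix ι ι ℤ} {U : Set (X → ℂ)} {P : (X → ℂ) → Matrix ι ι ℂ}
    (h : Variation wt w S U P) (k : ℕ) (ε : ℝ) (hε : 0 < ε) :
    ∃ (D : ℕ) (C T₀ : ℝ), 0 ≤ C ∧ 2 ≤ T₀ ∧ ∀ T, T₀ ≤ T →
      ∀ (K : Type) [Field K] [NumberField K], Module.finrank ℚ K ≤ k → ∀ (io : K →+* ℂ) (r : ℕ), r ≤ k →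
        ∀ (w₀ : Fin r → ℤ) (S₀ : Matrix (Fin r) (Fin r) ℤ) (C₀ : Matrix (Fin r) (Fin r) ℂ), Polarized wt w₀ S₀ C₀ →
        Cov D ⌊C * T ^ ε⌋₊ ((fun (s : X → K) j => io (s j)) '' Exceptional wt w S U P k K io w₀ C₀ T) ∧
        (Exceptional wt w S U P k K io w₀ C₀ T).Finite ∧
        ((Exceptional wt w S U P k K io w₀ C₀ T).ncard : ℝ) ≤
          D * C * T ^ ε * ({x : K | Y120.HtLe K T x}.ncard : ℝ) ^ (Fintype.card X - 1) := by
  classical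
  rcases Nat.eq_zero_or_pos k with hk | hk
  · refine ⟨0, 0, 2, le_rfl, le_rfl, ?_⟩
    intro T _ K _ _ hK
    have h1 : 0 < Module.finrank ℚ K := Module.finrank_pos
    omega
  obtain ⟨D, C, T₀, hC, hT₀, H⟩ := cov_fix (wt := wt) (w := w) h.family k hk ε hε
  refine ⟨D, C, T₀, hC, hT₀, fun T hT K _ _ hK io r hr w₀ S₀ C₀ h₀ => ?_⟩
  have hTp : 0 < T := by linarith
  have h1 : Cov D ⌊C * T ^ ε⌋₊ ((fun (s : X → K) j => io (s j)) '' Exceptional wt w S U P k K io w₀ C₀ T) :=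
    (H K hK io ⟨r, w₀, C₀⟩ T hT hr).mono le_rfl le_rfl (Set.image_mono (exc_sub h hk K io h₀ T))
  obtain ⟨h2, h3⟩ := cov_count io {x : K | Y120.HtLe K T x} (Y120.HtLe_fin K T) _ (fun s hs => hs.1) h1
  refine ⟨h1, h2, ?_⟩
  have h4 : ((Exceptional wt w S U P k K io w₀ C₀ T).ncard : ℝ) ≤
      (⌊C * T ^ ε⌋₊ : ℝ) * (D * ({x : K | Y120.HtLe K T x}.ncard : ℝ) ^ (Fintype.card X - 1)) := by
    exact_mod_cast h3
  have h5 : ((⌊C * T ^ ε⌋₊ : ℕ) : ℝ) ≤ C * T ^ ε := Nat.floor_le (by positivity)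
  refine h4.trans ((mul_le_mul_of_nonneg_right h5 (by positivity)).trans (le_of_eq ?_))
  ring

end Pool.Agent.U543.HT
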