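import Pool.Agent.U543.HtDef
import Pool.Agent.U543.GalMain

/-!
# Hodge tensors of a polarised Hodge structure of a given norm are finite in number
-/

set_option autoImplicit false
set_option linter.unusedSectionVars false

open NumberField

namespace Pool.Agent.U543.HT

open Pool.Agent.U543.GD (tensor sum tensor_mul)

variable {α : Type} [Fintype α] [DecidableEq α] {m : ℕ}

theorem tensor_diagonal (ζ : α → ℂ) : tensor m (Matrix.diagonal ζ) = Matrix.diagonal fun K => ∏ t, ζ (K t) := by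
  ext I J
  rw [Matrix.diagonal_apply, tensor]
  split_ifs with h
  · subst h
    simp
  · obtain ⟨t, ht⟩ := Function.ne_iff.1 h
    exact Finset.prod_eq_zero (Finset.mem_univ t) (by rw [Matrix.diagonal_apply_ne _ ht])

theorem tensor_one : tensor m (1 : Matrix α α ℂ) = 1 := by
  rw [← Matrix.diagonal_one, tensor_diagonal, ← Matrix.diagonal_one]
  simp

theorem tensor_conjTranspose {β : Type} (A : Matrix α β ℂ) : tensor m A.conjTranspose = (tensor m A).conjTranspose := by
  ext I J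
  simp [tensor, Matrix.conjTranspose_apply]

theorem tensor_transpose {β : Type} (A : Matrix α β ℂ) : tensor m A.transpose = (tensor m A).transpose := by
  ext I J
  simp [tensor]

theorem tensor_conj {β : Type} (A : Matrix α β ℂ) (I : Fin m → α) (J : Fin m → β) :
    tensor m (A.map (starRingEnd ℂ)) I J = starRingEnd ℂ (tensor m A I J) := by
  simp [tensor, map_prod]

/-- the complex coordinates of an integral tensor -/
def cx (u : (Fin m → α) → ℤ) : (Fin m → α) → ℂ := fun I => (u I : ℂ)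

/-- combinations of columns in the filtration -/
theorem vanish {wt : ℤ} {w p : α → ℤ} {M A : Matrix α α ℂ} (hA : ∀ j k, w j < p k → A j k = 0)
    {u : (Fin m → α) → ℤ} (hu : IsHodge wt w M u) (K : Fin m → α) (hK : (m : ℤ) * wt < 2 * ∑ t, p (K t)) :
    Matrix.vecMul (cx u) (tensor m (M * A)) K = 0 := by
  rw [tensor_mul, ← Matrix.vecMul_vecMul]
  change ∑ J, _ = _
  refine Finset.sum_eq_zero fun J _ => ?_
  by_cases h : ∀ t, p (K t) ≤ w (J t)
  · have h1 : ∑ t, p (K t) ≤ ∑ t, w (J t) := Finset.sum_le_sum fun t _ => h t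
    have h2 : Matrix.vecMul (cx u) (tensor m M) J = 0 := hu J (by linarith)
    rw [h2, zero_mul]
  · push Not at h
    obtain ⟨t, ht⟩ := h
    have h1 : tensor m A J K = 0 := Finset.prod_eq_zero (Finset.mem_univ t) (hA _ _ ht)
    change Matrix.vecMul (cx u) (tensor m M) J * tensor m A J K = 0
    rw [h1, mul_zero]

theorem coord_zero {wt : ℤ} {w p : α → ℤ} {M A B : Matrix α α ℂ} (hA : ∀ j k, w j < p k → A j k = 0)
    (hB : ∀ j k, w j < wt - p k → B j k = 0) (hconj : (M * A).map (starRingEnd ℂ) = M * B)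
    {u : (Fin m → α) → ℤ} (hu : IsHodge wt w M u) (K : Fin m → α) (hK : 2 * ∑ t, p (K t) ≠ (m : ℤ) * wt) :
    Matrix.vecMul (cx u) (tensor m (M * A)) K = 0 := by
  rcases lt_or_gt_of_ne hK with h | h
  · have h1 := vanish (p := fun k => wt - p k) hB hu K (by
      rw [Finset.sum_sub_distrib, Finset.sum_const, Finset.card_univ, Fintype.card_fin, nsmul_eq_mul]
      linarith)
    rw [← hconj] at h1
    have h2 : Matrix.vecMul (cx u) (tensor m ((M * A).map (starRingEnd ℂ))) K =
        starRingEnd ℂ (Matrix.vecMul (cx u) (tensor m (M * A)) K) := by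
      simp only [Matrix.vecMul, dotProduct, map_sum, map_mul]
      refine Finset.sum_congr rfl fun I _ => ?_
      rw [tensor_conj]
      congr 1
      simp [cx]
    rw [h2] at h1
    exact (map_eq_zero _).1 h1
  · exact vanish hA hu K h

theorem prod_I (f : Fin m → ℤ) : ∏ t, Complex.I ^ (f t) = Complex.I ^ (∑ t, f t) := by
  classical
  have key : ∀ s : Finset (Fin m), ∏ t ∈ s, Complex.I ^ (f t) = Complex.I ^ (∑ t ∈ s, f t) := by
    intro s
    induction s using Finset.induction_on with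
    | empty => simp
    | insert a s ha ih => rw [Finset.prod_insert ha, Finset.sum_insert ha, zpow_add₀ Complex.I_ne_zero, ih]
  exact key _

/-- the value of the quadratic form of the tensor power of the polarisation -/
noncomputable def qf (S : Matrix α α ℤ) (u : (Fin m → α) → ℤ) : ℂ :=
  Matrix.vecMul (cx u) (tensor m (S.map (Int.cast : ℤ → ℂ))) ⬝ᵥ cx u

theorem qf_eq {wt : ℤ} {w p : α → ℤ} {S : Matrix α α ℤ} {M A B : Matrix α α ℂ} (hA : ∀ j k, w j < p k → A j k = 0)
    (hB : ∀ j k, w j < wt - p k → B j k = 0) (hconj : (M * A).map (starRingEnd ℂ) = M * B)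
    (hS : S.map (Int.cast : ℤ → ℂ) =
      M * A * Matrix.diagonal (fun k => Complex.I ^ (wt - 2 * p k)) * (M * A).conjTranspose)
    {u : (Fin m → α) → ℤ} (hu : IsHodge wt w M u) :
    qf S u = ∑ K, ((‖Matrix.vecMul (cx u) (tensor m (M * A)) K‖ ^ 2 : ℝ) : ℂ) := by
  unfold qf
  rw [hS, tensor_mul, tensor_mul, tensor_conjTranspose, tensor_diagonal, ← Matrix.vecMul_vecMul,
    ← Matrix.vecMul_vecMul, ← Matrix.dotProduct_mulVec]
  obtain ⟨c, hc⟩ : ∃ c, c = Matrix.vecMul (cx u) (tensor m (M * A)) := ⟨_, rfl⟩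
  have h1 : (tensor m (M * A)).conjTranspose.mulVec (cx u) = fun K => starRingEnd ℂ (c K) := by
    funext K
    rw [hc]
    simp only [Matrix.mulVec, Matrix.vecMul, dotProduct, map_sum, map_mul, Matrix.conjTranspose_apply]
    refine Finset.sum_congr rfl fun I _ => ?_
    rw [mul_comm]
    congr 1
    simp [cx]
  rw [h1, ← hc]
  refine Finset.sum_congr rfl fun K _ => ?_
  rw [Matrix.vecMul_diagonal]
  by_cases hK : 2 * ∑ t, p (K t) = (m : ℤ) * wt
  · have h2 : ∏ t, Complex.I ^ (wt - 2 * p (K t)) = 1 := by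
      rw [prod_I, Finset.sum_sub_distrib, ← Finset.mul_sum, Finset.sum_const, Finset.card_univ, Fintype.card_fin,
        nsmul_eq_mul, hK, sub_self, zpow_zero]
    rw [h2, mul_one, ← Complex.normSq_eq_norm_sq, ← Complex.mul_conj]
  · have h2 : c K = 0 := by
      rw [hc]
      exact coord_zero hA hB hconj hu K hK
    rw [h2]
    simp

/-- **Finiteness.** Only finitely many integral Hodge tensors have a given norm. -/
theorem finite_qf {wt : ℤ} {w : α → ℤ} {S : Matrix α α ℤ} {M : Matrix α α ℂ} (hP : Polarized wt w S M) (z : ℂ) :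
    {u : (Fin m → α) → ℤ | IsHodge wt w M u ∧ qf S u = z}.Finite := by
  classical
  obtain ⟨p, A, B, hF, hA, hB, hconj, hS⟩ := hP
  obtain ⟨E, hE⟩ : ∃ E : Matrix α α ℂ, M * A * E = 1 := ⟨_, Matrix.mul_nonsing_inv _ ((Matrix.isUnit_iff_isUnit_det _).1 hF)⟩
  obtain ⟨b, hb⟩ : ∃ b : ℝ, b = ∑ K : Fin m → α, ∑ I : Fin m → α, (1 + ‖z‖) * ‖tensor m E K I‖ := ⟨_, rfl⟩
  have hfin : (Set.pi Set.univ fun _ : Fin m → α => Set.Icc (-⌈b⌉) ⌈b⌉).Finite := Set.Finite.pi fun _ => Set.finite_Icc _ _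
  refine hfin.subset ?_
  rintro u ⟨hu, hq⟩ I _
  obtain ⟨c, hc⟩ : ∃ c, c = Matrix.vecMul (cx u) (tensor m (M * A)) := ⟨_, rfl⟩
  have h1 := qf_eq hA hB hconj hS hu
  rw [hq, ← hc] at h1
  have hck : ∀ K, ‖c K‖ ≤ 1 + ‖z‖ := by
    intro K
    have h2 : ‖c K‖ ^ 2 ≤ ∑ K, ‖c K‖ ^ 2 :=
      Finset.single_le_sum (f := fun K => ‖c K‖ ^ 2) (fun _ _ => by positivity) (Finset.mem_univ K)
    have h3 : ‖z‖ = ∑ K, ‖c K‖ ^ 2 := by
      rw [h1, ← Complex.ofReal_sum, Complex.norm_real, Real.norm_of_nonneg (Finset.sum_nonneg fun _ _ => by positivity)]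
    rw [← h3] at h2
    nlinarith [norm_nonneg (c K), norm_nonneg z, sq_nonneg (‖c K‖ - 1)]
  have hu2 : cx u I = ∑ K, c K * tensor m E K I := by
    have h2 : Matrix.vecMul c (tensor m E) = cx u := by
      rw [hc, Matrix.vecMul_vecMul, ← tensor_mul, hE, tensor_one, Matrix.vecMul_one]
    rw [← h2]
    rfl
  have h4 : ‖cx u I‖ ≤ b := by
    rw [hu2, hb]
    refine (norm_sum_le _ _).trans (Finset.sum_le_sum fun K _ => ?_)
    rw [norm_mul]
    refine (mul_le_mul_of_nonneg_right (hck K) (norm_nonneg _)).trans ?_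
    exact Finset.single_le_sum (f := fun I => (1 + ‖z‖) * ‖tensor m E K I‖) (fun _ _ => by positivity) (Finset.mem_univ I)
  have h5 : |(u I : ℝ)| ≤ b := by
    have : ‖cx u I‖ = |(u I : ℝ)| := by
      rw [cx, Complex.norm_intCast]
    rwa [this] at h4
  have h6 : |(u I : ℝ)| ≤ (⌈b⌉ : ℝ) := h5.trans (Int.le_ceil b)
  have h7 : |u I| ≤ ⌈b⌉ := by exact_mod_cast h6
  exact abs_le.1 h7

/-- direct sums -/
theorem polarized_sum {β : Type} [Fintype β] [DecidableEq β] {wt : ℤ} {w : α → ℤ} {w' : β → ℤ} {S : Matrix α α ℤ}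
    {S' : Matrix β β ℤ} {M : Matrix α α ℂ} {M' : Matrix β β ℂ} (h : Polarized wt w S M) (h' : Polarized wt w' S' M') :
    Polarized wt (Sum.elim w w') (Matrix.fromBlocks S 0 0 S') (sum M M') := by
  obtain ⟨p, A, B, h1, h2, h3, h4, h5⟩ := h
  obtain ⟨p', A', B', h1', h2', h3', h4', h5'⟩ := h'
  have hMA : sum M M' * (Matrix.fromBlocks A 0 0 A' : Matrix (α ⊕ β) (α ⊕ β) ℂ) =
      Matrix.fromBlocks (M * A) 0 0 (M' * A') := by
    rw [sum, Matrix.fromBlocks_multiply]
    simp
  have hMB : sum M M' * (Matrix.fromBlocks B 0 0 B' : Matrix (α ⊕ β) (α ⊕ β) ℂ) =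
      Matrix.fromBlocks (M * B) 0 0 (M' * B') := by
    rw [sum, Matrix.fromBlocks_multiply]
    simp
  refine ⟨Sum.elim p p', Matrix.fromBlocks A 0 0 A', Matrix.fromBlocks B 0 0 B', ?_, ?_, ?_, ?_, ?_⟩
  · rw [hMA, Matrix.isUnit_iff_isUnit_det, Matrix.det_fromBlocks_zero₂₁]
    exact ((Matrix.isUnit_iff_isUnit_det _).1 h1).mul ((Matrix.isUnit_iff_isUnit_det _).1 h1')
  · rintro (j | j) (k | k) hjk
    · exact h2 j k hjk
    · rfl
    · rfl
    · exact h2' j k hjk
  · rintro (j | j) (k | k) hjk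
    · exact h3 j k hjk
    · rfl
    · rfl
    · exact h3' j k hjk
  · rw [hMA, hMB, Matrix.fromBlocks_map, h4, h4']
    congr 1 <;> (ext i j; simp)
  · rw [hMA, Matrix.fromBlocks_map, h5, h5', Matrix.fromBlocks_conjTranspose]
    have h6 : (Matrix.diagonal fun k : α ⊕ β => Complex.I ^ (wt - 2 * Sum.elim p p' k)) =
        Matrix.fromBlocks (Matrix.diagonal fun k => Complex.I ^ (wt - 2 * p k)) 0 0
          (Matrix.diagonal fun k => Complex.I ^ (wt - 2 * p' k)) := by
      rw [Matrix.fromBlocks_diagonal]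
      congr 1
      funext k
      rcases k with k | k <;> rfl
    rw [h6, Matrix.fromBlocks_multiply, Matrix.fromBlocks_multiply]
    congr 1 <;> (ext i j; simp)

end Pool.Agent.U543.HT
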