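import Pool.Agent.U543.HtDef

/-!
# Hodge structures linked with a given one: definitions
-/

set_option autoImplicit false

open NumberField

namespace Pool.Agent.U543.LK

open Pool.Agent.U543.GD (Height Inner sum)
open Pool.Agent.U543.HT (IsHodge)

variable {X ι : Type} [Fintype X] [Fintype ι] [DecidableEq ι]

/-- The component of the tensor `v` of order `m + 2` of `M₀ ⊕ V` at the index `J` in `M₀ ^ m`: a tensor of order two of
`V`. -/
def slice {m r : ℕ} (v : (Fin (m + 2) → Fin r ⊕ ι) → ℤ) (J : Fin m → Fin r) : Matrix ι ι ℤ :=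
  Matrix.of fun i j => v (Fin.append (fun t => Sum.inl (J t)) ![Sum.inr i, Sum.inr j])

/-- The endomorphisms of the lattice of `V` given by the Hodge tensors of `M₀ ^ m ⊗ V ⊗ V` with coordinates of absolute
value at most `H`; the polarisation `S` identifies `V ⊗ V` with the endomorphisms of `V`, so these are the images of
the basis vectors under the morphisms of Hodge structures from the dual of `M₀ ^ m` to `End V`; for `m = 0` they are
the endomorphisms of the Hodge structure `V`. Here `M` and `C₀` are the period matrices of `V` and `M₀`. -/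
def Corr (wt : ℤ) (w : ι → ℤ) (S : Matrix ι ι ℤ) (M : Matrix ι ι ℂ) {r : ℕ} (w₀ : Fin r → ℤ)
    (C₀ : Matrix (Fin r) (Fin r) ℂ) (m : ℕ) (H : ℝ) : Set (Matrix ι ι ℤ) :=
  {E | ∃ (v : (Fin (m + 2) → Fin r ⊕ ι) → ℤ) (J : Fin m → Fin r), (∀ I, |(v I : ℝ)| ≤ H) ∧
    IsHodge wt (Sum.elim w₀ w) (sum C₀ M) v ∧ E = S * slice v J}

/-- The complex matrices which commute with all elements of a set of integral matrices. -/
def Commutant (𝒮 : Set (Matrix ι ι ℤ)) : Set (Matrix ι ι ℂ) :=
  {g | ∀ E ∈ 𝒮, g * E.map (Int.cast : ℤ → ℂ) = E.map (Int.cast : ℤ → ℂ) * g}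

/-- The Hodge structure `V` is linked with `M₀` by Hodge tensors of order at most `k` and height at most `H`: the
matrices which commute with all elements of `Corr m`, `m + 2 ≤ k`, are in the centre of the commutant of the
endomorphisms `Corr 0`. -/
def Linked (wt : ℤ) (w : ι → ℤ) (S : Matrix ι ι ℤ) (M : Matrix ι ι ℂ) {r : ℕ} (w₀ : Fin r → ℤ)
    (C₀ : Matrix (Fin r) (Fin r) ℂ) (k : ℕ) (H : ℝ) : Prop :=
  ∀ g ∈ Commutant {E | ∃ m, m + 2 ≤ k ∧ E ∈ Corr wt w S M w₀ C₀ m H}, ∀ c ∈ Commutant (Corr wt w S M w₀ C₀ 0 H),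
    g * c = c * g

/-- The points `s` of `U` with coordinates in `K` of height at most `T`, of norm at most `k` and at distance at least
`1 / k` from the complement of `U`, such that `V_s` is linked with the Hodge structure `M₀` with the period matrix `C₀`
by Hodge tensors of order at most `k` and height at most `T ^ k`. -/
def LinkedPoints (wt : ℤ) (w : ι → ℤ) (S : Matrix ι ι ℤ) (U : Set (X → ℂ)) (P : (X → ℂ) → Matrix ι ι ℂ) (k : ℕ)
    (K : Type) [Field K] [NumberField K] (io : K →+* ℂ) {r : ℕ} (w₀ : Fin r → ℤ) (C₀ : Matrix (Fin r) (Fin r) ℂ)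
    (T : ℝ) : Set (X → K) :=
  {s | (∀ j, s j ∈ Height K T) ∧ (fun j => io (s j)) ∈ Inner U k ∧
    Linked wt w S (P fun j => io (s j)) w₀ C₀ k (T ^ k)}

end Pool.Agent.U543.LK
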