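import Pool.Agent.U543.LkDef
import Pool.Agent.U543.HtMain

/-!
# Points linked with a given Hodge structure are sparse
-/

set_option autoImplicit false
set_option linter.unusedSectionVars false

open NumberField Filter

namespace Pool.Agent.U543.LK

open Pool.Agent.Y124 (Cov)
open Pool.Agent.U543.GD (Height Inner tensor sum)
open Pool.Agent.U543.HT (IsHodge Polarized Variation Auts orbit Exceptional cx main main_fix)

variable {X ι : Type} [Fintype X] [DecidableEq X] [Nonempty X] [Fintype ι] [DecidableEq ι]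

theorem vec_slice {m r : ℕ} (v : (Fin (m + 2) → Fin r ⊕ ι) → ℤ) (C₀ : Matrix (Fin r) (Fin r) ℂ) (M : Matrix ι ι ℂ)
    (J : Fin m → Fin r) (j k : ι) :
    Matrix.vecMul (cx v) (tensor (m + 2) (sum C₀ M)) (Fin.append (fun t => Sum.inl (J t)) ![Sum.inr j, Sum.inr k]) =
      ∑ L : Fin m → Fin r, (∏ t, C₀ (L t) (J t)) *
        (M.transpose * (slice v L).map (Int.cast : ℤ → ℂ) * M) j k := by
  classical
  let e : (Fin m → Fin r) × (ι × ι) → (Fin (m + 2) → Fin r ⊕ ι) := fun p =>
    Fin.append (fun t => Sum.inl (p.1 t)) ![Sum.inr p.2.1, Sum.inr p.2.2]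
  have he : Function.Injective e := by
    rintro ⟨L, a, b⟩ ⟨L', a', b'⟩ h
    have h1 : ∀ t, L t = L' t := by
      intro t
      have h2 := congrFun h (Fin.castAdd 2 t)
      simp only [e, Fin.append_left] at h2
      exact Sum.inl.inj h2
    have h3 : a = a' := by
      have h2 := congrFun h (Fin.natAdd m 0)
      simp only [e, Fin.append_right] at h2
      exact Sum.inr.inj h2
    have h4 : b = b' := by
      have h2 := congrFun h (Fin.natAdd m 1)
      simp only [e, Fin.append_right] at h2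
      exact Sum.inr.inj h2
    rw [funext h1, h3, h4]
  have hsum := Fintype.sum_of_injective e he
    (fun p : (Fin m → Fin r) × (ι × ι) => (∏ t, C₀ (p.1 t) (J t)) *
      (M p.2.1 j * (slice v p.1 p.2.1 p.2.2 : ℂ) * M p.2.2 k))
    (fun I : Fin (m + 2) → Fin r ⊕ ι => cx v I * tensor (m + 2) (sum C₀ M) I
      (Fin.append (fun t => Sum.inl (J t)) ![Sum.inr j, Sum.inr k])) (by
      intro I hI
      have h0 : tensor (m + 2) (sum C₀ M) I (Fin.append (fun t => Sum.inl (J t)) ![Sum.inr j, Sum.inr k]) = 0 := by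
        by_contra hne
        have hne' : ∀ t, sum C₀ M (I t) (Fin.append (fun t => Sum.inl (J t)) ![Sum.inr j, Sum.inr k] t) ≠ 0 :=
          fun t h0 => hne (Finset.prod_eq_zero (Finset.mem_univ t) h0)
        apply hI
        have hl : ∀ (x : Fin r ⊕ ι) (b : Fin r), sum C₀ M x (Sum.inl b) ≠ 0 → ∃ a, x = Sum.inl a := by
          rintro (a | a) b h
          · exact ⟨a, rfl⟩
          · exact absurd rfl h
        have hr : ∀ (x : Fin r ⊕ ι) (b : ι), sum C₀ M x (Sum.inr b) ≠ 0 → ∃ a, x = Sum.inr a := by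
          rintro (a | a) b h
          · exact absurd rfl h
          · exact ⟨a, rfl⟩
        have h1 : ∀ t : Fin m, ∃ a, I (Fin.castAdd 2 t) = Sum.inl a := by
          intro t
          have h2 := hne' (Fin.castAdd 2 t)
          rw [Fin.append_left] at h2
          exact hl _ _ h2
        have h4 : ∀ t : Fin 2, ∃ a, I (Fin.natAdd m t) = Sum.inr a := by
          intro t
          have h2 := hne' (Fin.natAdd m t)
          rw [Fin.append_right] at h2
          fin_cases t
          · exact hr _ _ h2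
          · exact hr _ _ h2
        choose L hL using h1
        choose a ha using h4
        refine ⟨(L, (a 0, a 1)), ?_⟩
        funext t
        refine Fin.addCases (fun t => ?_) (fun t => ?_) t
        · simp only [e, Fin.append_left, hL]
        · simp only [e, Fin.append_right, ha]
          fin_cases t <;> rfl
      rw [h0, mul_zero])
    (by
      rintro ⟨L, a, b⟩
      simp only [e, tensor, Fin.prod_univ_add, Fin.append_left, Fin.append_right, Fin.prod_univ_two]
      have h1 : ∀ t, sum C₀ M (Sum.inl (L t)) (Sum.inl (J t)) = C₀ (L t) (J t) := fun t => rfl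
      have h2 : sum C₀ M ((![Sum.inr a, Sum.inr b] : Fin 2 → Fin r ⊕ ι) 0)
          ((![Sum.inr j, Sum.inr k] : Fin 2 → Fin r ⊕ ι) 0) = M a j := rfl
      have h3 : sum C₀ M ((![Sum.inr a, Sum.inr b] : Fin 2 → Fin r ⊕ ι) 1)
          ((![Sum.inr j, Sum.inr k] : Fin 2 → Fin r ⊕ ι) 1) = M b k := rfl
      have h4 : (slice v L a b : ℂ) = cx v (Fin.append (fun t => Sum.inl (L t)) ![Sum.inr a, Sum.inr b]) := rfl
      simp only [h1]
      rw [h2, h3, h4]
      ring)
  change ∑ I, _ = _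
  rw [← hsum, Fintype.sum_prod_type]
  refine Finset.sum_congr rfl fun L _ => ?_
  have h5 : (M.transpose * (slice v L).map (Int.cast : ℤ → ℂ) * M) j k =
      ∑ y : ι × ι, M y.1 j * (slice v L y.1 y.2 : ℂ) * M y.2 k := by
    rw [Fintype.sum_prod_type]
    simp only [Matrix.mul_apply, Matrix.transpose_apply, Matrix.map_apply, Finset.sum_mul]
    rw [Finset.sum_comm]
  refine Eq.trans ?_ (congrArg (fun z => (∏ t, C₀ (L t) (J t)) * z) h5).symm
  exact (Finset.mul_sum Finset.univ (fun y : ι × ι => M y.1 j * (slice v L y.1 y.2 : ℂ) * M y.2 k)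
    (∏ t, C₀ (L t) (J t))).symm

/-- tensors fixed by `g` -/
theorem slice_fix {m r : ℕ} {v : (Fin (m + 2) → Fin r ⊕ ι) → ℤ} {G : Matrix ι ι ℂ}
    (h : Matrix.vecMul (cx v) (tensor (m + 2) (sum 1 G)) = cx v) (J : Fin m → Fin r) :
    G.transpose * (slice v J).map (Int.cast : ℤ → ℂ) * G = (slice v J).map (Int.cast : ℤ → ℂ) := by
  classical
  ext j k
  have h1 := vec_slice v (1 : Matrix (Fin r) (Fin r) ℂ) G J j k
  have hf : ∀ L : Fin m → Fin r, (∏ t, (1 : Matrix (Fin r) (Fin r) ℂ) (L t) (J t)) = if L = J then 1 else 0 := by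
    intro L
    split_ifs with hL
    · rw [hL]
      simp
    · obtain ⟨t, ht⟩ := Function.ne_iff.1 hL
      exact Finset.prod_eq_zero (Finset.mem_univ t) (Matrix.one_apply_ne ht)
  have h3 := (h1.trans (Finset.sum_congr rfl fun L _ =>
    congrArg (fun z => z * (G.transpose * (slice v L).map (Int.cast : ℤ → ℂ) * G) j k) (hf L)))
  rw [h] at h3
  simp only [ite_mul, one_mul, zero_mul, Finset.sum_ite_eq', Finset.mem_univ, if_true] at h3
  exact h3.symm

/-- the Hodge tensors of order two -/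
theorem slice_hodge {r : ℕ} {wt : ℤ} {w : ι → ℤ} {w₀ : Fin r → ℤ} {C₀ : Matrix (Fin r) (Fin r) ℂ} {M : Matrix ι ι ℂ}
    {v : (Fin (0 + 2) → Fin r ⊕ ι) → ℤ} (hv : IsHodge wt (Sum.elim w₀ w) (sum C₀ M) v) (J : Fin 0 → Fin r) (j k : ι)
    (hjk : wt < w j + w k) : (M.transpose * (slice v J).map (Int.cast : ℤ → ℂ) * M) j k = 0 := by
  classical
  have h1 := vec_slice v C₀ M J j k
  rw [Fintype.sum_unique] at h1
  have h2 : (default : Fin 0 → Fin r) = J := Subsingleton.elim _ _
  rw [h2] at h1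
  have h3 : ∏ t : Fin 0, C₀ (J t) (J t) = 1 := by simp
  rw [h3, one_mul] at h1
  rw [← h1]
  refine hv _ ?_
  have h4 : ∑ t : Fin (0 + 2), Sum.elim w₀ w (Fin.append (fun t => Sum.inl (J t)) ![Sum.inr j, Sum.inr k] t) =
      w j + w k := by
    rw [Fin.sum_univ_add]
    simp only [Fin.append_left, Fin.append_right, Fin.sum_univ_two, Finset.univ_eq_empty, Finset.sum_empty, zero_add]
    rfl
  rw [h4]
  push_cast
  linarith

/-- the isometries of the Hodge metric are finite in number -/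
theorem isom_finite (F : Matrix ι ι ℂ) (hF : IsUnit F) :
    {g : Matrix ι ι ℤ | g.map (Int.cast : ℤ → ℂ) * (F * F.conjTranspose) * (g.map (Int.cast : ℤ → ℂ)).conjTranspose =
      F * F.conjTranspose}.Finite := by
  classical
  obtain ⟨E, hE⟩ : ∃ E : Matrix ι ι ℂ, F * E = 1 := ⟨_, Matrix.mul_nonsing_inv _ ((Matrix.isUnit_iff_isUnit_det _).1 hF)⟩
  obtain ⟨b, hb⟩ : ∃ b : ℝ, b = ∑ i, ∑ j, ∑ k, (1 + ‖(F * F.conjTranspose) i i‖) * ‖E k j‖ := ⟨_, rfl⟩
  have hfin : {g : Matrix ι ι ℤ | ∀ i j, g i j ∈ Set.Icc (-⌈b⌉) ⌈b⌉}.Finite :=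
    Set.Finite.pi' fun _ => Set.Finite.pi' fun _ => Set.finite_Icc _ _
  refine hfin.subset ?_
  intro g hg i j
  obtain ⟨G, hG⟩ : ∃ G : Matrix ι ι ℂ, G = g.map (Int.cast : ℤ → ℂ) * F := ⟨_, rfl⟩
  have h1 : G * G.conjTranspose = F * F.conjTranspose := by
    rw [hG, Matrix.conjTranspose_mul, ← hg]
    simp only [Matrix.mul_assoc]
  have h2 : ∀ k, ‖G i k‖ ≤ 1 + ‖(F * F.conjTranspose) i i‖ := by
    intro k
    have h3 : (F * F.conjTranspose) i i = ((∑ k, ‖G i k‖ ^ 2 : ℝ) : ℂ) := by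
      rw [← h1, Matrix.mul_apply]
      push_cast
      refine Finset.sum_congr rfl fun k _ => ?_
      rw [Matrix.conjTranspose_apply]
      have := Complex.mul_conj (G i k)
      rw [Complex.normSq_eq_norm_sq] at this
      exact_mod_cast this
    have h4 : ‖(F * F.conjTranspose) i i‖ = ∑ k, ‖G i k‖ ^ 2 := by
      rw [h3, Complex.norm_real, Real.norm_of_nonneg (Finset.sum_nonneg fun _ _ => by positivity)]
    have h5 : ‖G i k‖ ^ 2 ≤ ∑ k, ‖G i k‖ ^ 2 :=
      Finset.single_le_sum (f := fun k => ‖G i k‖ ^ 2) (fun _ _ => by positivity) (Finset.mem_univ k)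
    rw [← h4] at h5
    nlinarith [norm_nonneg (G i k), sq_nonneg (‖G i k‖ - 1)]
  have h6 : (g i j : ℂ) = ∑ k, G i k * E k j := by
    have h7 : G * E = g.map (Int.cast : ℤ → ℂ) := by rw [hG, Matrix.mul_assoc, hE, Matrix.mul_one]
    have h8 := congrFun (congrFun h7 i) j
    rw [Matrix.mul_apply] at h8
    exact h8.symm
  have h9 : ‖(g i j : ℂ)‖ ≤ b := by
    rw [h6, hb]
    refine (norm_sum_le _ _).trans ?_
    calc ∑ k, ‖G i k * E k j‖ ≤ ∑ k, (1 + ‖(F * F.conjTranspose) i i‖) * ‖E k j‖ := by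
          refine Finset.sum_le_sum fun k _ => ?_
          rw [norm_mul]
          exact mul_le_mul_of_nonneg_right (h2 k) (norm_nonneg _)
      _ ≤ ∑ j, ∑ k, (1 + ‖(F * F.conjTranspose) i i‖) * ‖E k j‖ :=
          Finset.single_le_sum (f := fun j => ∑ k, (1 + ‖(F * F.conjTranspose) i i‖) * ‖E k j‖)
            (fun _ _ => Finset.sum_nonneg fun _ _ => by positivity) (Finset.mem_univ j)
      _ ≤ _ := Finset.single_le_sum (f := fun i => ∑ j, ∑ k, (1 + ‖(F * F.conjTranspose) i i‖) * ‖E k j‖)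
            (fun _ _ => Finset.sum_nonneg fun _ _ => Finset.sum_nonneg fun _ _ => by positivity) (Finset.mem_univ i)
  rw [Complex.norm_intCast] at h9
  have h10 : |(g i j : ℝ)| ≤ (⌈b⌉ : ℝ) := h9.trans (Int.le_ceil b)
  have h11 : |g i j| ≤ ⌈b⌉ := by exact_mod_cast h10
  exact abs_le.1 h11

/-- the Weil operator commutes with the endomorphisms -/
theorem weil_comm {wt : ℤ} {w p : ι → ℤ} {S : Matrix ι ι ℤ} {M A B F D D' : Matrix ι ι ℂ}
    (hF : F = M * A) (hA : ∀ j k, w j < p k → A j k = 0)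
    (hB : ∀ j k, w j < wt - p k → B j k = 0) (hconj : F.map (starRingEnd ℂ) = M * B)
    (hD : D = Matrix.diagonal fun k => Complex.I ^ (wt - 2 * p k))
    (hD' : D' = Matrix.diagonal fun k => (Complex.I ^ (wt - 2 * p k))⁻¹)
    (hS : S.map (Int.cast : ℤ → ℂ) = F * D * F.conjTranspose) {E : Matrix ι ι ℂ} (hE : E * F = 1)
    (V : Matrix ι ι ℤ) (hV : ∀ j k, wt < w j + w k → (M.transpose * V.map (Int.cast : ℤ → ℂ) * M) j k = 0) :
    F * D' * E * (S.map (Int.cast : ℤ → ℂ) * V.map (Int.cast : ℤ → ℂ)) =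
      S.map (Int.cast : ℤ → ℂ) * V.map (Int.cast : ℤ → ℂ) * (F * D' * E) := by
  classical
  obtain ⟨W, hW⟩ : ∃ W, W = V.map (Int.cast : ℤ → ℂ) := ⟨_, rfl⟩
  rw [← hW] at hV ⊢
  obtain ⟨N, hN⟩ : ∃ N, N = F.conjTranspose * W * F := ⟨_, rfl⟩
  have hFc : F.conjTranspose = B.transpose * M.transpose := by
    have h1 : F.conjTranspose = (F.map (starRingEnd ℂ)).transpose := by
      ext i j
      simp [Matrix.conjTranspose_apply]
    rw [h1, hconj, Matrix.transpose_mul]
  -- the entries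
  have hent : ∀ j k, p j ≠ p k → N j k = 0 := by
    have key : ∀ (B' A' : Matrix ι ι ℂ) (a b : ι → ℤ), (∀ j k, w j < a k → B' j k = 0) → (∀ j k, w j < b k → A' j k = 0) →
        ∀ j k, wt < a j + b k → (B'.transpose * (M.transpose * W * M) * A') j k = 0 := by
      intro B' A' a b hB' hA' j k hjk
      rw [Matrix.mul_apply]
      refine Finset.sum_eq_zero fun l' _ => ?_
      rw [Matrix.mul_apply, Finset.sum_mul]
      refine Finset.sum_eq_zero fun l _ => ?_
      rw [Matrix.transpose_apply]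
      by_cases h1 : w l < a j
      · rw [hB' l j h1, zero_mul, zero_mul]
      by_cases h2 : w l' < b k
      · rw [hA' l' k h2, mul_zero]
      rw [hV l l' (by linarith [not_lt.1 h1, not_lt.1 h2]), mul_zero, zero_mul]
    intro j k hjk
    have h1 : N = B.transpose * (M.transpose * W * M) * A := by
      rw [hN, hFc, hF]
      simp only [Matrix.mul_assoc]
    rcases lt_or_gt_of_ne hjk with h | h
    · rw [h1]
      exact key B A (fun j => wt - p j) p hB hA j k (by linarith)
    · have h2 : starRingEnd ℂ (N j k) = (A.transpose * (M.transpose * W * M) * B) j k := by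
        have h3 : N.map (starRingEnd ℂ) = A.transpose * (M.transpose * W * M) * B := by
          have h4 : (F.conjTranspose).map (starRingEnd ℂ) = A.transpose * M.transpose := by
            rw [← Matrix.transpose_mul, ← hF]
            ext i j
            simp [Matrix.conjTranspose_apply]
          have h5 : W.map (starRingEnd ℂ) = W := by
            rw [hW]
            ext i j
            simp
          rw [hN, Matrix.map_mul, Matrix.map_mul, h4, h5, hconj]
          simp only [Matrix.mul_assoc]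
        rw [← h3, Matrix.map_apply]
      have h6 : (A.transpose * (M.transpose * W * M) * B) j k = 0 :=
        key A B p (fun k => wt - p k) hA hB j k (by linarith)
      rw [h6] at h2
      exact (map_eq_zero _).1 h2
  have hDN : N * D' = D' * N := by
    ext j k
    rw [hD', Matrix.mul_diagonal, Matrix.diagonal_mul]
    by_cases h : p j = p k
    · rw [h, mul_comm]
    · rw [hent j k h, zero_mul, mul_zero]
  have hDD : D' * D = 1 := by
    rw [hD, hD', Matrix.diagonal_mul_diagonal, ← Matrix.diagonal_one]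
    congr 1
    funext k
    exact inv_mul_cancel₀ (zpow_ne_zero _ Complex.I_ne_zero)
  have hDD' : D * D' = 1 := by
    rw [hD, hD', Matrix.diagonal_mul_diagonal, ← Matrix.diagonal_one]
    congr 1
    funext k
    exact mul_inv_cancel₀ (zpow_ne_zero _ Complex.I_ne_zero)
  have hFE : F * E = 1 := mul_eq_one_comm.1 hE
  have h1 : F * D' * E * (S.map (Int.cast : ℤ → ℂ) * W) = F * N * E := by
    rw [hS, hN]
    calc F * D' * E * (F * D * F.conjTranspose * W) = F * D' * (E * F) * D * F.conjTranspose * W := by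
          simp only [Matrix.mul_assoc]
      _ = F * (D' * D) * F.conjTranspose * W * (F * E) := by
          rw [hE, hFE]
          simp only [Matrix.mul_assoc, Matrix.one_mul, Matrix.mul_one]
      _ = _ := by
          rw [hDD]
          simp only [Matrix.mul_assoc, Matrix.one_mul]
  have h2 : S.map (Int.cast : ℤ → ℂ) * W * (F * D' * E) = F * N * E := by
    rw [hS]
    calc F * D * F.conjTranspose * W * (F * D' * E) = F * D * (F.conjTranspose * W * F * D') * E := by
          simp only [Matrix.mul_assoc]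
      _ = F * (D * D') * N * E := by
          rw [← hN, hDN]
          simp only [Matrix.mul_assoc]
      _ = _ := by rw [hDD', Matrix.mul_one]
  rw [h1, h2]

theorem sum_one_mul {r : ℕ} (g h : Matrix ι ι ℂ) :
    (sum (1 : Matrix (Fin r) (Fin r) ℂ) g : Matrix (Fin r ⊕ ι) (Fin r ⊕ ι) ℂ) * sum 1 h = sum 1 (g * h) :=
  Pool.Agent.U543.GD.sum_mul' 1 g h

theorem sum_one_one {r : ℕ} : (sum (1 : Matrix (Fin r) (Fin r) ℂ) (1 : Matrix ι ι ℂ)) = 1 := by
  unfold sum
  exact Matrix.fromBlocks_one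

/-- the translates are integral -/
theorem exists_int {r m : ℕ} (g : Matrix ι ι ℤ) (v : (Fin m → Fin r ⊕ ι) → ℤ) :
    ∃ u : (Fin m → Fin r ⊕ ι) → ℤ,
      cx u = Matrix.vecMul (cx v) (tensor m (sum 1 (g.map (Int.cast : ℤ → ℂ)))) := by
  refine ⟨fun I => ∑ J, v J * ∏ t, (Matrix.fromBlocks 1 0 0 g : Matrix (Fin r ⊕ ι) (Fin r ⊕ ι) ℤ) (J t) (I t), ?_⟩
  funext I
  simp only [cx, Matrix.vecMul, dotProduct, tensor]
  push_cast
  refine Finset.sum_congr rfl fun J _ => ?_
  congr 1
  refine Finset.prod_congr rfl fun t _ => ?_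
  rcases J t with a | a <;> rcases I t with b | b
  · by_cases h : a = b
    · subst h
      simp [sum]
    · simp [sum, Matrix.one_apply_ne h]
  · simp [sum]
  · simp [sum]
  · simp [sum]

/-- **Finiteness of the automorphism group.** -/
theorem auts_finite {wt : ℤ} {w : ι → ℤ} {S : Matrix ι ι ℤ} {U : Set (X → ℂ)} {P : (X → ℂ) → Matrix ι ι ℂ} {r k : ℕ}
    {w₀ : Fin r → ℤ} {C₀ : Matrix (Fin r) (Fin r) ℂ} {H : ℝ} {Q : Matrix ι ι ℂ} (hQ : Polarized wt w S Q)
    (horb : ∀ m ≤ k, ∀ v : (Fin m → Fin r ⊕ ι) → ℤ, (∀ I, |(v I : ℝ)| ≤ H) →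
      IsHodge wt (Sum.elim w₀ w) (sum C₀ Q) v → (orbit (Auts U P S) v).Finite)
    (hL : Linked wt w S Q w₀ C₀ k H) : (Auts U P S).Finite := by
  classical
  obtain ⟨p, A, B, hFu, hA, hB, hconj, hS⟩ := hQ
  obtain ⟨F, hF⟩ : ∃ F, F = Q * A := ⟨_, rfl⟩
  rw [← hF] at hFu hconj hS
  obtain ⟨D, hD⟩ : ∃ D : Matrix ι ι ℂ, D = Matrix.diagonal fun k => Complex.I ^ (wt - 2 * p k) := ⟨_, rfl⟩
  obtain ⟨D', hD'⟩ : ∃ D' : Matrix ι ι ℂ, D' = Matrix.diagonal fun k => (Complex.I ^ (wt - 2 * p k))⁻¹ := ⟨_, rfl⟩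
  rw [← hD] at hS
  obtain ⟨E, hE'⟩ : ∃ E : Matrix ι ι ℂ, F * E = 1 :=
    ⟨_, Matrix.mul_nonsing_inv _ ((Matrix.isUnit_iff_isUnit_det _).1 hFu)⟩
  have hE : E * F = 1 := mul_eq_one_comm.1 hE'
  have hDD : D' * D = 1 := by
    rw [hD, hD', Matrix.diagonal_mul_diagonal, ← Matrix.diagonal_one]
    congr 1
    funext k
    exact inv_mul_cancel₀ (zpow_ne_zero _ Complex.I_ne_zero)
  obtain ⟨C, hC⟩ : ∃ C, C = F * D' * E := ⟨_, rfl⟩
  obtain ⟨S', hS'⟩ : ∃ S', S' = S.map (Int.cast : ℤ → ℂ) := ⟨_, rfl⟩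
  have hCS : C * S' = F * F.conjTranspose := by
    rw [hC, hS', hS]
    calc F * D' * E * (F * D * F.conjTranspose) = F * D' * (E * F) * D * F.conjTranspose := by
          simp only [Matrix.mul_assoc]
      _ = F * (D' * D) * F.conjTranspose := by
          rw [hE]
          simp only [Matrix.mul_assoc, Matrix.one_mul]
      _ = _ := by rw [hDD, Matrix.mul_one]
  have hCcomm : C ∈ Commutant (Corr wt w S Q w₀ C₀ 0 H) := by
    rintro _ ⟨v, J, -, hv, rfl⟩
    rw [Matrix.map_mul_intCast, hC]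
    exact weil_comm hF hA hB hconj hD hD' hS hE (slice v J) (slice_hodge hv J)
  have hSdet : S.det ≠ 0 := by
    intro h0
    have h1 : (S.map (Int.cast : ℤ → ℂ)).det = 0 := by
      have h2 := RingHom.map_det (Int.castRingHom ℂ) S
      rw [h0, map_zero] at h2
      exact h2.symm
    rw [hS, Matrix.det_mul, Matrix.det_mul, Matrix.det_conjTranspose] at h1
    have hFd : F.det ≠ 0 := ((Matrix.isUnit_iff_isUnit_det _).1 hFu).ne_zero
    have hDd : D.det ≠ 0 := by
      intro h3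
      have h4 := congrArg Matrix.det hDD
      rw [Matrix.det_mul, h3, mul_zero, Matrix.det_one] at h4
      exact zero_ne_one h4
    rcases mul_eq_zero.1 h1 with h3 | h3
    · rcases mul_eq_zero.1 h3 with h4 | h4
      · exact hFd h4
      · exact hDd h4
    · exact hFd (star_eq_zero.1 h3)
  -- the tensors
  let 𝒯 : Type := {q : Σ m : Fin (k + 1), ((Fin (m : ℕ) → Fin r ⊕ ι) → ℤ) //
    (∀ I, |(q.2 I : ℝ)| ≤ H) ∧ IsHodge wt (Sum.elim w₀ w) (sum C₀ Q) q.2}
  have hfin𝒯 : Finite 𝒯 := by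
    let e : 𝒯 → Σ m : Fin (k + 1), ((Fin (m : ℕ) → Fin r ⊕ ι) → Set.Icc (-⌈H⌉) ⌈H⌉) := fun q =>
      ⟨q.1.1, fun I => ⟨q.1.2 I, by
        have h1 : |(q.1.2 I : ℝ)| ≤ (⌈H⌉ : ℝ) := (q.2.1 I).trans (Int.le_ceil H)
        have h2 : |q.1.2 I| ≤ ⌈H⌉ := by exact_mod_cast h1
        exact abs_le.1 h2⟩⟩
    refine Finite.of_injective e ?_
    rintro ⟨⟨m, v⟩, hv⟩ ⟨⟨m', v'⟩, hv'⟩ h
    simp only [e, Sigma.mk.injEq] at h
    obtain ⟨h1, h2⟩ := h
    subst h1
    have h3 : v = v' := by
      funext I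
      have h4 := congrFun (eq_of_heq h2) I
      exact congrArg Subtype.val h4
    subst h3
    rfl
  let f : Matrix ι ι ℤ → (q : 𝒯) → ((Fin (q.1.1 : ℕ) → Fin r ⊕ ι) → ℂ) := fun g q =>
    Matrix.vecMul (cx q.1.2) (tensor (q.1.1 : ℕ) (sum 1 (g.map (Int.cast : ℤ → ℂ))))
  refine Set.Finite.of_finite_fibers f ?_ ?_
  · have h1 : {φ : (q : 𝒯) → ((Fin (q.1.1 : ℕ) → Fin r ⊕ ι) → ℂ) | ∀ q, φ q ∈ cx '' orbit (Auts U P S) q.1.2}.Finite :=
      Set.Finite.pi' fun q => (horb _ (Nat.lt_succ_iff.1 q.1.1.2) q.1.2 q.2.1 q.2.2).image _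
    refine h1.subset ?_
    rintro _ ⟨g, hg, rfl⟩ q
    obtain ⟨u, hu⟩ := exists_int g q.1.2
    exact ⟨u, ⟨g, hg, hu⟩, hu⟩
  · rintro _ ⟨h, hh, rfl⟩
    have hhS : h * S * h.transpose = S := hh.2
    have hhu : IsUnit h.det := by
      have h1 := congrArg Matrix.det hhS
      rw [Matrix.det_mul, Matrix.det_mul, Matrix.det_transpose] at h1
      have h2 : S.det * (h.det * h.det - 1) = 0 := by linear_combination h1
      have h3 := (mul_eq_zero.1 h2).resolve_left hSdet
      exact IsUnit.of_mul_eq_one (h.det) (by linarith)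
    have hinv : h * h⁻¹ = 1 := Matrix.mul_nonsing_inv _ hhu
    have hinv' : h⁻¹ * h = 1 := Matrix.nonsing_inv_mul _ hhu
    refine ((isom_finite F hFu).image fun κ => κ * h).subset ?_
    rintro g ⟨hg, hfg⟩
    have hfg' : f g = f h := hfg
    refine ⟨g * h⁻¹, ?_, by
      beta_reduce
      rw [Matrix.mul_assoc, hinv', Matrix.mul_one]⟩
    obtain ⟨G, hG⟩ : ∃ G : Matrix ι ι ℂ, G = (g * h⁻¹).map (Int.cast : ℤ → ℂ) := ⟨_, rfl⟩
    have hGS : G * S' * G.transpose = S' := by
      have h1 : (g * h⁻¹) * S * (g * h⁻¹).transpose = S := by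
        have h2 : h⁻¹ * S * (h⁻¹).transpose = S := by
          have h3 : h⁻¹ * (h * S * h.transpose) * (h⁻¹).transpose = h⁻¹ * S * (h⁻¹).transpose := by rw [hhS]
          rw [← h3]
          calc h⁻¹ * (h * S * h.transpose) * (h⁻¹).transpose = (h⁻¹ * h) * S * (h.transpose * (h⁻¹).transpose) := by
                simp only [Matrix.mul_assoc]
            _ = S := by rw [hinv', ← Matrix.transpose_mul, hinv', Matrix.transpose_one, Matrix.one_mul, Matrix.mul_one]
        calc (g * h⁻¹) * S * (g * h⁻¹).transpose = g * (h⁻¹ * S * (h⁻¹).transpose) * g.transpose := by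
              rw [Matrix.transpose_mul]
              simp only [Matrix.mul_assoc]
          _ = S := by rw [h2]; exact hg.2
      have h4 := congrArg (fun A : Matrix ι ι ℤ => A.map (Int.castRingHom ℂ)) h1
      simp only [Matrix.map_mul, Matrix.transpose_map] at h4
      rw [hG, hS', Matrix.map_mul_intCast]
      exact h4
    have hGfix : ∀ (m : ℕ), m ≤ k → ∀ v : (Fin m → Fin r ⊕ ι) → ℤ, (∀ I, |(v I : ℝ)| ≤ H) →
        IsHodge wt (Sum.elim w₀ w) (sum C₀ Q) v → Matrix.vecMul (cx v) (tensor m (sum 1 G)) = cx v := by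
      intro m hm v hv hvH
      have h1 := congrFun hfg' ⟨⟨⟨m, Nat.lt_succ_of_le hm⟩, v⟩, hv, hvH⟩
      have h2 : Matrix.vecMul (cx v) (tensor m (sum 1 (g.map (Int.cast : ℤ → ℂ)))) =
          Matrix.vecMul (cx v) (tensor m (sum 1 (h.map (Int.cast : ℤ → ℂ)))) := h1
      have h3 : ∀ a b : Matrix ι ι ℤ, tensor m (sum (1 : Matrix (Fin r) (Fin r) ℂ) ((a * b).map (Int.cast : ℤ → ℂ))) =
          tensor m (sum 1 (a.map (Int.cast : ℤ → ℂ))) * tensor m (sum 1 (b.map (Int.cast : ℤ → ℂ))) := by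
        intro a b
        rw [Matrix.map_mul_intCast, ← sum_one_mul, Pool.Agent.U543.GD.tensor_mul]
      rw [hG, h3, ← Matrix.vecMul_vecMul, h2, Matrix.vecMul_vecMul, ← h3, hinv]
      have h4 : ((1 : Matrix ι ι ℤ).map (Int.cast : ℤ → ℂ)) = 1 := by
        ext i j
        by_cases hij : i = j
        · subst hij
          simp
        · simp [Matrix.one_apply_ne hij]
      rw [h4, sum_one_one, Pool.Agent.U543.HT.tensor_one, Matrix.vecMul_one]
    have hGcomm : G ∈ Commutant {E | ∃ m, m + 2 ≤ k ∧ E ∈ Corr wt w S Q w₀ C₀ m H} := by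
      rintro _ ⟨m, hm, v, J, hv, hvH, rfl⟩
      have h1 := slice_fix (hGfix (m + 2) hm v hv hvH) J
      rw [Matrix.map_mul_intCast, ← hS']
      calc G * (S' * (slice v J).map (Int.cast : ℤ → ℂ)) =
            G * S' * (G.transpose * (slice v J).map (Int.cast : ℤ → ℂ) * G) := by rw [h1, Matrix.mul_assoc]
        _ = (G * S' * G.transpose) * (slice v J).map (Int.cast : ℤ → ℂ) * G := by simp only [Matrix.mul_assoc]
        _ = _ := by rw [hGS]
    have hGC := hL G hGcomm C hCcomm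
    have hGt : G.conjTranspose = G.transpose := by
      rw [hG]
      ext i j
      simp [Matrix.conjTranspose_apply]
    change (g * h⁻¹).map (Int.cast : ℤ → ℂ) * (F * F.conjTranspose) *
      ((g * h⁻¹).map (Int.cast : ℤ → ℂ)).conjTranspose = F * F.conjTranspose
    rw [← hG, hGt, ← hCS, ← Matrix.mul_assoc, hGC, Matrix.mul_assoc, Matrix.mul_assoc, ← Matrix.mul_assoc G, hGS]

end Pool.Agent.U543.LK
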