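import Pool.Agent.U543.GalDef

/-!
# Families of complex tori with normal functions: definitions

`ι` is a basis of the lattice (the homology), `κ` a basis of the differentials in the step `F ^ i` of the Hodge filtration,
`ρ` the set of the normal functions (families of homologically trivial cycles of dimension `i - 1`).
-/

set_option autoImplicit false

open NumberField

namespace Pool.Agent.U543.NF

open Pool.Agent.U543.GD (Gal Family Height Inner)

variable {X ρ ι κ : Type} [Fintype X] [Fintype ρ] [Fintype ι] [DecidableEq ρ] [DecidableEq ι]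

/-- A family of complex tori `ℂ ^ κ / Λ`, `Λ` the lattice generated by the rows of `P x`, over the connected open set `U`,
with normal functions (sections) given by the rows of `ν x`: the rows of `P x` are linearly independent over `ℝ`, `P` and
`ν` are analytic, and `ℂ(x)` is algebraically closed in `ℂ(x, ν, P)`. -/
structure NormalFunctions (U : Set (X → ℂ)) (ν : (X → ℂ) → Matrix ρ κ ℂ) (P : (X → ℂ) → Matrix ι κ ℂ) : Prop where
  family : Family U fun x => Matrix.fromRows (ν x) (P x)
  independent : ∀ x ∈ U, ∀ n : ι → ℝ, Matrix.vecMul (fun i => (n i : ℂ)) (P x) = 0 → n = 0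

/-- The integral matrices `(1, a; 0, M)` in the Galois group of the family; `ν + a P` and `M P` satisfy all polynomial
relations over `ℂ[x]` between `ν` and `P`. -/
def Mon (U : Set (X → ℂ)) (ν : (X → ℂ) → Matrix ρ κ ℂ) (P : (X → ℂ) → Matrix ι κ ℂ) :
    Set (Matrix (ρ ⊕ ι) (ρ ⊕ ι) ℤ) :=
  {g | (∃ (a : Matrix ρ ι ℤ) (M : Matrix ι ι ℤ), g = Matrix.fromBlocks 1 a 0 M) ∧
    g.map (Int.cast : ℤ → ℂ) ∈ Gal U fun x => Matrix.fromRows (ν x) (P x)}

/-- The combination `∑ N_a ν_a + ∑ n_l P_l` of the normal functions and the periods is invariant under the monodromy. -/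
def Invariant (U : Set (X → ℂ)) (ν : (X → ℂ) → Matrix ρ κ ℂ) (P : (X → ℂ) → Matrix ι κ ℂ) (N : ρ → ℤ) (n : ι → ℤ) :
    Prop :=
  ∀ g ∈ Mon U ν P, Matrix.vecMul (Sum.elim N n) g = Sum.elim N n

/-- The points `s` of `U` with coordinates in `K` of height at most `T`, of norm at most `k` and at distance at least
`1 / k` from the complement of `U`, such that at some complex point `z` of `U` at distance at most `T ^ (-B)` from `s` a
combination `∑ N_a ν_a(z)` of the normal functions, `|N_a| ≤ T ^ k`, is at distance at most `T ^ (-B)` from the point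
`-∑ n_l P_l(z)` of the lattice, and `(N, n)` is in `S`. -/
def Near (U : Set (X → ℂ)) (ν : (X → ℂ) → Matrix ρ κ ℂ) (P : (X → ℂ) → Matrix ι κ ℂ) (S : Set ((ρ → ℤ) × (ι → ℤ)))
    (k : ℕ) (B : ℝ) (K : Type) [Field K] [NumberField K] (io : K →+* ℂ) (T : ℝ) : Set (X → K) :=
  {s | (∀ j, s j ∈ Height K T) ∧ (fun j => io (s j)) ∈ Inner U k ∧ ∃ z ∈ U, ‖(fun j => io (s j)) - z‖ ≤ T ^ (-B) ∧
    ∃ (N : ρ → ℤ) (n : ι → ℤ), (∀ a, |(N a : ℝ)| ≤ T ^ k) ∧ (N, n) ∈ S ∧
      ∀ j, ‖∑ a, (N a : ℂ) * ν z a j + ∑ l, (n l : ℂ) * P z l j‖ ≤ T ^ (-B)}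

end Pool.Agent.U543.NF
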