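import Pool.Agent.U543.NfMain

/-!
# Specialisation of normal functions: end of the proof
-/

set_option autoImplicit false
set_option linter.unusedSectionVars false

open NumberField Filter

namespace Pool.Agent.U543.NF

open Pool.Agent.Y890.MV
open Pool.Agent.Y124 (Cov)
open Pool.Agent.U543.GD (Gal Family Height Inner)

variable {X ρ ι κ : Type} [Fintype X] [DecidableEq X] [Nonempty X] [Fintype ρ] [DecidableEq ρ] [Fintype ι]
  [DecidableEq ι] [Fintype κ] [DecidableEq κ]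

theorem near_mono {U : Set (X → ℂ)} {ν : (X → ℂ) → Matrix ρ κ ℂ} {P : (X → ℂ) → Matrix ι κ ℂ}
    {S S' : Set ((ρ → ℤ) × (ι → ℤ))} (hS : S ⊆ S') {k : ℕ} {B B' : ℝ} (hB : B' ≤ B) (K : Type) [Field K]
    [NumberField K] (io : K →+* ℂ) {T : ℝ} (hT : 1 ≤ T) : Near U ν P S k B K io T ⊆ Near U ν P S' k B' K io T := by
  have h0 : T ^ (-B) ≤ T ^ (-B') := Real.rpow_le_rpow_of_exponent_le hT (by linarith)
  rintro s ⟨h1, h2, z, hz, hsz, N, n, hN, hp, hn⟩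
  exact ⟨h1, h2, z, hz, hsz.trans h0, N, n, hN, hS hp, fun j => (hn j).trans h0⟩

/-- growing bounds -/
theorem nf_grow {U : Set (X → ℂ)} {ν : (X → ℂ) → Matrix ρ κ ℂ} {P : (X → ℂ) → Matrix ι κ ℂ}
    (h : NormalFunctions U ν P) (φ : ℝ → ℝ) (hφ : Tendsto φ atTop atTop) :
    ∃ (ω : ℝ → ℕ) (T₀ : ℝ), Tendsto ω atTop atTop ∧ Monotone ω ∧ ∀ T, T₀ ≤ T → 0 < ω T ∧
      ∀ (K : Type) [Field K] [NumberField K], Module.finrank ℚ K ≤ ω T → ∀ (io : K →+* ℂ),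
        Cov ⌊T ^ ((ω T : ℝ)⁻¹)⌋₊ ⌊T ^ ((ω T : ℝ)⁻¹)⌋₊
          ((fun (s : X → K) j => io (s j)) '' Near U ν P {p | ¬ Invariant U ν P p.1 p.2} (ω T) (φ T) K io T) ∧
        (Near U ν P {p | ¬ Invariant U ν P p.1 p.2} (ω T) (φ T) K io T).Finite ∧
        ((Near U ν P {p | ¬ Invariant U ν P p.1 p.2} (ω T) (φ T) K io T).ncard : ℝ) ≤
          T ^ ((ω T : ℝ)⁻¹) * ((Height K T).ncard : ℝ) ^ (Fintype.card X - 1) := by
  classical
  obtain ⟨ω, T₀, h1, h2, h3⟩ := omega_gen (fun _ => Unit)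
    (fun k K _ _ io _ T => Near U ν P {p | ¬ Invariant U ν P p.1 p.2} k (φ T) K io T)
    (fun k K _ _ io p T s hs => hs.1) (by
      intro k ε hε
      obtain ⟨D, B, C, T₁, hC, hT₁, H⟩ := nf_fix h k ε hε
      obtain ⟨T₂, hT₂⟩ := (hφ.eventually_ge_atTop B).exists_forall_of_atTop
      refine ⟨D, C, max T₁ T₂, hC, hT₁.trans (le_max_left _ _), fun K _ _ hK io q T hT => ?_⟩
      have hTa : T₁ ≤ T := (le_max_left _ _).trans hT
      have hTb : T₂ ≤ T := (le_max_right _ _).trans hT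
      exact (H T hTa K hK io).1.mono le_rfl le_rfl
        (Set.image_mono (near_mono subset_rfl (hT₂ T hTb) K io (by linarith))))
  exact ⟨ω, T₀, h1, h2, fun T hT => ⟨(h3 T hT).1, fun K _ _ hK io => (h3 T hT).2 K hK io ()⟩⟩

end Pool.Agent.U543.NF
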