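import Mathlib

/-!
# Coefficients of combinations of integral vectors
-/

set_option autoImplicit false

namespace Pool.Agent.U543.NH

/-- Every vector in the real span of integral vectors of absolute value at most `H` is a combination of these vectors with
coefficients bounded by a power of `H` times the norm of the vector. -/
theorem lat (q N : Type) [Fintype q] [DecidableEq q] [Fintype N] [DecidableEq N] :
    ∃ (C : ℝ) (c : ℕ), 0 ≤ C ∧ ∀ (u : q → N → ℤ) (H : ℝ), 1 ≤ H → (∀ i j, |(u i j : ℝ)| ≤ H) → ∀ y : N → ℝ,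
      y ∈ Submodule.span ℝ (Set.range fun i (j : N) => (u i j : ℝ)) →
      ∃ x : q → ℝ, y = ∑ i, x i • (fun j => (u i j : ℝ)) ∧ ∀ i, |x i| ≤ C * H ^ c * ‖y‖ := by
  classical
  obtain ⟨Q, hQ⟩ : ∃ Q, Q = Fintype.card q := ⟨_, rfl⟩
  obtain ⟨n, hn⟩ : ∃ n, n = Fintype.card N := ⟨_, rfl⟩
  refine ⟨Q * (Q.factorial * ((n : ℝ) + 1) ^ Q) * n, 2 * Q + 1, by positivity, ?_⟩
  intro u H hH hu y hy
  have hH0 : 0 < H := by linarith
  let v : q → (N → ℝ) := fun i j => (u i j : ℝ)
  obtain ⟨κ, a, ha, hspan, hli⟩ := exists_linearIndependent' ℝ v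
  have hfκ : Finite κ := Finite.of_injective a ha
  let := Fintype.ofFinite κ
  obtain ⟨U, hU⟩ : ∃ U : Matrix κ N ℤ, U = Matrix.of fun i j => u (a i) j := ⟨_, rfl⟩
  obtain ⟨V, hV⟩ : ∃ V : Matrix κ N ℝ, V = Matrix.of fun i j => (u (a i) j : ℝ) := ⟨_, rfl⟩
  have hVe : ∀ i j, V i j = (u (a i) j : ℝ) := fun i j => by rw [hV]; rfl
  have hG : (U * U.transpose).map (Int.cast : ℤ → ℝ) = V * V.transpose := by
    ext i j
    simp only [Matrix.map_apply, Matrix.mul_apply, Matrix.transpose_apply, hVe, hU, Matrix.of_apply]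
    push_cast
    rfl
  have hvm : ∀ x : κ → ℝ, Matrix.vecMul x V = ∑ i, x i • v (a i) := by
    intro x
    funext j
    simp only [Matrix.vecMul, dotProduct, Finset.sum_apply, Pi.smul_apply, smul_eq_mul, hVe]
    rfl
  have hdet : (V * V.transpose).det ≠ 0 := by
    intro h0
    obtain ⟨x, hx0, hx⟩ := Matrix.exists_mulVec_eq_zero_iff.2 h0
    have h1 : Matrix.vecMul x V ⬝ᵥ Matrix.vecMul x V = 0 := by
      have h2 : x ⬝ᵥ (V * V.transpose).mulVec x = 0 := by rw [hx, dotProduct_zero]
      rw [← Matrix.mulVec_mulVec, Matrix.dotProduct_mulVec, Matrix.mulVec_transpose] at h2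
      exact h2
    have h3 : Matrix.vecMul x V = 0 := dotProduct_self_eq_zero.1 h1
    rw [hvm] at h3
    have h4 := (Fintype.linearIndependent_iff.1 hli) x h3
    exact hx0 (funext h4)
  have hdet1 : 1 ≤ |(V * V.transpose).det| := by
    have h1 : (V * V.transpose).det = (((U * U.transpose).det : ℤ) : ℝ) := by
      rw [← hG]
      exact (RingHom.map_det (Int.castRingHom ℝ) (U * U.transpose)).symm
    rw [h1] at hdet ⊢
    have h2 : (U * U.transpose).det ≠ 0 := by exact_mod_cast hdet
    have h3 := Int.one_le_abs h2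
    exact_mod_cast h3
  have hy' : y ∈ Submodule.span ℝ (Set.range (v ∘ a)) := by
    rw [hspan]
    exact hy
  obtain ⟨x, hx⟩ := (Submodule.mem_span_range_iff_exists_fun ℝ).1 hy'
  have hxy : Matrix.vecMul x V = y := by
    rw [hvm, ← hx]
    rfl
  have hcard : Fintype.card κ ≤ Q := hQ ▸ Fintype.card_le_of_injective a ha
  have hQx : ∀ i, |x i| ≤ Q * (Q.factorial * ((n : ℝ) + 1) ^ Q) * n * H ^ (2 * Q + 1) * ‖y‖ := by
    intro i
    have h1 : (V * V.transpose).adjugate.mulVec (V.mulVec y) = (V * V.transpose).det • x := by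
      rw [← hxy, ← Matrix.mulVec_transpose, Matrix.mulVec_mulVec, Matrix.mulVec_mulVec,
        Matrix.mul_assoc, Matrix.adjugate_mul, Matrix.smul_mulVec, Matrix.one_mulVec]
    have h2 : |x i| ≤ |((V * V.transpose).det • x) i| := by
      rw [Pi.smul_apply, smul_eq_mul, abs_mul]
      nlinarith [abs_nonneg (x i)]
    rw [← h1] at h2
    have hE : ∀ i j, |(V * V.transpose) i j| ≤ ((n : ℝ) + 1) * H ^ 2 := by
      intro i j
      rw [Matrix.mul_apply]
      refine (Finset.abs_sum_le_sum_abs _ _).trans ?_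
      have h3 : ∀ k ∈ (Finset.univ : Finset N), |V i k * V.transpose k j| ≤ H * H := by
        intro k _
        rw [abs_mul, Matrix.transpose_apply, hVe, hVe]
        exact mul_le_mul (hu _ _) (hu _ _) (abs_nonneg _) hH0.le
      refine (Finset.sum_le_sum h3).trans ?_
      rw [Finset.sum_const, Finset.card_univ, nsmul_eq_mul, ← hn]
      nlinarith [mul_pos hH0 hH0]
    have hE1 : 1 ≤ ((n : ℝ) + 1) * H ^ 2 := by nlinarith [(Nat.cast_nonneg n : (0 : ℝ) ≤ n), mul_pos hH0 hH0]
    have hadj : ∀ j, |(V * V.transpose).adjugate i j| ≤ Q.factorial * (((n : ℝ) + 1) * H ^ 2) ^ Q := by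
      intro j
      rw [Matrix.adjugate_apply]
      have h3 := Matrix.det_le (A := (V * V.transpose).updateRow j (Pi.single i 1)) (abv := AbsoluteValue.abs)
        (x := ((n : ℝ) + 1) * H ^ 2) (by
          intro k l
          change |_| ≤ _
          by_cases hk : k = j
          · subst hk
            rw [Matrix.updateRow_self]
            by_cases hl : l = i
            · subst hl
              rw [Pi.single_eq_same, abs_one]
              exact hE1
            · rw [Pi.single_eq_of_ne hl, abs_zero]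
              linarith
          · rw [Matrix.updateRow_ne hk]
            exact hE k l)
      rw [nsmul_eq_mul] at h3
      change |_| ≤ _ at h3
      refine h3.trans ?_
      have h4 : ((Fintype.card κ).factorial : ℝ) ≤ Q.factorial := by exact_mod_cast Nat.factorial_le hcard
      exact mul_le_mul h4 (pow_le_pow_right₀ hE1 hcard) (by positivity) (by positivity)
    have hVy : ∀ j, |V.mulVec y j| ≤ n * (H * ‖y‖) := by
      intro j
      change |∑ k, V j k * y k| ≤ _
      refine (Finset.abs_sum_le_sum_abs _ _).trans ?_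
      have h3 : ∀ k ∈ (Finset.univ : Finset N), |V j k * y k| ≤ H * ‖y‖ := by
        intro k _
        rw [abs_mul, hVe]
        exact mul_le_mul (hu _ _) (norm_le_pi_norm y k) (abs_nonneg _) hH0.le
      refine (Finset.sum_le_sum h3).trans ?_
      rw [Finset.sum_const, Finset.card_univ, nsmul_eq_mul, ← hn]
    refine h2.trans ?_
    change |∑ j, (V * V.transpose).adjugate i j * V.mulVec y j| ≤ _
    refine (Finset.abs_sum_le_sum_abs _ _).trans ?_
    have h5 : ∀ j ∈ (Finset.univ : Finset κ), |(V * V.transpose).adjugate i j * V.mulVec y j| ≤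
        (Q.factorial * (((n : ℝ) + 1) * H ^ 2) ^ Q) * (n * (H * ‖y‖)) := by
      intro j _
      rw [abs_mul]
      exact mul_le_mul (hadj j) (hVy j) (abs_nonneg _) (by positivity)
    refine (Finset.sum_le_sum h5).trans ?_
    rw [Finset.sum_const, Finset.card_univ, nsmul_eq_mul]
    have h6 : ((Fintype.card κ : ℕ) : ℝ) ≤ Q := by exact_mod_cast hcard
    refine (mul_le_mul_of_nonneg_right h6 (by positivity)).trans (le_of_eq ?_)
    rw [mul_pow, ← pow_mul, pow_succ]
    ring
  refine ⟨Function.extend a x 0, ?_, ?_⟩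
  · rw [← hxy, hvm]
    refine Fintype.sum_of_injective a ha (fun i => x i • v (a i)) (fun i => Function.extend a x 0 i • fun j => (u i j : ℝ))
      (fun i hi => ?_) (fun i => ?_)
    · rw [Function.extend_apply' _ _ _ (by simpa using hi)]
      simp
    · rw [ha.extend_apply]
  · intro i
    by_cases hi : ∃ j, a j = i
    · obtain ⟨j, rfl⟩ := hi
      rw [ha.extend_apply]
      exact hQx j
    · rw [Function.extend_apply' _ _ _ hi, Pi.zero_apply, abs_zero]
      positivity

end Pool.Agent.U543.NH
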