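import Pool.Agent.U543.SnNear
import Pool.Agent.U543.HtMain

/-!
# Near Hodge tensors remain near Hodge tensors on the fibre
-/

set_option autoImplicit false
set_option linter.unusedSectionVars false

open NumberField

namespace Pool.Agent.U543.NH

open Pool.Agent.Y890.MV
open Pool.Agent.Y124 (Cov)
open Pool.Agent.U543.GD (Gal Family tensor sum regularM)
open Pool.Agent.U543.HT (cx)
open Pool.Agent.U543.SN (fib stab)

variable {X ι : Type} [Fintype X] [DecidableEq X] [Nonempty X] [Fintype ι] [DecidableEq ι]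

theorem cov_iUnion {J : Type} [Fintype J] {D : ℕ} (n : J → ℕ) (S : J → Set (X → ℂ)) (h : ∀ j, Cov D (n j) (S j)) :
    Cov D (∑ j, n j) (⋃ j, S j) := by
  classical
  have key : ∀ s : Finset J, Cov D (∑ j ∈ s, n j) (⋃ j ∈ s, S j) := by
    intro s
    induction s using Finset.induction_on with
    | empty => exact ⟨∅, by simp, by simp, by simp⟩
    | insert a s ha ih =>
      rw [Finset.sum_insert ha, Finset.set_biUnion_insert]
      exact (h a).union ih
  have h1 := key Finset.univ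
  simpa using h1

/-- the constant factor -/
def part {r : ℕ} (C₀ : Matrix (Fin r) (Fin r) ℂ) : Fin r ⊕ ι → Fin r ⊕ ι → ℂ
  | Sum.inl a, Sum.inl b => C₀ a b
  | Sum.inr _, Sum.inr _ => 1
  | _, _ => 0

/-- the constant -/
def cst {r m : ℕ} (C₀ : Matrix (Fin r) (Fin r) ℂ) (J I : Fin m → Fin r ⊕ ι) : ℂ := ∏ t, part C₀ (I t) (J t)

/-- the multiplicities -/
def mlt {r m : ℕ} (J I : Fin m → Fin r ⊕ ι) (p : ι × ι) : Fin (m + 1) :=
  ⟨(Finset.univ.filter fun t => I t = Sum.inr p.1 ∧ J t = Sum.inr p.2).card,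
    Nat.lt_succ_of_le ((Finset.card_filter_le _ _).trans (by simp))⟩

theorem ten_eq {r m : ℕ} (C₀ : Matrix (Fin r) (Fin r) ℂ) (Y : Matrix ι ι ℂ) (I J : Fin m → Fin r ⊕ ι) :
    tensor m (sum C₀ Y) I J = cst C₀ J I * ∏ p : ι × ι, Y p.1 p.2 ^ (mlt J I p : ℕ) := by
  have h1 : ∀ t, sum C₀ Y (I t) (J t) =
      part C₀ (I t) (J t) * ∏ p : ι × ι, if I t = Sum.inr p.1 ∧ J t = Sum.inr p.2 then Y p.1 p.2 else 1 := by
    intro t
    rcases I t with a | a <;> rcases J t with b | b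
    · simp [sum, part]
    · simp [sum, part]
    · simp [sum, part]
    · have h2 : ∀ p : ι × ι, ((Sum.inr a : Fin r ⊕ ι) = Sum.inr p.1 ∧ (Sum.inr b : Fin r ⊕ ι) = Sum.inr p.2) ↔ p = (a, b) := by
        rintro ⟨c, d⟩
        simp only [Sum.inr.injEq, Prod.mk.injEq]
        constructor
        · rintro ⟨rfl, rfl⟩
          exact ⟨rfl, rfl⟩
        · rintro ⟨rfl, rfl⟩
          exact ⟨rfl, rfl⟩
      simp only [h2, Finset.prod_ite_eq', Finset.mem_univ, if_true, part, one_mul, sum, Matrix.fromBlocks_apply₂₂]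
  unfold tensor cst
  rw [Finset.prod_congr rfl fun t _ => h1 t, Finset.prod_mul_distrib, Finset.prod_comm]
  congr 1
  refine Finset.prod_congr rfl fun p _ => ?_
  rw [Finset.prod_ite, Finset.prod_const_one, mul_one, Finset.prod_const]
  rfl

theorem cst_bound {r m : ℕ} {C₀ : Matrix (Fin r) (Fin r) ℂ} {R : ℝ} (hR : 1 ≤ R) (hC : ∀ i j, ‖C₀ i j‖ ≤ R)
    (J I : Fin m → Fin r ⊕ ι) : ‖cst C₀ J I‖ ≤ R ^ m := by
  unfold cst
  rw [norm_prod]
  have h1 : ∀ t ∈ (Finset.univ : Finset (Fin m)), ‖part C₀ (I t) (J t)‖ ≤ R := by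
    intro t _
    rcases I t with a | a <;> rcases J t with b | b <;> simp [part]
    · exact hC a b
    · linarith
    · linarith
    · exact hR
  refine (Finset.prod_le_prod (fun _ _ => norm_nonneg _) h1).trans ?_
  simp

/-- **Near relations are near relations for all `g P`.** -/
theorem near_trans {U : Set (X → ℂ)} {P : (X → ℂ) → Matrix ι ι ℂ} (h : Family U P) {k : ℕ} (hk : 0 < k) (m r : ℕ)
    (R : ℝ) (G₀ : Finset (Matrix ι ι ℂ)) (hG₀ : ∀ g ∈ G₀, g ∈ Gal U P) (B₂ ε : ℝ) (hε : 0 < ε) :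
    ∃ (D : ℕ) (B C T₀ : ℝ), 0 ≤ C ∧ 2 ≤ T₀ ∧ ∀ (K : Type) [Field K] [NumberField K], Module.finrank ℚ K ≤ k →
      ∀ (io : K →+* ℂ) (C₀ : Matrix (Fin r) (Fin r) ℂ), (∀ i j, ‖C₀ i j‖ ≤ R) → ∀ T : ℝ, T₀ ≤ T →
        Cov D ⌊C * T ^ ε⌋₊ {t : X → ℂ | t ∈ InnerM U k ∧ ∃ s : X → K,
          (∀ i, Y120.HtLe K T (s i)) ∧ (t = fun i => io (s i)) ∧ ∃ v : (Fin m → Fin r ⊕ ι) → ℤ,
            (∀ I, |(v I : ℝ)| ≤ T ^ k) ∧ ∃ J, ‖Matrix.vecMul (cx v) (tensor m (sum C₀ (P t))) J‖ ≤ T ^ (-B) ∧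
              ∃ g ∈ G₀, T ^ (-B₂) < ‖Matrix.vecMul (cx v) (tensor m (sum C₀ (g * P t))) J‖} := by
  classical
  have hf : ∀ p : ι × ι, AnalyticOnNhd ℂ (fun x => P x p.1 p.2) U := fun p => h.analytic p.1 p.2
  have hS := stab h.isPreconnected h.isOpen h.nonempty hf (regularM h.regular)
    (InnerM U k) (innerM_compact _ _) (innerM_sub _ hk) m (Fin m → Fin r ⊕ ι) k (k : ℝ) (B₂ + 1) ε hε
  obtain ⟨D, B, C, T₁, hC, hT₁, H⟩ := hS
  -- the bound for the monomials
  have hb : ∀ g : Matrix ι ι ℂ, ∃ b : ℝ, ∀ t ∈ InnerM U k,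
      ∑ l : ι × ι → Fin (m + 1), ∏ p : ι × ι, ‖(g * P t) p.1 p.2‖ ^ (l p : ℕ) ≤ b := by
    intro g
    have hcont : ContinuousOn (fun t => ∑ l : ι × ι → Fin (m + 1), ∏ p : ι × ι, ‖(g * P t) p.1 p.2‖ ^ (l p : ℕ))
        (InnerM U k) := by
      refine continuousOn_finsetSum _ fun l _ => continuousOn_finsetProd _ fun p _ => ContinuousOn.pow (ContinuousOn.norm ?_) _
      simp only [Matrix.mul_apply]
      exact continuousOn_finsetSum _ fun j _ => continuousOn_const.mul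
        (((h.analytic j p.2).continuousOn).mono (innerM_sub _ hk))
    obtain ⟨b, hb⟩ := (innerM_compact U k).bddAbove_image hcont
    exact ⟨b, fun t ht => hb ⟨t, ht, rfl⟩⟩
  choose b hb using hb
  obtain ⟨R₁, hR₁⟩ : ∃ R₁ : ℝ, R₁ = ∑ g ∈ G₀, |b g| := ⟨_, rfl⟩
  obtain ⟨n, hn⟩ : ∃ n, n = Fintype.card (Fin m → Fin r ⊕ ι) := ⟨_, rfl⟩
  refine ⟨D, B, n * C, max T₁ (max R₁ ((max 1 R) ^ m)), by positivity, hT₁.trans (le_max_left _ _), ?_⟩
  intro K _ _ hK io C₀ hC₀ T hT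
  have hTa : T₁ ≤ T := (le_max_left _ _).trans hT
  have hTb : R₁ ≤ T := ((le_max_left _ _).trans (le_max_right _ _)).trans hT
  have hTc : (max 1 R) ^ m ≤ T := ((le_max_right _ _).trans (le_max_right _ _)).trans hT
  have hT1 : 1 ≤ T := by linarith
  have hTp : 0 < T := by linarith
  have hξ : ∀ J I : Fin m → Fin r ⊕ ι, ‖cst C₀ J I‖ ≤ T ^ (k : ℝ) := by
    intro J I
    refine (cst_bound (le_max_left 1 R) (fun i j => (hC₀ i j).trans (le_max_right 1 R)) J I).trans (hTc.trans ?_)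
    rw [Real.rpow_natCast]
    exact le_self_pow₀ hT1 hk.ne'
  have hcov := cov_iUnion (fun _ : Fin m → Fin r ⊕ ι => ⌊C * T ^ ε⌋₊) _ fun J => H K hK io (cst C₀ J) T hTa (hξ J)
  refine hcov.mono le_rfl ?_ ?_
  · rw [Finset.sum_const, Finset.card_univ, ← hn, smul_eq_mul]
    apply Nat.le_floor
    push_cast
    have h1 := Nat.floor_le (a := C * T ^ ε) (by positivity)
    calc (n : ℝ) * ⌊C * T ^ ε⌋₊ ≤ n * (C * T ^ ε) := mul_le_mul_of_nonneg_left h1 (by positivity)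
      _ = _ := by ring
  rintro t ⟨htL, s, hs1, hts, v, hv, J, hnear, g, hg, hfar⟩
  rw [Set.mem_iUnion]
  have hcast : ∀ I, io ((((v I : ℤ) : 𝓞 K) : 𝓞 K) : K) = (v I : ℂ) := by
    intro I
    simp
  have hrel : ∀ Y : Matrix ι ι ℂ, Matrix.vecMul (cx v) (tensor m (sum C₀ Y)) J =
      ∑ l : ι × ι → Fin (m + 1), (∑ I, cst C₀ J I * io (((if mlt J I = l then ((v I : ℤ) : 𝓞 K) else 0 : 𝓞 K)) : K)) *
        ∏ p, Y p.1 p.2 ^ (l p : ℕ) := by
    intro Y
    simp only [Finset.sum_mul]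
    rw [Finset.sum_comm]
    refine Finset.sum_congr rfl fun I _ => ?_
    rw [Finset.sum_eq_single (mlt J I) (fun l _ hl => by rw [if_neg (Ne.symm hl)]; simp) (by simp), if_pos rfl, hcast]
    change cx v I * tensor m (sum C₀ Y) I J = _
    rw [ten_eq]
    simp only [cx]
    ring
  refine ⟨J, htL, s, hs1, hts, fun l I => if mlt J I = l then ((v I : ℤ) : 𝓞 K) else 0, ?_, ?_, ?_⟩
  · intro l I φ
    rw [Real.rpow_natCast]
    beta_reduce
    by_cases hl : mlt J I = l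
    · rw [if_pos hl]
      simpa using hv I
    · rw [if_neg hl]
      simp only [map_zero, norm_zero]
      positivity
  · have h1 := hrel (P t)
    rw [h1] at hnear
    exact hnear
  · rintro ⟨P', hP', hvan⟩
    have hmem : (fun p : ι × ι => (g * P t) p.1 p.2) ∈ fib U (fun (p : ι × ι) x => P x p.1 p.2) t := by
      intro F hF
      exact hG₀ g hg F hF t (innerM_sub _ hk htL)
    have h0 := hvan _ hmem
    have h1 := hrel (g * P t)
    have h2 : Matrix.vecMul (cx v) (tensor m (sum C₀ (g * P t))) J =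
        ∑ l : ι × ι → Fin (m + 1), ((∑ I, cst C₀ J I * io (((if mlt J I = l then ((v I : ℤ) : 𝓞 K) else 0 : 𝓞 K)) : K)) -
          P' l) * ∏ p, (g * P t) p.1 p.2 ^ (l p : ℕ) := by
      simp only [sub_mul, Finset.sum_sub_distrib]
      rw [h1, h0, sub_zero]
    have h3 : ‖Matrix.vecMul (cx v) (tensor m (sum C₀ (g * P t))) J‖ ≤ T ^ (-(B₂ + 1)) * b g := by
      rw [h2]
      calc _ ≤ ∑ l : ι × ι → Fin (m + 1), T ^ (-(B₂ + 1)) * ∏ p : ι × ι, ‖(g * P t) p.1 p.2‖ ^ (l p : ℕ) := by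
            refine (norm_sum_le _ _).trans (Finset.sum_le_sum fun l _ => ?_)
            rw [norm_mul, norm_prod]
            simp only [norm_pow]
            refine mul_le_mul_of_nonneg_right ?_ (Finset.prod_nonneg fun _ _ => by positivity)
            rw [norm_sub_rev]
            exact hP' l
        _ ≤ _ := by
            rw [← Finset.mul_sum]
            exact mul_le_mul_of_nonneg_left (hb g t htL) (by positivity)
    have h4 : b g ≤ T := by
      refine (le_abs_self _).trans (le_trans ?_ hTb)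
      rw [hR₁]
      exact Finset.single_le_sum (f := fun g => |b g|) (fun _ _ => abs_nonneg _) hg
    have h5 : T ^ (-(B₂ + 1)) * b g ≤ T ^ (-B₂) := by
      refine (mul_le_mul_of_nonneg_left h4 (by positivity)).trans (le_of_eq ?_)
      rw [neg_add, Real.rpow_add hTp, Real.rpow_neg_one]
      field_simp
    exact absurd (h3.trans h5) (not_le.2 hfar)

end Pool.Agent.U543.NH
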