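import Pool.Agent.U543.NhPos
import Pool.Agent.U543.NhLat
import Pool.Agent.U543.NhStab
import Pool.Agent.U543.LkMain

/-!
# Near Hodge tensors of bounded height have finite orbits, at almost all points
-/

set_option autoImplicit false
set_option linter.unusedSectionVars false

open NumberField

namespace Pool.Agent.U543.NH

open Pool.Agent.Y890.MV
open Pool.Agent.Y124 (Cov)
open Pool.Agent.U543.GD (Gal Family tensor sum tensor_mul sum_mul')
open Pool.Agent.U543.HT (cx Polarized Variation Auts orbit qf tensor_transpose)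
open Pool.Agent.U543.LK (exists_int)

variable {X ι : Type} [Fintype X] [DecidableEq X] [Nonempty X] [Fintype ι] [DecidableEq ι]

/-- the form is invariant -/
theorem qf_inv {S : Matrix ι ι ℤ} {r m : ℕ} (S₀ : Matrix (Fin r) (Fin r) ℤ) {g : Matrix ι ι ℤ}
    (hg : g * S * g.transpose = S) {u v : (Fin m → Fin r ⊕ ι) → ℤ}
    (hu : cx u = Matrix.vecMul (cx v) (tensor m (sum 1 (g.map (Int.cast : ℤ → ℂ))))) :
    qf (Matrix.fromBlocks S₀ 0 0 S) u = qf (Matrix.fromBlocks S₀ 0 0 S) v := by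
  obtain ⟨G, hG⟩ : ∃ G : Matrix (Fin r ⊕ ι) (Fin r ⊕ ι) ℂ, G = sum 1 (g.map (Int.cast : ℤ → ℂ)) := ⟨_, rfl⟩
  rw [← hG] at hu
  obtain ⟨S', hS'⟩ : ∃ S' : Matrix (Fin r ⊕ ι) (Fin r ⊕ ι) ℂ,
    S' = (Matrix.fromBlocks S₀ 0 0 S : Matrix (Fin r ⊕ ι) (Fin r ⊕ ι) ℤ).map (Int.cast : ℤ → ℂ) := ⟨_, rfl⟩
  have hS2 : S' = Matrix.fromBlocks (S₀.map (Int.cast : ℤ → ℂ)) 0 0 (S.map (Int.cast : ℤ → ℂ)) := by
    rw [hS', Matrix.fromBlocks_map]
    congr 1 <;> (ext i j; simp)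
  have hinv : G * S' * G.transpose = S' := by
    have h3 : g.map (Int.cast : ℤ → ℂ) * S.map (Int.cast : ℤ → ℂ) * (g.map (Int.cast : ℤ → ℂ)).transpose =
        S.map (Int.cast : ℤ → ℂ) := by
      have h4 := congrArg (fun A : Matrix ι ι ℤ => A.map (Int.castRingHom ℂ)) hg
      simp only [Matrix.map_mul, Matrix.transpose_map] at h4
      exact h4
    rw [hS2, hG, sum, Matrix.fromBlocks_transpose, Matrix.fromBlocks_multiply, Matrix.fromBlocks_multiply]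
    simp only [Matrix.one_mul, Matrix.mul_zero, Matrix.zero_mul, add_zero, zero_add, Matrix.transpose_one,
      Matrix.transpose_zero, Matrix.mul_one, h3]
  have hq : ∀ x : (Fin m → Fin r ⊕ ι) → ℤ,
      qf (Matrix.fromBlocks S₀ 0 0 S) x = Matrix.vecMul (cx x) (tensor m S') ⬝ᵥ cx x := fun x => by
    rw [hS']
    rfl
  rw [hq, hq, hu]
  conv_lhs =>
    rw [← Matrix.mulVec_transpose (tensor m G) (cx v)]
  rw [Matrix.dotProduct_mulVec, Matrix.mulVec_transpose, Matrix.vecMul_vecMul, Matrix.vecMul_vecMul,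
    ← tensor_transpose, ← tensor_mul, ← tensor_mul, ← Matrix.mul_assoc, hinv]

/-- finitely many elements generate -/
theorem exists_gen {α β : Type} [Fintype β] (τ : α → Matrix β β ℂ) (A : Set α) :
    ∃ G₁ : Finset α, (∀ g ∈ G₁, g ∈ A) ∧ ∀ g ∈ A, τ g ∈ Submodule.span ℝ (τ '' (G₁ : Set α)) := by
  classical
  have hfg : (Submodule.span ℝ (τ '' A)).FG := IsNoetherian.noetherian _
  obtain ⟨s, hs, hs'⟩ := (Submodule.fg_span_iff_fg_span_finset_subset _).1 hfg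
  obtain ⟨G₁, hG₁, hG₁'⟩ := Finset.subset_set_image_iff.1 hs
  refine ⟨G₁, fun g hg => hG₁ hg, fun g hg => ?_⟩
  have h1 : τ g ∈ Submodule.span ℝ (τ '' A) := Submodule.subset_span ⟨g, hg, rfl⟩
  rw [hs', ← hG₁', Finset.coe_image] at h1
  exact h1

/-- **Fixed order.** -/
theorem near_one {wt : ℤ} {w : ι → ℤ} {S : Matrix ι ι ℤ} {U : Set (X → ℂ)} {P : (X → ℂ) → Matrix ι ι ℂ}
    (h : Variation wt w S U P) {k : ℕ} (hk : 0 < k) (m : ℕ) {r : ℕ} {w₀ : Fin r → ℤ} {S₀ : Matrix (Fin r) (Fin r) ℤ}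
    {𝒞 : Set (Matrix (Fin r) (Fin r) ℂ)} (h𝒞 : IsCompact 𝒞) (h𝒞' : ∀ C₀ ∈ 𝒞, Polarized wt w₀ S₀ C₀) {R : ℝ}
    (hR : ∀ C₀ ∈ 𝒞, ∀ i j, ‖C₀ i j‖ ≤ R) (ε : ℝ) (hε : 0 < ε) :
    ∃ (D : ℕ) (B C T₀ : ℝ), 0 ≤ C ∧ 2 ≤ T₀ ∧ ∀ (K : Type) [Field K] [NumberField K], Module.finrank ℚ K ≤ k →
      ∀ (io : K →+* ℂ), ∀ C₀ ∈ 𝒞, ∀ T : ℝ, T₀ ≤ T →
        Cov D ⌊C * T ^ ε⌋₊ {t : X → ℂ | t ∈ InnerM U k ∧ ∃ s : X → K,
          (∀ i, Y120.HtLe K T (s i)) ∧ (t = fun i => io (s i)) ∧ ∃ v : (Fin m → Fin r ⊕ ι) → ℤ,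
            (∀ I, |(v I : ℝ)| ≤ T ^ k) ∧ (∀ J : Fin m → Fin r ⊕ ι, (m : ℤ) * wt < 2 * ∑ t, Sum.elim w₀ w (J t) →
              ‖Matrix.vecMul (cx v) (tensor m (sum C₀ (P t))) J‖ ≤ T ^ (-B)) ∧
              ¬ (orbit (Auts U P S) v).Finite} := by
  classical
  let τ : Matrix ι ι ℤ → Matrix (Fin m → Fin r ⊕ ι) (Fin m → Fin r ⊕ ι) ℂ := fun g =>
    tensor m (sum 1 (g.map (Int.cast : ℤ → ℂ)))
  obtain ⟨G₁, hG₁, hgen⟩ := exists_gen τ (Auts U P S)
  obtain ⟨c, C₂, hc, hC₂, hpos⟩ := pos_bound h hk m h𝒞 h𝒞'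
  obtain ⟨Cl, cl, hCl, hlat⟩ := lat G₁ (Fin m → Fin r ⊕ ι)
  obtain ⟨D, B, C, T₁, hC, hT₁, H⟩ := near_trans h.family hk m r R (G₁.image fun g => g.map (Int.cast : ℤ → ℂ))
    (by
      intro g hg
      obtain ⟨g', hg', rfl⟩ := Finset.mem_image.1 hg
      exact (hG₁ g' hg').1) ((((k + 1) * cl + 1 : ℕ) : ℝ)) ε hε
  obtain ⟨n, hn⟩ : ∃ n, n = Fintype.card (Fin m → Fin r ⊕ ι) := ⟨_, rfl⟩
  obtain ⟨a, ha⟩ : ∃ a : ℝ, a = (G₁.card : ℝ) * Cl := ⟨_, rfl⟩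
  have ha0 : 0 ≤ a := by rw [ha]; positivity
  obtain ⟨CG, hCG⟩ : ∃ CG : ℝ, CG = ∑ g ∈ G₁, ∑ I, ∑ J, ‖τ g J I‖ := ⟨_, rfl⟩
  refine ⟨D, B, C, max T₁ (max CG (2 * C₂ * (n * a ^ 2) / c)), hC, hT₁.trans (le_max_left _ _), ?_⟩
  intro K _ _ hK io C₀ hC₀ T hT
  have hTa : T₁ ≤ T := (le_max_left _ _).trans hT
  have hTb : CG ≤ T := ((le_max_left _ _).trans (le_max_right _ _)).trans hT
  have hTc : 2 * C₂ * (n * a ^ 2) / c ≤ T := ((le_max_right _ _).trans (le_max_right _ _)).trans hT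
  have hT2 : 2 ≤ T := hT₁.trans hTa
  have hT1 : 1 ≤ T := by linarith
  have hTp : 0 < T := by linarith
  refine (H K hK io C₀ (hR C₀ hC₀) T hTa).mono le_rfl le_rfl ?_
  rintro t ⟨htL, s, hs1, hts, v, hv, hnear, hinf⟩
  by_contra hcon
  apply hinf
  -- the translates
  have hsmall : ∀ g ∈ G₁, ∀ J : Fin m → Fin r ⊕ ι, (m : ℤ) * wt < 2 * ∑ t, Sum.elim w₀ w (J t) →
      ‖Matrix.vecMul (cx v) (tensor m (sum C₀ (g.map (Int.cast : ℤ → ℂ) * P t))) J‖ ≤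
        T ^ (-((((k + 1) * cl + 1 : ℕ) : ℝ))) := by
    intro g hg J hJ
    by_contra hgt
    exact hcon ⟨htL, s, hs1, hts, v, hv, J, hnear J hJ, _, Finset.mem_image_of_mem _ hg, not_le.1 hgt⟩
  choose u hu using fun g : G₁ => exists_int (r := r) (g : Matrix ι ι ℤ) v
  have huH : ∀ g I, |(u g I : ℝ)| ≤ T ^ (k + 1) := by
    intro g I
    have h1 : ‖cx (u g) I‖ ≤ T ^ (k + 1) := by
      rw [hu g]
      change ‖∑ J, cx v J * τ g J I‖ ≤ _
      calc ‖∑ J, cx v J * τ g J I‖ ≤ ∑ J, T ^ k * ‖τ g J I‖ := by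
            refine (norm_sum_le _ _).trans (Finset.sum_le_sum fun J _ => ?_)
            rw [norm_mul]
            refine mul_le_mul_of_nonneg_right ?_ (norm_nonneg _)
            rw [cx, Complex.norm_intCast]
            exact hv J
        _ = T ^ k * ∑ J, ‖τ g J I‖ := by rw [Finset.mul_sum]
        _ ≤ T ^ k * CG := by
            refine mul_le_mul_of_nonneg_left ?_ (by positivity)
            rw [hCG]
            refine le_trans ?_ (Finset.single_le_sum (f := fun g => ∑ I, ∑ J, ‖τ g J I‖) (fun _ _ =>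
              Finset.sum_nonneg fun _ _ => Finset.sum_nonneg fun _ _ => norm_nonneg _) g.2)
            exact Finset.single_le_sum (f := fun I => ∑ J, ‖τ g J I‖)
              (fun _ _ => Finset.sum_nonneg fun _ _ => norm_nonneg _) (Finset.mem_univ I)
        _ ≤ T ^ k * T := mul_le_mul_of_nonneg_left hTb (by positivity)
        _ = _ := (pow_succ _ _).symm
    rwa [cx, Complex.norm_intCast] at h1
  have huJ : ∀ g : G₁, ∀ J : Fin m → Fin r ⊕ ι, (m : ℤ) * wt < 2 * ∑ t, Sum.elim w₀ w (J t) →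
      ‖Matrix.vecMul (cx (u g)) (tensor m (sum C₀ (P t))) J‖ ≤ T ^ (-((((k + 1) * cl + 1 : ℕ) : ℝ))) := by
    intro g J hJ
    have h1 := hsmall g g.2 J hJ
    rw [← sum_mul' C₀, tensor_mul, ← Matrix.vecMul_vecMul, ← hu g] at h1
    exact h1
  -- definiteness
  have hdef : ∀ y : (Fin m → Fin r ⊕ ι) → ℝ,
      y ∈ Submodule.span ℝ (Set.range fun (g : G₁) (I : Fin m → Fin r ⊕ ι) => (u g I : ℝ)) →
      c / 2 * ‖y‖ ^ 2 ≤ (qr (Matrix.fromBlocks S₀ 0 0 S) y).re := by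
    intro y hy
    obtain ⟨x, hx, hxb⟩ := hlat u (T ^ (k + 1)) (one_le_pow₀ hT1) huH y hy
    have h1 := hpos t htL C₀ hC₀ y
    have hJ : ∀ J : Fin m → Fin r ⊕ ι, (m : ℤ) * wt < 2 * ∑ t, Sum.elim w₀ w (J t) →
        ‖Matrix.vecMul (rx y) (tensor m (sum C₀ (P t))) J‖ ≤ a * ‖y‖ * T⁻¹ := by
      intro J hJ
      have h2 : rx y = ∑ g, (x g : ℂ) • cx (u g) := by
        funext I
        rw [hx]
        simp [rx, cx]
      have h3 : Matrix.vecMul (rx y) (tensor m (sum C₀ (P t))) J =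
          ∑ g, (x g : ℂ) * Matrix.vecMul (cx (u g)) (tensor m (sum C₀ (P t))) J := by
        rw [h2, Matrix.sum_vecMul, Finset.sum_apply]
        refine Finset.sum_congr rfl fun g _ => ?_
        rw [Matrix.smul_vecMul, Pi.smul_apply, smul_eq_mul]
      rw [h3]
      calc _ ≤ ∑ _g : G₁, (Cl * (T ^ (k + 1)) ^ cl * ‖y‖) * T ^ (-((((k + 1) * cl + 1 : ℕ) : ℝ))) := by
            refine (norm_sum_le _ _).trans (Finset.sum_le_sum fun g _ => ?_)
            rw [norm_mul, Complex.norm_real, Real.norm_eq_abs]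
            exact mul_le_mul (hxb g) (huJ g J hJ) (norm_nonneg _) (by positivity)
        _ = _ := by
            rw [Finset.sum_const, Finset.card_univ, Fintype.card_coe, nsmul_eq_mul, Real.rpow_neg hTp.le,
              Real.rpow_natCast, ← pow_mul, pow_succ, ha]
            field_simp
    have h4 : dev wt (Sum.elim w₀ w) (sum C₀ (P t)) y ≤ n * (a * ‖y‖ * T⁻¹) ^ 2 := by
      unfold dev
      calc _ ≤ ∑ _J : Fin m → Fin r ⊕ ι, (a * ‖y‖ * T⁻¹) ^ 2 := by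
            refine Finset.sum_le_sum fun J _ => ?_
            split_ifs with hJ'
            · exact pow_le_pow_left₀ (norm_nonneg _) (hJ J hJ') 2
            · positivity
        _ = _ := by rw [Finset.sum_const, Finset.card_univ, nsmul_eq_mul, hn]
    have h5 : C₂ * dev wt (Sum.elim w₀ w) (sum C₀ (P t)) y ≤ c / 2 * ‖y‖ ^ 2 := by
      have h6 : C₂ * (n * a ^ 2) ≤ c / 2 * T := by
        rw [div_le_iff₀ hc] at hTc
        linarith
      have h7 : C₂ * (n * a ^ 2) * T⁻¹ ^ 2 ≤ c / 2 := by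
        have h8 : C₂ * (n * a ^ 2) * T⁻¹ ^ 2 ≤ c / 2 * T * T⁻¹ ^ 2 := mul_le_mul_of_nonneg_right h6 (by positivity)
        have h9 : c / 2 * T * T⁻¹ ^ 2 = c / 2 * T⁻¹ := by
          field_simp
        have h10 : T⁻¹ ≤ 1 := inv_le_one_of_one_le₀ hT1
        nlinarith
      calc C₂ * dev wt (Sum.elim w₀ w) (sum C₀ (P t)) y ≤ C₂ * (n * (a * ‖y‖ * T⁻¹) ^ 2) :=
            mul_le_mul_of_nonneg_left h4 hC₂
        _ = (C₂ * (n * a ^ 2) * T⁻¹ ^ 2) * ‖y‖ ^ 2 := by ring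
        _ ≤ _ := mul_le_mul_of_nonneg_right h7 (by positivity)
    linarith
  -- finiteness
  obtain ⟨b, hb⟩ : ∃ b : ℝ, b = 1 + 2 * |(qf (Matrix.fromBlocks S₀ 0 0 S) v).re| / c := ⟨_, rfl⟩
  have hfin : (Set.pi Set.univ fun _ : Fin m → Fin r ⊕ ι => Set.Icc (-⌈b⌉) ⌈b⌉).Finite :=
    Set.Finite.pi fun _ => Set.finite_Icc _ _
  refine hfin.subset ?_
  rintro x ⟨g, hg, hxg⟩ I _
  have hxg' : cx x = Matrix.vecMul (cx v) (τ g) := hxg
  let L : Matrix (Fin m → Fin r ⊕ ι) (Fin m → Fin r ⊕ ι) ℂ →ₗ[ℝ] ((Fin m → Fin r ⊕ ι) → ℝ) :=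
    { toFun := fun A I => (Matrix.vecMul (cx v) A I).re
      map_add' := by
        intro A A'
        funext I
        rw [Matrix.vecMul_add]
        simp
      map_smul' := by
        intro z A
        funext I
        rw [Matrix.vecMul_smul]
        simp }
  have hmem : (fun I => (x I : ℝ)) ∈
      Submodule.span ℝ (Set.range fun (g : G₁) (I : Fin m → Fin r ⊕ ι) => (u g I : ℝ)) := by
    have h1 := Submodule.apply_mem_span_image_of_mem_span L (hgen g hg)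
    have h2 : L (τ g) = fun I => (x I : ℝ) := by
      funext I
      change (Matrix.vecMul (cx v) (τ g) I).re = _
      rw [← hxg']
      simp [cx]
    rw [h2] at h1
    refine Submodule.span_mono ?_ h1
    rintro _ ⟨_, ⟨g', hg', rfl⟩, rfl⟩
    refine ⟨⟨g', hg'⟩, ?_⟩
    funext I
    change _ = (Matrix.vecMul (cx v) (τ g') I).re
    have h3 := congrFun (hu ⟨g', hg'⟩) I
    rw [← h3]
    simp [cx]
  have h1 := hdef _ hmem
  have h2 : (qr (Matrix.fromBlocks S₀ 0 0 S) fun I => (x I : ℝ)) = qf (Matrix.fromBlocks S₀ 0 0 S) x := by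
    have h3 : rx (fun I => (x I : ℝ)) = cx x := by
      funext I
      simp [rx, cx]
    rw [qr, qf, h3]
  rw [h2, qf_inv S₀ hg.2 hxg'] at h1
  have h3 : ‖fun I => (x I : ℝ)‖ ^ 2 ≤ 2 * |(qf (Matrix.fromBlocks S₀ 0 0 S) v).re| / c := by
    rw [le_div_iff₀ hc]
    have := le_abs_self (qf (Matrix.fromBlocks S₀ 0 0 S) v).re
    linarith
  have h4 : |(x I : ℝ)| ≤ b := by
    have h5 : |(x I : ℝ)| ≤ ‖fun I => (x I : ℝ)‖ := norm_le_pi_norm (fun I => (x I : ℝ)) I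
    have h6 : ‖fun I => (x I : ℝ)‖ ≤ b := by
      rw [hb]
      nlinarith [norm_nonneg fun I => (x I : ℝ), sq_nonneg (‖fun I => (x I : ℝ)‖ - 1)]
    exact h5.trans h6
  have h6 : |(x I : ℝ)| ≤ (⌈b⌉ : ℝ) := h4.trans (Int.le_ceil b)
  have h7 : |x I| ≤ ⌈b⌉ := by exact_mod_cast h6
  exact abs_le.1 h7

end Pool.Agent.U543.NH
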