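import Pool.Agent.U543.NhDef
import Pool.Agent.U543.NhMain

/-!
# Points near the Hodge locus are sparse: end of the proof
-/

set_option autoImplicit false
set_option linter.unusedSectionVars false

open NumberField

namespace Pool.Agent.U543.NH

open Pool.Agent.Y890.MV
open Pool.Agent.Y124 (Cov)
open Pool.Agent.U543.GD (Gal Family Height Inner tensor sum)
open Pool.Agent.U543.HT (cx Polarized Variation Auts orbit IsHodge)
open Pool.Agent.U543.LK (Linked auts_finite)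

variable {X ι : Type} [Fintype X] [DecidableEq X] [Nonempty X] [Fintype ι] [DecidableEq ι]

/-- small balls -/
theorem ball_inner {U : Set (X → ℂ)} {k : ℕ} (hk : 0 < k) {t : X → ℂ} (ht : t ∈ InnerM U k) :
    Metric.closedBall t ((2 * k : ℕ) : ℝ)⁻¹ ⊆ InnerM U (2 * k) := by
  have hk1 : (1 : ℝ) ≤ k := by exact_mod_cast hk
  intro z hz
  rw [Metric.mem_closedBall] at hz
  constructor
  · have h1 : ‖z‖ ≤ ‖t‖ + dist z t := by
      have h0 := norm_add_le t (z - t)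
      rw [add_sub_cancel] at h0
      rw [dist_eq_norm]
      exact h0
    have h2 : ((2 * k : ℕ) : ℝ)⁻¹ ≤ 1 := inv_le_one_of_one_le₀ (by push_cast; linarith)
    have h3 : ‖t‖ ≤ k := ht.1
    push_cast at h2 hz ⊢
    linarith
  · intro x hx
    apply ht.2
    rw [Metric.mem_ball] at hx ⊢
    have h1 := dist_triangle x z t
    have h2 : ((2 * k : ℕ) : ℝ)⁻¹ + ((2 * k : ℕ) : ℝ)⁻¹ = (k : ℝ)⁻¹ := by
      push_cast
      field_simp
      norm_num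
    linarith

/-- analytic functions are Lipschitz on compact sets -/
theorem lip_one {U : Set (X → ℂ)} {k : ℕ} (hk : 0 < k) {F : (X → ℂ) → ℂ} (hF : AnalyticOnNhd ℂ F U) :
    ∃ Λ : ℝ, 0 ≤ Λ ∧ ∀ t ∈ InnerM U k, ∀ z, ‖t - z‖ ≤ ((2 * k : ℕ) : ℝ)⁻¹ → ‖F t - F z‖ ≤ Λ * ‖t - z‖ := by
  have hk2 : 0 < 2 * k := by omega
  have hsub : InnerM U (2 * k) ⊆ U := innerM_sub _ hk2
  have hcont : ContinuousOn (fun x => ‖fderiv ℂ F x‖) (InnerM U (2 * k)) :=
    (hF.fderiv.continuousOn.mono hsub).norm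
  obtain ⟨Λ, hΛ⟩ := (innerM_compact U (2 * k)).bddAbove_image hcont
  refine ⟨max Λ 0, le_max_right _ _, fun t ht z hz => ?_⟩
  have hball := ball_inner hk ht
  have h1 := (convex_closedBall t ((2 * k : ℕ) : ℝ)⁻¹).norm_image_sub_le_of_norm_fderiv_le (𝕜 := ℂ) (f := F)
    (C := max Λ 0) (x := z) (y := t) (fun x hx => (hF x (hsub (hball hx))).differentiableAt)
    (fun x hx => (hΛ ⟨x, hball hx, rfl⟩).trans (le_max_left _ _))
    (by rw [Metric.mem_closedBall, dist_comm, dist_eq_norm]; exact hz) (Metric.mem_closedBall_self (by positivity))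
  exact h1

theorem lip_tensor {U : Set (X → ℂ)} {P : (X → ℂ) → Matrix ι ι ℂ} (h : Family U P) {k : ℕ} (hk : 0 < k) (m r : ℕ)
    (R : ℝ) : ∃ Λ : ℝ, 0 ≤ Λ ∧ ∀ t ∈ InnerM U k, ∀ z, ‖t - z‖ ≤ ((2 * k : ℕ) : ℝ)⁻¹ →
      ∀ C₀ : Matrix (Fin r) (Fin r) ℂ, (∀ i j, ‖C₀ i j‖ ≤ R) → ∀ I J : Fin m → Fin r ⊕ ι,
        ‖tensor m (sum C₀ (P t)) I J - tensor m (sum C₀ (P z)) I J‖ ≤ Λ * ‖t - z‖ := by
  classical
  have hF : ∀ l : ι × ι → Fin (m + 1), AnalyticOnNhd ℂ (fun x => ∏ p : ι × ι, P x p.1 p.2 ^ (l p : ℕ)) U := by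
    intro l
    exact Finset.analyticOnNhd_fun_prod _ fun p _ => (h.analytic p.1 p.2).pow _
  choose Λ hΛ hΛ' using fun l => lip_one hk (hF l)
  refine ⟨(max 1 R) ^ m * ∑ l, Λ l, mul_nonneg (by positivity) (Finset.sum_nonneg fun l _ => hΛ l), ?_⟩
  intro t ht z hz C₀ hC₀ I J
  rw [ten_eq, ten_eq, ← mul_sub, norm_mul, mul_assoc]
  refine mul_le_mul (cst_bound (le_max_left _ _) (fun i j => (hC₀ i j).trans (le_max_right _ _)) J I) ?_
    (norm_nonneg _) (by positivity)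
  refine (hΛ' (mlt J I) t ht z hz).trans ?_
  exact mul_le_mul_of_nonneg_right (Finset.single_le_sum (f := Λ) (fun l _ => hΛ l) (Finset.mem_univ _))
    (norm_nonneg _)

/-- **Points near the Hodge locus.** -/
theorem near_fix {wt : ℤ} {w : ι → ℤ} {S : Matrix ι ι ℤ} {U : Set (X → ℂ)} {P : (X → ℂ) → Matrix ι ι ℂ}
    (h : Variation wt w S U P) (k : ℕ) (ε : ℝ) (hε : 0 < ε) {r : ℕ} {w₀ : Fin r → ℤ} {S₀ : Matrix (Fin r) (Fin r) ℤ}
    {𝒞 : Set (Matrix (Fin r) (Fin r) ℂ)} (h𝒞 : IsCompact 𝒞) (h𝒞' : ∀ C₀ ∈ 𝒞, Polarized wt w₀ S₀ C₀) :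
    ∃ (D : ℕ) (B C T₀ : ℝ), 0 ≤ C ∧ 2 ≤ T₀ ∧ ∀ T, T₀ ≤ T →
      ∀ (K : Type) [Field K] [NumberField K], Module.finrank ℚ K ≤ k → ∀ (io : K →+* ℂ), ∀ C₀ ∈ 𝒞,
        Cov D ⌊C * T ^ ε⌋₊ ((fun (s : X → K) j => io (s j)) '' NearHodge wt w S U P k B K io w₀ C₀ T) ∧
        (NearHodge wt w S U P k B K io w₀ C₀ T).Finite ∧
        ((NearHodge wt w S U P k B K io w₀ C₀ T).ncard : ℝ) ≤
          D * C * T ^ ε * ((Height K T).ncard : ℝ) ^ (Fintype.card X - 1) := by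
  classical
  rcases Nat.eq_zero_or_pos k with hk | hk
  · refine ⟨0, 0, 0, 2, le_rfl, le_rfl, ?_⟩
    intro T _ K _ _ hK
    have h1 : 0 < Module.finrank ℚ K := Module.finrank_pos
    omega
  have hk1 : (1 : ℝ) ≤ k := by exact_mod_cast hk
  have hRex : ∃ R : ℝ, ∀ C₀ ∈ 𝒞, ∀ i j, ‖C₀ i j‖ ≤ R := by
    have hcont : ContinuousOn (fun C₀ : Matrix (Fin r) (Fin r) ℂ => ∑ i, ∑ j, ‖C₀ i j‖) 𝒞 := by
      have : Continuous fun C₀ : Matrix (Fin r) (Fin r) ℂ => ∑ i, ∑ j, ‖C₀ i j‖ :=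
        continuous_finsetSum _ fun i _ => continuous_finsetSum _ fun j _ =>
          ((continuous_id (X := Matrix (Fin r) (Fin r) ℂ)).matrix_elem i j).norm
      exact this.continuousOn
    obtain ⟨R, hR⟩ := h𝒞.bddAbove_image hcont
    refine ⟨R, fun C₀ hC₀ i j => le_trans ?_ (hR ⟨C₀, hC₀, rfl⟩)⟩
    refine le_trans ?_ (Finset.single_le_sum (f := fun i => ∑ j, ‖C₀ i j‖)
      (fun _ _ => Finset.sum_nonneg fun _ _ => norm_nonneg _) (Finset.mem_univ i))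
    exact Finset.single_le_sum (f := fun j => ‖C₀ i j‖) (fun _ _ => norm_nonneg _) (Finset.mem_univ j)
  obtain ⟨R, hR⟩ := hRex
  choose D B C T₁ hC hT₁ H using fun m : Fin (k + 1) => near_one h hk (m : ℕ) h𝒞 h𝒞' hR ε hε
  choose Λ hΛ hΛ' using fun m : Fin (k + 1) => lip_tensor h.family hk (m : ℕ) r R
  obtain ⟨n, hn⟩ : ∃ n : Fin (k + 1) → ℝ, n = fun m : Fin (k + 1) => (Fintype.card (Fin (m : ℕ) → Fin r ⊕ ι) : ℝ) := ⟨_, rfl⟩
  have hn0 : ∀ m, 0 ≤ n m := fun m => by rw [hn]; positivity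
  obtain ⟨D', hD'⟩ : ∃ D' : ℕ, D' = ∑ m, D m := ⟨_, rfl⟩
  obtain ⟨B', hB'⟩ : ∃ B' : ℝ, B' = ∑ m, |B m| := ⟨_, rfl⟩
  have hB'0 : 0 ≤ B' := by rw [hB']; exact Finset.sum_nonneg fun _ _ => abs_nonneg _
  obtain ⟨C', hC'⟩ : ∃ C' : ℝ, C' = ∑ m, C m := ⟨_, rfl⟩
  have hC'0 : 0 ≤ C' := by rw [hC']; exact Finset.sum_nonneg fun m _ => hC m
  have hT₁0 : ∀ m, 0 ≤ T₁ m := fun m => by linarith [hT₁ m]
  refine ⟨D', B' + (k + 1 : ℕ), C', max (2 + ∑ m, T₁ m) (max (2 * k) (1 + ∑ m, n m * Λ m)), hC'0, ?_, ?_⟩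
  · refine le_trans ?_ (le_max_left _ _)
    linarith [Finset.sum_nonneg fun m (_ : m ∈ (Finset.univ : Finset (Fin (k + 1)))) => hT₁0 m]
  intro T hT K _ _ hK io C₀ hC₀
  have hT2 : 2 + ∑ m, T₁ m ≤ T := (le_max_left _ _).trans hT
  have hTa : ∀ m, T₁ m ≤ T := by
    intro m
    have h1 := Finset.single_le_sum (f := T₁) (fun m _ => hT₁0 m) (Finset.mem_univ m)
    linarith
  have hTb : 2 * (k : ℝ) ≤ T := ((le_max_left _ _).trans (le_max_right _ _)).trans hT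
  have hTc : 1 + ∑ m, n m * Λ m ≤ T := ((le_max_right _ _).trans (le_max_right _ _)).trans hT
  have hT1 : 1 ≤ T := by linarith
  have hTp : 0 < T := by linarith
  have hcov := cov_iUnion (X := X) (D := D') (fun m => ⌊C m * T ^ ε⌋₊) _ fun m => (H m K hK io C₀ hC₀ T (hTa m)).mono
    (show D m ≤ D' by
      rw [hD']
      exact Finset.single_le_sum (f := D) (fun _ _ => Nat.zero_le _) (Finset.mem_univ m)) le_rfl (Set.Subset.refl _)
  have h1 : Cov D' ⌊C' * T ^ ε⌋₊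
      ((fun (s : X → K) j => io (s j)) '' NearHodge wt w S U P k (B' + (k + 1 : ℕ)) K io w₀ C₀ T) := by
    refine hcov.mono le_rfl ?_ ?_
    · apply Nat.le_floor
      push_cast
      rw [hC', Finset.sum_mul]
      exact Finset.sum_le_sum fun m _ => Nat.floor_le (mul_nonneg (hC m) (by positivity))
    rintro _ ⟨s, ⟨hs1, hs2, z, hz, hsz, m, hm, v, hv, hnear, hinf⟩, rfl⟩
    rw [Set.mem_iUnion]
    refine ⟨⟨m, Nat.lt_succ_of_le hm⟩, hs2, s, hs1, rfl, v, hv, ?_, hinf⟩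
    intro J hJ
    have h2 : ‖(fun j => io (s j)) - z‖ ≤ ((2 * k : ℕ) : ℝ)⁻¹ := by
      refine hsz.trans ?_
      have h3 : T ^ (-(B' + (k + 1 : ℕ))) ≤ T ^ (-1 : ℝ) := by
        refine Real.rpow_le_rpow_of_exponent_le hT1 ?_
        push_cast
        linarith
      refine h3.trans ?_
      rw [Real.rpow_neg_one]
      exact inv_anti₀ (by positivity) (by push_cast; exact hTb)
    have h4 := hΛ' ⟨m, Nat.lt_succ_of_le hm⟩ _ hs2 z h2 C₀ (hR C₀ hC₀)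
    have h5 := hnear J hJ
    have h6 : Matrix.vecMul (cx v) (tensor m (sum C₀ (P fun j => io (s j)))) J =
        Matrix.vecMul (cx v) (tensor m (sum C₀ (P z))) J +
          ∑ I, cx v I * (tensor m (sum C₀ (P fun j => io (s j))) I J - tensor m (sum C₀ (P z)) I J) := by
      simp only [mul_sub, Finset.sum_sub_distrib]
      change ∑ I, _ = ∑ I, _ + _
      ring
    have h7 : ‖∑ I, cx v I * (tensor m (sum C₀ (P fun j => io (s j))) I J - tensor m (sum C₀ (P z)) I J)‖ ≤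
        n ⟨m, Nat.lt_succ_of_le hm⟩ * (T ^ k * (Λ ⟨m, Nat.lt_succ_of_le hm⟩ * T ^ (-(B' + (k + 1 : ℕ))))) := by
      calc _ ≤ ∑ _I : Fin m → Fin r ⊕ ι, T ^ k * (Λ ⟨m, Nat.lt_succ_of_le hm⟩ * T ^ (-(B' + (k + 1 : ℕ)))) := by
            refine (norm_sum_le _ _).trans (Finset.sum_le_sum fun I _ => ?_)
            rw [norm_mul]
            refine mul_le_mul ?_ ((h4 I J).trans (mul_le_mul_of_nonneg_left hsz (hΛ _))) (norm_nonneg _) (by positivity)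
            rw [cx, Complex.norm_intCast]
            exact hv I
        _ = _ := by rw [Finset.sum_const, Finset.card_univ, nsmul_eq_mul, hn]
    have h8 : n ⟨m, Nat.lt_succ_of_le hm⟩ * Λ ⟨m, Nat.lt_succ_of_le hm⟩ ≤ ∑ m, n m * Λ m :=
      Finset.single_le_sum (f := fun m => n m * Λ m) (fun m _ => mul_nonneg (hn0 m) (hΛ m)) (Finset.mem_univ _)
    have h9 : ‖Matrix.vecMul (cx v) (tensor m (sum C₀ (P fun j => io (s j)))) J‖ ≤
        T ^ (-(B' + (k + 1 : ℕ))) * T ^ ((k + 1 : ℕ) : ℝ) := by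
      rw [h6]
      refine (norm_add_le _ _).trans ?_
      have h10 : (1 : ℝ) ≤ T ^ k := one_le_pow₀ hT1
      have h11 : 0 < T ^ (-(B' + (k + 1 : ℕ))) := Real.rpow_pos_of_pos hTp _
      have h12 : (1 + ∑ m, n m * Λ m) * T ^ k ≤ T ^ ((k + 1 : ℕ) : ℝ) := by
        rw [Real.rpow_natCast, pow_succ, mul_comm]
        exact mul_le_mul_of_nonneg_left hTc (by positivity)
      have h13 : 0 ≤ ∑ m, n m * Λ m := Finset.sum_nonneg fun m _ => mul_nonneg (hn0 m) (hΛ m)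
      calc _ ≤ T ^ (-(B' + (k + 1 : ℕ))) + n ⟨m, Nat.lt_succ_of_le hm⟩ *
            (T ^ k * (Λ ⟨m, Nat.lt_succ_of_le hm⟩ * T ^ (-(B' + (k + 1 : ℕ))))) := add_le_add h5 h7
        _ = T ^ (-(B' + (k + 1 : ℕ))) *
            (1 + n ⟨m, Nat.lt_succ_of_le hm⟩ * Λ ⟨m, Nat.lt_succ_of_le hm⟩ * T ^ k) := by ring
        _ ≤ T ^ (-(B' + (k + 1 : ℕ))) * ((1 + ∑ m, n m * Λ m) * T ^ k) := by
            refine mul_le_mul_of_nonneg_left ?_ h11.le
            have h14 := mul_le_mul_of_nonneg_right h8 (show (0 : ℝ) ≤ T ^ k by positivity)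
            nlinarith
        _ ≤ _ := mul_le_mul_of_nonneg_left h12 h11.le
    refine h9.trans ?_
    rw [← Real.rpow_add hTp]
    refine Real.rpow_le_rpow_of_exponent_le hT1 ?_
    have h15 : B ⟨m, Nat.lt_succ_of_le hm⟩ ≤ B' := by
      rw [hB']
      exact (le_abs_self _).trans (Finset.single_le_sum (f := fun m => |B m|) (fun _ _ => abs_nonneg _) (Finset.mem_univ _))
    linarith
  obtain ⟨h2, h3⟩ := cov_count io {x : K | Y120.HtLe K T x} (Y120.HtLe_fin K T) _ (fun s hs => hs.1) h1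
  refine ⟨h1, h2, ?_⟩
  have h4 : ((NearHodge wt w S U P k (B' + (k + 1 : ℕ)) K io w₀ C₀ T).ncard : ℝ) ≤
      (⌊C' * T ^ ε⌋₊ : ℝ) * (D' * ((Height K T).ncard : ℝ) ^ (Fintype.card X - 1)) := by
    exact_mod_cast h3
  have h5 : ((⌊C' * T ^ ε⌋₊ : ℕ) : ℝ) ≤ C' * T ^ ε := Nat.floor_le (by positivity)
  refine h4.trans ((mul_le_mul_of_nonneg_right h5 (by positivity)).trans (le_of_eq ?_))
  ring

/-- points near linked points are near the Hodge locus -/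
theorem linked_sub {wt : ℤ} {w : ι → ℤ} {S : Matrix ι ι ℤ} {U : Set (X → ℂ)} {P : (X → ℂ) → Matrix ι ι ℂ}
    (h : Variation wt w S U P) (hinf : (Auts U P S).Infinite) {k : ℕ} {B : ℝ} (K : Type) [Field K] [NumberField K]
    (io : K →+* ℂ) {r : ℕ} (w₀ : Fin r → ℤ) (C₀ : Matrix (Fin r) (Fin r) ℂ) {T : ℝ} (hT : 0 < T) :
    NearLinked wt w S U P k B K io w₀ C₀ T ⊆ NearHodge wt w S U P k B K io w₀ C₀ T := by
  rintro s ⟨h1, h2, z, hz, hsz, hL⟩
  refine ⟨h1, h2, z, hz, hsz, ?_⟩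
  by_contra hcon
  push Not at hcon
  refine hinf (auts_finite (U := U) (P := P) (h.polarized z hz) (fun m hm v hv hH => ?_) hL)
  refine hcon m hm v hv fun J hJ => ?_
  have h3 : Matrix.vecMul (fun I => (v I : ℂ)) (tensor m (sum C₀ (P z))) J = 0 := hH J hJ
  rw [h3, norm_zero]
  positivity

end Pool.Agent.U543.NH
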