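import Pool.Agent.U543.NfStab
import Pool.Agent.U543.NhFin

/-!
# Specialisation of normal functions
-/

set_option autoImplicit false
set_option linter.unusedSectionVars false

open NumberField Filter

namespace Pool.Agent.U543.NF

open Pool.Agent.Y890.MV
open Pool.Agent.Y124 (Cov)
open Pool.Agent.U543.GD (Gal Family Height Inner)
open Pool.Agent.U543.NH (cpt exists_gen ball_inner lip_one)

variable {X ρ ι κ : Type} [Fintype X] [DecidableEq X] [Nonempty X] [Fintype ρ] [DecidableEq ρ] [Fintype ι]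
  [DecidableEq ι] [Fintype κ] [DecidableEq κ]

/-- the periods are uniformly independent -/
theorem ind_bound {U : Set (X → ℂ)} {ν : (X → ℂ) → Matrix ρ κ ℂ} {P : (X → ℂ) → Matrix ι κ ℂ}
    (h : NormalFunctions U ν P) {k : ℕ} (hk : 0 < k) :
    ∃ c : ℝ, 0 < c ∧ ∀ x ∈ InnerM U k, ∀ n : ι → ℝ, c * ‖n‖ ≤ ‖Matrix.vecMul (fun i => (n i : ℂ)) (P x)‖ := by
  have hUL : InnerM U k ⊆ U := innerM_sub _ hk
  have hL : IsCompact (InnerM U k ×ˢ Metric.sphere (0 : ι → ℝ) 1) :=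
    (innerM_compact U k).prod (isCompact_sphere _ _)
  have hvec : ContinuousOn (fun z : (X → ℂ) × (ι → ℝ) => Matrix.vecMul (fun i => (z.2 i : ℂ)) (P z.1))
      (InnerM U k ×ˢ Metric.sphere (0 : ι → ℝ) 1) := by
    refine continuousOn_pi.2 fun j => ?_
    simp only [Matrix.vecMul, dotProduct]
    refine continuousOn_finsetSum _ fun i _ => ContinuousOn.mul ?_ ?_
    · have : Continuous fun z : (X → ℂ) × (ι → ℝ) => (z.2 i : ℂ) :=
        Complex.continuous_ofReal.comp ((continuous_apply i).comp continuous_snd)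
      exact this.continuousOn
    · exact (((h.family.analytic (Sum.inr i) j).continuousOn).mono hUL).comp continuousOn_fst fun z hz => hz.1
  obtain ⟨c, C, hc, -, hb⟩ := cpt hL (Φ := fun z => ‖Matrix.vecMul (fun i => (z.2 i : ℂ)) (P z.1)‖) (Ψ := fun _ => 0)
    hvec.norm continuousOn_const (fun _ _ => le_rfl) (by
      rintro ⟨x, n⟩ ⟨hx, hn⟩ -
      refine norm_pos_iff.2 fun h0 => ?_
      have h1 := h.independent x (hUL hx) n h0
      subst h1
      simp at hn)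
  refine ⟨c, hc, fun x hx n => ?_⟩
  rcases eq_or_ne n 0 with rfl | hn
  · simp
  have hn0 : 0 < ‖n‖ := norm_pos_iff.2 hn
  have h1 := hb (x, ‖n‖⁻¹ • n) ⟨hx, by
    rw [mem_sphere_zero_iff_norm, norm_smul, norm_inv, norm_norm, inv_mul_cancel₀ hn0.ne']⟩
  have h2 : (fun i => ((‖n‖⁻¹ • n) i : ℂ)) = ((‖n‖⁻¹ : ℝ) : ℂ) • fun i => (n i : ℂ) := by
    funext i
    simp
  simp only [mul_zero, add_zero] at h1
  rw [h2, Matrix.smul_vecMul, norm_smul, Complex.norm_real, norm_inv, norm_norm] at h1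
  calc c * ‖n‖ ≤ (‖n‖⁻¹ * ‖Matrix.vecMul (fun i => (n i : ℂ)) (P x)‖) * ‖n‖ := mul_le_mul_of_nonneg_right h1 hn0.le
    _ = _ := by field_simp

theorem vec_split {ν : Matrix ρ κ ℂ} {P : Matrix ι κ ℂ} (v : ρ ⊕ ι → ℂ) (j : κ) :
    Matrix.vecMul v (Matrix.fromRows ν P) j = ∑ a, v (Sum.inl a) * ν a j + ∑ l, v (Sum.inr l) * P l j := by
  simp only [Matrix.vecMul, dotProduct]
  rw [Fintype.sum_sum_type]
  rfl

/-- invariance under generators -/
theorem inv_of_gen {U : Set (X → ℂ)} {ν : (X → ℂ) → Matrix ρ κ ℂ} {P : (X → ℂ) → Matrix ι κ ℂ}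
    {G₁ : Finset (Matrix (ρ ⊕ ι) (ρ ⊕ ι) ℤ)}
    (hgen : ∀ g ∈ Mon U ν P, g.map (Int.cast : ℤ → ℂ) - 1 ∈
      Submodule.span ℝ ((fun g : Matrix (ρ ⊕ ι) (ρ ⊕ ι) ℤ => g.map (Int.cast : ℤ → ℂ) - 1) '' (G₁ : Set _)))
    {N : ρ → ℤ} {n : ι → ℤ} (h : ∀ g ∈ G₁, Matrix.vecMul (Sum.elim N n) g = Sum.elim N n) : Invariant U ν P N n := by
  intro g hg
  obtain ⟨v, hv⟩ : ∃ v : ρ ⊕ ι → ℂ, v = fun i => ((Sum.elim N n i : ℤ) : ℂ) := ⟨_, rfl⟩
  have hcast : ∀ g : Matrix (ρ ⊕ ι) (ρ ⊕ ι) ℤ, Matrix.vecMul v (g.map (Int.cast : ℤ → ℂ)) =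
      fun i => ((Matrix.vecMul (Sum.elim N n) g i : ℤ) : ℂ) := by
    intro g
    funext i
    rw [hv]
    simp [Matrix.vecMul, dotProduct]
  let L : Matrix (ρ ⊕ ι) (ρ ⊕ ι) ℂ →ₗ[ℝ] (ρ ⊕ ι → ℂ) :=
    { toFun := fun A => Matrix.vecMul v A
      map_add' := fun A B => Matrix.vecMul_add _ _ _
      map_smul' := fun z A => Matrix.vecMul_smul _ _ _ }
  have h1 := Submodule.apply_mem_span_image_of_mem_span L (hgen g hg)
  have h2 : L (g.map (Int.cast : ℤ → ℂ) - 1) = 0 := by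
    have h3 : Submodule.span ℝ (L '' ((fun g : Matrix (ρ ⊕ ι) (ρ ⊕ ι) ℤ => g.map (Int.cast : ℤ → ℂ) - 1) ''
        (G₁ : Set _))) ≤ ⊥ := by
      rw [Submodule.span_le]
      rintro _ ⟨_, ⟨g', hg', rfl⟩, rfl⟩
      change Matrix.vecMul v (g'.map (Int.cast : ℤ → ℂ) - 1) = 0
      rw [Matrix.vecMul_sub, Matrix.vecMul_one, hcast, h g' hg', hv, sub_self]
    exact (Submodule.mem_bot ℝ).1 (h3 h1)
  have h4 : Matrix.vecMul v (g.map (Int.cast : ℤ → ℂ)) - v = 0 := by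
    have h5 : Matrix.vecMul v (g.map (Int.cast : ℤ → ℂ) - 1) = 0 := h2
    rwa [Matrix.vecMul_sub, Matrix.vecMul_one] at h5
  rw [hcast, hv] at h4
  funext i
  have h6 := congrFun h4 i
  simp only [Pi.sub_apply, Pi.zero_apply, sub_eq_zero] at h6
  exact_mod_cast h6

/-- **Specialisation of normal functions.** -/
theorem nf_fix {U : Set (X → ℂ)} {ν : (X → ℂ) → Matrix ρ κ ℂ} {P : (X → ℂ) → Matrix ι κ ℂ}
    (h : NormalFunctions U ν P) (k : ℕ) (ε : ℝ) (hε : 0 < ε) :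
    ∃ (D : ℕ) (B C T₀ : ℝ), 0 ≤ C ∧ 2 ≤ T₀ ∧ ∀ T, T₀ ≤ T →
      ∀ (K : Type) [Field K] [NumberField K], Module.finrank ℚ K ≤ k → ∀ (io : K →+* ℂ),
        Cov D ⌊C * T ^ ε⌋₊ ((fun (s : X → K) j => io (s j)) '' Near U ν P {p | ¬ Invariant U ν P p.1 p.2} k B K io T) ∧
        (Near U ν P {p | ¬ Invariant U ν P p.1 p.2} k B K io T).Finite ∧
        ((Near U ν P {p | ¬ Invariant U ν P p.1 p.2} k B K io T).ncard : ℝ) ≤
          D * C * T ^ ε * ((Height K T).ncard : ℝ) ^ (Fintype.card X - 1) := by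
  classical
  rcases Nat.eq_zero_or_pos k with hk | hk
  · refine ⟨0, 0, 0, 2, le_rfl, le_rfl, ?_⟩
    intro T _ K _ _ hK
    have h1 : 0 < Module.finrank ℚ K := Module.finrank_pos
    omega
  have hk1 : (1 : ℝ) ≤ k := by exact_mod_cast hk
  have hk2 : 0 < 2 * k := by omega
  obtain ⟨G₁, hG₁, hgen⟩ := exists_gen (fun g : Matrix (ρ ⊕ ι) (ρ ⊕ ι) ℤ => g.map (Int.cast : ℤ → ℂ) - 1) (Mon U ν P)
  obtain ⟨c, hc, hcb⟩ := ind_bound h hk
  obtain ⟨c₂, hc₂, hcb₂⟩ := ind_bound h hk2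
  obtain ⟨D, B, C, T₁, hC, hT₁, H⟩ := lin_trans h.family hk (G₁.image fun g => g.map (Int.cast : ℤ → ℂ)) (by
      intro g hg
      obtain ⟨g', hg', rfl⟩ := Finset.mem_image.1 hg
      exact (hG₁ g' hg').2) (k + 1) 1 ε hε
  -- the bound for the normal functions
  have hνb : ∃ R : ℝ, ∀ z ∈ InnerM U (2 * k), ∑ a, ∑ j, ‖ν z a j‖ ≤ R := by
    have hcont : ContinuousOn (fun z => ∑ a, ∑ j, ‖ν z a j‖) (InnerM U (2 * k)) :=
      continuousOn_finsetSum _ fun a _ => continuousOn_finsetSum _ fun j _ =>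
        (((h.family.analytic (Sum.inl a) j).continuousOn).mono (innerM_sub _ hk2)).norm
    obtain ⟨R, hR⟩ := (innerM_compact U (2 * k)).bddAbove_image hcont
    exact ⟨R, fun z hz => hR ⟨z, hz, rfl⟩⟩
  obtain ⟨R, hR⟩ := hνb
  choose Λ hΛ hΛ' using fun p : (ρ ⊕ ι) × κ => lip_one hk (h.family.analytic p.1 p.2)
  obtain ⟨Λ₀, hΛ₀⟩ : ∃ Λ₀, Λ₀ = ∑ p, Λ p := ⟨_, rfl⟩
  have hΛ₀0 : 0 ≤ Λ₀ := by rw [hΛ₀]; exact Finset.sum_nonneg fun p _ => hΛ p
  obtain ⟨n₀, hn₀⟩ : ∃ n₀, n₀ = Fintype.card (ρ ⊕ ι) := ⟨_, rfl⟩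
  obtain ⟨B₁, hB₁⟩ : ∃ B₁ : ℝ, B₁ = |B| + 1 := ⟨_, rfl⟩
  have hB₁1 : 1 ≤ B₁ := by rw [hB₁]; linarith [abs_nonneg B]
  refine ⟨D, B₁ + (k + 2 : ℕ), C, max (max T₁ (2 * k)) (max (max (1 + n₀ * Λ₀) ((1 + |R|) / c₂)) (3 / c)), hC,
    (hT₁.trans (le_max_left _ _)).trans (le_max_left _ _), ?_⟩
  intro T hT K _ _ hK io
  have hTa : T₁ ≤ T := ((le_max_left _ _).trans (le_max_left _ _)).trans hT
  have hTb : 2 * (k : ℝ) ≤ T := ((le_max_right _ _).trans (le_max_left _ _)).trans hT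
  have hTc : 1 + n₀ * Λ₀ ≤ T := (((le_max_left _ _).trans (le_max_left _ _)).trans (le_max_right _ _)).trans hT
  have hTd : (1 + |R|) / c₂ ≤ T := (((le_max_right _ _).trans (le_max_left _ _)).trans (le_max_right _ _)).trans hT
  have hTe : 3 / c ≤ T := ((le_max_right _ _).trans (le_max_right _ _)).trans hT
  have hT1 : 1 ≤ T := by linarith
  have hTp : 0 < T := by linarith
  have h1 : Cov D ⌊C * T ^ ε⌋₊ ((fun (s : X → K) j => io (s j)) ''
      Near U ν P {p | ¬ Invariant U ν P p.1 p.2} k (B₁ + (k + 2 : ℕ)) K io T) := by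
    refine (H K hK io T hTa).mono le_rfl le_rfl ?_
    rintro _ ⟨s, ⟨hs1, hs2, z, hz, hsz, N, n, hN, hinv, hnear⟩, rfl⟩
    by_contra hcon
    apply hinv
    refine inv_of_gen hgen fun g hg => ?_
    obtain ⟨t, ht⟩ : ∃ t : X → ℂ, t = fun j => io (s j) := ⟨_, rfl⟩
    simp only at hcon
    rw [← ht] at hcon hsz
    have hs2' : t ∈ InnerM U k := by
      rw [ht]
      exact hs2
    have hη1 : T ^ (-(B₁ + (k + 2 : ℕ))) ≤ T⁻¹ := by
      rw [← Real.rpow_neg_one]
      refine Real.rpow_le_rpow_of_exponent_le hT1 ?_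
      push_cast
      linarith
    have hη0 : 0 < T ^ (-(B₁ + (k + 2 : ℕ))) := Real.rpow_pos_of_pos hTp _
    have hsz' : ‖t - z‖ ≤ ((2 * k : ℕ) : ℝ)⁻¹ := by
      refine (hsz.trans hη1).trans ?_
      exact inv_anti₀ (by positivity) (by push_cast; exact hTb)
    have hzI : z ∈ InnerM U (2 * k) := by
      apply ball_inner hk hs2'
      rw [Metric.mem_closedBall, dist_comm, dist_eq_norm]
      exact hsz'
    -- the size of `n`
    have hn : ∀ l, |(n l : ℝ)| ≤ T ^ (k + 1) := by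
      have h2 := hcb₂ z hzI (fun l => (n l : ℝ))
      have h3 : ‖Matrix.vecMul (fun i => (((n i : ℤ) : ℝ) : ℂ)) (P z)‖ ≤ (1 + |R|) * T ^ k := by
        refine (pi_norm_le_iff_of_nonneg (by positivity)).2 fun j => ?_
        have h4 : Matrix.vecMul (fun i => (((n i : ℤ) : ℝ) : ℂ)) (P z) j =
            (∑ a, (N a : ℂ) * ν z a j + ∑ l, (n l : ℂ) * P z l j) - ∑ a, (N a : ℂ) * ν z a j := by
          simp only [Matrix.vecMul, dotProduct]
          push_cast
          ring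
        rw [h4]
        refine (norm_sub_le _ _).trans ?_
        have h5 : ‖∑ a, (N a : ℂ) * ν z a j‖ ≤ T ^ k * |R| := by
          calc _ ≤ ∑ a, T ^ k * ‖ν z a j‖ := by
                refine (norm_sum_le _ _).trans (Finset.sum_le_sum fun a _ => ?_)
                rw [norm_mul, Complex.norm_intCast]
                exact mul_le_mul_of_nonneg_right (hN a) (norm_nonneg _)
            _ = T ^ k * ∑ a, ‖ν z a j‖ := by rw [Finset.mul_sum]
            _ ≤ T ^ k * |R| := by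
                refine mul_le_mul_of_nonneg_left ?_ (by positivity)
                refine le_trans (Finset.sum_le_sum fun a _ => ?_) ((hR z hzI).trans (le_abs_self _))
                exact Finset.single_le_sum (f := fun j => ‖ν z a j‖) (fun _ _ => norm_nonneg _) (Finset.mem_univ j)
        have h6 : T ^ (-(B₁ + (k + 2 : ℕ))) ≤ T ^ k := by
          refine hη1.trans ?_
          have h7 : T⁻¹ ≤ 1 := inv_le_one_of_one_le₀ hT1
          exact h7.trans (one_le_pow₀ hT1)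
        linarith [hnear j]
      intro l
      have h8 : |(n l : ℝ)| ≤ ‖fun l => (n l : ℝ)‖ := norm_le_pi_norm (fun l => (n l : ℝ)) l
      have h9 : ‖fun l => (n l : ℝ)‖ ≤ (1 + |R|) / c₂ * T ^ k := by
        rw [div_mul_eq_mul_div, le_div_iff₀ hc₂, mul_comm]
        exact h2.trans h3
      refine h8.trans (h9.trans ?_)
      rw [pow_succ, mul_comm]
      exact mul_le_mul_of_nonneg_left hTd (by positivity)
    obtain ⟨v, hv⟩ : ∃ v : ρ ⊕ ι → ℤ, v = Sum.elim N n := ⟨_, rfl⟩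
    have hvT : ∀ i, |(v i : ℝ)| ≤ T ^ (k + 1) := by
      rintro (a | l)
      · rw [hv]
        exact (hN a).trans (pow_le_pow_right₀ hT1 (Nat.le_succ k))
      · rw [hv]
        exact hn l
    -- the relation at `t`
    have hnt : ∀ j, ‖Matrix.vecMul (fun i => (v i : ℂ)) (Matrix.fromRows (ν t) (P t)) j‖ ≤ T ^ (-B₁) := by
      intro j
      have h2 : Matrix.vecMul (fun i => (v i : ℂ)) (Matrix.fromRows (ν t) (P t)) j =
          Matrix.vecMul (fun i => (v i : ℂ)) (Matrix.fromRows (ν z) (P z)) j +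
            ∑ i, (v i : ℂ) * (Matrix.fromRows (ν t) (P t) i j - Matrix.fromRows (ν z) (P z) i j) := by
        simp only [mul_sub, Finset.sum_sub_distrib]
        change ∑ i, _ = ∑ i, _ + _
        ring
      have h3 : ‖Matrix.vecMul (fun i => (v i : ℂ)) (Matrix.fromRows (ν z) (P z)) j‖ ≤ T ^ (-(B₁ + (k + 2 : ℕ))) := by
        rw [vec_split, hv]
        exact hnear j
      have h4 : ‖∑ i, (v i : ℂ) * (Matrix.fromRows (ν t) (P t) i j - Matrix.fromRows (ν z) (P z) i j)‖ ≤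
          n₀ * (T ^ (k + 1) * (Λ₀ * T ^ (-(B₁ + (k + 2 : ℕ))))) := by
        calc _ ≤ ∑ _i : ρ ⊕ ι, T ^ (k + 1) * (Λ₀ * T ^ (-(B₁ + (k + 2 : ℕ)))) := by
              refine (norm_sum_le _ _).trans (Finset.sum_le_sum fun i _ => ?_)
              rw [norm_mul, Complex.norm_intCast]
              refine mul_le_mul (hvT i) ?_ (norm_nonneg _) (by positivity)
              refine (hΛ' (i, j) t hs2' z hsz').trans ?_
              refine mul_le_mul ?_ hsz (norm_nonneg _) hΛ₀0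
              rw [hΛ₀]
              exact Finset.single_le_sum (f := Λ) (fun p _ => hΛ p) (Finset.mem_univ (i, j))
          _ = _ := by rw [Finset.sum_const, Finset.card_univ, nsmul_eq_mul, hn₀]
      rw [h2]
      refine (norm_add_le _ _).trans ?_
      have h5 : (1 : ℝ) ≤ T ^ (k + 1) := one_le_pow₀ hT1
      calc _ ≤ T ^ (-(B₁ + (k + 2 : ℕ))) + n₀ * (T ^ (k + 1) * (Λ₀ * T ^ (-(B₁ + (k + 2 : ℕ))))) := add_le_add h3 h4
        _ = T ^ (-(B₁ + (k + 2 : ℕ))) * (1 + n₀ * Λ₀ * T ^ (k + 1)) := by ring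
        _ ≤ T ^ (-(B₁ + (k + 2 : ℕ))) * (T * T ^ (k + 1)) := by
            refine mul_le_mul_of_nonneg_left ?_ hη0.le
            have h6 := mul_le_mul_of_nonneg_right hTc (show (0 : ℝ) ≤ T ^ (k + 1) by positivity)
            nlinarith
        _ = T ^ (-B₁) := by
            have h7 : T * T ^ (k + 1) = T ^ ((k + 2 : ℕ) : ℝ) := by
              rw [Real.rpow_natCast, pow_succ T (k + 1), mul_comm]
            rw [h7, ← Real.rpow_add hTp]
            congr 1
            ring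
    have hBB : T ^ (-B₁) ≤ T ^ (-B) := by
      refine Real.rpow_le_rpow_of_exponent_le hT1 ?_
      rw [hB₁]
      linarith [le_abs_self B]
    have hfar : ∀ j, ‖Matrix.vecMul (fun i => (v i : ℂ))
        (g.map (Int.cast : ℤ → ℂ) * Matrix.fromRows (ν t) (P t)) j‖ ≤ T ^ (-(1 : ℝ)) := by
      intro j
      by_contra hgt
      exact hcon ⟨hs2', s, hs1, ht, v, hvT, j, (hnt j).trans hBB, _, Finset.mem_image_of_mem _ hg, not_le.1 hgt⟩
    -- the difference
    obtain ⟨⟨a, M, hgM⟩, -⟩ := hG₁ g hg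
    obtain ⟨u, hu⟩ : ∃ u : ρ ⊕ ι → ℤ, u = Matrix.vecMul v g := ⟨_, rfl⟩
    have hul : ∀ a, u (Sum.inl a) = N a := by
      intro b
      rw [hu, hv, hgM, Matrix.vecMul_fromBlocks]
      simp
    have huc : ∀ j, Matrix.vecMul (fun i => (u i : ℂ)) (Matrix.fromRows (ν t) (P t)) j =
        Matrix.vecMul (fun i => (v i : ℂ)) (g.map (Int.cast : ℤ → ℂ) * Matrix.fromRows (ν t) (P t)) j := by
      intro j
      rw [← Matrix.vecMul_vecMul]
      congr 2
      funext i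
      rw [hu]
      simp [Matrix.vecMul, dotProduct]
    obtain ⟨w, hw⟩ : ∃ w : ι → ℤ, w = fun l => u (Sum.inr l) - n l := ⟨_, rfl⟩
    have hwP : ‖Matrix.vecMul (fun i => (((w i : ℤ) : ℝ) : ℂ)) (P t)‖ ≤ 2 * T⁻¹ := by
      refine (pi_norm_le_iff_of_nonneg (by positivity)).2 fun j => ?_
      have h2 : Matrix.vecMul (fun i => (((w i : ℤ) : ℝ) : ℂ)) (P t) j =
          Matrix.vecMul (fun i => (u i : ℂ)) (Matrix.fromRows (ν t) (P t)) j -
            Matrix.vecMul (fun i => (v i : ℂ)) (Matrix.fromRows (ν t) (P t)) j := by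
        rw [vec_split, vec_split]
        simp only [hul, hv, Sum.elim_inl, Sum.elim_inr]
        rw [add_sub_add_left_eq_sub, ← Finset.sum_sub_distrib]
        simp only [Matrix.vecMul, dotProduct]
        refine Finset.sum_congr rfl fun l _ => ?_
        rw [hw]
        push_cast
        ring
      rw [h2, huc]
      refine (norm_sub_le _ _).trans ?_
      have h3 := hfar j
      have h4 := hnt j
      rw [Real.rpow_neg_one] at h3
      have h5 : T ^ (-B₁) ≤ T⁻¹ := by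
        rw [← Real.rpow_neg_one]
        exact Real.rpow_le_rpow_of_exponent_le hT1 (by linarith)
      linarith
    have hw0 : w = 0 := by
      have h2 := (hcb t hs2' (fun l => (w l : ℝ))).trans hwP
      have h3 : ‖fun l => (w l : ℝ)‖ < 1 := by
        have h4 : c * ‖fun l => (w l : ℝ)‖ * T ≤ 2 := by
          have h5 := mul_le_mul_of_nonneg_right h2 hTp.le
          rw [mul_assoc 2, inv_mul_cancel₀ hTp.ne', mul_one] at h5
          exact h5
        rw [div_le_iff₀ hc] at hTe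
        by_contra hge
        rw [not_lt] at hge
        nlinarith [mul_pos hTp hc]
      funext l
      have h6 : |(w l : ℝ)| < 1 := lt_of_le_of_lt (norm_le_pi_norm (fun l => (w l : ℝ)) l) h3
      have h7 : |w l| < 1 := by exact_mod_cast h6
      exact Int.abs_lt_one_iff.1 h7
    rw [← hv, ← hu]
    funext i
    rcases i with b | l
    · rw [hul, hv]
      rfl
    · have h2 := congrFun hw0 l
      rw [hw] at h2
      simp only [Pi.zero_apply, sub_eq_zero] at h2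
      rw [h2, hv]
      rfl
  obtain ⟨h2, h3⟩ := cov_count io {x : K | Y120.HtLe K T x} (Y120.HtLe_fin K T) _ (fun s hs => hs.1) h1
  refine ⟨h1, h2, ?_⟩
  have h4 : ((Near U ν P {p | ¬ Invariant U ν P p.1 p.2} k (B₁ + (k + 2 : ℕ)) K io T).ncard : ℝ) ≤
      (⌊C * T ^ ε⌋₊ : ℝ) * (D * ((Height K T).ncard : ℝ) ^ (Fintype.card X - 1)) := by
    exact_mod_cast h3
  have h5 : ((⌊C * T ^ ε⌋₊ : ℕ) : ℝ) ≤ C * T ^ ε := Nat.floor_le (by positivity)
  refine h4.trans ((mul_le_mul_of_nonneg_right h5 (by positivity)).trans (le_of_eq ?_))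
  ring

end Pool.Agent.U543.NF
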