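import Pool.Agent.U543.NhStab
import Pool.Agent.U543.NfDef

/-!
# Near linear relations remain near relations on the fibre
-/

set_option autoImplicit false
set_option linter.unusedSectionVars false

open NumberField

namespace Pool.Agent.U543.NF

open Pool.Agent.Y890.MV
open Pool.Agent.Y124 (Cov)
open Pool.Agent.U543.GD (Gal Family regularM)
open Pool.Agent.U543.SN (fib stab)
open Pool.Agent.U543.NH (cov_iUnion)

variable {X τ κ : Type} [Fintype X] [DecidableEq X] [Nonempty X] [Fintype τ] [DecidableEq τ] [Fintype κ] [DecidableEq κ]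

/-- the exponents of one entry -/
def ent (i : τ) (j : κ) (p : τ × κ) : Fin 2 := if p = (i, j) then 1 else 0

theorem ent_prod (Y : Matrix τ κ ℂ) (i : τ) (j : κ) : ∏ p : τ × κ, Y p.1 p.2 ^ (ent i j p : ℕ) = Y i j := by
  rw [Finset.prod_eq_single (i, j)]
  · simp [ent]
  · intro p _ hp
    simp [ent, hp]
  · simp

/-- **Near linear relations are near relations for all `g Q`.** -/
theorem lin_trans {U : Set (X → ℂ)} {Q : (X → ℂ) → Matrix τ κ ℂ} (h : Family U Q) {k : ℕ} (hk : 0 < k)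
    (G₀ : Finset (Matrix τ τ ℂ)) (hG₀ : ∀ g ∈ G₀, g ∈ Gal U Q) (A : ℕ) (B₂ ε : ℝ) (hε : 0 < ε) :
    ∃ (D : ℕ) (B C T₀ : ℝ), 0 ≤ C ∧ 2 ≤ T₀ ∧ ∀ (K : Type) [Field K] [NumberField K], Module.finrank ℚ K ≤ k →
      ∀ (io : K →+* ℂ) (T : ℝ), T₀ ≤ T →
        Cov D ⌊C * T ^ ε⌋₊ {t : X → ℂ | t ∈ InnerM U k ∧ ∃ s : X → K,
          (∀ i, Y120.HtLe K T (s i)) ∧ (t = fun i => io (s i)) ∧ ∃ v : τ → ℤ,
            (∀ I, |(v I : ℝ)| ≤ T ^ A) ∧ ∃ j, ‖Matrix.vecMul (fun i => (v i : ℂ)) (Q t) j‖ ≤ T ^ (-B) ∧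
              ∃ g ∈ G₀, T ^ (-B₂) < ‖Matrix.vecMul (fun i => (v i : ℂ)) (g * Q t) j‖} := by
  classical
  have hf : ∀ p : τ × κ, AnalyticOnNhd ℂ (fun x => Q x p.1 p.2) U := fun p => h.analytic p.1 p.2
  have hS := stab h.isPreconnected h.isOpen h.nonempty hf (regularM h.regular)
    (InnerM U k) (innerM_compact _ _) (innerM_sub _ hk) 1 τ k (A : ℝ) (B₂ + 1) ε hε
  obtain ⟨D, B, C, T₁, hC, hT₁, H⟩ := hS
  -- the bound for the monomials
  have hb : ∀ g : Matrix τ τ ℂ, ∃ b : ℝ, ∀ t ∈ InnerM U k,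
      ∑ l : τ × κ → Fin (1 + 1), ∏ p : τ × κ, ‖(g * Q t) p.1 p.2‖ ^ (l p : ℕ) ≤ b := by
    intro g
    have hcont : ContinuousOn (fun t => ∑ l : τ × κ → Fin (1 + 1), ∏ p : τ × κ, ‖(g * Q t) p.1 p.2‖ ^ (l p : ℕ))
        (InnerM U k) := by
      refine continuousOn_finsetSum _ fun l _ => continuousOn_finsetProd _ fun p _ => ContinuousOn.pow (ContinuousOn.norm ?_) _
      simp only [Matrix.mul_apply]
      exact continuousOn_finsetSum _ fun j _ => continuousOn_const.mul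
        (((h.analytic j p.2).continuousOn).mono (innerM_sub _ hk))
    obtain ⟨b, hb⟩ := (innerM_compact U k).bddAbove_image hcont
    exact ⟨b, fun t ht => hb ⟨t, ht, rfl⟩⟩
  choose b hb using hb
  obtain ⟨R₁, hR₁⟩ : ∃ R₁ : ℝ, R₁ = ∑ g ∈ G₀, |b g| := ⟨_, rfl⟩
  obtain ⟨n, hn⟩ : ∃ n, n = Fintype.card κ := ⟨_, rfl⟩
  refine ⟨D, B, n * C, max T₁ R₁, by positivity, hT₁.trans (le_max_left _ _), ?_⟩
  intro K _ _ hK io T hT
  have hTa : T₁ ≤ T := (le_max_left _ _).trans hT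
  have hTb : R₁ ≤ T := (le_max_right _ _).trans hT
  have hT1 : 1 ≤ T := by linarith
  have hTp : 0 < T := by linarith
  have hξ : ∀ i : τ, ‖(fun _ => 1 : τ → ℂ) i‖ ≤ T ^ (A : ℝ) := by
    intro i
    rw [norm_one, Real.rpow_natCast]
    exact one_le_pow₀ hT1
  have hcov := cov_iUnion (fun _ : κ => ⌊C * T ^ ε⌋₊) (fun j : κ => {t : X → ℂ | t ∈ InnerM U k ∧ ∃ s : X → K,
          (∀ i, Y120.HtLe K T (s i)) ∧ (t = fun i => io (s i)) ∧ ∃ v : τ → ℤ,
            (∀ I, |(v I : ℝ)| ≤ T ^ A) ∧ ‖Matrix.vecMul (fun i => (v i : ℂ)) (Q t) j‖ ≤ T ^ (-B) ∧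
              ∃ g ∈ G₀, T ^ (-B₂) < ‖Matrix.vecMul (fun i => (v i : ℂ)) (g * Q t) j‖}) (by
    intro j
    refine (H K hK io (fun _ => 1) T hTa hξ).mono le_rfl le_rfl ?_
    rintro t ⟨htL, s, hs1, hts, v, hv, hnear, g, hg, hfar⟩
    have hcast : ∀ I, io ((((v I : ℤ) : 𝓞 K) : 𝓞 K) : K) = (v I : ℂ) := by
      intro I
      simp
    have hrel : ∀ Y : Matrix τ κ ℂ, Matrix.vecMul (fun i => (v i : ℂ)) Y j =
        ∑ l : τ × κ → Fin (1 + 1), (∑ i, (1 : ℂ) * io (((if ent i j = l then ((v i : ℤ) : 𝓞 K) else 0 : 𝓞 K)) : K)) *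
          ∏ p, Y p.1 p.2 ^ (l p : ℕ) := by
      intro Y
      simp only [Finset.sum_mul]
      rw [Finset.sum_comm]
      refine Finset.sum_congr rfl fun i _ => ?_
      rw [Finset.sum_eq_single (ent i j) (fun l _ hl => by rw [if_neg (Ne.symm hl)]; simp) (by simp), if_pos rfl, hcast,
        ent_prod, one_mul]
    refine ⟨htL, s, hs1, hts, fun l i => if ent i j = l then ((v i : ℤ) : 𝓞 K) else 0, ?_, ?_, ?_⟩
    · intro l i φ
      rw [Real.rpow_natCast]
      beta_reduce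
      by_cases hl : ent i j = l
      · rw [if_pos hl]
        simpa using hv i
      · rw [if_neg hl]
        simp only [map_zero, norm_zero]
        positivity
    · have h1 := hrel (Q t)
      rw [h1] at hnear
      exact hnear
    · rintro ⟨P', hP', hvan⟩
      have hmem : (fun p : τ × κ => (g * Q t) p.1 p.2) ∈ fib U (fun (p : τ × κ) x => Q x p.1 p.2) t := by
        intro F hF
        exact hG₀ g hg F hF t (innerM_sub _ hk htL)
      have h0 := hvan _ hmem
      have h1 := hrel (g * Q t)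
      have h2 : Matrix.vecMul (fun i => (v i : ℂ)) (g * Q t) j =
          ∑ l : τ × κ → Fin (1 + 1), ((∑ i, (1 : ℂ) * io (((if ent i j = l then ((v i : ℤ) : 𝓞 K) else 0 : 𝓞 K)) : K)) -
            P' l) * ∏ p, (g * Q t) p.1 p.2 ^ (l p : ℕ) := by
        simp only [sub_mul, Finset.sum_sub_distrib]
        rw [h1, h0, sub_zero]
      have h3 : ‖Matrix.vecMul (fun i => (v i : ℂ)) (g * Q t) j‖ ≤ T ^ (-(B₂ + 1)) * b g := by
        rw [h2]
        calc _ ≤ ∑ l : τ × κ → Fin (1 + 1), T ^ (-(B₂ + 1)) * ∏ p : τ × κ, ‖(g * Q t) p.1 p.2‖ ^ (l p : ℕ) := by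
              refine (norm_sum_le _ _).trans (Finset.sum_le_sum fun l _ => ?_)
              rw [norm_mul, norm_prod]
              simp only [norm_pow]
              refine mul_le_mul_of_nonneg_right ?_ (Finset.prod_nonneg fun _ _ => by positivity)
              rw [norm_sub_rev]
              exact hP' l
          _ ≤ _ := by
              rw [← Finset.mul_sum]
              exact mul_le_mul_of_nonneg_left (hb g t htL) (by positivity)
      have h4 : b g ≤ T := by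
        refine (le_abs_self _).trans (le_trans ?_ hTb)
        rw [hR₁]
        exact Finset.single_le_sum (f := fun g => |b g|) (fun _ _ => abs_nonneg _) hg
      have h5 : T ^ (-(B₂ + 1)) * b g ≤ T ^ (-B₂) := by
        refine (mul_le_mul_of_nonneg_left h4 (by positivity)).trans (le_of_eq ?_)
        rw [neg_add, Real.rpow_add hTp, Real.rpow_neg_one]
        field_simp
      exact absurd (h3.trans h5) (not_le.2 hfar))
  refine hcov.mono le_rfl ?_ ?_
  · rw [Finset.sum_const, Finset.card_univ, ← hn, smul_eq_mul]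
    apply Nat.le_floor
    push_cast
    have h1 := Nat.floor_le (a := C * T ^ ε) (by positivity)
    calc (n : ℝ) * ⌊C * T ^ ε⌋₊ ≤ n * (C * T ^ ε) := mul_le_mul_of_nonneg_left h1 (by positivity)
      _ = _ := by ring
  rintro t ⟨htL, s, hs1, hts, v, hv, j, hnear, hfar⟩
  rw [Set.mem_iUnion]
  exact ⟨j, htL, s, hs1, hts, v, hv, hnear, hfar⟩

end Pool.Agent.U543.NF
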