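import Pool.Agent.U543.LkDef

/-!
# Points near the Hodge locus: definitions
-/

set_option autoImplicit false

open NumberField

namespace Pool.Agent.U543.NH

open Pool.Agent.U543.GD (Height Inner sum tensor)
open Pool.Agent.U543.HT (Auts orbit)
open Pool.Agent.U543.LK (Linked)

/-- The integral tensor `v` is a Hodge tensor up to `η`: its periods over the differentials in the step of the Hodge
filtration beyond the middle have absolute value at most `η` (compare `IsHodge`). -/
def IsNearHodge {α : Type} [Fintype α] (wt : ℤ) (w : α → ℤ) (M : Matrix α α ℂ) (η : ℝ) {m : ℕ}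
    (v : (Fin m → α) → ℤ) : Prop :=
  ∀ J : Fin m → α, (m : ℤ) * wt < 2 * ∑ t, w (J t) → ‖Matrix.vecMul (fun I => (v I : ℂ)) (tensor m M) J‖ ≤ η

variable {X ι : Type} [Fintype X] [Fintype ι] [DecidableEq ι]

/-- The points `s` of `U` with coordinates in `K` of height at most `T`, of norm at most `k` and at distance at least
`1 / k` from the complement of `U`, which are near the Hodge locus: for some point `z` of `U` at distance at most
`T ^ (-B)` from `s` (any complex point) and some `m ≤ k` some integral tensor of order `m` of `M₀ ⊕ V_z`, with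
coordinates of absolute value at most `T ^ k`, is a Hodge tensor up to `T ^ (-B)` and has an infinite orbit. -/
def NearHodge (wt : ℤ) (w : ι → ℤ) (S : Matrix ι ι ℤ) (U : Set (X → ℂ)) (P : (X → ℂ) → Matrix ι ι ℂ) (k : ℕ) (B : ℝ)
    (K : Type) [Field K] [NumberField K] (io : K →+* ℂ) {r : ℕ} (w₀ : Fin r → ℤ) (C₀ : Matrix (Fin r) (Fin r) ℂ)
    (T : ℝ) : Set (X → K) :=
  {s | (∀ j, s j ∈ Height K T) ∧ (fun j => io (s j)) ∈ Inner U k ∧ ∃ z ∈ U, ‖(fun j => io (s j)) - z‖ ≤ T ^ (-B) ∧
    ∃ m ≤ k, ∃ v : (Fin m → Fin r ⊕ ι) → ℤ, (∀ I, |(v I : ℝ)| ≤ T ^ k) ∧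
      IsNearHodge wt (Sum.elim w₀ w) (sum C₀ (P z)) (T ^ (-B)) v ∧ ¬ (orbit (Auts U P S) v).Finite}

/-- The same for the points `s` such that for some point `z` of `U` at distance at most `T ^ (-B)` from `s` the Hodge
structure `V_z` is linked with the Hodge structure `M₀` with the period matrix `C₀` by Hodge tensors of order at most `k`
and height at most `T ^ k`. -/
def NearLinked (wt : ℤ) (w : ι → ℤ) (S : Matrix ι ι ℤ) (U : Set (X → ℂ)) (P : (X → ℂ) → Matrix ι ι ℂ) (k : ℕ) (B : ℝ)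
    (K : Type) [Field K] [NumberField K] (io : K →+* ℂ) {r : ℕ} (w₀ : Fin r → ℤ) (C₀ : Matrix (Fin r) (Fin r) ℂ)
    (T : ℝ) : Set (X → K) :=
  {s | (∀ j, s j ∈ Height K T) ∧ (fun j => io (s j)) ∈ Inner U k ∧
    ∃ z ∈ U, ‖(fun j => io (s j)) - z‖ ≤ T ^ (-B) ∧ Linked wt w S (P z) w₀ C₀ k (T ^ k)}

end Pool.Agent.U543.NH
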