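import Pool.Agent.U543.NhReal
import Pool.Agent.U543.HtMain

/-!
# A uniform lower bound for the polarisation on the tensors close to Hodge tensors
-/

set_option autoImplicit false
set_option linter.unusedSectionVars false

open NumberField

namespace Pool.Agent.U543.NH

open Pool.Agent.Y890.MV
open Pool.Agent.U543.GD (tensor sum tensor_mul)
open Pool.Agent.U543.HT (Polarized Variation polarized_sum)

variable {X ι : Type} [Fintype X] [DecidableEq X] [Nonempty X] [Fintype ι] [DecidableEq ι]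

/-- the sum of the squares of the periods beyond the middle -/
noncomputable def dev {α : Type} [Fintype α] (wt : ℤ) (w : α → ℤ) (M : Matrix α α ℂ) {m : ℕ} (y : (Fin m → α) → ℝ) : ℝ :=
  ∑ J : Fin m → α, if (m : ℤ) * wt < 2 * ∑ t, w (J t) then ‖Matrix.vecMul (rx y) (tensor m M) J‖ ^ 2 else 0

theorem dev_nonneg {α : Type} [Fintype α] (wt : ℤ) (w : α → ℤ) (M : Matrix α α ℂ) {m : ℕ} (y : (Fin m → α) → ℝ) :
    0 ≤ dev wt w M y :=
  Finset.sum_nonneg fun J _ => by split_ifs <;> positivity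

theorem isH_of_dev {α : Type} [Fintype α] [DecidableEq α] {wt : ℤ} {w : α → ℤ} {M : Matrix α α ℂ} {m : ℕ}
    {y : (Fin m → α) → ℝ} (h : dev wt w M y = 0) : IsH wt w M y := by
  intro J hJ
  have h1 := (Finset.sum_eq_zero_iff_of_nonneg (fun J _ => by split_ifs <;> positivity)).1 h J (Finset.mem_univ J)
  rw [if_pos hJ] at h1
  exact norm_eq_zero.1 (pow_eq_zero_iff two_ne_zero |>.1 h1)

theorem rx_smul {α : Type} {m : ℕ} (a : ℝ) (y : (Fin m → α) → ℝ) : rx (a • y) = (a : ℂ) • rx y := by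
  funext I
  simp [rx]

theorem cont_tensor {U : Set (X → ℂ)} {P : (X → ℂ) → Matrix ι ι ℂ} (hP : ∀ i j, ContinuousOn (fun x => P x i j) U)
    {r m : ℕ} (I J : Fin m → Fin r ⊕ ι) :
    ContinuousOn (fun z : (X → ℂ) × Matrix (Fin r) (Fin r) ℂ × ((Fin m → Fin r ⊕ ι) → ℝ) =>
      tensor m (sum z.2.1 (P z.1)) I J) (U ×ˢ Set.univ) := by
  unfold tensor
  refine continuousOn_finsetProd _ fun t _ => ?_
  rcases I t with a | a <;> rcases J t with b | b
  · have : Continuous fun z : (X → ℂ) × Matrix (Fin r) (Fin r) ℂ × ((Fin m → Fin r ⊕ ι) → ℝ) => z.2.1 a b :=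
      (continuous_fst.comp continuous_snd).matrix_elem a b
    exact this.continuousOn
  · exact continuousOn_const
  · exact continuousOn_const
  · exact (hP a b).comp continuousOn_fst fun z hz => hz.1

/-- **The uniform bound.** -/
theorem pos_bound {wt : ℤ} {w : ι → ℤ} {S : Matrix ι ι ℤ} {U : Set (X → ℂ)} {P : (X → ℂ) → Matrix ι ι ℂ}
    (h : Variation wt w S U P) {k : ℕ} (hk : 0 < k) (m : ℕ) {r : ℕ} {w₀ : Fin r → ℤ} {S₀ : Matrix (Fin r) (Fin r) ℤ}
    {𝒞 : Set (Matrix (Fin r) (Fin r) ℂ)} (h𝒞 : IsCompact 𝒞) (h𝒞' : ∀ C₀ ∈ 𝒞, Polarized wt w₀ S₀ C₀) :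
    ∃ c C : ℝ, 0 < c ∧ 0 ≤ C ∧ ∀ x ∈ InnerM U k, ∀ C₀ ∈ 𝒞, ∀ y : (Fin m → Fin r ⊕ ι) → ℝ,
      c * ‖y‖ ^ 2 ≤ (qr (Matrix.fromBlocks S₀ 0 0 S) y).re + C * dev wt (Sum.elim w₀ w) (sum C₀ (P x)) y := by
  classical
  have hUL : InnerM U k ⊆ U := innerM_sub _ hk
  have hcont : ∀ i j, ContinuousOn (fun x => P x i j) (InnerM U k) := fun i j =>
    ((h.family.analytic i j).continuousOn).mono hUL
  have hL : IsCompact (InnerM U k ×ˢ (𝒞 ×ˢ Metric.sphere (0 : (Fin m → Fin r ⊕ ι) → ℝ) 1)) :=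
    (innerM_compact U k).prod (h𝒞.prod (isCompact_sphere _ _))
  have hvec : ∀ J, ContinuousOn (fun z : (X → ℂ) × Matrix (Fin r) (Fin r) ℂ × ((Fin m → Fin r ⊕ ι) → ℝ) =>
      Matrix.vecMul (rx z.2.2) (tensor m (sum z.2.1 (P z.1))) J)
      (InnerM U k ×ˢ (𝒞 ×ˢ Metric.sphere (0 : (Fin m → Fin r ⊕ ι) → ℝ) 1)) := by
    intro J
    simp only [Matrix.vecMul, dotProduct]
    refine continuousOn_finsetSum _ fun I _ => ContinuousOn.mul ?_ ?_
    · have : Continuous fun z : (X → ℂ) × Matrix (Fin r) (Fin r) ℂ × ((Fin m → Fin r ⊕ ι) → ℝ) => rx z.2.2 I := by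
        unfold rx
        exact Complex.continuous_ofReal.comp ((continuous_apply I).comp (continuous_snd.comp continuous_snd))
      exact this.continuousOn
    · exact (cont_tensor hcont I J).mono fun z hz => ⟨hz.1, Set.mem_univ _⟩
  obtain ⟨c, C, hc, hC, hb⟩ := cpt hL
    (Φ := fun z => (qr (Matrix.fromBlocks S₀ 0 0 S) z.2.2).re)
    (Ψ := fun z => dev wt (Sum.elim w₀ w) (sum z.2.1 (P z.1)) z.2.2) (by
      have : Continuous fun z : (X → ℂ) × Matrix (Fin r) (Fin r) ℂ × ((Fin m → Fin r ⊕ ι) → ℝ) =>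
          (qr (Matrix.fromBlocks S₀ 0 0 S) z.2.2).re := by
        unfold qr
        simp only [Matrix.vecMul, dotProduct, rx]
        fun_prop
      exact this.continuousOn) (by
      unfold dev
      refine continuousOn_finsetSum _ fun J _ => ?_
      split_ifs
      · exact ((hvec J).norm).pow 2
      · exact continuousOn_const)
    (fun z _ => dev_nonneg _ _ _ _) (by
      rintro ⟨x, C₀, y⟩ ⟨hx, hC₀, hy⟩ h0
      refine qr_pos (polarized_sum (h𝒞' C₀ hC₀) (h.polarized x (hUL hx))) (isH_of_dev h0) ?_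
      rintro rfl
      have h1 : ‖(0 : (Fin m → Fin r ⊕ ι) → ℝ)‖ = 1 := by simp at hy
      rw [norm_zero] at h1
      exact zero_ne_one h1)
  refine ⟨c, C, hc, hC, fun x hx C₀ hC₀ y => ?_⟩
  rcases eq_or_ne y 0 with rfl | hy
  · have h1 : (qr (Matrix.fromBlocks S₀ 0 0 S) (0 : (Fin m → Fin r ⊕ ι) → ℝ)).re = 0 := by
      have : rx (0 : (Fin m → Fin r ⊕ ι) → ℝ) = 0 := by
        funext I
        simp [rx]
      rw [qr, this]
      simp
    rw [norm_zero, h1]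
    have := mul_nonneg hC (dev_nonneg wt (Sum.elim w₀ w) (sum C₀ (P x)) (0 : (Fin m → Fin r ⊕ ι) → ℝ))
    simpa using this
  have hn : 0 < ‖y‖ := norm_pos_iff.2 hy
  have h1 := hb (x, C₀, ‖y‖⁻¹ • y) ⟨hx, hC₀, by
    rw [mem_sphere_zero_iff_norm, norm_smul, norm_inv, norm_norm, inv_mul_cancel₀ hn.ne']⟩
  have h2 : (qr (Matrix.fromBlocks S₀ 0 0 S) (‖y‖⁻¹ • y)).re = ‖y‖⁻¹ ^ 2 * (qr (Matrix.fromBlocks S₀ 0 0 S) y).re := by
    unfold qr
    rw [rx_smul, Matrix.smul_vecMul, smul_dotProduct, dotProduct_smul, smul_smul, smul_eq_mul]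
    rw [← Complex.ofReal_mul, Complex.re_ofReal_mul]
    ring
  have h3 : dev wt (Sum.elim w₀ w) (sum C₀ (P x)) (‖y‖⁻¹ • y) = ‖y‖⁻¹ ^ 2 * dev wt (Sum.elim w₀ w) (sum C₀ (P x)) y := by
    unfold dev
    rw [Finset.mul_sum]
    refine Finset.sum_congr rfl fun J _ => ?_
    split_ifs
    · rw [rx_smul, Matrix.smul_vecMul, Pi.smul_apply, norm_smul, mul_pow, Complex.norm_real, norm_inv, norm_norm]
    · rw [mul_zero]
  simp only [h2, h3] at h1
  have h4 : c * ‖y‖ ^ 2 ≤ (‖y‖⁻¹ ^ 2 * (qr (Matrix.fromBlocks S₀ 0 0 S) y).re +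
      C * (‖y‖⁻¹ ^ 2 * dev wt (Sum.elim w₀ w) (sum C₀ (P x)) y)) * ‖y‖ ^ 2 :=
    mul_le_mul_of_nonneg_right h1 (by positivity)
  refine h4.trans (le_of_eq ?_)
  field_simp

end Pool.Agent.U543.NH
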