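import Pool.Agent.U543.HtPol

/-!
# Real Hodge tensors, and a compactness argument
-/

set_option autoImplicit false
set_option linter.unusedSectionVars false

open NumberField

namespace Pool.Agent.U543.NH

open Pool.Agent.U543.GD (tensor sum tensor_mul)
open Pool.Agent.U543.HT (Polarized tensor_diagonal tensor_one tensor_conjTranspose tensor_conj prod_I)

variable {α : Type} [Fintype α] [DecidableEq α] {m : ℕ}

/-- the complex coordinates of a real tensor -/
def rx (y : (Fin m → α) → ℝ) : (Fin m → α) → ℂ := fun I => (y I : ℂ)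

/-- the periods beyond the middle are zero -/
def IsH (wt : ℤ) (w : α → ℤ) (M : Matrix α α ℂ) (y : (Fin m → α) → ℝ) : Prop :=
  ∀ J : Fin m → α, (m : ℤ) * wt < 2 * ∑ t, w (J t) → Matrix.vecMul (rx y) (tensor m M) J = 0

theorem vanishR {wt : ℤ} {w p : α → ℤ} {M A : Matrix α α ℂ} (hA : ∀ j k, w j < p k → A j k = 0)
    {y : (Fin m → α) → ℝ} (hy : IsH wt w M y) (K : Fin m → α) (hK : (m : ℤ) * wt < 2 * ∑ t, p (K t)) :
    Matrix.vecMul (rx y) (tensor m (M * A)) K = 0 := by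
  rw [tensor_mul, ← Matrix.vecMul_vecMul]
  change ∑ J, _ = _
  refine Finset.sum_eq_zero fun J _ => ?_
  by_cases h : ∀ t, p (K t) ≤ w (J t)
  · have h1 : ∑ t, p (K t) ≤ ∑ t, w (J t) := Finset.sum_le_sum fun t _ => h t
    have h2 : Matrix.vecMul (rx y) (tensor m M) J = 0 := hy J (by linarith)
    rw [h2, zero_mul]
  · push Not at h
    obtain ⟨t, ht⟩ := h
    have h1 : tensor m A J K = 0 := Finset.prod_eq_zero (Finset.mem_univ t) (hA _ _ ht)
    change Matrix.vecMul (rx y) (tensor m M) J * tensor m A J K = 0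
    rw [h1, mul_zero]

theorem coord_zeroR {wt : ℤ} {w p : α → ℤ} {M A B : Matrix α α ℂ} (hA : ∀ j k, w j < p k → A j k = 0)
    (hB : ∀ j k, w j < wt - p k → B j k = 0) (hconj : (M * A).map (starRingEnd ℂ) = M * B)
    {y : (Fin m → α) → ℝ} (hy : IsH wt w M y) (K : Fin m → α) (hK : 2 * ∑ t, p (K t) ≠ (m : ℤ) * wt) :
    Matrix.vecMul (rx y) (tensor m (M * A)) K = 0 := by
  rcases lt_or_gt_of_ne hK with h | h
  · have h1 := vanishR (p := fun k => wt - p k) hB hy K (by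
      rw [Finset.sum_sub_distrib, Finset.sum_const, Finset.card_univ, Fintype.card_fin, nsmul_eq_mul]
      linarith)
    rw [← hconj] at h1
    have h2 : Matrix.vecMul (rx y) (tensor m ((M * A).map (starRingEnd ℂ))) K =
        starRingEnd ℂ (Matrix.vecMul (rx y) (tensor m (M * A)) K) := by
      simp only [Matrix.vecMul, dotProduct, map_sum, map_mul]
      refine Finset.sum_congr rfl fun I _ => ?_
      rw [tensor_conj]
      congr 1
      simp [rx]
    rw [h2] at h1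
    exact (map_eq_zero _).1 h1
  · exact vanishR hA hy K h

/-- the value of the quadratic form of the tensor power of the polarisation -/
noncomputable def qr (S : Matrix α α ℤ) (y : (Fin m → α) → ℝ) : ℂ :=
  Matrix.vecMul (rx y) (tensor m (S.map (Int.cast : ℤ → ℂ))) ⬝ᵥ rx y

theorem qr_eq {wt : ℤ} {w p : α → ℤ} {S : Matrix α α ℤ} {M A B : Matrix α α ℂ} (hA : ∀ j k, w j < p k → A j k = 0)
    (hB : ∀ j k, w j < wt - p k → B j k = 0) (hconj : (M * A).map (starRingEnd ℂ) = M * B)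
    (hS : S.map (Int.cast : ℤ → ℂ) =
      M * A * Matrix.diagonal (fun k => Complex.I ^ (wt - 2 * p k)) * (M * A).conjTranspose)
    {y : (Fin m → α) → ℝ} (hy : IsH wt w M y) :
    qr S y = ∑ K, ((‖Matrix.vecMul (rx y) (tensor m (M * A)) K‖ ^ 2 : ℝ) : ℂ) := by
  unfold qr
  rw [hS, tensor_mul, tensor_mul, tensor_conjTranspose, tensor_diagonal, ← Matrix.vecMul_vecMul,
    ← Matrix.vecMul_vecMul, ← Matrix.dotProduct_mulVec]
  obtain ⟨c, hc⟩ : ∃ c, c = Matrix.vecMul (rx y) (tensor m (M * A)) := ⟨_, rfl⟩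
  have h1 : (tensor m (M * A)).conjTranspose.mulVec (rx y) = fun K => starRingEnd ℂ (c K) := by
    funext K
    rw [hc]
    simp only [Matrix.mulVec, Matrix.vecMul, dotProduct, map_sum, map_mul, Matrix.conjTranspose_apply]
    refine Finset.sum_congr rfl fun I _ => ?_
    rw [mul_comm]
    congr 1
    simp [rx]
  rw [h1, ← hc]
  refine Finset.sum_congr rfl fun K _ => ?_
  rw [Matrix.vecMul_diagonal]
  by_cases hK : 2 * ∑ t, p (K t) = (m : ℤ) * wt
  · have h2 : ∏ t, Complex.I ^ (wt - 2 * p (K t)) = 1 := by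
      rw [prod_I, Finset.sum_sub_distrib, ← Finset.mul_sum, Finset.sum_const, Finset.card_univ, Fintype.card_fin,
        nsmul_eq_mul, hK, sub_self, zpow_zero]
    rw [h2, mul_one, ← Complex.normSq_eq_norm_sq, ← Complex.mul_conj]
  · have h2 : c K = 0 := by
      rw [hc]
      exact coord_zeroR hA hB hconj hy K hK
    rw [h2]
    simp

/-- positivity on the real Hodge tensors -/
theorem qr_pos {wt : ℤ} {w : α → ℤ} {S : Matrix α α ℤ} {M : Matrix α α ℂ} (hP : Polarized wt w S M)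
    {y : (Fin m → α) → ℝ} (hy : IsH wt w M y) (hy0 : y ≠ 0) : 0 < (qr S y).re := by
  classical
  obtain ⟨p, A, B, hF, hA, hB, hconj, hS⟩ := hP
  obtain ⟨E, hE⟩ : ∃ E : Matrix α α ℂ, M * A * E = 1 := ⟨_, Matrix.mul_nonsing_inv _ ((Matrix.isUnit_iff_isUnit_det _).1 hF)⟩
  rw [qr_eq hA hB hconj hS hy, ← Complex.ofReal_sum, Complex.ofReal_re]
  obtain ⟨c, hc⟩ : ∃ c, c = Matrix.vecMul (rx y) (tensor m (M * A)) := ⟨_, rfl⟩
  rw [← hc]
  have hc0 : c ≠ 0 := by
    intro h0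
    have h2 : Matrix.vecMul c (tensor m E) = rx y := by
      rw [hc, Matrix.vecMul_vecMul, ← tensor_mul, hE, tensor_one, Matrix.vecMul_one]
    rw [h0, Matrix.zero_vecMul] at h2
    apply hy0
    funext I
    have h3 := congrFun h2 I
    have h4 : (y I : ℂ) = 0 := h3.symm
    exact_mod_cast h4
  obtain ⟨K, hK⟩ := Function.ne_iff.1 hc0
  refine Finset.sum_pos' (fun _ _ => by positivity) ⟨K, Finset.mem_univ K, ?_⟩
  have : 0 < ‖c K‖ := norm_pos_iff.2 hK
  positivity

/-- compactness -/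
theorem cpt {Z : Type} [TopologicalSpace Z] {L : Set Z} (hL : IsCompact L) {Φ Ψ : Z → ℝ} (hΦ : ContinuousOn Φ L)
    (hΨ : ContinuousOn Ψ L) (h0 : ∀ z ∈ L, 0 ≤ Ψ z) (h : ∀ z ∈ L, Ψ z = 0 → 0 < Φ z) :
    ∃ c C : ℝ, 0 < c ∧ 0 ≤ C ∧ ∀ z ∈ L, c ≤ Φ z + C * Ψ z := by
  have hcs : CompactSpace L := isCompact_iff_compactSpace.1 hL
  have hΦ' : Continuous fun z : L => Φ z := hΦ.domRestrict
  have hΨ' : Continuous fun z : L => Ψ z := hΨ.domRestrict
  obtain ⟨n, hn⟩ := isCompact_univ.elim_directed_cover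
    (fun n : ℕ => {z : L | ((n : ℝ) + 1)⁻¹ < Φ z + n * Ψ z})
    (fun n => isOpen_lt continuous_const (hΦ'.add (continuous_const.mul hΨ'))) (by
      rintro ⟨z, hz⟩ -
      rw [Set.mem_iUnion]
      rcases eq_or_lt_of_le (h0 z hz) with h1 | h1
      · have h2 := h z hz h1.symm
        obtain ⟨n, hn⟩ := exists_nat_one_div_lt h2
        refine ⟨n, ?_⟩
        change ((n : ℝ) + 1)⁻¹ < Φ z + n * Ψ z
        rw [← h1, mul_zero, add_zero, ← one_div]
        exact hn
      · obtain ⟨n, hn⟩ := exists_nat_gt ((1 - Φ z) / Ψ z)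
        refine ⟨n, ?_⟩
        change ((n : ℝ) + 1)⁻¹ < Φ z + n * Ψ z
        rw [div_lt_iff₀ h1] at hn
        have h3 : ((n : ℝ) + 1)⁻¹ ≤ 1 := inv_le_one_of_one_le₀ (by linarith [(Nat.cast_nonneg n : (0 : ℝ) ≤ n)])
        linarith) (by
      apply Monotone.directed_le
      intro a b hab z hz
      change ((b : ℝ) + 1)⁻¹ < Φ z + b * Ψ z
      have hz' : ((a : ℝ) + 1)⁻¹ < Φ z + a * Ψ z := hz
      have hab' : (a : ℝ) ≤ b := by exact_mod_cast hab
      have h1 : ((b : ℝ) + 1)⁻¹ ≤ ((a : ℝ) + 1)⁻¹ := inv_anti₀ (by positivity) (by linarith)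
      have h2 := mul_le_mul_of_nonneg_right hab' (h0 z z.2)
      linarith)
  refine ⟨((n : ℝ) + 1)⁻¹, n, by positivity, by positivity, fun z hz => ?_⟩
  have h1 : ((n : ℝ) + 1)⁻¹ < Φ z + n * Ψ z := hn (Set.mem_univ (⟨z, hz⟩ : L))
  exact h1.le

end Pool.Agent.U543.NH
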