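import Pool.Agent.Y890.SM.Main

/-!
# Numerical and formal tests for the equality of periods: definitions
-/

set_option autoImplicit false

open NumberField

namespace Pool.Agent.U543.NR

open Pool.Agent.Y890.MV (InnerM)
open Pool.Agent.Y890.SM (Ix SympFam tpi)

variable {X : Type} [Fintype X] {ι : Type} {n : ι → ℕ}

/-- The value at `(Y, μ)` of a polynomial over the integers of `K` in the entries of the matrices `Y i` and in `μ`. -/
noncomputable def val {K : Type} [Field K] (io : K →+* ℂ) (Φ : MvPolynomial (Option (Ix n)) (𝓞 K))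
    (Y : ∀ i, Matrix (Fin (n i)) (Fin (n i)) ℂ) (μ : ℂ) : ℂ :=
  MvPolynomial.eval₂ (io.comp (algebraMap (𝓞 K) K)) (fun o => o.elim μ fun q => Y q.1 q.2.1 q.2.2) Φ

/-- `Φ` has degree at most `k` in each variable and the conjugates of its coefficients are at most `T ^ k`. -/
def Bounded {K : Type} [Field K] [NumberField K] (k : ℕ) (T : ℝ) (Φ : MvPolynomial (Option (Ix n)) (𝓞 K)) : Prop :=
  (∀ i, Φ.degreeOf i ≤ k) ∧ ∀ e, house ((MvPolynomial.coeff e Φ : 𝓞 K) : K) ≤ T ^ k

/-- The equality of two numbers of the form `Φ(P(x), 2 π i)`, `Φ` a polynomial over the integers of `K` of degree at most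
`k` in each variable and with conjugates of the coefficients at most `T ^ k`, is decided numerically with precision `δ` and
formally: if `a₁`, `a₂` are ANY approximations with errors at most `δ` of the numbers for `Φ₁` and `Φ₂`, then the numbers
are equal if and only if `|a₁ - a₂| ≤ 2 δ`, and if and only if `Φ₁ = Φ₂` on the torsor at `x`. -/
def Decided (F : SympFam X n) (k : ℕ) (K : Type) [Field K] [NumberField K] (io : K →+* ℂ) (T δ : ℝ) (x : X → ℂ) :
    Prop :=
  ∀ Φ₁ Φ₂ : MvPolynomial (Option (Ix n)) (𝓞 K), Bounded k T Φ₁ → Bounded k T Φ₂ → ∀ a₁ a₂ : ℂ,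
    ‖a₁ - val io Φ₁ (fun i => F.P i x) tpi‖ ≤ δ → ‖a₂ - val io Φ₂ (fun i => F.P i x) tpi‖ ≤ δ →
    (val io Φ₁ (fun i => F.P i x) tpi = val io Φ₂ (fun i => F.P i x) tpi ↔ ‖a₁ - a₂‖ ≤ 2 * δ) ∧
    (val io Φ₁ (fun i => F.P i x) tpi = val io Φ₂ (fun i => F.P i x) tpi ↔
      ∀ p ∈ F.torsor x, val io Φ₁ p.1 p.2 = val io Φ₂ p.1 p.2)

/-- The points of `U` with coordinates in `K` of height at most `T`, of norm at most `k` and at distance at least `1 / k`
from the complement of `U`, at which the equality is not decided with precision `δ`. -/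
def Undecided (F : SympFam X n) (k : ℕ) (K : Type) [Field K] [NumberField K] (io : K →+* ℂ) (T δ : ℝ) : Set (X → K) :=
  {s | (∀ j, Y120.HtLe K T (s j)) ∧ (fun j => io (s j)) ∈ InnerM F.U k ∧
    ¬ Decided F k K io T δ (fun j => io (s j))}

end Pool.Agent.U543.NR
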