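import Pool.Agent.U543.NrMain

/-!
# The tests: counting, and all degrees at once
-/

set_option autoImplicit false
set_option linter.unusedSectionVars false

open Filter NumberField

namespace Pool.Agent.U543.NR

open Pool.Agent.Y890.MV
open Pool.Agent.Y890.SM
open Pool.Agent.Y124 (Cov)

variable {X : Type} [Fintype X] [DecidableEq X] {ι : Type} [Fintype ι] [DecidableEq ι] {n : ι → ℕ}

theorem main_fix [Nonempty X] (F : SympFam X n) (k : ℕ) (ε : ℝ) (hε : 0 < ε) :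
    ∃ (B D : ℕ) (C T₀ : ℝ), 0 ≤ C ∧ 2 ≤ T₀ ∧ ∀ T, T₀ ≤ T →
      ∀ (K : Type) [Field K] [NumberField K], Module.finrank ℚ K ≤ k → ∀ io : K →+* ℂ,
        Cov D ⌊C * T ^ ε⌋₊ ((fun (s : X → K) j => io (s j)) '' Undecided F k K io T (T ^ (-(B : ℝ)))) ∧
        (Undecided F k K io T (T ^ (-(B : ℝ)))).Finite ∧
        ((Undecided F k K io T (T ^ (-(B : ℝ)))).ncard : ℝ) ≤
          D * C * T ^ ε * ({x : K | Y120.HtLe K T x}.ncard : ℝ) ^ (Fintype.card X - 1) := by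
  obtain ⟨B, D, C, T₀, hC, hT₀, H⟩ := cov_undecided F k ε hε
  refine ⟨B, D, C, T₀, hC, hT₀, fun T hT K _ _ hK io => ?_⟩
  have hTp : 0 < T := by linarith
  have h1 := H K hK io T hT (T ^ (-(B : ℝ))) (Real.rpow_pos_of_pos hTp _).le le_rfl
  obtain ⟨h2, h3⟩ := cov_count io {x : K | Y120.HtLe K T x} (Y120.HtLe_fin K T) _ (fun s hs => hs.1) h1
  refine ⟨h1, h2, ?_⟩
  have h4 : ((Undecided F k K io T (T ^ (-(B : ℝ)))).ncard : ℝ) ≤
      (⌊C * T ^ ε⌋₊ : ℝ) * (D * ({x : K | Y120.HtLe K T x}.ncard : ℝ) ^ (Fintype.card X - 1)) := by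
    exact_mod_cast h3
  have h5 : ((⌊C * T ^ ε⌋₊ : ℕ) : ℝ) ≤ C * T ^ ε := Nat.floor_le (by positivity)
  refine h4.trans ((mul_le_mul_of_nonneg_right h5 (by positivity)).trans (le_of_eq ?_))
  ring

theorem main_omega [Nonempty X] (F : SympFam X n) (v : ℝ → ℝ) (hv : Tendsto v atTop atTop) :
    ∃ (ω : ℝ → ℕ) (T₀ : ℝ), Tendsto ω atTop atTop ∧ Monotone ω ∧ ∀ T, T₀ ≤ T → 0 < ω T ∧
      ∀ (K : Type) [Field K] [NumberField K], Module.finrank ℚ K ≤ ω T → ∀ io : K →+* ℂ,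
        Cov ⌊T ^ ((ω T : ℝ)⁻¹)⌋₊ ⌊T ^ ((ω T : ℝ)⁻¹)⌋₊
          ((fun (s : X → K) j => io (s j)) '' Undecided F (ω T) K io T (T ^ (-v T))) ∧
        (Undecided F (ω T) K io T (T ^ (-v T))).Finite ∧
        ((Undecided F (ω T) K io T (T ^ (-v T))).ncard : ℝ) ≤
          T ^ ((ω T : ℝ)⁻¹) * ({x : K | Y120.HtLe K T x}.ncard : ℝ) ^ (Fintype.card X - 1) := by
  obtain ⟨ω, T₀, h1, h2, h3⟩ := omega_gen (fun _ => Unit)
    (fun k K _ _ io _ T => Undecided (X := X) F k K io T (T ^ (-v T))) (fun k K _ _ io p T s hs => hs.1) (by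
      intro k ε hε
      obtain ⟨B, D, C, T₀, hC, hT₀, H⟩ := cov_undecided F k ε hε
      obtain ⟨T₁, hT₁⟩ := Filter.eventually_atTop.1 (hv.eventually_ge_atTop (B : ℝ))
      refine ⟨D, C, max T₀ T₁, hC, hT₀.trans (le_max_left _ _), fun K _ _ hK io _ T hT => ?_⟩
      have hTa : T₀ ≤ T := (le_max_left _ _).trans hT
      have hTb : T₁ ≤ T := (le_max_right _ _).trans hT
      have hTp : 0 < T := by linarith
      have hT1 : 1 ≤ T := by linarith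
      exact H K hK io T hTa (T ^ (-v T)) (Real.rpow_pos_of_pos hTp _).le
        (Real.rpow_le_rpow_of_exponent_le hT1 (neg_le_neg (hT₁ T hTb))))
  exact ⟨ω, T₀, h1, h2, fun T hT => ⟨(h3 T hT).1, fun K _ _ hK io => (h3 T hT).2 K hK io ()⟩⟩

end Pool.Agent.U543.NR
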