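import Pool.Agent.Y890.MV.Main

/-! Relations defined over `k`: coefficientwise functionals, the field generated over `k(x)`. -/

set_option autoImplicit false
set_option linter.unusedSectionVars false

open Polynomial Filter Topology

namespace Pool.Agent.U543.NR

open Pool.Agent.Y890.MV

section lc

variable {k : Type} [Field k] [Algebra k ℂ] {X σ : Type}

/-- polynomials over `k` as polynomials over `ℂ` -/
noncomputable def up : MvPolynomial X k →+* MvPolynomial X ℂ := MvPolynomial.map (algebraMap k ℂ)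

/-- the same for coefficients in `k[x]` -/
noncomputable def up2 : MvPolynomial σ (MvPolynomial X k) →+* MvPolynomial σ (MvPolynomial X ℂ) :=
  MvPolynomial.map up

theorem up_inj : Function.Injective (up : MvPolynomial X k →+* MvPolynomial X ℂ) :=
  MvPolynomial.map_injective _ (algebraMap k ℂ).injective

theorem up_coeff (p : MvPolynomial X k) (m : X →₀ ℕ) : (up p).coeff m = algebraMap k ℂ (p.coeff m) :=
  MvPolynomial.coeff_map _ _ _

theorem up2_coeff (p : MvPolynomial σ (MvPolynomial X k)) (m : σ →₀ ℕ) : (up2 p).coeff m = up (p.coeff m) :=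
  MvPolynomial.coeff_map _ _ _

theorem up_eval (x : X → ℂ) (p : MvPolynomial X k) : MvPolynomial.eval x (up p) = MvPolynomial.aeval x p := by
  rw [up, MvPolynomial.eval_map]
  rfl

/-- coefficientwise application of a functional -/
noncomputable def lcX (ℓ : ℂ →ₗ[k] k) (p : MvPolynomial X ℂ) : MvPolynomial X k :=
  ∑ m ∈ p.support, MvPolynomial.monomial m (ℓ (p.coeff m))

theorem lcX_coeff (ℓ : ℂ →ₗ[k] k) (p : MvPolynomial X ℂ) (m : X →₀ ℕ) :
    (lcX ℓ p).coeff m = ℓ (p.coeff m) := by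
  classical
  rw [lcX, MvPolynomial.coeff_sum]
  simp only [MvPolynomial.coeff_monomial]
  rw [Finset.sum_ite_eq' p.support m]
  split_ifs with hm
  · rfl
  · rw [MvPolynomial.notMem_support_iff.1 hm, map_zero]

theorem lcX_zero (ℓ : ℂ →ₗ[k] k) : lcX ℓ (0 : MvPolynomial X ℂ) = 0 := by
  ext m
  rw [lcX_coeff]
  simp

theorem lcX_add (ℓ : ℂ →ₗ[k] k) (p q : MvPolynomial X ℂ) : lcX ℓ (p + q) = lcX ℓ p + lcX ℓ q := by
  ext m
  simp only [lcX_coeff, MvPolynomial.coeff_add, map_add]

theorem lcX_sub (ℓ : ℂ →ₗ[k] k) (p q : MvPolynomial X ℂ) : lcX ℓ (p - q) = lcX ℓ p - lcX ℓ q := by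
  ext m
  simp only [lcX_coeff, MvPolynomial.coeff_sub, map_sub]

theorem lcX_sum {ι : Type} (ℓ : ℂ →ₗ[k] k) (s : Finset ι) (p : ι → MvPolynomial X ℂ) :
    lcX ℓ (∑ i ∈ s, p i) = ∑ i ∈ s, lcX ℓ (p i) := by
  ext m
  simp only [lcX_coeff, MvPolynomial.coeff_sum, map_sum]

theorem lcX_mul (ℓ : ℂ →ₗ[k] k) (p : MvPolynomial X ℂ) (a : MvPolynomial X k) :
    lcX ℓ (p * up a) = lcX ℓ p * a := by
  classical
  ext m
  rw [lcX_coeff, MvPolynomial.coeff_mul, MvPolynomial.coeff_mul, map_sum]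
  refine Finset.sum_congr rfl fun x _ => ?_
  have h1 := ℓ.map_smul (a.coeff x.2) (p.coeff x.1)
  rw [Algebra.smul_def, smul_eq_mul] at h1
  rw [up_coeff, lcX_coeff, mul_comm, h1, mul_comm]

/-- the same for coefficients in `ℂ[x]` -/
noncomputable def lcY (ℓ : ℂ →ₗ[k] k) (P : MvPolynomial σ (MvPolynomial X ℂ)) :
    MvPolynomial σ (MvPolynomial X k) :=
  ∑ m ∈ P.support, MvPolynomial.monomial m (lcX ℓ (P.coeff m))

theorem lcY_coeff (ℓ : ℂ →ₗ[k] k) (P : MvPolynomial σ (MvPolynomial X ℂ)) (m : σ →₀ ℕ) :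
    (lcY ℓ P).coeff m = lcX ℓ (P.coeff m) := by
  classical
  rw [lcY, MvPolynomial.coeff_sum]
  simp only [MvPolynomial.coeff_monomial]
  rw [Finset.sum_ite_eq' P.support m]
  split_ifs with hm
  · rfl
  · rw [MvPolynomial.notMem_support_iff.1 hm, lcX_zero]

theorem lcY_sub (ℓ : ℂ →ₗ[k] k) (p q : MvPolynomial σ (MvPolynomial X ℂ)) :
    lcY ℓ (p - q) = lcY ℓ p - lcY ℓ q := by
  ext1 m
  simp only [lcY_coeff, MvPolynomial.coeff_sub, lcX_sub]

theorem lcY_C_mul (ℓ : ℂ →ₗ[k] k) (q : MvPolynomial X ℂ) (P : MvPolynomial σ (MvPolynomial X k)) :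
    lcY ℓ (MvPolynomial.C q * up2 P) = MvPolynomial.C (lcX ℓ q) * P := by
  ext1 m
  rw [lcY_coeff, MvPolynomial.coeff_C_mul, MvPolynomial.coeff_C_mul, up2_coeff, lcX_mul]

theorem lcY_rename {I : Type} (ι : I → σ) (hι : Function.Injective ι) (ℓ : ℂ →ₗ[k] k)
    (P : MvPolynomial I (MvPolynomial X ℂ)) :
    lcY ℓ (MvPolynomial.rename ι P) = MvPolynomial.rename ι (lcY ℓ P) := by
  classical
  ext1 m
  rw [lcY_coeff]
  by_cases hm : ∃ u : I →₀ ℕ, u.mapDomain ι = m
  · obtain ⟨u, rfl⟩ := hm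
    rw [MvPolynomial.coeff_rename_mapDomain ι hι, MvPolynomial.coeff_rename_mapDomain ι hι, lcY_coeff]
  · push Not at hm
    rw [MvPolynomial.coeff_rename_eq_zero _ _ _ (fun u hu => absurd hu (hm u)),
      MvPolynomial.coeff_rename_eq_zero _ _ _ (fun u hu => absurd hu (hm u)), lcX_zero]

/-- functionals separate -/
theorem exists_lcX {p : MvPolynomial X ℂ} (hp : p ≠ 0) : ∃ ℓ : ℂ →ₗ[k] k, lcX ℓ p ≠ 0 := by
  obtain ⟨m, hm⟩ := MvPolynomial.ne_zero_iff.1 hp
  by_contra hcon
  push Not at hcon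
  apply hm
  rw [← Module.forall_dual_apply_eq_zero_iff k]
  intro ℓ
  rw [← lcX_coeff, hcon ℓ, MvPolynomial.coeff_zero]

theorem eq_zero_of_lcY {P : MvPolynomial σ (MvPolynomial X ℂ)} (h : ∀ ℓ : ℂ →ₗ[k] k, lcY ℓ P = 0) :
    P = 0 := by
  ext1 m
  by_contra hne
  obtain ⟨ℓ, hℓ⟩ := exists_lcX (k := k) hne
  apply hℓ
  rw [← lcY_coeff, h ℓ, MvPolynomial.coeff_zero]

end lc

variable {k : Type} [Field k] [Algebra k ℂ] {X σ : Type} [Fintype X] {U : Set (X → ℂ)} {f : σ → (X → ℂ) → ℂ}

/-- the relations between the functions over `ℂ[x]` are defined over `k[x]`: every functional maps relations to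
relations -/
def Desc (k : Type) [Field k] [Algebra k ℂ] (U : Set (X → ℂ)) (f : σ → (X → ℂ) → ℂ) : Prop :=
  ∀ (ℓ : ℂ →ₗ[k] k) (P : MvPolynomial σ (MvPolynomial X ℂ)), (∀ x ∈ U, evM f x P = 0) →
    ∀ x ∈ U, evM f x (up2 (lcY ℓ P)) = 0

/-- the field generated by the functions over `k(x)` -/
theorem exists_fieldQ (k : Type) [Field k] [Algebra k ℂ] (hU : IsPreconnected U) (hUo : IsOpen U) (hne : U.Nonempty)
    (hf : ∀ i, AnalyticOnNhd ℂ (f i) U) :
    ∃ (L : Type) (_ : Field L) (_ : Algebra (MvPolynomial X k) L) (_ : FaithfulSMul (MvPolynomial X k) L)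
      (F : σ → L),
      (∀ p : MvPolynomial σ (MvPolynomial X k), MvPolynomial.aeval F p = 0 ↔ ∀ x ∈ U, evM f x (up2 p) = 0) ∧
      ∀ l : L, ∃ p q : MvPolynomial σ (MvPolynomial X k), MvPolynomial.aeval F q ≠ 0 ∧
        MvPolynomial.aeval F q * l = MvPolynomial.aeval F p := by
  classical
  have hprime0 : (relM U f).IsPrime := relM_prime hU hUo hne hf
  let J : Ideal (MvPolynomial σ (MvPolynomial X k)) := (relM U f).comap up2
  have hprime : J.IsPrime := Ideal.comap_isPrime up2 (relM U f)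
  let B : Type := MvPolynomial σ (MvPolynomial X k) ⧸ J
  let iB : CommRing B := Ideal.Quotient.commRing J
  have hdom : IsDomain B := Ideal.Quotient.isDomain J
  let L : Type := FractionRing B
  let F : σ → L := fun i => algebraMap B L (Ideal.Quotient.mk J (MvPolynomial.X i))
  have hF : ∀ p : MvPolynomial σ (MvPolynomial X k),
      MvPolynomial.aeval F p = algebraMap B L (Ideal.Quotient.mk J p) := by
    intro p
    induction p using MvPolynomial.induction_on with
    | C a =>
      rw [MvPolynomial.aeval_C, IsScalarTower.algebraMap_apply (MvPolynomial X k) B L]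
      rfl
    | add p q hp hq => rw [map_add, map_add, map_add, hp, hq]
    | mul_X p i hp => rw [map_mul, map_mul, map_mul, hp, MvPolynomial.aeval_X]
  have hinj : Function.Injective (algebraMap B L) := IsFractionRing.injective B L
  have hz : ∀ p : MvPolynomial σ (MvPolynomial X k), MvPolynomial.aeval F p = 0 ↔
      ∀ x ∈ U, evM f x (up2 p) = 0 := by
    intro p
    rw [hF, map_eq_zero_iff _ hinj, Ideal.Quotient.eq_zero_iff_mem]
    rfl
  refine ⟨L, inferInstance, inferInstance, ?_, F, hz, ?_⟩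
  · rw [faithfulSMul_iff_algebraMap_injective, injective_iff_map_eq_zero]
    intro a ha
    have h1 : MvPolynomial.aeval F (MvPolynomial.C a) = 0 := by
      rw [MvPolynomial.aeval_C]
      exact ha
    rw [hz] at h1
    apply up_inj
    rw [map_zero]
    refine poly_zero hUo hne _ fun x hx => ?_
    rw [← evM_C (f := f)]
    have h2 := h1 x hx
    rw [up2, MvPolynomial.map_C] at h2
    exact h2
  · intro l
    obtain ⟨a, b, hb, rfl⟩ := IsFractionRing.div_surjective (A := B) l
    obtain ⟨p, rfl⟩ := Ideal.Quotient.mk_surjective a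
    obtain ⟨q, rfl⟩ := Ideal.Quotient.mk_surjective b
    have hq : MvPolynomial.aeval F q ≠ 0 := by
      rw [hF, Ne, map_eq_zero_iff _ hinj]
      exact nonZeroDivisors.ne_zero hb
    refine ⟨p, q, hq, ?_⟩
    rw [← hF, ← hF, mul_div_cancel₀ _ hq]

/-- a relation on a nonempty open subset -/
theorem ev_ext (hU : IsPreconnected U) (hf : ∀ i, AnalyticOnNhd ℂ (f i) U) {V : Set (X → ℂ)} (hVo : IsOpen V)
    (hVne : V.Nonempty) (hVU : V ⊆ U) (P : MvPolynomial σ (MvPolynomial X ℂ)) (h : ∀ x ∈ V, evM f x P = 0) :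
    ∀ x ∈ U, evM f x P = 0 := by
  obtain ⟨x0, hx0⟩ := hVne
  refine (evM_an hf P).eqOn_zero_of_preconnected_of_eventuallyEq_zero hU (hVU hx0) ?_
  filter_upwards [hVo.mem_nhds hx0] with x hx
  exact h x hx

/-- regularity over `k(x)` -/
theorem reg_fieldQ (hU : IsPreconnected U) (hUo : IsOpen U) (hf : ∀ i, AnalyticOnNhd ℂ (f i) U)
    (hreg : RegularM U f) (hD : Desc k U f) {L : Type} [Field L] [Algebra (MvPolynomial X k) L]
    [FaithfulSMul (MvPolynomial X k) L] (F : σ → L)
    (hz : ∀ p : MvPolynomial σ (MvPolynomial X k), MvPolynomial.aeval F p = 0 ↔ ∀ x ∈ U, evM f x (up2 p) = 0)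
    (hfrac : ∀ l : L, ∃ p q : MvPolynomial σ (MvPolynomial X k), MvPolynomial.aeval F q ≠ 0 ∧
        MvPolynomial.aeval F q * l = MvPolynomial.aeval F p) (a : L) (ha : IsAlgebraic (MvPolynomial X k) a) :
    ∃ p q : MvPolynomial X k, q ≠ 0 ∧
      algebraMap (MvPolynomial X k) L q * a = algebraMap (MvPolynomial X k) L p := by
  classical
  obtain ⟨P, Q, hQ, hPQ⟩ := hfrac a
  obtain ⟨R, hR, hRa⟩ := ha
  set V : Set (X → ℂ) := {x | x ∈ U ∧ evM f x (up2 Q) ≠ 0} with hV
  have hVo : IsOpen V := isOpen_neM hUo hf (up2 Q)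
  have hVne : V.Nonempty := by
    by_contra hcon
    apply hQ
    rw [hz]
    intro x hx
    by_contra hne
    exact hcon ⟨x, hx, hne⟩
  let g : (X → ℂ) → ℂ := fun x => evM f x (up2 P) / evM f x (up2 Q)
  have hg : AnalyticOnNhd ℂ g V := fun x hx => (evM_an hf (up2 P) x hx.1).div (evM_an hf (up2 Q) x hx.1) hx.2
  set n := R.natDegree with hn
  let W : MvPolynomial σ (MvPolynomial X k) :=
    ∑ i ∈ Finset.range (n + 1), MvPolynomial.C (R.coeff i) * P ^ i * Q ^ (n - i)
  have hW : MvPolynomial.aeval F W = 0 := by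
    have h1 : MvPolynomial.aeval F W = MvPolynomial.aeval F Q ^ n * aeval a R := by
      rw [aeval_eq_sum_range, map_sum, Finset.mul_sum]
      refine Finset.sum_congr rfl fun i hi => ?_
      have hi' : i ≤ n := Nat.lt_succ_iff.1 (Finset.mem_range.1 hi)
      rw [map_mul, map_mul, map_pow, map_pow, MvPolynomial.aeval_C, ← hPQ, Algebra.smul_def]
      have h2 : (MvPolynomial.aeval F Q : L) ^ n = MvPolynomial.aeval F Q ^ i * MvPolynomial.aeval F Q ^ (n - i) := by
        rw [← pow_add]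
        congr 1
        omega
      rw [h2]
      ring
    rw [h1, hRa, mul_zero]
  rw [hz] at hW
  have hR' : R.map (up : MvPolynomial X k →+* MvPolynomial X ℂ) ≠ 0 := by
    rw [Ne, Polynomial.map_eq_zero_iff up_inj]
    exact hR
  obtain ⟨p, q, hq, hpq⟩ := hreg V g (up2 P) (up2 Q) (R.map up) hVo hVne (fun x hx => hx.1) hg hR'
    (fun x hx => hx.2) (fun x hx => mul_div_cancel₀ _ hx.2) (by
      intro x hx
      have h1 := hW x hx.1
      have h2 : evM f x (up2 W) =
          evM f x (up2 Q) ^ n * ((R.map up).map (MvPolynomial.eval x)).eval (g x) := by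
        have h3 : evM f x (up2 W) = ∑ i ∈ Finset.range (n + 1),
            MvPolynomial.eval x (up (R.coeff i)) * evM f x (up2 P) ^ i * evM f x (up2 Q) ^ (n - i) := by
          have h4 : up2 W = ∑ i ∈ Finset.range (n + 1),
              MvPolynomial.C (up (R.coeff i)) * up2 P ^ i * up2 Q ^ (n - i) := by
            simp only [W, map_sum, map_mul, map_pow]
            refine Finset.sum_congr rfl fun i _ => ?_
            congr 2
            exact MvPolynomial.map_C _ _
          rw [h4]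
          simp only [evM, MvPolynomial.eval₂_sum, MvPolynomial.eval₂_mul, MvPolynomial.eval₂_pow,
            MvPolynomial.eval₂_C]
        have h5 : (R.map up).natDegree = n := natDegree_map_eq_of_injective up_inj R
        rw [h3, eval_map, eval₂_eq_sum_range, h5, Finset.mul_sum]
        refine Finset.sum_congr rfl fun i hi => ?_
        have hi' : i ≤ n := Nat.lt_succ_iff.1 (Finset.mem_range.1 hi)
        have h4 : evM f x (up2 Q) ^ n = evM f x (up2 Q) ^ i * evM f x (up2 Q) ^ (n - i) := by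
          rw [← pow_add]
          congr 1
          omega
        have h5 : evM f x (up2 P) = evM f x (up2 Q) * g x := (mul_div_cancel₀ _ hx.2).symm
        rw [h4, h5, coeff_map]
        ring
      rw [h2] at h1
      rcases mul_eq_zero.1 h1 with h3 | h3
      · exact absurd h3 (pow_ne_zero _ hx.2)
      · exact h3)
  -- the relation on `U`, and its components
  have h1 : ∀ x ∈ U, evM f x (MvPolynomial.C q * up2 P - MvPolynomial.C p * up2 Q) = 0 := by
    refine ev_ext hU hf hVo hVne (fun x hx => hx.1) _ fun x hx => ?_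
    have h4 := hpq x hx
    have h5 : evM f x (up2 P) = evM f x (up2 Q) * g x := (mul_div_cancel₀ _ hx.2).symm
    have h6 : evM f x (MvPolynomial.C q * up2 P - MvPolynomial.C p * up2 Q) =
        MvPolynomial.eval x q * evM f x (up2 P) - MvPolynomial.eval x p * evM f x (up2 Q) := by
      simp [evM]
    rw [h6, h5, ← h4]
    ring
  obtain ⟨ℓ, hℓ⟩ := exists_lcX (k := k) hq
  have h2 := hD ℓ _ h1
  rw [lcY_sub, lcY_C_mul, lcY_C_mul] at h2
  refine ⟨lcX ℓ p, lcX ℓ q, hℓ, ?_⟩
  rw [← hz, map_sub, map_mul, map_mul, MvPolynomial.aeval_C, MvPolynomial.aeval_C, ← hPQ, sub_eq_zero] at h2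
  have h3 : MvPolynomial.aeval F Q * (algebraMap (MvPolynomial X k) L (lcX ℓ q) * a) =
      MvPolynomial.aeval F Q * algebraMap (MvPolynomial X k) L (lcX ℓ p) := by
    rw [← mul_comm (algebraMap (MvPolynomial X k) L (lcX ℓ p)), ← h2]
    ring
  exact mul_left_cancel₀ hQ h3

/-- independence over `k(x)` implies independence over `ℂ(x)` -/
theorem ind_up (hD : Desc k U f) {L : Type} [Field L] [Algebra (MvPolynomial X k) L] (F : σ → L)
    (hz : ∀ p : MvPolynomial σ (MvPolynomial X k), MvPolynomial.aeval F p = 0 ↔ ∀ x ∈ U, evM f x (up2 p) = 0)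
    {L' : Type} [Field L'] [Algebra (MvPolynomial X ℂ) L'] (F' : σ → L')
    (hz' : ∀ p : MvPolynomial σ (MvPolynomial X ℂ), MvPolynomial.aeval F' p = 0 ↔ ∀ x ∈ U, evM f x p = 0)
    {I : Type} (ι : I → σ) (hι : Function.Injective ι)
    (hind : AlgebraicIndependent (MvPolynomial X k) (F ∘ ι)) :
    AlgebraicIndependent (MvPolynomial X ℂ) (F' ∘ ι) := by
  rw [algebraicIndependent_iff]
  intro P hP
  rw [← MvPolynomial.aeval_rename, hz'] at hP
  refine eq_zero_of_lcY (k := k) fun ℓ => ?_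
  have h1 := hD ℓ _ hP
  rw [lcY_rename ι hι, ← hz, MvPolynomial.aeval_rename] at h1
  exact algebraicIndependent_iff.1 hind _ h1

end Pool.Agent.U543.NR
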