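import Pool.Agent.U543.NrSym
import Pool.Agent.U543.NrDef

/-!
# Numerical and formal tests for the equality of periods
-/

set_option autoImplicit false
set_option linter.unusedSectionVars false

open Filter NumberField

namespace Pool.Agent.U543.NR

open Pool.Agent.Y890.MV
open Pool.Agent.Y890.SM
open Pool.Agent.Y890.SP (Qbar)
open Pool.Agent.Y124 (Cov eval_eq_box sV)

/-- the field `ℚ̄(2 π i)` -/
abbrev Kτ : Type := IntermediateField.adjoin Qbar {tpi}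

/-- `2 π i` in this field -/
noncomputable def τ₀ : Kτ := ⟨tpi, IntermediateField.mem_adjoin_simple_self Qbar tpi⟩

theorem τ₀_coe : algebraMap Kτ ℂ τ₀ = tpi := rfl

variable {X : Type} [Fintype X] [DecidableEq X] {ι : Type} [Fintype ι] [DecidableEq ι] {n : ι → ℕ}

/-- the coefficients -/
noncomputable def cf {K : Type} [Field K] {k : ℕ} (Φ : MvPolynomial (Option (Ix n)) (𝓞 K))
    (l : Ix n → Fin (k + 1)) (a : Fin (k + 1)) : 𝓞 K :=
  Φ.coeff (sV (fun o : Option (Ix n) => o.elim a l))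

theorem val_eq {K : Type} [Field K] (io : K →+* ℂ) {k : ℕ} (Φ : MvPolynomial (Option (Ix n)) (𝓞 K))
    (hΦ : ∀ i, Φ.degreeOf i ≤ k) (Y : ∀ i, Matrix (Fin (n i)) (Fin (n i)) ℂ) (μ : ℂ) :
    val io Φ Y μ = ∑ l : Ix n → Fin (k + 1), (∑ a : Fin (k + 1), μ ^ (a : ℕ) * io (cf Φ l a : K)) *
      ∏ y : Ix n, (Y y.1 y.2.1 y.2.2) ^ (l y : ℕ) := by
  classical
  have h1 : val io Φ Y μ = MvPolynomial.aeval (fun o : Option (Ix n) => o.elim μ fun q => Y q.1 q.2.1 q.2.2)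
      (MvPolynomial.map (io.comp (algebraMap (𝓞 K) K)) Φ) := by
    rw [val, MvPolynomial.aeval_def, MvPolynomial.eval₂_map]
    congr 1
  have hd : ∀ i, (MvPolynomial.map (io.comp (algebraMap (𝓞 K) K)) Φ).degreeOf i ≤ k := by
    intro i
    refine le_trans ?_ (hΦ i)
    rw [MvPolynomial.degreeOf_eq_sup, MvPolynomial.degreeOf_eq_sup]
    exact Finset.sup_mono (MvPolynomial.support_map_subset _ _)
  rw [h1, eval_eq_box _ _ hd]
  let en : (Option (Ix n) → Fin (k + 1)) ≃ Fin (k + 1) × (Ix n → Fin (k + 1)) :=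
    Equiv.piOptionEquivProd
  rw [← en.symm.sum_comp, Fintype.sum_prod_type_right]
  refine Finset.sum_congr rfl fun l _ => ?_
  rw [Finset.sum_mul]
  refine Finset.sum_congr rfl fun a _ => ?_
  rw [Fintype.prod_option, MvPolynomial.coeff_map]
  have h2 : en.symm (a, l) = fun o : Option (Ix n) => o.elim a l := by
    funext o
    rcases o with _ | o <;> rfl
  rw [h2]
  simp only [Option.elim, cf, RingHom.comp_apply]
  ring

theorem poly_sub {K : Type} [Field K] (io : K →+* ℂ) {k : ℕ} (c₁ c₂ : (Ix n → Fin (k + 1)) → Fin (k + 1) → 𝓞 K)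
    (v : Fin (k + 1) → ℂ) (w : Ix n → ℂ) :
    ∑ l : Ix n → Fin (k + 1), (∑ a, v a * io ((c₁ l a - c₂ l a : 𝓞 K) : K)) * ∏ y, w y ^ (l y : ℕ) =
      ∑ l : Ix n → Fin (k + 1), (∑ a, v a * io (c₁ l a : K)) * ∏ y, w y ^ (l y : ℕ) -
        ∑ l : Ix n → Fin (k + 1), (∑ a, v a * io (c₂ l a : K)) * ∏ y, w y ^ (l y : ℕ) := by
  rw [← Finset.sum_sub_distrib]
  refine Finset.sum_congr rfl fun l _ => ?_
  rw [← sub_mul, ← Finset.sum_sub_distrib]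
  congr 1
  refine Finset.sum_congr rfl fun a _ => ?_
  have h1 : ((c₁ l a - c₂ l a : 𝓞 K) : K) = (c₁ l a : K) - (c₂ l a : K) := map_sub (algebraMap (𝓞 K) K) _ _
  rw [h1, map_sub, mul_sub]

/-- **Near relations between the periods of families with symplectic monodromy.** -/
theorem near_symp [Nonempty X] (F : SympFam X n) (k m : ℕ) (hk : 0 < k) (δ r : ℕ) (A ε : ℝ) (hε : 0 < ε) :
    ∃ (D : ℕ) (B C T₀ : ℝ), 0 ≤ C ∧ 2 ≤ T₀ ∧ ∀ (K : Type) [Field K] [NumberField K], Module.finrank ℚ K ≤ m →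
      ∀ (io : K →+* ℂ) (T : ℝ), T₀ ≤ T → Cov D ⌊C * T ^ ε⌋₊ {t : X → ℂ | t ∈ InnerM F.U k ∧ ∃ s : X → K,
        (∀ i, Y120.HtLe K T (s i)) ∧ (t = fun i => io (s i)) ∧ ∃ c : (Ix n → Fin (δ + 1)) → Fin r → 𝓞 K,
          (∀ l i (φ : K →+* ℂ), ‖φ (c l i : K)‖ ≤ T ^ A) ∧
          ∑ l, (∑ i : Fin r, tpi ^ (i : ℕ) * io (c l i : K)) * ∏ y, F.f y t ^ (l y : ℕ) ≠ 0 ∧
          ‖∑ l, (∑ i : Fin r, tpi ^ (i : ℕ) * io (c l i : K)) * ∏ y, F.f y t ^ (l y : ℕ)‖ ≤ T ^ (-B)} := by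
  classical
  have hf : ∀ q, AnalyticOnNhd ℂ (F.f q) F.U := fun q => F.an q.1 q.2.1 q.2.2
  obtain ⟨D, B, C, T₀, hC, hT₀, H⟩ := nearM (k := Kτ) (lb_adjoin measT_tpi) F.conn F.isOpen F.nonempty hf
    (F.tor.reg F.conn hf) (desc_symp F τ₀ τ₀_coe) (InnerM F.U k) (innerM_compact _ _) (innerM_sub _ hk) δ
    (fun i : Fin r => τ₀ ^ (i : ℕ)) m A ε hε
  refine ⟨D, B, C, T₀, hC, hT₀, fun K _ _ hK io T hT => (H K hK io T hT).mono le_rfl le_rfl ?_⟩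
  rintro t ⟨h1, s, h2, h3, c, hc, h4, h5⟩
  refine ⟨h1, s, h2, h3, c, hc, ?_⟩
  have h6 : ∀ i : Fin r, algebraMap Kτ ℂ (τ₀ ^ (i : ℕ)) = tpi ^ (i : ℕ) := fun i => by
    rw [map_pow, τ₀_coe]
  simp only [h6]
  exact ⟨h4, h5⟩

/-- **The tests.** -/
theorem cov_undecided [Nonempty X] (F : SympFam X n) (k : ℕ) (ε : ℝ) (hε : 0 < ε) :
    ∃ (B D : ℕ) (C T₀ : ℝ), 0 ≤ C ∧ 2 ≤ T₀ ∧ ∀ (K : Type) [Field K] [NumberField K], Module.finrank ℚ K ≤ k →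
      ∀ (io : K →+* ℂ) (T : ℝ), T₀ ≤ T → ∀ δ : ℝ, 0 ≤ δ → δ ≤ T ^ (-(B : ℝ)) →
        Cov D ⌊C * T ^ ε⌋₊ ((fun (s : X → K) j => io (s j)) '' Undecided F k K io T δ) := by
  classical
  rcases Nat.eq_zero_or_pos k with hk | hk
  · refine ⟨0, 0, 0, 2, le_rfl, le_rfl, ?_⟩
    intro K _ _ hK
    have h1 : 0 < Module.finrank ℚ K := Module.finrank_pos
    omega
  have hf : ∀ q, AnalyticOnNhd ℂ (F.f q) F.U := fun q => F.an q.1 q.2.1 q.2.2
  obtain ⟨D₁, C₁, T₁, hC₁, hT₁, H₁⟩ := excT_cov F.conn F.isOpen F.nonempty hf F.tor (InnerM F.U k) (innerM_compact _ _)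
    (innerM_sub _ hk) k (Fin (k + 1)) k ((k + 1 : ℕ) : ℝ) ε hε
  obtain ⟨D₂, B₂, C₂, T₂, hC₂, hT₂, H₂⟩ := near_symp F k k hk k (k + 1) ((k + 1 : ℕ) : ℝ) ε hε
  refine ⟨⌈B₂⌉₊ + 2, max D₁ D₂, C₁ + C₂, max T₁ T₂, by positivity, hT₁.trans (le_max_left _ _), ?_⟩
  intro K _ _ hK io T hT δ hδ0 hδ
  have hTa : T₁ ≤ T := (le_max_left _ _).trans hT
  have hTb : T₂ ≤ T := (le_max_right _ _).trans hT
  have hT2 : 2 ≤ T := hT₁.trans hTa
  have hTp : 0 < T := by linarith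
  have hT1 : 1 ≤ T := by linarith
  have hc1 := (H₁ K hK io (fun a : Fin (k + 1) => tpi ^ (a : ℕ)) T hTa).mono (le_max_left D₁ D₂) le_rfl
    (Set.Subset.refl _)
  have hc2 := (H₂ K hK io T hTb).mono (le_max_right D₁ D₂) le_rfl (Set.Subset.refl _)
  refine (hc1.union hc2).mono le_rfl ?_ ?_
  · apply Nat.le_floor
    push_cast
    have h7 := Nat.floor_le (a := C₁ * T ^ ε) (by positivity)
    have h8 := Nat.floor_le (a := C₂ * T ^ ε) (by positivity)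
    nlinarith
  rintro _ ⟨s, ⟨h1, h2, h3⟩, rfl⟩
  by_contra hcon
  rw [Set.mem_union, not_or] at hcon
  obtain ⟨h4, h5⟩ := hcon
  apply h3
  intro Φ₁ Φ₂ hΦ₁ hΦ₂ a₁ a₂ ha₁ ha₂
  obtain ⟨x, hx⟩ : ∃ x : X → ℂ, x = fun j => io (s j) := ⟨_, rfl⟩
  rw [← hx] at ha₁ ha₂ ⊢
  -- the difference
  obtain ⟨c, hc⟩ : ∃ c : (Ix n → Fin (k + 1)) → Fin (k + 1) → 𝓞 K, c = fun l a => cf Φ₁ l a - cf Φ₂ l a := ⟨_, rfl⟩
  have hcb : ∀ l a (φ : K →+* ℂ), ‖φ (c l a : K)‖ ≤ T ^ ((k + 1 : ℕ) : ℝ) := by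
    intro l a φ
    have e1 : ‖φ (cf Φ₁ l a : K)‖ ≤ T ^ k := (Y120.house_ge K _ φ).trans (hΦ₁.2 _)
    have e2 : ‖φ (cf Φ₂ l a : K)‖ ≤ T ^ k := (Y120.house_ge K _ φ).trans (hΦ₂.2 _)
    have e3 : ((c l a : 𝓞 K) : K) = (cf Φ₁ l a : K) - (cf Φ₂ l a : K) := by
      rw [hc]
      exact map_sub (algebraMap (𝓞 K) K) _ _
    rw [e3, map_sub, Real.rpow_natCast, pow_succ]
    have e4 : 0 ≤ T ^ k := by positivity
    have e5 := norm_sub_le (φ (cf Φ₁ l a : K)) (φ (cf Φ₂ l a : K))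
    nlinarith
  have hdiff : ∀ (Y : ∀ i, Matrix (Fin (n i)) (Fin (n i)) ℂ) (μ : ℂ), val io Φ₁ Y μ - val io Φ₂ Y μ =
      ∑ l, (∑ a : Fin (k + 1), μ ^ (a : ℕ) * io (c l a : K)) * ∏ y : Ix n, (Y y.1 y.2.1 y.2.2) ^ (l y : ℕ) := by
    intro Y μ
    rw [val_eq io Φ₁ hΦ₁.1, val_eq io Φ₂ hΦ₂.1, hc]
    exact (poly_sub io (cf Φ₁) (cf Φ₂) (fun a => μ ^ (a : ℕ)) fun y => Y y.1 y.2.1 y.2.2).symm
  obtain ⟨S, hS⟩ : ∃ S : ℂ, S = val io Φ₁ (fun i => F.P i x) tpi - val io Φ₂ (fun i => F.P i x) tpi := ⟨_, rfl⟩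
  have hSd : S = ∑ l, (∑ a : Fin (k + 1), tpi ^ (a : ℕ) * io (c l a : K)) * ∏ y : Ix n, F.f y x ^ (l y : ℕ) := by
    rw [hS, hdiff]
    rfl
  have hmem : ∀ Y, (Y, tpi) ∈ F.torsor x → (fun q : Ix n => Y q.1 q.2.1 q.2.2) ∈ F.Tor x := fun Y hY i => hY.2 i
  have hxU : x ∈ F.U := by
    rw [hx]
    exact innerM_sub _ hk h2
  have heq : val io Φ₁ (fun i => F.P i x) tpi = val io Φ₂ (fun i => F.P i x) tpi ↔ S = 0 := by
    rw [hS, sub_eq_zero]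
  have hδB : 4 * δ ≤ T ^ (-B₂) := by
    have e1 : T ^ (-((⌈B₂⌉₊ + 2 : ℕ) : ℝ)) ≤ T ^ (-B₂) * T ^ (-(2 : ℝ)) := by
      rw [← Real.rpow_add hTp]
      refine Real.rpow_le_rpow_of_exponent_le hT1 ?_
      push_cast
      have := Nat.le_ceil B₂
      linarith
    have e2 : T ^ (-(2 : ℝ)) ≤ 1 / 4 := by
      rw [Real.rpow_neg hTp.le, inv_eq_one_div, show (2 : ℝ) = ((2 : ℕ) : ℝ) by norm_num, Real.rpow_natCast]
      apply one_div_le_one_div_of_le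
      · norm_num
      · nlinarith
    have e3 : 0 < T ^ (-B₂) := Real.rpow_pos_of_pos hTp _
    nlinarith [hδ.trans e1]
  constructor
  · rw [heq]
    constructor
    · intro h0
      have e1 : a₁ - a₂ = (a₁ - val io Φ₁ (fun i => F.P i x) tpi) - (a₂ - val io Φ₂ (fun i => F.P i x) tpi) + S := by
        rw [hS]
        ring
      rw [e1, h0, add_zero]
      refine (norm_sub_le _ _).trans ?_
      linarith
    · intro h0
      by_contra hne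
      apply h5
      refine ⟨h2, s, h1, rfl, c, hcb, ?_⟩
      have e2 : ‖S‖ ≤ T ^ (-B₂) := by
        have e1 : S = (a₁ - a₂) - (a₁ - val io Φ₁ (fun i => F.P i x) tpi) +
            (a₂ - val io Φ₂ (fun i => F.P i x) tpi) := by
          rw [hS]
          ring
        have e3 : ‖S‖ ≤ ‖a₁ - a₂‖ + ‖a₁ - val io Φ₁ (fun i => F.P i x) tpi‖ +
            ‖a₂ - val io Φ₂ (fun i => F.P i x) tpi‖ := by
          conv_lhs => rw [e1]
          refine (norm_add_le _ _).trans ?_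
          gcongr
          exact norm_sub_le _ _
        linarith
      rw [hSd, hx] at hne e2
      exact ⟨hne, e2⟩
  · rw [heq]
    constructor
    · rintro h0 ⟨Y, μ⟩ hp
      rw [← sub_eq_zero, hdiff]
      have key : ∀ Y ∈ F.Tor (fun j => io (s j)),
          ∑ l, (∑ a : Fin (k + 1), tpi ^ (a : ℕ) * io (c l a : K)) * ∏ y, Y y ^ (l y : ℕ) = 0 := by
        by_contra hne
        refine h4 ⟨s, ⟨h1, h2, c, hcb, ?_, hne⟩, rfl⟩
        rw [hSd, hx] at h0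
        exact h0
      rw [hx] at hp
      have hY : ∀ i, bl (fun q : Ix n => Y q.1 q.2.1 q.2.2) i * F.Qx (fun j => io (s j)) i *
          (bl (fun q : Ix n => Y q.1 q.2.1 q.2.2) i).transpose = μ ^ F.w i • F.Jx i := fun i => hp.2 i
      have h9 := F.full io s (innerM_sub _ hk h2) (fun l a => (c l a : K)) key hp.1
        (fun q => Y q.1 q.2.1 q.2.2) hY
      exact h9
    · intro h0
      rw [hS, sub_eq_zero]
      have h9 := h0 ((fun i => F.P i x), tpi) (F.mem hxU)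
      exact h9

end Pool.Agent.U543.NR
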