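import Pool.Agent.Y890.SP.Spec
import Pool.Agent.Y890.MV.Main

/-! The value of the resultant is a multiple of the value of the relation; bounded families of values. -/

set_option autoImplicit false
set_option linter.unusedSectionVars false

open Polynomial

namespace Pool.Agent.U543.NR

open Pool.Agent.Y890.SP (Dat evI evI_rename resP resG relPoly relPoly_degree resG_map)

theorem res_quant {A L : Type} [CommRing A] [IsDomain A] [Field L] [Algebra A L] [FaithfulSMul A L] {σ : Type}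
    {f : σ → L} (d : Dat A L f) {Λ : Type} [Fintype Λ] (l : Λ → MvPolynomial σ A)
    (D : MvPolynomial d.I A) (h : Λ → Polynomial (MvPolynomial d.I A))
    (hh : ∀ i, (h i).degree < d.m.degree ∧ evI (f ∘ d.ι) D * MvPolynomial.aeval f (l i) =
      eval₂ (evI (f ∘ d.ι)) (MvPolynomial.aeval f d.Θ) (h i)) :
    ∃ q : Polynomial (MvPolynomial d.I (MvPolynomial Λ A)), ∀ (F : Type) [Field F] (φ : A →+* F) (y : σ → F),
      (∀ p : MvPolynomial σ A, MvPolynomial.aeval f p = (0 : L) → MvPolynomial.eval₂ φ y p = 0) →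
      ∀ P : Λ → F,
        MvPolynomial.eval (fun i => y (d.ι i)) (MvPolynomial.map (MvPolynomial.eval₂Hom φ P) (resG d.m d.m.natDegree h)) =
          (MvPolynomial.eval₂ φ (fun i => y (d.ι i)) D * ∑ i, P i * MvPolynomial.eval₂ φ y (l i)) *
            eval₂ (MvPolynomial.eval₂Hom (MvPolynomial.eval₂Hom φ P) fun i => y (d.ι i))
              (MvPolynomial.eval₂ φ y d.Θ) q ∧
        eval₂ (MvPolynomial.eval fun i => y (d.ι i)) (MvPolynomial.eval₂ φ y d.Θ)
          (relPoly (fun i => (h i).map (MvPolynomial.map φ)) P) =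
            MvPolynomial.eval₂ φ (fun i => y (d.ι i)) D * ∑ i, P i * MvPolynomial.eval₂ φ y (l i) := by
  classical
  set mg := d.m.map (MvPolynomial.map (MvPolynomial.C : A →+* MvPolynomial Λ A)) with hmg
  set Hg := relPoly (fun i => (h i).map (MvPolynomial.map (MvPolynomial.C : A →+* MvPolynomial Λ A)))
    (fun i => (MvPolynomial.X i : MvPolynomial Λ A)) with hHg
  have hHd : Hg.natDegree ≤ d.m.natDegree := by
    apply natDegree_le_of_degree_le
    have h1 : Hg.degree < d.m.degree := by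
      apply relPoly_degree _ _ _ (bot_lt_iff_ne_bot.2 (by rw [Ne, degree_eq_bot]; exact d.monic.ne_zero))
      intro i
      exact lt_of_le_of_lt (degree_map_le) (hh i).1
    rw [degree_eq_natDegree d.monic.ne_zero] at h1
    exact h1.le
  obtain ⟨p, q, -, -, hpq⟩ := exists_mul_add_mul_eq_C_resultant (m := d.m.natDegree) (n := d.m.natDegree) mg Hg
    (natDegree_map_le) hHd (Or.inl d.pos.ne')
  refine ⟨q, ?_⟩
  intro F _ φ y hy P
  set Y : MvPolynomial σ A →+* F := MvPolynomial.eval₂Hom φ y with hY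
  set θ : F := Y d.Θ with hθ
  set g : d.I → F := fun i => y (d.ι i) with hg
  let R : MvPolynomial d.I A →+* MvPolynomial σ A := (MvPolynomial.rename d.ι : MvPolynomial d.I A →ₐ[A] _).toRingHom
  have hlift : ∀ q : Polynomial (MvPolynomial d.I A),
      MvPolynomial.aeval f (eval₂ R d.Θ q) = eval₂ (evI (f ∘ d.ι)) (MvPolynomial.aeval f d.Θ) q := by
    intro q
    have h1 := Polynomial.hom_eval₂ q R (MvPolynomial.aeval f : MvPolynomial σ A →ₐ[A] L).toRingHom d.Θ
    have h2 : (MvPolynomial.aeval f : MvPolynomial σ A →ₐ[A] L).toRingHom.comp R = evI (f ∘ d.ι) :=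
      RingHom.ext fun p => (evI_rename f d.ι p).symm
    rw [h2] at h1
    exact h1
  have hYR : Y.comp R = MvPolynomial.eval₂Hom φ g := by
    refine MvPolynomial.ringHom_ext ?_ ?_
    · intro a
      simp [R, hY]
    · intro i
      simp [R, hY, hg]
  have hval : ∀ q : Polynomial (MvPolynomial d.I A), Y (eval₂ R d.Θ q) = eval₂ (MvPolynomial.eval₂Hom φ g) θ q := by
    intro q
    rw [Polynomial.hom_eval₂, hYR]
  have hm0 : eval₂ (MvPolynomial.eval₂Hom φ g) θ d.m = 0 := by
    rw [← hval]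
    apply hy
    rw [hlift]
    exact d.root
  have hl0 : ∀ i, eval₂ (MvPolynomial.eval₂Hom φ g) θ (h i) =
      MvPolynomial.eval₂ φ g D * MvPolynomial.eval₂ φ y (l i) := by
    intro i
    rw [← hval]
    have h1 : MvPolynomial.aeval f (eval₂ R d.Θ (h i) - R D * l i) = (0 : L) := by
      rw [map_sub, hlift, map_mul, ← (hh i).2, sub_eq_zero]
      congr 1
      exact evI_rename f d.ι D
    have h2 := hy _ h1
    have h3 : Y (eval₂ R d.Θ (h i) - R D * l i) = 0 := h2
    rw [map_sub, map_mul, sub_eq_zero] at h3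
    rw [h3]
    have h4 : Y (R D) = (Y.comp R) D := rfl
    rw [h4, hYR]
    rfl
  -- the big evaluation
  set Ψ := eval₂RingHom (MvPolynomial.eval₂Hom (MvPolynomial.eval₂Hom φ P) g) θ with hΨ
  have hcomp : (MvPolynomial.eval₂Hom (MvPolynomial.eval₂Hom φ P) g).comp
      (MvPolynomial.map (MvPolynomial.C : A →+* MvPolynomial Λ A)) = MvPolynomial.eval₂Hom φ g := by
    refine MvPolynomial.ringHom_ext ?_ ?_
    · intro a
      simp
    · intro i
      simp
  have hΨm : ∀ r : Polynomial (MvPolynomial d.I A), Ψ (r.map (MvPolynomial.map MvPolynomial.C)) =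
      eval₂ (MvPolynomial.eval₂Hom φ g) θ r := by
    intro r
    rw [hΨ, coe_eval₂RingHom, eval₂_map, hcomp]
  have hΨH : Ψ Hg = MvPolynomial.eval₂ φ g D * ∑ i, P i * MvPolynomial.eval₂ φ y (l i) := by
    rw [hHg, relPoly, map_sum, Finset.mul_sum]
    refine Finset.sum_congr rfl fun i _ => ?_
    rw [map_mul, hΨm, hl0, hΨ, coe_eval₂RingHom, eval₂_C]
    have h1 : (MvPolynomial.eval₂Hom (MvPolynomial.eval₂Hom φ P) g) (MvPolynomial.C (MvPolynomial.X i)) = P i := by
      simp
    rw [h1]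
    ring
  refine ⟨?_, ?_⟩
  · have h1 := congrArg Ψ hpq
    rw [map_add, map_mul, map_mul, hmg, hΨm, hm0, zero_mul, zero_add, hΨH] at h1
    have h2 : Ψ (C (resultant mg Hg d.m.natDegree d.m.natDegree)) =
        MvPolynomial.eval g (MvPolynomial.map (MvPolynomial.eval₂Hom φ P) (resG d.m d.m.natDegree h)) := by
      rw [hΨ, coe_eval₂RingHom, eval₂_C, MvPolynomial.eval_map]
      rfl
    rw [← h2, ← h1]
    rfl
  · have h3 : eval₂ (MvPolynomial.eval g) θ (relPoly (fun i => (h i).map (MvPolynomial.map φ)) P) = Ψ Hg := by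
      rw [hΨH, relPoly, eval₂_finsetSum, Finset.mul_sum]
      refine Finset.sum_congr rfl fun i _ => ?_
      rw [eval₂_mul, eval₂_C, MvPolynomial.eval_C, eval₂_map]
      have h4 : (MvPolynomial.eval g).comp (MvPolynomial.map φ) = MvPolynomial.eval₂Hom φ g := by
        refine MvPolynomial.ringHom_ext ?_ ?_
        · intro a
          simp
        · intro i
          simp
      rw [h4, hl0]
      ring
    rw [← hΨH]
    exact h3

section bd

variable {X Λ : Type}

/-- values bounded by powers of the size of the coefficients, uniformly on a set -/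
def Bd (Lc : Set (X → ℂ)) (G : (X → ℂ) → (Λ → ℂ) → ℂ) : Prop :=
  ∃ (C : ℝ) (n : ℕ), 0 ≤ C ∧ ∀ t ∈ Lc, ∀ (P : Λ → ℂ) (H : ℝ), 1 ≤ H → (∀ l, ‖P l‖ ≤ H) → ‖G t P‖ ≤ C * H ^ n

variable {Lc : Set (X → ℂ)}

theorem Bd.add {G G' : (X → ℂ) → (Λ → ℂ) → ℂ} (h : Bd Lc G) (h' : Bd Lc G') : Bd Lc fun t P => G t P + G' t P := by
  obtain ⟨C, n, hC, h⟩ := h
  obtain ⟨C', n', hC', h'⟩ := h'
  refine ⟨C + C', n + n', by positivity, fun t ht P H hH hP => ?_⟩
  have h1 := h t ht P H hH hP
  have h2 := h' t ht P H hH hP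
  have h3 : H ^ n ≤ H ^ (n + n') := pow_le_pow_right₀ hH (Nat.le_add_right _ _)
  have h4 : H ^ n' ≤ H ^ (n + n') := pow_le_pow_right₀ hH (Nat.le_add_left _ _)
  calc ‖G t P + G' t P‖ ≤ ‖G t P‖ + ‖G' t P‖ := norm_add_le _ _
    _ ≤ C * H ^ n + C' * H ^ n' := add_le_add h1 h2
    _ ≤ C * H ^ (n + n') + C' * H ^ (n + n') :=
        add_le_add (mul_le_mul_of_nonneg_left h3 hC) (mul_le_mul_of_nonneg_left h4 hC')
    _ = _ := by ring

theorem Bd.mul {G G' : (X → ℂ) → (Λ → ℂ) → ℂ} (h : Bd Lc G) (h' : Bd Lc G') : Bd Lc fun t P => G t P * G' t P := by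
  obtain ⟨C, n, hC, h⟩ := h
  obtain ⟨C', n', hC', h'⟩ := h'
  refine ⟨C * C', n + n', by positivity, fun t ht P H hH hP => ?_⟩
  have h1 := h t ht P H hH hP
  have h2 := h' t ht P H hH hP
  rw [norm_mul]
  calc ‖G t P‖ * ‖G' t P‖ ≤ (C * H ^ n) * (C' * H ^ n') := mul_le_mul h1 h2 (norm_nonneg _) (by positivity)
    _ = _ := by rw [pow_add]; ring

theorem Bd.of_cont (hLc : IsCompact Lc) (g : (X → ℂ) → ℂ) (hg : ContinuousOn g Lc) :
    Bd (Λ := Λ) Lc fun t _ => g t := by
  obtain ⟨C, hC⟩ := hLc.exists_bound_of_continuousOn hg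
  refine ⟨max C 0, 0, le_max_right _ _, fun t ht P H hH hP => ?_⟩
  rw [pow_zero, mul_one]
  exact (hC t ht).trans (le_max_left _ _)

theorem Bd.var (l : Λ) : Bd Lc fun _ P => P l :=
  ⟨1, 1, zero_le_one, fun t ht P H hH hP => by rw [pow_one, one_mul]; exact hP l⟩

theorem Bd.mv {τ S : Type} [CommRing S] (E : (X → ℂ) → (Λ → ℂ) → (S →+* ℂ)) (hE : ∀ s, Bd Lc fun t P => E t P s)
    (v : τ → (X → ℂ) → (Λ → ℂ) → ℂ) (hv : ∀ i, Bd Lc (v i)) (p : MvPolynomial τ S) :
    Bd Lc fun t P => MvPolynomial.eval₂Hom (E t P) (fun i => v i t P) p := by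
  induction p using MvPolynomial.induction_on with
  | C a => simpa using hE a
  | add p q hp hq =>
    simp only [map_add]
    exact hp.add hq
  | mul_X p i hp =>
    simp only [map_mul, MvPolynomial.eval₂Hom_X']
    exact hp.mul (hv i)

theorem Bd.poly {S : Type} [CommRing S] (E : (X → ℂ) → (Λ → ℂ) → (S →+* ℂ)) (hE : ∀ s, Bd Lc fun t P => E t P s)
    (v : (X → ℂ) → (Λ → ℂ) → ℂ) (hv : Bd Lc v) (p : Polynomial S) :
    Bd Lc fun t P => eval₂ (E t P) (v t P) p := by
  have hpow : ∀ n : ℕ, Bd Lc fun t P => v t P ^ n := by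
    intro n
    induction n with
    | zero =>
      simp only [pow_zero]
      exact ⟨1, 0, zero_le_one, fun t _ P H _ _ => by simp⟩
    | succ n ih =>
      simp only [pow_succ]
      exact ih.mul hv
  induction p using Polynomial.induction_on' with
  | add p q hp hq =>
    simp only [eval₂_add]
    exact hp.add hq
  | monomial n a =>
    simp only [eval₂_monomial]
    exact (hE a).mul (hpow n)

end bd

end Pool.Agent.U543.NR
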