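import Pool.Agent.U543.NrSp
import Pool.Agent.U543.NrRes

/-! Near relations are relations, outside few hypersurfaces. -/

set_option autoImplicit false
set_option linter.unusedSectionVars false

open Polynomial NumberField

namespace Pool.Agent.U543.NR

open Pool.Agent.Y890.MV
open Pool.Agent.Y890.SP (Dat evI evI_rename resP resG relPoly relPoly_degree resG_map exists_dat eq_zero_of_resultant)
open Pool.Agent.Y124 (Cov RelK)

variable {k : Type} [Field k] [Algebra k ℂ]

theorem cov_one {X : Type} {P : MvPolynomial X ℂ} (hP : P ≠ 0) :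
    Cov P.totalDegree 1 {t : X → ℂ | MvPolynomial.eval t P = 0} := by
  refine ⟨{P}, by simp, ?_, ?_⟩
  · intro Q hQ
    rw [Finset.mem_singleton] at hQ
    subst hQ
    exact ⟨hP, le_rfl⟩
  · intro t ht
    exact ⟨P, Finset.mem_singleton_self _, ht⟩

/-- **Near relations.** -/
theorem nearM [CharZero k] (hLB : LB k) {X σ : Type} [Fintype X] [DecidableEq X] [Nonempty X] [Fintype σ] [DecidableEq σ]
    {U : Set (X → ℂ)} {f : σ → (X → ℂ) → ℂ} (hU : IsPreconnected U) (hUo : IsOpen U) (hne : U.Nonempty)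
    (hf : ∀ i, AnalyticOnNhd ℂ (f i) U) (hreg : RegularM U f) (hD : Desc k U f) (Lc : Set (X → ℂ))
    (hLc : IsCompact Lc) (hLU : Lc ⊆ U) (δ : ℕ) {h : Type} [Fintype h] [DecidableEq h] (ξ : h → k) (m : ℕ) (A ε : ℝ)
    (hε : 0 < ε) :
    ∃ (D : ℕ) (B C T₀ : ℝ), 0 ≤ C ∧ 2 ≤ T₀ ∧ ∀ (K : Type) [Field K] [NumberField K], Module.finrank ℚ K ≤ m →
      ∀ (io : K →+* ℂ) (T : ℝ), T₀ ≤ T → Cov D ⌊C * T ^ ε⌋₊ {t : X → ℂ | t ∈ Lc ∧ ∃ s : X → K,
        (∀ i, Y120.HtLe K T (s i)) ∧ (t = fun i => io (s i)) ∧ ∃ c : (σ → Fin (δ + 1)) → h → 𝓞 K,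
          (∀ l i (φ : K →+* ℂ), ‖φ (c l i : K)‖ ≤ T ^ A) ∧
          ∑ l, (∑ i, algebraMap k ℂ (ξ i) * io (c l i : K)) * ∏ y, f y t ^ (l y : ℕ) ≠ 0 ∧
          ‖∑ l, (∑ i, algebraMap k ℂ (ξ i) * io (c l i : K)) * ∏ y, f y t ^ (l y : ℕ)‖ ≤ T ^ (-B)} := by
  classical
  obtain ⟨L, _, _, _, F, hz, hfrac⟩ := exists_fieldQ (f := f) k hU hUo hne hf
  obtain ⟨d⟩ := exists_dat F hfrac (reg_fieldQ hU hUo hf hreg hD F hz hfrac)
  let := d.fin
  let := d.dec
  let Λ := σ → Fin (δ + 1)
  let lm : Λ → MvPolynomial σ (MvPolynomial X k) := fun l => ∏ y, MvPolynomial.X y ^ (l y : ℕ)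
  obtain ⟨D, hh, hDne, hh'⟩ := d.exists_fam (fun l : Λ => MvPolynomial.aeval F (lm l))
  obtain ⟨D₁, hD₁, hirr⟩ := d.irr
  obtain ⟨q, hq⟩ := res_quant d lm D hh hh'
  obtain ⟨α₀, hα₀⟩ := MvPolynomial.ne_zero_iff.1 hDne
  -- the coordinates
  have hιinj : Function.Injective d.ι := by
    have h1 := d.ind.injective
    exact Function.Injective.of_comp h1
  obtain ⟨L', _, _, _, F', hz', -⟩ := exists_fieldM hU hUo hne hf
  have hind : ∀ t ∈ Lc, LocIndM (fun (i : d.I) t => f (d.ι i) t) t := fun t ht =>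
    locIndM_of hU hf F' hz' d.ι (ind_up hD F hz F' hz' d.ι hιinj d.ind) t (hLU ht)
  have han : ∀ (i : d.I), ∀ t ∈ Lc, AnalyticAt ℂ (fun t => f (d.ι i) t) t := fun i t ht => hf _ t (hLU ht)
  -- the two coverings
  obtain ⟨N₁, B₁, C₁, T₁, hC₁, hT₁, H₁⟩ := spec_cov hLB (fun (i : d.I) t => f (d.ι i) t) Lc hLc han hind
    (resG d.m d.m.natDegree hh) ξ m A ε hε
  obtain ⟨N₂, B₂, C₂, T₂, hC₂, hT₂, H₂⟩ := spec_cov hLB (fun (i : d.I) t => f (d.ι i) t) Lc hLc han hind
    (MvPolynomial.map (MvPolynomial.C : MvPolynomial X k →+* MvPolynomial Λ (MvPolynomial X k)) D) ξ m A ε hε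
  -- bounds
  have hcont : ∀ i, ContinuousOn (f i) Lc := fun i => ((hf i).continuousOn).mono hLU
  have hb0 : ∀ s : MvPolynomial X k, Bd (Λ := Λ) Lc fun t _ => ((MvPolynomial.eval t).comp up) s := fun s =>
    Bd.of_cont hLc _ (MvPolynomial.continuous_eval (up s)).continuousOn
  have hb1 : ∀ s : MvPolynomial Λ (MvPolynomial X k), Bd Lc fun t P => spc t P s := fun s =>
    Bd.mv (fun t _ => (MvPolynomial.eval t).comp up) hb0 (fun l _ P => P l) (fun l => Bd.var l) s
  have hb2 : ∀ s : MvPolynomial d.I (MvPolynomial Λ (MvPolynomial X k)), Bd Lc fun t P =>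
      MvPolynomial.eval₂Hom (spc t P) (fun i => f (d.ι i) t) s := fun s =>
    Bd.mv (fun t P => spc t P) hb1 (fun i t _ => f (d.ι i) t) (fun i => Bd.of_cont hLc _ (hcont _)) s
  have hbΘ : Bd (Λ := Λ) Lc fun t _ => MvPolynomial.eval₂Hom ((MvPolynomial.eval t).comp up) (fun i => f i t) d.Θ :=
    Bd.mv (fun t _ => (MvPolynomial.eval t).comp up) hb0 (fun i t _ => f i t) (fun i => Bd.of_cont hLc _ (hcont _)) d.Θ
  have hbq : Bd Lc fun t P => eval₂ (MvPolynomial.eval₂Hom (spc t P) (fun i => f (d.ι i) t))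
      (MvPolynomial.eval₂Hom ((MvPolynomial.eval t).comp up) (fun i => f i t) d.Θ) q :=
    Bd.poly (fun t P => MvPolynomial.eval₂Hom (spc t P) (fun i => f (d.ι i) t)) hb2 _ hbΘ q
  have hbD : Bd (Λ := Λ) Lc fun t _ => MvPolynomial.eval₂Hom ((MvPolynomial.eval t).comp up)
      (fun i => f (d.ι i) t) D :=
    Bd.mv (fun t _ => (MvPolynomial.eval t).comp up) hb0 (fun i t _ => f (d.ι i) t)
      (fun i => Bd.of_cont hLc _ (hcont _)) D
  obtain ⟨Cq, nq, hCq, hbd⟩ := hbD.mul hbq
  obtain ⟨Ξ, hΞ⟩ : ∃ Ξ : ℝ, Ξ = ∑ i, ‖algebraMap k ℂ (ξ i)‖ := ⟨_, rfl⟩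
  have hΞ0 : 0 ≤ Ξ := by rw [hΞ]; exact Finset.sum_nonneg fun _ _ => norm_nonneg _
  obtain ⟨A₂, hA₂⟩ : ∃ A₂ : ℝ, A₂ = max A 0 + 1 := ⟨_, rfl⟩
  have hA₂0 : 0 ≤ A₂ := by
    have := le_max_right A 0
    linarith
  refine ⟨max (max N₁ N₂) (max D₁.totalDegree (D.coeff α₀).totalDegree), B₁ + A₂ * nq + 1, C₁ + C₂ + 2,
    max (max T₁ T₂) (max Ξ Cq), by positivity, (hT₁.trans (le_max_left _ _)).trans (le_max_left _ _), ?_⟩
  intro K _ _ hK io T hT
  have hTa : T₁ ≤ T := ((le_max_left _ _).trans (le_max_left _ _)).trans hT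
  have hTb : T₂ ≤ T := ((le_max_right _ _).trans (le_max_left _ _)).trans hT
  have hTc : Ξ ≤ T := ((le_max_left _ _).trans (le_max_right _ _)).trans hT
  have hTd : Cq ≤ T := ((le_max_right _ _).trans (le_max_right _ _)).trans hT
  have hT1 : 1 ≤ T := by linarith
  have hTp : 0 < T := by linarith
  have hup1 : up D₁ ≠ (0 : MvPolynomial X ℂ) := fun h0 => hD₁ (up_inj (by rw [h0, map_zero]))
  have hup2 : up (D.coeff α₀) ≠ (0 : MvPolynomial X ℂ) := fun h0 => hα₀ (up_inj (by rw [h0, map_zero]))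
  have hdeg : ∀ p : MvPolynomial X k, (up p).totalDegree ≤ p.totalDegree := fun p => by
    unfold up
    exact Finset.sup_mono (MvPolynomial.support_map_subset _ _)
  have hc1 := (H₁ K hK io T hTa).mono ((le_max_left N₁ N₂).trans
    (le_max_left _ (max D₁.totalDegree (D.coeff α₀).totalDegree))) le_rfl (Set.Subset.refl _)
  have hc2 := (H₂ K hK io T hTb).mono ((le_max_right N₁ N₂).trans
    (le_max_left _ (max D₁.totalDegree (D.coeff α₀).totalDegree))) le_rfl (Set.Subset.refl _)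
  have hc3 := (cov_one hup1).mono ((hdeg D₁).trans ((le_max_left _ (D.coeff α₀).totalDegree).trans
    (le_max_right (max N₁ N₂) _))) le_rfl (Set.Subset.refl _)
  have hc4 := (cov_one hup2).mono ((hdeg _).trans ((le_max_right D₁.totalDegree _).trans
    (le_max_right (max N₁ N₂) _))) le_rfl (Set.Subset.refl _)
  refine ((hc1.union hc2).union (hc3.union hc4)).mono le_rfl ?_ ?_
  · apply Nat.le_floor
    push_cast
    have h6 : (1 : ℝ) ≤ T ^ ε := Real.one_le_rpow hT1 hε.le
    have h7 := Nat.floor_le (a := C₁ * T ^ ε) (by positivity)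
    have h8 := Nat.floor_le (a := C₂ * T ^ ε) (by positivity)
    nlinarith
  · rintro t ⟨htL, s, hs1, hts, c, hc, hS0, hSB⟩
    set P : Λ → ℂ := fun l => ∑ i, algebraMap k ℂ (ξ i) * io (c l i : K) with hP
    obtain ⟨S, hS⟩ : ∃ S : ℂ, S = ∑ l, P l * ∏ y, f y t ^ (l y : ℕ) := ⟨_, rfl⟩
    have hS0' : S ≠ 0 := by rw [hS]; exact hS0
    have hSB' : ‖S‖ ≤ T ^ (-(B₁ + A₂ * nq + 1)) := by rw [hS]; exact hSB
    by_cases hZ1 : MvPolynomial.eval t (up D₁) = 0
    · exact Or.inr (Or.inl hZ1)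
    by_cases hZ2 : MvPolynomial.eval t (up (D.coeff α₀)) = 0
    · exact Or.inr (Or.inr hZ2)
    refine Or.inl ?_
    set φ : MvPolynomial X k →+* ℂ := (MvPolynomial.eval t).comp up with hφ
    have hy : ∀ p : MvPolynomial σ (MvPolynomial X k), MvPolynomial.aeval F p = (0 : L) →
        MvPolynomial.eval₂ φ (fun i => f i t) p = 0 := by
      intro p hp
      have h1 := (hz p).1 hp t (hLU htL)
      rw [evM, up2, MvPolynomial.eval₂_map] at h1
      exact h1
    obtain ⟨e1, e2⟩ := hq ℂ φ (fun i => f i t) hy P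
    have hlm : ∀ l, MvPolynomial.eval₂ φ (fun i => f i t) (lm l) = ∏ y, f y t ^ (l y : ℕ) := by
      intro l
      simp only [lm]
      rw [MvPolynomial.eval₂_prod]
      refine Finset.prod_congr rfl fun y _ => ?_
      rw [MvPolynomial.eval₂_pow, MvPolynomial.eval₂_X]
    have hsum : ∑ i, P i * MvPolynomial.eval₂ φ (fun i => f i t) (lm i) = S := by
      rw [hS]
      exact Finset.sum_congr rfl fun l _ => by rw [hlm]
    rw [hsum] at e1 e2
    by_cases hDt : MvPolynomial.eval₂ φ (fun i => f (d.ι i) t) D = 0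
    · -- the denominator vanishes
      right
      refine ⟨htL, s, hs1, hts, c, hc, ?_, ?_⟩
      · intro h0
        apply hZ2
        have h1 := congrArg (fun p => MvPolynomial.coeff α₀ p) h0
        simp only [MvPolynomial.coeff_map, MvPolynomial.coeff_zero, spc, MvPolynomial.coe_eval₂Hom,
          MvPolynomial.eval₂_C] at h1
        exact h1
      · have h1 : MvPolynomial.eval (fun i => f (d.ι i) t) (MvPolynomial.map (spc t P)
            (MvPolynomial.map (MvPolynomial.C : MvPolynomial X k →+* MvPolynomial Λ (MvPolynomial X k)) D)) =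
            MvPolynomial.eval₂ φ (fun i => f (d.ι i) t) D := by
          rw [MvPolynomial.eval_map, MvPolynomial.eval₂_map]
          congr 1
          refine RingHom.ext fun a => ?_
          simp [spc, hφ]
        rw [h1, hDt, norm_zero]
        positivity
    · left
      have hrel0 : relPoly (fun i => (hh i).map (MvPolynomial.map φ)) P ≠ 0 := by
        intro h0
        rw [h0, eval₂_zero] at e2
        exact mul_ne_zero hDt hS0' e2.symm
      have h𝓡0 : MvPolynomial.map (spc t P) (resG d.m d.m.natDegree hh) ≠ 0 := by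
        intro h0
        have hmd : (d.m.map (MvPolynomial.map (σ := d.I) φ)).natDegree = d.m.natDegree := d.monic.natDegree_map _
        have hmd' : (d.m.map (MvPolynomial.map (σ := d.I) φ)).degree = d.m.degree := d.monic.degree_map _
        have hRd : (relPoly (fun l => (hh l).map (MvPolynomial.map (σ := d.I) φ)) P).degree < d.m.degree := by
          apply relPoly_degree _ _ _ (bot_lt_iff_ne_bot.2 (by rw [Ne, degree_eq_bot]; exact d.monic.ne_zero))
          intro l
          exact lt_of_le_of_lt degree_map_le (hh' l).1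
        apply hrel0
        refine eq_zero_of_resultant (d.m.map (MvPolynomial.map (σ := d.I) φ))
          (relPoly (fun l => (hh l).map (MvPolynomial.map (σ := d.I) φ)) P) (d.monic.map _) (hirr ℂ φ hZ1)
          (by rw [hmd']; exact hRd) d.m.natDegree (by
            apply natDegree_le_of_degree_le
            rw [degree_eq_natDegree d.monic.ne_zero] at hRd
            exact hRd.le) ?_
        rw [hmd]
        exact (resG_map d.m d.m.natDegree hh φ P).trans h0
      refine ⟨htL, s, hs1, hts, c, hc, h𝓡0, ?_⟩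
      have e1' : MvPolynomial.eval (fun i => f (d.ι i) t) (MvPolynomial.map (spc t P) (resG d.m d.m.natDegree hh)) =
        (MvPolynomial.eval₂Hom φ (fun i => f (d.ι i) t) D *
          eval₂ (MvPolynomial.eval₂Hom (spc t P) (fun i => f (d.ι i) t))
            (MvPolynomial.eval₂Hom φ (fun i => f i t) d.Θ) q) * S := by
        refine e1.trans ?_
        have : ∀ a b c : ℂ, a * b * c = a * c * b := fun a b c => by ring
        exact this _ _ _
      rw [e1', norm_mul]
      have hP1 : ∀ l, ‖P l‖ ≤ T ^ A₂ := by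
        intro l
        have h1 : ‖P l‖ ≤ ∑ i, ‖algebraMap k ℂ (ξ i)‖ * T ^ (max A 0) := by
          refine (norm_sum_le _ _).trans (Finset.sum_le_sum fun i _ => ?_)
          rw [norm_mul]
          refine mul_le_mul_of_nonneg_left ((hc l i io).trans ?_) (norm_nonneg _)
          exact Real.rpow_le_rpow_of_exponent_le hT1 (le_max_left _ _)
        rw [← Finset.sum_mul, ← hΞ] at h1
        refine h1.trans ?_
        rw [hA₂, Real.rpow_add hTp, Real.rpow_one, mul_comm]
        exact mul_le_mul_of_nonneg_left hTc (by positivity)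
      have h1 := hbd t htL P (T ^ A₂) (Real.one_le_rpow hT1 hA₂0) hP1
      have h2 : (T ^ A₂) ^ nq = T ^ (A₂ * nq) := by
        rw [Real.rpow_mul hTp.le, Real.rpow_natCast]
      rw [h2] at h1
      calc _ ≤ (Cq * T ^ (A₂ * nq)) * T ^ (-(B₁ + A₂ * nq + 1)) := mul_le_mul h1 hSB' (norm_nonneg _) (by positivity)
        _ ≤ (T * T ^ (A₂ * nq)) * T ^ (-(B₁ + A₂ * nq + 1)) := by
            refine mul_le_mul_of_nonneg_right (mul_le_mul_of_nonneg_right hTd (by positivity)) (by positivity)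
        _ = T ^ (-B₁) := by
            have h3 : ∀ a b : ℝ, T * T ^ a * T ^ b = T ^ (1 + a + b) := fun a b => by
              rw [Real.rpow_add hTp, Real.rpow_add hTp, Real.rpow_one]
            rw [h3]
            congr 1
            ring

end Pool.Agent.U543.NR
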