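import Pool.Agent.U543.NrNear

/-! Families with symplectic monodromy: the relations between the periods are defined over `ℚ̄(2πi)(x)`. -/

set_option autoImplicit false
set_option linter.unusedSectionVars false

open Polynomial Matrix NumberField

namespace Pool.Agent.U543.NR

open Pool.Agent.Y890.MV
open Pool.Agent.Y890.SM
open Pool.Agent.Y890.SP (Qbar)

section clr

variable {k : Type} [Field k] [Algebra k ℂ] {X σ : Type} [Fintype X] [Fintype σ]

theorem evX_up2_lcY (ℓ : ℂ →ₗ[k] k) (x : X → ℂ) (Y : σ → ℂ) (P : MvPolynomial σ (MvPolynomial X ℂ)) :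
    evX x Y (up2 (lcY ℓ P)) = ∑ m ∈ P.support, MvPolynomial.eval x (up (lcX ℓ (P.coeff m))) * ∏ y, Y y ^ m y := by
  classical
  rw [lcY, map_sum, evX, MvPolynomial.eval₂_sum]
  refine Finset.sum_congr rfl fun m _ => ?_
  rw [up2, MvPolynomial.map_monomial, MvPolynomial.eval₂_monomial, Finsupp.prod_fintype _ _ (fun _ => pow_zero _)]

/-- **Descent along rational sections.** -/
theorem clr_zero (ℓ : ℂ →ₗ[k] k) (P : MvPolynomial σ (MvPolynomial X ℂ)) (v : σ → MvPolynomial X k)
    (c : MvPolynomial X k) (hc : c ≠ 0) {U : Set (X → ℂ)} (hUo : IsOpen U) (hne : U.Nonempty)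
    (h : ∀ x ∈ U, MvPolynomial.eval x (up c) ≠ 0 →
      evX x (fun y => MvPolynomial.eval x (up (v y)) / MvPolynomial.eval x (up c)) P = 0)
    (x : X → ℂ) (hx : MvPolynomial.eval x (up c) ≠ 0) :
    evX x (fun y => MvPolynomial.eval x (up (v y)) / MvPolynomial.eval x (up c)) (up2 (lcY ℓ P)) = 0 := by
  classical
  set N : ℕ := ∑ m ∈ P.support, ∑ y, m y with hN
  have hNm : ∀ m ∈ P.support, ∑ y, m y ≤ N := fun m hm =>
    Finset.single_le_sum (f := fun m : σ →₀ ℕ => ∑ y, m y) (fun _ _ => Nat.zero_le _) hm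
  let w : (σ →₀ ℕ) → MvPolynomial X k := fun m => (∏ y, v y ^ m y) * c ^ (N - ∑ y, m y)
  have hw : ∀ m ∈ P.support, ∀ z : X → ℂ, MvPolynomial.eval z (up c) ≠ 0 → MvPolynomial.eval z (up (w m)) =
      MvPolynomial.eval z (up c) ^ N * ∏ y, (MvPolynomial.eval z (up (v y)) / MvPolynomial.eval z (up c)) ^ m y := by
    intro m hm z hz
    have h1 : MvPolynomial.eval z (up c) ^ N =
        (∏ y, MvPolynomial.eval z (up c) ^ m y) * MvPolynomial.eval z (up c) ^ (N - ∑ y, m y) := by
      rw [Finset.prod_pow_eq_pow_sum, ← pow_add]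
      congr 1
      have := hNm m hm
      omega
    simp only [w, map_mul, map_prod, map_pow]
    rw [h1, mul_right_comm, ← Finset.prod_mul_distrib]
    congr 1
    refine Finset.prod_congr rfl fun y _ => ?_
    rw [← mul_pow, mul_div_cancel₀ _ hz]
  set G : MvPolynomial X ℂ := ∑ m ∈ P.support, P.coeff m * up (w m) with hG
  have hG0 : G = 0 := by
    have h1 : G * up c = 0 := by
      refine poly_zero hUo hne _ fun z hz => ?_
      by_cases hzc : MvPolynomial.eval z (up c) = 0
      · rw [map_mul, hzc, mul_zero]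
      · have h2 := h z hz hzc
        rw [evX, MvPolynomial.eval₂_eq'] at h2
        rw [map_mul, hG, map_sum]
        have h3 : ∑ m ∈ P.support, MvPolynomial.eval z (P.coeff m * up (w m)) =
            MvPolynomial.eval z (up c) ^ N * ∑ m ∈ P.support, MvPolynomial.eval z (P.coeff m) *
              ∏ y, (MvPolynomial.eval z (up (v y)) / MvPolynomial.eval z (up c)) ^ m y := by
          rw [Finset.mul_sum]
          refine Finset.sum_congr rfl fun m hm => ?_
          rw [map_mul, hw m hm z hzc]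
          ring
        rw [h3, h2, mul_zero, zero_mul]
    refine (mul_eq_zero.1 h1).resolve_right fun h0 => hc (up_inj ?_)
    rw [h0, map_zero]
  have hl : ∑ m ∈ P.support, lcX ℓ (P.coeff m) * w m = 0 := by
    have h1 : lcX ℓ G = 0 := by rw [hG0, lcX_zero]
    rw [← h1, hG, lcX_sum]
    exact Finset.sum_congr rfl fun m _ => (lcX_mul ℓ _ _).symm
  have h2 := congrArg (fun p => MvPolynomial.eval x (up p)) hl
  simp only [map_sum, map_mul, map_zero] at h2
  have h3 : ∑ m ∈ P.support, MvPolynomial.eval x (up (lcX ℓ (P.coeff m))) * MvPolynomial.eval x (up (w m)) =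
      MvPolynomial.eval x (up c) ^ N *
        evX x (fun y => MvPolynomial.eval x (up (v y)) / MvPolynomial.eval x (up c)) (up2 (lcY ℓ P)) := by
    rw [evX_up2_lcY, Finset.mul_sum]
    refine Finset.sum_congr rfl fun m hm => ?_
    rw [hw m hm x hx]
    ring
  rw [h3] at h2
  exact (mul_eq_zero.1 h2).resolve_left (pow_ne_zero _ hx)

end clr

variable {k : Type} [Field k] [CharZero k] [Algebra k ℂ] [Algebra Qbar k] [IsScalarTower Qbar k ℂ]
  {X : Type} [Fintype X] [DecidableEq X] {ι : Type} [Fintype ι] [DecidableEq ι] {n : ι → ℕ}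

theorem up_Q (x : X → ℂ) (p : MvPolynomial X Qbar) :
    MvPolynomial.eval x (up (MvPolynomial.map (algebraMap Qbar k) p)) = MvPolynomial.aeval x p := by
  rw [up, MvPolynomial.map_map, MvPolynomial.eval_map, ← IsScalarTower.algebraMap_eq Qbar k ℂ]
  rfl

/-- a section of the torsor over `k(x)` -/
theorem exists_sec1 (F : SympFam X n) (τ : k) (hτ : τ ≠ 0) (i : ι) :
    ∃ (c : MvPolynomial X k) (W : Matrix (Fin (n i)) (Fin (n i)) (MvPolynomial X k)), c ≠ 0 ∧
      W * (F.Q i).map (MvPolynomial.map (algebraMap Qbar k)) * W.transpose =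
        (c ^ 2 * MvPolynomial.C (τ ^ F.w i)) • (F.J i).map (algebraMap ℚ (MvPolynomial X k)) := by
  classical
  set R := MvPolynomial X k with hR
  set K := FractionRing R with hK
  set φ : R →+* K := algebraMap R K with hφ
  have hinj : Function.Injective φ := IsFractionRing.injective R K
  set QQ : Matrix (Fin (n i)) (Fin (n i)) R := (F.Q i).map (MvPolynomial.map (algebraMap Qbar k)) with hQQ
  set J0 : Matrix (Fin (n i)) (Fin (n i)) R := (F.J i).map (algebraMap ℚ R) with hJ0
  set JJ : Matrix (Fin (n i)) (Fin (n i)) R := (MvPolynomial.C (τ ^ F.w i) : R) • J0 with hJJ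
  have hQQa : QQ.transpose = -QQ := by
    rw [hQQ, ← Matrix.transpose_map, F.Q_alt]
    refine Matrix.ext fun a b => ?_
    rw [Matrix.map_apply, Matrix.neg_apply, Matrix.neg_apply, Matrix.map_apply, map_neg]
  have hJ0a : J0.transpose = -J0 := by
    rw [hJ0, ← Matrix.transpose_map, F.J_alt]
    refine Matrix.ext fun a b => ?_
    rw [Matrix.map_apply, Matrix.neg_apply, Matrix.neg_apply, Matrix.map_apply, map_neg]
  have hJJa : JJ.transpose = -JJ := by
    rw [hJJ, Matrix.transpose_smul, hJ0a, smul_neg]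
  have hma : ∀ A : Matrix (Fin (n i)) (Fin (n i)) R, A.transpose = -A → (A.map φ).transpose = -A.map φ := by
    intro A hA
    rw [← Matrix.transpose_map, hA]
    ext a b
    simp
  have hmd : ∀ A : Matrix (Fin (n i)) (Fin (n i)) R, A.det ≠ 0 → (A.map φ).det ≠ 0 := by
    intro A hA
    have h1 : (A.map φ).det = φ A.det := (RingHom.map_det φ _).symm
    rw [h1]
    exact fun h => hA (hinj (by rw [h, map_zero]))
  have hQd : QQ.det ≠ 0 := by
    intro h0
    obtain ⟨x, hx⟩ := F.nonempty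
    apply F.Qx_det hx i
    have h1 : F.Qx x i = QQ.map ((MvPolynomial.eval x).comp up) := by
      ext a b
      rw [hQQ, Matrix.map_apply, Matrix.map_apply, RingHom.comp_apply, up_Q]
      rfl
    have h2 : (QQ.map ((MvPolynomial.eval x).comp up)).det = ((MvPolynomial.eval x).comp up) QQ.det :=
      (RingHom.map_det ((MvPolynomial.eval x).comp up) _).symm
    rw [h1, h2, h0, map_zero]
  have hJd : JJ.det ≠ 0 := by
    have h1 : J0.det = algebraMap ℚ R (F.J i).det := (RingHom.map_det (algebraMap ℚ R) _).symm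
    rw [hJJ, Matrix.det_smul, h1]
    refine mul_ne_zero (pow_ne_zero _ ?_) ?_
    · rw [Ne, MvPolynomial.C_eq_zero]
      exact pow_ne_zero _ hτ
    · intro h0
      exact F.J_det i ((map_eq_zero_iff _ (algebraMap ℚ R).injective).1 h0)
  have : CharZero K := charZero_of_injective_algebraMap (algebraMap ℚ K).injective
  obtain ⟨U0, _, hU⟩ := Pool.Agent.Y122.HPDar.darboux (QQ.map φ) (JJ.map φ) (hma _ hQQa)
    (diag_of_alt (hma _ hQQa)) (hmd _ hQd) (hma _ hJJa) (diag_of_alt (hma _ hJJa)) (hmd _ hJd)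
  obtain ⟨b, hb⟩ := IsLocalization.exist_integer_multiples_of_finite (nonZeroDivisors R)
    (fun x : Fin (n i) × Fin (n i) => U0 x.1 x.2)
  choose u hu using hb
  set U : Matrix (Fin (n i)) (Fin (n i)) R := Matrix.of fun a b => u (a, b) with hUd
  have hUm : U.map φ = φ (b : R) • U0 := by
    ext i j
    rw [Matrix.map_apply, hUd, Matrix.of_apply, Matrix.smul_apply, smul_eq_mul]
    have := hu (i, j)
    rw [Algebra.smul_def] at this
    exact this
  set c : R := (b : R) with hc
  have hc0 : c ≠ 0 := nonZeroDivisors.ne_zero b.2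
  refine ⟨c, U, hc0, ?_⟩
  rw [← smul_smul]
  apply Matrix.map_injective hinj
  show (U * QQ * U.transpose).map φ = (c ^ 2 • JJ).map φ
  rw [Matrix.map_mul, Matrix.map_mul, Matrix.transpose_map, hUm]
  have e1 : (c ^ 2 • JJ).map φ = φ c ^ 2 • JJ.map φ := by
    ext a b
    simp [Matrix.smul_apply, smul_eq_mul]
  rw [e1, ← hU]
  rw [Matrix.transpose_smul, Matrix.smul_mul, Matrix.mul_smul, Matrix.smul_mul, smul_smul, ← sq]

/-- sections for all factors with a common denominator -/
theorem exists_sec2 (F : SympFam X n) (τ : k) (hτ : algebraMap k ℂ τ = tpi) :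
    ∃ (c : MvPolynomial X k) (W : ∀ i, Matrix (Fin (n i)) (Fin (n i)) (MvPolynomial X k)), c ≠ 0 ∧
      ∀ (x : X → ℂ), MvPolynomial.eval x (up c) ≠ 0 → ∀ i,
        ((MvPolynomial.eval x (up c))⁻¹ • (W i).map ((MvPolynomial.eval x).comp up)) * F.Qx x i *
          ((MvPolynomial.eval x (up c))⁻¹ • (W i).map ((MvPolynomial.eval x).comp up)).transpose =
          tpi ^ F.w i • F.Jx i := by
  classical
  have hτ0 : τ ≠ 0 := by
    rintro rfl
    rw [map_zero] at hτ
    exact tpi_ne hτ.symm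
  choose c W hc hW using exists_sec1 F τ hτ0
  refine ⟨∏ i, c i, fun i => (∏ j ∈ Finset.univ.erase i, c j) • W i, Finset.prod_ne_zero_iff.2 fun i _ => hc i, ?_⟩
  intro x hx i
  set ψ : MvPolynomial X k →+* ℂ := (MvPolynomial.eval x).comp up with hψ
  have hψc : MvPolynomial.eval x (up (∏ i, c i)) = ψ (∏ i, c i) := rfl
  rw [hψc] at hx ⊢
  have h0 : ψ (∏ i, c i) = ψ (c i) * ψ (∏ j ∈ Finset.univ.erase i, c j) := by
    rw [← map_mul, Finset.mul_prod_erase _ _ (Finset.mem_univ i)]
  have h1 : ((W i).map ψ) * F.Qx x i * ((W i).map ψ).transpose = (ψ (c i) ^ 2 * tpi ^ F.w i) • F.Jx i := by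
    have h2 := congrArg (fun M : Matrix (Fin (n i)) (Fin (n i)) (MvPolynomial X k) => M.map ψ) (hW i)
    simp only [Matrix.map_mul] at h2
    rw [Matrix.transpose_map] at h2
    have h3 : ((F.Q i).map (MvPolynomial.map (algebraMap Qbar k))).map ψ = F.Qx x i := by
      ext a b
      rw [Matrix.map_apply, Matrix.map_apply, hψ, RingHom.comp_apply, up_Q]
      rfl
    rw [h3] at h2
    rw [h2]
    refine Matrix.ext fun a b => ?_
    rw [Matrix.map_apply, Matrix.smul_apply, Matrix.map_apply, smul_eq_mul, map_mul, map_mul, map_pow,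
      Matrix.smul_apply, SympFam.Jx, Matrix.map_apply, smul_eq_mul]
    congr 1
    · congr 1
      rw [hψ, RingHom.comp_apply, up, MvPolynomial.map_C, MvPolynomial.eval_C, map_pow, hτ]
    · exact RingHom.congr_fun (Subsingleton.elim (ψ.comp (algebraMap ℚ (MvPolynomial X k))) (algebraMap ℚ ℂ)) _
  have h4 : ((∏ j ∈ Finset.univ.erase i, c j) • W i).map ψ = ψ (∏ j ∈ Finset.univ.erase i, c j) • (W i).map ψ := by
    ext a b
    simp [Matrix.smul_apply, smul_eq_mul]
  have h5 : ψ (∏ j ∈ Finset.univ.erase i, c j) ≠ 0 := by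
    intro h
    apply hx
    rw [h0, h, mul_zero]
  have h6 : ψ (c i) ≠ 0 := by
    intro h
    apply hx
    rw [h0, h, zero_mul]
  rw [h4, smul_smul, Matrix.transpose_smul, Matrix.smul_mul, Matrix.mul_smul, Matrix.smul_mul, h1, smul_smul,
    smul_smul, h0]
  congr 1
  field_simp

/-- substitution of a linear expression in new variables -/
noncomputable def subB (B : ∀ i, Matrix (Fin (n i)) (Fin (n i)) ℂ) (x : X → ℂ)
    (p : MvPolynomial (Ix n) (MvPolynomial X ℂ)) : MvPolynomial (Ix n) ℂ :=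
  MvPolynomial.eval₂ ((MvPolynomial.C).comp (MvPolynomial.eval x)) (fun q => ∑ k, MvPolynomial.X ⟨q.1, (q.2.1, k)⟩ *
    MvPolynomial.C (B q.1 k q.2.2)) p

theorem subB_eval (B : ∀ i, Matrix (Fin (n i)) (Fin (n i)) ℂ) (x : X → ℂ)
    (p : MvPolynomial (Ix n) (MvPolynomial X ℂ))
    (M : ∀ i, Matrix (Fin (n i)) (Fin (n i)) ℂ) : MvPolynomial.eval (fun q => M q.1 q.2.1 q.2.2) (subB B x p) =
      evX x (fun q => (M q.1 * B q.1) q.2.1 q.2.2) p := by
  unfold subB evX
  rw [MvPolynomial.hom_eval₂]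
  congr 1
  · ext a
    · simp
    · simp
  · funext q
    simp [Matrix.mul_apply]

/-- **The relations between the periods are defined over `k(x)`.** -/
theorem desc_symp (F : SympFam X n) (τ : k) (hτ : algebraMap k ℂ τ = tpi) : Desc k F.U F.f := by
  classical
  obtain ⟨c, W, hc, hW⟩ := exists_sec2 F τ hτ
  intro ℓ P hP
  have hup : up c ≠ (0 : MvPolynomial X ℂ) := fun h0 => hc (up_inj (by rw [h0, map_zero]))
  have hf : ∀ q, AnalyticOnNhd ℂ (F.f q) F.U := fun q => F.an q.1 q.2.1 q.2.2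
  -- the open set
  set V : Set (X → ℂ) := {x | x ∈ F.U ∧ MvPolynomial.eval x (up c) ≠ 0} with hV
  have hVo : IsOpen V := by
    have h1 : ContinuousOn (fun x => MvPolynomial.eval x (up c)) F.U :=
      (MvPolynomial.continuous_eval (up c)).continuousOn
    exact h1.isOpen_inter_preimage F.isOpen isOpen_compl_singleton
  have hVne : V.Nonempty := by
    by_contra hcon
    apply hup
    refine poly_zero F.isOpen F.nonempty _ fun x hx => ?_
    by_contra hne
    exact hcon ⟨x, hx, hne⟩
  refine ev_ext F.conn hf hVo hVne (fun x hx => hx.1) _ ?_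
  rintro x ⟨hxU, hxc⟩
  -- the sections
  obtain ⟨B, hB⟩ : ∃ B : (X → ℂ) → ∀ i, Matrix (Fin (n i)) (Fin (n i)) ℂ, ∀ x i,
      B x i = (MvPolynomial.eval x (up c))⁻¹ • (W i).map ((MvPolynomial.eval x).comp up) := ⟨_, fun _ _ => rfl⟩
  have hWB : ∀ (x : X → ℂ), MvPolynomial.eval x (up c) ≠ 0 → ∀ i,
      B x i * F.Qx x i * (B x i).transpose = tpi ^ F.w i • F.Jx i := by
    intro x hx i
    rw [hB]
    exact hW x hx i
  have hsec : ∀ γ ∈ F.Γ, evX x (fun q => ((γ q.1).map (algebraMap ℚ ℂ) * B x q.1) q.2.1 q.2.2) (up2 (lcY ℓ P)) = 0 := by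
    intro γ hγ
    obtain ⟨v, hv0⟩ : ∃ v : Ix n → MvPolynomial X k, ∀ q, v q =
      ((γ q.1).map (algebraMap ℚ (MvPolynomial X k)) * W q.1) q.2.1 q.2.2 := ⟨_, fun _ => rfl⟩
    have hv : ∀ z : X → ℂ, (fun q : Ix n => MvPolynomial.eval z (up (v q)) / MvPolynomial.eval z (up c)) =
        fun q => ((γ q.1).map (algebraMap ℚ ℂ) * B z q.1) q.2.1 q.2.2 := by
      intro z
      funext q
      have h2 : ∀ r : ℚ, MvPolynomial.eval z (up (algebraMap ℚ (MvPolynomial X k) r)) = algebraMap ℚ ℂ r := fun r =>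
        RingHom.congr_fun (Subsingleton.elim (((MvPolynomial.eval z).comp up).comp (algebraMap ℚ (MvPolynomial X k)))
          (algebraMap ℚ ℂ)) r
      rw [hv0, hB]
      simp only [Matrix.mul_apply, Matrix.map_apply, Matrix.smul_apply, smul_eq_mul, map_sum, map_mul, h2,
        Finset.sum_div, RingHom.comp_apply]
      refine Finset.sum_congr rfl fun j _ => ?_
      ring
    have hin : ∀ z ∈ F.U, MvPolynomial.eval z (up c) ≠ 0 →
        evX z (fun y => MvPolynomial.eval z (up (v y)) / MvPolynomial.eval z (up c)) P = 0 := by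
      intro z hz hzc
      rw [hv z]
      have hmem := F.mem_tor z (fun i => (γ i).map (algebraMap ℚ ℂ) * B z i) (fun i => by
        refine sp_mul ?_ (hWB z hzc i)
        have h7 := congrArg (fun M : Matrix (Fin (n i)) (Fin (n i)) ℚ => M.map (algebraMap ℚ ℂ)) (F.pres γ hγ i)
        simp only [Matrix.map_mul] at h7
        rw [Matrix.transpose_map] at h7
        exact h7)
      exact F.tor.inv P hP z hz _ hmem
    have h1 := clr_zero ℓ P v c hc F.isOpen F.nonempty hin x hxc
    rw [hv x] at h1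
    exact h1
  have h1 := fun i => sp_diff (pow_ne_zero (F.w i) tpi_ne) (F.Jx_det i) (F.riemann x hxU i) (hWB x hxc i)
  have h3 := F.dense (subB (B x) x (up2 (lcY ℓ P))) (fun γ hγ => by
    rw [subB_eval (B x) x _ fun i => (γ i).map (algebraMap ℚ ℂ)]
    exact hsec γ hγ) (fun i => F.P i x * (B x i)⁻¹) (fun i => (h1 i).1)
  have h5 := (subB_eval (B x) x (up2 (lcY ℓ P)) (fun i => F.P i x * (B x i)⁻¹)).symm.trans h3
  have h4 : (fun q : Ix n => (F.P q.1 x * (B x q.1)⁻¹ * B x q.1) q.2.1 q.2.2) = fun q => F.f q x := by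
    funext q
    rw [(h1 q.1).2]
    rfl
  rw [h4] at h5
  exact h5

end Pool.Agent.U543.NR
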