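import Pool.Agent.U543.NrDef
import Pool.Agent.U543.GalDef

/-!
# Linear relations between periods with arbitrary complex coefficients: definitions
-/

set_option autoImplicit false

open NumberField

namespace Pool.Agent.U543.PZ

open Pool.Agent.Y890.SM (Ix SympFam tpi)
open Pool.Agent.U543.NR (val Bounded)
open Pool.Agent.U543.GD (Height Inner)

variable {X : Type} [Fintype X] {ι : Type} {n : ι → ℕ}

/-- The points `s` of `U` with coordinates in `K` of height at most `T`, of norm at most `k` and at distance at least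
`1 / k` from the complement of `U`, at which a linear combination with the given complex coefficients `z i` of some
polynomials `Φ i` in the periods `P(s)` and `2 π i`, `Bounded k T`, has absolute value at most `δ`, although no linear
combination of these polynomials with coefficients `w i`, `|w i - z i| ≤ ρ`, vanishes on the torsor at `s`. -/
def Near (F : SympFam X n) (k : ℕ) (K : Type) [Field K] [NumberField K] (io : K →+* ℂ) (z : Fin k → ℂ) (T δ ρ : ℝ) :
    Set (X → K) :=
  {s | (∀ j, s j ∈ Height K T) ∧ (fun j => io (s j)) ∈ Inner F.U k ∧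
    ∃ Φ : Fin k → MvPolynomial (Option (Ix n)) (𝓞 K), (∀ i, Bounded k T (Φ i)) ∧
      ‖∑ i, z i * val io (Φ i) (fun a => F.P a fun j => io (s j)) tpi‖ ≤ δ ∧
      ∀ w : Fin k → ℂ, (∀ i, ‖w i - z i‖ ≤ ρ) →
        ∃ Y, (Y, tpi) ∈ F.torsor (fun j => io (s j)) ∧ ∑ i, w i * val io (Φ i) Y tpi ≠ 0}

/-- The points `s` as before at which a combination `ζ = ∑ c i z i` of the given complex numbers `z i`, the `c i` being
integers of `K` with conjugates at most `T ^ k`, is near a quotient of two polynomials `Φ`, `Ψ` in the periods `P(s)` and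
`2 π i`, `Bounded k T`, in the form `|Φ - ζ Ψ| ≤ δ`, although `Φ` and `Ψ` are not proportional on the torsor at `s`
(if `Ψ = 1`: although `Φ` is not constant on the torsor). -/
def Approx (F : SympFam X n) (k : ℕ) (K : Type) [Field K] [NumberField K] (io : K →+* ℂ) (z : Fin k → ℂ) (T δ : ℝ) :
    Set (X → K) :=
  {s | (∀ j, s j ∈ Height K T) ∧ (fun j => io (s j)) ∈ Inner F.U k ∧
    ∃ (Φ Ψ : MvPolynomial (Option (Ix n)) (𝓞 K)) (c : Fin k → 𝓞 K), Bounded k T Φ ∧ Bounded k T Ψ ∧
      (∀ i, house (c i : K) ≤ T ^ k) ∧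
      ‖val io Φ (fun a => F.P a fun j => io (s j)) tpi -
        (∑ i, io (c i : K) * z i) * val io Ψ (fun a => F.P a fun j => io (s j)) tpi‖ ≤ δ ∧
      ∃ Y Y', (Y, tpi) ∈ F.torsor (fun j => io (s j)) ∧ (Y', tpi) ∈ F.torsor (fun j => io (s j)) ∧
        val io Φ Y tpi * val io Ψ Y' tpi ≠ val io Φ Y' tpi * val io Ψ Y tpi}

end Pool.Agent.U543.PZ
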