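import Pool.Agent.U543.NrNear

/-! Relations over `ℂ[x]` are combinations of relations over `k[x]`. -/

set_option autoImplicit false
set_option linter.unusedSectionVars false

open NumberField

namespace Pool.Agent.U543.PZ

open Pool.Agent.Y890.MV
open Pool.Agent.U543.NR

/-- the relation with given coefficients in a box -/
noncomputable def rel {R σ X : Type} [CommRing R] [Fintype σ] [DecidableEq σ] {δ : ℕ} (g : (σ → Fin (δ + 1)) → MvPolynomial X R) :
    MvPolynomial σ (MvPolynomial X R) :=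
  ∑ l, MvPolynomial.monomial (Finsupp.equivFunOnFinite.symm fun y => (l y : ℕ)) (g l)

theorem rel_evX {X σ : Type} [Fintype σ] [DecidableEq σ] {δ : ℕ} (g : (σ → Fin (δ + 1)) → MvPolynomial X ℂ) (t : X → ℂ) (Y : σ → ℂ) :
    evX t Y (rel g) = ∑ l, MvPolynomial.eval t (g l) * ∏ y, Y y ^ (l y : ℕ) := by
  rw [rel, evX, MvPolynomial.eval₂_sum]
  refine Finset.sum_congr rfl fun l _ => ?_
  rw [MvPolynomial.eval₂_monomial, Finsupp.prod_fintype _ _ (fun _ => pow_zero _)]
  rfl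

theorem rel_up2 {k : Type} [Field k] [Algebra k ℂ] {X σ : Type} [Fintype σ] [DecidableEq σ] {δ : ℕ}
    (g : (σ → Fin (δ + 1)) → MvPolynomial X k) : up2 (rel g) = rel fun l => up (g l) := by
  rw [rel, rel, map_sum]
  refine Finset.sum_congr rfl fun l _ => ?_
  rw [up2, MvPolynomial.map_monomial]

theorem rel_lcY {k : Type} [Field k] [Algebra k ℂ] {X σ : Type} [Fintype σ] [DecidableEq σ] {δ : ℕ} (ℓ : ℂ →ₗ[k] k)
    (g : (σ → Fin (δ + 1)) → MvPolynomial X ℂ) : lcY ℓ (rel g) = rel fun l => lcX ℓ (g l) := by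
  classical
  ext1 m
  rw [lcY_coeff, rel, rel, MvPolynomial.coeff_sum, MvPolynomial.coeff_sum, lcX_sum]
  refine Finset.sum_congr rfl fun l _ => ?_
  rw [MvPolynomial.coeff_monomial, MvPolynomial.coeff_monomial]
  split_ifs
  · rfl
  · exact lcX_zero ℓ

/-- **Decomposition of relations.** -/
theorem decomp {k : Type} [Field k] [Algebra k ℂ] {X σ Λ' : Type} [Fintype X] [Fintype σ] [DecidableEq σ] [Fintype Λ']
    {U : Set (X → ℂ)} {f : σ → (X → ℂ) → ℂ} (hD : Desc k U f) {δ : ℕ}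
    (G : Λ' → (σ → Fin (δ + 1)) → MvPolynomial X ℂ)
    (hG : ∀ l₀, ∀ x ∈ U, ∑ l, MvPolynomial.eval x (G l₀ l) * ∏ y, f y x ^ (l y : ℕ) = 0) :
    ∃ (d : ℕ) (a : Fin d → ℂ) (G' : Λ' → Fin d → (σ → Fin (δ + 1)) → MvPolynomial X k),
      (∀ l₀ j, ∀ x ∈ U, evM f x (up2 (rel (G' l₀ j))) = 0) ∧
      ∀ l₀ l, G l₀ l = ∑ j, MvPolynomial.C (a j) * up (G' l₀ j l) := by
  classical
  let S : Set ℂ := ⋃ l₀, ⋃ l, (fun m => (G l₀ l).coeff m) '' ((G l₀ l).support : Set (X →₀ ℕ))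
  have hS : S.Finite := Set.finite_iUnion fun l₀ => Set.finite_iUnion fun l => (Finset.finite_toSet _).image _
  let V : Submodule k ℂ := Submodule.span k S
  have : FiniteDimensional k V := FiniteDimensional.span_of_finite k hS
  let b := Module.finBasis k V
  have hℓ : ∀ j, ∃ ℓ : ℂ →ₗ[k] k, ℓ ∘ₗ V.subtype = b.coord j := fun j => LinearMap.exists_extend _
  choose ℓ hℓ using hℓ
  have hV : ∀ z ∈ V, z = ∑ j, (b j : ℂ) * algebraMap k ℂ (ℓ j z) := by
    intro z hz
    have h1 := congrArg (fun v : V => (v : ℂ)) (b.sum_repr ⟨z, hz⟩)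
    simp only [Submodule.coe_sum, Submodule.coe_smul] at h1
    rw [← h1]
    refine Finset.sum_congr rfl fun j _ => ?_
    have h2 := LinearMap.congr_fun (hℓ j) ⟨z, hz⟩
    simp only [LinearMap.comp_apply, Submodule.subtype_apply, Module.Basis.coord_apply] at h2
    rw [h1, h2, Algebra.smul_def, mul_comm]
  refine ⟨_, fun j => (b j : ℂ), fun l₀ j l => lcX (ℓ j) (G l₀ l), fun l₀ j x hx => ?_, fun l₀ l => ?_⟩
  · have h1 := hD (ℓ j) (rel (G l₀)) (fun x hx => by
      have h2 := rel_evX (G l₀) x (fun i => f i x)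
      rw [evM_eq, h2]
      exact hG l₀ x hx) x hx
    rw [rel_lcY] at h1
    exact h1
  · ext m
    rw [MvPolynomial.coeff_sum]
    simp only [MvPolynomial.coeff_C_mul, up_coeff, lcX_coeff]
    refine hV _ ?_
    by_cases hm : m ∈ (G l₀ l).support
    · refine Submodule.subset_span ?_
      exact Set.mem_iUnion.2 ⟨l₀, Set.mem_iUnion.2 ⟨l, ⟨m, hm, rfl⟩⟩⟩
    · rw [MvPolynomial.notMem_support_iff.1 hm]
      exact V.zero_mem

end Pool.Agent.U543.PZ
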