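import Pool.Agent.U543.PzMain
import Pool.Agent.U543.PzDef
import Pool.Agent.U543.NrMain

/-!
# Linear relations between periods with arbitrary complex coefficients
-/

set_option autoImplicit false
set_option linter.unusedSectionVars false

open NumberField Filter

namespace Pool.Agent.U543.PZ

open Pool.Agent.Y890.MV
open Pool.Agent.Y890.SM
open Pool.Agent.Y124 (Cov)
open Pool.Agent.U543.NR
open Pool.Agent.U543.GD (Height Inner)

variable {X : Type} [Fintype X] [DecidableEq X] [Nonempty X] {ι : Type} [Fintype ι] [DecidableEq ι] {n : ι → ℕ}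

/-- near linear relations, for families with symplectic monodromy -/
theorem lin_symp (F : SympFam X n) (k m : ℕ) (hk : 0 < k) (δ r : ℕ) {h : Type} [Fintype h] [DecidableEq h]
    (A A₁ ε : ℝ) (hε : 0 < ε) :
    ∃ (D : ℕ) (B C T₀ : ℝ), 0 ≤ C ∧ 2 ≤ T₀ ∧ ∀ (K : Type) [Field K] [NumberField K], Module.finrank ℚ K ≤ m →
      ∀ (io : K →+* ℂ) (ξ : h → ℂ) (T : ℝ), T₀ ≤ T → (∀ i, ‖ξ i‖ ≤ T ^ A) →
        Cov D ⌊C * T ^ ε⌋₊ {t : X → ℂ | t ∈ InnerM F.U k ∧ ∃ s : X → K,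
          (∀ i, Y120.HtLe K T (s i)) ∧ (t = fun i => io (s i)) ∧ ∃ c : (Ix n → Fin (δ + 1)) → h → Fin r → 𝓞 K,
            (∀ l i a (φ : K →+* ℂ), ‖φ (c l i a : K)‖ ≤ T ^ A) ∧
            ‖∑ l, (∑ i, ξ i * ∑ a : Fin r, tpi ^ (a : ℕ) * io (c l i a : K)) * ∏ y, F.f y t ^ (l y : ℕ)‖ ≤ T ^ (-B) ∧
            ¬ ∃ ξ' : h → ℂ, (∀ i, ‖ξ' i - ξ i‖ ≤ T ^ (-A₁)) ∧ ∀ Y ∈ F.Tor t,
              ∑ l, (∑ i, ξ' i * ∑ a : Fin r, tpi ^ (a : ℕ) * io (c l i a : K)) * ∏ y, Y y ^ (l y : ℕ) = 0} := by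
  classical
  have hf : ∀ q, AnalyticOnNhd ℂ (F.f q) F.U := fun q => F.an q.1 q.2.1 q.2.2
  obtain ⟨D, B, C, T₀, hC, hT₀, H⟩ := lin_stab (k := Kτ) (lb_adjoin measT_tpi) F.conn F.isOpen F.nonempty hf
    (F.tor.reg F.conn hf) (desc_symp F τ₀ τ₀_coe) (InnerM F.U k) (innerM_compact _ _) (innerM_sub _ hk) δ (h := h)
    (fun i : Fin r => τ₀ ^ (i : ℕ)) m A A₁ ε hε
  refine ⟨D, B, C, T₀, hC, hT₀, fun K _ _ hK io ξ T hT hξ => (H K hK io ξ T hT hξ).mono le_rfl le_rfl ?_⟩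
  have h6 : ∀ i : Fin r, algebraMap Kτ ℂ (τ₀ ^ (i : ℕ)) = tpi ^ (i : ℕ) := fun i => by
    rw [map_pow, τ₀_coe]
  rintro t ⟨h1, s, h2, h3, c, hc, h4, h5⟩
  refine ⟨h1, s, h2, h3, c, hc, ?_, ?_⟩
  · simp only [h6]
    exact h4
  · rintro ⟨ξ', hξ', h7⟩
    simp only [h6] at h7
    exact h5 ⟨ξ', hξ', fun Y hY => h7 Y fun H hH => F.tor.inv _ hH t (innerM_sub _ hk h1) Y hY⟩

/-- sums of values -/
theorem sum_val {K : Type} [Field K] (io : K →+* ℂ) {k : ℕ} {h : Type} [Fintype h] (w : h → ℂ)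
    (Φ : h → MvPolynomial (Option (Ix n)) (𝓞 K)) (hΦ : ∀ i j, (Φ i).degreeOf j ≤ k)
    (Y : ∀ i, Matrix (Fin (n i)) (Fin (n i)) ℂ) (μ : ℂ) :
    ∑ i, w i * val io (Φ i) Y μ = ∑ l : Ix n → Fin (k + 1), (∑ i, w i * ∑ a : Fin (k + 1), μ ^ (a : ℕ) *
      io (cf (Φ i) l a : K)) * ∏ y : Ix n, (Y y.1 y.2.1 y.2.2) ^ (l y : ℕ) := by
  simp only [Finset.sum_mul]
  rw [Finset.sum_comm]
  refine Finset.sum_congr rfl fun i _ => ?_
  rw [val_eq io (Φ i) (hΦ i), Finset.mul_sum]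
  refine Finset.sum_congr rfl fun l _ => ?_
  rw [mul_assoc]

theorem near_cov (F : SympFam X n) (k : ℕ) (ε : ℝ) (hε : 0 < ε) :
    ∃ (D : ℕ) (B C T₀ : ℝ), 0 ≤ C ∧ 2 ≤ T₀ ∧ ∀ (K : Type) [Field K] [NumberField K], Module.finrank ℚ K ≤ k →
      ∀ (io : K →+* ℂ) (z : Fin k → ℂ) (T : ℝ), T₀ ≤ T → (∀ i, ‖z i‖ ≤ T ^ k) → ∀ δ ≤ T ^ (-B),
        Cov D ⌊C * T ^ ε⌋₊ ((fun (s : X → K) j => io (s j)) '' Near F k K io z T δ (T ^ (-(k : ℝ)))) := by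
  classical
  rcases Nat.eq_zero_or_pos k with hk | hk
  · refine ⟨0, 0, 0, 2, le_rfl, le_rfl, ?_⟩
    intro K _ _ hK
    have h1 : 0 < Module.finrank ℚ K := Module.finrank_pos
    omega
  obtain ⟨D, B, C, T₀, hC, hT₀, H⟩ := lin_symp F k k hk k (k + 1) (h := Fin k) (k : ℝ) (k : ℝ) ε hε
  refine ⟨D, B, C, T₀, hC, hT₀, fun K _ _ hK io z T hT hz δ hδ => (H K hK io z T hT (fun i => by
    rw [Real.rpow_natCast]
    exact hz i)).mono le_rfl le_rfl ?_⟩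
  rintro _ ⟨s, ⟨h1, h2, Φ, hΦ, hn, hno⟩, rfl⟩
  refine ⟨h2, s, h1, rfl, fun l i a => cf (Φ i) l a, fun l i a φ => ?_, ?_, ?_⟩
  · rw [Real.rpow_natCast]
    exact (Y120.house_ge K _ φ).trans ((hΦ i).2 _)
  · rw [sum_val io z Φ fun i => (hΦ i).1] at hn
    exact hn.trans hδ
  · rintro ⟨w, hw, h3⟩
    obtain ⟨Y, hY, h4⟩ := hno w hw
    apply h4
    rw [sum_val io w Φ fun i => (hΦ i).1]
    exact h3 (fun q : Ix n => Y q.1 q.2.1 q.2.2) (fun i => hY.2 i)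

theorem approx_cov (F : SympFam X n) (k : ℕ) (ε : ℝ) (hε : 0 < ε) :
    ∃ (D : ℕ) (B C T₀ : ℝ), 0 ≤ C ∧ 2 ≤ T₀ ∧ ∀ (K : Type) [Field K] [NumberField K], Module.finrank ℚ K ≤ k →
      ∀ (io : K →+* ℂ) (z : Fin k → ℂ) (T : ℝ), T₀ ≤ T → (∀ i, ‖z i‖ ≤ T ^ k) → ∀ δ ≤ T ^ (-B),
        Cov D ⌊C * T ^ ε⌋₊ ((fun (s : X → K) j => io (s j)) '' Approx F k K io z T δ) := by
  classical
  rcases Nat.eq_zero_or_pos k with hk | hk
  · refine ⟨0, 0, 0, 2, le_rfl, le_rfl, ?_⟩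
    intro K _ _ hK
    have h1 : 0 < Module.finrank ℚ K := Module.finrank_pos
    omega
  obtain ⟨D, B, C, T₀, hC, hT₀, H⟩ := lin_symp F k k hk k (k + 1) (h := Option (Fin k)) ((k + k : ℕ) : ℝ) 1 ε hε
  refine ⟨D, B, C, T₀, hC, hT₀, fun K _ _ hK io z T hT hz δ hδ => ?_⟩
  have hT2 : 2 ≤ T := hT₀.trans hT
  have hT1 : 1 ≤ T := by linarith
  have hTp : 0 < T := by linarith
  have hTk : 1 ≤ T ^ k := one_le_pow₀ hT1
  have hTk2 : T ^ k ≤ T ^ (k + k) := pow_le_pow_right₀ hT1 (by omega)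
  refine (H K hK io (fun o => o.elim 1 z) T hT (fun i => ?_)).mono le_rfl le_rfl ?_
  · rw [Real.rpow_natCast]
    rcases i with _ | i
    · show ‖(1 : ℂ)‖ ≤ _
      rw [norm_one]
      exact hTk.trans hTk2
    · exact (hz i).trans hTk2
  rintro _ ⟨s, ⟨h1, h2, Φ, Ψ, c, hΦ, hΨ, hc, hn, Y, Y', hY, hY', hne⟩, rfl⟩
  let cc : (Ix n → Fin (k + 1)) → Option (Fin k) → Fin (k + 1) → 𝓞 K :=
    fun l o a => o.elim (cf Φ l a) fun i => -(c i * cf Ψ l a)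
  have hsum : ∀ (w : Option (Fin k) → ℂ) (Y : ∀ i, Matrix (Fin (n i)) (Fin (n i)) ℂ),
      ∑ l : Ix n → Fin (k + 1), (∑ o, w o * ∑ a : Fin (k + 1), tpi ^ (a : ℕ) * io (cc l o a : K)) *
        ∏ y : Ix n, (Y y.1 y.2.1 y.2.2) ^ (l y : ℕ) =
      w none * val io Φ Y tpi - (∑ i, io (c i : K) * w (some i)) * val io Ψ Y tpi := by
    intro w Y
    rw [val_eq io Φ hΦ.1, val_eq io Ψ hΨ.1, Finset.mul_sum, Finset.mul_sum, ← Finset.sum_sub_distrib]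
    refine Finset.sum_congr rfl fun l _ => ?_
    rw [Fintype.sum_option]
    have h3 : ∀ i, ∑ a : Fin (k + 1), tpi ^ (a : ℕ) * io (cc l (some i) a : K) =
        -(io (c i : K) * ∑ a : Fin (k + 1), tpi ^ (a : ℕ) * io (cf Ψ l a : K)) := by
      intro i
      rw [Finset.mul_sum, ← Finset.sum_neg_distrib]
      refine Finset.sum_congr rfl fun a _ => ?_
      have h4 : ((cc l (some i) a : 𝓞 K) : K) = -((c i : K) * (cf Ψ l a : K)) := by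
        show ((-(c i * cf Ψ l a) : 𝓞 K) : K) = _
        simp
      rw [h4, map_neg, map_mul]
      ring
    simp only [h3]
    have h5 : ∀ a, cc l none a = cf Φ l a := fun a => rfl
    simp only [h5]
    have h6 : ∑ i, w (some i) * -(io (c i : K) * ∑ a : Fin (k + 1), tpi ^ (a : ℕ) * io (cf Ψ l a : K)) =
        -((∑ i, io (c i : K) * w (some i)) * ∑ a : Fin (k + 1), tpi ^ (a : ℕ) * io (cf Ψ l a : K)) := by
      rw [Finset.sum_mul, ← Finset.sum_neg_distrib]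
      refine Finset.sum_congr rfl fun i _ => ?_
      ring
    rw [h6]
    ring
  refine ⟨h2, s, h1, rfl, cc, fun l o a φ => ?_, ?_, ?_⟩
  · rw [Real.rpow_natCast]
    rcases o with _ | i
    · exact ((Y120.house_ge K _ φ).trans (hΦ.2 _)).trans hTk2
    · have h4 : ((cc l (some i) a : 𝓞 K) : K) = -((c i : K) * (cf Ψ l a : K)) := by
        show ((-(c i * cf Ψ l a) : 𝓞 K) : K) = _
        simp
      rw [h4, map_neg, map_mul, norm_neg, norm_mul, pow_add]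
      exact mul_le_mul ((Y120.house_ge K _ φ).trans (hc i)) ((Y120.house_ge K _ φ).trans (hΨ.2 _)) (norm_nonneg _)
        (by positivity)
  · have h3 := hsum (fun o => o.elim 1 z) (fun a => F.P a fun j => io (s j))
    have h4 : (Option.elim (none : Option (Fin k)) 1 z : ℂ) = 1 := rfl
    have h5 : ∀ i, (Option.elim (some i : Option (Fin k)) 1 z : ℂ) = z i := fun i => rfl
    simp only [h4, h5, one_mul] at h3
    refine le_trans (le_of_eq ?_) (hn.trans hδ)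
    rw [← h3]
    rfl
  · rintro ⟨w, hw, h3⟩
    apply hne
    have h4 : ∀ Y, (Y, tpi) ∈ F.torsor (fun j => io (s j)) →
        w none * val io Φ Y tpi = (∑ i, io (c i : K) * w (some i)) * val io Ψ Y tpi := by
      intro Y hY
      have h5 := h3 (fun q : Ix n => Y q.1 q.2.1 q.2.2) (fun i => hY.2 i)
      have h6 := hsum w Y
      rw [sub_eq_zero.1 (h6.symm.trans h5)]
    have hw0 : w none ≠ 0 := by
      intro h0
      have h5 := hw none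
      rw [h0] at h5
      have h6 : ‖(0 : ℂ) - 1‖ = 1 := by simp
      have h7 : (Option.elim (none : Option (Fin k)) 1 z : ℂ) = 1 := rfl
      rw [h7, h6, Real.rpow_neg_one] at h5
      have h8 : T⁻¹ ≤ 2⁻¹ := inv_anti₀ (by norm_num) hT2
      norm_num at h8 h5
      linarith
    apply mul_left_cancel₀ hw0
    rw [← mul_assoc, h4 Y hY, ← mul_assoc, h4 Y' hY']
    ring

/-- both sets -/
theorem both_cov (F : SympFam X n) (k : ℕ) (ε : ℝ) (hε : 0 < ε) :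
    ∃ (B D : ℕ) (C T₀ : ℝ), 0 ≤ C ∧ 2 ≤ T₀ ∧ ∀ (K : Type) [Field K] [NumberField K], Module.finrank ℚ K ≤ k →
      ∀ (io : K →+* ℂ) (z : Fin k → ℂ) (T : ℝ), T₀ ≤ T → (∀ i, ‖z i‖ ≤ T ^ k) → ∀ δ ≤ T ^ (-(B : ℝ)),
        Cov D ⌊C * T ^ ε⌋₊ ((fun (s : X → K) j => io (s j)) ''
          (Near F k K io z T δ (T ^ (-(k : ℝ))) ∪ Approx F k K io z T δ)) := by
  obtain ⟨D₁, B₁, C₁, T₁, hC₁, hT₁, H₁⟩ := near_cov F k ε hε
  obtain ⟨D₂, B₂, C₂, T₂, hC₂, hT₂, H₂⟩ := approx_cov F k ε hε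
  refine ⟨⌈max B₁ B₂⌉₊, max D₁ D₂, C₁ + C₂, max T₁ T₂, by positivity, hT₁.trans (le_max_left _ _), ?_⟩
  intro K _ _ hK io z T hT hz δ hδ
  have hTa : T₁ ≤ T := (le_max_left _ _).trans hT
  have hTb : T₂ ≤ T := (le_max_right _ _).trans hT
  have hT1 : 1 ≤ T := by linarith
  have hB : max B₁ B₂ ≤ (⌈max B₁ B₂⌉₊ : ℝ) := Nat.le_ceil _
  have hδ₁ : δ ≤ T ^ (-B₁) := hδ.trans (Real.rpow_le_rpow_of_exponent_le hT1
    (neg_le_neg ((le_max_left _ _).trans hB)))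
  have hδ₂ : δ ≤ T ^ (-B₂) := hδ.trans (Real.rpow_le_rpow_of_exponent_le hT1
    (neg_le_neg ((le_max_right _ _).trans hB)))
  have hc1 := (H₁ K hK io z T hTa hz δ hδ₁).mono (le_max_left D₁ D₂) le_rfl (Set.Subset.refl _)
  have hc2 := (H₂ K hK io z T hTb hz δ hδ₂).mono (le_max_right D₁ D₂) le_rfl (Set.Subset.refl _)
  rw [Set.image_union]
  refine (hc1.union hc2).mono le_rfl ?_ (Set.Subset.refl _)
  apply Nat.le_floor
  push_cast
  have h7 := Nat.floor_le (a := C₁ * T ^ ε) (by positivity)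
  have h8 := Nat.floor_le (a := C₂ * T ^ ε) (by positivity)
  nlinarith

theorem both_fix (F : SympFam X n) (k : ℕ) (ε : ℝ) (hε : 0 < ε) :
    ∃ (B D : ℕ) (C T₀ : ℝ), 0 ≤ C ∧ 2 ≤ T₀ ∧ ∀ T, T₀ ≤ T → ∀ (K : Type) [Field K] [NumberField K],
      Module.finrank ℚ K ≤ k → ∀ (io : K →+* ℂ) (z : Fin k → ℂ), (∀ i, ‖z i‖ ≤ T ^ k) →
        Cov D ⌊C * T ^ ε⌋₊ ((fun (s : X → K) j => io (s j)) ''
          (Near F k K io z T (T ^ (-(B : ℝ))) (T ^ (-(k : ℝ))) ∪ Approx F k K io z T (T ^ (-(B : ℝ))))) ∧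
        (Near F k K io z T (T ^ (-(B : ℝ))) (T ^ (-(k : ℝ))) ∪ Approx F k K io z T (T ^ (-(B : ℝ)))).Finite ∧
        ((Near F k K io z T (T ^ (-(B : ℝ))) (T ^ (-(k : ℝ))) ∪ Approx F k K io z T (T ^ (-(B : ℝ)))).ncard : ℝ) ≤
          D * C * T ^ ε * ((Height K T).ncard : ℝ) ^ (Fintype.card X - 1) := by
  obtain ⟨B, D, C, T₀, hC, hT₀, H⟩ := both_cov F k ε hε
  refine ⟨B, D, C, T₀, hC, hT₀, fun T hT K _ _ hK io z hz => ?_⟩
  have hTp : 0 < T := by linarith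
  have h1 := H K hK io z T hT hz _ le_rfl
  obtain ⟨h2, h3⟩ := cov_count io {x : K | Y120.HtLe K T x} (Y120.HtLe_fin K T) _ (fun s hs => by
    rcases hs with hs | hs
    · exact hs.1
    · exact hs.1) h1
  refine ⟨h1, h2, ?_⟩
  have h4 : ((Near F k K io z T (T ^ (-(B : ℝ))) (T ^ (-(k : ℝ))) ∪ Approx F k K io z T (T ^ (-(B : ℝ)))).ncard : ℝ) ≤
      (⌊C * T ^ ε⌋₊ : ℝ) * (D * ({x : K | Y120.HtLe K T x}.ncard : ℝ) ^ (Fintype.card X - 1)) := by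
    exact_mod_cast h3
  have h5 : ((⌊C * T ^ ε⌋₊ : ℕ) : ℝ) ≤ C * T ^ ε := Nat.floor_le (by positivity)
  have h6 : (Height K T) = {x : K | Y120.HtLe K T x} := rfl
  rw [h6]
  refine h4.trans ((mul_le_mul_of_nonneg_right h5 (by positivity)).trans (le_of_eq ?_))
  ring

theorem both_grow (F : SympFam X n) (v : ℝ → ℝ) (hv : Tendsto v atTop atTop) :
    ∃ (ω : ℝ → ℕ) (T₀ : ℝ), Tendsto ω atTop atTop ∧ Monotone ω ∧ ∀ T, T₀ ≤ T → 0 < ω T ∧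
      ∀ (K : Type) [Field K] [NumberField K], Module.finrank ℚ K ≤ ω T → ∀ (io : K →+* ℂ) (z : Fin (ω T) → ℂ),
        (∀ i, ‖z i‖ ≤ T ^ ω T) →
        Cov ⌊T ^ ((ω T : ℝ)⁻¹)⌋₊ ⌊T ^ ((ω T : ℝ)⁻¹)⌋₊ ((fun (s : X → K) j => io (s j)) ''
          (Near F (ω T) K io z T (T ^ (-v T)) (T ^ (-(ω T : ℝ))) ∪ Approx F (ω T) K io z T (T ^ (-v T)))) ∧
        (Near F (ω T) K io z T (T ^ (-v T)) (T ^ (-(ω T : ℝ))) ∪ Approx F (ω T) K io z T (T ^ (-v T))).Finite ∧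
        ((Near F (ω T) K io z T (T ^ (-v T)) (T ^ (-(ω T : ℝ))) ∪
          Approx F (ω T) K io z T (T ^ (-v T))).ncard : ℝ) ≤
          T ^ ((ω T : ℝ)⁻¹) * ((Height K T).ncard : ℝ) ^ (Fintype.card X - 1) := by
  classical
  obtain ⟨ω, T₀, h1, h2, h3⟩ := omega_gen (fun k => Fin k → ℂ)
    (fun k K _ _ io z T => {s | (∀ i, ‖z i‖ ≤ T ^ k) ∧
      s ∈ (Near F k K io z T (T ^ (-v T)) (T ^ (-(k : ℝ))) ∪ Approx F k K io z T (T ^ (-v T)) : Set (X → K))})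
    (fun k K _ _ io p T s hs => by
      rcases hs.2 with hs | hs
      · exact hs.1
      · exact hs.1) (by
      intro k ε hε
      obtain ⟨B, D, C, T₁, hC, hT₁, H⟩ := both_cov F k ε hε
      obtain ⟨T₂, hT₂⟩ := (hv.eventually_ge_atTop (B : ℝ)).exists_forall_of_atTop
      refine ⟨D, C, max T₁ T₂, hC, hT₁.trans (le_max_left _ _), fun K _ _ hK io z T hT => ?_⟩
      have hTa : T₁ ≤ T := (le_max_left _ _).trans hT
      have hTb : T₂ ≤ T := (le_max_right _ _).trans hT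
      by_cases hz : ∀ i, ‖z i‖ ≤ T ^ k
      · refine (H K hK io z T hTa hz (T ^ (-v T)) (Real.rpow_le_rpow_of_exponent_le (by linarith)
          (neg_le_neg (hT₂ T hTb)))).mono le_rfl le_rfl (Set.image_mono fun s hs => hs.2)
      · refine (H K hK io 0 T hTa (fun i => by
          have : 0 ≤ T ^ k := pow_nonneg (by linarith) _
          simpa using this) (T ^ (-v T)) (Real.rpow_le_rpow_of_exponent_le (by linarith)
          (neg_le_neg (hT₂ T hTb)))).mono le_rfl le_rfl ?_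
        rintro _ ⟨s, hs, rfl⟩
        exact absurd hs.1 hz)
  refine ⟨ω, T₀, h1, h2, fun T hT => ⟨(h3 T hT).1, fun K _ _ hK io z hz => ?_⟩⟩
  have h4 := (h3 T hT).2 K hK io z
  have h5 : {s | (∀ i, ‖z i‖ ≤ T ^ ω T) ∧ s ∈ (Near F (ω T) K io z T (T ^ (-v T)) (T ^ (-(ω T : ℝ))) ∪
      Approx F (ω T) K io z T (T ^ (-v T)) : Set (X → K))} =
      Near F (ω T) K io z T (T ^ (-v T)) (T ^ (-(ω T : ℝ))) ∪ Approx F (ω T) K io z T (T ^ (-v T)) := by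
    ext s
    exact ⟨fun h => h.2, fun h => ⟨hz, h⟩⟩
  simp only [h5] at h4
  exact h4

end Pool.Agent.U543.PZ
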