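import Pool.Agent.U543.SnPoly

/-! Near kernel vectors of matrices all of whose minors are zero or not small; minors of matrices over rings of integers. -/

set_option autoImplicit false
set_option linter.unusedSectionVars false

open NumberField

namespace Pool.Agent.U543.PZ

open Pool.Agent.U543.NR (LB)
open Pool.Agent.U543.SN (det_norm_le)

/-- **A maximal minor.** -/
theorem exists_minor {Λ J : Type} [Fintype Λ] [DecidableEq Λ] [Fintype J] [DecidableEq J] (N : Matrix Λ J ℂ) :
    ∃ (r : ℕ) (e : Fin r → Λ) (g : Fin r → J), r ≤ Fintype.card Λ ∧ (N.submatrix e g).det ≠ 0 ∧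
      ∀ l j, N l j = ∑ a, ∑ b, N l (g a) * (N.submatrix e g)⁻¹ a b * N (e b) j := by
  classical
  let P : ℕ → Prop := fun r => ∃ (e : Fin r → Λ) (g : Fin r → J), (N.submatrix e g).det ≠ 0
  have hP0 : P 0 := ⟨Fin.elim0, Fin.elim0, by rw [Matrix.det_isEmpty]; exact one_ne_zero⟩
  obtain ⟨r, hr⟩ : ∃ r, r = Nat.findGreatest P (Fintype.card Λ) := ⟨_, rfl⟩
  have hPr : P r := by
    rw [hr]
    exact Nat.findGreatest_spec (P := P) (Nat.zero_le _) hP0
  have hrc : r ≤ Fintype.card Λ := by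
    rw [hr]
    exact Nat.findGreatest_le _
  have hPn : ¬ P (r + 1) := by
    intro h
    by_cases hc : r + 1 ≤ Fintype.card Λ
    · exact Nat.findGreatest_is_greatest (P := P) (by rw [← hr]; exact Nat.lt_succ_self r) hc h
    · obtain ⟨e, g, hd⟩ := h
      have h1 : ¬ Function.Injective e := by
        intro hi
        have := Fintype.card_le_of_injective e hi
        rw [Fintype.card_fin] at this
        exact hc this
      simp only [Function.Injective, not_forall] at h1
      obtain ⟨a, b, hab, hne⟩ := h1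
      apply hd
      refine Matrix.det_zero_of_row_eq hne ?_
      funext j
      simp only [Matrix.submatrix_apply]
      rw [hab]
  obtain ⟨e, g, hd⟩ := hPr
  refine ⟨r, e, g, hrc, hd, fun l j => ?_⟩
  by_contra hne
  apply hPn
  let ε : Fin (r + 1) ≃ Fin r ⊕ Unit := Fintype.equivOfCardEq (by simp)
  refine ⟨Sum.elim e (fun _ => l) ∘ ε, Sum.elim g (fun _ => j) ∘ ε, ?_⟩
  have h1 : N.submatrix (Sum.elim e (fun _ : Unit => l) ∘ ε) (Sum.elim g (fun _ : Unit => j) ∘ ε) =
      (N.submatrix (Sum.elim e fun _ : Unit => l) (Sum.elim g fun _ : Unit => j)).submatrix ε ε := rfl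
  rw [h1, Matrix.det_submatrix_equiv_self]
  have h2 : N.submatrix (Sum.elim e fun _ : Unit => l) (Sum.elim g fun _ : Unit => j) =
      Matrix.fromBlocks (N.submatrix e g) (N.submatrix e fun _ => j) (N.submatrix (fun _ => l) g)
        (N.submatrix (fun _ => l) fun _ => j) := by
    ext a b
    rcases a with a | a <;> rcases b with b | b <;> rfl
  have hu : IsUnit (N.submatrix e g).det := isUnit_iff_ne_zero.2 hd
  have : Invertible (N.submatrix e g) := Matrix.invertibleOfIsUnitDet _ hu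
  rw [h2, Matrix.det_fromBlocks₁₁, Matrix.det_unique (n := Unit)]
  refine mul_ne_zero hd ?_
  rw [Matrix.sub_apply, sub_ne_zero]
  intro h3
  apply hne
  have h4 : (N.submatrix (fun _ : Unit => l) fun _ : Unit => j) default default = N l j := rfl
  rw [h4] at h3
  rw [h3, Matrix.mul_apply]
  simp only [Matrix.mul_apply, Matrix.submatrix_apply, Matrix.invOf_eq_nonsing_inv, Finset.sum_mul]
  rw [Finset.sum_comm]

/-- **Near kernel vectors.** -/
theorem near_ker {Λ J : Type} [Fintype Λ] [DecidableEq Λ] [Fintype J] [DecidableEq J] (N : Matrix Λ J ℂ) (H η ρ : ℝ)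
    (hH : 1 ≤ H) (hη : 0 < η) (hρ : 0 ≤ ρ) (hN : ∀ l j, ‖N l j‖ ≤ H)
    (hmin : ∀ r ≤ Fintype.card Λ, ∀ (e : Fin r → Λ) (g : Fin r → J), (N.submatrix e g).det = 0 ∨
      η ≤ ‖(N.submatrix e g).det‖) (v : J → ℂ) (hv : ∀ l, ‖∑ j, N l j * v j‖ ≤ ρ) :
    ∃ v' : J → ℂ, (∀ l, ∑ j, N l j * v' j = 0) ∧ ∀ j, ‖v' j - v j‖ ≤
      (Fintype.card Λ : ℝ) ^ 2 * ((Fintype.card Λ).factorial * H ^ Fintype.card Λ) * (ρ / η) := by
  classical
  obtain ⟨r, e, g, hrc, hd, hNe⟩ := exists_minor N
  have hη' : η ≤ ‖(N.submatrix e g).det‖ := (hmin r hrc e g).resolve_left hd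
  obtain ⟨I, hI⟩ : ∃ I : Matrix (Fin r) (Fin r) ℂ, I = (N.submatrix e g)⁻¹ := ⟨_, rfl⟩
  rw [← hI] at hNe
  obtain ⟨q, hq⟩ : ∃ q, q = Fintype.card Λ := ⟨_, rfl⟩
  rw [← hq] at hrc ⊢
  have hfac : ((r.factorial : ℕ) : ℝ) * H ^ r ≤ (q.factorial : ℝ) * H ^ q := by
    have h1 : ((r.factorial : ℕ) : ℝ) ≤ (q.factorial : ℝ) := by exact_mod_cast Nat.factorial_le hrc
    have h2 : H ^ r ≤ H ^ q := pow_le_pow_right₀ hH hrc
    have h3 : (0 : ℝ) ≤ H ^ r := by positivity
    exact mul_le_mul h1 h2 h3 (by positivity)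
  have hIb : ∀ a b, ‖I a b‖ ≤ (q.factorial : ℝ) * H ^ q / η := by
    intro a b
    have h1 : I a b = (N.submatrix e g).det⁻¹ * (N.submatrix e g).adjugate a b := by
      rw [hI, Matrix.inv_def, Matrix.smul_apply, smul_eq_mul, Ring.inverse_eq_inv']
    have h2 : ‖(N.submatrix e g).adjugate a b‖ ≤ (r.factorial : ℝ) * H ^ r := by
      rw [Matrix.adjugate_apply]
      have h3 := det_norm_le ((N.submatrix e g).updateRow b (Pi.single a 1)) H (fun k l => by
        by_cases hk : k = b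
        · subst hk
          rw [Matrix.updateRow_self]
          by_cases hl : l = a
          · subst hl
            simp
            exact hH
          · rw [Pi.single_eq_of_ne hl]
            simp
            linarith
        · rw [Matrix.updateRow_ne hk]
          exact hN _ _)
      rw [Fintype.card_fin] at h3
      exact h3
    rw [h1, norm_mul, norm_inv, ← div_eq_inv_mul]
    exact div_le_div₀ (by positivity) (h2.trans hfac) hη hη'
  obtain ⟨w, hw⟩ : ∃ w : Fin r → ℂ, w = fun a => ∑ b, I a b * ∑ j, N (e b) j * v j := ⟨_, rfl⟩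
  have hwb : ∀ a, ‖w a‖ ≤ q * ((q.factorial : ℝ) * H ^ q / η * ρ) := by
    intro a
    rw [hw]
    refine (norm_sum_le _ _).trans ?_
    calc ∑ b, ‖I a b * ∑ j, N (e b) j * v j‖ ≤ ∑ _b : Fin r, ((q.factorial : ℝ) * H ^ q / η * ρ) := by
          refine Finset.sum_le_sum fun b _ => ?_
          rw [norm_mul]
          exact mul_le_mul (hIb a b) (hv _) (norm_nonneg _) (by positivity)
      _ = r * ((q.factorial : ℝ) * H ^ q / η * ρ) := by
          rw [Finset.sum_const, Finset.card_univ, Fintype.card_fin, nsmul_eq_mul]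
      _ ≤ q * ((q.factorial : ℝ) * H ^ q / η * ρ) := by
          have : (r : ℝ) ≤ q := by exact_mod_cast hrc
          exact mul_le_mul_of_nonneg_right this (by positivity)
  refine ⟨fun j => v j - ∑ a, if g a = j then w a else 0, fun l => ?_, fun j => ?_⟩
  · have h1 : ∑ j, N l j * (v j - ∑ a, if g a = j then w a else 0) = ∑ j, N l j * v j - ∑ a, N l (g a) * w a := by
      simp only [mul_sub, Finset.sum_sub_distrib, Finset.mul_sum]
      congr 1
      rw [Finset.sum_comm]
      refine Finset.sum_congr rfl fun a _ => ?_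
      simp
    have h2 : ∑ j, N l j * v j = ∑ a, N l (g a) * w a := by
      calc ∑ j, N l j * v j = ∑ j, (∑ a, ∑ b, N l (g a) * I a b * N (e b) j) * v j :=
            Finset.sum_congr rfl fun j _ => by rw [← hNe]
        _ = ∑ a, N l (g a) * w a := by
            simp only [hw, Finset.sum_mul, Finset.mul_sum]
            rw [Finset.sum_comm]
            refine Finset.sum_congr rfl fun a _ => ?_
            rw [Finset.sum_comm]
            refine Finset.sum_congr rfl fun b _ => Finset.sum_congr rfl fun j _ => ?_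
            ring
    rw [h1, h2, sub_self]
  · have h1 : v j - (∑ a, if g a = j then w a else 0) - v j = -∑ a, if g a = j then w a else 0 := by ring
    rw [h1, norm_neg]
    refine (norm_sum_le _ _).trans ?_
    calc ∑ a, ‖if g a = j then w a else 0‖ ≤ ∑ _a : Fin r, (q * ((q.factorial : ℝ) * H ^ q / η * ρ)) := by
          refine Finset.sum_le_sum fun a _ => ?_
          split_ifs
          · exact hwb a
          · rw [norm_zero]
            positivity
      _ = r * (q * ((q.factorial : ℝ) * H ^ q / η * ρ)) := by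
          rw [Finset.sum_const, Finset.card_univ, Fintype.card_fin, nsmul_eq_mul]
      _ ≤ q * (q * ((q.factorial : ℝ) * H ^ q / η * ρ)) := by
          have : (r : ℝ) ≤ q := by exact_mod_cast hrc
          exact mul_le_mul_of_nonneg_right this (by positivity)
      _ = (q : ℝ) ^ 2 * ((q.factorial : ℝ) * H ^ q) * (ρ / η) := by ring

/-- the expansion of a determinant -/
theorem det_expand {R : Type} [CommRing R] {r : ℕ} {Ψ : Type} [Fintype Ψ] (ρ : Ψ → R)
    (Z : Fin r → Fin r → Ψ → R) :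
    (Matrix.of fun i j => ∑ p, ρ p * Z i j p).det =
      ∑ q : Fin r → Ψ, (∏ i, ρ (q i)) * (Matrix.of fun i j => Z i j (q i)).det := by
  classical
  rw [← Matrix.det_transpose, Matrix.det_apply]
  have h1 : ∀ q : Fin r → Ψ, (Matrix.of fun i j => Z i j (q i)).det =
      ∑ σ : Equiv.Perm (Fin r), Equiv.Perm.sign σ • ∏ i, Z i (σ i) (q i) := by
    intro q
    rw [← Matrix.det_transpose, Matrix.det_apply]
    rfl
  simp only [h1, Finset.mul_sum]
  rw [Finset.sum_comm]
  refine Finset.sum_congr rfl fun σ _ => ?_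
  simp only [Matrix.transpose_apply, Matrix.of_apply]
  rw [Finset.prod_univ_sum, Fintype.piFinset_univ, Finset.smul_sum]
  refine Finset.sum_congr rfl fun q _ => ?_
  rw [Finset.prod_mul_distrib, mul_smul_comm]

/-- **Minors.** -/
theorem minor_lb {k : Type} [Field k] [Algebra k ℂ] (hLB : LB k) {Λ J Ψ : Type} [Fintype Λ] [Fintype J] [Fintype Ψ]
    (ρ : Ψ → k) (m : ℕ) (A : ℝ) :
    ∃ κ T₀ : ℝ, 0 ≤ κ ∧ 2 ≤ T₀ ∧ ∀ (K : Type) [Field K] [NumberField K], Module.finrank ℚ K ≤ m →
      ∀ (io : K →+* ℂ) (T : ℝ), T₀ ≤ T → ∀ z : Λ → J → Ψ → 𝓞 K, (∀ l j p (φ : K →+* ℂ), ‖φ (z l j p : K)‖ ≤ T ^ A) →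
        ∀ r ≤ Fintype.card Λ, ∀ (e : Fin r → Λ) (g : Fin r → J),
          ((Matrix.of fun l j => ∑ p, algebraMap k ℂ (ρ p) * io (z l j p : K)).submatrix e g).det = 0 ∨
          T ^ (-κ) ≤ ‖((Matrix.of fun l j => ∑ p, algebraMap k ℂ (ρ p) * io (z l j p : K)).submatrix e g).det‖ := by
  classical
  obtain ⟨n, hn⟩ : ∃ n, n = Fintype.card Λ := ⟨_, rfl⟩
  obtain ⟨A', hA'⟩ : ∃ A' : ℝ, A' = max A 0 * n + 1 := ⟨_, rfl⟩
  choose κ T₁ hκ hT₁ H using fun r : Fin (n + 1) => hLB (Fin (r : ℕ) → Ψ) (fun q => ∏ i, ρ (q i)) m A'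
  refine ⟨∑ r, κ r, (∑ r, T₁ r) + (n.factorial : ℝ), Finset.sum_nonneg fun r _ => hκ r, ?_, ?_⟩
  · have h1 : T₁ 0 ≤ ∑ r, T₁ r := Finset.single_le_sum (fun r _ => by have := hT₁ r; linarith) (Finset.mem_univ 0)
    have h2 := hT₁ 0
    have h3 : (0 : ℝ) ≤ (n.factorial : ℝ) := by positivity
    linarith
  intro K _ _ hK io T hT z hz r hr e g
  rw [← hn] at hr
  have hsum : ∀ r : Fin (n + 1), T₁ r ≤ ∑ r, T₁ r := fun r =>
    Finset.single_le_sum (f := T₁) (fun r _ => by have := hT₁ r; linarith) (Finset.mem_univ r)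
  have h2 := hT₁ 0
  have h2' := hsum 0
  have hfp : (0 : ℝ) ≤ (n.factorial : ℝ) := by positivity
  have hTn : (n.factorial : ℝ) ≤ T := by linarith
  have hT1 : 1 ≤ T := by linarith
  have hTp : 0 < T := by linarith
  obtain ⟨y, hy⟩ : ∃ y : (Fin r → Ψ) → 𝓞 K, y = fun q => (Matrix.of fun i j => z (e i) (g j) (q i)).det := ⟨_, rfl⟩
  have hyφ : ∀ (q : Fin r → Ψ) (φ : K →+* ℂ), φ (y q : K) =
      (Matrix.of fun i j => φ (z (e i) (g j) (q i) : K)).det := by
    intro q φ
    rw [hy]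
    exact RingHom.map_det (φ.comp (algebraMap (𝓞 K) K)) _
  have hyb : ∀ (q : Fin r → Ψ) (φ : K →+* ℂ), ‖φ (y q : K)‖ ≤ T ^ A' := by
    intro q φ
    rw [hyφ]
    have h3 := det_norm_le (Matrix.of fun i j => φ (z (e i) (g j) (q i) : K)) (T ^ (max A 0)) (fun i j => by
      rw [Matrix.of_apply]
      exact (hz _ _ _ φ).trans (Real.rpow_le_rpow_of_exponent_le hT1 (le_max_left _ _)))
    rw [Fintype.card_fin] at h3
    refine h3.trans ?_
    have h4 : ((r.factorial : ℕ) : ℝ) ≤ T := le_trans (by exact_mod_cast Nat.factorial_le hr) hTn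
    have h5 : (T ^ (max A 0)) ^ r ≤ T ^ (max A 0 * n) := by
      rw [← Real.rpow_natCast, ← Real.rpow_mul hTp.le]
      refine Real.rpow_le_rpow_of_exponent_le hT1 ?_
      have : (r : ℝ) ≤ n := by exact_mod_cast hr
      exact mul_le_mul_of_nonneg_left this (le_max_right _ _)
    rw [hA', Real.rpow_add hTp, Real.rpow_one, mul_comm]
    exact mul_le_mul h5 h4 (by positivity) (by positivity)
  have h6 := H ⟨r, Nat.lt_succ_of_le hr⟩ K hK io T (by
    have := hsum ⟨r, Nat.lt_succ_of_le hr⟩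
    linarith) y hyb
  have h7 : ((Matrix.of fun l j => ∑ p, algebraMap k ℂ (ρ p) * io (z l j p : K)).submatrix e g).det =
      ∑ q : Fin r → Ψ, algebraMap k ℂ (∏ i, ρ (q i)) * io (y q : K) := by
    have h8 := det_expand (fun p => algebraMap k ℂ (ρ p)) (fun i j p => io (z (e i) (g j) p : K))
    have h9 : ((Matrix.of fun l j => ∑ p, algebraMap k ℂ (ρ p) * io (z l j p : K)).submatrix e g) =
        Matrix.of fun i j => ∑ p, algebraMap k ℂ (ρ p) * io (z (e i) (g j) p : K) := rfl
    rw [h9, h8]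
    refine Finset.sum_congr rfl fun q _ => ?_
    rw [hyφ, map_prod]
  rw [h7]
  refine h6.imp id fun h10 => le_trans ?_ h10
  refine Real.rpow_le_rpow_of_exponent_le hT1 (neg_le_neg ?_)
  exact Finset.single_le_sum (f := κ) (fun r _ => hκ r) (Finset.mem_univ _)

end Pool.Agent.U543.PZ
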