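import Pool.Agent.U543.PzStab
import Pool.Agent.U543.PzMinor
import Pool.Agent.U543.PzDesc

/-! Near linear relations with arbitrary complex coefficients come from true ones, outside few hypersurfaces. -/

set_option autoImplicit false
set_option linter.unusedSectionVars false

open NumberField

namespace Pool.Agent.U543.PZ

open Pool.Agent.Y890.MV
open Pool.Agent.Y890.SP (ex eval_box)
open Pool.Agent.Y124 (Cov)
open Pool.Agent.U543.NR

/-- common denominators -/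
theorem exists_den {X : Type} [Fintype X] [DecidableEq X] {K : Type} [Field K] [NumberField K] {T : ℝ} (hT : 1 ≤ T)
    (s : X → K) (hs : ∀ i, Y120.HtLe K T (s i)) :
    ∃ (bb : 𝓞 K) (aa : X → 𝓞 K), bb ≠ 0 ∧ (∀ φ : K →+* ℂ, ‖φ (bb : K)‖ ≤ T ^ Fintype.card X) ∧
      (∀ j (φ : K →+* ℂ), ‖φ (aa j : K)‖ ≤ T ^ Fintype.card X) ∧ ∀ j, (bb : K) * s j = (aa j : K) := by
  have hTp : 0 < T := by linarith
  choose a' b hb ha1 hb1 hab using hs
  refine ⟨∏ i, b i, fun i => a' i * ∏ j ∈ Finset.univ.erase i, b j, Finset.prod_ne_zero_iff.2 fun i _ => hb i,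
    ?_, ?_, ?_⟩
  · intro φ
    have h1 : φ ((∏ i, b i : 𝓞 K) : K) = ∏ i, φ (b i : K) := by simp [map_prod]
    rw [h1, norm_prod]
    calc ∏ i, ‖φ (b i : K)‖ ≤ ∏ _i : X, T := Finset.prod_le_prod (fun _ _ => norm_nonneg _) fun i _ =>
          (Y120.house_ge K _ φ).trans (hb1 i)
      _ = T ^ Fintype.card X := by rw [Finset.prod_const, Finset.card_univ]
  · intro j φ
    have h1 : φ ((a' j * ∏ l ∈ Finset.univ.erase j, b l : 𝓞 K) : K) =
        φ (a' j : K) * ∏ l ∈ Finset.univ.erase j, φ (b l : K) := by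
      simp [map_prod]
    rw [h1, norm_mul, norm_prod]
    calc ‖φ (a' j : K)‖ * ∏ l ∈ Finset.univ.erase j, ‖φ (b l : K)‖
        ≤ T * ∏ _l ∈ Finset.univ.erase j, T :=
          mul_le_mul ((Y120.house_ge K _ φ).trans (ha1 j)) (Finset.prod_le_prod (fun _ _ => norm_nonneg _)
            fun l _ => (Y120.house_ge K _ φ).trans (hb1 l)) (Finset.prod_nonneg fun _ _ => norm_nonneg _) hTp.le
      _ = ∏ _l : X, T := Finset.mul_prod_erase Finset.univ (fun _ : X => T) (Finset.mem_univ j)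
      _ = T ^ Fintype.card X := by rw [Finset.prod_const, Finset.card_univ]
  · intro j
    have h4 : (b j : K) ≠ 0 := by exact_mod_cast hb j
    have h5 : ((∏ i, b i : 𝓞 K) : K) = (b j : K) * ∏ l ∈ Finset.univ.erase j, (b l : K) := by
      rw [← Finset.mul_prod_erase _ _ (Finset.mem_univ j)]
      simp
    have h6 : ((a' j * ∏ l ∈ Finset.univ.erase j, b l : 𝓞 K) : K) =
        (a' j : K) * ∏ l ∈ Finset.univ.erase j, (b l : K) := by simp
    rw [h5, h6, hab j]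
    field_simp

/-- integral monomials -/
theorem exists_mono {X : Type} [Fintype X] [DecidableEq X] {K : Type} [Field K] [NumberField K] {T : ℝ} (hT : 1 ≤ T)
    (s : X → K) (bb : 𝓞 K) (aa : X → 𝓞 K) (hbb : ∀ φ : K →+* ℂ, ‖φ (bb : K)‖ ≤ T ^ Fintype.card X)
    (haa : ∀ j (φ : K →+* ℂ), ‖φ (aa j : K)‖ ≤ T ^ Fintype.card X) (h : ∀ j, (bb : K) * s j = (aa j : K)) (M : ℕ) :
    ∃ Z : (X → Fin (M + 1)) → 𝓞 K,
      (∀ α (φ : K →+* ℂ), ‖φ (Z α : K)‖ ≤ T ^ (Fintype.card X * (M * Fintype.card X))) ∧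
      ∀ α (φ : K →+* ℂ), φ (Z α : K) = φ (bb : K) ^ (M * Fintype.card X) * ∏ i, φ (s i) ^ (α i : ℕ) := by
  obtain ⟨q, hq⟩ : ∃ q, q = Fintype.card X := ⟨_, rfl⟩
  have hsum : ∀ α : X → Fin (M + 1), ∑ i, (α i : ℕ) ≤ M * q := by
    intro α
    calc ∑ i, (α i : ℕ) ≤ ∑ _i : X, M := Finset.sum_le_sum fun i _ => Nat.lt_succ_iff.1 (α i).2
      _ = M * q := by rw [Finset.sum_const, Finset.card_univ, smul_eq_mul, mul_comm, hq]
  rw [← hq] at hbb haa ⊢
  refine ⟨fun α => bb ^ (M * q - ∑ i, (α i : ℕ)) * ∏ i, aa i ^ (α i : ℕ), fun α φ => ?_, fun α φ => ?_⟩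
  · have h1 : φ ((bb ^ (M * q - ∑ i, (α i : ℕ)) * ∏ i, aa i ^ (α i : ℕ) : 𝓞 K) : K) =
        φ (bb : K) ^ (M * q - ∑ i, (α i : ℕ)) * ∏ i, φ (aa i : K) ^ (α i : ℕ) := by simp
    rw [h1, norm_mul, norm_pow, norm_prod]
    calc ‖φ (bb : K)‖ ^ (M * q - ∑ i, (α i : ℕ)) * ∏ i, ‖φ (aa i : K) ^ (α i : ℕ)‖
        ≤ (T ^ q) ^ (M * q - ∑ i, (α i : ℕ)) * ∏ i, (T ^ q) ^ (α i : ℕ) := by
          refine mul_le_mul (pow_le_pow_left₀ (norm_nonneg _) (hbb φ) _) ?_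
            (Finset.prod_nonneg fun _ _ => norm_nonneg _) (by positivity)
          refine Finset.prod_le_prod (fun _ _ => norm_nonneg _) fun i _ => ?_
          rw [norm_pow]
          exact pow_le_pow_left₀ (norm_nonneg _) (haa i φ) _
      _ = T ^ (q * (M * q)) := by
          rw [Finset.prod_pow_eq_pow_sum, ← pow_add, ← pow_mul]
          congr 2
          have := hsum α
          omega
  · have h1 : φ ((bb ^ (M * q - ∑ i, (α i : ℕ)) * ∏ i, aa i ^ (α i : ℕ) : 𝓞 K) : K) =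
        φ (bb : K) ^ (M * q - ∑ i, (α i : ℕ)) * ∏ i, φ (aa i : K) ^ (α i : ℕ) := by simp
    have h2 : φ (bb : K) ^ (M * q) = φ (bb : K) ^ (M * q - ∑ i, (α i : ℕ)) * ∏ i, φ (bb : K) ^ (α i : ℕ) := by
      rw [Finset.prod_pow_eq_pow_sum, ← pow_add]
      congr 1
      have := hsum α
      omega
    rw [h1, h2, mul_assoc, ← Finset.prod_mul_distrib]
    congr 1
    refine Finset.prod_congr rfl fun i _ => ?_
    rw [← mul_pow, ← h i, map_mul]

/-- **Near linear relations.** -/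
theorem lin_stab {k : Type} [Field k] [Algebra k ℂ] (hLB : LB k) {X σ : Type} [Fintype X] [DecidableEq X] [Nonempty X]
    [Fintype σ] [DecidableEq σ] {U : Set (X → ℂ)} {f : σ → (X → ℂ) → ℂ} (hU : IsPreconnected U)
    (hUo : IsOpen U) (hne : U.Nonempty) (hf : ∀ i, AnalyticOnNhd ℂ (f i) U) (hreg : RegularM U f)
    (hD : Desc k U f) (Lc : Set (X → ℂ)) (hLc : IsCompact Lc) (hLU : Lc ⊆ U) (δ : ℕ) {h : Type} [Fintype h]
    [DecidableEq h] {Θ : Type} [Fintype Θ] [DecidableEq Θ] (θ : Θ → k) (m : ℕ) (A A₁ ε : ℝ) (hε : 0 < ε) :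
    ∃ (D : ℕ) (B C T₀ : ℝ), 0 ≤ C ∧ 2 ≤ T₀ ∧ ∀ (K : Type) [Field K] [NumberField K], Module.finrank ℚ K ≤ m →
      ∀ (io : K →+* ℂ) (ξ : h → ℂ) (T : ℝ), T₀ ≤ T → (∀ i, ‖ξ i‖ ≤ T ^ A) →
        Cov D ⌊C * T ^ ε⌋₊ {t : X → ℂ | t ∈ Lc ∧ ∃ s : X → K,
          (∀ i, Y120.HtLe K T (s i)) ∧ (t = fun i => io (s i)) ∧ ∃ c : (σ → Fin (δ + 1)) → h → Θ → 𝓞 K,
            (∀ l i a (φ : K →+* ℂ), ‖φ (c l i a : K)‖ ≤ T ^ A) ∧
            ‖∑ l, (∑ i, ξ i * ∑ a, algebraMap k ℂ (θ a) * io (c l i a : K)) * ∏ y, f y t ^ (l y : ℕ)‖ ≤ T ^ (-B) ∧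
            ¬ ∃ ξ' : h → ℂ, (∀ i, ‖ξ' i - ξ i‖ ≤ T ^ (-A₁)) ∧ ∀ Y : σ → ℂ,
              (∀ H : MvPolynomial σ (MvPolynomial X k), (∀ x ∈ U, evM f x (up2 H) = 0) → evX t Y (up2 H) = 0) →
              ∑ l, (∑ i, ξ' i * ∑ a, algebraMap k ℂ (θ a) * io (c l i a : K)) * ∏ y, Y y ^ (l y : ℕ) = 0} := by
  classical
  obtain ⟨Δ, G, hΔ, hG, H⟩ := stab2 hU hUo hne hf hreg δ
  obtain ⟨d, a, G', hG', hGG⟩ := decomp hD G hG
  let Λ := σ → Fin (δ + 1)
  obtain ⟨M, hM⟩ : ∃ M : ℕ, M = ∑ l₀, ∑ j, ∑ l, (up (G' l₀ j l)).totalDegree := ⟨_, rfl⟩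
  have hMb : ∀ l₀ j l, (up (G' l₀ j l)).totalDegree ≤ M := by
    intro l₀ j l
    rw [hM]
    refine le_trans ?_ (Finset.single_le_sum (f := fun l₀ => ∑ j, ∑ l, (up (G' l₀ j l)).totalDegree)
      (fun _ _ => Nat.zero_le _) (Finset.mem_univ l₀))
    refine le_trans ?_ (Finset.single_le_sum (f := fun j => ∑ l, (up (G' l₀ j l)).totalDegree)
      (fun _ _ => Nat.zero_le _) (Finset.mem_univ j))
    exact Finset.single_le_sum (f := fun l => (up (G' l₀ j l)).totalDegree)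
      (fun _ _ => Nat.zero_le _) (Finset.mem_univ l)
  let Ψ := Θ ⊕ (Λ × Fin d × Λ × (X → Fin (M + 1)))
  let J := h ⊕ (Λ × Fin d)
  let ρ : Ψ → k := Sum.elim θ fun p => (G' p.1 p.2.1 p.2.2.1).coeff (ex p.2.2.2)
  obtain ⟨q, hq⟩ : ∃ q, q = Fintype.card X := ⟨_, rfl⟩
  obtain ⟨A₃, hA₃⟩ : ∃ A₃ : ℝ, A₃ = max (max A 0) ((q * (M * q) : ℕ) : ℝ) := ⟨_, rfl⟩
  have hA₃0 : 0 ≤ A₃ := by
    rw [hA₃]
    exact (le_max_right A 0).trans (le_max_left _ _)
  obtain ⟨κ, T₁, hκ, hT₁, H₁⟩ := minor_lb hLB (Λ := Λ) (J := J) ρ m A₃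
  obtain ⟨R₀, hR₀⟩ : ∃ R₀ : ℝ, R₀ = ∑ p, ‖algebraMap k ℂ (ρ p)‖ := ⟨_, rfl⟩
  have hR₀0 : 0 ≤ R₀ := by rw [hR₀]; exact Finset.sum_nonneg fun _ _ => norm_nonneg _
  obtain ⟨n, hn⟩ : ∃ n, n = Fintype.card Λ := ⟨_, rfl⟩
  obtain ⟨B₁, hB₁⟩ : ∃ B₁ : ℝ, B₁ = A₁ + κ + (A₃ + 1) * n + 1 := ⟨_, rfl⟩
  obtain ⟨A', hA'⟩ : ∃ A' : ℝ, A' = max A 0 + 1 := ⟨_, rfl⟩
  obtain ⟨D, B, C, T₂, hC, hT₂, H₂⟩ := H Lc hLc hLU (h × Θ) m A' B₁ ε hε
  refine ⟨D, B, C, max (max T₁ T₂) (max R₀ ((n : ℝ) ^ 2 * (n.factorial : ℝ))), hC,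
    (hT₁.trans (le_max_left _ _)).trans (le_max_left _ _), ?_⟩
  intro K _ _ hK io ξ T hT hξ
  have hTa : T₁ ≤ T := ((le_max_left _ _).trans (le_max_left _ _)).trans hT
  have hTb : T₂ ≤ T := ((le_max_right _ _).trans (le_max_left _ _)).trans hT
  have hTc : R₀ ≤ T := ((le_max_left _ _).trans (le_max_right _ _)).trans hT
  have hTd : (n : ℝ) ^ 2 * (n.factorial : ℝ) ≤ T := ((le_max_right _ _).trans (le_max_right _ _)).trans hT
  have hT1 : 1 ≤ T := by linarith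
  have hTp : 0 < T := by linarith
  have hθb : ∀ b, ‖algebraMap k ℂ (θ b)‖ ≤ T := by
    intro b
    refine le_trans ?_ hTc
    rw [hR₀]
    exact Finset.single_le_sum (f := fun p => ‖algebraMap k ℂ (ρ p)‖) (fun _ _ => norm_nonneg _)
      (Finset.mem_univ (Sum.inl b))
  refine (H₂ K hK io (fun p : h × Θ => ξ p.1 * algebraMap k ℂ (θ p.2)) T hTb (fun p => ?_)).mono le_rfl le_rfl ?_
  · rw [norm_mul, hA', Real.rpow_add hTp, Real.rpow_one]
    exact mul_le_mul ((hξ p.1).trans (Real.rpow_le_rpow_of_exponent_le hT1 (le_max_left _ _))) (hθb p.2)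
      (norm_nonneg _) (by positivity)
  rintro t ⟨htL, s, hs1, hts, c, hc, hnear, hno⟩
  have hprod : ∀ (l : Λ) (ζ : h → ℂ), ∑ p : h × Θ, (ζ p.1 * algebraMap k ℂ (θ p.2)) * io (c l p.1 p.2 : K) =
      ∑ i, ζ i * ∑ b, algebraMap k ℂ (θ b) * io (c l i b : K) := by
    intro l ζ
    rw [Fintype.sum_prod_type]
    refine Finset.sum_congr rfl fun i _ => ?_
    rw [Finset.mul_sum]
    refine Finset.sum_congr rfl fun b _ => ?_
    rw [mul_assoc]
  refine ⟨htL, s, hs1, hts, fun l p => c l p.1 p.2, fun l p φ => (hc l p.1 p.2 φ).trans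
    (Real.rpow_le_rpow_of_exponent_le hT1 ?_), ?_, ?_⟩
  · rw [hA']
    have := le_max_left A 0
    linarith
  · simp only [hprod]
    exact hnear
  rintro ⟨hΔt, hsm⟩
  simp only [hprod] at hsm
  apply hno
  obtain ⟨P, hP⟩ : ∃ P : Λ → ℂ, P = fun l => ∑ i, ξ i * ∑ b, algebraMap k ℂ (θ b) * io (c l i b : K) := ⟨_, rfl⟩
  have hPl : ∀ l, (∑ i, ξ i * ∑ b, algebraMap k ℂ (θ b) * io (c l i b : K)) = P l := fun l => by rw [hP]
  simp only [hPl] at hsm
  -- the integral coordinates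
  obtain ⟨bb, aa, hbb, hbbn, haan, haa⟩ := exists_den hT1 s hs1
  obtain ⟨Z, hZb, hZe⟩ := exists_mono hT1 s bb aa hbbn haan haa M
  rw [← hq] at hZb hZe
  have hb0 : io (bb : K) ≠ 0 := by
    rw [Ne, map_eq_zero]
    exact_mod_cast hbb
  obtain ⟨β, hβ⟩ : ∃ β : ℂ, β = io (bb : K) ^ (M * q) := ⟨_, rfl⟩
  have hβ0 : β ≠ 0 := by rw [hβ]; exact pow_ne_zero _ hb0
  let z : Λ → J → Ψ → 𝓞 K := fun l j p => Sum.elim
    (fun i => Sum.elim (fun b => c l i b) (fun _ => 0) p)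
    (fun g => Sum.elim (fun _ => 0) (fun w => if w.1 = g.1 ∧ w.2.1 = g.2 ∧ w.2.2.1 = l then Z w.2.2.2 else 0) p) j
  have hz0 : ∀ φ : K →+* ℂ, φ ((0 : 𝓞 K) : K) = 0 := fun φ => by simp
  have hzb : ∀ l j p (φ : K →+* ℂ), ‖φ (z l j p : K)‖ ≤ T ^ A₃ := by
    intro l j p φ
    have hp0 : ‖φ ((0 : 𝓞 K) : K)‖ ≤ T ^ A₃ := by
      rw [hz0, norm_zero]
      positivity
    rcases j with i | g
    · rcases p with b | w
      · refine (hc l i b φ).trans (Real.rpow_le_rpow_of_exponent_le hT1 ?_)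
        rw [hA₃]
        exact (le_max_left A 0).trans (le_max_left _ _)
      · exact hp0
    · rcases p with b | w
      · exact hp0
      · show ‖φ (((if w.1 = g.1 ∧ w.2.1 = g.2 ∧ w.2.2.1 = l then Z w.2.2.2 else 0) : 𝓞 K) : K)‖ ≤ T ^ A₃
        split_ifs
        · refine (hZb _ φ).trans ?_
          rw [← Real.rpow_natCast]
          refine Real.rpow_le_rpow_of_exponent_le hT1 ?_
          rw [hA₃]
          exact le_max_right _ _
        · exact hp0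
  obtain ⟨N, hN⟩ : ∃ N : Matrix Λ J ℂ, N = Matrix.of fun l j => ∑ p, algebraMap k ℂ (ρ p) * io (z l j p : K) :=
    ⟨_, rfl⟩
  have hNl : ∀ l i, N l (Sum.inl i) = ∑ b, algebraMap k ℂ (θ b) * io (c l i b : K) := by
    intro l i
    rw [hN, Matrix.of_apply, Fintype.sum_sum_type]
    have h1 : ∑ w : Λ × Fin d × Λ × (X → Fin (M + 1)), algebraMap k ℂ (ρ (Sum.inr w)) *
        io (z l (Sum.inl i) (Sum.inr w) : K) = 0 := by
      refine Finset.sum_eq_zero fun w _ => ?_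
      show _ * io ((0 : 𝓞 K) : K) = 0
      rw [hz0, mul_zero]
    rw [h1, add_zero]
    rfl
  have hNr : ∀ l l₀ j, N l (Sum.inr (l₀, j)) = β * MvPolynomial.eval t (up (G' l₀ j l)) := by
    intro l l₀ j
    rw [hN, Matrix.of_apply, Fintype.sum_sum_type]
    have h1 : ∑ b : Θ, algebraMap k ℂ (ρ (Sum.inl b)) * io (z l (Sum.inr (l₀, j)) (Sum.inl b) : K) = 0 := by
      refine Finset.sum_eq_zero fun w _ => ?_
      show _ * io ((0 : 𝓞 K) : K) = 0
      rw [hz0, mul_zero]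
    rw [h1, zero_add, eval_box _ M (hMb l₀ j l), Finset.mul_sum]
    have h2 : ∀ w : Λ × Fin d × Λ × (X → Fin (M + 1)), algebraMap k ℂ (ρ (Sum.inr w)) *
        io (z l (Sum.inr (l₀, j)) (Sum.inr w) : K) = if w.1 = l₀ ∧ w.2.1 = j ∧ w.2.2.1 = l then
          algebraMap k ℂ ((G' w.1 w.2.1 w.2.2.1).coeff (ex w.2.2.2)) * io (Z w.2.2.2 : K) else 0 := by
      intro w
      show _ * io (((if w.1 = l₀ ∧ w.2.1 = j ∧ w.2.2.1 = l then Z w.2.2.2 else 0) : 𝓞 K) : K) = _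
      split_ifs
      · rfl
      · rw [hz0, mul_zero]
    simp only [h2]
    rw [Fintype.sum_prod_type, Finset.sum_eq_single l₀ (fun b _ hb => Finset.sum_eq_zero fun w _ => if_neg fun hh => hb hh.1)
      (fun hh => absurd (Finset.mem_univ _) hh), Fintype.sum_prod_type,
      Finset.sum_eq_single j (fun b _ hb => Finset.sum_eq_zero fun w _ => if_neg fun hh => hb hh.2.1)
      (fun hh => absurd (Finset.mem_univ _) hh), Fintype.sum_prod_type,
      Finset.sum_eq_single l (fun b _ hb => Finset.sum_eq_zero fun w _ => if_neg fun hh => hb hh.2.2)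
      (fun hh => absurd (Finset.mem_univ _) hh)]
    refine Finset.sum_congr rfl fun α _ => ?_
    rw [if_pos ⟨rfl, rfl, rfl⟩, up_coeff, hZe, hβ, hts]
    ring
  have hNb : ∀ l j, ‖N l j‖ ≤ T ^ (A₃ + 1) := by
    intro l j
    rw [hN, Matrix.of_apply]
    have h1 : ‖∑ p, algebraMap k ℂ (ρ p) * io (z l j p : K)‖ ≤ ∑ p, ‖algebraMap k ℂ (ρ p)‖ * T ^ A₃ := by
      refine (norm_sum_le _ _).trans (Finset.sum_le_sum fun p _ => ?_)
      rw [norm_mul]
      exact mul_le_mul_of_nonneg_left (hzb l j p io) (norm_nonneg _)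
    rw [← Finset.sum_mul, ← hR₀] at h1
    refine h1.trans ?_
    rw [Real.rpow_add hTp, Real.rpow_one, mul_comm]
    exact mul_le_mul_of_nonneg_left hTc (by positivity)
  let v : J → ℂ := Sum.elim ξ fun g => -(β⁻¹ * ((MvPolynomial.eval t Δ)⁻¹ * (P g.1 * a g.2)))
  have hv : ∀ l, ‖∑ j, N l j * v j‖ ≤ T ^ (-B₁) := by
    intro l
    have h1 : ∑ j, N l j * v j = P l - (MvPolynomial.eval t Δ)⁻¹ * ∑ l₀, P l₀ * MvPolynomial.eval t (G l₀ l) := by
      rw [Fintype.sum_sum_type]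
      have h2 : ∑ i, N l (Sum.inl i) * v (Sum.inl i) = P l := by
        rw [← hPl]
        refine Finset.sum_congr rfl fun i _ => ?_
        rw [hNl]
        show _ * ξ i = _
        ring
      have h3 : ∑ g : Λ × Fin d, N l (Sum.inr g) * v (Sum.inr g) =
          -((MvPolynomial.eval t Δ)⁻¹ * ∑ l₀, P l₀ * MvPolynomial.eval t (G l₀ l)) := by
        rw [Fintype.sum_prod_type, Finset.mul_sum, ← Finset.sum_neg_distrib]
        refine Finset.sum_congr rfl fun l₀ _ => ?_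
        rw [hGG, map_sum, Finset.mul_sum, Finset.mul_sum, ← Finset.sum_neg_distrib]
        refine Finset.sum_congr rfl fun j _ => ?_
        rw [hNr, map_mul, MvPolynomial.eval_C]
        show β * _ * -(β⁻¹ * ((MvPolynomial.eval t Δ)⁻¹ * (P l₀ * a j))) = _
        field_simp
      rw [h2, h3]
      ring
    rw [h1]
    exact hsm l
  have hmin := H₁ K hK io T hTa z hzb
  rw [← hN] at hmin
  obtain ⟨v', hv'0, hv'⟩ := near_ker N (T ^ (A₃ + 1)) (T ^ (-κ)) (T ^ (-B₁)) (Real.one_le_rpow hT1 (by linarith))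
    (by positivity) (by positivity) hNb hmin v hv
  rw [← hn] at hv'
  refine ⟨fun i => v' (Sum.inl i), fun i => ?_, fun Y hY => ?_⟩
  · refine (hv' (Sum.inl i)).trans ?_
    have h1 : T ^ (-B₁) / T ^ (-κ) = T ^ (κ - B₁) := by
      rw [← Real.rpow_sub hTp]
      congr 1
      ring
    have h2 : (T ^ (A₃ + 1)) ^ n = T ^ ((A₃ + 1) * n) := by
      rw [← Real.rpow_natCast, ← Real.rpow_mul hTp.le]
    rw [h1, h2]
    calc (n : ℝ) ^ 2 * ((n.factorial : ℝ) * T ^ ((A₃ + 1) * n)) * T ^ (κ - B₁)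
        = ((n : ℝ) ^ 2 * (n.factorial : ℝ)) * (T ^ ((A₃ + 1) * n) * T ^ (κ - B₁)) := by ring
      _ ≤ T * (T ^ ((A₃ + 1) * n) * T ^ (κ - B₁)) := mul_le_mul_of_nonneg_right hTd (by positivity)
      _ = T ^ (-A₁) := by
          have h3 : ∀ a b : ℝ, T * (T ^ a * T ^ b) = T ^ (1 + (a + b)) := fun a b => by
            rw [Real.rpow_add hTp, Real.rpow_add hTp, Real.rpow_one]
          rw [h3, hB₁]
          congr 1
          ring
  · have h1 : ∀ l, (∑ i, v' (Sum.inl i) * ∑ b, algebraMap k ℂ (θ b) * io (c l i b : K)) =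
        -∑ l₀, ∑ j, v' (Sum.inr (l₀, j)) * β * MvPolynomial.eval t (up (G' l₀ j l)) := by
      intro l
      have h2 := hv'0 l
      rw [Fintype.sum_sum_type, Fintype.sum_prod_type] at h2
      rw [eq_neg_iff_add_eq_zero, ← h2]
      congr 1
      · refine Finset.sum_congr rfl fun i _ => ?_
        rw [hNl]
        ring
      · refine Finset.sum_congr rfl fun l₀ _ => Finset.sum_congr rfl fun j _ => ?_
        rw [hNr]
        ring
    simp only [h1, neg_mul, Finset.sum_neg_distrib, neg_eq_zero, Finset.sum_mul]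
    rw [Finset.sum_comm]
    refine Finset.sum_eq_zero fun l₀ _ => ?_
    rw [Finset.sum_comm]
    refine Finset.sum_eq_zero fun j _ => ?_
    have h3 := hY (rel (G' l₀ j)) (hG' l₀ j)
    rw [rel_up2, rel_evX] at h3
    calc ∑ l, v' (Sum.inr (l₀, j)) * β * MvPolynomial.eval t (up (G' l₀ j l)) * ∏ y, Y y ^ (l y : ℕ)
        = v' (Sum.inr (l₀, j)) * β * ∑ l, MvPolynomial.eval t (up (G' l₀ j l)) * ∏ y, Y y ^ (l y : ℕ) := by
          rw [Finset.mul_sum]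
          exact Finset.sum_congr rfl fun l _ => by ring
      _ = 0 := by rw [h3, mul_zero]

end Pool.Agent.U543.PZ
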