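import Pool.Agent.U543.SnNear

/-! Near relations with arbitrary coefficients are close to combinations of fixed relations. -/

set_option autoImplicit false
set_option linter.unusedSectionVars false

open Polynomial NumberField

namespace Pool.Agent.U543.PZ

open Pool.Agent.Y890.MV
open Pool.Agent.Y890.SP (ex box box_of_le eval_box evI evI_rename relPoly relPoly_degree relPoly_coeff relPoly_zero
  resG resG_map resP exists_dat eq_zero_of_resultant Dat)
open Pool.Agent.Y124 (Cov)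
open Pool.Agent.U543.NR (Bd res_quant)
open Pool.Agent.U543.SN

/-- **Stability of relations.** -/
theorem stab2 {X σ : Type} [Fintype X] [DecidableEq X] [Nonempty X]
    [Fintype σ] [DecidableEq σ] {U : Set (X → ℂ)} {f : σ → (X → ℂ) → ℂ} (hU : IsPreconnected U)
    (hUo : IsOpen U) (hne : U.Nonempty) (hf : ∀ i, AnalyticOnNhd ℂ (f i) U) (hreg : RegularM U f) (δ : ℕ) :
    ∃ (Δ : MvPolynomial X ℂ) (G : (σ → Fin (δ + 1)) → (σ → Fin (δ + 1)) → MvPolynomial X ℂ), Δ ≠ 0 ∧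
      (∀ l₀, ∀ x ∈ U, ∑ l, MvPolynomial.eval x (G l₀ l) * ∏ y, f y x ^ (l y : ℕ) = 0) ∧
      ∀ (Lc : Set (X → ℂ)), IsCompact Lc → Lc ⊆ U → ∀ (h : Type) [Fintype h] [DecidableEq h] (m : ℕ) (A B₁ ε : ℝ),
        0 < ε → ∃ (D : ℕ) (B C T₀ : ℝ), 0 ≤ C ∧ 2 ≤ T₀ ∧ ∀ (K : Type) [Field K] [NumberField K],
          Module.finrank ℚ K ≤ m → ∀ (io : K →+* ℂ) (ξ : h → ℂ) (T : ℝ), T₀ ≤ T → (∀ i, ‖ξ i‖ ≤ T ^ A) →
        Cov D ⌊C * T ^ ε⌋₊ {t : X → ℂ | t ∈ Lc ∧ ∃ s : X → K,
          (∀ i, Y120.HtLe K T (s i)) ∧ (t = fun i => io (s i)) ∧ ∃ c : (σ → Fin (δ + 1)) → h → 𝓞 K,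
            (∀ l i (φ : K →+* ℂ), ‖φ (c l i : K)‖ ≤ T ^ A) ∧
            ‖∑ l, (∑ i, ξ i * io (c l i : K)) * ∏ y, f y t ^ (l y : ℕ)‖ ≤ T ^ (-B) ∧
            ¬ (MvPolynomial.eval t Δ ≠ 0 ∧ ∀ l, ‖(∑ i, ξ i * io (c l i : K)) - (MvPolynomial.eval t Δ)⁻¹ *
              ∑ l₀, (∑ i, ξ i * io (c l₀ i : K)) * MvPolynomial.eval t (G l₀ l)‖ ≤ T ^ (-B₁))} := by
  classical
  obtain ⟨L, _, _, _, F, hz, hfrac⟩ := exists_fieldM hU hUo hne hf
  obtain ⟨d⟩ := exists_dat F hfrac (reg_fieldM hU hUo hf hreg F hz hfrac)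
  let := d.fin
  let := d.dec
  let Λ := σ → Fin (δ + 1)
  let lm : Λ → MvPolynomial σ (MvPolynomial X ℂ) := fun l => ∏ y, MvPolynomial.X y ^ (l y : ℕ)
  obtain ⟨D, hh, hD, hh'⟩ := d.exists_fam (fun l : Λ => MvPolynomial.aeval F (lm l))
  obtain ⟨e, he⟩ : ∃ e, e = d.m.natDegree := ⟨_, rfl⟩
  have hhe : ∀ l, (hh l).natDegree < e := by
    intro l
    rw [he]
    rcases eq_or_ne (hh l) 0 with h0 | h0
    · rw [h0, natDegree_zero]
      exact d.pos
    · exact natDegree_lt_natDegree h0 (hh' l).1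
  obtain ⟨Nb, hNb⟩ : ∃ Nb : ℕ, Nb = ∑ l, ∑ i ∈ Finset.range e, ((hh l).coeff i).totalDegree := ⟨_, rfl⟩
  have hNb' : ∀ l i, ((hh l).coeff i).totalDegree ≤ Nb := by
    intro l i
    rw [hNb]
    by_cases hi : i < e
    · have h1 : ((hh l).coeff i).totalDegree ≤ ∑ i ∈ Finset.range e, ((hh l).coeff i).totalDegree :=
        Finset.single_le_sum (f := fun i => ((hh l).coeff i).totalDegree) (fun _ _ => Nat.zero_le _)
          (Finset.mem_range.2 hi)
      exact h1.trans (Finset.single_le_sum (f := fun l => ∑ i ∈ Finset.range e, ((hh l).coeff i).totalDegree)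
        (fun _ _ => Nat.zero_le _) (Finset.mem_univ l))
    · rw [coeff_eq_zero_of_natDegree_lt (by have := hhe l; omega)]
      simp
  let N := Fin e × (d.I → Fin (Nb + 1))
  let M : Matrix N Λ (MvPolynomial X ℂ) := fun ν l => ((hh l).coeff ν.1).coeff (ex ν.2)
  obtain ⟨Δ, E, hΔ, hE⟩ := exists_ginv M
  obtain ⟨D₁, hD₁, hirr⟩ := d.irr
  obtain ⟨q, hq⟩ := res_quant d lm D hh hh'
  have hfib : ∀ (t : X → ℂ) (Y : σ → ℂ), Y ∈ fib U f t → ∀ p : MvPolynomial σ (MvPolynomial X ℂ),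
      MvPolynomial.aeval F p = (0 : L) → MvPolynomial.eval₂ (MvPolynomial.eval t) Y p = 0 := by
    intro t Y hY p hp
    exact hY p ((hz p).1 hp)
  have hlm : ∀ l (t : X → ℂ) (Y : σ → ℂ), MvPolynomial.eval₂ (MvPolynomial.eval t) Y (lm l) = ∏ y, Y y ^ (l y : ℕ) := by
    intro l t Y
    simp only [lm]
    rw [MvPolynomial.eval₂_prod]
    refine Finset.prod_congr rfl fun y _ => ?_
    rw [MvPolynomial.eval₂_pow, MvPolynomial.eval₂_X]
  -- the kernel
  have hker : ∀ G : Λ → MvPolynomial X ℂ, (∀ ν, ∑ l, M ν l * G l = 0) → ∀ (t : X → ℂ) (Y : σ → ℂ), Y ∈ fib U f t →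
      ∑ l, MvPolynomial.eval t (G l) * ∏ y, Y y ^ (l y : ℕ) = 0 := by
    intro G hG t Y hY
    have h1 : relPoly hh G = 0 := by
      apply relPoly_zero hh G e Nb hhe hNb'
      intro i α
      rw [← hG (i, α)]
      refine Finset.sum_congr rfl fun l _ => mul_comm _ _
    have h2 : eval₂ (evI (F ∘ d.ι)) (MvPolynomial.aeval F d.Θ) (relPoly hh G) =
        evI (F ∘ d.ι) D * MvPolynomial.aeval F (∑ l, MvPolynomial.C (G l) * lm l) := by
      rw [relPoly, eval₂_finsetSum, map_sum, Finset.mul_sum]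
      refine Finset.sum_congr rfl fun l _ => ?_
      rw [eval₂_mul, eval₂_C, ← (hh' l).2, map_mul]
      have h3 : evI (F ∘ d.ι) (MvPolynomial.C (G l)) = MvPolynomial.aeval F (MvPolynomial.C (G l)) := by
        rw [evI_rename, MvPolynomial.rename_C]
      rw [h3]
      ring
    rw [h1, eval₂_zero] at h2
    have h4 : evI (F ∘ d.ι) D ≠ 0 := by
      intro h0
      exact hD (d.ind (h0.trans (map_zero _).symm))
    have h5 := (mul_eq_zero.1 h2.symm).resolve_left h4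
    have h6 := hfib t Y hY _ h5
    rw [← h6, MvPolynomial.eval₂_sum]
    refine Finset.sum_congr rfl fun l _ => ?_
    rw [MvPolynomial.eval₂_mul, MvPolynomial.eval₂_C, hlm]
  have hmem0 : ∀ t ∈ U, (fun i => f i t) ∈ fib U f t := fun t ht p hp => hp t ht
  have hGM : ∀ l₀ ν, ∑ l, M ν l * ((if l = l₀ then Δ else 0) - (E * M) l l₀) = 0 := by
    intro l₀ ν
    have h1 := congrFun (congrFun hE ν) l₀
    rw [Matrix.mul_assoc, Matrix.mul_apply, Matrix.smul_apply, smul_eq_mul] at h1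
    simp only [mul_sub, Finset.sum_sub_distrib]
    rw [h1, Finset.sum_eq_single l₀ (fun b _ hb => by rw [if_neg hb, mul_zero]) (by simp), if_pos rfl, mul_comm,
      sub_self]
  refine ⟨Δ, fun l₀ l => (if l = l₀ then Δ else 0) - (E * M) l l₀, hΔ, fun l₀ x hx =>
    hker _ (hGM l₀) x _ (hmem0 x hx), ?_⟩
  intro Lc hLc hLU h _ _ m A B₁ ε hε
  -- the Nullstellensatz
  obtain ⟨𝒢, h𝒢⟩ : ∃ 𝒢, 𝒢 = resG d.m d.m.natDegree hh := ⟨_, rfl⟩
  let rr : N → MvPolynomial Λ (MvPolynomial X ℂ) := fun ν => MvPolynomial.C D₁ * ∑ l, MvPolynomial.C (M ν l) * MvPolynomial.X l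
  have hrr : ∀ ν (t : X → ℂ) (P : Λ → ℂ), sp t P (rr ν) =
      MvPolynomial.eval t D₁ * ∑ l, MvPolynomial.eval t (M ν l) * P l := by
    intro ν t P
    simp only [rr, sp, map_mul, map_sum, MvPolynomial.eval₂Hom_C, MvPolynomial.eval₂Hom_X']
  have hnull : ∀ ν, ∃ (b : ℕ) (qq : 𝒢.support → MvPolynomial Λ (MvPolynomial X ℂ)), 0 < b ∧
      rr ν ^ b = ∑ α, qq α * 𝒢.coeff (α : d.I →₀ ℕ) := by
    intro ν
    refine null (fun α : 𝒢.support => 𝒢.coeff (α : d.I →₀ ℕ)) (rr ν) ?_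
    intro t P hP
    have h0 := hrr ν t P
    simp only [sp] at h0
    rw [h0]
    by_cases hZ : MvPolynomial.eval t D₁ = 0
    · rw [hZ, zero_mul]
    have h𝓡0 : MvPolynomial.map (MvPolynomial.eval₂Hom (MvPolynomial.eval t) P) 𝒢 = 0 := by
      ext α
      rw [MvPolynomial.coeff_map, MvPolynomial.coeff_zero]
      by_cases hα : α ∈ 𝒢.support
      · exact hP ⟨α, hα⟩
      · rw [MvPolynomial.notMem_support_iff.1 hα, map_zero]
    have hmd : (d.m.map (MvPolynomial.map (σ := d.I) (MvPolynomial.eval t))).natDegree = d.m.natDegree :=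
      d.monic.natDegree_map _
    have hmd' : (d.m.map (MvPolynomial.map (σ := d.I) (MvPolynomial.eval t))).degree = d.m.degree :=
      d.monic.degree_map _
    have hRd : (relPoly (fun l => (hh l).map (MvPolynomial.map (σ := d.I) (MvPolynomial.eval t))) P).degree <
        d.m.degree := by
      apply relPoly_degree _ _ _ (bot_lt_iff_ne_bot.2 (by rw [Ne, degree_eq_bot]; exact d.monic.ne_zero))
      intro l
      exact lt_of_le_of_lt degree_map_le (hh' l).1
    have hrel0 : relPoly (fun l => (hh l).map (MvPolynomial.map (σ := d.I) (MvPolynomial.eval t))) P = 0 := by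
      refine eq_zero_of_resultant (d.m.map (MvPolynomial.map (σ := d.I) (MvPolynomial.eval t)))
        (relPoly (fun l => (hh l).map (MvPolynomial.map (σ := d.I) (MvPolynomial.eval t))) P) (d.monic.map _)
        (hirr ℂ (MvPolynomial.eval t) hZ) (by rw [hmd']; exact hRd) d.m.natDegree (by
          apply natDegree_le_of_degree_le
          rw [degree_eq_natDegree d.monic.ne_zero] at hRd
          exact hRd.le) ?_
      rw [hmd]
      refine (resG_map d.m d.m.natDegree hh (MvPolynomial.eval t) P).trans ?_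
      rw [← h𝒢]
      exact h𝓡0
    have h1 := relPoly_coeff (fun l => (hh l).map (MvPolynomial.map (σ := d.I) (MvPolynomial.eval t))) P ν.1 (ex ν.2)
    rw [hrel0, coeff_zero, MvPolynomial.coeff_zero] at h1
    have h2 : ∑ l, MvPolynomial.eval t (M ν l) * P l = 0 := by
      rw [h1]
      refine Finset.sum_congr rfl fun l _ => ?_
      rw [coeff_map, MvPolynomial.coeff_map, mul_comm]
    rw [h2, mul_zero]
  choose b qq hb hqq using hnull
  -- bounds
  have hcont : ∀ i, ContinuousOn (f i) Lc := fun i => ((hf i).continuousOn).mono hLU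
  have hb0 : ∀ s : MvPolynomial X ℂ, Bd (Λ := Λ) Lc fun t _ => MvPolynomial.eval t s := fun s =>
    Bd.of_cont hLc _ (MvPolynomial.continuous_eval s).continuousOn
  have hb1 : ∀ s : MvPolynomial Λ (MvPolynomial X ℂ), Bd Lc fun t P => sp t P s := fun s =>
    Bd.mv (fun t _ => MvPolynomial.eval t) hb0 (fun l _ P => P l) (fun l => Bd.var l) s
  have hb2 : ∀ s : MvPolynomial d.I (MvPolynomial Λ (MvPolynomial X ℂ)), Bd Lc fun t P =>
      MvPolynomial.eval₂Hom (sp t P) (fun i => f (d.ι i) t) s := fun s =>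
    Bd.mv (fun t P => sp t P) hb1 (fun i t _ => f (d.ι i) t) (fun i => Bd.of_cont hLc _ (hcont _)) s
  have hbΘ : Bd (Λ := Λ) Lc fun t _ => MvPolynomial.eval₂Hom (MvPolynomial.eval t) (fun i => f i t) d.Θ :=
    Bd.mv (fun t _ => MvPolynomial.eval t) hb0 (fun i t _ => f i t) (fun i => Bd.of_cont hLc _ (hcont _)) d.Θ
  have hbq : Bd Lc fun t P => eval₂ (MvPolynomial.eval₂Hom (sp t P) (fun i => f (d.ι i) t))
      (MvPolynomial.eval₂Hom (MvPolynomial.eval t) (fun i => f i t) d.Θ) q :=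
    Bd.poly (fun t P => MvPolynomial.eval₂Hom (sp t P) (fun i => f (d.ι i) t)) hb2 _ hbΘ q
  have hbD : Bd (Λ := Λ) Lc fun t _ => MvPolynomial.eval₂Hom (MvPolynomial.eval t) (fun i => f (d.ι i) t) D :=
    Bd.mv (fun t _ => MvPolynomial.eval t) hb0 (fun i t _ => f (d.ι i) t)
      (fun i => Bd.of_cont hLc _ (hcont _)) D
  obtain ⟨Cq, nq, hCq, hbd⟩ := hbD.mul hbq
  choose Cn nn hCn hbn using fun ν α => hb1 (qq ν α)
  choose CE nE hCE hbE using fun l ν => hb0 (E l ν)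
  -- the small values of `D₁` and `Δ`
  obtain ⟨BD, TD, hBD, hTD, HD⟩ := poly_small D₁ hD₁ m
  obtain ⟨BΔ, TΔ, hBΔ, hTΔ, HΔ⟩ := poly_small Δ hΔ m
  -- constants
  obtain ⟨A₂, hA₂⟩ : ∃ A₂ : ℝ, A₂ = 2 * max A 0 + 1 := ⟨_, rfl⟩
  have hA₂0 : 0 ≤ A₂ := by
    have := le_max_right A 0
    linarith
  obtain ⟨B₃, hB₃⟩ : ∃ B₃ : ℝ, B₃ = |B₁| + BD + BΔ + 1 := ⟨_, rfl⟩
  have hB₃0 : 0 ≤ B₃ := by rw [hB₃]; positivity
  obtain ⟨B₂, hB₂⟩ : ∃ B₂ : ℝ, B₂ = ∑ ν, (b ν * B₃ + ∑ α, A₂ * nn ν α + 1) := ⟨_, rfl⟩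
  have hind : ∀ t ∈ Lc, LocIndM (fun (i : d.I) t => f (d.ι i) t) t := fun t ht =>
    locIndM_of hU hf F hz d.ι d.ind t (hLU ht)
  have han : ∀ (i : d.I), ∀ t ∈ Lc, AnalyticAt ℂ (fun t => f (d.ι i) t) t := fun i t ht => hf _ t (hLU ht)
  obtain ⟨N₁, B₄, C₁, T₁, hC₁, hT₁, H₁⟩ := spec_covA (Λ := Λ) (h := h) (fun (i : d.I) t => f (d.ι i) t) Lc hLc han hind
    𝒢 m A B₂ ε hε
  obtain ⟨Tn, hTn⟩ : ∃ Tn : ℝ, Tn = ∑ ν, ∑ α, Cn ν α := ⟨_, rfl⟩
  obtain ⟨TE, hTE⟩ : ∃ TE : ℝ, TE = ∑ l, ∑ ν, CE l ν := ⟨_, rfl⟩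
  refine ⟨max N₁ (max D₁.totalDegree Δ.totalDegree), B₄ + A₂ * nq + 1, C₁ + 2,
    max (max (max T₁ Cq) (max TD TΔ)) (max (max Tn TE) (Fintype.card h : ℝ)), by positivity,
    ((hT₁.trans (le_max_left _ _)).trans (le_max_left _ _)).trans (le_max_left _ _), ?_⟩
  intro K _ _ hK io ξ T hT hξ
  have hTa : T₁ ≤ T := (((le_max_left _ _).trans (le_max_left _ _)).trans (le_max_left _ _)).trans hT
  have hTb : Cq ≤ T := (((le_max_right _ _).trans (le_max_left _ _)).trans (le_max_left _ _)).trans hT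
  have hTc : TD ≤ T := (((le_max_left _ _).trans (le_max_right _ _)).trans (le_max_left _ _)).trans hT
  have hTd : TΔ ≤ T := (((le_max_right _ _).trans (le_max_right _ _)).trans (le_max_left _ _)).trans hT
  have hTe : Tn ≤ T := (((le_max_left _ _).trans (le_max_left _ _)).trans (le_max_right _ _)).trans hT
  have hTf : TE ≤ T := (((le_max_right _ _).trans (le_max_left _ _)).trans (le_max_right _ _)).trans hT
  have hTg : (Fintype.card h : ℝ) ≤ T := ((le_max_right _ _).trans (le_max_right _ _)).trans hT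
  have hT1 : 1 ≤ T := by linarith
  have hTp : 0 < T := by linarith
  have hc1 := (H₁ K hK io ξ T hTa).mono (le_max_left N₁ (max D₁.totalDegree Δ.totalDegree)) le_rfl (Set.Subset.refl _)
  have hc2 := (HD K hK io T hTc).mono ((le_max_left _ _).trans (le_max_right N₁ (max D₁.totalDegree Δ.totalDegree)))
    le_rfl (Set.Subset.refl _)
  have hc3 := (HΔ K hK io T hTd).mono ((le_max_right _ _).trans (le_max_right N₁ (max D₁.totalDegree Δ.totalDegree)))
    le_rfl (Set.Subset.refl _)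
  refine (hc1.union (hc2.union hc3)).mono le_rfl ?_ ?_
  · apply Nat.le_floor
    push_cast
    have h6 : (1 : ℝ) ≤ T ^ ε := Real.one_le_rpow hT1 hε.le
    have h7 := Nat.floor_le (a := C₁ * T ^ ε) (by positivity)
    nlinarith
  rintro t ⟨htL, s, hs1, hts, c, hc, hSB, hno⟩
  by_contra hcon
  rw [Set.mem_union, Set.mem_union, not_or, not_or] at hcon
  obtain ⟨hx1, hx2, hx3⟩ := hcon
  apply hno
  have hD₁t : T ^ (-BD) < ‖MvPolynomial.eval t D₁‖ := by
    by_contra hle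
    exact hx2 ⟨s, hs1, hts, not_lt.1 hle⟩
  have hΔt : T ^ (-BΔ) < ‖MvPolynomial.eval t Δ‖ := by
    by_contra hle
    exact hx3 ⟨s, hs1, hts, not_lt.1 hle⟩
  obtain ⟨P, hP⟩ : ∃ P : Λ → ℂ, P = fun l => ∑ i, ξ i * io (c l i : K) := ⟨_, rfl⟩
  have hPl : ∀ l, ∑ i, ξ i * io (c l i : K) = P l := fun l => by rw [hP]
  have hP1 : ∀ l, ‖P l‖ ≤ T ^ A₂ := by
    intro l
    rw [hP]
    have h1 : ‖∑ i, ξ i * io (c l i : K)‖ ≤ ∑ _i : h, T ^ (max A 0) * T ^ (max A 0) := by
      refine (norm_sum_le _ _).trans (Finset.sum_le_sum fun i _ => ?_)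
      rw [norm_mul]
      have h2 : T ^ A ≤ T ^ (max A 0) := Real.rpow_le_rpow_of_exponent_le hT1 (le_max_left _ _)
      exact mul_le_mul ((hξ i).trans h2) ((hc l i io).trans h2) (norm_nonneg _) (by positivity)
    rw [Finset.sum_const, Finset.card_univ, nsmul_eq_mul] at h1
    refine h1.trans ?_
    have h3 : T ^ A₂ = T * (T ^ (max A 0) * T ^ (max A 0)) := by
      rw [hA₂, Real.rpow_add hTp, Real.rpow_one, two_mul, Real.rpow_add hTp]
      ring
    rw [h3]
    exact mul_le_mul_of_nonneg_right hTg (by positivity)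
  have hTA : 1 ≤ T ^ A₂ := Real.one_le_rpow hT1 hA₂0
  have hpw : ∀ n : ℕ, (T ^ A₂) ^ n = T ^ (A₂ * n) := fun n => by rw [Real.rpow_mul hTp.le, Real.rpow_natCast]
  -- the coefficients of the resultant are small
  have hsmall : ∀ α, ‖(MvPolynomial.map (sp t P) 𝒢).coeff α‖ ≤ T ^ (-B₂) := by
    by_contra hcon
    push Not at hcon
    obtain ⟨α, hα⟩ := hcon
    apply hx1
    refine ⟨htL, s, hs1, hts, c, hc, ⟨α, ?_⟩, ?_⟩
    · rw [hP] at hα
      exact hα.le
    · have hmem : (fun i => f i t) ∈ fib U f t := fun p hp => hp t (hLU htL)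
      obtain ⟨e1, -⟩ := hq ℂ (MvPolynomial.eval t) (fun i => f i t) (hfib t _ hmem) P
      have hsum : ∑ i, P i * MvPolynomial.eval₂ (MvPolynomial.eval t) (fun i => f i t) (lm i) =
          ∑ l, P l * ∏ y, f y t ^ (l y : ℕ) := Finset.sum_congr rfl fun l _ => by rw [hlm]
      rw [hsum] at e1
      have e1' : MvPolynomial.eval (fun i => f (d.ι i) t) (MvPolynomial.map (sp t P) 𝒢) =
        (MvPolynomial.eval₂Hom (MvPolynomial.eval t) (fun i => f (d.ι i) t) D *
          eval₂ (MvPolynomial.eval₂Hom (sp t P) (fun i => f (d.ι i) t))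
            (MvPolynomial.eval₂Hom (MvPolynomial.eval t) (fun i => f i t) d.Θ) q) *
              ∑ l, P l * ∏ y, f y t ^ (l y : ℕ) := by
        rw [h𝒢]
        refine e1.trans ?_
        have : ∀ a b c : ℂ, a * b * c = a * c * b := fun a b c => by ring
        exact this _ _ _
      have h1 := hbd t htL P (T ^ A₂) hTA hP1
      rw [hpw] at h1
      simp only [hPl] at hSB
      have e2 : (fun l => ∑ i, ξ i * io (c l i : K)) = P := hP.symm
      rw [e2, e1', norm_mul]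
      calc _ ≤ (Cq * T ^ (A₂ * nq)) * T ^ (-(B₄ + A₂ * nq + 1)) :=
            mul_le_mul h1 hSB (norm_nonneg _) (by positivity)
        _ ≤ (T * T ^ (A₂ * nq)) * T ^ (-(B₄ + A₂ * nq + 1)) := by
            refine mul_le_mul_of_nonneg_right (mul_le_mul_of_nonneg_right hTb (by positivity)) (by positivity)
        _ = T ^ (-B₄) := by
            have h3 : ∀ a b : ℝ, T * T ^ a * T ^ b = T ^ (1 + a + b) := fun a b => by
              rw [Real.rpow_add hTp, Real.rpow_add hTp, Real.rpow_one]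
            rw [h3]
            congr 1
            ring
  -- the relation is small
  have hMP : ∀ ν, ‖∑ l, MvPolynomial.eval t (M ν l) * P l‖ ≤ T ^ (-B₃) * T ^ BD := by
    intro ν
    have h1 := congrArg (fun p => ‖sp t P p‖) (hqq ν)
    simp only [map_pow, map_sum, map_mul, norm_pow] at h1
    have h2 : ‖∑ α, sp t P (qq ν α) * sp t P (𝒢.coeff (α : d.I →₀ ℕ))‖ ≤
        ∑ α, Cn ν α * T ^ (A₂ * nn ν α) * T ^ (-B₂) := by
      refine (norm_sum_le _ _).trans (Finset.sum_le_sum fun α _ => ?_)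
      rw [norm_mul]
      have h3 := hbn ν α t htL P (T ^ A₂) hTA hP1
      rw [hpw] at h3
      have h4 := hsmall α
      rw [MvPolynomial.coeff_map] at h4
      exact mul_le_mul h3 h4 (norm_nonneg _) (mul_nonneg (hCn ν α) (by positivity))
    have h5 : ∑ α, Cn ν α * T ^ (A₂ * nn ν α) * T ^ (-B₂) ≤ T ^ (-(b ν * B₃)) := by
      have h6 : ∀ α, Cn ν α * T ^ (A₂ * nn ν α) * T ^ (-B₂) ≤ Cn ν α * T ^ (-(b ν * B₃ + 1)) := by
        intro α
        rw [mul_assoc, ← Real.rpow_add hTp]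
        refine mul_le_mul_of_nonneg_left (Real.rpow_le_rpow_of_exponent_le hT1 ?_) (hCn ν α)
        have h7 : b ν * B₃ + ∑ α, A₂ * nn ν α + 1 ≤ B₂ := by
          rw [hB₂]
          refine Finset.single_le_sum (f := fun ν => (b ν * B₃ + ∑ α, A₂ * nn ν α + 1)) (fun ν _ => ?_)
            (Finset.mem_univ ν)
          have : 0 ≤ ∑ α, A₂ * (nn ν α : ℝ) := Finset.sum_nonneg fun α _ => by positivity
          positivity
        have h8 : A₂ * nn ν α ≤ ∑ α, A₂ * (nn ν α : ℝ) :=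
          Finset.single_le_sum (f := fun α => A₂ * (nn ν α : ℝ)) (fun α _ => by positivity) (Finset.mem_univ α)
        linarith
      refine (Finset.sum_le_sum fun α _ => h6 α).trans ?_
      rw [← Finset.sum_mul]
      have h9 : ∑ α, Cn ν α ≤ T := by
        refine le_trans ?_ hTe
        rw [hTn]
        exact Finset.single_le_sum (f := fun ν => ∑ α, Cn ν α) (fun ν _ => Finset.sum_nonneg fun α _ => hCn ν α)
          (Finset.mem_univ ν)
      refine (mul_le_mul_of_nonneg_right h9 (by positivity)).trans (le_of_eq ?_)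
      rw [neg_add, Real.rpow_add hTp, Real.rpow_neg_one]
      field_simp
    have h10 : ‖sp t P (rr ν)‖ ≤ T ^ (-B₃) := by
      have h11 : ‖sp t P (rr ν)‖ ^ b ν ≤ (T ^ (-B₃)) ^ b ν := by
        have h12 : (T ^ (-B₃)) ^ b ν = T ^ (-(b ν * B₃)) := by
          rw [← Real.rpow_natCast, ← Real.rpow_mul hTp.le]
          congr 1
          ring
        rw [h12, h1]
        exact h2.trans h5
      exact le_of_pow_le_pow_left₀ (hb ν).ne' (by positivity) h11
    rw [hrr, norm_mul] at h10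
    have h13 : T ^ (-BD) * ‖∑ l, MvPolynomial.eval t (M ν l) * P l‖ ≤ T ^ (-B₃) :=
      (mul_le_mul_of_nonneg_right hD₁t.le (norm_nonneg _)).trans h10
    have h14 : 0 < T ^ BD := Real.rpow_pos_of_pos hTp _
    calc ‖∑ l, MvPolynomial.eval t (M ν l) * P l‖ =
          (T ^ (-BD) * ‖∑ l, MvPolynomial.eval t (M ν l) * P l‖) * T ^ BD := by
          rw [Real.rpow_neg hTp.le]
          field_simp
      _ ≤ T ^ (-B₃) * T ^ BD := mul_le_mul_of_nonneg_right h13 h14.le
  -- the relation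
  have hΔ0 : MvPolynomial.eval t Δ ≠ 0 := by
    intro h0
    rw [h0, norm_zero] at hΔt
    exact absurd hΔt (not_lt.2 (Real.rpow_pos_of_pos hTp _).le)
  refine ⟨hΔ0, fun l => ?_⟩
  simp only [hPl]
  have h20 : ∀ l, MvPolynomial.eval t Δ * P l -
      ∑ ν, MvPolynomial.eval t (E l ν) * ∑ l', MvPolynomial.eval t (M ν l') * P l' =
      ∑ l₀, P l₀ * MvPolynomial.eval t ((if l = l₀ then Δ else 0) - (E * M) l l₀) := by
    intro l
    have h3 : ∑ ν, MvPolynomial.eval t (E l ν) * ∑ l', MvPolynomial.eval t (M ν l') * P l' =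
        ∑ l₀, P l₀ * MvPolynomial.eval t ((E * M) l l₀) := by
      simp only [Matrix.mul_apply, map_sum, map_mul, Finset.mul_sum]
      rw [Finset.sum_comm]
      refine Finset.sum_congr rfl fun l₀ _ => Finset.sum_congr rfl fun ν _ => ?_
      ring
    have h4 : ∑ l₀, P l₀ * MvPolynomial.eval t (if l = l₀ then Δ else 0) = MvPolynomial.eval t Δ * P l := by
      rw [Finset.sum_eq_single l]
      · simp [mul_comm]
      · intro b _ hb
        rw [if_neg (Ne.symm hb), map_zero, mul_zero]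
      · simp
    simp only [map_sub, mul_sub, Finset.sum_sub_distrib]
    rw [h3, h4]
  have h1 : P l - (MvPolynomial.eval t Δ)⁻¹ *
      ∑ l₀, P l₀ * MvPolynomial.eval t ((if l = l₀ then Δ else 0) - (E * M) l l₀) =
      (MvPolynomial.eval t Δ)⁻¹ *
        ∑ ν, MvPolynomial.eval t (E l ν) * ∑ l', MvPolynomial.eval t (M ν l') * P l' := by
    rw [← h20, mul_sub, inv_mul_cancel_left₀ hΔ0]
    ring
  rw [h1, norm_mul, norm_inv]
  have h2 : ‖∑ ν, MvPolynomial.eval t (E l ν) * ∑ l', MvPolynomial.eval t (M ν l') * P l'‖ ≤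
      ∑ ν, CE l ν * (T ^ (-B₃) * T ^ BD) := by
    refine (norm_sum_le _ _).trans (Finset.sum_le_sum fun ν _ => ?_)
    rw [norm_mul]
    have h3 := hbE l ν t htL 0 1 le_rfl (fun l => by simp)
    rw [one_pow, mul_one] at h3
    exact mul_le_mul h3 (hMP ν) (norm_nonneg _) (hCE l ν)
  rw [← Finset.sum_mul] at h2
  have h4 : ∑ ν, CE l ν ≤ T := by
    refine le_trans ?_ hTf
    rw [hTE]
    exact Finset.single_le_sum (f := fun l => ∑ ν, CE l ν) (fun l _ => Finset.sum_nonneg fun ν _ => hCE l ν)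
      (Finset.mem_univ l)
  have h5 : ‖MvPolynomial.eval t Δ‖⁻¹ ≤ T ^ BΔ := by
    rw [inv_le_comm₀ (norm_pos_iff.2 hΔ0) (Real.rpow_pos_of_pos hTp _), ← Real.rpow_neg hTp.le]
    exact hΔt.le
  calc ‖MvPolynomial.eval t Δ‖⁻¹ *
        ‖∑ ν, MvPolynomial.eval t (E l ν) * ∑ l', MvPolynomial.eval t (M ν l') * P l'‖
      ≤ T ^ BΔ * (T * (T ^ (-B₃) * T ^ BD)) := by
        refine mul_le_mul h5 (h2.trans (mul_le_mul_of_nonneg_right h4 (by positivity))) (norm_nonneg _)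
          (by positivity)
    _ = T ^ (-|B₁|) := by
        have h6 : ∀ a b c : ℝ, T ^ a * (T * (T ^ b * T ^ c)) = T ^ (a + (1 + (b + c))) := fun a b c => by
          rw [Real.rpow_add hTp, Real.rpow_add hTp, Real.rpow_add hTp, Real.rpow_one]
        rw [h6, hB₃]
        congr 1
        ring
    _ ≤ T ^ (-B₁) := Real.rpow_le_rpow_of_exponent_le hT1 (neg_le_neg (le_abs_self _))

end Pool.Agent.U543.PZ
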