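import Pool.Agent.Y890.MV.Tor

/-! The common zeros of the relations between analytic functions. -/

set_option autoImplicit false

namespace Pool.Agent.U543.SN

open Pool.Agent.Y890.MV (evM evX)

/-- The common zeros over `t` of all polynomial relations with coefficients in `ℂ[x]` between the functions `f` on `U`. -/
def fib {X σ : Type} (U : Set (X → ℂ)) (f : σ → (X → ℂ) → ℂ) (t : X → ℂ) : Set (σ → ℂ) :=
  {Y | ∀ p : MvPolynomial σ (MvPolynomial X ℂ), (∀ x ∈ U, evM f x p = 0) → evX t Y p = 0}

end Pool.Agent.U543.SN
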