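import Mathlib

/-! Generalized inverses over domains and the Nullstellensatz for polynomials over polynomials. -/

set_option autoImplicit false
set_option linter.unusedSectionVars false

namespace Pool.Agent.U543.SN

/-- **Generalized inverse.** -/
theorem exists_ginv {A : Type} [CommRing A] [IsDomain A] {Q Λ : Type} [Fintype Q] [DecidableEq Q] [Fintype Λ]
    [DecidableEq Λ] (M : Matrix Q Λ A) : ∃ (Δ : A) (E : Matrix Λ Q A), Δ ≠ 0 ∧ M * E * M = Δ • M := by
  classical
  let K := FractionRing A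
  have hinj : Function.Injective (algebraMap A K) := IsFractionRing.injective A K
  let MK : Matrix Q Λ K := M.map (algebraMap A K)
  let φ : (Λ → K) →ₗ[K] (Q → K) := Matrix.toLin' MK
  obtain ⟨ρ, hρ⟩ := φ.rangeRestrict.exists_rightInverse_of_surjective (LinearMap.range_rangeRestrict φ)
  obtain ⟨ψ, hψ⟩ := LinearMap.exists_extend (p := LinearMap.range φ) ρ
  have h1 : φ ∘ₗ ψ ∘ₗ φ = φ := by
    ext1 x
    refine LinearMap.ext fun y => ?_
    have h2 : ψ (φ (LinearMap.single K (fun _ : Λ => K) x y)) = ρ (φ.rangeRestrict (LinearMap.single K (fun _ : Λ => K) x y)) := by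
      rw [← hψ]
      rfl
    have h3 := LinearMap.congr_fun hρ (φ.rangeRestrict (LinearMap.single K (fun _ : Λ => K) x y))
    simp only [LinearMap.comp_apply]
    rw [h2]
    exact congrArg Subtype.val h3
  let EK : Matrix Λ Q K := LinearMap.toMatrix' ψ
  have h2 : MK * EK * MK = MK := by
    apply Matrix.toLin'.injective
    rw [Matrix.toLin'_mul, Matrix.toLin'_mul, Matrix.toLin'_toMatrix']
    exact h1
  obtain ⟨b, hb⟩ := IsLocalization.exist_integer_multiples_of_finite (nonZeroDivisors A)
    (fun x : Λ × Q => EK x.1 x.2)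
  choose u hu using hb
  refine ⟨(b : A), Matrix.of fun i j => u (i, j), nonZeroDivisors.ne_zero b.2, ?_⟩
  have hE : (Matrix.of fun i j => u (i, j) : Matrix Λ Q A).map (algebraMap A K) = algebraMap A K (b : A) • EK := by
    ext i j
    rw [Matrix.map_apply, Matrix.of_apply, Matrix.smul_apply, smul_eq_mul]
    have := hu (i, j)
    rw [Algebra.smul_def] at this
    exact this
  apply Matrix.map_injective hinj
  beta_reduce
  rw [Matrix.map_mul, Matrix.map_mul, hE]
  have h3 : ((b : A) • M).map (algebraMap A K) = algebraMap A K (b : A) • MK := by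
    ext i j
    simp [MK, Matrix.smul_apply, smul_eq_mul]
  rw [h3, Matrix.mul_smul, Matrix.smul_mul, h2]

/-- **Nullstellensatz.** -/
theorem null {X Λ I : Type} [Fintype X] [Fintype Λ] [Fintype I] (G : I → MvPolynomial Λ (MvPolynomial X ℂ))
    (r : MvPolynomial Λ (MvPolynomial X ℂ))
    (h : ∀ (t : X → ℂ) (P : Λ → ℂ), (∀ i, MvPolynomial.eval₂Hom (MvPolynomial.eval t) P (G i) = 0) →
      MvPolynomial.eval₂Hom (MvPolynomial.eval t) P r = 0) :
    ∃ (b : ℕ) (q : I → MvPolynomial Λ (MvPolynomial X ℂ)), 0 < b ∧ r ^ b = ∑ i, q i * G i := by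
  classical
  let e := MvPolynomial.sumAlgEquiv ℂ Λ X
  have hev : ∀ (w : Λ ⊕ X → ℂ) (p : MvPolynomial (Λ ⊕ X) ℂ),
      MvPolynomial.eval₂Hom (MvPolynomial.eval fun x => w (Sum.inr x)) (fun l => w (Sum.inl l)) (e p) =
        MvPolynomial.eval w p := by
    intro w p
    have h1 : (MvPolynomial.eval₂Hom (MvPolynomial.eval fun x => w (Sum.inr x)) (fun l => w (Sum.inl l))).comp
        e.toAlgHom.toRingHom = MvPolynomial.eval w := by
      refine MvPolynomial.ringHom_ext ?_ ?_
      · intro a
        simp [e]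
      · rintro (i | i)
        · simp [e]
        · simp [e]
    exact RingHom.congr_fun h1 p
  let J : Ideal (MvPolynomial (Λ ⊕ X) ℂ) := Ideal.span (Set.range fun i => e.symm (G i))
  have h1 : e.symm r ∈ MvPolynomial.vanishingIdeal ℂ (MvPolynomial.zeroLocus ℂ J) := by
    rw [MvPolynomial.mem_vanishingIdeal_iff]
    intro w hw
    rw [MvPolynomial.mem_zeroLocus_iff] at hw
    have h2 : ∀ i, MvPolynomial.eval₂Hom (MvPolynomial.eval fun x => w (Sum.inr x)) (fun l => w (Sum.inl l)) (G i) = 0 := by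
      intro i
      have h3 := hw _ (Ideal.subset_span ⟨i, rfl⟩)
      have h4 := hev w (e.symm (G i))
      rw [AlgEquiv.apply_symm_apply] at h4
      rw [h4]
      exact h3
    have h3 := h _ _ h2
    have h4 := hev w (e.symm r)
    rw [AlgEquiv.apply_symm_apply, h3] at h4
    exact h4.symm
  rw [MvPolynomial.vanishingIdeal_zeroLocus_eq_radical] at h1
  obtain ⟨b, hb⟩ := h1
  have h2 : e.symm r ^ (b + 1) ∈ J := by
    rw [pow_succ]
    exact Ideal.mul_mem_right _ _ hb
  rw [Ideal.mem_span_range_iff_exists_fun] at h2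
  obtain ⟨c, hc⟩ := h2
  refine ⟨b + 1, fun i => e (c i), Nat.succ_pos _, ?_⟩
  have h3 := congrArg e hc
  rw [map_sum, map_pow, AlgEquiv.apply_symm_apply] at h3
  rw [← h3]
  refine Finset.sum_congr rfl fun i _ => ?_
  rw [map_mul, AlgEquiv.apply_symm_apply]

end Pool.Agent.U543.SN
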