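import Pool.Agent.U543.NrLb
import Pool.Agent.Y890.MV.Int

/-! Points of number fields at which a fixed polynomial is small lie on one hypersurface. -/

set_option autoImplicit false
set_option linter.unusedSectionVars false

open NumberField

namespace Pool.Agent.U543.SN

open Pool.Agent.U543.NR (lb_adjoin measT_tpi)
open Pool.Agent.Y124 (Cov)

theorem det_norm_le {n : Type} [Fintype n] [DecidableEq n] (A : Matrix n n ℂ) (x : ℝ) (hx : ∀ i j, ‖A i j‖ ≤ x) :
    ‖A.det‖ ≤ (Fintype.card n).factorial * x ^ Fintype.card n := by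
  have h := Matrix.det_le (A := A) (abv := NormedField.toAbsoluteValue ℂ) (x := x) hx
  rw [nsmul_eq_mul] at h
  exact h

/-- **Small values of a fixed polynomial.** -/
theorem poly_small {X : Type} [Fintype X] [DecidableEq X] (Δ : MvPolynomial X ℂ) (hΔ : Δ ≠ 0) (m : ℕ) :
    ∃ B T₀ : ℝ, 0 ≤ B ∧ 2 ≤ T₀ ∧ ∀ (K : Type) [Field K] [NumberField K], Module.finrank ℚ K ≤ m →
      ∀ (io : K →+* ℂ) (T : ℝ), T₀ ≤ T → Cov Δ.totalDegree 1 {t : X → ℂ | ∃ s : X → K,
        (∀ i, Y120.HtLe K T (s i)) ∧ (t = fun i => io (s i)) ∧ ‖MvPolynomial.eval t Δ‖ ≤ T ^ (-B)} := by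
  classical
  obtain ⟨S, hS⟩ : ∃ S, S = Δ.support := ⟨_, rfl⟩
  obtain ⟨N, hN⟩ : ∃ N, N = Δ.totalDegree := ⟨_, rfl⟩
  obtain ⟨q, hq⟩ : ∃ q, q = Fintype.card X := ⟨_, rfl⟩
  obtain ⟨r, hr⟩ : ∃ r, r = Fintype.card S := ⟨_, rfl⟩
  obtain ⟨α₀, hα₀⟩ := MvPolynomial.ne_zero_iff.1 hΔ
  have hα₀S : α₀ ∈ S := by rw [hS]; exact MvPolynomial.mem_support_iff.2 hα₀
  have hSN : ∀ α : S, ∑ i, (α : X →₀ ℕ) i ≤ N := by
    intro α
    have h3 := MvPolynomial.le_totalDegree (hS ▸ α.2 : (α : X →₀ ℕ) ∈ Δ.support)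
    rw [Finsupp.sum_fintype _ _ (fun _ => rfl)] at h3
    rw [hN]
    exact h3
  obtain ⟨C₀, T₁, hC₀, hT₁, H₁⟩ := lb_adjoin measT_tpi Unit (fun _ => 1) m ((q * N * r + 1 : ℕ) : ℝ)
  have hΔn : 0 < ‖Δ.coeff α₀‖ := norm_pos_iff.2 hα₀
  obtain ⟨R, hR⟩ : ∃ R : ℝ, R = (r : ℝ) * (r.factorial : ℝ) / ‖Δ.coeff α₀‖ + 1 := ⟨_, rfl⟩
  refine ⟨C₀ + ((q * N * r + q * N + 1 : ℕ) : ℝ), max (max T₁ (r.factorial : ℝ)) R, by positivity,
    (hT₁.trans (le_max_left _ _)).trans (le_max_left _ _), ?_⟩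
  intro K _ _ hK io T hT
  have hTa : T₁ ≤ T := ((le_max_left _ _).trans (le_max_left _ _)).trans hT
  have hTb : (r.factorial : ℝ) ≤ T := ((le_max_right _ _).trans (le_max_left _ _)).trans hT
  have hTc : R ≤ T := (le_max_right _ _).trans hT
  have hT1 : 1 ≤ T := by linarith
  have hTp : 0 < T := by linarith
  -- the set of the points and the vectors
  let 𝒮 : Type := {s : X → K // (∀ i, Y120.HtLe K T (s i)) ∧
    ‖MvPolynomial.eval (fun i => io (s i)) Δ‖ ≤ T ^ (-(C₀ + ((q * N * r + q * N + 1 : ℕ) : ℝ)))}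
  let v : 𝒮 → S → ℂ := fun s α => ∏ i, io (s.1 i) ^ (α : X →₀ ℕ) i
  have hev : ∀ s : 𝒮, MvPolynomial.eval (fun i => io (s.1 i)) Δ = ∑ α : S, Δ.coeff α * v s α := by
    intro s
    rw [MvPolynomial.eval_eq', ← hS, ← Finset.sum_coe_sort S]
  have hspan : Submodule.span ℂ (Set.range v) ≠ ⊤ := by
    intro htop
    obtain ⟨κ, a, ha, hsp, hli⟩ := exists_linearIndependent' ℂ v
    rw [htop] at hsp
    let bs : Module.Basis κ ℂ (S → ℂ) := Module.Basis.mk hli hsp.ge
    let e : S ≃ κ := (Pi.basisFun ℂ S).indexEquiv bs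
    have hli' : LinearIndependent ℂ (fun i : S => v (a (e i))) := hli.comp e e.injective
    let M : Matrix S S ℂ := Matrix.of fun i α => v (a (e i)) α
    have hMu : IsUnit M := by
      rw [← Matrix.linearIndependent_rows_iff_isUnit]
      exact hli'
    have hMd : M.det ≠ 0 := ((Matrix.isUnit_iff_isUnit_det M).1 hMu).ne_zero
    -- integral coordinates
    have hh : ∀ i : S, ∃ (bb : 𝓞 K) (aa : X → 𝓞 K), bb ≠ 0 ∧ (∀ φ : K →+* ℂ, ‖φ (bb : K)‖ ≤ T ^ q) ∧
        (∀ j (φ : K →+* ℂ), ‖φ (aa j : K)‖ ≤ T ^ q) ∧ ∀ j, (bb : K) * (a (e i)).1 j = (aa j : K) := by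
      intro i
      choose a' b hb ha1 hb1 hab using (a (e i)).2.1
      refine ⟨∏ i, b i, fun i => a' i * ∏ j ∈ Finset.univ.erase i, b j, Finset.prod_ne_zero_iff.2 fun i _ => hb i,
        ?_, ?_, ?_⟩
      · intro φ
        have h1 : φ ((∏ i, b i : 𝓞 K) : K) = ∏ i, φ (b i : K) := by simp [map_prod]
        rw [h1, norm_prod]
        calc ∏ i, ‖φ (b i : K)‖ ≤ ∏ _i : X, T := Finset.prod_le_prod (fun _ _ => norm_nonneg _) fun i _ =>
              (Y120.house_ge K _ φ).trans (hb1 i)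
          _ = T ^ q := by rw [Finset.prod_const, Finset.card_univ, hq]
      · intro j φ
        have h1 : φ ((a' j * ∏ l ∈ Finset.univ.erase j, b l : 𝓞 K) : K) =
            φ (a' j : K) * ∏ l ∈ Finset.univ.erase j, φ (b l : K) := by
          simp [map_prod]
        rw [h1, norm_mul, norm_prod]
        calc ‖φ (a' j : K)‖ * ∏ l ∈ Finset.univ.erase j, ‖φ (b l : K)‖
            ≤ T * ∏ _l ∈ Finset.univ.erase j, T :=
              mul_le_mul ((Y120.house_ge K _ φ).trans (ha1 j)) (Finset.prod_le_prod (fun _ _ => norm_nonneg _)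
                fun l _ => (Y120.house_ge K _ φ).trans (hb1 l)) (Finset.prod_nonneg fun _ _ => norm_nonneg _) hTp.le
          _ = ∏ _l : X, T := Finset.mul_prod_erase Finset.univ (fun _ : X => T) (Finset.mem_univ j)
          _ = T ^ q := by rw [Finset.prod_const, Finset.card_univ, hq]
      · intro j
        have h4 : (b j : K) ≠ 0 := by exact_mod_cast hb j
        have h5 : ((∏ i, b i : 𝓞 K) : K) = (b j : K) * ∏ l ∈ Finset.univ.erase j, (b l : K) := by
          rw [← Finset.mul_prod_erase _ _ (Finset.mem_univ j)]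
          simp
        have h6 : ((a' j * ∏ l ∈ Finset.univ.erase j, b l : 𝓞 K) : K) =
            (a' j : K) * ∏ l ∈ Finset.univ.erase j, (b l : K) := by simp
        rw [h5, h6, hab j]
        field_simp
    choose bb aa hbb hbbn haan haa using hh
    let Z : Matrix S S (𝓞 K) := Matrix.of fun i α => bb i ^ (N - ∑ j, (α : X →₀ ℕ) j) * ∏ j, aa i j ^ (α : X →₀ ℕ) j
    have hb0 : ∀ i, io (bb i : K) ≠ 0 := by
      intro i
      rw [Ne, map_eq_zero]
      exact_mod_cast hbb i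
    have hZv : ∀ i α, io (Z i α : K) = io (bb i : K) ^ N * v (a (e i)) α := by
      intro i α
      have h1 : (Z i α : K) = (bb i : K) ^ (N - ∑ j, (α : X →₀ ℕ) j) * ∏ j, (aa i j : K) ^ (α : X →₀ ℕ) j := by
        simp [Z]
      have h2 : io (bb i : K) ^ N = io (bb i : K) ^ (N - ∑ j, (α : X →₀ ℕ) j) *
          ∏ j, io (bb i : K) ^ (α : X →₀ ℕ) j := by
        rw [Finset.prod_pow_eq_pow_sum, ← pow_add]
        congr 1
        have := hSN α
        omega
      rw [h1, h2, mul_assoc, ← Finset.prod_mul_distrib, map_mul, map_pow, map_prod]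
      congr 1
      refine Finset.prod_congr rfl fun j _ => ?_
      rw [← mul_pow, ← haa i j, map_pow, map_mul]
    have hTq : 1 ≤ T ^ q := one_le_pow₀ hT1
    have hZb : ∀ i α (φ : K →+* ℂ), ‖φ (Z i α : K)‖ ≤ T ^ (q * N) := by
      intro i α φ
      have h1 : φ (Z i α : K) = φ (bb i : K) ^ (N - ∑ j, (α : X →₀ ℕ) j) * ∏ j, φ (aa i j : K) ^ (α : X →₀ ℕ) j := by
        simp [Z]
      rw [h1, norm_mul, norm_pow, norm_prod]
      calc ‖φ (bb i : K)‖ ^ (N - ∑ j, (α : X →₀ ℕ) j) * ∏ j, ‖φ (aa i j : K) ^ (α : X →₀ ℕ) j‖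
          ≤ (T ^ q) ^ (N - ∑ j, (α : X →₀ ℕ) j) * ∏ j, (T ^ q) ^ (α : X →₀ ℕ) j := by
            refine mul_le_mul (pow_le_pow_left₀ (norm_nonneg _) (hbbn i φ) _) ?_
              (Finset.prod_nonneg fun _ _ => norm_nonneg _) (by positivity)
            refine Finset.prod_le_prod (fun _ _ => norm_nonneg _) fun j _ => ?_
            rw [norm_pow]
            exact pow_le_pow_left₀ (norm_nonneg _) (haan i j φ) _
        _ = T ^ (q * N) := by
            rw [Finset.prod_pow_eq_pow_sum, ← pow_add, ← pow_mul]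
            congr 2
            have := hSN α
            omega
    let Z' : Matrix S S ℂ := Z.map fun x => io (x : K)
    have hZd : io (Z.det : K) = Z'.det := by
      have h1 := RingHom.map_det (io.comp (algebraMap (𝓞 K) K)) Z
      exact h1
    have hZ'M : Z'.det = (∏ i, io (bb i : K) ^ N) * M.det := by
      rw [← Matrix.det_mul_column]
      congr 1
      ext i α
      exact hZv i α
    have hZ'0 : Z'.det ≠ 0 := by
      rw [hZ'M]
      exact mul_ne_zero (Finset.prod_ne_zero_iff.2 fun i _ => pow_ne_zero _ (hb0 i)) hMd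
    have hZ'b : ∀ i α, ‖Z' i α‖ ≤ T ^ (q * N) := fun i α => hZb i α io
    have hlow : T ^ (-C₀) ≤ ‖Z'.det‖ := by
      have h1 := H₁ K hK io T hTa (fun _ => Z.det) (by
        intro _ φ
        have h2 : φ (Z.det : K) = (Z.map fun x => φ (x : K)).det :=
          RingHom.map_det (φ.comp (algebraMap (𝓞 K) K)) Z
        rw [h2, Real.rpow_natCast]
        refine (det_norm_le _ (T ^ (q * N)) fun i α => hZb i α φ).trans ?_
        rw [← hr, ← pow_mul, pow_succ, mul_comm]
        exact mul_le_mul_of_nonneg_left hTb (by positivity))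
      simp only [Finset.univ_unique, Finset.sum_singleton, map_one, one_mul] at h1
      rw [hZd] at h1
      exact h1.resolve_left hZ'0
    -- Cramer
    obtain ⟨w, hw⟩ : ∃ w : S → ℂ, w = Matrix.mulVec Z' fun α => Δ.coeff α := ⟨_, rfl⟩
    have hwi : ∀ i, ‖w i‖ ≤ T ^ (q * N) * T ^ (-(C₀ + ((q * N * r + q * N + 1 : ℕ) : ℝ))) := by
      intro i
      have h1 : w i = io (bb i : K) ^ N * MvPolynomial.eval (fun j => io ((a (e i)).1 j)) Δ := by
        rw [hw, hev, Finset.mul_sum, Matrix.mulVec, dotProduct]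
        refine Finset.sum_congr rfl fun α _ => ?_
        have h2 : Z' i α = io (bb i : K) ^ N * v (a (e i)) α := hZv i α
        rw [h2]
        ring
      rw [h1, norm_mul, norm_pow]
      refine mul_le_mul ?_ (a (e i)).2.2 (norm_nonneg _) (by positivity)
      rw [pow_mul]
      exact pow_le_pow_left₀ (norm_nonneg _) (hbbn i io) _
    have hcr : Z'.det * Δ.coeff α₀ = ∑ i, Z'.adjugate ⟨α₀, hα₀S⟩ i * w i := by
      have h1 : Matrix.mulVec (Z'.adjugate * Z') (fun α : S => Δ.coeff α) = Matrix.mulVec Z'.adjugate w := by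
        rw [hw, Matrix.mulVec_mulVec]
      rw [Matrix.adjugate_mul, Matrix.smul_mulVec, Matrix.one_mulVec] at h1
      exact congrFun h1 ⟨α₀, hα₀S⟩
    have hadj : ∀ i j, ‖Z'.adjugate i j‖ ≤ (r.factorial : ℝ) * (T ^ (q * N)) ^ r := by
      intro i j
      rw [Matrix.adjugate_apply, hr]
      refine det_norm_le _ _ fun k l => ?_
      by_cases hk : k = j
      · subst hk
        rw [Matrix.updateRow_self]
        by_cases hl : l = i
        · subst hl
          simp
          exact one_le_pow₀ hT1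
        · rw [Pi.single_eq_of_ne hl]
          simp
          positivity
      · rw [Matrix.updateRow_ne hk]
        exact hZ'b _ _
    have hfin : ‖Z'.det * Δ.coeff α₀‖ ≤ (r : ℝ) * (((r.factorial : ℝ) * (T ^ (q * N)) ^ r) *
        (T ^ (q * N) * T ^ (-(C₀ + ((q * N * r + q * N + 1 : ℕ) : ℝ))))) := by
      rw [hcr]
      refine (norm_sum_le _ _).trans ?_
      calc ∑ i, ‖Z'.adjugate ⟨α₀, hα₀S⟩ i * w i‖ ≤ ∑ _i : S, (((r.factorial : ℝ) * (T ^ (q * N)) ^ r) *
            (T ^ (q * N) * T ^ (-(C₀ + ((q * N * r + q * N + 1 : ℕ) : ℝ))))) := by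
            refine Finset.sum_le_sum fun i _ => ?_
            rw [norm_mul]
            exact mul_le_mul (hadj _ _) (hwi i) (norm_nonneg _) (by positivity)
        _ = _ := by rw [Finset.sum_const, Finset.card_univ, ← hr, nsmul_eq_mul]
    have hexp : (T ^ (q * N)) ^ r * (T ^ (q * N) * T ^ (-(C₀ + ((q * N * r + q * N + 1 : ℕ) : ℝ)))) =
        T ^ (-C₀) * T⁻¹ := by
      rw [neg_add, Real.rpow_add hTp, Real.rpow_neg hTp.le ((q * N * r + q * N + 1 : ℕ) : ℝ), Real.rpow_natCast,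
        ← pow_mul, pow_succ, pow_add]
      field_simp
    rw [norm_mul] at hfin
    have h5 : T ^ (-C₀) * ‖Δ.coeff α₀‖ ≤ (r : ℝ) * (r.factorial : ℝ) * (T ^ (-C₀) * T⁻¹) := by
      refine (mul_le_mul_of_nonneg_right hlow (norm_nonneg _)).trans (hfin.trans (le_of_eq ?_))
      rw [← hexp]
      ring
    have h6 : ‖Δ.coeff α₀‖ * T ≤ (r : ℝ) * (r.factorial : ℝ) := by
      have h7 : 0 < T ^ (-C₀) := Real.rpow_pos_of_pos hTp _
      have h8 : T ^ (-C₀) * (‖Δ.coeff α₀‖ * T) ≤ T ^ (-C₀) * ((r : ℝ) * (r.factorial : ℝ)) := by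
        calc T ^ (-C₀) * (‖Δ.coeff α₀‖ * T) = (T ^ (-C₀) * ‖Δ.coeff α₀‖) * T := by ring
          _ ≤ ((r : ℝ) * (r.factorial : ℝ) * (T ^ (-C₀) * T⁻¹)) * T := mul_le_mul_of_nonneg_right h5 hTp.le
          _ = T ^ (-C₀) * ((r : ℝ) * (r.factorial : ℝ)) := by field_simp
      exact le_of_mul_le_mul_left h8 h7
    have h9 : (r : ℝ) * (r.factorial : ℝ) / ‖Δ.coeff α₀‖ + 1 ≤ T := by rw [← hR]; exact hTc
    have h10 : (r : ℝ) * (r.factorial : ℝ) / ‖Δ.coeff α₀‖ < T := by linarith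
    rw [div_lt_iff₀ hΔn] at h10
    linarith
  obtain ⟨ℓ, hℓ, hker⟩ := Submodule.exists_le_ker_of_lt_top _ (lt_top_iff_ne_top.2 hspan)
  let Q : MvPolynomial X ℂ := ∑ α : S, MvPolynomial.monomial (α : X →₀ ℕ) (ℓ (Pi.single α 1))
  have hQe : ∀ s : 𝒮, MvPolynomial.eval (fun i => io (s.1 i)) Q = ℓ (v s) := by
    intro s
    have h1 : v s = ∑ α : S, v s α • (Pi.single α (1 : ℂ) : S → ℂ) := by
      funext β
      simp [Finset.sum_apply, Pi.single_apply]
    rw [h1, map_sum]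
    simp only [Q, map_sum, map_smul, smul_eq_mul]
    refine Finset.sum_congr rfl fun α _ => ?_
    rw [MvPolynomial.eval_monomial, Finsupp.prod_fintype _ _ (fun _ => pow_zero _), mul_comm]
  have hQ0 : Q ≠ 0 := by
    intro h0
    apply hℓ
    refine LinearMap.pi_ext' fun α => LinearMap.ext_ring ?_
    have h1 := congrArg (MvPolynomial.coeff (α : X →₀ ℕ)) h0
    simp only [Q, MvPolynomial.coeff_sum, MvPolynomial.coeff_monomial, MvPolynomial.coeff_zero] at h1
    rw [Finset.sum_eq_single α] at h1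
    · simpa using h1
    · intro β _ hβ
      rw [if_neg]
      intro h2
      exact hβ (Subtype.ext h2)
    · simp
  refine ⟨{Q}, by simp, ?_, ?_⟩
  · intro P hP
    rw [Finset.mem_singleton] at hP
    subst hP
    refine ⟨hQ0, MvPolynomial.totalDegree_finsetSum_le fun α _ => ?_⟩
    refine (MvPolynomial.totalDegree_monomial_le _ _).trans ?_
    rw [← hN]
    refine le_trans (le_of_eq ?_) (hSN α)
    rw [Finsupp.sum_fintype _ _ (fun _ => rfl)]
    rfl
  · rintro t ⟨s, hs1, hts, hsm⟩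
    refine ⟨Q, Finset.mem_singleton_self _, ?_⟩
    rw [hts] at hsm ⊢
    rw [hQe ⟨s, hs1, hsm⟩]
    exact hker (Submodule.subset_span ⟨_, rfl⟩)

end Pool.Agent.U543.SN
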