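import Pool.Agent.U543.NrLb
import Pool.Agent.Y890.MV.Int

/-! Small values of polynomials with arbitrary complex coefficients at points of number fields. -/

set_option autoImplicit false
set_option linter.unusedSectionVars false

open Polynomial NumberField

namespace Pool.Agent.U543.SN

open Pool.Agent.Y890.MV
open Pool.Agent.Y890.SP (ex box box_of_le eval_box norm_prod_le)
open Pool.Agent.Y124 (Cov RelK)

/-- specialization of the coefficients at `t` and `P` -/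
noncomputable def sp {X Λ : Type} (t : X → ℂ) (P : Λ → ℂ) : MvPolynomial Λ (MvPolynomial X ℂ) →+* ℂ :=
  MvPolynomial.eval₂Hom (MvPolynomial.eval t) P

/-- **Small values.** -/
theorem spec_covA {X I Λ h : Type} [Fintype X] [DecidableEq X] [Nonempty X] [Fintype I] [DecidableEq I]
    [Fintype Λ] [DecidableEq Λ] [Fintype h] [DecidableEq h] (g : I → (X → ℂ) → ℂ) (Lc : Set (X → ℂ))
    (hLc : IsCompact Lc) (han : ∀ i, ∀ t ∈ Lc, AnalyticAt ℂ (g i) t) (hind : ∀ t ∈ Lc, LocIndM g t)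
    (𝒢' : MvPolynomial I (MvPolynomial Λ (MvPolynomial X ℂ))) (m : ℕ) (A B₁ ε : ℝ) (hε : 0 < ε) :
    ∃ (D : ℕ) (B C T₀ : ℝ), 0 ≤ C ∧ 2 ≤ T₀ ∧ ∀ (K : Type) [Field K] [NumberField K], Module.finrank ℚ K ≤ m →
      ∀ (io : K →+* ℂ) (ξ : h → ℂ) (T : ℝ), T₀ ≤ T → Cov D ⌊C * T ^ ε⌋₊ {t : X → ℂ | t ∈ Lc ∧ ∃ s : X → K,
        (∀ i, Y120.HtLe K T (s i)) ∧ (t = fun i => io (s i)) ∧ ∃ c : Λ → h → 𝓞 K,
          (∀ l i (φ : K →+* ℂ), ‖φ (c l i : K)‖ ≤ T ^ A) ∧
          (∃ α, T ^ (-B₁) ≤ ‖(MvPolynomial.map (sp t fun l => ∑ i, ξ i * io (c l i : K)) 𝒢').coeff α‖) ∧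
          ‖MvPolynomial.eval (fun i => g i t)
            (MvPolynomial.map (sp t fun l => ∑ i, ξ i * io (c l i : K)) 𝒢')‖ ≤ T ^ (-B)} := by
  classical
  set J : ℕ := ∑ α ∈ 𝒢'.support, ∑ ν ∈ (𝒢'.coeff α).support, ((𝒢'.coeff α).coeff ν).totalDegree with hJ
  have hJ' : ∀ α ν, ((𝒢'.coeff α).coeff ν).totalDegree ≤ J := by
    intro α ν
    by_cases hα : α ∈ 𝒢'.support
    · by_cases hν : ν ∈ (𝒢'.coeff α).support
      · have h1 := Finset.single_le_sum (f := fun ν => ((𝒢'.coeff α).coeff ν).totalDegree)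
          (fun _ _ => Nat.zero_le _) hν
        exact h1.trans (Finset.single_le_sum
          (f := fun α => ∑ ν ∈ (𝒢'.coeff α).support, ((𝒢'.coeff α).coeff ν).totalDegree) (fun _ _ => Nat.zero_le _) hα)
      · rw [MvPolynomial.notMem_support_iff.1 hν]
        simp
    · rw [MvPolynomial.notMem_support_iff.1 hα]
      simp
  set dd := 𝒢'.totalDegree with hdd
  set G' : ℕ := J + ∑ α ∈ 𝒢'.support, (𝒢'.coeff α).totalDegree with hG'
  have hG'' : ∀ (ξ : h → ℂ) α, (hmgM ξ J (𝒢'.coeff α)).totalDegree ≤ G' := by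
    intro ξ α
    refine (hmgM_degree ξ J _ (hJ' α)).trans ?_
    refine Nat.add_le_add_left ?_ J
    by_cases hα : α ∈ 𝒢'.support
    · exact Finset.single_le_sum (f := fun α => (𝒢'.coeff α).totalDegree) (fun _ _ => Nat.zero_le _) hα
    · rw [MvPolynomial.notMem_support_iff.1 hα]
      simp
  let W := Option X ⊕ (Λ × h)
  let h' := (I → Fin (dd + 1)) × (W → Fin (G' + 1))
  set q : ℕ := Fintype.card X with hq
  set A₁ := max A (q : ℝ) with hA₁
  set A' : ℝ := A₁ * (Fintype.card W * G' : ℕ) with hA'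
  obtain ⟨DD, B₀, C, T₀, hC, hT₀, H⟩ := nfM stmZ stmClose stmCharts m g Lc hLc han hind h' dd A' ε hε
  refine ⟨DD, B₀ + B₁, C, T₀, hC, hT₀, ?_⟩
  intro K _ _ hm io ξ T hTa
  let ξ' : h' → ℂ := fun p => (hmgM ξ J (𝒢'.coeff (ex p.1))).coeff (ex p.2)
  have hT1 : 1 ≤ T := by linarith
  have hTp : 0 < T := by linarith
  refine (H K hm io ξ' T hTa).mono le_rfl le_rfl ?_
  rintro t ⟨hs2, s, hs1, hts, c, hc1, ⟨s₀, h𝓡0⟩, hval0⟩
  refine ⟨hs2, s, hs1, hts, ?_⟩
  choose a' b hb ha1 hb1 hab using id hs1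
  set P : Λ → ℂ := fun l => ∑ i, ξ i * io (c l i : K) with hP
  set 𝓡 : MvPolynomial I ℂ := MvPolynomial.map (sp t P) 𝒢' with h𝓡G
  -- the integral coordinates
  let bb : 𝓞 K := ∏ i, b i
  let aa : X → 𝓞 K := fun i => a' i * ∏ j ∈ Finset.univ.erase i, b j
  let zK : W → 𝓞 K := Sum.elim (fun o => o.elim bb aa) (fun p => c p.1 p.2)
  let w : W → ℂ := fun t => io (zK t : K)
  have hwb : w (Sum.inl none) = io (bb : K) := rfl
  have hwa : ∀ i, w (Sum.inl (some i)) = io (aa i : K) := fun i => rfl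
  have hbb : bb ≠ 0 := Finset.prod_ne_zero_iff.2 fun i _ => hb i
  have hb0 : io (bb : K) ≠ 0 := by
    rw [Ne, map_eq_zero]
    exact_mod_cast hbb
  have hsw : ∀ i, t i = w (Sum.inl (some i)) / w (Sum.inl none) := by
    intro i
    rw [hwa, hwb, hts]
    simp only
    rw [eq_div_iff hb0, ← map_mul]
    congr 1
    have h1 : (bb : K) = (b i : K) * ∏ j ∈ Finset.univ.erase i, (b j : K) := by
      have h2 : bb = b i * ∏ j ∈ Finset.univ.erase i, b j := (Finset.mul_prod_erase _ _ (Finset.mem_univ i)).symm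
      rw [h2]
      simp
    have h3 : (aa i : K) = (a' i : K) * ∏ j ∈ Finset.univ.erase i, (b j : K) := by
      simp [aa]
    have h4 : (b i : K) ≠ 0 := by exact_mod_cast hb i
    rw [h1, h3, hab i]
    field_simp
  have hval : ∀ α : I →₀ ℕ, io (bb : K) ^ J * 𝓡.coeff α = MvPolynomial.eval w (hmgM ξ J (𝒢'.coeff α)) := by
    intro α
    rw [hmgM_eval ξ J _ (fun ν => hJ' α ν) w (by rw [hwb]; exact hb0), hwb, h𝓡G, MvPolynomial.coeff_map]
    congr 1
    have h1 : (fun i => w (Sum.inl (some i)) / io (bb : K)) = t := by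
      funext i
      rw [hsw i, hwb]
    rw [h1]
    rfl
  let P' : MvPolynomial I ℂ := MvPolynomial.C (io (bb : K) ^ J) * 𝓡
  have hcoef : ∀ s₁ : I →₀ ℕ, P'.coeff s₁ = io (bb : K) ^ J * 𝓡.coeff s₁ := by
    intro s₁
    rw [MvPolynomial.coeff_C_mul]
  have hbn : ∀ i (ψ : K →+* ℂ), ‖ψ (b i : K)‖ ≤ T := fun i ψ => (Y120.house_ge K _ ψ).trans (hb1 i)
  have han' : ∀ i (ψ : K →+* ℂ), ‖ψ (a' i : K)‖ ≤ T := fun i ψ => (Y120.house_ge K _ ψ).trans (ha1 i)
  have hbbn : ∀ ψ : K →+* ℂ, ‖ψ ((bb : 𝓞 K) : K)‖ ≤ T ^ q := by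
    intro ψ
    have h1 : ψ ((bb : 𝓞 K) : K) = ∏ i, ψ (b i : K) := by simp [bb, map_prod]
    rw [h1, norm_prod]
    calc ∏ i, ‖ψ (b i : K)‖ ≤ ∏ _i : X, T := Finset.prod_le_prod (fun _ _ => norm_nonneg _) fun i _ => hbn i ψ
      _ = T ^ q := by rw [Finset.prod_const, Finset.card_univ]
  have hzKb : ∀ (o : W) (ψ : K →+* ℂ), ‖ψ (zK o : K)‖ ≤ T ^ A₁ := by
    have hTq : T ^ q ≤ T ^ A₁ := by
      rw [← Real.rpow_natCast]
      exact Real.rpow_le_rpow_of_exponent_le hT1 (le_max_right _ _)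
    rintro ((_ | i) | ⟨l, i⟩) ψ
    · exact (hbbn ψ).trans hTq
    · refine le_trans ?_ hTq
      change ‖ψ ((aa i : 𝓞 K) : K)‖ ≤ T ^ q
      have h1 : ψ ((aa i : 𝓞 K) : K) = ψ (a' i : K) * ∏ j ∈ Finset.univ.erase i, ψ (b j : K) := by
        simp [aa, map_prod]
      rw [h1, norm_mul, norm_prod]
      calc ‖ψ (a' i : K)‖ * ∏ j ∈ Finset.univ.erase i, ‖ψ (b j : K)‖
          ≤ T * ∏ _j ∈ Finset.univ.erase i, T :=
            mul_le_mul (han' i ψ) (Finset.prod_le_prod (fun _ _ => norm_nonneg _) fun j _ => hbn j ψ)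
              (Finset.prod_nonneg fun _ _ => norm_nonneg _) hTp.le
        _ = ∏ _j : X, T := Finset.mul_prod_erase Finset.univ (fun _ : X => T) (Finset.mem_univ i)
        _ = T ^ q := by rw [Finset.prod_const, Finset.card_univ]
    · exact (hc1 l i ψ).trans (Real.rpow_le_rpow_of_exponent_le hT1 (le_max_left _ _))
  have hs₀ : P'.coeff s₀ ≠ 0 := by
    rw [hcoef]
    refine mul_ne_zero (pow_ne_zero _ hb0) fun h0 => ?_
    rw [h0, norm_zero] at h𝓡0
    exact absurd h𝓡0 (not_le.2 (Real.rpow_pos_of_pos hTp _))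
  have hrep : ∀ s : I →₀ ℕ, ∃ c : h' → 𝓞 K, (∀ i (φ : K →+* ℂ), ‖φ (c i : K)‖ ≤ T ^ A') ∧
      P'.coeff s = ∑ i, ξ' i * io (c i : K) := by
    intro α₀
    by_cases hα : ∃ α : I → Fin (dd + 1), ex α = α₀
    · obtain ⟨α, hα⟩ := hα
      refine ⟨fun p => if p.1 = α then ∏ t, zK t ^ (p.2 t : ℕ) else 0, ?_, ?_⟩
      · rintro ⟨α', γ⟩ ψ
        by_cases hαα : α' = α
        · simp only [hαα, if_true]
          have hT' : 1 ≤ T ^ A₁ := Real.one_le_rpow hT1 (by
            rw [hA₁]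
            exact le_trans (Nat.cast_nonneg _) (le_max_right _ _))
          have h1 := norm_prod_le G' γ (fun t => ψ (zK t : K)) (T ^ A₁) hT' (fun o => hzKb o ψ)
          have h3 : ψ ((∏ t, zK t ^ (γ t : ℕ) : 𝓞 K) : K) = ∏ t, ψ (zK t : K) ^ (γ t : ℕ) := by
            simp [map_prod]
          rw [h3]
          refine h1.trans (le_of_eq ?_)
          rw [hA', Real.rpow_mul (by linarith), Real.rpow_natCast]
        · simp only [hαα, if_false]
          simp
          positivity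
      · rw [hcoef, ← hα, hval, eval_box _ G' (hG'' _ _) w, Fintype.sum_prod_type, Finset.sum_eq_single α]
        · refine Finset.sum_congr rfl fun γ _ => ?_
          have h3 : io ((∏ t, zK t ^ (γ t : ℕ) : 𝓞 K) : K) = ∏ t, io (zK t : K) ^ (γ t : ℕ) := by
            simp [map_prod]
          simp only [if_true, ξ']
          congr 1
          exact h3.symm
        · intro α' _ hα'
          refine Finset.sum_eq_zero fun γ _ => ?_
          simp [hα']
        · simp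
    · refine ⟨fun _ => 0, ?_, ?_⟩
      · intro _ ψ
        simp
        positivity
      · have h1 : 𝒢'.coeff α₀ = 0 := by
          have h2 := box_of_le 𝒢' (le_refl dd)
          rw [← h2, box, MvPolynomial.coeff_sum]
          refine Finset.sum_eq_zero fun α _ => ?_
          rw [MvPolynomial.coeff_monomial, if_neg fun hh => hα ⟨α, hh⟩]
        rw [hcoef, h𝓡G, MvPolynomial.coeff_map, h1]
        simp
  refine relK_of_poly1 K io ξ' (fun i => g i t) (T ^ A') (T ^ (-B₀)) P' ?_ hrep s₀ hs₀ ?_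
  · intro x
    refine (MvPolynomial.degreeOf_le_totalDegree _ _).trans ?_
    refine (MvPolynomial.totalDegree_mul _ _).trans ?_
    rw [MvPolynomial.totalDegree_C, zero_add, h𝓡G, hdd]
    exact Finset.sup_mono (MvPolynomial.support_map_subset _ _)
  · have h1 : MvPolynomial.aeval (fun i : I => g i t) P' =
        io (bb : K) ^ J * MvPolynomial.eval (fun i => g i t) 𝓡 := by
      rw [map_mul]
      congr 1
      exact MvPolynomial.aeval_C _ _
    rw [h1, norm_mul, hcoef, norm_mul]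
    have h2 : T ^ (-(B₀ + B₁)) = T ^ (-B₀) * T ^ (-B₁) := by
      rw [neg_add, Real.rpow_add hTp]
    have h3 : 0 ≤ ‖io (bb : K) ^ J‖ := norm_nonneg _
    calc ‖io (bb : K) ^ J‖ * ‖MvPolynomial.eval (fun i => g i t) 𝓡‖
        ≤ ‖io (bb : K) ^ J‖ * (T ^ (-B₀) * T ^ (-B₁)) := mul_le_mul_of_nonneg_left (hval0.trans h2.le) h3
      _ ≤ ‖io (bb : K) ^ J‖ * (T ^ (-B₀) * ‖𝓡.coeff s₀‖) := by
          refine mul_le_mul_of_nonneg_left (mul_le_mul_of_nonneg_left h𝓡0 ?_) h3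
          exact (Real.rpow_pos_of_pos hTp _).le
      _ = T ^ (-B₀) * (‖io (bb : K) ^ J‖ * ‖𝓡.coeff s₀‖) := by ring

end Pool.Agent.U543.SN
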