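import Pool.Agent.Y890.SM.Inst

/-!
# Polynomials which vanish on the fibre of the torsor over a point vanish over the closure of the point
-/

set_option autoImplicit false
set_option linter.unusedSectionVars false

open Matrix

namespace Pool.Agent.U543.SU

open Pool.Agent.Y890.MV
open Pool.Agent.Y890.SM
open Pool.Agent.Y890.SP (Qbar ioQ ioQ_coe)

variable {X : Type} [Fintype X] [DecidableEq X] {ι : Type} [Fintype ι] [DecidableEq ι] {n : ι → ℕ} {k : ℕ}

/-- the value of `Φ` at `Y`, `ζ`, `μ` -/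
noncomputable def evQ (Φ : MvPolynomial (Ix n ⊕ Option (Fin k)) Qbar) (Y : Ix n → ℂ) (ζ : Fin k → ℂ) (μ : ℂ) : ℂ :=
  MvPolynomial.aeval (Sum.elim Y (fun o => o.elim μ ζ)) Φ

/-- the value of `G` at `ζ`, `μ` -/
noncomputable def evG (G : MvPolynomial (Option (Fin k)) Qbar) (ζ : Fin k → ℂ) (μ : ℂ) : ℂ :=
  MvPolynomial.aeval (fun o => o.elim μ ζ) G

/-- even and odd part -/
theorem exists_split (w : ι → ℕ) (W : Ix n → Qbar) (Φ : MvPolynomial (Ix n ⊕ Option (Fin k)) Qbar) :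
    ∃ G₀ G₁ : MvPolynomial (Option (Fin k)) Qbar, ∀ (ζ : Fin k → ℂ) (z : ℂ),
      evQ Φ (fun q => z ^ w q.1 * algebraMap Qbar ℂ (W q)) ζ (z ^ 2) = evG G₀ ζ (z ^ 2) + z * evG G₁ ζ (z ^ 2) := by
  induction Φ using MvPolynomial.induction_on with
  | C a =>
    refine ⟨MvPolynomial.C a, 0, fun ζ z => ?_⟩
    simp [evQ, evG, MvPolynomial.algHom_C]
  | add p q hp hq =>
    obtain ⟨G₀, G₁, h⟩ := hp
    obtain ⟨G₀', G₁', h'⟩ := hq
    refine ⟨G₀ + G₀', G₁ + G₁', fun ζ z => ?_⟩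
    have h1 := h ζ z
    have h2 := h' ζ z
    simp only [evQ, evG, map_add] at h1 h2 ⊢
    rw [h1, h2]
    ring
  | mul_X p i hp =>
    obtain ⟨G₀, G₁, h⟩ := hp
    rcases i with q | o
    · rcases Nat.even_or_odd' (w q.1) with ⟨m, hm | hm⟩
      · refine ⟨MvPolynomial.C (W q) * MvPolynomial.X none ^ m * G₀, MvPolynomial.C (W q) * MvPolynomial.X none ^ m * G₁,
          fun ζ z => ?_⟩
        have h1 := h ζ z
        simp only [evQ, evG, map_mul, map_pow, MvPolynomial.aeval_X, MvPolynomial.algHom_C, Sum.elim_inl,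
          Option.elim_none, hm] at h1 ⊢
        rw [h1]
        ring
      · refine ⟨MvPolynomial.C (W q) * MvPolynomial.X none ^ (m + 1) * G₁,
          MvPolynomial.C (W q) * MvPolynomial.X none ^ m * G₀, fun ζ z => ?_⟩
        have h1 := h ζ z
        simp only [evQ, evG, map_mul, map_pow, MvPolynomial.aeval_X, MvPolynomial.algHom_C, Sum.elim_inl,
          Option.elim_none, hm] at h1 ⊢
        rw [h1]
        ring
    · refine ⟨MvPolynomial.X o * G₀, MvPolynomial.X o * G₁, fun ζ z => ?_⟩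
      have h1 := h ζ z
      simp only [evQ, evG, map_mul, MvPolynomial.aeval_X, Sum.elim_inr] at h1 ⊢
      rw [h1]
      ring

/-- the value as a polynomial in the symplectic matrices -/
theorem exists_poly (Φ : MvPolynomial (Ix n ⊕ Option (Fin k)) Qbar) (V : ∀ i, Matrix (Fin (n i)) (Fin (n i)) ℂ)
    (ζ : Fin k → ℂ) (μ : ℂ) : ∃ R : MvPolynomial (Ix n) ℂ, ∀ M : ∀ i, Matrix (Fin (n i)) (Fin (n i)) ℂ,
      MvPolynomial.eval (fun q => M q.1 q.2.1 q.2.2) R = evQ Φ (fun q => (M q.1 * V q.1) q.2.1 q.2.2) ζ μ := by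
  refine ⟨MvPolynomial.eval₂ ((MvPolynomial.C).comp (algebraMap Qbar ℂ))
    (Sum.elim (fun q => ∑ l, MvPolynomial.X ⟨q.1, (q.2.1, l)⟩ * MvPolynomial.C (V q.1 l q.2.2))
      (fun o => MvPolynomial.C (o.elim μ ζ))) Φ, fun M => ?_⟩
  rw [MvPolynomial.eval₂_comp_left, evQ, MvPolynomial.aeval_def]
  congr 1
  · ext a
    simp
  · funext i
    rcases i with q | o
    · simp [Matrix.mul_apply]
    · simp

/-- **The extension of relations.** -/
theorem extend (F : SympFam X n) (e : X → Qbar) (he : (fun j => algebraMap Qbar ℂ (e j)) ∈ F.U)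
    (Φ : MvPolynomial (Ix n ⊕ Option (Fin k)) Qbar) (ξ : Fin k → ℂ)
    (h : ∀ Y ∈ F.Tor (fun j => algebraMap Qbar ℂ (e j)), evQ Φ Y ξ tpi = 0)
    (ζ : Fin k → ℂ) (μ : ℂ) (hcl : ∀ G : MvPolynomial (Option (Fin k)) Qbar, evG G ξ tpi = 0 → evG G ζ μ = 0)
    (hμ : μ ≠ 0) (Y : ∀ i, Matrix (Fin (n i)) (Fin (n i)) ℂ)
    (hY : ∀ i, Y i * F.Qx (fun j => algebraMap Qbar ℂ (e j)) i * (Y i).transpose = μ ^ F.w i • F.Jx i) :
    evQ Φ (fun q => Y q.1 q.2.1 q.2.2) ζ μ = 0 := by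
  classical
  set φ : Qbar →+* ℂ := algebraMap Qbar ℂ with hφ
  choose U hU using F.exists_U e he
  obtain ⟨z, hz⟩ := IsAlgClosed.exists_pow_nat_eq μ (n := 2) two_pos
  have e1 : ∀ r : ℚ, φ (algebraMap ℚ Qbar r) = algebraMap ℚ ℂ r := fun r =>
    (IsScalarTower.algebraMap_apply ℚ Qbar ℂ r).symm
  -- the relations for the rational matrices
  have key : ∀ γ ∈ F.Γ, evQ Φ (fun q => ((γ q.1).map (algebraMap ℚ ℂ) * (z ^ F.w q.1 • (U q.1).map φ)) q.2.1 q.2.2) ζ
      (z ^ 2) = 0 := by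
    intro γ hγ
    have hW : ∀ (v : ℂ), (fun q : Ix n => ((γ q.1).map (algebraMap ℚ ℂ) * (v ^ F.w q.1 • (U q.1).map φ)) q.2.1 q.2.2) =
        fun q : Ix n => v ^ F.w q.1 * φ (((γ q.1).map (algebraMap ℚ Qbar) * U q.1) q.2.1 q.2.2) := by
      intro v
      funext q
      simp only [Matrix.mul_apply, Matrix.map_apply, Matrix.smul_apply, smul_eq_mul, map_sum, map_mul, e1,
        Finset.mul_sum]
      refine Finset.sum_congr rfl fun l _ => ?_
      ring
    obtain ⟨G₀, G₁, hG⟩ := exists_split F.w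
      (fun q : Ix n => ((γ q.1).map (algebraMap ℚ Qbar) * U q.1) q.2.1 q.2.2) Φ
    obtain ⟨s, hs⟩ := IsAlgClosed.exists_pow_nat_eq tpi (n := 2) two_pos
    have hmem : ∀ v : ℂ, v ^ 2 = tpi → evG G₀ ξ tpi + v * evG G₁ ξ tpi = 0 := by
      intro v hv
      have h1 := hG ξ v
      rw [hv] at h1
      rw [← h1, ← hW v]
      refine h _ (F.mem_tor _ (fun i => (γ i).map (algebraMap ℚ ℂ) * (v ^ F.w i • (U i).map φ)) fun i => ?_)
      have h6 := F.scal hU v i
      rw [hv] at h6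
      refine sp_mul ?_ h6
      have h7 := congrArg (fun M : Matrix (Fin (n i)) (Fin (n i)) ℚ => M.map (algebraMap ℚ ℂ)) (F.pres γ hγ i)
      simp only [Matrix.map_mul] at h7
      rw [Matrix.transpose_map] at h7
      exact h7
    have h1 := hmem s hs
    have h2 := hmem (-s) (by rw [neg_sq, hs])
    have hs0 : s ≠ 0 := by
      intro h0
      rw [h0] at hs
      exact tpi_ne (by rw [← hs]; simp)
    have h3 : evG G₀ ξ tpi = 0 := by linear_combination (h1 + h2) / 2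
    have h4 : evG G₁ ξ tpi = 0 := by
      have h5 : s * evG G₁ ξ tpi = 0 := by linear_combination (h1 - h2) / 2
      exact (mul_eq_zero.1 h5).resolve_left hs0
    rw [hW z, hG ζ z, hz, hcl G₀ h3, hcl G₁ h4]
    simp
  -- density
  obtain ⟨R, hR⟩ := exists_poly Φ (fun i => z ^ F.w i • (U i).map φ) ζ (z ^ 2)
  have hsc := fun i => F.scal hU z i
  rw [hz] at hsc
  have hd := fun i => sp_diff (pow_ne_zero (F.w i) hμ) (F.Jx_det i) (hY i) (hsc i)
  have h1 := F.dense R (fun γ hγ => by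
    have h2 := hR (fun i => (γ i).map (algebraMap ℚ ℂ))
    rw [h2]
    exact key γ hγ) (fun i => Y i * (z ^ F.w i • (U i).map φ)⁻¹) (fun i => (hd i).1)
  have h3 := hR (fun i => Y i * (z ^ F.w i • (U i).map φ)⁻¹)
  rw [h3] at h1
  have h4 : (fun q : Ix n => (Y q.1 * (z ^ F.w q.1 • (U q.1).map φ)⁻¹ * (z ^ F.w q.1 • (U q.1).map φ)) q.2.1 q.2.2) =
      fun q : Ix n => Y q.1 q.2.1 q.2.2 := by
    funext q
    rw [(hd q.1).2]
  rw [h4, hz] at h1
  exact h1

end Pool.Agent.U543.SU
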