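import Pool.Agent.Y890.SM.Inst

/-!
# Generic points of products of torsors
-/

set_option autoImplicit false
set_option linter.unusedSectionVars false

open Matrix Filter Topology

namespace Pool.Agent.U543.TU

open Pool.Agent.Y890.MV
open Pool.Agent.Y890.SM

/-- **Generic points.** A closed set in which any two points can be joined by a polynomial curve is not a countable union
of zero sets of polynomials which do not vanish on it. -/
theorem exists_generic {B : Type} [Fintype B] {V : Set (B → ℂ)} (hc : IsClosed V) (hne : V.Nonempty)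
    (hp : ∀ Y0 ∈ V, ∀ Y1 ∈ V, ∃ γ : B → Polynomial ℂ, (∀ b, (γ b).eval 0 = Y0 b) ∧ (∀ b, (γ b).eval 1 = Y1 b) ∧
      ∀ t, (fun b => (γ b).eval t) ∈ V)
    {M : Type} [Countable M] (p : M → MvPolynomial B ℂ) :
    ∃ Y ∈ V, ∀ m, MvPolynomial.eval Y (p m) = 0 → ∀ Z ∈ V, MvPolynomial.eval Z (p m) = 0 := by
  classical
  have hcs : CompleteSpace V := hc.completeSpace_coe
  set M' : Type := {m : M // ∃ Z ∈ V, MvPolynomial.eval Z (p m) ≠ 0}
  have hcont : ∀ m : M, Continuous fun Y : V => MvPolynomial.eval (Y : B → ℂ) (p m) := fun m =>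
    (MvPolynomial.continuous_eval (p m)).comp continuous_subtype_val
  have hd : Dense (⋂ m : M', {Y : V | MvPolynomial.eval (Y : B → ℂ) (p m) ≠ 0}) := by
    refine dense_iInter_of_isOpen (fun m => ?_) fun m => ?_
    · exact isOpen_ne.preimage (hcont m)
    · intro Y0
      obtain ⟨m, Y1, hY1, hne1⟩ := m
      obtain ⟨γ, h0, h1, hV⟩ := hp Y0 Y0.2 Y1 hY1
      -- the polynomial along the curve
      set q : Polynomial ℂ := MvPolynomial.aeval γ (p m) with hq
      have hqe : ∀ t : ℂ, q.eval t = MvPolynomial.eval (fun b => (γ b).eval t) (p m) := by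
        intro t
        have e1 : q.eval t = Polynomial.evalRingHom t q := rfl
        rw [e1, hq, MvPolynomial.aeval_def, MvPolynomial.hom_eval₂]
        have e2 : (Polynomial.evalRingHom t).comp (algebraMap ℂ (Polynomial ℂ)) = RingHom.id ℂ := by
          ext a <;> simp
        rw [e2]
        rfl
      have hq0 : q ≠ 0 := by
        intro h
        apply hne1
        have e3 := hqe 1
        rw [h, Polynomial.eval_zero] at e3
        have e4 : (fun b => (γ b).eval 1) = Y1 := funext h1
        rw [e4] at e3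
        exact e3.symm
      rw [mem_closure_iff_seq_limit]
      -- a sequence of parameters tending to zero
      have hfin : {t : ℂ | q.eval t = 0}.Finite := by
        refine (q.roots.toFinset.finite_toSet).subset fun t ht => ?_
        simp only [Finset.mem_coe, Multiset.mem_toFinset]
        rw [Polynomial.mem_roots hq0]
        exact ht
      have hev : ∀ᶠ k : ℕ in atTop, q.eval (((k : ℂ) + 1)⁻¹) ≠ 0 := by
        have hinj : Function.Injective fun k : ℕ => (((k : ℂ) + 1)⁻¹) := by
          intro a b hab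
          have := inv_injective hab
          exact_mod_cast (add_right_cancel this)
        have hf2 : {k : ℕ | q.eval (((k : ℂ) + 1)⁻¹) = 0}.Finite := hfin.preimage hinj.injOn
        rw [← Nat.cofinite_eq_atTop]
        exact hf2.compl_mem_cofinite
      obtain ⟨k0, hk0⟩ := eventually_atTop.1 hev
      refine ⟨fun k => ⟨fun b => (γ b).eval ((((k + k0 : ℕ) : ℂ) + 1)⁻¹), hV _⟩, fun k => ?_, ?_⟩
      · show MvPolynomial.eval (fun b => (γ b).eval ((((k + k0 : ℕ) : ℂ) + 1)⁻¹)) (p m) ≠ 0
        rw [← hqe]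
        exact hk0 _ (by omega)
      · rw [tendsto_subtype_rng]
        rw [tendsto_pi_nhds]
        intro b
        have e5 : Tendsto (fun k : ℕ => (((k + k0 : ℕ) : ℂ) + 1)⁻¹) atTop (𝓝 0) := by
          have e6 : Tendsto (fun k : ℕ => (((k : ℕ) : ℂ) + 1)⁻¹) atTop (𝓝 0) := by
            have e7 := tendsto_one_div_add_atTop_nhds_zero_nat (𝕜 := ℂ)
            simpa only [one_div] using e7
          exact (tendsto_add_atTop_iff_nat k0).2 e6
        have e8 := ((γ b).continuous.tendsto 0).comp e5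
        rw [h0 b] at e8
        exact e8
  have : Nonempty V := hne.to_subtype
  obtain ⟨Y, hY⟩ := hd.nonempty
  refine ⟨Y, Y.2, fun m hm => ?_⟩
  by_contra hcon
  push Not at hcon
  rw [Set.mem_iInter] at hY
  exact hY ⟨m, hcon⟩ hm

variable {X : Type} [Fintype X] [DecidableEq X] {ι : Type} [Fintype ι] [DecidableEq ι] {n : ι → ℕ}

theorem tor_closed (F : SympFam X n) (x : X → ℂ) : IsClosed (F.Tor x) := by
  have h1 : F.Tor x = ⋂ i, {Y : Ix n → ℂ | bl Y i * F.Qx x i * (bl Y i).transpose = tpi ^ F.w i • F.Jx i} := by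
    ext Y
    simp [SympFam.Tor]
  rw [h1]
  refine isClosed_iInter fun i => isClosed_eq ?_ continuous_const
  have h2 : Continuous fun Y : Ix n → ℂ => bl Y i := by
    refine continuous_matrix fun a b => ?_
    exact continuous_apply _
  exact (h2.matrix_mul continuous_const).matrix_mul h2.matrix_transpose

/-- paths between any two points of the torsor -/
theorem tor_path (F : SympFam X n) {x : X → ℂ} (Y0 Y1 : Ix n → ℂ) (h0 : Y0 ∈ F.Tor x) (h1 : Y1 ∈ F.Tor x) :
    ∃ γ : Ix n → Polynomial ℂ, (∀ s, (γ s).eval 0 = Y0 s) ∧ (∀ s, (γ s).eval 1 = Y1 s) ∧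
      ∀ t, (fun s => (γ s).eval t) ∈ F.Tor x := by
  have h1 := fun i => sp_diff (pow_ne_zero (F.w i) tpi_ne) (F.Jx_det i) (h1 i) (h0 i)
  choose G hG0 hG1 hG using fun i => sp_path (F.Jx_alt i) (F.Jx_det i) _ (h1 i).1
  have hev : ∀ (t : ℂ) (q : Ix n), (∑ k, G q.1 q.2.1 k * Polynomial.C (bl Y0 q.1 k q.2.2)).eval t =
      ((G q.1).map (Polynomial.eval t) * bl Y0 q.1) q.2.1 q.2.2 := by
    intro t q
    rw [Polynomial.eval_finsetSum, Matrix.mul_apply]
    refine Finset.sum_congr rfl fun k _ => ?_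
    rw [Polynomial.eval_mul, Polynomial.eval_C, Matrix.map_apply]
  refine ⟨fun q => ∑ k, G q.1 q.2.1 k * Polynomial.C (bl Y0 q.1 k q.2.2), ?_, ?_, ?_⟩
  · intro q
    rw [hev, hG0, one_mul]
    rfl
  · intro q
    rw [hev, hG1, (h1 q.1).2]
    rfl
  · intro t i
    have h2 : bl (fun q : Ix n => (∑ k, G q.1 q.2.1 k * Polynomial.C (bl Y0 q.1 k q.2.2)).eval t) i =
        (G i).map (Polynomial.eval t) * bl Y0 i := by
      ext a b
      exact hev t ⟨i, (a, b)⟩
    rw [h2]
    exact sp_mul (hG i t) (h0 i)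

/-- **Generic points of products of torsors.** -/
theorem exists_generic_tor (F : SympFam X n) {A : Type} [Fintype A] (x : A → X → ℂ) (hx : ∀ a, x a ∈ F.U)
    {M : Type} [Countable M] (p : M → MvPolynomial (A × Ix n) ℂ) :
    ∃ G : A → Ix n → ℂ, (∀ a, G a ∈ F.Tor (x a)) ∧
      ∀ m, MvPolynomial.eval (fun b : A × Ix n => G b.1 b.2) (p m) = 0 →
        ∀ Y : A → Ix n → ℂ, (∀ a, Y a ∈ F.Tor (x a)) → MvPolynomial.eval (fun b : A × Ix n => Y b.1 b.2) (p m) = 0 := by
  set V : Set (A × Ix n → ℂ) := {Z | ∀ a, (fun q => Z (a, q)) ∈ F.Tor (x a)} with hV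
  have hc : IsClosed V := by
    have h1 : V = ⋂ a, {Z | (fun q => Z (a, q)) ∈ F.Tor (x a)} := by
      ext Z
      simp [hV]
    rw [h1]
    refine isClosed_iInter fun a => (tor_closed F (x a)).preimage ?_
    exact continuous_pi fun q => continuous_apply _
  have hne : V.Nonempty := ⟨fun b => F.f b.2 (x b.1), fun a => F.tor.self (x a) (hx a)⟩
  obtain ⟨G, hG, hG2⟩ := exists_generic hc hne (fun Y0 h0 Y1 h1 => by
    choose γ h2 h3 h4 using fun a => tor_path F _ _ (h0 a) (h1 a)
    exact ⟨fun b => γ b.1 b.2, fun b => h2 b.1 b.2, fun b => h3 b.1 b.2, fun t a => h4 a t⟩) p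
  exact ⟨fun a q => G (a, q), hG, fun m hm Y hY => hG2 m hm (fun b => Y b.1 b.2) hY⟩

end Pool.Agent.U543.TU
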