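import Pool.Agent.U543.TupGen
import Pool.Agent.U543.TupPow
import Pool.Agent.U543.TupDef
import Pool.Agent.U543.SumMain

/-!
# Relations between the periods of tuples of fibres
-/

set_option autoImplicit false
set_option linter.unusedSectionVars false

open NumberField Filter Matrix

namespace Pool.Agent.U543.TU

open Pool.Agent.Y890.MV
open Pool.Agent.Y890.SM
open Pool.Agent.Y890.SP (Qbar ioQ ioQ_coe)
open Pool.Agent.Y124 (Cov)
open Pool.Agent.U543.GS (ex ex_apply eval2_eq FibG ExcF excF_cov)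
open Pool.Agent.U543.GD (norm_le_of_house)
open Pool.Agent.U543.SU (Closure evQ evG extend tor_sub)

variable {X : Type} [Fintype X] [DecidableEq X] {ι : Type} [Fintype ι] [DecidableEq ι] {n : ι → ℕ} {k : ℕ}

/-- the variables -/
abbrev Var (n : ι → ℕ) (k : ℕ) : Type := (Fin k × Ix n) ⊕ Option (Fin k)

/-- The field generated by the algebraic numbers and the numbers `z a`. -/
noncomputable def CoV (z : Var n k → ℂ) : Subfield ℂ := Subfield.closure ({z | IsAlgebraic ℚ z} ∪ Set.range z)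

/-- the numbers `z a` as elements of the field -/
noncomputable def xv (z : Var n k → ℂ) (a : Var n k) : CoV z := ⟨z a, Subfield.subset_closure (Or.inr ⟨a, rfl⟩)⟩

/-- the monomials in the entries of the `j`-th matrices -/
noncomputable def QJ (j : Fin k) (z : Var n k → ℂ) (_ : Unit) (i : Var n k → Fin (k + 1)) :
    MvPolynomial (Ix n) (CoV z) :=
  MvPolynomial.monomial (Finsupp.equivFunOnFinite.symm fun y => (i (Sum.inl (j, y)) : ℕ)) (∏ a, xv z a ^ (i a : ℕ))

theorem QJ_deg (j : Fin k) (z : Var n k → ℂ) (ρ : Unit) (i : Var n k → Fin (k + 1)) (y : Ix n) :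
    (QJ j z ρ i).degreeOf y ≤ k := by
  classical
  refine MvPolynomial.degreeOf_le_iff.2 fun m hm => ?_
  have h1 := MvPolynomial.support_monomial_subset hm
  rw [Finset.mem_singleton] at h1
  rw [h1]
  have := (i (Sum.inl (j, y))).2
  show (i (Sum.inl (j, y)) : ℕ) ≤ k
  omega

/-- the values of the variables with the `j`-th matrices replaced by `1` -/
def cut (j : Fin k) (z : Var n k → ℂ) : Var n k → ℂ
  | Sum.inl (l, y) => if l = j then 1 else z (Sum.inl (l, y))
  | Sum.inr o => z (Sum.inr o)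

/-- the values of the variables with the `j`-th matrices replaced by `Y` -/
def put (j : Fin k) (Y : Ix n → ℂ) (z : Var n k → ℂ) : Var n k → ℂ
  | Sum.inl (l, y) => if l = j then Y y else z (Sum.inl (l, y))
  | Sum.inr o => z (Sum.inr o)

theorem QJ_eval (j : Fin k) (z : Var n k → ℂ) (i : Var n k → Fin (k + 1)) (Y : Ix n → ℂ) :
    MvPolynomial.eval₂ (CoV (cut j z)).subtype Y (QJ j (cut j z) () i) = ∏ y, (put j Y z) y ^ (i y : ℕ) := by
  rw [QJ, MvPolynomial.eval₂_monomial, Finsupp.prod_fintype _ _ (fun y => pow_zero _), map_prod]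
  have h1 : ∀ a : Var n k, (CoV (cut j z)).subtype (xv (cut j z) a ^ (i a : ℕ)) = cut j z a ^ (i a : ℕ) := by
    intro a
    rfl
  simp only [h1]
  rw [Fintype.prod_sum_type, Fintype.prod_sum_type, mul_right_comm]
  have h2 : ∀ o : Option (Fin k), cut j z (Sum.inr o) = put j Y z (Sum.inr o) := fun o => rfl
  simp only [h2]
  congr 1
  rw [Fintype.prod_prod_type, Fintype.prod_prod_type]
  rw [← Finset.mul_prod_erase _ _ (Finset.mem_univ j), ← Finset.mul_prod_erase _ _ (Finset.mem_univ j)]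
  have h3 : ∏ y : Ix n, cut j z (Sum.inl (j, y)) ^ (i (Sum.inl (j, y)) : ℕ) = 1 := by
    refine Finset.prod_eq_one fun y _ => ?_
    simp [cut]
  rw [h3, one_mul, mul_comm]
  congr 1
  · refine Finset.prod_congr rfl fun y _ => ?_
    simp only [put, if_true]
    rfl
  · refine Finset.prod_congr rfl fun l hl => Finset.prod_congr rfl fun y _ => ?_
    have h4 : l ≠ j := Finset.ne_of_mem_erase hl
    simp [cut, put, h4]

/-- the value of a relation at the values `z` of the variables -/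
noncomputable def vl {K : Type} [Field K] (io : K →+* ℂ) (Φ : MvPolynomial (Var n k) (𝓞 K)) (z : Var n k → ℂ) : ℂ :=
  MvPolynomial.eval₂ (io.comp (algebraMap (𝓞 K) K)) z Φ

theorem vl_eq {K : Type} [Field K] (io : K →+* ℂ) (Φ : MvPolynomial (Var n k) (𝓞 K))
    (hΦ : ∀ i, Φ.degreeOf i ≤ k) (j : Fin k) (Y : Ix n → ℂ) (z : Var n k → ℂ) :
    vl io Φ (put j Y z) = ∑ i : Var n k → Fin (k + 1),
      MvPolynomial.eval₂ (CoV (cut j z)).subtype Y (QJ j (cut j z) () i) *
        io ((MvPolynomial.coeff (ex i) Φ : 𝓞 K) : K) := by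
  rw [vl, eval2_eq (δ := k) _ Φ hΦ]
  refine Finset.sum_congr rfl fun i _ => ?_
  rw [QJ_eval, mul_comm]
  rfl

/-- the exceptional points for one fibre, relative to the values `z` of the other variables -/
def EX (F : SympFam X n) (k : ℕ) (K : Type) [Field K] [NumberField K] (io : K →+* ℂ)
    (p : Fin k × (Var n k → ℂ)) (T : ℝ) : Set (X → K) :=
  ExcF (CoV (cut p.1 p.2)) (QJ p.1 (cut p.1 p.2)) F.U F.f (InnerM F.U k) K io (k : ℝ) T

/-- one step -/
theorem step (F : SympFam X n) (hk : 0 < k) {K : Type} [Field K] [NumberField K] (io : K →+* ℂ) (T : ℝ)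
    (Φ : MvPolynomial (Var n k) (𝓞 K)) (hΦ1 : ∀ i, Φ.degreeOf i ≤ k)
    (hΦ2 : ∀ e, house ((MvPolynomial.coeff e Φ : 𝓞 K) : K) ≤ T ^ k) (j : Fin k) (z : Var n k → ℂ) (s : X → K)
    (hs : s ∈ Pts F k K io T) (hE : s ∉ EX F k K io (j, z) T)
    (h0 : vl io Φ (put j (fun q => F.f q fun x => io (s x)) z) = 0) (Y : Ix n → ℂ)
    (hY : Y ∈ F.Tor (fun x => io (s x))) : vl io Φ (put j Y z) = 0 := by
  by_contra hne
  apply hE
  refine ⟨hs.1, hs.2, fun i => MvPolynomial.coeff (ex i) Φ, ?_, ?_, ?_⟩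
  · intro i φ
    rw [Real.rpow_natCast]
    exact norm_le_of_house (hΦ2 _) φ
  · rintro ⟨⟩
    rw [vl_eq io Φ hΦ1] at h0
    exact h0
  · intro h
    apply hne
    rw [vl_eq io Φ hΦ1]
    exact h Y (tor_sub F _ (innerM_sub _ hk hs.2) hY) ()

/-- the mixed values: the periods for the first fibres, generic points of the torsors for the others -/
noncomputable def mix (F : SympFam X n) (s : Fin k → X → ℂ) (G : Fin k → Ix n → ℂ) (ξ : Fin k → ℂ) (m : ℕ) : Var n k → ℂ
  | Sum.inl (l, y) => if (l : ℕ) < m then F.f y (s l) else G l y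
  | Sum.inr o => o.elim tpi ξ

theorem mix_put (F : SympFam X n) (s : Fin k → X → ℂ) (G : Fin k → Ix n → ℂ) (ξ : Fin k → ℂ) (j : Fin k)
    (z : Var n k → ℂ) (hz : ∀ l, l ≠ j → ∀ y, z (Sum.inl (l, y)) = mix F s G ξ j (Sum.inl (l, y)))
    (hz2 : ∀ o, z (Sum.inr o) = o.elim tpi ξ) :
    put j (fun q => F.f q (s j)) z = mix F s G ξ (j + 1) ∧ put j (G j) z = mix F s G ξ j := by
  constructor
  · funext a
    rcases a with ⟨l, y⟩ | o
    · by_cases h : l = j
      · subst h
        simp [put, mix]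
      · have h1 : ((l : ℕ) < (j : ℕ) + 1) ↔ (l : ℕ) < j := by
          have : (l : ℕ) ≠ j := fun h2 => h (Fin.ext h2)
          omega
        simp only [put, h, if_false, hz l h y, mix, h1]
    · simp [put, mix, hz2]
  · funext a
    rcases a with ⟨l, y⟩ | o
    · by_cases h : l = j
      · subst h
        simp [put, mix]
      · simp only [put, h, if_false, hz l h y]
    · simp [put, mix, hz2]

/-- from the periods to the generic points of the torsors -/
theorem descend (F : SympFam X n) {K : Type} [Field K] [NumberField K] (io : K →+* ℂ) (T : ℝ) (ξ : Fin k → ℂ)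
    (s : Fin k → X → K) (hs : ∀ j, s j ∈ Pts F k K io T) (G : Fin k → Ix n → ℂ)
    (hG : ∀ j, G j ∈ F.Tor (fun x => io (s j x))) (z : Fin k → Var n k → ℂ)
    (hz : ∀ j l, l ≠ j → ∀ y, z j (Sum.inl (l, y)) = mix F (fun j x => io (s j x)) G ξ j (Sum.inl (l, y)))
    (hz2 : ∀ j o, z j (Sum.inr o) = o.elim tpi ξ)
    (hE : ∀ j, s j ∉ EX F k K io (j, z j) T)
    (Φ : MvPolynomial (Var n k) (𝓞 K)) (hΦ1 : ∀ i, Φ.degreeOf i ≤ k)
    (hΦ2 : ∀ e, house ((MvPolynomial.coeff e Φ : 𝓞 K) : K) ≤ T ^ k)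
    (h0 : vl io Φ (mix F (fun j x => io (s j x)) G ξ k) = 0) : vl io Φ (mix F (fun j x => io (s j x)) G ξ 0) = 0 := by
  have key : ∀ m, m ≤ k → vl io Φ (mix F (fun j x => io (s j x)) G ξ (k - m)) = 0 := by
    intro m
    induction m with
    | zero => intro _; exact h0
    | succ m ih =>
      intro hm
      have h1 := ih (by omega)
      obtain ⟨h2, h3⟩ := mix_put F (fun j x => io (s j x)) G ξ (⟨k - (m + 1), by omega⟩ : Fin k) (z ⟨k - (m + 1), by omega⟩)
        (hz _) (hz2 _)
      have h4 : ((⟨k - (m + 1), by omega⟩ : Fin k) : ℕ) + 1 = k - m := by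
        show k - (m + 1) + 1 = k - m
        omega
      rw [h4] at h2
      have h5 := step F (by omega) io T Φ hΦ1 hΦ2 ⟨k - (m + 1), by omega⟩ (z ⟨k - (m + 1), by omega⟩) _ (hs _) (hE _)
        (by rw [h2]; exact h1) _ (hG ⟨k - (m + 1), by omega⟩)
      rw [h3] at h5
      exact h5
  have := key k le_rfl
  rwa [Nat.sub_self] at this

end Pool.Agent.U543.TU
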