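import Pool.Agent.U543.FibDef

/-!
# Numerical and formal tests for the equality of values of functions defined over a field: definitions
-/

set_option autoImplicit false

open NumberField Polynomial

namespace Pool.Agent.U543.TY

open Pool.Agent.U543.GD (Height Inner)
open Pool.Agent.U543.FD (Fibre at_)

variable {X ι ι' : Type} [Fintype X]

/-- The partial derivative of `g` with respect to the coordinate `i`. -/
noncomputable def pd [DecidableEq X] (i : X) (g : (X → ℂ) → ℂ) (x : X → ℂ) : ℂ := fderiv ℂ g x (Pi.single i 1)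

/-- The iterated partial derivatives of `g`. -/
noncomputable def pdL [DecidableEq X] : List X → ((X → ℂ) → ℂ) → (X → ℂ) → ℂ
  | [], g => g
  | i :: L, g => pdL L (pd i g)

/-- All partial derivatives, of all orders, of the entries of `P` at some point of `U` with coordinates in `R` are in
`R`. -/
def DefinedOver [DecidableEq X] (R : Subfield ℂ) (U : Set (X → ℂ)) (P : (X → ℂ) → Matrix ι ι' ℂ) : Prop :=
  ∃ x₀ ∈ U, (∀ j, x₀ j ∈ R) ∧ ∀ (i : ι) (j : ι') (L : List X), pdL L (fun x => P x i j) x₀ ∈ R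

/-- `R` contains the algebraic numbers, and a linear form with fixed coefficients in `R` has at integers of number
fields of bounded degree, with conjugates at most `T`, the value zero or a value of norm at least a fixed negative power
of `T`. -/
def Separated (R : Subfield ℂ) : Prop :=
  (∀ z : ℂ, IsAlgebraic ℚ z → z ∈ R) ∧ ∀ (h m : ℕ) (a : Fin h → ℂ), (∀ i, a i ∈ R) → ∃ κ T₀ : ℝ,
    ∀ (K : Type) [Field K] [NumberField K], Module.finrank ℚ K ≤ m → ∀ (io : K →+* ℂ) (y : Fin h → 𝓞 K) (T : ℝ),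
      T₀ ≤ T → (∀ i, house (y i : K) ≤ T) →
      ∑ i, a i * io (y i : K) = 0 ∨ T ^ (-κ) ≤ ‖∑ i, a i * io (y i : K)‖

/-- The numbers `Θ a` have a measure of algebraic independence, polynomial in the height for each bound for the
degree. -/
def Meas {r : ℕ} (Θ : Fin r → ℂ) : Prop :=
  ∀ D : ℕ, ∃ κ c : ℝ, 0 < c ∧ ∀ G : MvPolynomial (Fin r) ℤ, G ≠ 0 → G.totalDegree ≤ D → ∀ H : ℝ, 1 ≤ H →
    (∀ e, |((MvPolynomial.coeff e G : ℤ) : ℝ)| ≤ H) → c ≤ H ^ κ * ‖MvPolynomial.aeval Θ G‖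

/-- `Φ` has degree at most `k` in each variable and the conjugates of its coefficients are at most `T ^ k`. -/
def Bounded {K : Type} [Field K] [NumberField K] (k : ℕ) (T : ℝ) (Φ : MvPolynomial ((ι × ι') ⊕ Fin k) (𝓞 K)) : Prop :=
  (∀ i, Φ.degreeOf i ≤ k) ∧ ∀ e, house ((MvPolynomial.coeff e Φ : 𝓞 K) : K) ≤ T ^ k

/-- The equality of two numbers of the form `Φ(P(x), ξ)`, `Φ` a polynomial over the integers of `K`, `Bounded k T`, is
decided numerically with precision `δ` and formally: if `a₁`, `a₂` are ANY approximations with errors at most `δ` of the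
numbers for `Φ₁` and `Φ₂`, then the numbers are equal if and only if `|a₁ - a₂| ≤ 2 δ`, and if and only if `Φ₁ = Φ₂` on
the fibre at `x` of the Zariski closure over `R` of the graph of `P`. -/
def Decided (R : Subfield ℂ) (U : Set (X → ℂ)) (P : (X → ℂ) → Matrix ι ι' ℂ) (ξ : ℕ → ℂ) (k : ℕ) (K : Type) [Field K]
    [NumberField K] (io : K →+* ℂ) (T δ : ℝ) (x : X → ℂ) : Prop :=
  ∀ Φ₁ Φ₂ : MvPolynomial ((ι × ι') ⊕ Fin k) (𝓞 K), Bounded k T Φ₁ → Bounded k T Φ₂ → ∀ a₁ a₂ : ℂ,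
    ‖a₁ - at_ io Φ₁ (P x) (fun a => ξ a)‖ ≤ δ → ‖a₂ - at_ io Φ₂ (P x) (fun a => ξ a)‖ ≤ δ →
    (at_ io Φ₁ (P x) (fun a => ξ a) = at_ io Φ₂ (P x) (fun a => ξ a) ↔ ‖a₁ - a₂‖ ≤ 2 * δ) ∧
    (at_ io Φ₁ (P x) (fun a => ξ a) = at_ io Φ₂ (P x) (fun a => ξ a) ↔
      ∀ Y ∈ Fibre R U P x, at_ io Φ₁ Y (fun a => ξ a) = at_ io Φ₂ Y (fun a => ξ a))

/-- The points of `U` with coordinates in `K` of height at most `T`, of norm at most `k` and at distance at least `1 / k`
from the complement of `U`, at which the equality is not decided with precision `δ`. -/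
def Undecided (R : Subfield ℂ) (U : Set (X → ℂ)) (P : (X → ℂ) → Matrix ι ι' ℂ) (ξ : ℕ → ℂ) (k : ℕ) (K : Type)
    [Field K] [NumberField K] (io : K →+* ℂ) (T δ : ℝ) : Set (X → K) :=
  {s | (∀ j, s j ∈ Height K T) ∧ (fun j => io (s j)) ∈ Inner U k ∧
    ¬ Decided R U P ξ k K io T δ (fun j => io (s j))}

/-- `Y` is a solution on `U` of a linear system `q ∂_j Y = A_j Y` over `R[x]`, `q` without zeros on `U`, with the value
at some point of `U` over `R`. -/
def LinearSystem [DecidableEq X] [Fintype ι] (R : Subfield ℂ) (U : Set (X → ℂ)) (Y : (X → ℂ) → Matrix ι ι' ℂ) : Prop :=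
  ∃ (q : MvPolynomial X R) (A : X → Matrix ι ι (MvPolynomial X R)) (x₀ : X → ℂ), x₀ ∈ U ∧ (∀ j, x₀ j ∈ R) ∧
    (∀ i j, Y x₀ i j ∈ R) ∧ (∀ x ∈ U, MvPolynomial.aeval x q ≠ 0) ∧
    ∀ x ∈ U, ∀ (l : X) (i : ι) (j : ι'), MvPolynomial.aeval x q * pd l (fun x => Y x i j) x =
      ∑ m, MvPolynomial.aeval x (A l i m) * Y x m j

end Pool.Agent.U543.TY
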