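import Pool.Agent.U543.TyTay

/-! Relations between functions with Taylor coefficients in `k` are defined over `k`. -/

set_option autoImplicit false
set_option linter.unusedSectionVars false

open Filter Topology

namespace Pool.Agent.U543.TY

open Pool.Agent.Y890.MV
open Pool.Agent.U543.NR

variable {k : Type} [Field k] [Algebra k ℂ] {X σ : Type} [Fintype X] [DecidableEq X] [Fintype σ]
  {U : Set (X → ℂ)} {f : σ → (X → ℂ) → ℂ}

/-- **Descent from one point.** -/
theorem desc_tay (hU : IsPreconnected U) (hUo : IsOpen U) (hf : ∀ i, AnalyticOnNhd ℂ (f i) U) (x0 : X → ℂ)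
    (hx0 : x0 ∈ U) (hx0k : ∀ j, x0 j ∈ (algebraMap k ℂ).fieldRange)
    (hT : ∀ q, Tk (algebraMap k ℂ).fieldRange x0 (f q)) : Desc k U f := by
  classical
  intro ℓ P hP
  let 𝓜 : (Σ _ : σ →₀ ℕ, X →₀ ℕ) → (X → ℂ) → ℂ := fun p x => (∏ j, x j ^ p.2 j) * ∏ q, f q x ^ p.1 q
  have h𝓜 : ∀ p, Tk (algebraMap k ℂ).fieldRange x0 (𝓜 p) := fun p =>
    (Tk.prod _ _ fun j _ => (Tk.coord j (hx0k j)).pow _).mul (Tk.prod _ _ fun q _ => (hT q).pow _)
  let J : Finset (Σ _ : σ →₀ ℕ, X →₀ ℕ) := P.support.sigma fun m => (P.coeff m).support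
  have e1 : (fun x => evM f x P) = fun x => ∑ p ∈ J, (P.coeff p.1).coeff p.2 * 𝓜 p x := by
    funext x
    rw [evM, MvPolynomial.eval₂_eq', Finset.sum_sigma]
    refine Finset.sum_congr rfl fun m _ => ?_
    rw [MvPolynomial.eval_eq', Finset.sum_mul]
    refine Finset.sum_congr rfl fun β _ => ?_
    simp only [𝓜]
    ring
  have e2 : (fun x => evM f x (up2 (lcY ℓ P))) =
      fun x => ∑ p ∈ J, algebraMap k ℂ (ℓ ((P.coeff p.1).coeff p.2)) * 𝓜 p x := by
    funext x
    rw [lcY, map_sum, evM, MvPolynomial.eval₂_sum, Finset.sum_sigma]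
    refine Finset.sum_congr rfl fun m _ => ?_
    rw [up2, MvPolynomial.map_monomial, MvPolynomial.eval₂_monomial, Finsupp.prod_fintype _ _ (fun _ => pow_zero _),
      lcX, map_sum, map_sum, Finset.sum_mul]
    refine Finset.sum_congr rfl fun β _ => ?_
    rw [up, MvPolynomial.map_monomial, MvPolynomial.eval_monomial, Finsupp.prod_fintype _ _ (fun _ => pow_zero _)]
    simp only [𝓜]
    ring
  have hzero : ∀ L, pdL L (fun x => evM f x (up2 (lcY ℓ P))) x0 = 0 := by
    intro L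
    choose a ha using fun p => (h𝓜 p).2 L
    have e3 : ∑ p ∈ J, (P.coeff p.1).coeff p.2 * algebraMap k ℂ (a p) = 0 := by
      have e4 : pdL L (fun x => evM f x P) x0 = 0 := by
        have e5 : (fun x => evM f x P) =ᶠ[𝓝 x0] fun x => (0 : ℂ) * (1 : ℂ) := by
          filter_upwards [hUo.mem_nhds hx0] with x hx
          rw [hP x hx, zero_mul]
        rw [(pdL_congr L e5).eq_of_nhds,
          (pdL_const_mul (x0 := x0) L 0 (g := fun _ => (1 : ℂ)) analyticAt_const).eq_of_nhds, zero_mul]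
      rw [e1, pdL_sum L J _ _ fun p _ => (h𝓜 p).1] at e4
      rw [← e4]
      exact Finset.sum_congr rfl fun p _ => by rw [ha]
    rw [e2, pdL_sum L J _ _ fun p _ => (h𝓜 p).1]
    have e6 : ∑ p ∈ J, ℓ ((P.coeff p.1).coeff p.2) * a p = 0 := by
      rw [← map_zero ℓ, ← e3, map_sum]
      refine Finset.sum_congr rfl fun p _ => ?_
      have h1 := ℓ.map_smul (a p) ((P.coeff p.1).coeff p.2)
      rw [Algebra.smul_def, smul_eq_mul] at h1
      rw [mul_comm _ (algebraMap k ℂ (a p)), h1, mul_comm]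
    rw [← map_zero (algebraMap k ℂ), ← e6, map_sum]
    refine Finset.sum_congr rfl fun p _ => ?_
    rw [map_mul, ha]
  have han : AnalyticAt ℂ (fun x => evM f x (up2 (lcY ℓ P))) x0 := evM_an hf _ x0 hx0
  exact (evM_an hf (up2 (lcY ℓ P))).eqOn_zero_of_preconnected_of_eventuallyEq_zero hU hx0 (eq_zero_of_pdL han hzero)

end Pool.Agent.U543.TY
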