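import Pool.Agent.U543.TyMain

/-!
# The tests: decisions, counting, and all degrees at once
-/

set_option autoImplicit false
set_option linter.unusedSectionVars false

open Filter NumberField

namespace Pool.Agent.U543.TY

open Pool.Agent.Y890.MV
open Pool.Agent.Y124 (Cov)
open Pool.Agent.U543.NR
open Pool.Agent.U543.GD (Family regularM norm_le_of_house Height Inner)
open Pool.Agent.U543.FD (Fibre at_)

variable {X ι ι' : Type} [Fintype X] [DecidableEq X] [Nonempty X] [Fintype ι] [DecidableEq ι] [Fintype ι'] [DecidableEq ι']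

theorem decided_of_good {R : Subfield ℂ} {U : Set (X → ℂ)} {P : (X → ℂ) → Matrix ι ι' ℂ} {k : ℕ} {ξ : ℕ → ℂ}
    (hξ : ∀ a, ξ a ∈ R) {K : Type} [Field K] [NumberField K] {io : K →+* ℂ} {T B δ : ℝ} {x : X → ℂ} (hT2 : 2 ≤ T)
    (hx : x ∈ U) (hδB : 4 * δ ≤ T ^ (-B)) (hg : Good R U P (fun a : Fin k => (⟨ξ a, hξ a⟩ : R)) K io T B x) :
    Decided R U P ξ k K io T δ x := by
  classical
  intro Φ₁ Φ₂ hΦ₁ hΦ₂ a₁ a₂ ha₁ ha₂
  have hTp : 0 < T := by linarith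
  have hdiff : ∀ Y : Matrix ι ι' ℂ, at_ io (Φ₁ - Φ₂) Y (fun a : Fin k => ξ a) =
      at_ io Φ₁ Y (fun a : Fin k => ξ a) - at_ io Φ₂ Y (fun a : Fin k => ξ a) := fun Y => by
    unfold Pool.Agent.U543.FD.at_
    rw [MvPolynomial.eval₂_sub]
  have hdeg : ∀ i, (Φ₁ - Φ₂).degreeOf i ≤ k := by
    intro i
    refine MvPolynomial.degreeOf_le_iff.2 fun m hm => ?_
    have h1 := MvPolynomial.support_sub _ _ _ hm
    rw [Finset.mem_union] at h1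
    rcases h1 with h1 | h1
    · exact (MvPolynomial.monomial_le_degreeOf i h1).trans (hΦ₁.1 i)
    · exact (MvPolynomial.monomial_le_degreeOf i h1).trans (hΦ₂.1 i)
  have hcb : ∀ e (φ : K →+* ℂ), ‖φ ((MvPolynomial.coeff e (Φ₁ - Φ₂) : 𝓞 K) : K)‖ ≤ T ^ ((k + 1 : ℕ) : ℝ) := by
    intro e φ
    have e1 : ‖φ ((MvPolynomial.coeff e Φ₁ : 𝓞 K) : K)‖ ≤ T ^ k := (Y120.house_ge K _ φ).trans (hΦ₁.2 e)
    have e2 : ‖φ ((MvPolynomial.coeff e Φ₂ : 𝓞 K) : K)‖ ≤ T ^ k := (Y120.house_ge K _ φ).trans (hΦ₂.2 e)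
    have e3 : ((MvPolynomial.coeff e (Φ₁ - Φ₂) : 𝓞 K) : K) =
        ((MvPolynomial.coeff e Φ₁ : 𝓞 K) : K) - ((MvPolynomial.coeff e Φ₂ : 𝓞 K) : K) := by
      rw [MvPolynomial.coeff_sub]
      exact map_sub (algebraMap (𝓞 K) K) _ _
    rw [e3, map_sub, Real.rpow_natCast, pow_succ]
    have e4 : 0 ≤ T ^ k := by positivity
    have e5 := norm_sub_le (φ ((MvPolynomial.coeff e Φ₁ : 𝓞 K) : K)) (φ ((MvPolynomial.coeff e Φ₂ : 𝓞 K) : K))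
    nlinarith
  obtain ⟨g1, g2⟩ := hg (Φ₁ - Φ₂) hdeg hcb
  obtain ⟨v₁, hv₁⟩ : ∃ v₁ : ℂ, v₁ = at_ io Φ₁ (P x) (fun a : Fin k => ξ a) := ⟨_, rfl⟩
  obtain ⟨v₂, hv₂⟩ : ∃ v₂ : ℂ, v₂ = at_ io Φ₂ (P x) (fun a : Fin k => ξ a) := ⟨_, rfl⟩
  have g0 : at_ io (Φ₁ - Φ₂) (P x) (fun a : Fin k => (((⟨ξ a, hξ a⟩ : R) : R) : ℂ)) = v₁ - v₂ := by
    rw [hv₁, hv₂]
    exact hdiff (P x)
  rw [g0] at g1 g2
  rw [← hv₁, ← hv₂]
  rw [← hv₁] at ha₁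
  rw [← hv₂] at ha₂
  have hTB : 0 < T ^ (-B) := Real.rpow_pos_of_pos hTp _
  constructor
  · constructor
    · intro h0
      have e1 : a₁ - a₂ = (a₁ - v₁) - (a₂ - v₂) := by
        rw [h0]
        ring
      rw [e1]
      refine (norm_sub_le _ _).trans ?_
      linarith
    · intro h0
      by_contra hne
      have h3 := g2 (sub_ne_zero.2 hne)
      have e1 : v₁ - v₂ = (a₁ - a₂) - (a₁ - v₁) + (a₂ - v₂) := by ring
      have e3 : ‖v₁ - v₂‖ ≤ ‖a₁ - a₂‖ + ‖a₁ - v₁‖ + ‖a₂ - v₂‖ := by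
        conv_lhs => rw [e1]
        refine (norm_add_le _ _).trans ?_
        gcongr
        exact norm_sub_le _ _
      linarith
  · constructor
    · intro h0 Y hY
      have h3 := g1 (sub_eq_zero.2 h0) Y hY
      have h4 := hdiff Y
      rw [← sub_eq_zero, ← h4]
      exact h3
    · intro h0
      rw [hv₁, hv₂]
      exact h0 (P x) fun H hH => hH x hx

theorem cov_undecided {R : Subfield ℂ} (hR : Separated R) {U : Set (X → ℂ)} {P : (X → ℂ) → Matrix ι ι' ℂ}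
    (h : Family U P) (hd : DefinedOver R U P) (ξ : ℕ → ℂ) (hξ : ∀ a, ξ a ∈ R) (k : ℕ) (ε : ℝ) (hε : 0 < ε) :
    ∃ (B D : ℕ) (C T₀ : ℝ), 0 ≤ C ∧ 2 ≤ T₀ ∧ ∀ (K : Type) [Field K] [NumberField K], Module.finrank ℚ K ≤ k →
      ∀ (io : K →+* ℂ) (T : ℝ), T₀ ≤ T → ∀ δ : ℝ, 0 ≤ δ → δ ≤ T ^ (-(B : ℝ)) →
        Cov D ⌊C * T ^ ε⌋₊ ((fun (s : X → K) j => io (s j)) '' Undecided R U P ξ k K io T δ) := by
  classical
  rcases Nat.eq_zero_or_pos k with hk | hk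
  · refine ⟨0, 0, 0, 2, le_rfl, le_rfl, ?_⟩
    intro K _ _ hK
    have h1 : 0 < Module.finrank ℚ K := Module.finrank_pos
    omega
  obtain ⟨D, B, C, T₀, hC, hT₀, H⟩ := good_cov hR h hd hk (fun a : Fin k => (⟨ξ a, hξ a⟩ : R)) ε hε
  refine ⟨⌈B⌉₊ + 2, D, C, T₀, hC, hT₀, fun K _ _ hK io T hT δ hδ0 hδ => (H K hK io T hT).mono le_rfl le_rfl ?_⟩
  rintro _ ⟨s, ⟨h1, h2, h3⟩, rfl⟩
  refine ⟨s, ⟨h1, h2, fun hg => h3 ?_⟩, rfl⟩
  have hT2 : 2 ≤ T := hT₀.trans hT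
  have hTp : 0 < T := by linarith
  have hT1 : 1 ≤ T := by linarith
  refine decided_of_good hξ hT2 (innerM_sub _ hk h2) ?_ hg
  have e1 : T ^ (-((⌈B⌉₊ + 2 : ℕ) : ℝ)) ≤ T ^ (-B) * T ^ (-(2 : ℝ)) := by
    rw [← Real.rpow_add hTp]
    refine Real.rpow_le_rpow_of_exponent_le hT1 ?_
    push_cast
    have := Nat.le_ceil B
    linarith
  have e2 : T ^ (-(2 : ℝ)) ≤ 1 / 4 := by
    rw [Real.rpow_neg hTp.le, inv_eq_one_div, show (2 : ℝ) = ((2 : ℕ) : ℝ) by norm_num, Real.rpow_natCast]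
    apply one_div_le_one_div_of_le
    · norm_num
    · nlinarith
  have e3 : 0 < T ^ (-B) := Real.rpow_pos_of_pos hTp _
  nlinarith [hδ.trans e1]

theorem main_fix {R : Subfield ℂ} (hR : Separated R) {U : Set (X → ℂ)} {P : (X → ℂ) → Matrix ι ι' ℂ}
    (h : Family U P) (hd : DefinedOver R U P) (ξ : ℕ → ℂ) (hξ : ∀ a, ξ a ∈ R) (k : ℕ) (ε : ℝ) (hε : 0 < ε) :
    ∃ (B D : ℕ) (C T₀ : ℝ), 0 ≤ C ∧ 2 ≤ T₀ ∧ ∀ T, T₀ ≤ T →
      ∀ (K : Type) [Field K] [NumberField K], Module.finrank ℚ K ≤ k → ∀ io : K →+* ℂ,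
        Cov D ⌊C * T ^ ε⌋₊ ((fun (s : X → K) j => io (s j)) '' Undecided R U P ξ k K io T (T ^ (-(B : ℝ)))) ∧
        (Undecided R U P ξ k K io T (T ^ (-(B : ℝ)))).Finite ∧
        ((Undecided R U P ξ k K io T (T ^ (-(B : ℝ)))).ncard : ℝ) ≤
          D * C * T ^ ε * ((Height K T).ncard : ℝ) ^ (Fintype.card X - 1) := by
  obtain ⟨B, D, C, T₀, hC, hT₀, H⟩ := cov_undecided hR h hd ξ hξ k ε hε
  refine ⟨B, D, C, T₀, hC, hT₀, fun T hT K _ _ hK io => ?_⟩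
  have hTp : 0 < T := by linarith
  have h1 := H K hK io T hT (T ^ (-(B : ℝ))) (Real.rpow_pos_of_pos hTp _).le le_rfl
  obtain ⟨h2, h3⟩ := cov_count io {x : K | Y120.HtLe K T x} (Y120.HtLe_fin K T) _ (fun s hs => hs.1) h1
  refine ⟨h1, h2, ?_⟩
  have h4 : ((Undecided R U P ξ k K io T (T ^ (-(B : ℝ)))).ncard : ℝ) ≤
      (⌊C * T ^ ε⌋₊ : ℝ) * (D * ({x : K | Y120.HtLe K T x}.ncard : ℝ) ^ (Fintype.card X - 1)) := by
    exact_mod_cast h3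
  have h5 : ((⌊C * T ^ ε⌋₊ : ℕ) : ℝ) ≤ C * T ^ ε := Nat.floor_le (by positivity)
  have h6 : (Height K T) = {x : K | Y120.HtLe K T x} := rfl
  rw [h6]
  refine h4.trans ((mul_le_mul_of_nonneg_right h5 (by positivity)).trans (le_of_eq ?_))
  ring

theorem main_omega {R : Subfield ℂ} (hR : Separated R) {U : Set (X → ℂ)} {P : (X → ℂ) → Matrix ι ι' ℂ}
    (h : Family U P) (hd : DefinedOver R U P) (ξ : ℕ → ℂ) (hξ : ∀ a, ξ a ∈ R) (v : ℝ → ℝ)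
    (hv : Tendsto v atTop atTop) :
    ∃ (ω : ℝ → ℕ) (T₀ : ℝ), Tendsto ω atTop atTop ∧ Monotone ω ∧ ∀ T, T₀ ≤ T → 0 < ω T ∧
      ∀ (K : Type) [Field K] [NumberField K], Module.finrank ℚ K ≤ ω T → ∀ io : K →+* ℂ,
        Cov ⌊T ^ ((ω T : ℝ)⁻¹)⌋₊ ⌊T ^ ((ω T : ℝ)⁻¹)⌋₊
          ((fun (s : X → K) j => io (s j)) '' Undecided R U P ξ (ω T) K io T (T ^ (-v T))) ∧
        (Undecided R U P ξ (ω T) K io T (T ^ (-v T))).Finite ∧
        ((Undecided R U P ξ (ω T) K io T (T ^ (-v T))).ncard : ℝ) ≤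
          T ^ ((ω T : ℝ)⁻¹) * ((Height K T).ncard : ℝ) ^ (Fintype.card X - 1) := by
  obtain ⟨ω, T₀, h1, h2, h3⟩ := omega_gen (fun _ => Unit)
    (fun k K _ _ io _ T => Undecided (X := X) R U P ξ k K io T (T ^ (-v T))) (fun k K _ _ io p T s hs => hs.1) (by
      intro k ε hε
      obtain ⟨B, D, C, T₀, hC, hT₀, H⟩ := cov_undecided hR h hd ξ hξ k ε hε
      obtain ⟨T₁, hT₁⟩ := Filter.eventually_atTop.1 (hv.eventually_ge_atTop (B : ℝ))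
      refine ⟨D, C, max T₀ T₁, hC, hT₀.trans (le_max_left _ _), fun K _ _ hK io _ T hT => ?_⟩
      have hTa : T₀ ≤ T := (le_max_left _ _).trans hT
      have hTb : T₁ ≤ T := (le_max_right _ _).trans hT
      have hTp : 0 < T := by linarith
      have hT1 : 1 ≤ T := by linarith
      exact H K hK io T hTa (T ^ (-v T)) (Real.rpow_pos_of_pos hTp _).le
        (Real.rpow_le_rpow_of_exponent_le hT1 (neg_le_neg (hT₁ T hTb))))
  exact ⟨ω, T₀, h1, h2, fun T hT => ⟨(h3 T hT).1, fun K _ _ hK io => (h3 T hT).2 K hK io ()⟩⟩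

end Pool.Agent.U543.TY
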