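import Pool.Agent.U543.TyDesc
import Pool.Agent.U543.NrNear
import Pool.Agent.U543.FibMain

/-!
# Numerical and formal tests for the equality of values of functions defined over a field
-/

set_option autoImplicit false
set_option linter.unusedSectionVars false

open Filter NumberField

namespace Pool.Agent.U543.TY

open Pool.Agent.Y890.MV
open Pool.Agent.Y124 (Cov)
open Pool.Agent.U543.NR
open Pool.Agent.U543.GS (ex ex_apply eval2_eq FibG ExcF excF_cov)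
open Pool.Agent.U543.GD (Family regularM norm_le_of_house Height Inner)
open Pool.Agent.U543.FD (Fibre at_)

theorem lb_of {R : Subfield ℂ} (hR : Separated R) : LB R := by
  intro h _ a m A
  classical
  let en : h ≃ Fin (Fintype.card h) := Fintype.equivFin h
  obtain ⟨κ, T₀, H⟩ := hR.2 (Fintype.card h) m (fun i => ((a (en.symm i) : R) : ℂ)) fun i => (a (en.symm i)).2
  obtain ⟨A₁, hA₁⟩ : ∃ A₁ : ℝ, A₁ = max A 1 := ⟨_, rfl⟩
  obtain ⟨κ₁, hκ₁⟩ : ∃ κ₁ : ℝ, κ₁ = max κ 0 := ⟨_, rfl⟩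
  have hA₁1 : 1 ≤ A₁ := by rw [hA₁]; exact le_max_right _ _
  have hκ₁0 : 0 ≤ κ₁ := by rw [hκ₁]; exact le_max_right _ _
  refine ⟨A₁ * κ₁, max T₀ 2, by positivity, le_max_right _ _, ?_⟩
  intro K _ _ hK io T hT y hy
  have hTa : T₀ ≤ T := (le_max_left _ _).trans hT
  have hT2 : 2 ≤ T := (le_max_right _ _).trans hT
  have hT1 : 1 ≤ T := by linarith
  have hTp : 0 < T := by linarith
  have hTT : T ≤ T ^ A₁ := by
    conv_lhs => rw [← Real.rpow_one T]
    exact Real.rpow_le_rpow_of_exponent_le hT1 hA₁1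
  have e1 : ∑ i, ((a (en.symm i) : R) : ℂ) * io (y (en.symm i) : K) = ∑ p, algebraMap R ℂ (a p) * io (y p : K) :=
    en.symm.sum_comp fun p => ((a p : R) : ℂ) * io (y p : K)
  have h1 := H K hK io (fun i => y (en.symm i)) (T ^ A₁) (hTa.trans hTT) (fun i => by
    refine Y120.house_le K (by positivity) fun φ => (hy _ φ).trans ?_
    exact Real.rpow_le_rpow_of_exponent_le hT1 (by rw [hA₁]; exact le_max_left _ _))
  rw [e1] at h1
  rcases h1 with h1 | h1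
  · exact Or.inl h1
  · right
    refine le_trans ?_ h1
    rw [← Real.rpow_mul hTp.le]
    refine Real.rpow_le_rpow_of_exponent_le hT1 ?_
    have : κ ≤ κ₁ := by rw [hκ₁]; exact le_max_left _ _
    nlinarith

variable {X ι ι' : Type} [Fintype X] [DecidableEq X] [Nonempty X] [Fintype ι] [DecidableEq ι] [Fintype ι'] [DecidableEq ι']

/-- the monomials -/
noncomputable def QR {R : Subfield ℂ} {k : ℕ} (ξ : Fin k → R) (_ : Unit) (i : ((ι × ι') ⊕ Fin k) → Fin (k + 1)) :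
    MvPolynomial (ι × ι') R :=
  MvPolynomial.monomial (Finsupp.equivFunOnFinite.symm fun y => (i (Sum.inl y) : ℕ)) (∏ a, ξ a ^ (i (Sum.inr a) : ℕ))

theorem QR_deg {R : Subfield ℂ} {k : ℕ} (ξ : Fin k → R) (ρ : Unit) (i : ((ι × ι') ⊕ Fin k) → Fin (k + 1)) (y : ι × ι') :
    (QR ξ ρ i).degreeOf y ≤ k := by
  classical
  refine MvPolynomial.degreeOf_le_iff.2 fun m hm => ?_
  have h1 := MvPolynomial.support_monomial_subset hm
  rw [Finset.mem_singleton] at h1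
  rw [h1]
  have := (i (Sum.inl y)).2
  show (i (Sum.inl y) : ℕ) ≤ k
  omega

theorem QR_eval {R : Subfield ℂ} {k : ℕ} (ξ : Fin k → R) (i : ((ι × ι') ⊕ Fin k) → Fin (k + 1)) (Y : ι × ι' → ℂ) :
    MvPolynomial.eval₂ R.subtype Y (QR ξ () i) = ∏ y, (Sum.elim Y fun a => ((ξ a : R) : ℂ)) y ^ (i y : ℕ) := by
  rw [QR, MvPolynomial.eval₂_monomial, Finsupp.prod_fintype _ _ (fun y => pow_zero _), Fintype.prod_sum_type, mul_comm,
    map_prod]
  congr 1

theorem at_eq {R : Subfield ℂ} {k : ℕ} {K : Type} [Field K] (io : K →+* ℂ) (F : MvPolynomial ((ι × ι') ⊕ Fin k) (𝓞 K))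
    (hF : ∀ i, F.degreeOf i ≤ k) (Y : Matrix ι ι' ℂ) (ξ : Fin k → R) :
    at_ io F Y (fun a => ((ξ a : R) : ℂ)) = ∑ i : ((ι × ι') ⊕ Fin k) → Fin (k + 1),
      MvPolynomial.eval₂ R.subtype (fun p : ι × ι' => Y p.1 p.2) (QR ξ () i) *
        io ((MvPolynomial.coeff (ex i) F : 𝓞 K) : K) := by
  rw [at_, eval2_eq (δ := k) _ F hF]
  refine Finset.sum_congr rfl fun i _ => ?_
  rw [QR_eval, mul_comm]
  rfl

/-- the coefficients, for the near relations -/
noncomputable def cc {K : Type} [Field K] {k : ℕ} (F : MvPolynomial ((ι × ι') ⊕ Fin k) (𝓞 K))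
    (l : (ι × ι') → Fin (k + 1)) (e : Fin k → Fin (k + 1)) : 𝓞 K := MvPolynomial.coeff (ex (Sum.elim l e)) F

theorem at_eq2 {R : Subfield ℂ} {k : ℕ} {K : Type} [Field K] (io : K →+* ℂ)
    (F : MvPolynomial ((ι × ι') ⊕ Fin k) (𝓞 K)) (hF : ∀ i, F.degreeOf i ≤ k) (Y : Matrix ι ι' ℂ) (ξ : Fin k → R) :
    at_ io F Y (fun a => ((ξ a : R) : ℂ)) = ∑ l : (ι × ι') → Fin (k + 1), (∑ e : Fin k → Fin (k + 1),
      algebraMap R ℂ (∏ a, ξ a ^ (e a : ℕ)) * io (cc F l e : K)) * ∏ y, Y y.1 y.2 ^ (l y : ℕ) := by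
  rw [at_, eval2_eq (δ := k) _ F hF]
  let en : (((ι × ι') ⊕ Fin k) → Fin (k + 1)) ≃ ((ι × ι') → Fin (k + 1)) × (Fin k → Fin (k + 1)) :=
    Equiv.sumArrowEquivProdArrow _ _ _
  rw [← en.symm.sum_comp, Fintype.sum_prod_type]
  refine Finset.sum_congr rfl fun l _ => ?_
  rw [Finset.sum_mul]
  refine Finset.sum_congr rfl fun e _ => ?_
  have h2 : en.symm (l, e) = Sum.elim l e := rfl
  rw [h2, Fintype.prod_sum_type, map_prod]
  simp only [Sum.elim_inl, Sum.elim_inr, cc, map_pow]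
  have h3 : ∀ a, algebraMap R ℂ (ξ a) = ((ξ a : R) : ℂ) := fun a => rfl
  simp only [h3, RingHom.comp_apply]
  ring

/-- all polynomials with small coefficients are zero on the fibre or have values which are not small -/
def Good (R : Subfield ℂ) (U : Set (X → ℂ)) (P : (X → ℂ) → Matrix ι ι' ℂ) {k : ℕ} (ξ : Fin k → R) (K : Type)
    [Field K] [NumberField K] (io : K →+* ℂ) (T B : ℝ) (x : X → ℂ) : Prop :=
  ∀ F : MvPolynomial ((ι × ι') ⊕ Fin k) (𝓞 K), (∀ i, F.degreeOf i ≤ k) →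
    (∀ e (φ : K →+* ℂ), ‖φ ((MvPolynomial.coeff e F : 𝓞 K) : K)‖ ≤ T ^ ((k + 1 : ℕ) : ℝ)) →
    (at_ io F (P x) (fun a => ((ξ a : R) : ℂ)) = 0 → ∀ Y ∈ Fibre R U P x, at_ io F Y (fun a => ((ξ a : R) : ℂ)) = 0) ∧
    (at_ io F (P x) (fun a => ((ξ a : R) : ℂ)) ≠ 0 → T ^ (-B) < ‖at_ io F (P x) (fun a => ((ξ a : R) : ℂ))‖)

theorem good_cov {R : Subfield ℂ} (hR : Separated R) {U : Set (X → ℂ)} {P : (X → ℂ) → Matrix ι ι' ℂ} (h : Family U P)
    (hd : DefinedOver R U P) {k : ℕ} (hk : 0 < k) (ξ : Fin k → R) (ε : ℝ) (hε : 0 < ε) :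
    ∃ (D : ℕ) (B C T₀ : ℝ), 0 ≤ C ∧ 2 ≤ T₀ ∧ ∀ (K : Type) [Field K] [NumberField K], Module.finrank ℚ K ≤ k →
      ∀ (io : K →+* ℂ) (T : ℝ), T₀ ≤ T → Cov D ⌊C * T ^ ε⌋₊ ((fun (s : X → K) j => io (s j)) ''
        {s : X → K | (∀ j, s j ∈ Height K T) ∧ (fun j => io (s j)) ∈ Inner U k ∧
          ¬ Good R U P ξ K io T B (fun j => io (s j))}) := by
  classical
  have hf : ∀ p : ι × ι', AnalyticOnNhd ℂ (fun x => P x p.1 p.2) U := fun p => h.analytic p.1 p.2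
  obtain ⟨x₀, hx₀, hx₀R, hdR⟩ := hd
  have hrange : (algebraMap R ℂ).fieldRange = R := by
    ext z
    constructor
    · rintro ⟨w, rfl⟩
      exact w.2
    · intro hz
      exact ⟨⟨z, hz⟩, rfl⟩
  have hDesc : Desc R U (fun (p : ι × ι') x => P x p.1 p.2) := by
    refine desc_tay h.isPreconnected h.isOpen hf x₀ hx₀ ?_ ?_
    · rw [hrange]
      exact hx₀R
    · rw [hrange]
      exact fun q => ⟨hf q x₀ hx₀, fun L => hdR q.1 q.2 L⟩
  obtain ⟨D₁, C₁, T₁, hC₁, hT₁, H₁⟩ := excF_cov h.isPreconnected h.isOpen h.nonempty hf (regularM h.regular)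
    (InnerM U k) (innerM_compact _ _) (innerM_sub _ hk) k (((ι × ι') ⊕ Fin k) → Fin (k + 1)) Unit k
    ((k + 1 : ℕ) : ℝ) ε hε
  obtain ⟨D₂, B₂, C₂, T₂, hC₂, hT₂, H₂⟩ := nearM (k := R) (lb_of hR) h.isPreconnected h.isOpen h.nonempty hf
    (regularM h.regular) hDesc (InnerM U k) (innerM_compact _ _) (innerM_sub _ hk) k
    (fun e : Fin k → Fin (k + 1) => ∏ a, ξ a ^ (e a : ℕ)) k ((k + 1 : ℕ) : ℝ) ε hε
  refine ⟨max D₁ D₂, B₂, C₁ + C₂, max T₁ T₂, by positivity, hT₁.trans (le_max_left _ _), ?_⟩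
  intro K _ _ hK io T hT
  have hTa : T₁ ≤ T := (le_max_left _ _).trans hT
  have hTb : T₂ ≤ T := (le_max_right _ _).trans hT
  have hTp : 0 < T := by linarith
  have hc1 := (H₁ K hK io R hR.1 (QR ξ) (QR_deg ξ) T hTa).mono (le_max_left D₁ D₂) le_rfl (Set.Subset.refl _)
  have hc2 := (H₂ K hK io T hTb).mono (le_max_right D₁ D₂) le_rfl (Set.Subset.refl _)
  refine (hc1.union hc2).mono le_rfl ?_ ?_
  · apply Nat.le_floor
    push_cast
    have h7 := Nat.floor_le (a := C₁ * T ^ ε) (by positivity)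
    have h8 := Nat.floor_le (a := C₂ * T ^ ε) (by positivity)
    nlinarith
  rintro _ ⟨s, ⟨h1, h2, h3⟩, rfl⟩
  by_contra hcon
  rw [Set.mem_union, not_or] at hcon
  obtain ⟨h4, h5⟩ := hcon
  apply h3
  intro F hF hFc
  constructor
  · intro h0
    by_contra hne
    apply h4
    refine ⟨s, ⟨h1, h2, fun i => MvPolynomial.coeff (ex i) F, fun i φ => hFc _ φ, ?_, ?_⟩, rfl⟩
    · rintro ⟨⟩
      rw [at_eq io F hF] at h0
      exact h0
    · intro h6
      apply hne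
      intro Y hY
      rw [at_eq io F hF]
      exact h6 (fun p => Y p.1 p.2) (fun H hH => hY H hH) ()
  · intro h0
    by_contra hne
    apply h5
    rw [not_lt] at hne
    refine ⟨h2, s, h1, rfl, fun l e => cc F l e, fun l e φ => hFc _ φ, ?_, ?_⟩
    · rw [at_eq2 io F hF] at h0
      exact h0
    · rw [at_eq2 io F hF] at hne
      exact hne

end Pool.Agent.U543.TY
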