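import Pool.Agent.U543.NrLc
import Pool.Agent.U543.TyDef

/-! Analytic functions with Taylor coefficients in a subfield at a point with coordinates in it. -/

set_option autoImplicit false
set_option linter.unusedSectionVars false

open Filter Topology

namespace Pool.Agent.U543.TY

open Pool.Agent.Y890.MV
open Pool.Agent.U543.NR

variable {X : Type} [Fintype X]

variable [DecidableEq X] {x0 : X → ℂ}

theorem pd_congr (i : X) {g h : (X → ℂ) → ℂ} (hgh : g =ᶠ[𝓝 x0] h) : pd i g =ᶠ[𝓝 x0] pd i h := by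
  filter_upwards [hgh.fderiv (𝕜 := ℂ)] with x hx
  rw [pd, pd, hx]

theorem pdL_congr (L : List X) : ∀ {g h : (X → ℂ) → ℂ}, g =ᶠ[𝓝 x0] h → pdL L g =ᶠ[𝓝 x0] pdL L h := by
  induction L with
  | nil => exact fun hgh => hgh
  | cons i L ih => exact fun hgh => ih (pd_congr i hgh)

theorem pd_an (i : X) {g : (X → ℂ) → ℂ} (hg : AnalyticAt ℂ g x0) : AnalyticAt ℂ (pd i g) x0 :=
  ((ContinuousLinearMap.apply ℂ ℂ (Pi.single i (1 : ℂ) : X → ℂ)).analyticAt _).fun_comp hg.fderiv

theorem pd_add (i : X) {g h : (X → ℂ) → ℂ} (hg : AnalyticAt ℂ g x0) (hh : AnalyticAt ℂ h x0) :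
    pd i (fun x => g x + h x) =ᶠ[𝓝 x0] fun x => pd i g x + pd i h x := by
  filter_upwards [hg.eventually_analyticAt, hh.eventually_analyticAt] with x h1 h2
  simp only [pd]
  rw [fderiv_fun_add h1.differentiableAt h2.differentiableAt]
  rfl

theorem pd_mul (i : X) {g h : (X → ℂ) → ℂ} (hg : AnalyticAt ℂ g x0) (hh : AnalyticAt ℂ h x0) :
    pd i (fun x => g x * h x) =ᶠ[𝓝 x0] fun x => g x * pd i h x + pd i g x * h x := by
  filter_upwards [hg.eventually_analyticAt, hh.eventually_analyticAt] with x h1 h2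
  simp only [pd]
  rw [fderiv_fun_mul h1.differentiableAt h2.differentiableAt]
  simp only [_root_.add_apply, _root_.smul_apply, smul_eq_mul]
  ring

/-- additivity -/
theorem pdL_add (L : List X) : ∀ {g h : (X → ℂ) → ℂ}, AnalyticAt ℂ g x0 → AnalyticAt ℂ h x0 →
    pdL L (fun x => g x + h x) =ᶠ[𝓝 x0] fun x => pdL L g x + pdL L h x := by
  induction L with
  | nil => exact fun _ _ => EventuallyEq.rfl
  | cons i L ih =>
    intro g h hg hh
    exact (pdL_congr L (pd_add i hg hh)).trans (ih (pd_an i hg) (pd_an i hh))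

theorem pdL_const_mul (L : List X) (c : ℂ) : ∀ {g : (X → ℂ) → ℂ}, AnalyticAt ℂ g x0 →
    pdL L (fun x => c * g x) =ᶠ[𝓝 x0] fun x => c * pdL L g x := by
  induction L with
  | nil => exact fun _ => EventuallyEq.rfl
  | cons i L ih =>
    intro g hg
    refine (pdL_congr L ?_).trans (ih (pd_an i hg))
    filter_upwards [hg.eventually_analyticAt] with x h1
    simp only [pd]
    rw [fderiv_const_mul h1.differentiableAt]
    rfl

theorem pdL_sum {J : Type} (L : List X) (s : Finset J) (c : J → ℂ) (g : J → (X → ℂ) → ℂ)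
    (hg : ∀ j ∈ s, AnalyticAt ℂ (g j) x0) :
    pdL L (fun x => ∑ j ∈ s, c j * g j x) x0 = ∑ j ∈ s, c j * pdL L (g j) x0 := by
  classical
  induction s using Finset.induction_on with
  | empty =>
    simp only [Finset.sum_empty]
    have h1 := (pdL_const_mul (x0 := x0) L 0 (g := fun _ => (1 : ℂ)) analyticAt_const).eq_of_nhds
    simpa using h1
  | insert a s ha ih =>
    have h1 : (fun x => ∑ j ∈ insert a s, c j * g j x) = fun x => c a * g a x + ∑ j ∈ s, c j * g j x := by
      funext x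
      rw [Finset.sum_insert ha]
    have h2 : AnalyticAt ℂ (fun x => c a * g a x) x0 := analyticAt_const.mul (hg a (Finset.mem_insert_self _ _))
    have h3 : AnalyticAt ℂ (fun x => ∑ j ∈ s, c j * g j x) x0 :=
      Finset.analyticAt_fun_sum _ fun j hj => analyticAt_const.mul (hg j (Finset.mem_insert_of_mem hj))
    rw [h1, (pdL_add L h2 h3).eq_of_nhds, ih (fun j hj => hg j (Finset.mem_insert_of_mem hj)),
      (pdL_const_mul L (c a) (hg a (Finset.mem_insert_self _ _))).eq_of_nhds, Finset.sum_insert ha]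

/-- functions all of whose partial derivatives at `x0` are in a subfield -/
def Tk (k : Subfield ℂ) (x0 : X → ℂ) (g : (X → ℂ) → ℂ) : Prop := AnalyticAt ℂ g x0 ∧ ∀ L, pdL L g x0 ∈ k

variable {k : Subfield ℂ}

theorem Tk.congr {g h : (X → ℂ) → ℂ} (hgh : g =ᶠ[𝓝 x0] h) (hg : Tk k x0 g) : Tk k x0 h :=
  ⟨hg.1.congr hgh, fun L => by rw [← (pdL_congr L hgh).eq_of_nhds]; exact hg.2 L⟩

theorem Tk.pd {g : (X → ℂ) → ℂ} (hg : Tk k x0 g) (i : X) : Tk k x0 (pd i g) :=
  ⟨pd_an i hg.1, fun L => hg.2 (i :: L)⟩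

theorem pdL_const (L : List X) : ∀ c ∈ k, pdL L (fun _ : X → ℂ => c) x0 ∈ k := by
  induction L with
  | nil => exact fun c hc => hc
  | cons i L ih =>
    intro c _
    have h1 : (TY.pd i fun _ : X → ℂ => c) = fun _ => 0 := by
      funext x
      rw [TY.pd, fderiv_fun_const]
      rfl
    change pdL L (TY.pd i fun _ : X → ℂ => c) x0 ∈ k
    rw [h1]
    exact ih 0 (zero_mem k)

theorem Tk.const {c : ℂ} (hc : c ∈ k) : Tk k x0 fun _ => c := ⟨analyticAt_const, fun L => pdL_const L c hc⟩

theorem Tk.coord (j : X) (hj : x0 j ∈ k) : Tk k x0 fun x => x j := by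
  have han : AnalyticAt ℂ (fun x : X → ℂ => x j) x0 := (ContinuousLinearMap.proj (R := ℂ) j).analyticAt x0
  refine ⟨han, fun L => ?_⟩
  cases L with
  | nil => exact hj
  | cons i L =>
    have h1 : TY.pd i (fun x : X → ℂ => x j) = fun _ => (Pi.single i (1 : ℂ) : X → ℂ) j := by
      funext x
      have h2 : fderiv ℂ (fun x : X → ℂ => x j) x = ContinuousLinearMap.proj (R := ℂ) j :=
        (ContinuousLinearMap.proj (R := ℂ) (φ := fun _ : X => ℂ) j).fderiv
      rw [TY.pd, h2]
      rfl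
    change pdL L (TY.pd i fun x : X → ℂ => x j) x0 ∈ k
    rw [h1]
    refine pdL_const L _ ?_
    rw [Pi.single_apply]
    split_ifs
    · exact one_mem k
    · exact zero_mem k

theorem Tk.add {g h : (X → ℂ) → ℂ} (hg : Tk k x0 g) (hh : Tk k x0 h) : Tk k x0 fun x => g x + h x :=
  ⟨hg.1.add hh.1, fun L => by rw [(pdL_add L hg.1 hh.1).eq_of_nhds]; exact add_mem (hg.2 L) (hh.2 L)⟩

theorem Tk.mul {g h : (X → ℂ) → ℂ} (hg : Tk k x0 g) (hh : Tk k x0 h) : Tk k x0 fun x => g x * h x := by
  have key : ∀ (L : List X) (g h : (X → ℂ) → ℂ), Tk k x0 g → Tk k x0 h → pdL L (fun x => g x * h x) x0 ∈ k := by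
    intro L
    induction L with
    | nil => exact fun g h hg hh => mul_mem (hg.2 []) (hh.2 [])
    | cons i L ih =>
      intro g h hg hh
      change pdL L (TY.pd i fun x => g x * h x) x0 ∈ k
      have e1 : AnalyticAt ℂ (fun x => g x * TY.pd i h x) x0 := hg.1.mul (pd_an i hh.1)
      have e2 : AnalyticAt ℂ (fun x => TY.pd i g x * h x) x0 := (pd_an i hg.1).mul hh.1
      rw [(pdL_congr L (pd_mul i hg.1 hh.1)).eq_of_nhds, (pdL_add L e1 e2).eq_of_nhds]
      exact add_mem (ih _ _ hg (hh.pd i)) (ih _ _ (hg.pd i) hh)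
  exact ⟨hg.1.mul hh.1, fun L => key L g h hg hh⟩

theorem Tk.pow {g : (X → ℂ) → ℂ} (hg : Tk k x0 g) (n : ℕ) : Tk k x0 fun x => g x ^ n := by
  induction n with
  | zero => simpa using Tk.const (x0 := x0) (one_mem k)
  | succ n ih =>
    simp only [pow_succ]
    exact ih.mul hg

theorem Tk.prod {J : Type} (s : Finset J) (g : J → (X → ℂ) → ℂ) (hg : ∀ j ∈ s, Tk k x0 (g j)) :
    Tk k x0 fun x => ∏ j ∈ s, g j x := by
  classical
  induction s using Finset.induction_on with
  | empty => simpa using Tk.const (x0 := x0) (one_mem k)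
  | insert a s ha ih =>
    simp only [Finset.prod_insert ha]
    exact (hg a (Finset.mem_insert_self _ _)).mul (ih fun j hj => hg j (Finset.mem_insert_of_mem hj))

theorem Tk.sum {J : Type} (s : Finset J) (g : J → (X → ℂ) → ℂ) (hg : ∀ j ∈ s, Tk k x0 (g j)) :
    Tk k x0 fun x => ∑ j ∈ s, g j x := by
  classical
  induction s using Finset.induction_on with
  | empty => simpa using Tk.const (x0 := x0) (zero_mem k)
  | insert a s ha ih =>
    simp only [Finset.sum_insert ha]
    exact (hg a (Finset.mem_insert_self _ _)).add (ih fun j hj => hg j (Finset.mem_insert_of_mem hj))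

theorem Tk.neg {g : (X → ℂ) → ℂ} (hg : Tk k x0 g) : Tk k x0 fun x => -g x := by
  have h1 : (fun x => -g x) = fun x => (-1) * g x := by
    funext x
    ring
  rw [h1]
  exact (Tk.const (neg_mem (one_mem k))).mul hg

/-- reciprocals -/
theorem Tk.inv {g : (X → ℂ) → ℂ} (hg : Tk k x0 g) (h0 : g x0 ≠ 0) : Tk k x0 fun x => (g x)⁻¹ := by
  have han : AnalyticAt ℂ (fun x => (g x)⁻¹) x0 := hg.1.inv h0
  -- the derivative
  have hd : ∀ i : X, TY.pd i (fun x => (g x)⁻¹) =ᶠ[𝓝 x0] fun x => (-(TY.pd i g x)) * ((g x)⁻¹ * (g x)⁻¹) := by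
    intro i
    filter_upwards [hg.1.eventually_analyticAt, hg.1.continuousAt.eventually_ne h0] with x h1 h2
    have h3 : HasFDerivAt (fun x => (g x)⁻¹) (-(g x ^ 2)⁻¹ • fderiv ℂ g x) x :=
      (hasDerivAt_inv h2).comp_hasFDerivAt x h1.differentiableAt.hasFDerivAt
    simp only [TY.pd]
    rw [h3.fderiv]
    simp only [_root_.smul_apply, smul_eq_mul]
    field_simp
  -- induction over the length: all products `u * g⁻¹ ^ n` with `u` in the class
  have key : ∀ (L : List X) (u : (X → ℂ) → ℂ) (n : ℕ), Tk k x0 u → pdL L (fun x => u x * ((g x)⁻¹) ^ n) x0 ∈ k := by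
    intro L
    induction L with
    | nil =>
      intro u n hu
      exact mul_mem (hu.2 []) (pow_mem (inv_mem (hg.2 [])) n)
    | cons i L ih =>
      intro u n hu
      have h1 : TY.pd i (fun x => u x * ((g x)⁻¹) ^ n) =ᶠ[𝓝 x0]
          fun x => (u x * (-(n : ℂ)) * TY.pd i g x) * ((g x)⁻¹) ^ (n + 1) + TY.pd i u x * ((g x)⁻¹) ^ n := by
        filter_upwards [hg.1.eventually_analyticAt, hg.1.continuousAt.eventually_ne h0, hu.1.eventually_analyticAt]
          with x h1 h2 h4
        have h3 : HasFDerivAt (fun x => (g x)⁻¹) (-(g x ^ 2)⁻¹ • fderiv ℂ g x) x :=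
          (hasDerivAt_inv h2).comp_hasFDerivAt x h1.differentiableAt.hasFDerivAt
        have h5 := h4.differentiableAt.hasFDerivAt.mul (h3.pow n)
        have h6 : fderiv ℂ (fun x => u x * ((g x)⁻¹) ^ n) x = _ := h5.fderiv
        simp only [TY.pd]
        rw [h6]
        simp only [_root_.add_apply, _root_.smul_apply, smul_eq_mul, nsmul_eq_mul, ← inv_pow]
        rcases n with _ | n
        · simp
        · simp only [Nat.add_sub_cancel]
          push_cast
          ring
      change pdL L (TY.pd i fun x => u x * ((g x)⁻¹) ^ n) x0 ∈ k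
      have hn : Tk k x0 fun _ : X → ℂ => -(n : ℂ) := Tk.const (neg_mem (natCast_mem k n))
      have e1 : AnalyticAt ℂ (fun x => (u x * (-(n : ℂ)) * TY.pd i g x) * ((g x)⁻¹) ^ (n + 1)) x0 :=
        ((hu.1.mul hn.1).mul (pd_an i hg.1)).mul (han.pow (n + 1))
      have e2 : AnalyticAt ℂ (fun x => TY.pd i u x * ((g x)⁻¹) ^ n) x0 := (pd_an i hu.1).mul (han.pow n)
      rw [(pdL_congr L h1).eq_of_nhds, (pdL_add L e1 e2).eq_of_nhds]
      exact add_mem (ih _ (n + 1) ((hu.mul hn).mul (hg.pd i))) (ih _ n (hu.pd i))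
  refine ⟨han, fun L => ?_⟩
  have h1 := key L (fun _ => 1) 1 (Tk.const (one_mem k))
  simpa using h1

/-- a function all of whose partial derivatives vanish -/
theorem eq_zero_of_pdL {g : (X → ℂ) → ℂ} (hg : AnalyticAt ℂ g x0) (h : ∀ L, pdL L g x0 = 0) : ∀ᶠ x in 𝓝 x0, g x = 0 := by
  obtain ⟨r, hr, hball⟩ := Metric.eventually_nhds_iff_ball.1 hg.eventually_analyticAt
  -- along lines
  have hder : ∀ (n : ℕ) (w : X → ℂ) (g : (X → ℂ) → ℂ), AnalyticAt ℂ g x0 → (∀ L, pdL L g x0 = 0) →
      iteratedDeriv n (fun t : ℂ => g (x0 + t • w)) 0 = 0 := by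
    intro n
    induction n with
    | zero =>
      intro w g hg h
      rw [iteratedDeriv_zero]
      have h1 : pdL [] g x0 = 0 := h []
      change g x0 = 0 at h1
      simpa using h1
    | succ n ih =>
      intro w g hg h
      rw [iteratedDeriv_succ']
      have hline : ContinuousAt (fun t : ℂ => x0 + t • w) 0 := by fun_prop
      have h1 : deriv (fun t : ℂ => g (x0 + t • w)) =ᶠ[𝓝 0] fun t => ∑ i, w i * pd i g (x0 + t • w) := by
        have h2 : ∀ᶠ t : ℂ in 𝓝 0, AnalyticAt ℂ g (x0 + t • w) := by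
          apply hline.eventually
          simpa using hg.eventually_analyticAt
        filter_upwards [h2] with t ht
        have h3 : HasDerivAt (fun t : ℂ => x0 + t • w) w t := by
          have := ((hasDerivAt_id t).smul_const w).const_add x0
          simpa using this
        have h4 := ht.differentiableAt.hasFDerivAt.comp_hasDerivAt t h3
        have h5 : deriv (fun t : ℂ => g (x0 + t • w)) t = fderiv ℂ g (x0 + t • w) w := h4.deriv
        rw [h5]
        have h6 : w = ∑ i, w i • (Pi.single i (1 : ℂ) : X → ℂ) := by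
          funext j
          simp [Finset.sum_apply, Pi.single_apply]
        have h7 := congrArg (fderiv ℂ g (x0 + t • w)) h6
        rw [h7, map_sum]
        refine Finset.sum_congr rfl fun i _ => ?_
        rw [map_smul, smul_eq_mul]
        rfl
      have h7 : ∀ i ∈ (Finset.univ : Finset X), ContDiffAt ℂ n (fun t : ℂ => w i * pd i g (x0 + t • w)) 0 := by
        intro i _
        have h8 : AnalyticAt ℂ (fun t : ℂ => x0 + t • w) 0 := by fun_prop
        have h9 : AnalyticAt ℂ (fun t : ℂ => pd i g (x0 + t • w)) 0 := by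
          refine AnalyticAt.fun_comp (g := pd i g) ?_ h8
          simpa using pd_an i hg
        exact (analyticAt_const.mul h9).contDiffAt
      rw [h1.iteratedDeriv_eq n, iteratedDeriv_fun_sum h7]
      refine Finset.sum_eq_zero fun i _ => ?_
      have h8 : AnalyticAt ℂ (fun t : ℂ => x0 + t • w) 0 := by fun_prop
      have h9 : AnalyticAt ℂ (fun t : ℂ => pd i g (x0 + t • w)) 0 := by
        refine AnalyticAt.fun_comp (g := pd i g) ?_ h8
        simpa using pd_an i hg
      have h10 : iteratedDeriv n (fun t : ℂ => w i * pd i g (x0 + t • w)) 0 =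
          w i * iteratedDeriv n (fun t : ℂ => pd i g (x0 + t • w)) 0 :=
        iteratedDeriv_const_mul_field (w i) fun t : ℂ => pd i g (x0 + t • w)
      rw [h10, ih w (pd i g) (pd_an i hg) fun L => h (i :: L), mul_zero]
  refine Metric.eventually_nhds_iff_ball.2 ⟨r, hr, fun x hx => ?_⟩
  set w := x - x0 with hw
  have hwr : ‖w‖ < r := by
    rw [hw, ← dist_eq_norm]
    exact hx
  set φ : ℂ → ℂ := fun t => g (x0 + t • w) with hφ
  rcases eq_or_ne w 0 with hw0 | hw0
  · have hx0 : x = x0 := sub_eq_zero.1 (hw ▸ hw0)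
    rw [hx0]
    exact h []
  have hwpos : 0 < ‖w‖ := norm_pos_iff.2 hw0
  have hφan : AnalyticOnNhd ℂ φ (Metric.ball 0 (r / ‖w‖)) := by
    intro t ht
    have h8 : AnalyticAt ℂ (fun t : ℂ => x0 + t • w) t := by fun_prop
    refine AnalyticAt.fun_comp (g := g) ?_ h8
    apply hball
    rw [mem_ball_zero_iff, lt_div_iff₀ hwpos] at ht
    rw [Metric.mem_ball, dist_eq_norm, add_sub_cancel_left, norm_smul]
    exact ht
  have h0mem : (0 : ℂ) ∈ Metric.ball (0 : ℂ) (r / ‖w‖) := Metric.mem_ball_self (by positivity)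
  have h1mem : (1 : ℂ) ∈ Metric.ball (0 : ℂ) (r / ‖w‖) := by
    rw [mem_ball_zero_iff, norm_one, lt_div_iff₀ hwpos, one_mul]
    exact hwr
  have hev : ∀ᶠ t in 𝓝 (0 : ℂ), φ t = 0 := by
    have hp := (hφan 0 h0mem).hasFPowerSeriesAt
    have hp0 : (fun n : ℕ => iteratedDeriv n φ 0 / (n.factorial : ℂ)) = 0 := by
      funext n
      rw [hφ, hder n w g hg h, zero_div]
      rfl
    rw [hp0, FormalMultilinearSeries.ofScalars_series_eq_zero_of_scalar_zero] at hp
    exact hp.eventually_eq_zero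
  have h2 := hφan.eqOn_zero_of_preconnected_of_eventuallyEq_zero (convex_ball _ _).isPreconnected h0mem hev h1mem
  have h3 : φ 1 = g x := by
    rw [hφ]
    simp only [one_smul]
    rw [hw, add_sub_cancel]
  rw [← h3]
  exact h2

end Pool.Agent.U543.TY
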