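import Pool.Agent.U543.XpMain

/-!
# Complex conjugation of the periods; hypersurfaces in real coordinates
-/

set_option autoImplicit false
set_option linter.unusedSectionVars false

open NumberField Filter Complex Set MeasureTheory

namespace Pool.Agent.U543.XP

open Pool.Agent.Y118.HP
open Pool.Agent.Y890.HE
open Pool.Agent.Y124 (Cov)

theorem conj_Ord {n : ℕ} {e : Fin (n + 1) → ℂ} (he : e ∈ Ord n) : (fun r => (starRingEnd ℂ) (e r)) ∈ Ord n := by
  intro i k hik
  simpa using he i k hik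

/-- **Reflection of the periods.** -/
theorem perC_conj' {n : ℕ} {e : Fin (n + 1) → ℂ} (he : e ∈ Ord n) (l : Fin n) (j : ℕ) :
    perC (fun r => (starRingEnd ℂ) (e r)) l j = (starRingEnd ℂ) (perC e l j) := by
  unfold perC
  rw [intervalIntegral.integral_of_le (by positivity : (0 : ℝ) ≤ Real.pi / 2),
    intervalIntegral.integral_of_le (by positivity : (0 : ℝ) ≤ Real.pi / 2), ← integral_conj]
  refine integral_congr_ae (Eventually.of_forall fun θ => ?_)
  simp only [map_mul, map_ofNat]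
  congr 1
  have hs : seg ((starRingEnd ℂ) (e l.castSucc)) ((starRingEnd ℂ) (e l.succ)) (Real.sin θ ^ 2) =
      (starRingEnd ℂ) (seg (e l.castSucc) (e l.succ) (Real.sin θ ^ 2)) := by
    unfold seg
    simp only [map_add, map_mul, map_sub, map_one, conj_ofReal]
  have hθ : 0 ≤ Real.sin θ ^ 2 ∧ Real.sin θ ^ 2 ≤ 1 := ⟨sq_nonneg _, Real.sin_sq_le_one θ⟩
  unfold Pool.Agent.Y118.HP.ker
  rw [map_mul, map_pow, map_prod, hs]
  congr 1
  refine Finset.prod_congr rfl fun i _ => ?_
  unfold fac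
  have hc : (starRingEnd ℂ) (-(1 / 2) : ℂ) = -(1 / 2) := by
    simp only [map_neg, map_div₀, map_one, map_ofNat]
  split_ifs with h1 h2
  · rw [← map_sub]
    have h3 := seg_lt he h1 hθ.1 hθ.2
    rw [conj_cpow _ _ (mem_slitPlane_iff_arg.1 h3).1, hc]
  · rw [← map_sub]
    have h3 := seg_gt he h2 hθ.1 hθ.2
    rw [conj_cpow _ _ (mem_slitPlane_iff_arg.1 h3).1, hc]
  · simp

section pull

variable {V V' : Type} [Fintype V] [DecidableEq V] [Fintype V'] [DecidableEq V']

/-- substitution of linear forms -/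
noncomputable def pull (f : V' → MvPolynomial V ℂ) (G : MvPolynomial V' ℂ) : MvPolynomial V ℂ :=
  ∑ m ∈ G.support, MvPolynomial.C (G.coeff m) * ∏ q, f q ^ m q

theorem pull_eval (f : V' → MvPolynomial V ℂ) (G : MvPolynomial V' ℂ) (u : V → ℂ) :
    MvPolynomial.eval u (pull f G) = MvPolynomial.eval (fun q => MvPolynomial.eval u (f q)) G := by
  rw [pull, map_sum, MvPolynomial.eval_eq']
  refine Finset.sum_congr rfl fun m _ => ?_
  rw [map_mul, MvPolynomial.eval_C, map_prod]
  simp only [map_pow]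

theorem pull_deg (f : V' → MvPolynomial V ℂ) (hf : ∀ q, (f q).totalDegree ≤ 1) (G : MvPolynomial V' ℂ) :
    (pull f G).totalDegree ≤ G.totalDegree := by
  classical
  refine MvPolynomial.totalDegree_finsetSum_le fun m hm => ?_
  refine (MvPolynomial.totalDegree_mul _ _).trans ?_
  rw [MvPolynomial.totalDegree_C, zero_add]
  refine (MvPolynomial.totalDegree_finsetProd _ _).trans ?_
  refine le_trans (Finset.sum_le_sum fun q _ => (MvPolynomial.totalDegree_pow _ _).trans
    (Nat.mul_le_mul_left _ (hf q))) ?_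
  have h1 := MvPolynomial.le_totalDegree hm
  rw [Finsupp.sum_fintype _ _ (fun _ => rfl)] at h1
  simpa using h1

theorem cov_pull (f : V' → MvPolynomial V ℂ) (hf : ∀ q, (f q).totalDegree ≤ 1)
    (hs : ∀ y : V' → ℂ, ∃ u : V → ℂ, ∀ q, MvPolynomial.eval u (f q) = y q) {D N : ℕ} {S : Set (V' → ℂ)}
    (h : Cov D N S) {S' : Set (V → ℂ)} (hS : ∀ u ∈ S', (fun q => MvPolynomial.eval u (f q)) ∈ S) : Cov D N S' := by
  classical
  obtain ⟨Φ, h1, h2, h3⟩ := h
  refine ⟨Φ.image (pull f), Finset.card_image_le.trans h1, ?_, ?_⟩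
  · intro P hP
    obtain ⟨G, hG, rfl⟩ := Finset.mem_image.1 hP
    refine ⟨fun h0 => (h2 G hG).1 ?_, (pull_deg f hf G).trans (h2 G hG).2⟩
    apply MvPolynomial.funext
    intro y
    obtain ⟨u, hu⟩ := hs y
    rw [map_zero, ← funext hu, ← pull_eval, h0, map_zero]
  · intro u hu
    obtain ⟨G, hG, hG'⟩ := h3 _ (hS u hu)
    exact ⟨_, Finset.mem_image_of_mem _ hG, by rw [pull_eval]; exact hG'⟩

end pull

end Pool.Agent.U543.XP
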