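import Pool.Agent.Y890.SM.Main
import Pool.Agent.Y890.HE.Main
import Pool.Agent.U543.GalDef

/-!
# Equality and comparison of numbers built from real and imaginary parts of periods and from exponentials of periods:
# definitions
-/

set_option autoImplicit false

open NumberField

namespace Pool.Agent.U543.XD

open Pool.Agent.Y118.HP (qm jm)
open Pool.Agent.Y890.HE (Conf pm)
open Pool.Agent.Y890.SM (Ix tpi)
open Pool.Agent.U543.GD (Height Inner)

variable {ι : Type} {n : ι → ℕ}

/-- The value of a polynomial over the integers of `K` at the entries of the matrices `Z p` and `Y p` and at `μ`. -/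
noncomputable def value {κ : Type} {m : κ → ℕ} {K : Type} [Field K] (io : K →+* ℂ)
    (Φ : MvPolynomial (Option (Ix m ⊕ Ix m)) (𝓞 K)) (Z Y : ∀ p, Matrix (Fin (m p)) (Fin (m p)) ℂ) (μ : ℂ) : ℂ :=
  MvPolynomial.eval₂ (io.comp (algebraMap (𝓞 K) K))
    (fun o => o.elim μ (Sum.elim (fun q => Z q.1 q.2.1 q.2.2) fun q => Y q.1 q.2.1 q.2.2)) Φ

/-- `Φ` has degree at most `k` in each variable and the conjugates of its coefficients are at most `T ^ k`. -/
def Size {κ : Type} {m : κ → ℕ} {K : Type} [Field K] [NumberField K] (k : ℕ) (T : ℝ)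
    (Φ : MvPolynomial (Option (Ix m ⊕ Ix m)) (𝓞 K)) : Prop :=
  (∀ i, Φ.degreeOf i ≤ k) ∧ ∀ c, house ((MvPolynomial.coeff c Φ : 𝓞 K) : K) ≤ T ^ k

/-- The period matrices of the curves `y² = ∏ (x - e i r)` (for `(i, false)`) and the complex conjugate matrices (for
`(i, true)`). -/
noncomputable def pc (n : ι → ℕ) (e : (Σ i, Fin (n i + 1)) → ℂ) (p : ι × Bool) :
    Matrix (Fin (n p.1)) (Fin (n p.1)) ℂ :=
  if p.2 then (pm n e p.1).map (starRingEnd ℂ) else pm n e p.1

/-- The number `Φ(exp P, exp P̄, P, P̄, 2 π i)`, `P` the period matrices at `e`. -/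
noncomputable def num {K : Type} [Field K] (io : K →+* ℂ)
    (Φ : MvPolynomial (Option (Ix (fun p : ι × Bool => n p.1) ⊕ Ix (fun p : ι × Bool => n p.1))) (𝓞 K))
    (e : (Σ i, Fin (n i + 1)) → ℂ) : ℂ :=
  value io Φ (fun p => (pc n e p).map Complex.exp) (pc n e) tpi

/-- The pairs `(Y, μ)`, `μ ≠ 0`, which satisfy the (bilinear) Legendre relations for the curves at `e` and their complex
conjugates, with `2 π i` replaced by `μ`. -/
def Leg (n : ι → ℕ) (e : (Σ i, Fin (n i + 1)) → ℂ) :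
    Set ((∀ p : ι × Bool, Matrix (Fin (n p.1)) (Fin (n p.1)) ℂ) × ℂ) :=
  {q | q.2 ≠ 0 ∧ ∀ p : ι × Bool, q.1 p * ((2 * Complex.I) • qm (n p.1) (∏ r : Fin (n p.1 + 1),
    (Polynomial.X - Polynomial.C (if p.2 then (starRingEnd ℂ) (e ⟨p.1, r⟩) else e ⟨p.1, r⟩)))) * (q.1 p).transpose =
    q.2 • jm ℂ (n p.1)}

/-- For all numbers `Φ₁`, `Φ₂` as in `num`, of `Size k T`: their equality is decided by any approximations with errors at
most `δ`; if they are real, their order is decided by the same approximations; and they are equal if and only if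
`Φ₁ = Φ₂` as functions of free variables for the exponentials and of the solutions `(Y, μ)` of the Legendre relations. -/
def Decided (n : ι → ℕ) (k : ℕ) (K : Type) [Field K] [NumberField K] (io : K →+* ℂ) (T δ : ℝ)
    (e : (Σ i, Fin (n i + 1)) → ℂ) : Prop :=
  ∀ Φ₁ Φ₂ : MvPolynomial (Option (Ix (fun p : ι × Bool => n p.1) ⊕ Ix (fun p : ι × Bool => n p.1))) (𝓞 K),
    Size k T Φ₁ → Size k T Φ₂ →
    (∀ a₁ a₂ : ℂ, ‖a₁ - num io Φ₁ e‖ ≤ δ → ‖a₂ - num io Φ₂ e‖ ≤ δ →
      (num io Φ₁ e = num io Φ₂ e ↔ ‖a₁ - a₂‖ ≤ 2 * δ) ∧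
      ((num io Φ₁ e).im = 0 → (num io Φ₂ e).im = 0 →
        ((num io Φ₁ e).re < (num io Φ₂ e).re ↔ a₁.re + 2 * δ < a₂.re))) ∧
    (num io Φ₁ e = num io Φ₂ e ↔ ∀ (Z : ∀ p : ι × Bool, Matrix (Fin (n p.1)) (Fin (n p.1)) ℂ), ∀ q ∈ Leg n e,
      value io Φ₁ Z q.1 q.2 = value io Φ₂ Z q.1 q.2)

/-- The elements of `K` of height at most `T` with real image. -/
def RHeight (K : Type) [Field K] [NumberField K] (io : K →+* ℂ) (T : ℝ) : Set K :=
  {x | x ∈ Height K T ∧ (io x).im = 0}

/-- The branch points `e = a + i b` with real and imaginary parts `a`, `b` over `K`. -/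
noncomputable def pt {X K : Type} [Field K] (io : K →+* ℂ) (u : X ⊕ X → K) : X → ℂ :=
  fun j => io (u (Sum.inl j)) + Complex.I * io (u (Sum.inr j))

variable [Fintype ι]

/-- The real and imaginary parts, of height at most `T`, of branch points in `Conf n`, of norm at most `k` and at
distance at least `1 / k` from the complement, at which the numbers are not `Decided` with precision `δ`. -/
def Bad (n : ι → ℕ) (k : ℕ) (K : Type) [Field K] [NumberField K] (io : K →+* ℂ) (T δ : ℝ) :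
    Set ((Σ i, Fin (n i + 1)) ⊕ (Σ i, Fin (n i + 1)) → K) :=
  {u | (∀ j, u j ∈ RHeight K io T) ∧ pt io u ∈ Inner (Conf n) k ∧ ¬ Decided n k K io T δ (pt io u)}

end Pool.Agent.U543.XD
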