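import Mathlib

/-!
# Exponential polynomials: the dominating terms
-/

set_option autoImplicit false

open Filter Topology Polynomial

namespace Pool.Agent.U543.XP

theorem decay (B : ℂ[X]) {w : ℂ} (hw : w.re < 0) :
    Tendsto (fun N : ℕ => B.eval (N : ℂ) * Complex.exp (N * w)) atTop (𝓝 0) := by
  induction B using Polynomial.induction_on' with
  | add p q hp hq =>
    simp only [eval_add, add_mul]
    simpa using hp.add hq
  | monomial j c =>
    rw [tendsto_zero_iff_norm_tendsto_zero]
    have h1 : ∀ N : ℕ, ‖(monomial j c).eval (N : ℂ) * Complex.exp (N * w)‖ =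
        ‖c‖ * ((N : ℝ) ^ j * Real.exp w.re ^ N) := by
      intro N
      rw [eval_monomial, norm_mul, norm_mul, norm_pow, Complex.norm_natCast, Complex.norm_exp, ← Real.exp_nat_mul]
      have : ((N : ℂ) * w).re = N * w.re := by simp
      rw [this]
      ring
    simp only [h1]
    have h2 : |Real.exp w.re| < 1 := by
      rw [abs_of_pos (Real.exp_pos _)]
      exact (Real.exp_lt_exp.2 hw).trans_eq Real.exp_zero
    simpa using (tendsto_pow_const_mul_const_pow_of_abs_lt_one j h2).const_mul ‖c‖

theorem zero_of_tendsto {B : ℂ[X]} (h : Tendsto (fun N : ℕ => B.eval (N : ℂ)) atTop (𝓝 0)) : B = 0 := by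
  by_contra hB
  by_cases hd : 0 < B.degree
  · have h1 := Polynomial.tendsto_norm_atTop B hd (l := atTop) (z := fun N : ℕ => (N : ℂ)) (by
      simp only [Complex.norm_natCast]
      exact tendsto_natCast_atTop_atTop)
    have h2 := (tendsto_zero_iff_norm_tendsto_zero.1 h)
    exact not_tendsto_nhds_of_tendsto_atTop h1 _ h2
  · have h1 : B = C (B.coeff 0) := eq_C_of_degree_le_zero (not_lt.1 hd)
    rw [h1] at h
    simp only [eval_C] at h
    have h2 : B.coeff 0 = 0 := tendsto_nhds_unique tendsto_const_nhds h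
    rw [h2, C_0] at h1
    exact hB h1

theorem dominate {τ : Type} [DecidableEq τ] (S A : Finset τ) (hA : A ⊆ S) (B : τ → ℂ[X]) (c : τ → ℂ) (L : τ → ℂ) (L0 : ℂ)
    (h1 : ∀ m ∈ A, L m = L0) (h2 : ∀ m ∈ S, m ∉ A → (L m).re < L0.re)
    (h : ∀ N : ℕ, ∑ m ∈ S, c m * ((B m).eval (N : ℂ) * Complex.exp (N * L m)) = 0) :
    ∑ m ∈ A, c m * (B m).eval 0 = 0 := by
  have h3 : ∑ m ∈ A, C (c m) * B m = 0 := by
    apply zero_of_tendsto
    have h4 : ∀ N : ℕ, (∑ m ∈ A, C (c m) * B m).eval (N : ℂ) =
        -∑ m ∈ S \ A, c m * ((B m).eval (N : ℂ) * Complex.exp (N * (L m - L0))) := by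
      intro N
      have h5 := h N
      rw [← Finset.sum_sdiff hA] at h5
      have h6 : ∑ m ∈ A, c m * ((B m).eval (N : ℂ) * Complex.exp (N * L m)) =
          (∑ m ∈ A, C (c m) * B m).eval (N : ℂ) * Complex.exp (N * L0) := by
        rw [eval_finsetSum, Finset.sum_mul]
        refine Finset.sum_congr rfl fun m hm => ?_
        rw [h1 m hm, eval_mul, eval_C]
        ring
      have h7 : ∑ m ∈ S \ A, c m * ((B m).eval (N : ℂ) * Complex.exp (N * L m)) =
          (∑ m ∈ S \ A, c m * ((B m).eval (N : ℂ) * Complex.exp (N * (L m - L0)))) * Complex.exp (N * L0) := by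
        rw [Finset.sum_mul]
        refine Finset.sum_congr rfl fun m _ => ?_
        rw [mul_assoc, mul_assoc, ← Complex.exp_add]
        congr 3
        ring
      rw [h6, h7, ← add_mul] at h5
      have h8 := (mul_eq_zero.1 h5).resolve_right (Complex.exp_ne_zero _)
      linear_combination h8
    simp only [h4]
    rw [← neg_zero]
    refine Tendsto.neg ?_
    rw [← Finset.sum_const_zero (s := S \ A)]
    refine tendsto_finsetSum _ fun m hm => ?_
    have h5 := h2 m (Finset.mem_sdiff.1 hm).1 (Finset.mem_sdiff.1 hm).2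
    have h6 := (decay (B m) (w := L m - L0) (by rw [Complex.sub_re]; linarith)).const_mul (c m)
    rwa [mul_zero] at h6
  have h4 := congrArg (eval 0) h3
  rw [eval_finsetSum, eval_zero] at h4
  refine Eq.trans (Finset.sum_congr rfl fun m _ => ?_) h4
  rw [eval_mul, eval_C]

end Pool.Agent.U543.XP
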