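import Pool.Agent.U543.XpGrow

/-!
# The tests: counting, and all degrees at once
-/

set_option autoImplicit false
set_option linter.unusedSectionVars false

open NumberField Filter

namespace Pool.Agent.U543.XD

open Pool.Agent.Y890.HE (Conf pm Ord)
open Pool.Agent.Y890.MV
open Pool.Agent.Y124 (Cov)
open Pool.Agent.U543.GD (Height Inner)

variable {ι : Type} [Fintype ι] [DecidableEq ι] {n : ι → ℕ}

theorem RHeight_fin (K : Type) [Field K] [NumberField K] (io : K →+* ℂ) (T : ℝ) : (RHeight K io T).Finite :=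
  (Y120.HtLe_fin K T).subset fun _ hx => hx.1

theorem main_fix [Nonempty ι] (n : ι → ℕ) (hn : ∀ i, Even (n i)) (k : ℕ) (ε : ℝ) (hε : 0 < ε) :
    ∃ (B D : ℕ) (C T₀ : ℝ), 0 ≤ C ∧ 2 ≤ T₀ ∧ ∀ T, T₀ ≤ T → ∀ (K : Type) [Field K] [NumberField K],
      Module.finrank ℚ K ≤ k → ∀ (io : K →+* ℂ), Complex.I ∈ io.range →
        Cov D ⌊C * T ^ ε⌋₊ ((fun (u : (Σ i, Fin (n i + 1)) ⊕ (Σ i, Fin (n i + 1)) → K) j => io (u j)) ''
          Bad n k K io T (T ^ (-(B : ℝ)))) ∧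
        (Bad n k K io T (T ^ (-(B : ℝ)))).Finite ∧
        ((Bad n k K io T (T ^ (-(B : ℝ)))).ncard : ℝ) ≤
          D * C * T ^ ε * ((RHeight K io T).ncard : ℝ) ^ (2 * Fintype.card (Σ i, Fin (n i + 1)) - 1) := by
  classical
  have : Nonempty (Σ i, Fin (n i + 1)) := ⟨⟨Classical.arbitrary ι, 0⟩⟩
  obtain ⟨B, D, C, T₀, hC, hT₀, H⟩ := cov_bad hn k ε hε
  refine ⟨B, D, C, T₀, hC, hT₀, fun T hT K _ _ hK io hI => ?_⟩
  have hTp : 0 < T := by linarith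
  have h1 := H K hK io hI T hT _ le_rfl
  obtain ⟨h2, h3⟩ := cov_count io (RHeight K io T) (RHeight_fin K io T) _ (fun u hu => hu.1) h1
  refine ⟨h1, h2, ?_⟩
  have h6 : Fintype.card ((Σ i, Fin (n i + 1)) ⊕ (Σ i, Fin (n i + 1))) = 2 * Fintype.card (Σ i, Fin (n i + 1)) := by
    rw [Fintype.card_sum, two_mul]
  rw [h6] at h3
  have h4 : ((Bad n k K io T (T ^ (-(B : ℝ)))).ncard : ℝ) ≤
      (⌊C * T ^ ε⌋₊ : ℝ) * (D * ((RHeight K io T).ncard : ℝ) ^ (2 * Fintype.card (Σ i, Fin (n i + 1)) - 1)) := by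
    exact_mod_cast h3
  have h5 : ((⌊C * T ^ ε⌋₊ : ℕ) : ℝ) ≤ C * T ^ ε := Nat.floor_le (by positivity)
  refine h4.trans ((mul_le_mul_of_nonneg_right h5 (by positivity)).trans (le_of_eq ?_))
  ring

theorem main_grow [Nonempty ι] (n : ι → ℕ) (hn : ∀ i, Even (n i)) (v : ℝ → ℝ) (hv : Tendsto v atTop atTop) :
    ∃ (ω : ℝ → ℕ) (T₀ : ℝ), Tendsto ω atTop atTop ∧ Monotone ω ∧ ∀ T, T₀ ≤ T → 0 < ω T ∧
      ∀ (K : Type) [Field K] [NumberField K], Module.finrank ℚ K ≤ ω T → ∀ (io : K →+* ℂ), Complex.I ∈ io.range →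
        Cov ⌊T ^ ((ω T : ℝ)⁻¹)⌋₊ ⌊T ^ ((ω T : ℝ)⁻¹)⌋₊
          ((fun (u : (Σ i, Fin (n i + 1)) ⊕ (Σ i, Fin (n i + 1)) → K) j => io (u j)) ''
            Bad n (ω T) K io T (T ^ (-v T))) ∧
        (Bad n (ω T) K io T (T ^ (-v T))).Finite ∧
        ((Bad n (ω T) K io T (T ^ (-v T))).ncard : ℝ) ≤
          T ^ (2 * (ω T : ℝ)⁻¹) * ((RHeight K io T).ncard : ℝ) ^ (2 * Fintype.card (Σ i, Fin (n i + 1)) - 1) := by
  classical
  have : Nonempty (Σ i, Fin (n i + 1)) := ⟨⟨Classical.arbitrary ι, 0⟩⟩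
  obtain ⟨ω, T₀, h1, h2, h3⟩ := omega_gen (fun _ => Unit)
    (fun k K _ _ io _ T => {u : (Σ i, Fin (n i + 1)) ⊕ (Σ i, Fin (n i + 1)) → K | Complex.I ∈ io.range ∧
      u ∈ Bad n k K io T (T ^ (-v T))})
    (fun k K _ _ io _ T s hs j => (hs.2.1 j).1) (by
      intro k ε hε
      obtain ⟨B, D, C, T₁, hC, hT₁, H⟩ := cov_bad hn k ε hε
      obtain ⟨T₂, hT₂⟩ := (hv.eventually_ge_atTop (B : ℝ)).exists_forall_of_atTop
      refine ⟨D, C, max T₁ T₂, hC, hT₁.trans (le_max_left _ _), fun K _ _ hK io _ T hT => ?_⟩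
      have hTa : T₁ ≤ T := (le_max_left _ _).trans hT
      have hTb : T₂ ≤ T := (le_max_right _ _).trans hT
      by_cases hI : Complex.I ∈ io.range
      · refine (H K hK io hI T hTa (T ^ (-v T)) (Real.rpow_le_rpow_of_exponent_le (by linarith)
          (neg_le_neg (hT₂ T hTb)))).mono le_rfl le_rfl (Set.image_mono fun s hs => hs.2)
      · refine ⟨∅, Nat.zero_le _, fun P hP => absurd hP (Finset.notMem_empty P), ?_⟩
        rintro _ ⟨s, hs, rfl⟩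
        exact absurd hs.1 hI)
  refine ⟨ω, max T₀ 1, h1, h2, fun T hT => ⟨(h3 T ((le_max_left _ _).trans hT)).1, fun K _ _ hK io hI => ?_⟩⟩
  have hT1 : 1 ≤ T := (le_max_right _ _).trans hT
  have hTp : 0 < T := by linarith
  have h4 := ((h3 T ((le_max_left _ _).trans hT)).2 K hK io ()).1
  have h5 : {u : (Σ i, Fin (n i + 1)) ⊕ (Σ i, Fin (n i + 1)) → K | Complex.I ∈ io.range ∧
      u ∈ Bad n (ω T) K io T (T ^ (-v T))} = Bad n (ω T) K io T (T ^ (-v T)) := by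
    ext s
    exact ⟨fun h => h.2, fun h => ⟨hI, h⟩⟩
  simp only [h5] at h4
  obtain ⟨h6, h7⟩ := cov_count io (RHeight K io T) (RHeight_fin K io T) _ (fun u hu => hu.1) h4
  refine ⟨h4, h6, ?_⟩
  have h8 : Fintype.card ((Σ i, Fin (n i + 1)) ⊕ (Σ i, Fin (n i + 1))) = 2 * Fintype.card (Σ i, Fin (n i + 1)) := by
    rw [Fintype.card_sum, two_mul]
  rw [h8] at h7
  have h9 : ((Bad n (ω T) K io T (T ^ (-v T))).ncard : ℝ) ≤ (⌊T ^ ((ω T : ℝ)⁻¹)⌋₊ : ℝ) * ((⌊T ^ ((ω T : ℝ)⁻¹)⌋₊ : ℝ) *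
      ((RHeight K io T).ncard : ℝ) ^ (2 * Fintype.card (Σ i, Fin (n i + 1)) - 1)) := by
    exact_mod_cast h7
  have h10 : ((⌊T ^ ((ω T : ℝ)⁻¹)⌋₊ : ℕ) : ℝ) ≤ T ^ ((ω T : ℝ)⁻¹) := Nat.floor_le (by positivity)
  refine h9.trans ?_
  have h11 : T ^ (2 * (ω T : ℝ)⁻¹) = T ^ ((ω T : ℝ)⁻¹) * T ^ ((ω T : ℝ)⁻¹) := by
    rw [two_mul (ω T : ℝ)⁻¹, Real.rpow_add hTp]
  rw [h11, mul_assoc]
  refine mul_le_mul h10 (mul_le_mul_of_nonneg_right h10 (by positivity)) (by positivity) (by positivity)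

end Pool.Agent.U543.XD
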