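import Pool.Agent.U543.XpDef
import Pool.Agent.U543.XpConj

/-!
# Numbers built from real and imaginary parts of periods and from exponentials of periods
-/

set_option autoImplicit false
set_option linter.unusedSectionVars false

open NumberField Filter

namespace Pool.Agent.U543.XD

open Pool.Agent.Y118.HP
open Pool.Agent.Y890.HE (Conf pm Ord)
open Pool.Agent.Y890.MV
open Pool.Agent.Y890.SM
open Pool.Agent.Y124 (Cov)
open Pool.Agent.U543.GD (Height Inner)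
open Pool.Agent.U543.XP

variable {ι : Type} [Fintype ι] [DecidableEq ι] {n : ι → ℕ}

/-- the branch points and their conjugates -/
noncomputable def cj (e : (Σ i, Fin (n i + 1)) → ℂ) : (Σ p : ι × Bool, Fin (n p.1 + 1)) → ℂ :=
  fun q => if q.1.2 then (starRingEnd ℂ) (e ⟨q.1.1, q.2⟩) else e ⟨q.1.1, q.2⟩

/-- the family -/
noncomputable abbrev FF (n : ι → ℕ) (hn : ∀ i, Even (n i)) :
    SympFam (Σ p : ι × Bool, Fin (n p.1 + 1)) (fun p : ι × Bool => n p.1) :=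
  hyp (fun p : ι × Bool => n p.1) (fun p => hn p.1)

theorem cj_norm (e : (Σ i, Fin (n i + 1)) → ℂ) (q : Σ p : ι × Bool, Fin (n p.1 + 1)) :
    ‖cj e q‖ = ‖e ⟨q.1.1, q.2⟩‖ := by
  unfold cj
  split_ifs
  · exact RCLike.norm_conj _
  · rfl

theorem cj_inner {e : (Σ i, Fin (n i + 1)) → ℂ} {k : ℕ} (he : e ∈ Inner (Conf n) k) :
    cj e ∈ InnerM (Conf (fun p : ι × Bool => n p.1)) k := by
  obtain ⟨h1, h2⟩ := he
  refine ⟨?_, ?_⟩
  · rw [pi_norm_le_iff_of_nonneg (Nat.cast_nonneg k)]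
    intro q
    rw [cj_norm]
    exact (norm_le_pi_norm e _).trans h1
  · intro y hy
    rw [Metric.mem_ball] at hy
    have h0 : 0 < (k : ℝ)⁻¹ := lt_of_le_of_lt dist_nonneg hy
    rw [dist_pi_lt_iff h0] at hy
    rintro ⟨i, b⟩ r s hrs
    have h3 : (fun q : Σ i, Fin (n i + 1) => if b then (starRingEnd ℂ) (y ⟨(q.1, b), q.2⟩) else y ⟨(q.1, b), q.2⟩) ∈
        Metric.ball e (k : ℝ)⁻¹ := by
      rw [Metric.mem_ball, dist_pi_lt_iff h0]
      intro q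
      have h4 := hy ⟨(q.1, b), q.2⟩
      cases b
      · simpa [cj] using h4
      · have h5 : dist ((starRingEnd ℂ) (y ⟨(q.1, true), q.2⟩)) (e q) =
            dist (y ⟨(q.1, true), q.2⟩) (cj e ⟨(q.1, true), q.2⟩) := by
          rw [dist_eq_norm, dist_eq_norm, ← RCLike.norm_conj, map_sub, Complex.conj_conj]
          rfl
        simp only [if_true]
        rw [h5]
        exact h4
    have h6 := h2 h3 i r s hrs
    cases b
    · simpa using h6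
    · simpa using h6

theorem cj_P (hn : ∀ i, Even (n i)) {e : (Σ i, Fin (n i + 1)) → ℂ} (he : e ∈ Conf n) (p : ι × Bool) :
    (FF n hn).P p (cj e) = pc n e p := by
  obtain ⟨i, b⟩ := p
  ext l j
  cases b
  · show perC (fun r => cj e ⟨(i, false), r⟩) l j = pc n e (i, false) l j
    unfold pc cj
    simp [pm]
  · show perC (fun r => cj e ⟨(i, true), r⟩) l j = pc n e (i, true) l j
    have h1 := perC_conj' (e := fun r => e ⟨i, r⟩) (fun r s hrs => he i r s hrs) l j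
    unfold pc cj
    simp only [if_true]
    rw [h1]
    rfl

theorem cj_leg (hn : ∀ i, Even (n i)) (e : (Σ i, Fin (n i + 1)) → ℂ) (q : (∀ p : ι × Bool,
    Matrix (Fin (n p.1)) (Fin (n p.1)) ℂ) × ℂ) : q ∈ (FF n hn).torsor (cj e) ↔ q ∈ Leg n e := by
  have h2 : ∀ m, (jm ℚ m).map (algebraMap ℚ ℂ) = jm ℂ m := fun m => jm_map (algebraMap ℚ ℂ)
  constructor
  · rintro ⟨h3, h4⟩
    refine ⟨h3, fun p => ?_⟩
    have h5 := h4 p
    have h6 : ((FF n hn).Q p).map (MvPolynomial.aeval (cj e)) = (2 * Complex.I) • qm (n p.1) (∏ r : Fin (n p.1 + 1),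
      (Polynomial.X - Polynomial.C (cj e ⟨p, r⟩))) := QQ_eval (fun p : ι × Bool => n p.1) p (cj e)
    have h7 : ((FF n hn).J p).map (algebraMap ℚ ℂ) = jm ℂ (n p.1) := h2 _
    have h8 : (FF n hn).w p = 1 := rfl
    rw [h6, h7, h8, pow_one] at h5
    exact h5
  · rintro ⟨h3, h4⟩
    refine ⟨h3, fun p => ?_⟩
    have h5 := h4 p
    have h6 : ((FF n hn).Q p).map (MvPolynomial.aeval (cj e)) = (2 * Complex.I) • qm (n p.1) (∏ r : Fin (n p.1 + 1),
      (Polynomial.X - Polynomial.C (cj e ⟨p, r⟩))) := QQ_eval (fun p : ι × Bool => n p.1) p (cj e)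
    have h7 : ((FF n hn).J p).map (algebraMap ℚ ℂ) = jm ℂ (n p.1) := h2 _
    have h8 : (FF n hn).w p = 1 := rfl
    rw [h6, h7, h8, pow_one]
    exact h5

/-- the coordinates over `K` -/
noncomputable def ss {K : Type} [Field K] (J : K) (u : (Σ i, Fin (n i + 1)) ⊕ (Σ i, Fin (n i + 1)) → K) :
    (Σ p : ι × Bool, Fin (n p.1 + 1)) → K :=
  fun q => u (Sum.inl ⟨q.1.1, q.2⟩) + (if q.1.2 then -J else J) * u (Sum.inr ⟨q.1.1, q.2⟩)

/-- the linear forms -/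
noncomputable def lf (q : Σ p : ι × Bool, Fin (n p.1 + 1)) :
    MvPolynomial ((Σ i, Fin (n i + 1)) ⊕ (Σ i, Fin (n i + 1))) ℂ :=
  MvPolynomial.X (Sum.inl ⟨q.1.1, q.2⟩) +
    MvPolynomial.C (if q.1.2 then -Complex.I else Complex.I) * MvPolynomial.X (Sum.inr ⟨q.1.1, q.2⟩)

theorem lf_deg (q : Σ p : ι × Bool, Fin (n p.1 + 1)) : (lf q).totalDegree ≤ 1 := by
  unfold lf
  refine (MvPolynomial.totalDegree_add _ _).trans (max_le ?_ ?_)
  · rw [MvPolynomial.totalDegree_X]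
  · refine (MvPolynomial.totalDegree_mul _ _).trans ?_
    rw [MvPolynomial.totalDegree_C, MvPolynomial.totalDegree_X]

theorem lf_surj (y : (Σ p : ι × Bool, Fin (n p.1 + 1)) → ℂ) :
    ∃ u : (Σ i, Fin (n i + 1)) ⊕ (Σ i, Fin (n i + 1)) → ℂ, ∀ q, MvPolynomial.eval u (lf q) = y q := by
  refine ⟨Sum.elim (fun q => (y ⟨(q.1, false), q.2⟩ + y ⟨(q.1, true), q.2⟩) / 2)
    (fun q => (y ⟨(q.1, false), q.2⟩ - y ⟨(q.1, true), q.2⟩) / (2 * Complex.I)), ?_⟩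
  rintro ⟨⟨i, b⟩, r⟩
  have hI : Complex.I ≠ 0 := Complex.I_ne_zero
  unfold lf
  cases b
  · simp only [map_add, map_mul, MvPolynomial.eval_X, MvPolynomial.eval_C, Sum.elim_inl, Sum.elim_inr]
    field_simp
    simp
    ring
  · simp only [map_add, map_mul, MvPolynomial.eval_X, MvPolynomial.eval_C, Sum.elim_inl, Sum.elim_inr]
    field_simp
    simp
    ring

theorem ss_io {K : Type} [Field K] (io : K →+* ℂ) {J : K} (hJ : io J = Complex.I)
    {u : (Σ i, Fin (n i + 1)) ⊕ (Σ i, Fin (n i + 1)) → K} (hu : ∀ j, (io (u j)).im = 0)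
    (q : Σ p : ι × Bool, Fin (n p.1 + 1)) : cj (pt io u) q = io (ss J u q) := by
  have hc : ∀ j, (starRingEnd ℂ) (io (u j)) = io (u j) := fun j => Complex.conj_eq_iff_im.2 (hu j)
  obtain ⟨⟨i, b⟩, r⟩ := q
  unfold cj ss pt
  cases b
  · simp [hJ]
  · simp [hJ, hc]

theorem lf_io {K : Type} [Field K] (io : K →+* ℂ) {J : K} (hJ : io J = Complex.I)
    (u : (Σ i, Fin (n i + 1)) ⊕ (Σ i, Fin (n i + 1)) → K)
    (q : Σ p : ι × Bool, Fin (n p.1 + 1)) : MvPolynomial.eval (fun j => io (u j)) (lf q) = io (ss J u q) := by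
  obtain ⟨⟨i, b⟩, r⟩ := q
  unfold lf ss
  cases b
  · simp [hJ]
  · simp [hJ]

theorem ss_ht {K : Type} [Field K] [NumberField K] (io : K →+* ℂ) {J : K} (hJ : io J = Complex.I) {T : ℝ} (hT : 2 ≤ T)
    {u : (Σ i, Fin (n i + 1)) ⊕ (Σ i, Fin (n i + 1)) → K} (hu : ∀ j, u j ∈ Height K T)
    (q : Σ p : ι × Bool, Fin (n p.1 + 1)) : Y120.HtLe K (T ^ 3) (ss J u q) := by
  have hJ2 : J ^ 2 = -1 := io.injective (by rw [map_pow, hJ, Complex.I_sq, map_neg, map_one])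
  have hJi : IsIntegral ℤ J := by
    refine ⟨Polynomial.X ^ 2 + 1, ?_, ?_⟩
    · exact Polynomial.monic_X_pow_add_C (R := ℤ) (n := 2) 1 (by norm_num)
    · simp [hJ2]
  have hkey : ∀ (J' : 𝓞 K), ((J' : K) ^ 2 = -1) → ∀ a b : K, a ∈ Height K T → b ∈ Height K T →
      Y120.HtLe K (T ^ 3) (a + (J' : K) * b) := by
    rintro J' hJ' _ _ ⟨a₁, a₂, ha₂, h1, h2, rfl⟩ ⟨b₁, b₂, hb₂, h3, h4, rfl⟩
    have hn1 : ∀ φ : K →+* ℂ, ‖φ (J' : K)‖ = 1 := by
      intro φ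
      have h5 : ‖φ (J' : K)‖ ^ 2 = 1 := by
        rw [← norm_pow, ← map_pow, hJ', map_neg, map_one, norm_neg, norm_one]
      nlinarith [norm_nonneg (φ (J' : K)), sq_nonneg (‖φ (J' : K)‖ - 1)]
    have hT3 : 2 * T ^ 2 ≤ T ^ 3 := by nlinarith [sq_nonneg T]
    refine ⟨a₁ * b₂ + J' * b₁ * a₂, a₂ * b₂, mul_ne_zero ha₂ hb₂, ?_, ?_, ?_⟩
    · refine Y120.house_le K (by positivity) fun φ => ?_
      have h6 : φ ((a₁ * b₂ + J' * b₁ * a₂ : 𝓞 K) : K) =
          φ (a₁ : K) * φ (b₂ : K) + φ (J' : K) * φ (b₁ : K) * φ (a₂ : K) := by simp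
      rw [h6]
      have e1 := (Y120.house_ge K (a₁ : K) φ).trans h1
      have e2 := (Y120.house_ge K (a₂ : K) φ).trans h2
      have e3 := (Y120.house_ge K (b₁ : K) φ).trans h3
      have e4 := (Y120.house_ge K (b₂ : K) φ).trans h4
      refine (norm_add_le _ _).trans ?_
      rw [norm_mul, norm_mul, norm_mul, hn1, one_mul]
      have e5 : ‖φ (a₁ : K)‖ * ‖φ (b₂ : K)‖ ≤ T * T := mul_le_mul e1 e4 (norm_nonneg _) (by linarith)
      have e6 : ‖φ (b₁ : K)‖ * ‖φ (a₂ : K)‖ ≤ T * T := mul_le_mul e3 e2 (norm_nonneg _) (by linarith)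
      nlinarith
    · refine Y120.house_le K (by positivity) fun φ => ?_
      have h6 : φ ((a₂ * b₂ : 𝓞 K) : K) = φ (a₂ : K) * φ (b₂ : K) := by simp
      rw [h6, norm_mul]
      have e2 := (Y120.house_ge K (a₂ : K) φ).trans h2
      have e4 := (Y120.house_ge K (b₂ : K) φ).trans h4
      have e5 : ‖φ (a₂ : K)‖ * ‖φ (b₂ : K)‖ ≤ T * T := mul_le_mul e2 e4 (norm_nonneg _) (by linarith)
      nlinarith
    · have h7 : (a₂ : K) ≠ 0 := by exact_mod_cast ha₂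
      have h8 : (b₂ : K) ≠ 0 := by exact_mod_cast hb₂
      simp only [map_add, map_mul]
      field_simp
  obtain ⟨Jo, hJo⟩ : ∃ Jo : 𝓞 K, (Jo : K) = J := ⟨⟨J, hJi⟩, rfl⟩
  have hJn : ((-Jo : 𝓞 K) : K) = -J := by
    rw [← hJo]
    exact map_neg (algebraMap (𝓞 K) K) Jo
  unfold ss
  split_ifs
  · have h1 := hkey (-Jo) (by rw [hJn, neg_sq, hJ2]) _ _ (hu (Sum.inl ⟨q.1.1, q.2⟩)) (hu (Sum.inr ⟨q.1.1, q.2⟩))
    rw [hJn] at h1
    exact h1
  · have h1 := hkey Jo (by rw [hJo, hJ2]) _ _ (hu (Sum.inl ⟨q.1.1, q.2⟩)) (hu (Sum.inr ⟨q.1.1, q.2⟩))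
    rw [hJo] at h1
    exact h1

end Pool.Agent.U543.XD
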