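import Pool.Agent.U543.XpFin

/-!
# The tests
-/

set_option autoImplicit false
set_option linter.unusedSectionVars false

open NumberField Filter

namespace Pool.Agent.U543.XD

open Pool.Agent.Y118.HP
open Pool.Agent.Y890.HE (Conf pm Ord)
open Pool.Agent.Y890.MV
open Pool.Agent.Y890.SM
open Pool.Agent.Y124 (Cov)
open Pool.Agent.U543.GD (Height Inner)
open Pool.Agent.U543.XP

variable {ι : Type} [Fintype ι] [DecidableEq ι] {n : ι → ℕ}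

/-- differences of values -/
theorem value_sub {κ : Type} [Fintype κ] [DecidableEq κ] {m : κ → ℕ} {K : Type} [Field K] (io : K →+* ℂ) {k : ℕ}
    (Φ₁ Φ₂ : MvPolynomial (Option (Ix m ⊕ Ix m)) (𝓞 K)) (h₁ : ∀ i, Φ₁.degreeOf i ≤ k) (h₂ : ∀ i, Φ₂.degreeOf i ≤ k)
    (Z Y : ∀ p, Matrix (Fin (m p)) (Fin (m p)) ℂ) (μ : ℂ) :
    value io Φ₁ Z Y μ - value io Φ₂ Z Y μ =
      ∑ l : Ix m ⊕ Ix m → Fin (k + 1), (∑ a : Fin (k + 1), μ ^ (a : ℕ) * io ((cg Φ₁ l a - cg Φ₂ l a : 𝓞 K) : K)) *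
        ∏ y, (Sum.elim (fun q : Ix m => Z q.1 q.2.1 q.2.2) (fun q : Ix m => Y q.1 q.2.1 q.2.2) y) ^ (l y : ℕ) := by
  unfold value
  rw [cg_eq io Φ₁ h₁, cg_eq io Φ₂ h₂, ← Finset.sum_sub_distrib]
  refine Finset.sum_congr rfl fun l _ => ?_
  rw [← sub_mul, ← Finset.sum_sub_distrib]
  congr 1
  refine Finset.sum_congr rfl fun a _ => ?_
  have h1 : ((cg Φ₁ l a - cg Φ₂ l a : 𝓞 K) : K) = (cg Φ₁ l a : K) - (cg Φ₂ l a : K) :=
    map_sub (algebraMap (𝓞 K) K) _ _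
  rw [h1, map_sub, mul_sub]

theorem cov_bad [Nonempty ι] (hn : ∀ i, Even (n i)) (k : ℕ) (ε : ℝ) (hε : 0 < ε) :
    ∃ (B D : ℕ) (C T₀ : ℝ), 0 ≤ C ∧ 2 ≤ T₀ ∧ ∀ (K : Type) [Field K] [NumberField K], Module.finrank ℚ K ≤ k →
      ∀ (io : K →+* ℂ), Complex.I ∈ io.range → ∀ T, T₀ ≤ T → ∀ δ : ℝ, δ ≤ T ^ (-(B : ℝ)) →
        Cov D ⌊C * T ^ ε⌋₊ ((fun (u : (Σ i, Fin (n i + 1)) ⊕ (Σ i, Fin (n i + 1)) → K) j => io (u j)) ''
          Bad n k K io T δ) := by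
  classical
  have : Nonempty (Σ p : ι × Bool, Fin (n p.1 + 1)) := ⟨⟨(Classical.arbitrary ι, false), 0⟩⟩
  rcases Nat.eq_zero_or_pos k with hk | hk
  · refine ⟨0, 0, 0, 2, le_rfl, le_rfl, ?_⟩
    intro K _ _ hK
    have h1 : 0 < Module.finrank ℚ K := Module.finrank_pos
    omega
  obtain ⟨D, B, C, T₀, hC, hT₀, H⟩ := lin_exp (FF n hn) (expFree_hyp _ _) k k hk k (k + 1) ((k + 1 : ℕ) : ℝ) (ε / 3)
    (by positivity)
  refine ⟨⌈3 * max B 0⌉₊ + 2, D, C, T₀, hC, hT₀, ?_⟩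
  rintro K _ _ hK io ⟨J, hJ⟩ T hT δ hδ
  have hT2 : 2 ≤ T := hT₀.trans hT
  have hT1 : 1 ≤ T := by linarith
  have hTp : 0 < T := by linarith
  have hT3 : T ≤ T ^ 3 := by
    calc T = T ^ 1 := (pow_one T).symm
      _ ≤ T ^ 3 := pow_le_pow_right₀ hT1 (by norm_num)
  have hpw : ∀ a : ℝ, (T ^ 3) ^ a = T ^ (3 * a) := fun a => by
    rw [← Real.rpow_natCast T 3, ← Real.rpow_mul hTp.le]
    norm_num
  have h0 := H K hK io (T ^ 3) (hT.trans hT3)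
  have h1 : (T ^ 3) ^ (ε / 3) = T ^ ε := by
    rw [hpw]
    congr 1
    ring
  rw [h1] at h0
  refine cov_pull lf lf_deg lf_surj h0 ?_
  rintro _ ⟨u, ⟨hu1, hu2, hu3⟩, rfl⟩
  by_contra hcon
  apply hu3
  obtain ⟨e, he⟩ : ∃ e, e = pt io u := ⟨_, rfl⟩
  rw [← he] at hu2 ⊢
  have heC : e ∈ Conf n := by
    have := innerM_sub (Conf n) hk (k := k)
    exact this hu2
  have hsio : (fun q => MvPolynomial.eval (fun j => io (u j)) (lf q)) = cj e := by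
    funext q
    rw [lf_io io hJ, he, ss_io io hJ fun j => (hu1 j).2]
  have hcs : cj e = fun q => io (ss J u q) := by
    funext q
    rw [he, ss_io io hJ fun j => (hu1 j).2]
  rw [hsio] at hcon
  have hin := cj_inner hu2
  have hinU : cj e ∈ (FF n hn).U := innerM_sub _ hk hin
  have key : ∀ c : (Ix (fun p : ι × Bool => n p.1) ⊕ Ix (fun p : ι × Bool => n p.1) → Fin (k + 1)) →
      Fin (k + 1) → 𝓞 K, (∀ l a (φ : K →+* ℂ), ‖φ (c l a : K)‖ ≤ (T ^ 3) ^ ((k + 1 : ℕ) : ℝ)) →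
      ‖∑ l, (∑ a : Fin (k + 1), tpi ^ (a : ℕ) * io (c l a : K)) * ∏ y, fe (FF n hn) y (cj e) ^ (l y : ℕ)‖ ≤
        (T ^ 3) ^ (-B) →
      ∀ W ∈ TorE (FF n hn) (cj e),
        ∑ l, (∑ a : Fin (k + 1), tpi ^ (a : ℕ) * io (c l a : K)) * ∏ y, W y ^ (l y : ℕ) = 0 := by
    intro c hc hn'
    by_contra hne
    exact hcon ⟨hin, ss J u, ss_ht io hJ hT2 fun j => (hu1 j).1, hcs, c, hc, hn', hne⟩
  intro Φ₁ Φ₂ hΦ₁ hΦ₂
  have hcb : ∀ (l : Ix (fun p : ι × Bool => n p.1) ⊕ Ix (fun p : ι × Bool => n p.1) → Fin (k + 1)) (a : Fin (k + 1))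
      (φ : K →+* ℂ), ‖φ ((cg Φ₁ l a - cg Φ₂ l a : 𝓞 K) : K)‖ ≤ (T ^ 3) ^ ((k + 1 : ℕ) : ℝ) := by
    intro l a φ
    have e1 : ‖φ (cg Φ₁ l a : K)‖ ≤ T ^ k := (Y120.house_ge K _ φ).trans (hΦ₁.2 _)
    have e2 : ‖φ (cg Φ₂ l a : K)‖ ≤ T ^ k := (Y120.house_ge K _ φ).trans (hΦ₂.2 _)
    have e3 : ((cg Φ₁ l a - cg Φ₂ l a : 𝓞 K) : K) = (cg Φ₁ l a : K) - (cg Φ₂ l a : K) :=
      map_sub (algebraMap (𝓞 K) K) _ _
    have e6 : T ^ (k + 1) ≤ (T ^ 3) ^ (k + 1) := pow_le_pow_left₀ hTp.le hT3 _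
    rw [e3, map_sub, Real.rpow_natCast]
    refine le_trans ?_ e6
    rw [pow_succ]
    have e4 : 0 ≤ T ^ k := by positivity
    have e5 := norm_sub_le (φ (cg Φ₁ l a : K)) (φ (cg Φ₂ l a : K))
    nlinarith
  obtain ⟨S, hS⟩ : ∃ S : ℂ, S = num io Φ₁ e - num io Φ₂ e := ⟨_, rfl⟩
  have hfe : (Sum.elim (fun q : Ix (fun p : ι × Bool => n p.1) => ((pc n e q.1).map Complex.exp) q.2.1 q.2.2)
      (fun q : Ix (fun p : ι × Bool => n p.1) => pc n e q.1 q.2.1 q.2.2)) = fun y => fe (FF n hn) y (cj e) := by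
    funext y
    rcases y with q | q
    · show Complex.exp (pc n e q.1 q.2.1 q.2.2) = Complex.exp ((FF n hn).P q.1 (cj e) q.2.1 q.2.2)
      rw [cj_P hn heC]
    · show pc n e q.1 q.2.1 q.2.2 = (FF n hn).P q.1 (cj e) q.2.1 q.2.2
      rw [cj_P hn heC]
  have hSd : S = ∑ l : Ix (fun p : ι × Bool => n p.1) ⊕ Ix (fun p : ι × Bool => n p.1) → Fin (k + 1), (∑ a : Fin (k + 1), tpi ^ (a : ℕ) * io ((cg Φ₁ l a - cg Φ₂ l a : 𝓞 K) : K)) *
      ∏ y, fe (FF n hn) y (cj e) ^ (l y : ℕ) := by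
    rw [hS, num, num, value_sub io Φ₁ Φ₂ hΦ₁.1 hΦ₂.1, hfe]
  -- formal equality
  have K1 : ‖S‖ ≤ (T ^ 3) ^ (-B) → ∀ (Z : ∀ p : ι × Bool, Matrix (Fin (n p.1)) (Fin (n p.1)) ℂ), ∀ q ∈ Leg n e,
      value io Φ₁ Z q.1 q.2 = value io Φ₂ Z q.1 q.2 := by
    intro hSs Z q hq
    rw [hSd] at hSs
    have h2 := key _ hcb hSs
    rw [hcs] at h2
    have hq' := (cj_leg hn e q).2 hq
    rw [hcs] at hq' hinU
    have h3 := fullE (FF n hn) io (ss J u) hinU (fun l a => ((cg Φ₁ l a - cg Φ₂ l a : 𝓞 K) : K)) h2 hq'.1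
      (Sum.elim (fun y => Z y.1 y.2.1 y.2.2) (fun y => q.1 y.1 y.2.1 y.2.2)) (fun i => hq'.2 i)
    rw [← sub_eq_zero, value_sub io Φ₁ Φ₂ hΦ₁.1 hΦ₂.1]
    exact h3
  have K2 : (∀ (Z : ∀ p : ι × Bool, Matrix (Fin (n p.1)) (Fin (n p.1)) ℂ), ∀ q ∈ Leg n e,
      value io Φ₁ Z q.1 q.2 = value io Φ₂ Z q.1 q.2) → S = 0 := by
    intro h2
    rw [hS, sub_eq_zero]
    refine h2 (fun p => (pc n e p).map Complex.exp) (pc n e, tpi) ?_
    rw [← cj_leg hn]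
    have h3 := (FF n hn).mem hinU
    have h4 : (fun p => (FF n hn).P p (cj e)) = pc n e := funext fun p => cj_P hn heC p
    rw [h4] at h3
    exact h3
  have hpos : 0 < (T ^ 3) ^ (-B) := Real.rpow_pos_of_pos (by positivity) _
  have hδB : 4 * δ ≤ (T ^ 3) ^ (-B) := by
    have e1 : T ^ (-((⌈3 * max B 0⌉₊ + 2 : ℕ) : ℝ)) ≤ (T ^ 3) ^ (-B) * T ^ (-(2 : ℝ)) := by
      rw [hpw, ← Real.rpow_add hTp]
      refine Real.rpow_le_rpow_of_exponent_le hT1 ?_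
      push_cast
      have e2 := Nat.le_ceil (3 * max B 0)
      have e3 := le_max_left B 0
      linarith
    have e2 : T ^ (-(2 : ℝ)) ≤ 1 / 4 := by
      rw [Real.rpow_neg hTp.le, inv_eq_one_div, show (2 : ℝ) = ((2 : ℕ) : ℝ) by norm_num, Real.rpow_natCast]
      apply one_div_le_one_div_of_le
      · norm_num
      · nlinarith
    nlinarith [hδ.trans e1]
  have heq : num io Φ₁ e = num io Φ₂ e ↔ S = 0 := by rw [hS, sub_eq_zero]
  have hsm : ‖S‖ ≤ (T ^ 3) ^ (-B) → S = 0 := fun h => K2 (K1 h)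
  refine ⟨fun a₁ a₂ ha₁ ha₂ => ⟨?_, fun hi₁ hi₂ => ?_⟩, ?_⟩
  · rw [heq]
    constructor
    · intro h0
      have e1 : a₁ - a₂ = (a₁ - num io Φ₁ e) - (a₂ - num io Φ₂ e) + S := by
        rw [hS]
        ring
      rw [e1, h0, add_zero]
      refine (norm_sub_le _ _).trans ?_
      linarith
    · intro h0
      apply hsm
      have e1 : S = (a₁ - a₂) - (a₁ - num io Φ₁ e) + (a₂ - num io Φ₂ e) := by
        rw [hS]
        ring
      have e3 : ‖S‖ ≤ ‖a₁ - a₂‖ + ‖a₁ - num io Φ₁ e‖ + ‖a₂ - num io Φ₂ e‖ := by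
        conv_lhs => rw [e1]
        refine (norm_add_le _ _).trans ?_
        gcongr
        exact norm_sub_le _ _
      linarith
  · have b1 := (Complex.abs_re_le_norm (a₁ - num io Φ₁ e)).trans ha₁
    have b2 := (Complex.abs_re_le_norm (a₂ - num io Φ₂ e)).trans ha₂
    rw [Complex.sub_re, abs_le] at b1 b2
    constructor
    · intro h0
      by_contra hno
      have hS0 : S ≠ 0 := by
        intro h3
        rw [hS, sub_eq_zero] at h3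
        rw [h3] at h0
        exact lt_irrefl _ h0
      have h3 : (T ^ 3) ^ (-B) < ‖S‖ := by
        by_contra h4
        exact hS0 (hsm (not_lt.1 h4))
      have h4 : ‖S‖ = (num io Φ₂ e).re - (num io Φ₁ e).re := by
        have h5 : S = (((num io Φ₁ e).re - (num io Φ₂ e).re : ℝ) : ℂ) := by
          rw [hS]
          apply Complex.ext
          · simp
          · simp [hi₁, hi₂]
        rw [h5, Complex.norm_real, Real.norm_eq_abs, abs_of_neg (by linarith)]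
        ring
      rw [h4] at h3
      linarith [b1.1, b1.2, b2.1, b2.2]
    · intro h0
      linarith [b1.1, b1.2, b2.1, b2.2]
  · rw [heq]
    exact ⟨fun h0 => K1 (by rw [h0, norm_zero]; exact hpos.le), K2⟩

end Pool.Agent.U543.XD
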