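import Pool.Agent.U543.XpPro
import Pool.Agent.U543.XpDom

/-!
# The exponentials of hyperelliptic periods are algebraically independent over the field generated by the periods
-/

set_option autoImplicit false
set_option linter.unusedSectionVars false

open Complex Set Filter Topology Matrix

namespace Pool.Agent.U543.XP

open Pool.Agent.Y118.HP
open Pool.Agent.Y890.HE
open Pool.Agent.Y890.MV
open Pool.Agent.Y890.SM

variable {ι : Type} [Fintype ι] [DecidableEq ι] {n : ι → ℕ}

theorem fp_an (q : Ix n) : AnalyticOnNhd ℂ (fun x => fp n x q) (Conf n) := pm_an q.1 q.2.1 q.2.2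

theorem conf_open (n : ι → ℕ) : IsOpen (Conf n) := USig_open fun i => Ord_open (n i)

theorem conf_conn (n : ι → ℕ) : IsPreconnected (Conf n) := (USig_convex fun i => Ord_convex (n i)).isPreconnected

theorem conf_ne (n : ι → ℕ) : (Conf n).Nonempty := USig_nonempty fun i => Ord_nonempty (n i)

/-- a combination of the differentials vanishes on the row `l` -/
def Z (i : ι) (c : Fin (n i) → ℂ) (l : Fin (n i)) : Prop := ∀ x ∈ Conf n, ∑ j, c j * fp n x ⟨i, (l, j)⟩ = 0

theorem step (i : ι) (c : Fin (n i) → ℂ) (w : ℂ) (l k : Fin (n i)) (hlk : (l : ℕ) + 1 = k ∨ (l : ℕ) = k + 1)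
    (h : ∀ x ∈ Conf n, ∑ j, c j * fp n x ⟨i, (l, j)⟩ = w) : Z i c k := by
  have hG : AnalyticOnNhd ℂ (fun p : ((Σ i, Fin (n i + 1)) → ℂ) × (Ix n → ℂ) =>
      ∑ j, c j * p.2 ⟨i, (l, j)⟩ - w) univ := by
    intro p _
    refine AnalyticAt.sub ?_ analyticAt_const
    refine Finset.analyticAt_fun_sum _ fun j _ => ?_
    exact analyticAt_const.mul ((analyticAt_pi_iff.1 (analyticAt_snd (𝕜 := ℂ) (p := p))) _)
  have h1 := mono2 i k _ hG (fun x hx => sub_eq_zero.2 (h x hx))
  intro x hx
  have h2 := h1 x hx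
  have h3 := h x hx
  simp only [nil_same, if_pos hlk, mul_add, Finset.sum_add_distrib] at h2
  have h4 : ∑ j, c j * (2 * I * fp n x ⟨i, (k, j)⟩) = 2 * I * ∑ j, c j * fp n x ⟨i, (k, j)⟩ := by
    rw [Finset.mul_sum]
    exact Finset.sum_congr rfl fun j _ => by ring
  rw [h4, h3] at h2
  have h5 : (2 * I : ℂ) ≠ 0 := mul_ne_zero two_ne_zero I_ne_zero
  have h6 : 2 * I * ∑ j, c j * fp n x ⟨i, (k, j)⟩ = 0 := by linear_combination h2
  exact (mul_eq_zero.1 h6).resolve_left h5

theorem all_rows (i : ι) (c : Fin (n i) → ℂ) (k : Fin (n i)) (hk : Z i c k) : ∀ l, Z i c l := by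
  have up : ∀ d : ℕ, ∀ l : Fin (n i), (l : ℕ) = k + d → Z i c l := by
    intro d
    induction d with
    | zero =>
      intro l hl
      have : l = k := Fin.ext (by simpa using hl)
      rw [this]
      exact hk
    | succ d ih =>
      intro l hl
      have h1 : (k : ℕ) + d < n i := by have := l.2; omega
      exact step i c 0 ⟨(k : ℕ) + d, h1⟩ l (Or.inl (by simp; omega)) (ih _ rfl)
  have down : ∀ d : ℕ, ∀ l : Fin (n i), (l : ℕ) + d = k → Z i c l := by
    intro d
    induction d with
    | zero =>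
      intro l hl
      have : l = k := Fin.ext (by simpa using hl)
      rw [this]
      exact hk
    | succ d ih =>
      intro l hl
      have h1 : (l : ℕ) + 1 < n i := by have := k.2; omega
      exact step i c 0 ⟨(l : ℕ) + 1, h1⟩ l (Or.inr (by simp)) (ih _ (by simp; omega))
  intro l
  rcases le_total (k : ℕ) (l : ℕ) with h | h
  · exact up (l - k) l (by omega)
  · exact down (k - l) l (by omega)

theorem nonconst (hn : ∀ i, Even (n i)) (i : ι) (c : Fin (n i) → ℂ) (hc : c ≠ 0) (l : Fin (n i)) (w : ℂ) :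
    ¬ ∀ x ∈ Conf n, ∑ j, c j * fp n x ⟨i, (l, j)⟩ = w := by
  intro h
  obtain ⟨k, hk⟩ : ∃ k : Fin (n i), (l : ℕ) + 1 = k ∨ (l : ℕ) = k + 1 := by
    have h1 := l.2
    obtain ⟨a, ha⟩ := hn i
    rcases Nat.eq_zero_or_pos (l : ℕ) with h0 | h0
    · exact ⟨⟨1, by omega⟩, Or.inl (by simp [h0])⟩
    · exact ⟨⟨(l : ℕ) - 1, by omega⟩, Or.inr (by simp; omega)⟩
  have h1 := all_rows i c k (step i c w l k hk h)
  obtain ⟨x, hx⟩ := conf_ne n
  have h2 : (FM fun r => x ⟨i, r⟩) *ᵥ c = 0 := by
    funext l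
    have h3 := h1 l x hx
    rw [Matrix.mulVec, dotProduct]
    rw [Pi.zero_apply, ← h3]
    refine Finset.sum_congr rfl fun j _ => ?_
    rw [mul_comm]
    rfl
  have h3 := FM_det (hn i) (hx i)
  exact hc (Matrix.eq_zero_of_mulVec_eq_zero h3 h2)

/-- the coefficients of the logarithm of the monodromy -/
noncomputable def cv (i : ι) (k : Fin (n i)) (m : Ix n → ℕ) : Fin (n i) → ℂ := fun j =>
  ∑ l : Fin (n i), if (l : ℕ) + 1 = k ∨ (l : ℕ) = k + 1 then (m ⟨i, (l, j)⟩ : ℂ) else 0

theorem sum_nil (i : ι) (k : Fin (n i)) (m : Ix n → ℕ) (Y : Ix n → ℂ) :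
    ∑ q, (m q : ℂ) * nil i k Y q = 2 * I * ∑ j, cv i k m j * Y ⟨i, (k, j)⟩ := by
  rw [Fintype.sum_sigma, Finset.sum_eq_single i]
  · rw [Fintype.sum_prod_type_right, Finset.mul_sum]
    refine Finset.sum_congr rfl fun j _ => ?_
    unfold cv
    rw [Finset.sum_mul, Finset.mul_sum]
    refine Finset.sum_congr rfl fun l _ => ?_
    rw [nil_same]
    split_ifs
    · ring
    · ring
  · intro i' _ hi'
    refine Finset.sum_eq_zero fun p _ => ?_
    rw [nil_ne hi', mul_zero]
  · intro h
    exact absurd (Finset.mem_univ i) h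

theorem exists_cv (hn : ∀ i, Even (n i)) {m m' : Ix n → ℕ} (h : m ≠ m') :
    ∃ (i : ι) (k : Fin (n i)), cv i k m ≠ cv i k m' := by
  by_contra hcon
  push Not at hcon
  apply h
  funext q
  obtain ⟨i, l, j⟩ := q
  obtain ⟨a, ha⟩ := hn i
  let d : ℕ → ℤ := fun l => if hl : l < n i then (m ⟨i, (⟨l, hl⟩, j)⟩ : ℤ) - (m' ⟨i, (⟨l, hl⟩, j)⟩ : ℤ) else 0
  have hd : ∀ k, k < n i → (if 0 < k then d (k - 1) else 0) + d (k + 1) = 0 := by
    intro k hk
    have h1 := congrFun (hcon i ⟨k, hk⟩) j
    unfold cv at h1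
    have h2 : ∑ l : Fin (n i), (if (l : ℕ) + 1 = k ∨ (l : ℕ) = k + 1 then d l else 0) = 0 := by
      have h3 : ((∑ l : Fin (n i), (if (l : ℕ) + 1 = k ∨ (l : ℕ) = k + 1 then d l else 0) : ℤ) : ℂ) = 0 := by
        push_cast
        rw [← sub_eq_zero, ← Finset.sum_sub_distrib] at h1
        refine Eq.trans (Finset.sum_congr rfl fun l _ => ?_) h1
        have h0 : ((l : ℕ) + 1 = (⟨k, hk⟩ : Fin (n i)) ∨ (l : ℕ) = (⟨k, hk⟩ : Fin (n i)) + 1) ↔
          ((l : ℕ) + 1 = k ∨ (l : ℕ) = k + 1) := Iff.rfl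
        simp only [h0]
        split_ifs
        · simp [d]
        · simp
      exact_mod_cast h3
    have h4 : ∀ l : ℕ, (if l + 1 = k ∨ l = k + 1 then d l else 0) =
        (if l + 1 = k then d l else 0) + if l = k + 1 then d l else 0 := by
      intro l
      by_cases h5 : l + 1 = k
      · rw [if_pos (Or.inl h5), if_pos h5, if_neg (by omega), add_zero]
      · by_cases h6 : l = k + 1
        · rw [if_pos (Or.inr h6), if_neg h5, if_pos h6, zero_add]
        · rw [if_neg (by tauto), if_neg h5, if_neg h6, add_zero]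
    rw [Fin.sum_univ_eq_sum_range (fun l => if l + 1 = k ∨ l = k + 1 then d l else 0)] at h2
    simp only [h4, Finset.sum_add_distrib] at h2
    have h5 : ∑ l ∈ Finset.range (n i), (if l = k + 1 then d l else 0) = d (k + 1) := by
      rw [Finset.sum_ite_eq' (Finset.range (n i)) (k + 1) d]
      split_ifs with h6
      · rfl
      · have : ¬ k + 1 < n i := by simpa using h6
        simp [d, this]
    have h6 : ∑ l ∈ Finset.range (n i), (if l + 1 = k then d l else 0) = if 0 < k then d (k - 1) else 0 := by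
      by_cases h0 : 0 < k
      · rw [if_pos h0]
        have h7 : ∀ l, (if l + 1 = k then d l else 0) = if l = k - 1 then d l else 0 := by
          intro l
          by_cases h8 : l + 1 = k
          · rw [if_pos h8, if_pos (by omega)]
          · rw [if_neg h8, if_neg (by omega)]
        simp only [h7]
        rw [Finset.sum_ite_eq' (Finset.range (n i)) (k - 1) d, if_pos (Finset.mem_range.2 (by omega))]
      · rw [if_neg h0]
        refine Finset.sum_eq_zero fun l _ => if_neg (by omega)
    rw [h5, h6] at h2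
    exact h2
  have hodd : ∀ t, d (2 * t + 1) = 0 := by
    intro t
    induction t with
    | zero =>
      by_cases h0 : 0 < n i
      · simpa using hd 0 h0
      · have : ¬ 1 < n i := by omega
        simp [d, this]
    | succ t ih =>
      by_cases h0 : 2 * t + 2 < n i
      · have h1 := hd (2 * t + 2) h0
        rw [if_pos (by omega), show 2 * t + 2 - 1 = 2 * t + 1 by omega, ih, zero_add] at h1
        exact h1
      · have : ¬ 2 * (t + 1) + 1 < n i := by omega
        simp [d, this]
  have heven : ∀ t, t ≤ a → d (n i - 2 * t) = 0 := by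
    intro t
    induction t with
    | zero =>
      intro _
      simp [d]
    | succ t ih =>
      intro ht
      have h1 := hd (n i - 2 * t - 1) (by omega)
      rw [if_pos (by omega), show n i - 2 * t - 1 - 1 = n i - 2 * (t + 1) by omega,
        show n i - 2 * t - 1 + 1 = n i - 2 * t by omega, ih (by omega), add_zero] at h1
      exact h1
  have hfin : d l = 0 := by
    rcases Nat.even_or_odd (l : ℕ) with ⟨b, hb⟩ | ⟨b, hb⟩
    · have h1 := heven (a - b) (by omega)
      have := l.2
      rw [show n i - 2 * (a - b) = (l : ℕ) by omega] at h1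
      exact h1
    · rw [hb]
      exact hodd b
  have h1 : d l = (m ⟨i, (l, j)⟩ : ℤ) - (m' ⟨i, (l, j)⟩ : ℤ) := by
    show (if hl : (l : ℕ) < n i then _ else _) = _
    rw [dif_pos l.2]
  rw [h1] at hfin
  omega

end Pool.Agent.U543.XP
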