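import Pool.Agent.U543.XpInd

/-!
# Independence of the exponentials, II
-/

set_option autoImplicit false
set_option linter.unusedSectionVars false

open Complex Set Filter Topology Matrix

namespace Pool.Agent.U543.XP

open Pool.Agent.Y118.HP
open Pool.Agent.Y890.HE
open Pool.Agent.Y890.MV
open Pool.Agent.Y890.SM

variable {ι : Type} [Fintype ι] [DecidableEq ι] {n : ι → ℕ}

/-- the exponents of the dominating terms -/
noncomputable def LL (i : ι) (k : Fin (n i)) (m : Ix n → ℕ) (x : (Σ i, Fin (n i + 1)) → ℂ) : ℂ :=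
  ∑ q, (m q : ℂ) * nil i k (fp n x) q

theorem LL_eq (i : ι) (k : Fin (n i)) (m : Ix n → ℕ) (x : (Σ i, Fin (n i + 1)) → ℂ) :
    LL i k m x = 2 * I * ∑ j, cv i k m j * fp n x ⟨i, (k, j)⟩ := sum_nil i k m _

theorem LL_an (i : ι) (k : Fin (n i)) (m : Ix n → ℕ) : AnalyticOnNhd ℂ (LL i k m) (Conf n) := by
  have h1 : LL i k m = fun x => 2 * I * ∑ j, cv i k m j * fp n x ⟨i, (k, j)⟩ := funext fun x => LL_eq i k m x
  rw [h1]
  intro x hx
  refine analyticAt_const.mul (Finset.analyticAt_fun_sum _ fun j _ => ?_)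
  exact analyticAt_const.mul (fp_an _ x hx)

/-- a generic point -/
theorem generic (hn : ∀ i, Even (n i)) (i : ι) (k : Fin (n i)) (S : Finset ((Ix n → ℕ) × (Ix n → ℕ)))
    (hS : ∀ p ∈ S, cv i k p.1 ≠ cv i k p.2) :
    ∃ V : Set ((Σ i, Fin (n i + 1)) → ℂ), IsOpen V ∧ V.Nonempty ∧ V ⊆ Conf n ∧
      ∀ x ∈ V, ∀ p ∈ S, (LL i k p.1 x).re ≠ (LL i k p.2 x).re := by
  classical
  induction S using Finset.induction_on with
  | empty => exact ⟨Conf n, conf_open n, conf_ne n, subset_rfl, fun x _ p hp => absurd hp (Finset.notMem_empty p)⟩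
  | insert p S _ ih =>
    obtain ⟨V, hVo, hVne, hVU, hV⟩ := ih fun p hp => hS p (Finset.mem_insert_of_mem hp)
    have hd : AnalyticOnNhd ℂ (fun x => LL i k p.1 x - LL i k p.2 x) (Conf n) := fun x hx =>
      (LL_an i k p.1 x hx).sub (LL_an i k p.2 x hx)
    obtain ⟨x1, hx1V, hx1⟩ : ∃ x ∈ V, (LL i k p.1 x - LL i k p.2 x).re ≠ 0 := by
      rcases hd.is_constant_or_isOpen (conf_conn n) with ⟨w, hw⟩ | hop
      · exfalso
        have hc : (fun j => cv i k p.1 j - cv i k p.2 j) ≠ 0 := by
          intro h0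
          apply hS p (Finset.mem_insert_self p S)
          funext j
          exact sub_eq_zero.1 (congrFun h0 j)
        have h5 : (2 * I : ℂ) ≠ 0 := mul_ne_zero two_ne_zero I_ne_zero
        refine nonconst hn i _ hc k (w / (2 * I)) fun x hx => ?_
        have h1 := hw x hx
        rw [LL_eq, LL_eq, ← mul_sub, ← Finset.sum_sub_distrib] at h1
        rw [← h1, mul_div_cancel_left₀ _ h5]
        exact Finset.sum_congr rfl fun j _ => by ring
      · by_contra hcon
        push Not at hcon
        have h1 := hop V hVU hVo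
        obtain ⟨x, hx⟩ := hVne
        obtain ⟨r, hr, hball⟩ := Metric.isOpen_iff.1 h1 _ ⟨x, hx, rfl⟩
        have h2 : (LL i k p.1 x - LL i k p.2 x) + ((r / 2 : ℝ) : ℂ) ∈
            Metric.ball (LL i k p.1 x - LL i k p.2 x) r := by
          rw [Metric.mem_ball, dist_eq_norm, add_sub_cancel_left, norm_real, Real.norm_eq_abs, abs_of_pos (by linarith)]
          linarith
        obtain ⟨y, hy, hyx⟩ := hball h2
        have h3 := hcon y hy
        have h4 := hcon x hx
        simp only at hyx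
        rw [hyx, add_re, h4, ofReal_re] at h3
        linarith
    have hcont : ContinuousOn (fun x => (LL i k p.1 x - LL i k p.2 x).re) V :=
      continuous_re.comp_continuousOn (hd.continuousOn.mono hVU)
    have h1 := hcont.isOpen_inter_preimage hVo (isOpen_compl_singleton (x := (0 : ℝ)))
    refine ⟨V ∩ (fun x => (LL i k p.1 x - LL i k p.2 x).re) ⁻¹' {0}ᶜ, h1, ⟨x1, hx1V, hx1⟩,
      fun x hx => hVU hx.1, ?_⟩
    intro x hx p' hp'
    rcases Finset.mem_insert.1 hp' with rfl | hp'
    · intro h2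
      apply hx.2
      show (LL i k p'.1 x - LL i k p'.2 x).re = 0
      rw [sub_re, h2, sub_self]
    · exact hV x hx.1 p' hp'

/-- the relation -/
def Rel (S : Finset (Ix n → ℕ)) (A : (Ix n → ℕ) → MvPolynomial (Ix n) (MvPolynomial (Σ i, Fin (n i + 1)) ℂ)) : Prop :=
  ∀ x ∈ Conf n, ∑ m ∈ S, evX x (fp n x) (A m) * cexp (∑ q, (m q : ℂ) * fp n x q) = 0

theorem evX_an (p : MvPolynomial (Ix n) (MvPolynomial (Σ i, Fin (n i + 1)) ℂ)) :
    AnalyticOnNhd ℂ (fun z : ((Σ i, Fin (n i + 1)) → ℂ) × (Ix n → ℂ) => evX z.1 z.2 p) univ := by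
  intro z hz
  unfold evX
  induction p using MvPolynomial.induction_on with
  | C a =>
    simp only [MvPolynomial.eval₂_C]
    induction a using MvPolynomial.induction_on with
    | C c => simp only [MvPolynomial.eval_C]; exact analyticAt_const
    | add p q hp hq => simp only [map_add]; exact hp.add hq
    | mul_X p i hp =>
      simp only [map_mul, MvPolynomial.eval_X]
      exact hp.mul ((analyticAt_pi_iff.1 (analyticAt_fst (𝕜 := ℂ) (p := z))) i)
  | add p q hp hq =>
    simp only [MvPolynomial.eval₂_add]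
    exact hp.add hq
  | mul_X p i hp =>
    simp only [MvPolynomial.eval₂_mul, MvPolynomial.eval₂_X]
    exact hp.mul ((analyticAt_pi_iff.1 (analyticAt_snd (𝕜 := ℂ) (p := z))) i)

theorem lin_an (m : Ix n → ℕ) : AnalyticOnNhd ℂ
    (fun z : ((Σ i, Fin (n i + 1)) → ℂ) × (Ix n → ℂ) => cexp (∑ q, (m q : ℂ) * z.2 q)) univ := by
  intro z _
  refine AnalyticAt.cexp ?_
  refine Finset.analyticAt_fun_sum _ fun q _ => ?_
  exact analyticAt_const.mul ((analyticAt_pi_iff.1 (analyticAt_snd (𝕜 := ℂ) (p := z))) q)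

theorem rel_an (S : Finset (Ix n → ℕ)) (A : (Ix n → ℕ) → MvPolynomial (Ix n) (MvPolynomial (Σ i, Fin (n i + 1)) ℂ)) :
    AnalyticOnNhd ℂ (fun x => ∑ m ∈ S, evX x (fp n x) (A m) * cexp (∑ q, (m q : ℂ) * fp n x q)) (Conf n) := by
  intro x hx
  have h1 : AnalyticAt ℂ (fun x : (Σ i, Fin (n i + 1)) → ℂ => (x, fp n x)) x := by
    refine analyticAt_id.prod ?_
    rw [analyticAt_pi_iff]
    exact fun q => fp_an q x hx
  refine Finset.analyticAt_fun_sum _ fun m _ => ?_
  refine AnalyticAt.mul ?_ ?_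
  · exact AnalyticAt.comp (f := fun x : (Σ i, Fin (n i + 1)) → ℂ => (x, fp n x)) (evX_an (A m) _ (mem_univ _)) h1
  · exact AnalyticAt.comp (f := fun x : (Σ i, Fin (n i + 1)) → ℂ => (x, fp n x)) (lin_an m _ (mem_univ _)) h1

/-- the dominating terms alone satisfy a relation -/
theorem split (hn : ∀ i, Even (n i)) (S : Finset (Ix n → ℕ))
    (A : (Ix n → ℕ) → MvPolynomial (Ix n) (MvPolynomial (Σ i, Fin (n i + 1)) ℂ)) (hR : Rel S A)
    {m m' : Ix n → ℕ} (hm : m ∈ S) (hm' : m' ∈ S) (hmm : m ≠ m') :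
    ∃ T ⊆ S, T.Nonempty ∧ T ≠ S ∧ Rel T A := by
  classical
  obtain ⟨i, k, hik⟩ := exists_cv hn hmm
  obtain ⟨V, hVo, ⟨x0, hx0⟩, hVU, hV⟩ := generic hn i k ((S ×ˢ S).filter fun p => cv i k p.1 ≠ cv i k p.2)
    (fun p hp => (Finset.mem_filter.1 hp).2)
  obtain ⟨ms, hms, hmax⟩ := S.exists_max_image (fun m => (LL i k m x0).re) ⟨m, hm⟩
  let T := S.filter fun m => cv i k m = cv i k ms
  have hTS : T ⊆ S := Finset.filter_subset _ _
  refine ⟨T, hTS, ⟨ms, Finset.mem_filter.2 ⟨hms, rfl⟩⟩, ?_, ?_⟩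
  · intro h0
    apply hik
    have h1 : m ∈ T := by rw [h0]; exact hm
    have h2 : m' ∈ T := by rw [h0]; exact hm'
    rw [(Finset.mem_filter.1 h1).2, (Finset.mem_filter.1 h2).2]
  · -- near `x0` the terms of `T` dominate
    have hlt : ∀ m ∈ S, m ∉ T → (LL i k m x0).re < (LL i k ms x0).re := by
      intro m hm hmT
      refine lt_of_le_of_ne (hmax m hm) ?_
      have h1 : cv i k m ≠ cv i k ms := fun h => hmT (Finset.mem_filter.2 ⟨hm, h⟩)
      exact hV x0 hx0 (m, ms) (Finset.mem_filter.2 ⟨Finset.mem_product.2 ⟨hm, hms⟩, h1⟩)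
    have hev : ∀ᶠ x in 𝓝 x0, x ∈ Conf n ∧ ∀ m ∈ S, m ∉ T → (LL i k m x).re < (LL i k ms x).re := by
      have h1 : ∀ᶠ x in 𝓝 x0, x ∈ Conf n := (conf_open n).mem_nhds (hVU hx0)
      have h2 : ∀ m ∈ S, ∀ᶠ x in 𝓝 x0, m ∉ T → (LL i k m x).re < (LL i k ms x).re := by
        intro m hm
        by_cases hmT : m ∈ T
        · exact Eventually.of_forall fun x h => absurd hmT h
        · have h3 : ContinuousAt (fun x => (LL i k m x).re) x0 :=
            continuous_re.continuousAt.comp (LL_an i k m x0 (hVU hx0)).continuousAt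
          have h4 : ContinuousAt (fun x => (LL i k ms x).re) x0 :=
            continuous_re.continuousAt.comp (LL_an i k ms x0 (hVU hx0)).continuousAt
          filter_upwards [h3.eventually_lt h4 (hlt m hm hmT)] with x hx _
          exact hx
      filter_upwards [h1, (Filter.eventually_all_finset S).2 h2] with x hx hx'
      exact ⟨hx, hx'⟩
    have hzero : (fun x => ∑ m ∈ T, evX x (fp n x) (A m) * cexp (∑ q, (m q : ℂ) * fp n x q)) =ᶠ[𝓝 x0] 0 := by
      filter_upwards [hev] with x hx
      obtain ⟨hxU, hxl⟩ := hx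
      have hG : AnalyticOnNhd ℂ (fun z : ((Σ i, Fin (n i + 1)) → ℂ) × (Ix n → ℂ) =>
          ∑ m ∈ S, evX z.1 z.2 (A m) * cexp (∑ q, (m q : ℂ) * z.2 q)) univ := by
        intro z hz
        refine Finset.analyticAt_fun_sum _ fun m _ => ?_
        exact (evX_an (A m) z hz).mul (lin_an m z hz)
      have h1 := fun N => mono3 i k _ hG hR N x hxU
      let B : (Ix n → ℕ) → Polynomial ℂ := fun m => MvPolynomial.eval₂ (Polynomial.C.comp (MvPolynomial.eval x))
        (fun q => Polynomial.C (fp n x q) + Polynomial.X * Polynomial.C (nil i k (fp n x) q)) (A m)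
      have hB : ∀ m (t : ℂ), (B m).eval t = evX x (fun q => fp n x q + t * nil i k (fp n x) q) (A m) := by
        intro m t
        have h3 := MvPolynomial.eval₂_comp_left (Polynomial.evalRingHom t) (Polynomial.C.comp (MvPolynomial.eval x))
          (fun q => Polynomial.C (fp n x q) + Polynomial.X * Polynomial.C (nil i k (fp n x) q)) (A m)
        rw [Polynomial.coe_evalRingHom] at h3
        show Polynomial.eval t (MvPolynomial.eval₂ _ _ (A m)) = _
        rw [h3, evX]
        congr 1
        · exact RingHom.ext fun y => by simp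
        · funext q
          show Polynomial.eval t (Polynomial.C _ + Polynomial.X * Polynomial.C _) = _
          rw [Polynomial.eval_add, Polynomial.eval_mul, Polynomial.eval_C, Polynomial.eval_X, Polynomial.eval_C]
      have h2 := dominate S T hTS B (fun m => cexp (∑ q, (m q : ℂ) * fp n x q)) (fun m => LL i k m x) (LL i k ms x)
        (fun m hm => by rw [LL_eq, LL_eq, (Finset.mem_filter.1 hm).2]) hxl (by
          intro N
          refine Eq.trans (Finset.sum_congr rfl fun m _ => ?_) (h1 N)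
          rw [hB]
          have h4 : ∑ q, (m q : ℂ) * (fp n x q + (N : ℂ) * nil i k (fp n x) q) =
              ∑ q, (m q : ℂ) * fp n x q + N * LL i k m x := by
            unfold LL
            rw [Finset.mul_sum, ← Finset.sum_add_distrib]
            exact Finset.sum_congr rfl fun q _ => by ring
          simp only [h4, Complex.exp_add]
          ring)
      show ∑ m ∈ T, evX x (fp n x) (A m) * cexp (∑ q, (m q : ℂ) * fp n x q) = 0
      refine Eq.trans (Finset.sum_congr rfl fun m _ => ?_) h2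
      rw [hB]
      simp only [zero_mul, add_zero]
      ring
    intro x hx
    exact (rel_an T A).eqOn_zero_of_preconnected_of_eventuallyEq_zero (conf_conn n) (hVU hx0) hzero hx

/-- **Independence of the exponentials of the periods.** -/
theorem indep (hn : ∀ i, Even (n i)) (A : (Ix n → ℕ) → MvPolynomial (Ix n) (MvPolynomial (Σ i, Fin (n i + 1)) ℂ)) :
    ∀ (N : ℕ) (S : Finset (Ix n → ℕ)), S.card ≤ N → Rel S A → ∀ m ∈ S, ∀ x ∈ Conf n, evX x (fp n x) (A m) = 0 := by
  classical
  intro N
  induction N with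
  | zero =>
    intro S hS _ m hm
    rw [Nat.le_zero, Finset.card_eq_zero] at hS
    rw [hS] at hm
    exact absurd hm (Finset.notMem_empty m)
  | succ N ih =>
    intro S hS hR m hm
    by_cases h1 : ∃ m' ∈ S, m' ≠ m
    · obtain ⟨m', hm', hne⟩ := h1
      obtain ⟨T, hTS, hTne, hTS', hRT⟩ := split hn S A hR hm' hm hne
      have hss : T ⊂ S := Finset.ssubset_iff_subset_ne.2 ⟨hTS, hTS'⟩
      have hRT' : Rel (S \ T) A := by
        intro x hx
        have h2 := hR x hx
        have h3 := hRT x hx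
        rw [← Finset.sum_sdiff hTS, h3, add_zero] at h2
        exact h2
      by_cases hmT : m ∈ T
      · exact ih T (by have := Finset.card_lt_card hss; omega) hRT m hmT
      · refine ih (S \ T) ?_ hRT' m (Finset.mem_sdiff.2 ⟨hm, hmT⟩)
        have h4 : (S \ T) ⊂ S := Finset.sdiff_ssubset hTS hTne
        have := Finset.card_lt_card h4
        omega
    · push Not at h1
      intro x hx
      have h2 := hR x hx
      have h3 : S = {m} := by
        ext m'
        rw [Finset.mem_singleton]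
        exact ⟨fun h => h1 m' h, fun h => by rw [h]; exact hm⟩
      rw [h3, Finset.sum_singleton] at h2
      exact (mul_eq_zero.1 h2).resolve_right (Complex.exp_ne_zero _)

end Pool.Agent.U543.XP
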