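import Pool.Agent.U543.XpTor
import Pool.Agent.U543.PzMain
import Pool.Agent.U543.NrMain

/-!
# Near relations between the periods and their exponentials
-/

set_option autoImplicit false
set_option linter.unusedSectionVars false

open NumberField Filter

namespace Pool.Agent.U543.XP

open Pool.Agent.Y890.MV
open Pool.Agent.Y890.SM
open Pool.Agent.Y890.SP (Qbar)
open Pool.Agent.Y124 (Cov eval_eq_box sV sV_inj)
open Pool.Agent.U543.NR (measT_tpi lb_adjoin Kτ τ₀ τ₀_coe)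

variable {X : Type} [Fintype X] [DecidableEq X] {ι : Type} [Fintype ι] [DecidableEq ι] {n : ι → ℕ}

/-- near linear relations with exponentials -/
theorem lin_exp [Nonempty X] (F : SympFam X n) (hF : ExpFree F) (k m : ℕ) (hk : 0 < k) (δ r : ℕ)
    (A ε : ℝ) (hε : 0 < ε) :
    ∃ (D : ℕ) (B C T₀ : ℝ), 0 ≤ C ∧ 2 ≤ T₀ ∧ ∀ (K : Type) [Field K] [NumberField K], Module.finrank ℚ K ≤ m →
      ∀ (io : K →+* ℂ) (T : ℝ), T₀ ≤ T →
        Cov D ⌊C * T ^ ε⌋₊ {t : X → ℂ | t ∈ InnerM F.U k ∧ ∃ s : X → K,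
          (∀ i, Y120.HtLe K T (s i)) ∧ (t = fun i => io (s i)) ∧ ∃ c : (Ix n ⊕ Ix n → Fin (δ + 1)) → Fin r → 𝓞 K,
            (∀ l a (φ : K →+* ℂ), ‖φ (c l a : K)‖ ≤ T ^ A) ∧
            ‖∑ l, (∑ a : Fin r, tpi ^ (a : ℕ) * io (c l a : K)) * ∏ y, fe F y t ^ (l y : ℕ)‖ ≤ T ^ (-B) ∧
            ¬ ∀ W ∈ TorE F t,
              ∑ l, (∑ a : Fin r, tpi ^ (a : ℕ) * io (c l a : K)) * ∏ y, W y ^ (l y : ℕ) = 0} := by
  classical
  obtain ⟨D, B, C, T₀, hC, hT₀, H⟩ := PZ.lin_stab (k := Kτ) (lb_adjoin measT_tpi) F.conn F.isOpen F.nonempty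
    (fe_an F) ((torE F hF).reg F.conn (fe_an F)) (descE F hF τ₀ τ₀_coe) (InnerM F.U k) (innerM_compact _ _)
    (innerM_sub _ hk) δ (h := Unit) (fun i : Fin r => τ₀ ^ (i : ℕ)) m (max A 0) 1 ε hε
  refine ⟨D, B, C, T₀, hC, hT₀, fun K _ _ hK io T hT => ?_⟩
  have hT2 : 2 ≤ T := hT₀.trans hT
  have hT1 : 1 ≤ T := by linarith
  refine (H K hK io (fun _ => 1) T hT (fun i => by
    rw [norm_one]
    exact Real.one_le_rpow hT1 (le_max_right _ _))).mono le_rfl le_rfl ?_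
  have h6 : ∀ i : Fin r, algebraMap Kτ ℂ (τ₀ ^ (i : ℕ)) = tpi ^ (i : ℕ) := fun i => by
    rw [map_pow, τ₀_coe]
  rintro t ⟨h1, s, h2, h3, c, hc, h4, h5⟩
  refine ⟨h1, s, h2, h3, fun l _ a => c l a, fun l _ a φ => (hc l a φ).trans
    (Real.rpow_le_rpow_of_exponent_le hT1 (le_max_left _ _)), ?_, ?_⟩
  · simp only [h6, Finset.univ_unique, Finset.sum_singleton, one_mul]
    exact h4
  · rintro ⟨ξ', hξ', h7⟩
    apply h5
    intro W hW
    have h8 : ξ' () ≠ 0 := by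
      intro h0
      have h9 := hξ' ()
      rw [h0, zero_sub, norm_neg, norm_one, Real.rpow_neg_one] at h9
      have h10 : T⁻¹ ≤ 2⁻¹ := inv_anti₀ (by norm_num) hT2
      norm_num at h10
      linarith
    have h9 := h7 W fun H hH => (torE F hF).inv _ hH t (innerM_sub _ hk h1) W hW
    simp only [h6, Finset.univ_unique, Finset.sum_singleton, mul_assoc] at h9
    rw [← Finset.mul_sum] at h9
    exact (mul_eq_zero.1 h9).resolve_left h8

/-- a polynomial which vanishes everywhere has zero coefficients -/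
theorem box_zero {V : Type} [Fintype V] [DecidableEq V] {d : ℕ} (g : (V → Fin (d + 1)) → ℂ)
    (h : ∀ v : V → ℂ, ∑ l, g l * ∏ i, v i ^ (l i : ℕ) = 0) (l : V → Fin (d + 1)) : g l = 0 := by
  classical
  have h1 : (∑ l, MvPolynomial.monomial (sV l) (g l) : MvPolynomial V ℂ) = 0 := by
    apply MvPolynomial.funext
    intro v
    rw [map_sum, map_zero, ← h v]
    refine Finset.sum_congr rfl fun l _ => ?_
    rw [MvPolynomial.eval_monomial, Finsupp.prod_fintype _ _ (fun _ => pow_zero _)]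
    rfl
  have h2 := congrArg (MvPolynomial.coeff (sV l)) h1
  rw [MvPolynomial.coeff_sum, MvPolynomial.coeff_zero, Finset.sum_eq_single l] at h2
  · rwa [MvPolynomial.coeff_monomial, if_pos rfl] at h2
  · intro b _ hb
    rw [MvPolynomial.coeff_monomial, if_neg fun h => hb (sV_inj h)]
  · intro h
    exact absurd (Finset.mem_univ _) h

theorem sum_elim {δ : ℕ} (g : (Ix n ⊕ Ix n → Fin (δ + 1)) → ℂ) (W : Ix n ⊕ Ix n → ℂ) :
    ∑ l, g l * ∏ y, W y ^ (l y : ℕ) = ∑ m : Ix n → Fin (δ + 1),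
      (∑ l' : Ix n → Fin (δ + 1), g (Sum.elim m l') * ∏ y, W (Sum.inr y) ^ (l' y : ℕ)) *
        ∏ y, W (Sum.inl y) ^ (m y : ℕ) := by
  classical
  rw [← (Equiv.sumArrowEquivProdArrow (Ix n) (Ix n) (Fin (δ + 1))).symm.sum_comp, Fintype.sum_prod_type]
  refine Finset.sum_congr rfl fun m _ => ?_
  rw [Finset.sum_mul]
  refine Finset.sum_congr rfl fun l' _ => ?_
  rw [Fintype.prod_sum_type]
  have h1 : (Equiv.sumArrowEquivProdArrow (Ix n) (Ix n) (Fin (δ + 1))).symm (m, l') = Sum.elim m l' := rfl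
  rw [h1]
  simp only [Sum.elim_inl, Sum.elim_inr]
  ring

/-- from the torsor with multiplier `2 π i` to the full torsor, with exponentials -/
theorem fullE (F : SympFam X n) {K : Type} [Field K] [NumberField K] (io : K →+* ℂ)
    (e : X → K) (he : (fun j => io (e j)) ∈ F.U) {δ h : ℕ} (c : (Ix n ⊕ Ix n → Fin (δ + 1)) → Fin h → K)
    (H : ∀ W ∈ TorE F (fun j => io (e j)),
      ∑ l, (∑ a : Fin h, tpi ^ (a : ℕ) * io (c l a)) * ∏ y, W y ^ (l y : ℕ) = 0)
    {μ : ℂ} (hμ : μ ≠ 0) (W : Ix n ⊕ Ix n → ℂ)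
    (hY : ∀ i, bl (fun q => W (Sum.inr q)) i * F.Qx (fun j => io (e j)) i *
      (bl (fun q => W (Sum.inr q)) i).transpose = μ ^ F.w i • F.Jx i) :
    ∑ l, (∑ a : Fin h, μ ^ (a : ℕ) * io (c l a)) * ∏ y, W y ^ (l y : ℕ) = 0 := by
  classical
  rw [sum_elim]
  refine Finset.sum_eq_zero fun m _ => ?_
  rw [F.full io e he (fun l' a => c (Sum.elim m l') a) (fun Y hY' => ?_) hμ (fun q => W (Sum.inr q)) hY, zero_mul]
  refine box_zero (fun m : Ix n → Fin (δ + 1) => ∑ l' : Ix n → Fin (δ + 1),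
    (∑ a : Fin h, tpi ^ (a : ℕ) * io (c (Sum.elim m l') a)) * ∏ y, Y y ^ (l' y : ℕ)) (fun Z => ?_) m
  have h1 := H (Sum.elim Z Y) hY'
  rw [sum_elim] at h1
  exact h1

/-- the coefficients -/
noncomputable def cg {V : Type} [Fintype V] {K : Type} [Field K] {k : ℕ} (Φ : MvPolynomial (Option V) (𝓞 K))
    (l : V → Fin (k + 1)) (a : Fin (k + 1)) : 𝓞 K :=
  Φ.coeff (sV (fun o : Option V => o.elim a l))

theorem cg_eq {V : Type} [Fintype V] [DecidableEq V] {K : Type} [Field K] (io : K →+* ℂ) {k : ℕ}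
    (Φ : MvPolynomial (Option V) (𝓞 K)) (hΦ : ∀ i, Φ.degreeOf i ≤ k) (w : V → ℂ) (μ : ℂ) :
    MvPolynomial.eval₂ (io.comp (algebraMap (𝓞 K) K)) (fun o : Option V => o.elim μ w) Φ =
      ∑ l : V → Fin (k + 1), (∑ a : Fin (k + 1), μ ^ (a : ℕ) * io (cg Φ l a : K)) * ∏ y, w y ^ (l y : ℕ) := by
  classical
  have h1 : MvPolynomial.eval₂ (io.comp (algebraMap (𝓞 K) K)) (fun o : Option V => o.elim μ w) Φ =
      MvPolynomial.aeval (fun o : Option V => o.elim μ w)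
      (MvPolynomial.map (io.comp (algebraMap (𝓞 K) K)) Φ) := by
    rw [MvPolynomial.aeval_def, MvPolynomial.eval₂_map]
    congr 1
  have hd : ∀ i, (MvPolynomial.map (io.comp (algebraMap (𝓞 K) K)) Φ).degreeOf i ≤ k := by
    intro i
    refine le_trans ?_ (hΦ i)
    rw [MvPolynomial.degreeOf_eq_sup, MvPolynomial.degreeOf_eq_sup]
    exact Finset.sup_mono (MvPolynomial.support_map_subset _ _)
  rw [h1, eval_eq_box _ _ hd]
  let en : (Option V → Fin (k + 1)) ≃ Fin (k + 1) × (V → Fin (k + 1)) :=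
    Equiv.piOptionEquivProd
  rw [← en.symm.sum_comp, Fintype.sum_prod_type_right]
  refine Finset.sum_congr rfl fun l _ => ?_
  rw [Finset.sum_mul]
  refine Finset.sum_congr rfl fun a _ => ?_
  rw [Fintype.prod_option, MvPolynomial.coeff_map]
  have h2 : en.symm (a, l) = fun o : Option V => o.elim a l := by
    funext o
    rcases o with _ | o <;> rfl
  rw [h2]
  simp only [Option.elim, cg, RingHom.comp_apply]
  ring

end Pool.Agent.U543.XP
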