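import Pool.Agent.Y890.HE.Main

/-!
# Analytic relations between hyperelliptic periods are invariant under the monodromy
-/

set_option autoImplicit false
set_option linter.unusedSectionVars false

open Complex Set Filter Topology Matrix

namespace Pool.Agent.U543.XP

open Pool.Agent.Y118.HP
open Pool.Agent.Y890.HE

variable {n : ℕ}

/-- the action of a loop on the rows -/
noncomputable def tk (k : Fin n) (Y : Fin n × Fin n → ℂ) : Fin n × Fin n → ℂ :=
  fun q => Y q + if (q.1 : ℕ) + 1 = k ∨ (q.1 : ℕ) = k + 1 then 2 * I * Y (k, q.2) else 0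

theorem diffG {a : Fin n → ℝ} (ha : StrictMono a) (m m' : Fin (n + 1)) (T : Matrix (Fin n) (Fin n) ℂ)
    {G : (Fin (n + 1) → ℂ) × (Fin n × Fin n → ℂ) → ℂ} (hG : AnalyticOnNhd ℂ G univ) :
    DifferentiableOn ℂ (fun z => G (ee a m z, fun q : Fin n × Fin n => (T * PM a m' z) q.1 q.2)) (Dm a m') := by
  intro z hz
  have h1 : DifferentiableAt ℂ G (ee a m z, fun q : Fin n × Fin n => (T * PM a m' z) q.1 q.2) :=
    (hG _ (mem_univ _)).differentiableAt
  have h2 : DifferentiableWithinAt ℂ (fun z => (ee a m z, fun q : Fin n × Fin n => (T * PM a m' z) q.1 q.2))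
      (Dm a m') z := by
    refine DifferentiableWithinAt.prodMk ?_ ?_
    · rw [differentiableWithinAt_pi]
      intro i
      rcases Fin.eq_self_or_eq_succAbove m i with rfl | ⟨i', rfl⟩
      · simp only [ee, Fin.insertNth_apply_same]
        exact differentiableWithinAt_id
      · simp only [ee, Fin.insertNth_apply_succAbove]
        exact differentiableWithinAt_const _
    · rw [differentiableWithinAt_pi]
      intro q
      simp only [Matrix.mul_apply]
      refine DifferentiableWithinAt.fun_sum fun k _ => ?_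
      exact ((differentiableOn_perC ha m' k q.2) z hz).const_mul _
  exact h1.comp_differentiableWithinAt z h2

theorem mono1 (k : Fin n) (G : (Fin (n + 1) → ℂ) × (Fin n × Fin n → ℂ) → ℂ) (hG : AnalyticOnNhd ℂ G univ)
    (h : ∀ e ∈ Ord n, G (e, fun q => fH n q e) = 0) : ∀ e ∈ Ord n, G (e, tk k fun q => fH n q e) = 0 := by
  obtain ⟨e0, he0⟩ : ∃ e0 : Fin (n + 1) → ℝ, (fun i => (e0 i : ℂ)) ∈ Ord n :=
    ⟨fun i => (i : ℝ), Ord_real (fun i k h => by
      show ((i : ℕ) : ℝ) < ((k : ℕ) : ℝ)
      exact_mod_cast h)⟩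
  refine real_zero (Ord_open n) (Ord_convex n).isPreconnected he0 ?_ ?_
  · intro e he
    refine AnalyticAt.comp (g := G) (f := fun e => (e, tk k fun q => fH n q e)) (hG _ (mem_univ _)) ?_
    refine analyticAt_id.prod ?_
    rw [analyticAt_pi_iff]
    intro q
    unfold tk
    refine (fH_an q e he).add ?_
    by_cases h1 : (q.1 : ℕ) + 1 = k ∨ (q.1 : ℕ) = k + 1
    · simp only [if_pos h1]
      exact analyticAt_const.mul (fH_an (k, q.2) e he)
    · simp only [if_neg h1]
      exact analyticAt_const
  · intro x hx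
    have hx' := strictMono_of_mem hx
    obtain ⟨m, hm⟩ : ∃ m : Fin (n + 1), m = k.castSucc := ⟨_, rfl⟩
    obtain ⟨a, ha0⟩ : ∃ a : Fin n → ℝ, a = fun i => x (m.succAbove i) := ⟨_, rfl⟩
    have ha : StrictMono a := by
      rw [ha0]
      exact fun i j hij => hx' ((Fin.strictMono_succAbove m) hij)
    have hlt : x m < x k.succ := hx' (by rw [hm]; exact Fin.castSucc_lt_succ)
    have hins : ee a m (x m : ℂ) = fun i => (x i : ℂ) := by
      funext i
      rcases Fin.eq_self_or_eq_succAbove m i with rfl | ⟨i', rfl⟩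
      · simp [ee]
      · simp [ee, ha0]
    have hgap : ∀ t ∈ Icc (x m) ((x m + x k.succ) / 2), InGap a m t := by
      intro t ht i
      refine ⟨fun h1 => ?_, fun h1 => ?_⟩
      · rw [ha0]
        have h2 : m.succAbove i = i.castSucc := Fin.succAbove_of_castSucc_lt _ _ h1
        simp only [h2]
        exact lt_of_lt_of_le (hx' h1) ht.1
      · rw [ha0]
        have h2 : m.succAbove i = i.succ := Fin.succAbove_of_le_castSucc _ _ h1
        simp only [h2]
        have h3 : x k.succ ≤ x i.succ := hx'.monotone (by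
          rw [Fin.succ_le_succ_iff]
          rw [hm] at h1
          exact Fin.castSucc_le_castSucc_iff.1 h1)
        have h4 := ht.2
        linarith
    have h0 : ∀ z ∈ Dm a m, G (ee a m z, fun q : Fin n × Fin n => ((1 : Matrix (Fin n) (Fin n) ℂ) * PM a m z) q.1 q.2) = 0 := by
      refine eq_zero_of_real ha m (diffG ha m m 1 hG) (show x m < (x m + x k.succ) / 2 by linarith) hgap ?_
      intro t ht
      have h2 := Ord_real (er_strictMono ha (hgap t ht))
      rw [← ee_ofReal a m t] at h2
      have h3 := h _ h2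
      rw [one_mul]
      exact h3
    have h1 : ∀ z ∈ Dm a k.succ, G (ee a m z, fun q : Fin n × Fin n => (Tk k I * PM a k.succ z) q.1 q.2) = 0 := by
      refine eq_zero_of_open ha k.succ (diffG ha m k.succ (Tk k I) hG) (V := {z : ℂ | 0 < z.im})
        (isOpen_lt continuous_const continuous_im) (z0 := I) (by simp) (mem_Dm_of_im a _ (by simp)) ?_
      intro z hz
      have h2 := h0 z (mem_Dm_of_im _ _ (ne_of_gt hz))
      rw [one_mul, hm, PM_upper' ha k hz, ← hm] at h2
      exact h2
    have h2 : ∀ z ∈ Dm a m, G (ee a m z, fun q : Fin n × Fin n => (Tk k (2 * I) * PM a m z) q.1 q.2) = 0 := by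
      refine eq_zero_of_open ha m (diffG ha m m (Tk k (2 * I)) hG) (V := {z : ℂ | z.im < 0})
        (isOpen_lt continuous_im continuous_const) (z0 := -I) (by simp) (mem_Dm_of_im a _ (by simp)) ?_
      intro z hz
      have h3 := h1 z (mem_Dm_of_im _ _ (ne_of_lt hz))
      rw [PM_lower ha k hz, ← mul_assoc, Tk_mul, ← hm, ← two_mul] at h3
      exact h3
    have h3 := h2 (x m : ℂ) (hgap (x m) ⟨le_rfl, by linarith⟩).mem_Dm
    rw [hins] at h3
    have h4 : (fun q : Fin n × Fin n => (Tk k (2 * I) * PM a m (x m : ℂ)) q.1 q.2) =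
        tk k fun q => fH n q fun i => (x i : ℂ) := by
      funext q
      unfold Tk tk
      rw [add_mul, one_mul, smul_mul_assoc, Matrix.add_apply, Matrix.smul_apply, Nk_mul, smul_eq_mul]
      have h5 : ∀ l j : Fin n, PM a m (x m : ℂ) l j = fH n (l, j) fun i => (x i : ℂ) := by
        intro l j
        unfold PM fH
        rw [Matrix.of_apply, hins]
      rw [h5, h5]
      congr 1
      split_ifs <;> simp
    rw [h4] at h3
    exact h3

end Pool.Agent.U543.XP
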