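import Pool.Agent.U543.XpMono
import Pool.Agent.Y890.SM.Inst

/-!
# Analytic relations between the periods of products are invariant under the monodromy
-/

set_option autoImplicit false
set_option linter.unusedSectionVars false

open Complex Set Filter Topology Matrix

namespace Pool.Agent.U543.XP

open Pool.Agent.Y118.HP
open Pool.Agent.Y890.HE
open Pool.Agent.Y890.SM (Ix)

variable {ι : Type} [Fintype ι] [DecidableEq ι] {n : ι → ℕ}

/-- the values of the periods -/
noncomputable def fp (n : ι → ℕ) (x : (Σ i, Fin (n i + 1)) → ℂ) : Ix n → ℂ := fun q => pm n x q.1 q.2.1 q.2.2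

/-- the logarithm of a monodromy -/
noncomputable def nil (i : ι) (k : Fin (n i)) (Y : Ix n → ℂ) : Ix n → ℂ := fun q =>
  Function.update (fun (i' : ι) (_ : Fin (n i') × Fin (n i')) => (0 : ℂ)) i
    (fun p => if (p.1 : ℕ) + 1 = k ∨ (p.1 : ℕ) = k + 1 then 2 * I * Y ⟨i, (k, p.2)⟩ else 0) q.1 q.2

theorem nil_same (i : ι) (k : Fin (n i)) (Y : Ix n → ℂ) (p : Fin (n i) × Fin (n i)) : nil i k Y ⟨i, p⟩ =
    if (p.1 : ℕ) + 1 = k ∨ (p.1 : ℕ) = k + 1 then 2 * I * Y ⟨i, (k, p.2)⟩ else 0 := by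
  unfold nil
  simp only [Function.update_self]

theorem nil_ne {i i' : ι} (h : i' ≠ i) (k : Fin (n i)) (Y : Ix n → ℂ) (p : Fin (n i') × Fin (n i')) :
    nil i k Y ⟨i', p⟩ = 0 := by
  unfold nil
  simp only [Function.update_of_ne h]

theorem nil_nil (i : ι) (k : Fin (n i)) (Y : Ix n → ℂ) (c : ℂ) :
    nil i k (fun q => Y q + c * nil i k Y q) = nil i k Y := by
  funext q
  obtain ⟨i', p⟩ := q
  by_cases h : i' = i
  · subst h
    rw [nil_same, nil_same, nil_same]
    have h1 : ¬ ((k : ℕ) + 1 = k ∨ (k : ℕ) = k + 1) := by omega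
    simp only [if_neg h1, mul_zero, add_zero]
  · rw [nil_ne h, nil_ne h]

theorem mono2 (i : ι) (k : Fin (n i)) (G : ((Σ i, Fin (n i + 1)) → ℂ) × (Ix n → ℂ) → ℂ)
    (hG : AnalyticOnNhd ℂ G univ) (h : ∀ x ∈ Conf n, G (x, fp n x) = 0) :
    ∀ x ∈ Conf n, G (x, fun q => fp n x q + nil i k (fp n x) q) = 0 := by
  intro x hx
  obtain ⟨xe, hxe⟩ : ∃ xe : (Fin (n i + 1) → ℂ) → (Σ i, Fin (n i + 1)) → ℂ, xe = fun e r =>
    Function.update (fun (i' : ι) (r : Fin (n i' + 1)) => x ⟨i', r⟩) i e r.1 r.2 := ⟨_, rfl⟩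
  obtain ⟨Ye, hYe⟩ : ∃ Ye : (Fin (n i) × Fin (n i) → ℂ) → Ix n → ℂ, Ye = fun Y q =>
    Function.update (fun (i' : ι) (p : Fin (n i') × Fin (n i')) => fp n x ⟨i', p⟩) i Y q.1 q.2 := ⟨_, rfl⟩
  have hx1 : ∀ e r, xe e ⟨i, r⟩ = e r := by
    intro e r
    rw [hxe]
    simp only [Function.update_self]
  have hx2 : ∀ e i' r, i' ≠ i → xe e ⟨i', r⟩ = x ⟨i', r⟩ := by
    intro e i' r h'
    rw [hxe]
    simp only [Function.update_of_ne h']
  have hY1 : ∀ Y p, Ye Y ⟨i, p⟩ = Y p := by
    intro e r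
    rw [hYe]
    simp only [Function.update_self]
  have hY2 : ∀ Y i' p, i' ≠ i → Ye Y ⟨i', p⟩ = fp n x ⟨i', p⟩ := by
    intro e i' r h'
    rw [hYe]
    simp only [Function.update_of_ne h']
  have hGe : AnalyticOnNhd ℂ (fun p : (Fin (n i + 1) → ℂ) × (Fin (n i) × Fin (n i) → ℂ) => G (xe p.1, Ye p.2)) univ := by
    intro p _
    refine AnalyticAt.comp (g := G) (f := fun p : (Fin (n i + 1) → ℂ) × (Fin (n i) × Fin (n i) → ℂ) =>
      (xe p.1, Ye p.2)) (hG _ (mem_univ _)) ?_
    refine AnalyticAt.prod ?_ ?_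
    · rw [analyticAt_pi_iff]
      rintro ⟨i', r⟩
      by_cases h' : i' = i
      · subst h'
        simp only [hx1]
        exact (analyticAt_pi_iff.1 (analyticAt_fst (𝕜 := ℂ) (p := p))) r
      · simp only [hx2 _ i' r h']
        exact analyticAt_const
    · rw [analyticAt_pi_iff]
      rintro ⟨i', r⟩
      by_cases h' : i' = i
      · subst h'
        simp only [hY1]
        exact (analyticAt_pi_iff.1 (analyticAt_snd (𝕜 := ℂ) (p := p))) r
      · simp only [hY2 _ i' r h']
        exact analyticAt_const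
  have h0 : ∀ e ∈ Ord (n i), G (xe e, Ye fun q => fH (n i) q e) = 0 := by
    intro e he
    have h1 : xe e ∈ Conf n := by
      intro i' r s hrs
      by_cases h' : i' = i
      · subst h'
        rw [hx1, hx1]
        exact he r s hrs
      · rw [hx2 _ i' r h', hx2 _ i' s h']
        exact hx i' r s hrs
    have h2 : fp n (xe e) = Ye fun q => fH (n i) q e := by
      funext q
      obtain ⟨i', p⟩ := q
      by_cases h' : i' = i
      · subst h'
        rw [hY1]
        unfold fp pm fH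
        simp only [Matrix.of_apply, hx1]
      · rw [hY2 _ i' p h']
        unfold fp pm
        simp only [Matrix.of_apply, hx2 _ i' _ h']
    rw [← h2]
    exact h _ h1
  have h3 := mono1 k _ hGe h0 (fun r => x ⟨i, r⟩) (hx i)
  have h4 : xe (fun r => x ⟨i, r⟩) = x := by
    funext r
    obtain ⟨i', r⟩ := r
    by_cases h' : i' = i
    · subst h'
      rw [hx1]
    · rw [hx2 _ i' r h']
  have h5 : Ye (tk k fun q => fH (n i) q fun r => x ⟨i, r⟩) = fun q => fp n x q + nil i k (fp n x) q := by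
    funext q
    obtain ⟨i', p⟩ := q
    by_cases h' : i' = i
    · subst h'
      rw [hY1, nil_same]
      unfold tk fp pm fH
      simp only [Matrix.of_apply]
    · rw [hY2 _ i' p h', nil_ne h', add_zero]
  simp only [h4, h5] at h3
  exact h3

theorem mono3 (i : ι) (k : Fin (n i)) (G : ((Σ i, Fin (n i + 1)) → ℂ) × (Ix n → ℂ) → ℂ)
    (hG : AnalyticOnNhd ℂ G univ) (h : ∀ x ∈ Conf n, G (x, fp n x) = 0) (N : ℕ) :
    ∀ x ∈ Conf n, G (x, fun q => fp n x q + (N : ℂ) * nil i k (fp n x) q) = 0 := by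
  induction N generalizing G with
  | zero =>
    intro x hx
    simp only [Nat.cast_zero, zero_mul, add_zero]
    exact h x hx
  | succ N ih =>
    have hG' : AnalyticOnNhd ℂ (fun p : ((Σ i, Fin (n i + 1)) → ℂ) × (Ix n → ℂ) =>
        G (p.1, fun q => p.2 q + (N : ℂ) * nil i k p.2 q)) univ := by
      intro p _
      refine AnalyticAt.comp (g := G) (f := fun p : ((Σ i, Fin (n i + 1)) → ℂ) × (Ix n → ℂ) =>
        (p.1, fun q => p.2 q + (N : ℂ) * nil i k p.2 q)) (hG _ (mem_univ _)) ?_
      refine analyticAt_fst.prod ?_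
      have hpr : ∀ q : Ix n, AnalyticAt ℂ (fun p : ((Σ i, Fin (n i + 1)) → ℂ) × (Ix n → ℂ) => p.2 q) p := fun q =>
        (analyticAt_pi_iff.1 (analyticAt_snd (𝕜 := ℂ) (p := p))) q
      rw [analyticAt_pi_iff]
      rintro ⟨i', r⟩
      refine (hpr _).add (analyticAt_const.mul ?_)
      by_cases h' : i' = i
      · subst h'
        simp only [nil_same]
        by_cases h1 : (r.1 : ℕ) + 1 = k ∨ (r.1 : ℕ) = k + 1
        · simp only [if_pos h1]
          exact analyticAt_const.mul (hpr _)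
        · simp only [if_neg h1]
          exact analyticAt_const
      · simp only [nil_ne h']
        exact analyticAt_const
    have h1 := ih G hG h
    have h2 := mono2 i k _ hG' (fun x hx => h1 x hx)
    intro x hx
    have h3 := h2 x hx
    have h4 : nil i k (fun q => fp n x q + nil i k (fp n x) q) = nil i k (fp n x) := by
      have := nil_nil i k (fp n x) 1
      simpa using this
    simp only [h4] at h3
    have h5 : (fun q => fp n x q + nil i k (fp n x) q + (N : ℂ) * nil i k (fp n x) q) =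
        fun q => fp n x q + ((N + 1 : ℕ) : ℂ) * nil i k (fp n x) q := by
      funext q
      push_cast
      ring
    rw [← h5]
    exact h3

end Pool.Agent.U543.XP
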