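import Pool.Agent.U543.XpIndep
import Pool.Agent.U543.NrSym

/-!
# The relations between the periods and their exponentials
-/

set_option autoImplicit false
set_option linter.unusedSectionVars false
set_option linter.deprecated false

open NumberField

namespace Pool.Agent.U543.XP

open Pool.Agent.Y890.MV
open Pool.Agent.Y890.SM
open Pool.Agent.Y890.SP (Qbar)
open Pool.Agent.U543.NR (up up2 lcX lcY lcY_coeff up_coeff up2_coeff Desc desc_symp lcX_zero)

section dec

variable {R : Type} [CommRing R] {σ τ : Type} [Fintype σ] [Fintype τ]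

/-- the polynomials as polynomials in the first variables -/
noncomputable def dec (p : MvPolynomial (σ ⊕ τ) R) : MvPolynomial σ (MvPolynomial τ R) :=
  MvPolynomial.sumToIter R σ τ p

theorem dec_add (p q : MvPolynomial (σ ⊕ τ) R) : dec (p + q) = dec p + dec q := map_add _ _ _

theorem dec_mono (e : σ ⊕ τ →₀ ℕ) (a : R) : dec (MvPolynomial.monomial e a) =
    MvPolynomial.monomial (Finsupp.equivFunOnFinite.symm fun q => e (Sum.inl q))
      (MvPolynomial.monomial (Finsupp.equivFunOnFinite.symm fun q => e (Sum.inr q)) a) := by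
  classical
  rw [MvPolynomial.monomial_eq (s := e), Finsupp.prod_fintype _ _ (fun _ => pow_zero _), Fintype.prod_sum_type]
  have h1 : MvPolynomial.monomial (Finsupp.equivFunOnFinite.symm fun q => e (Sum.inr q)) a =
      MvPolynomial.C a * ∏ q, (MvPolynomial.X q : MvPolynomial τ R) ^ e (Sum.inr q) := by
    rw [MvPolynomial.monomial_eq, Finsupp.prod_fintype _ _ (fun _ => pow_zero _)]
    rfl
  have h2 : ∀ b : MvPolynomial τ R, MvPolynomial.monomial (Finsupp.equivFunOnFinite.symm fun q => e (Sum.inl q)) b =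
      MvPolynomial.C b * ∏ q, (MvPolynomial.X q : MvPolynomial σ (MvPolynomial τ R)) ^ e (Sum.inl q) := by
    intro b
    rw [MvPolynomial.monomial_eq, Finsupp.prod_fintype _ _ (fun _ => pow_zero _)]
    rfl
  rw [h2, h1, dec]
  simp only [map_mul, map_prod, map_pow, MvPolynomial.sumToIter_C, MvPolynomial.sumToIter_Xl,
    MvPolynomial.sumToIter_Xr]
  ring

theorem dec_coeff (p : MvPolynomial (σ ⊕ τ) R) (m : σ →₀ ℕ) (m' : τ →₀ ℕ) :
    ((dec p).coeff m).coeff m' = p.coeff (Finsupp.equivFunOnFinite.symm (Sum.elim m m')) := by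
  classical
  induction p using MvPolynomial.induction_on' with
  | monomial e a =>
    rw [dec_mono, MvPolynomial.coeff_monomial, MvPolynomial.coeff_monomial]
    by_cases h1 : e = Finsupp.equivFunOnFinite.symm (Sum.elim m m')
    · subst h1
      rw [if_pos rfl, if_pos, MvPolynomial.coeff_monomial, if_pos]
      · ext q
        rfl
      · ext q
        rfl
    · rw [if_neg h1]
      split_ifs with h2
      · rw [MvPolynomial.coeff_monomial, if_neg]
        intro h3
        apply h1
        ext q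
        rcases q with q | q
        · exact DFunLike.congr_fun h2 q
        · exact DFunLike.congr_fun h3 q
      · rw [MvPolynomial.coeff_zero]
  | add p q hp hq => rw [dec_add, MvPolynomial.coeff_add, MvPolynomial.coeff_add, MvPolynomial.coeff_add, hp, hq]

theorem evX_dec {X : Type} (x : X → ℂ) (Z : σ → ℂ) (Y : τ → ℂ) (p : MvPolynomial (σ ⊕ τ) (MvPolynomial X ℂ)) :
    evX x (Sum.elim Z Y) p = ∑ m ∈ (dec p).support, evX x Y ((dec p).coeff m) * ∏ q, Z q ^ m q := by
  classical
  have h1 : evX x (Sum.elim Z Y) p = MvPolynomial.eval₂ (MvPolynomial.eval₂Hom (MvPolynomial.eval x) Y) Z (dec p) := by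
    have h2 : MvPolynomial.eval₂Hom (MvPolynomial.eval x) (Sum.elim Z Y) =
        (MvPolynomial.eval₂Hom (MvPolynomial.eval₂Hom (MvPolynomial.eval x) Y) Z).comp
          (MvPolynomial.sumToIter (MvPolynomial X ℂ) σ τ) := by
      apply MvPolynomial.ringHom_ext
      · intro a
        simp [MvPolynomial.sumToIter_C]
      · rintro (q | q)
        · simp [MvPolynomial.sumToIter_Xl]
        · simp [MvPolynomial.sumToIter_Xr]
    exact RingHom.congr_fun h2 p
  rw [h1, MvPolynomial.eval₂_eq']
  rfl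

end dec

variable {k : Type} [Field k] [Algebra k ℂ] {X σ τ : Type} [Fintype σ] [Fintype τ]

theorem dec_lcY (ℓ : ℂ →ₗ[k] k) (P : MvPolynomial (σ ⊕ τ) (MvPolynomial X ℂ)) (m : σ →₀ ℕ) :
    (dec (lcY ℓ P)).coeff m = lcY ℓ ((dec P).coeff m) := by
  ext1 m'
  rw [dec_coeff, lcY_coeff, lcY_coeff, dec_coeff]

theorem dec_up2 (P : MvPolynomial (σ ⊕ τ) (MvPolynomial X k)) (m : σ →₀ ℕ) :
    (dec (up2 P)).coeff m = up2 ((dec P).coeff m) := by
  ext1 m'
  rw [dec_coeff, up2_coeff, up2_coeff, dec_coeff]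

/-- the periods and their exponentials -/
noncomputable def fe {X : Type} [Fintype X] {ι : Type} {n : ι → ℕ} (F : SympFam X n) :
    Ix n ⊕ Ix n → (X → ℂ) → ℂ :=
  Sum.elim (fun q x => Complex.exp (F.f q x)) F.f

theorem fe_val {X : Type} [Fintype X] {ι : Type} {n : ι → ℕ} (F : SympFam X n) (x : X → ℂ) :
    (fun i => fe F i x) = Sum.elim (fun q => Complex.exp (F.f q x)) (fun q => F.f q x) := by
  funext i
  rcases i with q | q <;> rfl

/-- The exponentials of the periods are algebraically independent over the ring generated by the coordinates and the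
periods: if a polynomial in the `exp (P i x l j)` with coefficients `A m`, polynomials in `x` and in the `P i x l j`,
vanishes on `U`, then all the coefficients vanish on `U`. -/
def ExpFree {X : Type} [Fintype X] {ι : Type} [Fintype ι] {n : ι → ℕ} (F : SympFam X n) : Prop :=
  ∀ (S : Finset (Ix n → ℕ)) (A : (Ix n → ℕ) → MvPolynomial (Ix n) (MvPolynomial X ℂ)),
    (∀ x ∈ F.U, ∑ m ∈ S, evX x (fun q => F.P q.1 x q.2.1 q.2.2) (A m) *
      ∏ q : Ix n, Complex.exp (F.P q.1 x q.2.1 q.2.2) ^ m q = 0) →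
      ∀ m ∈ S, ∀ x ∈ F.U, evX x (fun q => F.P q.1 x q.2.1 q.2.2) (A m) = 0

section sy

variable {X' : Type} [Fintype X'] [DecidableEq X'] {ι : Type} [Fintype ι] [DecidableEq ι] {n : ι → ℕ}

theorem fe_an (F : SympFam X' n) : ∀ i, AnalyticOnNhd ℂ (fe F i) F.U := by
  rintro (q | q)
  · intro x hx
    exact (F.an q.1 q.2.1 q.2.2 x hx).cexp
  · exact F.an q.1 q.2.1 q.2.2

theorem coef_zero (F : SympFam X' n) (hF : ExpFree F) (p : MvPolynomial (Ix n ⊕ Ix n) (MvPolynomial X' ℂ))
    (h : ∀ x ∈ F.U, evM (fe F) x p = 0) (m : Ix n →₀ ℕ) : ∀ x ∈ F.U, evM F.f x ((dec p).coeff m) = 0 := by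
  classical
  by_cases hm : m ∈ (dec p).support
  · have h1 := hF ((dec p).support.image fun m : Ix n →₀ ℕ => (m : Ix n → ℕ))
      (fun u => (dec p).coeff (Finsupp.equivFunOnFinite.symm u)) (fun x hx => by
        have h2 := h x hx
        rw [evM_eq, fe_val, evX_dec] at h2
        rw [Finset.sum_image (fun a _ b _ hab => DFunLike.coe_injective hab), ← h2]
        refine Finset.sum_congr rfl fun m _ => ?_
        rw [show Finsupp.equivFunOnFinite.symm (m : Ix n → ℕ) = m from Finsupp.equivFunOnFinite.symm_apply_apply m]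
        rfl) m (Finset.mem_image_of_mem _ hm)
    rw [show Finsupp.equivFunOnFinite.symm (m : Ix n → ℕ) = m from Finsupp.equivFunOnFinite.symm_apply_apply m] at h1
    exact h1
  · intro x _
    rw [MvPolynomial.notMem_support_iff.1 hm]
    simp [evM]

/-- the torsor and arbitrary values for the exponentials -/
def TorE (F : SympFam X' n) (x : X' → ℂ) : Set (Ix n ⊕ Ix n → ℂ) := {W | (fun q => W (Sum.inr q)) ∈ F.Tor x}

theorem elim_eta {α β γ : Type} (W : α ⊕ β → γ) : W = Sum.elim (fun q => W (Sum.inl q)) fun q => W (Sum.inr q) := by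
  funext i
  rcases i with q | q <;> rfl

theorem torE (F : SympFam X' n) (hF : ExpFree F) : TorM F.U (fe F) (TorE F) := by
  classical
  refine ⟨fun x hx => F.tor.self x hx, ?_, ?_, ?_⟩
  · intro p hp x hx W hW
    rw [elim_eta W, evX_dec]
    refine Finset.sum_eq_zero fun m _ => ?_
    rw [F.tor.inv _ (coef_zero F hF p hp m) x hx _ hW, zero_mul]
  · intro x hx W hW
    obtain ⟨γ, h0, h1, h2⟩ := F.tor.path x hx _ hW
    refine ⟨Sum.elim (fun q => Polynomial.C (fe F (Sum.inl q) x) +
      Polynomial.X * Polynomial.C (W (Sum.inl q) - fe F (Sum.inl q) x)) γ, ?_, ?_, ?_⟩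
    · rintro (q | q)
      · simp
      · exact h0 q
    · rintro (q | q)
      · simp
      · exact h1 q
    · intro t
      exact h2 t
  · obtain ⟨c, hc, hsec⟩ := F.tor.sec
    refine ⟨c, hc, fun x0 hx0 hc0 W hW => ?_⟩
    obtain ⟨v, hv, hv0⟩ := hsec x0 hx0 hc0 _ hW
    refine ⟨Sum.elim (fun q => MvPolynomial.C (W (Sum.inl q)) * c) v, ?_, ?_⟩
    · intro x hx hcx
      exact hv x hx hcx
    · rintro (q | q)
      · show MvPolynomial.eval x0 (MvPolynomial.C (W (Sum.inl q)) * c) / MvPolynomial.eval x0 c = _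
        rw [map_mul, MvPolynomial.eval_C, mul_div_assoc, div_self hc0, mul_one]
      · exact hv0 q

theorem descE {k : Type} [Field k] [CharZero k] [Algebra k ℂ] [Algebra Qbar k] [IsScalarTower Qbar k ℂ]
    (F : SympFam X' n) (hF : ExpFree F) (τ : k) (hτ : algebraMap k ℂ τ = tpi) : Desc k F.U (fe F) := by
  classical
  intro ℓ P hP x hx
  rw [evM_eq, fe_val, evX_dec]
  refine Finset.sum_eq_zero fun m _ => ?_
  have h1 := desc_symp F τ hτ ℓ _ (coef_zero F hF P hP m) x hx
  rw [dec_up2, dec_lcY]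
  rw [evM_eq] at h1
  rw [h1, zero_mul]

end sy

/-- **Products of hyperelliptic families.** -/
theorem expFree_hyp {ι : Type} [Fintype ι] [DecidableEq ι] (n : ι → ℕ) (hn : ∀ i, Even (n i)) :
    ExpFree (hyp n hn) := by
  classical
  intro S A h m hm
  refine indep hn A S.card S le_rfl (fun x hx => ?_) m hm
  rw [← h x hx]
  refine Finset.sum_congr rfl fun m _ => ?_
  congr 1
  rw [Complex.exp_sum]
  refine Finset.prod_congr rfl fun q _ => ?_
  rw [Complex.exp_nat_mul]
  rfl

end Pool.Agent.U543.XP
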