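import Pool.Agent.Y890.HE.Main
import Pool.Agent.U543.GalDef

/-!
# Normalised periods of elliptic curves: definitions
-/

set_option autoImplicit false

open NumberField

namespace Pool.Agent.U543.XR

open Pool.Agent.Y890.HE (Conf pm)
open Pool.Agent.U543.GD (Height Inner)

variable {ι : Type}

/-- The numbers `ω i / √π`, `η i / √π` for the elliptic curves `y² = (x - e i 0) (x - e i 1) (x - e i 2)`: `ω i` and `η i`
are the integrals of `dx / y` and `x dx / y` from `e i (l i)` to `e i (l i + 1)`. -/
noncomputable def nrm (e : (Σ _ : ι, Fin (2 + 1)) → ℂ) (l : ι → Fin 2) (p : ι × Fin 2) : ℂ :=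
  pm (fun _ : ι => 2) e p.1 (l p.1) p.2 / (Real.sqrt Real.pi : ℂ)

/-- The value at these numbers of the polynomial `f` over the integers of `K`. -/
noncomputable def nval {K : Type} [Field K] (io : K →+* ℂ) (f : MvPolynomial (ι × Fin 2) (𝓞 K))
    (e : (Σ _ : ι, Fin (2 + 1)) → ℂ) (l : ι → Fin 2) : ℂ :=
  MvPolynomial.eval₂ (io.comp (algebraMap (𝓞 K) K)) (nrm e l) f

variable [Fintype ι]

/-- The branch points in `Conf`, over `K`, of height at most `T`, of norm at most `k` and at distance at least `1 / k` from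
the complement of `Conf`, for which a polynomial `∑ z i * f i`, the `f i` over the integers of `K`, of degree at most `k` in
each variable and with conjugates of the coefficients at most `T ^ k`, has a coefficient of absolute value greater than
`T ^ (-k)`, but has absolute value at most `δ` at the numbers `ω i / √π`, `η i / √π` for some choice `l`. -/
def SmallValue (ι : Type) [Fintype ι] (k : ℕ) (K : Type) [Field K] [NumberField K] (io : K →+* ℂ) (z : Fin k → ℂ)
    (T δ : ℝ) : Set ((Σ _ : ι, Fin (2 + 1)) → K) :=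
  {s | (∀ j, s j ∈ Height K T) ∧ (fun j => io (s j)) ∈ Inner (Conf (fun _ : ι => 2)) k ∧
    ∃ (l : ι → Fin 2) (f : Fin k → MvPolynomial (ι × Fin 2) (𝓞 K)),
      (∀ i, (∀ p, (f i).degreeOf p ≤ k) ∧ ∀ c, house ((MvPolynomial.coeff c (f i) : 𝓞 K) : K) ≤ T ^ k) ∧
      ‖∑ i, z i * nval io (f i) (fun j => io (s j)) l‖ ≤ δ ∧
      ∃ c, T ^ (-(k : ℝ)) < ‖∑ i, z i * io ((MvPolynomial.coeff c (f i) : 𝓞 K) : K)‖}

end Pool.Agent.U543.XR
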