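import Pool.Agent.U543.XrMain

/-!
# Normalised periods of elliptic curves: small values
-/

set_option autoImplicit false
set_option linter.unusedSectionVars false

open NumberField Filter

namespace Pool.Agent.U543.XR

open Pool.Agent.Y890.MV
open Pool.Agent.Y890.SM
open Pool.Agent.Y890.HE (Conf pm)
open Pool.Agent.Y124 (Cov eval_eq_box sV sV_inj sV_apply)
open Pool.Agent.U543.GD (Height Inner)

variable {ι : Type} [Fintype ι] [DecidableEq ι]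

theorem spi_pos : 0 < Real.sqrt Real.pi := Real.sqrt_pos.2 Real.pi_pos

theorem spi_one : 1 ≤ Real.sqrt Real.pi := by
  rw [Real.one_le_sqrt]
  linarith [Real.pi_gt_three]

theorem sum_nval {K : Type} [Field K] (io : K →+* ℂ) {k : ℕ} (l : ι → Fin 2)
    (f : Fin k → MvPolynomial (ι × Fin 2) (𝓞 K)) (hf : ∀ i p, (f i).degreeOf p ≤ k) (z : Fin k → ℂ)
    (e : (Σ _ : ι, Fin (2 + 1)) → ℂ) :
    ∑ i, z i * nval io (f i) e l = ∑ l', (∑ p : Fin k × Fin (MM ι k + 1),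
      (z p.1 * ((Real.sqrt Real.pi : ℂ)⁻¹) ^ (p.2 : ℕ)) * ∑ a : Fin 1, tpi ^ (a : ℕ) * io (cc l f l' p a : K)) *
        ∏ q, (hyp (fun _ : ι => 2) fun _ => even_two).f q e ^ (l' q : ℕ) := by
  rw [cc_sum io l f (fun p => z p.1 * ((Real.sqrt Real.pi : ℂ)⁻¹) ^ (p.2 : ℕ))]
  have h1 : ∀ i, z i * nval io (f i) e l = ∑ g : ι × Fin 2 → Fin (k + 1),
      z i * (io (((f i).coeff (sV g) : 𝓞 K) : K) * ∏ p, nrm e l p ^ (g p : ℕ)) := by
    intro i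
    rw [nval_eq io l (f i) (hf i), Finset.mul_sum]
  simp only [h1]
  rw [Finset.sum_comm]
  refine Finset.sum_congr rfl fun g _ => ?_
  have h2 : ∏ p, nrm e l p ^ (g p : ℕ) = ((Real.sqrt Real.pi : ℂ)⁻¹) ^ dg g *
      ∏ p : ι × Fin 2, (hyp (fun _ : ι => 2) fun _ => even_two).f ⟨p.1, (l p.1, p.2)⟩ e ^ (g p : ℕ) := by
    rw [dg, ← Finset.prod_pow_eq_pow_sum, ← Finset.prod_mul_distrib]
    refine Finset.prod_congr rfl fun p _ => ?_
    rw [← mul_pow]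
    congr 1
    rw [nrm, div_eq_inv_mul]
    rfl
  rw [h2, Finset.sum_mul]
  refine Finset.sum_congr rfl fun i _ => ?_
  ring

theorem cov_small [Nonempty ι] (k : ℕ) (ε : ℝ) (hε : 0 < ε) :
    ∃ (B D : ℕ) (C T₀ : ℝ), 0 ≤ C ∧ 2 ≤ T₀ ∧ ∀ (K : Type) [Field K] [NumberField K], Module.finrank ℚ K ≤ k →
      ∀ (io : K →+* ℂ) (z : Fin k → ℂ) (T : ℝ), T₀ ≤ T → (∀ i, ‖z i‖ ≤ T ^ k) → ∀ δ ≤ T ^ (-(B : ℝ)),
        Cov D ⌊C * T ^ ε⌋₊ ((fun (s : (Σ _ : ι, Fin (2 + 1)) → K) j => io (s j)) '' SmallValue ι k K io z T δ) := by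
  classical
  have : Nonempty (Σ _ : ι, Fin (2 + 1)) := ⟨⟨Classical.arbitrary ι, 0⟩⟩
  rcases Nat.eq_zero_or_pos k with hk | hk
  · refine ⟨0, 0, 0, 2, le_rfl, le_rfl, ?_⟩
    intro K _ _ hK
    have h1 : 0 < Module.finrank ℚ K := Module.finrank_pos
    omega
  obtain ⟨D, B, C, T₀, hC, hT₀, H⟩ := PZ.lin_symp (hyp (fun _ : ι => 2) fun _ => even_two) k k hk k 1
    (h := Fin k × Fin (MM ι k + 1)) (k : ℝ) (2 * k + 1 : ℝ) ε hε
  obtain ⟨s₀, hs₀⟩ : ∃ s₀ : ℝ, s₀ = Real.sqrt Real.pi := ⟨_, rfl⟩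
  refine ⟨⌈max B 0⌉₊, D, C, max T₀ (s₀ ^ MM ι k * k), hC, hT₀.trans (le_max_left _ _), ?_⟩
  intro K _ _ hK io z T hT hz δ hδ
  have hTa : T₀ ≤ T := (le_max_left _ _).trans hT
  have hTb : s₀ ^ MM ι k * k ≤ T := (le_max_right _ _).trans hT
  have hT1 : 1 ≤ T := by linarith
  have hTp : 0 < T := by linarith
  have hs1 : 1 ≤ s₀ := by rw [hs₀]; exact spi_one
  have hsp : 0 < s₀ := by linarith
  have hs0' : (s₀ : ℂ) ≠ 0 := by exact_mod_cast hsp.ne'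
  refine (H K hK io (fun p => z p.1 * ((Real.sqrt Real.pi : ℂ)⁻¹) ^ (p.2 : ℕ)) T hTa (fun p => ?_)).mono le_rfl
    le_rfl ?_
  · rw [norm_mul, norm_pow, norm_inv, ← hs₀, Complex.norm_real, Real.norm_eq_abs, abs_of_pos hsp, Real.rpow_natCast]
    have h1 : (s₀⁻¹) ^ (p.2 : ℕ) ≤ 1 := pow_le_one₀ (by positivity) (inv_le_one_of_one_le₀ hs1)
    calc ‖z p.1‖ * s₀⁻¹ ^ (p.2 : ℕ) ≤ T ^ k * 1 := mul_le_mul (hz _) h1 (by positivity) (by positivity)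
      _ = T ^ k := mul_one _
  rintro _ ⟨s, ⟨h1, h2, l, f, hf, hn, c, hc⟩, rfl⟩
  refine ⟨h2, s, h1, rfl, cc l f, fun l' p a φ => ?_, ?_, ?_⟩
  · rw [Real.rpow_natCast]
    unfold cc
    split_ifs
    · exact (Y120.house_ge K _ φ).trans ((hf p.1).2 _)
    · have h3 : φ ((0 : 𝓞 K) : K) = 0 := by simp
      rw [h3, norm_zero]
      positivity
  · rw [← sum_nval io l f (fun i => (hf i).1) z]
    refine hn.trans (hδ.trans (Real.rpow_le_rpow_of_exponent_le hT1 ?_))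
    have e2 := Nat.le_ceil (max B 0)
    have e3 := le_max_left B 0
    linarith
  · rintro ⟨w, hw, hall⟩
    -- the coefficients vanish
    have hzero : ∀ g : ι × Fin 2 → Fin (k + 1), ∑ i, w (i, ⟨dg g, Nat.lt_succ_iff.2 (dg_le g)⟩) *
        io (((f i).coeff (sV g) : 𝓞 K) : K) = 0 := by
      intro g
      refine box_zero' (fun g => ∑ i, w (i, ⟨dg g, Nat.lt_succ_iff.2 (dg_le g)⟩) *
        io (((f i).coeff (sV g) : 𝓞 K) : K)) (fun v hv => ?_) g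
      obtain ⟨Y, hY, hYv⟩ := exists_row (innerM_sub _ hk h2) l v hv
      have h3 := hall Y hY
      rw [cc_sum io l f w Y] at h3
      rw [← h3]
      refine Finset.sum_congr rfl fun g _ => ?_
      congr 1
      exact Finset.prod_congr rfl fun p _ => by rw [hYv]
    -- the exponent
    have hex : ∃ i, (f i).coeff c ≠ 0 := by
      by_contra hcon
      push Not at hcon
      have h3 : ∑ i, z i * io ((MvPolynomial.coeff c (f i) : 𝓞 K) : K) = 0 :=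
        Finset.sum_eq_zero fun i _ => by rw [hcon i]; simp
      rw [h3, norm_zero] at hc
      exact absurd hc (not_lt.2 (Real.rpow_pos_of_pos hTp _).le)
    obtain ⟨i₀, hi₀⟩ := hex
    have hck : ∀ p, c p ≤ k := fun p =>
      (MvPolynomial.monomial_le_degreeOf p (MvPolynomial.mem_support_iff.2 hi₀)).trans ((hf i₀).1 p)
    obtain ⟨g, hg⟩ : ∃ g : ι × Fin 2 → Fin (k + 1), sV g = c := ⟨fun p => ⟨c p, Nat.lt_succ_iff.2 (hck p)⟩, by
      ext p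
      rfl⟩
    have h3 := hzero g
    rw [hg] at h3
    have h4 : ∑ i, z i * io ((MvPolynomial.coeff c (f i) : 𝓞 K) : K) = (s₀ : ℂ) ^ dg g * ∑ i,
        (z i * ((s₀ : ℂ)⁻¹) ^ dg g - w (i, ⟨dg g, Nat.lt_succ_iff.2 (dg_le g)⟩)) *
          io ((MvPolynomial.coeff c (f i) : 𝓞 K) : K) := by
      simp only [sub_mul, Finset.sum_sub_distrib]
      rw [h3, sub_zero, Finset.mul_sum]
      refine Finset.sum_congr rfl fun i _ => ?_
      have h5 : (s₀ : ℂ) ^ dg g * ((s₀ : ℂ)⁻¹) ^ dg g = 1 := by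
        rw [← mul_pow, mul_inv_cancel₀ hs0', one_pow]
      linear_combination (-(z i * io ((MvPolynomial.coeff c (f i) : 𝓞 K) : K))) * h5
    rw [h4, norm_mul, norm_pow, Complex.norm_real, Real.norm_eq_abs, abs_of_pos hsp] at hc
    have h5 : ‖∑ i, (z i * ((s₀ : ℂ)⁻¹) ^ dg g - w (i, ⟨dg g, Nat.lt_succ_iff.2 (dg_le g)⟩)) *
        io ((MvPolynomial.coeff c (f i) : 𝓞 K) : K)‖ ≤ ∑ _i : Fin k, T ^ (-(2 * k + 1 : ℝ)) * T ^ k := by
      refine (norm_sum_le _ _).trans (Finset.sum_le_sum fun i _ => ?_)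
      rw [norm_mul]
      have h6 := hw (i, ⟨dg g, Nat.lt_succ_iff.2 (dg_le g)⟩)
      simp only [← hs₀] at h6
      rw [norm_sub_rev] at h6
      exact mul_le_mul h6 ((Y120.house_ge K _ io).trans ((hf i).2 _)) (norm_nonneg _) (by positivity)
    rw [Finset.sum_const, Finset.card_univ, Fintype.card_fin, nsmul_eq_mul] at h5
    have h7 : s₀ ^ dg g ≤ s₀ ^ MM ι k := pow_le_pow_right₀ hs1 (dg_le g)
    have h8 : s₀ ^ dg g * ((k : ℝ) * (T ^ (-(2 * k + 1 : ℝ)) * T ^ k)) ≤ T ^ (-(k : ℝ)) := by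
      calc s₀ ^ dg g * ((k : ℝ) * (T ^ (-(2 * k + 1 : ℝ)) * T ^ k))
          ≤ s₀ ^ MM ι k * ((k : ℝ) * (T ^ (-(2 * k + 1 : ℝ)) * T ^ k)) :=
            mul_le_mul_of_nonneg_right h7 (by positivity)
        _ = (s₀ ^ MM ι k * k) * (T ^ (-(2 * k + 1 : ℝ)) * T ^ k) := by ring
        _ ≤ T * (T ^ (-(2 * k + 1 : ℝ)) * T ^ k) := mul_le_mul_of_nonneg_right hTb (by positivity)
        _ = T ^ (-(k : ℝ)) := by
            rw [← Real.rpow_natCast T k, ← Real.rpow_add hTp]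
            nth_rw 1 [← Real.rpow_one T]
            rw [← Real.rpow_add hTp]
            congr 1
            ring
    have h9 := mul_le_mul_of_nonneg_left h5 (pow_nonneg hsp.le (dg g))
    linarith

theorem small_fix [Nonempty ι] (k : ℕ) (ε : ℝ) (hε : 0 < ε) :
    ∃ (B D : ℕ) (C T₀ : ℝ), 0 ≤ C ∧ 2 ≤ T₀ ∧ ∀ T, T₀ ≤ T → ∀ (K : Type) [Field K] [NumberField K],
      Module.finrank ℚ K ≤ k → ∀ (io : K →+* ℂ) (z : Fin k → ℂ), (∀ i, ‖z i‖ ≤ T ^ k) →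
        Cov D ⌊C * T ^ ε⌋₊ ((fun (s : (Σ _ : ι, Fin (2 + 1)) → K) j => io (s j)) ''
          SmallValue ι k K io z T (T ^ (-(B : ℝ)))) ∧
        (SmallValue ι k K io z T (T ^ (-(B : ℝ)))).Finite ∧
        ((SmallValue ι k K io z T (T ^ (-(B : ℝ)))).ncard : ℝ) ≤
          D * C * T ^ ε * ((Height K T).ncard : ℝ) ^ (3 * Fintype.card ι - 1) := by
  classical
  have : Nonempty (Σ _ : ι, Fin (2 + 1)) := ⟨⟨Classical.arbitrary ι, 0⟩⟩
  obtain ⟨B, D, C, T₀, hC, hT₀, H⟩ := cov_small (ι := ι) k ε hε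
  refine ⟨B, D, C, T₀, hC, hT₀, fun T hT K _ _ hK io z hz => ?_⟩
  have hTp : 0 < T := by linarith
  have h1 := H K hK io z T hT hz _ le_rfl
  obtain ⟨h2, h3⟩ := cov_count io {x : K | Y120.HtLe K T x} (Y120.HtLe_fin K T) _ (fun s hs => hs.1) h1
  refine ⟨h1, h2, ?_⟩
  have h6 : Fintype.card (Σ _ : ι, Fin (2 + 1)) = 3 * Fintype.card ι := by
    rw [Fintype.card_sigma]
    simp [mul_comm]
  rw [h6] at h3
  have h4 : ((SmallValue ι k K io z T (T ^ (-(B : ℝ)))).ncard : ℝ) ≤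
      (⌊C * T ^ ε⌋₊ : ℝ) * (D * ({x : K | Y120.HtLe K T x}.ncard : ℝ) ^ (3 * Fintype.card ι - 1)) := by
    exact_mod_cast h3
  have h5 : ((⌊C * T ^ ε⌋₊ : ℕ) : ℝ) ≤ C * T ^ ε := Nat.floor_le (by positivity)
  have h7 : (Height K T) = {x : K | Y120.HtLe K T x} := rfl
  rw [h7]
  refine h4.trans ((mul_le_mul_of_nonneg_right h5 (by positivity)).trans (le_of_eq ?_))
  ring

theorem small_grow [Nonempty ι] (v : ℝ → ℝ) (hv : Tendsto v atTop atTop) :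
    ∃ (ω : ℝ → ℕ) (T₀ : ℝ), Tendsto ω atTop atTop ∧ Monotone ω ∧ ∀ T, T₀ ≤ T → 0 < ω T ∧
      ∀ (K : Type) [Field K] [NumberField K], Module.finrank ℚ K ≤ ω T → ∀ (io : K →+* ℂ) (z : Fin (ω T) → ℂ),
        (∀ i, ‖z i‖ ≤ T ^ ω T) →
        Cov ⌊T ^ ((ω T : ℝ)⁻¹)⌋₊ ⌊T ^ ((ω T : ℝ)⁻¹)⌋₊ ((fun (s : (Σ _ : ι, Fin (2 + 1)) → K) j => io (s j)) ''
          SmallValue ι (ω T) K io z T (T ^ (-v T))) ∧
        (SmallValue ι (ω T) K io z T (T ^ (-v T))).Finite ∧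
        ((SmallValue ι (ω T) K io z T (T ^ (-v T))).ncard : ℝ) ≤
          T ^ ((ω T : ℝ)⁻¹) * ((Height K T).ncard : ℝ) ^ (3 * Fintype.card ι - 1) := by
  classical
  have : Nonempty (Σ _ : ι, Fin (2 + 1)) := ⟨⟨Classical.arbitrary ι, 0⟩⟩
  obtain ⟨ω, T₀, h1, h2, h3⟩ := omega_gen (fun k => Fin k → ℂ)
    (fun k K _ _ io z T => {s : (Σ _ : ι, Fin (2 + 1)) → K | (∀ i, ‖z i‖ ≤ T ^ k) ∧
      s ∈ SmallValue ι k K io z T (T ^ (-v T))})
    (fun k K _ _ io p T s hs => hs.2.1) (by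
      intro k ε hε
      obtain ⟨B, D, C, T₁, hC, hT₁, H⟩ := cov_small (ι := ι) k ε hε
      obtain ⟨T₂, hT₂⟩ := (hv.eventually_ge_atTop (B : ℝ)).exists_forall_of_atTop
      refine ⟨D, C, max T₁ T₂, hC, hT₁.trans (le_max_left _ _), fun K _ _ hK io z T hT => ?_⟩
      have hTa : T₁ ≤ T := (le_max_left _ _).trans hT
      have hTb : T₂ ≤ T := (le_max_right _ _).trans hT
      by_cases hz : ∀ i, ‖z i‖ ≤ T ^ k
      · refine (H K hK io z T hTa hz (T ^ (-v T)) (Real.rpow_le_rpow_of_exponent_le (by linarith)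
          (neg_le_neg (hT₂ T hTb)))).mono le_rfl le_rfl (Set.image_mono fun s hs => hs.2)
      · refine ⟨∅, Nat.zero_le _, fun P hP => absurd hP (Finset.notMem_empty P), ?_⟩
        rintro _ ⟨s, hs, rfl⟩
        exact absurd hs.1 hz)
  refine ⟨ω, T₀, h1, h2, fun T hT => ⟨(h3 T hT).1, fun K _ _ hK io z hz => ?_⟩⟩
  have h4 := (h3 T hT).2 K hK io z
  have h5 : {s | (∀ i, ‖z i‖ ≤ T ^ ω T) ∧ s ∈ SmallValue ι (ω T) K io z T (T ^ (-v T))} =
      SmallValue ι (ω T) K io z T (T ^ (-v T)) := by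
    ext s
    exact ⟨fun h => h.2, fun h => ⟨hz, h⟩⟩
  have h6 : Fintype.card (Σ _ : ι, Fin (2 + 1)) = 3 * Fintype.card ι := by
    rw [Fintype.card_sigma]
    simp [mul_comm]
  rw [h6] at h4
  simp only [h5] at h4
  exact h4

end Pool.Agent.U543.XR
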