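import Pool.Agent.U543.PzFin
import Pool.Agent.U543.XrDef
import Pool.Agent.Y890.SM.Inst

/-!
# Normalised periods of elliptic curves
-/

set_option autoImplicit false
set_option linter.unusedSectionVars false

open NumberField Filter

namespace Pool.Agent.U543.XR

open Pool.Agent.Y890.MV
open Pool.Agent.Y890.SM
open Pool.Agent.Y890.HE (Conf pm)
open Pool.Agent.Y124 (Cov eval_eq_box sV sV_inj sV_apply)
open Pool.Agent.U543.GD (Height Inner)

variable {ι : Type} [Fintype ι] [DecidableEq ι]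

/-- embedding of exponents -/
def emb {k : ℕ} (l : ι → Fin 2) (g : ι × Fin 2 → Fin (k + 1)) : Ix (fun _ : ι => 2) → Fin (k + 1) :=
  fun q => if q.2.1 = l q.1 then g (q.1, q.2.2) else 0

/-- the inverse -/
def gi {k : ℕ} (l : ι → Fin 2) (l' : Ix (fun _ : ι => 2) → Fin (k + 1)) : ι × Fin 2 → Fin (k + 1) :=
  fun p => l' ⟨p.1, (l p.1, p.2)⟩

theorem gi_emb {k : ℕ} (l : ι → Fin 2) (g : ι × Fin 2 → Fin (k + 1)) : gi l (emb l g) = g := by
  funext p
  unfold gi emb
  simp

theorem emb_inj {k : ℕ} (l : ι → Fin 2) : Function.Injective (emb (k := k) l) := fun a b h => by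
  rw [← gi_emb l a, ← gi_emb l b, h]

theorem emb_prod {k : ℕ} (l : ι → Fin 2) (g : ι × Fin 2 → Fin (k + 1)) (Y : Ix (fun _ : ι => 2) → ℂ) :
    ∏ q, Y q ^ (emb l g q : ℕ) = ∏ p : ι × Fin 2, Y ⟨p.1, (l p.1, p.2)⟩ ^ (g p : ℕ) := by
  classical
  rw [Fintype.prod_sigma, Fintype.prod_prod_type]
  refine Finset.prod_congr rfl fun i _ => ?_
  rw [Fintype.prod_prod_type, Finset.prod_eq_single (l i)]
  · refine Finset.prod_congr rfl fun b _ => ?_
    simp [emb]
  · intro a _ ha
    refine Finset.prod_eq_one fun b _ => ?_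
    simp [emb, ha]
  · intro h
    exact absurd (Finset.mem_univ _) h

/-- the degree -/
def dg {k : ℕ} (g : ι × Fin 2 → Fin (k + 1)) : ℕ := ∑ p, (g p : ℕ)

/-- the bound of the degrees -/
def MM (ι : Type) [Fintype ι] (k : ℕ) : ℕ := Fintype.card (ι × Fin 2) * k

theorem dg_le {k : ℕ} (g : ι × Fin 2 → Fin (k + 1)) : dg g ≤ MM ι k := by
  unfold dg MM
  calc ∑ p, (g p : ℕ) ≤ ∑ _p : ι × Fin 2, k := Finset.sum_le_sum fun p _ => Nat.lt_succ_iff.1 (g p).2
    _ = _ := by rw [Finset.sum_const, Finset.card_univ, smul_eq_mul]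

/-- the coefficients -/
noncomputable def cc {K : Type} [Field K] {k : ℕ} (l : ι → Fin 2) (f : Fin k → MvPolynomial (ι × Fin 2) (𝓞 K))
    (l' : Ix (fun _ : ι => 2) → Fin (k + 1)) (p : Fin k × Fin (MM ι k + 1)) (_a : Fin 1) : 𝓞 K :=
  if emb l (gi l l') = l' ∧ dg (gi l l') = p.2 then (f p.1).coeff (sV (gi l l')) else 0

theorem cc_sum {K : Type} [Field K] (io : K →+* ℂ) {k : ℕ} (l : ι → Fin 2)
    (f : Fin k → MvPolynomial (ι × Fin 2) (𝓞 K)) (w : Fin k × Fin (MM ι k + 1) → ℂ)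
    (Y : Ix (fun _ : ι => 2) → ℂ) :
    ∑ l', (∑ p, w p * ∑ a : Fin 1, tpi ^ (a : ℕ) * io (cc l f l' p a : K)) * ∏ q, Y q ^ (l' q : ℕ) =
      ∑ g : ι × Fin 2 → Fin (k + 1), (∑ i, w (i, ⟨dg g, Nat.lt_succ_iff.2 (dg_le g)⟩) *
        io (((f i).coeff (sV g) : 𝓞 K) : K)) * ∏ p : ι × Fin 2, Y ⟨p.1, (l p.1, p.2)⟩ ^ (g p : ℕ) := by
  classical
  symm
  apply Fintype.sum_of_injective (emb l) (emb_inj l)
  · intro l' hl'
    have h1 : ∀ p a, cc l f l' p a = 0 := by
      intro p a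
      unfold cc
      rw [if_neg]
      rintro ⟨h2, -⟩
      exact hl' ⟨_, h2⟩
    simp [h1]
  · intro g
    rw [emb_prod]
    congr 1
    rw [Fintype.sum_prod_type]
    refine Finset.sum_congr rfl fun i _ => ?_
    rw [Finset.sum_eq_single (⟨dg g, Nat.lt_succ_iff.2 (dg_le g)⟩ : Fin (MM ι k + 1))]
    · simp [cc, gi_emb]
    · intro m _ hm
      have h1 : ∀ a, cc l f (emb l g) (i, m) a = 0 := by
        intro a
        unfold cc
        rw [if_neg]
        rintro ⟨-, h2⟩
        rw [gi_emb] at h2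
        exact hm (Fin.ext h2.symm)
      simp [h1]
    · intro h
      exact absurd (Finset.mem_univ _) h

theorem nval_eq {K : Type} [Field K] (io : K →+* ℂ) {k : ℕ} (l : ι → Fin 2)
    (f : MvPolynomial (ι × Fin 2) (𝓞 K)) (hf : ∀ p, f.degreeOf p ≤ k) (e : (Σ _ : ι, Fin (2 + 1)) → ℂ) :
    nval io f e l = ∑ g : ι × Fin 2 → Fin (k + 1), io ((f.coeff (sV g) : 𝓞 K) : K) * ∏ p, nrm e l p ^ (g p : ℕ) := by
  classical
  have h1 : nval io f e l = MvPolynomial.aeval (nrm e l) (MvPolynomial.map (io.comp (algebraMap (𝓞 K) K)) f) := by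
    rw [nval, MvPolynomial.aeval_def, MvPolynomial.eval₂_map]
    congr 1
  have hd : ∀ i, (MvPolynomial.map (io.comp (algebraMap (𝓞 K) K)) f).degreeOf i ≤ k := by
    intro i
    refine le_trans ?_ (hf i)
    rw [MvPolynomial.degreeOf_eq_sup, MvPolynomial.degreeOf_eq_sup]
    exact Finset.sup_mono (MvPolynomial.support_map_subset _ _)
  rw [h1, eval_eq_box _ _ hd]
  refine Finset.sum_congr rfl fun g _ => ?_
  rw [MvPolynomial.coeff_map]
  rfl

theorem box_zero' {k : ℕ} (c : (ι × Fin 2 → Fin (k + 1)) → ℂ)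
    (h : ∀ v : ι × Fin 2 → ℂ, (∀ i, v (i, 0) ≠ 0) → ∑ g, c g * ∏ p, v p ^ (g p : ℕ) = 0)
    (g : ι × Fin 2 → Fin (k + 1)) : c g = 0 := by
  classical
  have h1 : (∏ i : ι, (MvPolynomial.X (i, 0) : MvPolynomial (ι × Fin 2) ℂ)) *
      (∑ g, MvPolynomial.monomial (sV g) (c g)) = 0 := by
    apply MvPolynomial.funext
    intro v
    rw [map_mul, map_zero]
    by_cases hv : ∀ i, v (i, 0) ≠ 0
    · have h2 := h v hv
      have h3 : MvPolynomial.eval v (∑ g, MvPolynomial.monomial (sV g) (c g)) = 0 := by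
        rw [map_sum, ← h2]
        refine Finset.sum_congr rfl fun l _ => ?_
        rw [MvPolynomial.eval_monomial, Finsupp.prod_fintype _ _ (fun _ => pow_zero _)]
        rfl
      rw [h3, mul_zero]
    · push Not at hv
      obtain ⟨i, hi⟩ := hv
      have h3 : MvPolynomial.eval v (∏ i : ι, (MvPolynomial.X (i, 0) : MvPolynomial (ι × Fin 2) ℂ)) = 0 := by
        rw [map_prod]
        exact Finset.prod_eq_zero (Finset.mem_univ i) (by rw [MvPolynomial.eval_X, hi])
      rw [h3, zero_mul]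
  have h2 := (mul_eq_zero.1 h1).resolve_left (Finset.prod_ne_zero_iff.2 fun i _ => MvPolynomial.X_ne_zero _)
  have h3 := congrArg (MvPolynomial.coeff (sV g)) h2
  rw [MvPolynomial.coeff_sum, MvPolynomial.coeff_zero, Finset.sum_eq_single g] at h3
  · rwa [MvPolynomial.coeff_monomial, if_pos rfl] at h3
  · intro b _ hb
    rw [MvPolynomial.coeff_monomial, if_neg fun h => hb (sV_inj h)]
  · intro h
    exact absurd (Finset.mem_univ _) h

theorem two_alt (M A : Matrix (Fin 2) (Fin 2) ℂ) (hA : A.transpose = -A) :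
    M * A * M.transpose = M.det • A := by
  have h00 : A 0 0 = 0 := by
    have h := congrFun (congrFun hA 0) 0
    simp only [Matrix.transpose_apply, Matrix.neg_apply] at h
    linear_combination h / 2
  have h11 : A 1 1 = 0 := by
    have h := congrFun (congrFun hA 1) 1
    simp only [Matrix.transpose_apply, Matrix.neg_apply] at h
    linear_combination h / 2
  have h10 : A 1 0 = -A 0 1 := by
    have h := congrFun (congrFun hA 0) 1
    simpa only [Matrix.transpose_apply, Matrix.neg_apply] using h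
  ext i j
  fin_cases i <;> fin_cases j <;>
    simp [Matrix.mul_apply, Fin.sum_univ_two, Matrix.det_fin_two, h00, h11, h10] <;> ring

/-- the rows of the elements of the torsor are arbitrary -/
theorem exists_row {x : (Σ _ : ι, Fin (2 + 1)) → ℂ} (hx : x ∈ (hyp (fun _ : ι => 2) fun _ => even_two).U)
    (l : ι → Fin 2) (v : ι × Fin 2 → ℂ) (hv : ∀ i, v (i, 0) ≠ 0) :
    ∃ Y ∈ (hyp (fun _ : ι => 2) fun _ => even_two).Tor x, ∀ p : ι × Fin 2, Y ⟨p.1, (l p.1, p.2)⟩ = v p := by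
  classical
  obtain ⟨F, hF⟩ : ∃ F, F = hyp (fun _ : ι => 2) fun _ => even_two := ⟨_, rfl⟩
  rw [← hF] at hx ⊢
  have hQ : ∀ i, (F.Qx x i).transpose = -F.Qx x i := by
    intro i
    unfold SympFam.Qx
    rw [← Matrix.transpose_map, F.Q_alt]
    ext a b
    simp
  have hM : ∀ i, ∃ M : Matrix (Fin 2) (Fin 2) ℂ, M.det = (F.P i x).det ∧ ∀ b, M (l i) b = v (i, b) := by
    intro i
    have h0 := hv i
    have hl : l i = 0 ∨ l i = 1 := by
      have := (l i).2
      rcases Nat.lt_or_ge (l i : ℕ) 1 with h | h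
      · left
        apply Fin.ext
        show (l i : ℕ) = 0
        omega
      · right
        apply Fin.ext
        show (l i : ℕ) = 1
        omega
    rcases hl with hl | hl
    · refine ⟨!![v (i, 0), v (i, 1); 0, (F.P i x).det / v (i, 0)], ?_, ?_⟩
      · rw [Matrix.det_fin_two_of, mul_zero, sub_zero, mul_div_cancel₀ _ h0]
      · intro b
        rw [hl]
        fin_cases b <;> rfl
    · refine ⟨!![0, -(F.P i x).det / v (i, 0); v (i, 0), v (i, 1)], ?_, ?_⟩
      · rw [Matrix.det_fin_two_of, zero_mul, zero_sub, div_mul_cancel₀ _ h0, neg_neg]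
      · intro b
        rw [hl]
        fin_cases b <;> rfl
  choose M hM1 hM2 using hM
  refine ⟨fun q => M q.1 q.2.1 q.2.2, fun i => ?_, fun p => hM2 p.1 p.2⟩
  have h1 : bl (fun q : Ix (fun _ : ι => 2) => M q.1 q.2.1 q.2.2) i = M i := rfl
  rw [h1]
  have h2 := two_alt (M i) (F.Qx x i) (hQ i)
  have h3 := two_alt (F.P i x) (F.Qx x i) (hQ i)
  have h4 := F.riemann x hx i
  rw [h2, hM1, ← h3]
  exact h4

end Pool.Agent.U543.XR
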